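import Pool.Agent.KSP.Targets2
import Pool.Agent.MBS.J1
import Pool.Agent.MBS.J5

set_option autoImplicit false

/-! KSP-AH: fine annuli contribute little on a unit disc. -/

namespace Pool.Agent.KSP

open MeasureTheory FourierTransform Set Filter Topology
open scoped ENNReal NNReal
open Pool.Agent.MBS

namespace AH_

lemma T_eq (a : E 2 → ℝ) (h : E 2 → ℂ) (x : E 2) :
    T a h x = IE (fun ξ => (a ξ : ℂ) * h ξ) x := by
  unfold T IE
  refine integral_congr_ae (Filter.Eventually.of_forall fun ξ => ?_)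
  show (a ξ : ℂ) * (h ξ * ex x ξ) = (a ξ : ℂ) * h ξ * ex x ξ
  ring

/-- the set of relevant radii has small measure -/
lemma measR (i : ℕ) {c : ℝ} (hc : 0 < c) (ξ : E 2) :
    volume {R : ℝ | R ∈ Icc c (2 * c) ∧ 1 / 8 ≤ vv i R ξ ∧ vv i R ξ ≤ 1 / 2} ≤
      ENNReal.ofReal (4 * c / 2 ^ i) := by
  have hsub : {R : ℝ | R ∈ Icc c (2 * c) ∧ 1 / 8 ≤ vv i R ξ ∧ vv i R ξ ≤ 1 / 2} ⊆
      (fun R => c⁻¹ * R) ⁻¹'
        {R : ℝ | R ∈ Icc (1 : ℝ) 2 ∧ 1 / 8 ≤ vv i R (c⁻¹ • ξ) ∧ vv i R (c⁻¹ • ξ) ≤ 1 / 2} := by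
    rintro R ⟨⟨h1, h2⟩, h3, h4⟩
    have hR : 0 < R := lt_of_lt_of_le hc h1
    have e : vv i (c⁻¹ * R) (c⁻¹ • ξ) = vv i R ξ := by
      unfold vv
      rw [norm_smul, Real.norm_eq_abs, abs_of_pos (inv_pos.2 hc)]
      congr 2
      field_simp
    refine ⟨⟨?_, ?_⟩, ?_, ?_⟩
    · show 1 ≤ c⁻¹ * R
      rw [inv_mul_eq_div, le_div_iff₀ hc]
      linarith
    · show c⁻¹ * R ≤ 2
      rw [inv_mul_eq_div, div_le_iff₀ hc]
      linarith
    · show 1 / 8 ≤ vv i (c⁻¹ * R) (c⁻¹ • ξ)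
      rw [e]; exact h3
    · show vv i (c⁻¹ * R) (c⁻¹ • ξ) ≤ 1 / 2
      rw [e]; exact h4
  refine (measure_mono hsub).trans ?_
  rw [Real.volume_preimage_mul_left (inv_ne_zero hc.ne'), inv_inv, abs_of_pos hc]
  refine (mul_le_mul' le_rfl (pMeasR 2 i (c⁻¹ • ξ))).trans (le_of_eq ?_)
  rw [← ENNReal.ofReal_mul hc.le]
  congr 1
  ring

/-- range of frequencies -/
lemma annul {i : ℕ} {c R : ℝ} (hc : 0 < c) (hR : R ∈ Icc c (2 * c)) {ξ : E 2}
    (h1 : 1 / 8 ≤ vv i R ξ) (h2 : vv i R ξ ≤ 1 / 2) : c / 2 ≤ ‖ξ‖ ∧ ‖ξ‖ ≤ 2 * c := by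
  have hR0 : 0 < R := lt_of_lt_of_le hc hR.1
  obtain ⟨a1, a2⟩ := vv_range hR0 h1 h2
  have hN : (1 : ℝ) ≤ 2 ^ i := one_le_pow₀ (by norm_num)
  have h3 : 1 / (2 * (2 : ℝ) ^ i) ≤ 1 / 2 := by
    apply one_div_le_one_div_of_le (by norm_num)
    linarith
  have h7 := norm_nonneg ξ
  have h8 : R ^ 2 * (1 / 2) ≤ R ^ 2 * (1 - 1 / (2 * 2 ^ i)) := by
    apply mul_le_mul_of_nonneg_left _ (by positivity)
    linarith
  have h9 : c ^ 2 ≤ R ^ 2 := by
    have := hR.1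
    gcongr
  have h10 : ‖ξ‖ ≤ R := (sq_le_sq₀ h7 hR0.le).1 a1
  constructor
  · have : (c / 2) ^ 2 ≤ ‖ξ‖ ^ 2 := by nlinarith
    exact (sq_le_sq₀ (by positivity) h7).1 this
  · linarith [hR.2]

/-- the support of the multiplier meets a unit disc in a set of small area -/
lemma area {C1 : ℝ≥0} (hA : ∀ (a b : ℝ) (ξ : E 2), 0 ≤ a → a ≤ b →
      volume ({η : E 2 | a ≤ ‖η‖ ∧ ‖η‖ ≤ b} ∩ Metric.closedBall ξ 1) ≤ C1 * ENNReal.ofReal (b - a))
    {i : ℕ} {c R : ℝ} (hc : 0 < c) (hR : R ∈ Icc c (2 * c)) {b : E 2 → ℂ}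
    (hb : ∀ ξ, (vv i R ξ < 1 / 8 ∨ 1 / 2 < vv i R ξ) → b ξ = 0) (ξ : E 2) :
    volume ({η | b η ≠ 0} ∩ Metric.closedBall ξ 1) ≤ C1 * ENNReal.ofReal (c / 2 ^ i) := by
  have hR0 : 0 < R := lt_of_lt_of_le hc hR.1
  have hN : (1 : ℝ) ≤ 2 ^ i := one_le_pow₀ (by norm_num)
  have hN0 : (0 : ℝ) < 2 ^ i := by linarith
  set s : ℝ := 1 / (2 * 2 ^ i) with hs
  have hs0 : 0 < s := by positivity
  have hs1 : s ≤ 1 / 2 := by
    apply one_div_le_one_div_of_le (by norm_num)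
    linarith
  have hsub : {η | b η ≠ 0} ⊆ {η : E 2 | R * (1 - s) ≤ ‖η‖ ∧ ‖η‖ ≤ R} := by
    intro η hη
    have hv : 1 / 8 ≤ vv i R η ∧ vv i R η ≤ 1 / 2 := by
      by_contra hcon
      apply hη
      apply hb
      by_contra h2
      push Not at h2
      exact hcon h2
    obtain ⟨a1, a2⟩ := vv_range hR0 hv.1 hv.2
    have h7 := norm_nonneg η
    constructor
    · have : (R * (1 - s)) ^ 2 ≤ ‖η‖ ^ 2 := by
        refine le_trans ?_ a2
        rw [← hs, mul_pow]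
        apply mul_le_mul_of_nonneg_left _ (by positivity)
        nlinarith
      exact (sq_le_sq₀ (mul_nonneg hR0.le (by linarith)) h7).1 this
    · exact (sq_le_sq₀ h7 hR0.le).1 a1
  refine (measure_mono (inter_subset_inter_left _ hsub)).trans ?_
  refine (hA _ _ ξ (mul_nonneg hR0.le (by linarith)) (by nlinarith)).trans ?_
  gcongr
  have e1 : R - R * (1 - s) = R * s := by ring
  rw [e1]
  calc R * s ≤ (2 * c) * s := mul_le_mul_of_nonneg_right hR.2 hs0.le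
    _ = c / 2 ^ i := by rw [hs]; field_simp

section main

variable {i : ℕ} {c : ℝ} {b : ℝ → E 2 → ℝ} {h : E 2 → ℂ}

lemma cont_x (hc : 0 < c) (hb : Fam b) (hh : Continuous h) (x : E 2) :
    ContinuousOn (fun R => T (b R) h x) (Icc c (2 * c)) :=
  (pTcont 2 b h hb hh).comp (f := fun R : ℝ => (R, x)) (by fun_prop)
    (fun _ hR => ⟨lt_of_lt_of_le hc hR.1, mem_univ _⟩)

lemma meas_T (hc : 0 < c) (hb : Fam b) (hh : Continuous h) (x0 : E 2) :
    AEMeasurable (fun p : E 2 × ℝ => ‖T (b p.2) h p.1‖ₑ ^ 2)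
      ((volume.restrict (Metric.closedBall x0 1)).prod (volume.restrict (Icc c (2 * c)))) := by
  have h1 : ContinuousOn (fun p : E 2 × ℝ => ‖T (b p.2) h p.1‖ₑ ^ 2)
      (Metric.closedBall x0 1 ×ˢ Icc c (2 * c)) := by
    have h2 : ContinuousOn (fun p : E 2 × ℝ => T (b p.2) h p.1)
        (Metric.closedBall x0 1 ×ˢ Icc c (2 * c)) :=
      (pTcont 2 b h hb hh).comp (f := fun p : E 2 × ℝ => (p.2, p.1)) (by fun_prop)
        (fun p hp => ⟨lt_of_lt_of_le hc hp.2.1, mem_univ _⟩)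
    exact (ENNReal.continuous_pow 2).comp_continuousOn h2.enorm
  have h3 := h1.aemeasurable (μ := (volume : Measure (E 2)).prod (volume : Measure ℝ))
    (Metric.isClosed_closedBall.measurableSet.prod measurableSet_Icc)
  rwa [← Measure.prod_restrict] at h3

/-- double integral for one family -/
lemma fam_est {C0 C1 : ℝ≥0} (h0 : ∀ (g : E 2 → ℂ) (x0 : E 2) (V : ℝ≥0∞), BdE g →
      (∀ ξ, volume ({η | g η ≠ 0} ∩ Metric.closedBall ξ 1) ≤ V) →
      ∫⁻ x in Metric.closedBall x0 1, ‖IE g x‖ₑ ^ 2 ≤ C0 * V * ∫⁻ ξ, ‖g ξ‖ₑ ^ 2)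
    (hA : ∀ (a b : ℝ) (ξ : E 2), 0 ≤ a → a ≤ b →
      volume ({η : E 2 | a ≤ ‖η‖ ∧ ‖η‖ ≤ b} ∩ Metric.closedBall ξ 1) ≤ C1 * ENNReal.ofReal (b - a))
    (hc : 0 < c) (hb : Fam b) (hh : Continuous h) {K : ℝ} (hK : 0 ≤ K)
    (hz : ∀ R ∈ Icc c (2 * c), ∀ ξ, (vv i R ξ < 1 / 8 ∨ 1 / 2 < vv i R ξ) → b R ξ = 0)
    (hbd : ∀ R ∈ Icc c (2 * c), ∀ ξ, 1 / 8 ≤ vv i R ξ → vv i R ξ ≤ 1 / 2 → |b R ξ| ≤ K)
    (x0 : E 2) :
    ∫⁻ x in Metric.closedBall x0 1, ∫⁻ R in Icc c (2 * c), ‖T (b R) h x‖ₑ ^ 2 ≤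
      C0 * C1 * ENNReal.ofReal (c / 2 ^ i) * (ENNReal.ofReal (K ^ 2 * (4 * c / 2 ^ i)) *
        ∫⁻ ξ in {ξ : E 2 | c / 2 ≤ ‖ξ‖ ∧ ‖ξ‖ ≤ 2 * c}, ‖h ξ‖ₑ ^ 2) := by
  have hpos : ∀ R ∈ Icc c (2 * c), 0 < R := fun R hR => lt_of_lt_of_le hc hR.1
  rw [lintegral_lintegral_swap (meas_T hc hb hh x0)]
  -- step 1: local orthogonality
  have s1 : ∀ R ∈ Icc c (2 * c), ∫⁻ x in Metric.closedBall x0 1, ‖T (b R) h x‖ₑ ^ 2 ≤
      C0 * C1 * ENNReal.ofReal (c / 2 ^ i) * ∫⁻ ξ, ‖b R ξ‖ₑ ^ 2 * ‖h ξ‖ₑ ^ 2 := by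
    intro R hR
    have hbc : Continuous (b R) := hb.continuous (hpos R hR)
    set g : E 2 → ℂ := fun ξ => (b R ξ : ℂ) * h ξ with hg
    have hgc : Continuous g := (Complex.continuous_ofReal.comp hbc).mul hh
    have hgs : HasCompactSupport g := by
      have h1 : HasCompactSupport (fun ξ => (b R ξ : ℂ)) :=
        (hb.hasCompactSupport (hpos R hR)).comp_left (g := fun t : ℝ => (t : ℂ)) (by simp)
      exact h1.mul_right
    have hgb : BdE g := by
      refine ⟨hgc.measurable, hgs.exists_bound_of_continuous hgc, R, fun ξ hξ => ?_⟩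
      by_contra hcon
      push Not at hcon
      apply hξ
      show (b R ξ : ℂ) * h ξ = 0
      rw [hb.supp R (hpos R hR) ξ hcon]
      simp
    have h2 := h0 g x0 (C1 * ENNReal.ofReal (c / 2 ^ i)) hgb
      (fun ξ => area hA hc hR (b := g) (fun η hη => by
        show (b R η : ℂ) * h η = 0
        rw [hz R hR η hη]
        simp) ξ)
    calc ∫⁻ x in Metric.closedBall x0 1, ‖T (b R) h x‖ₑ ^ 2
        = ∫⁻ x in Metric.closedBall x0 1, ‖IE g x‖ₑ ^ 2 := by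
          refine lintegral_congr fun x => ?_
          rw [T_eq]
      _ ≤ _ := h2
      _ = _ := by
          rw [← mul_assoc]
          congr 1
          refine lintegral_congr fun ξ => ?_
          rw [hg]
          simp only [enorm_mul]
          rw [mul_pow]
          congr 2
          rw [← ofReal_norm, ← ofReal_norm, Complex.norm_real]
  have s2 : ∫⁻ R in Icc c (2 * c), ∫⁻ x in Metric.closedBall x0 1, ‖T (b R) h x‖ₑ ^ 2 ≤
      ∫⁻ R in Icc c (2 * c), C0 * C1 * ENNReal.ofReal (c / 2 ^ i) *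
        ∫⁻ ξ, ‖b R ξ‖ₑ ^ 2 * ‖h ξ‖ₑ ^ 2 :=
    setLIntegral_mono' measurableSet_Icc s1
  refine s2.trans ?_
  have hcon : (C0 : ℝ≥0∞) * C1 * ENNReal.ofReal (c / 2 ^ i) ≠ ⊤ :=
    ENNReal.mul_ne_top (ENNReal.mul_ne_top ENNReal.coe_ne_top ENNReal.coe_ne_top)
      ENNReal.ofReal_ne_top
  rw [lintegral_const_mul' _ _ hcon]
  gcongr
  -- step 2: Tonelli
  have m' : AEMeasurable (fun p : ℝ × E 2 => ‖b p.1 p.2‖ₑ ^ 2 * ‖h p.2‖ₑ ^ 2)
      ((volume.restrict (Icc c (2 * c))).prod (volume : Measure (E 2))) := by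
    have h1 : ContinuousOn (fun p : ℝ × E 2 => ‖b p.1 p.2‖ₑ ^ 2) (Icc c (2 * c) ×ˢ univ) := by
      have h2 : ContinuousOn (fun p : ℝ × E 2 => b p.1 p.2) (Icc c (2 * c) ×ˢ univ) :=
        hb.cont.mono (prod_mono (fun R hR => hpos R hR) le_rfl)
      exact (ENNReal.continuous_pow 2).comp_continuousOn h2.enorm
    have h3 := h1.aemeasurable (μ := (volume : Measure ℝ).prod (volume : Measure (E 2)))
      (measurableSet_Icc.prod MeasurableSet.univ)
    rw [← Measure.prod_restrict, Measure.restrict_univ] at h3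
    refine h3.mul ?_
    exact (((hh.comp continuous_snd).enorm.measurable).pow_const 2).aemeasurable
  rw [lintegral_lintegral_swap (μ := volume.restrict (Icc c (2 * c)))
    (ν := (volume : Measure (E 2))) (f := fun R ξ => ‖b R ξ‖ₑ ^ 2 * ‖h ξ‖ₑ ^ 2) m']
  set A : Set (E 2) := {ξ : E 2 | c / 2 ≤ ‖ξ‖ ∧ ‖ξ‖ ≤ 2 * c} with hAdef
  have hAm : MeasurableSet A := by
    have h1 : MeasurableSet {ξ : E 2 | c / 2 ≤ ‖ξ‖} :=
      measurableSet_le measurable_const measurable_norm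
    have h2 : MeasurableSet {ξ : E 2 | ‖ξ‖ ≤ 2 * c} :=
      measurableSet_le measurable_norm measurable_const
    exact h1.inter h2
  rw [← lintegral_const_mul' _ _ ENNReal.ofReal_ne_top, ← lintegral_indicator hAm]
  refine lintegral_mono fun ξ => ?_
  dsimp only
  rw [lintegral_mul_const' _ _ (ENNReal.pow_ne_top enorm_ne_top)]
  set Z : Set ℝ := {R : ℝ | R ∈ Icc c (2 * c) ∧ 1 / 8 ≤ vv i R ξ ∧ vv i R ξ ≤ 1 / 2} with hZ
  have hZm : volume Z ≤ ENNReal.ofReal (4 * c / 2 ^ i) := measR i hc ξ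
  have hvm : Measurable (fun R : ℝ => vv i R ξ) := by
    unfold vv
    fun_prop
  have hZms : MeasurableSet Z := by
    refine measurableSet_Icc.inter ?_
    exact (measurableSet_le measurable_const hvm).inter (measurableSet_le hvm measurable_const)
  have key : ∫⁻ R in Icc c (2 * c), ‖b R ξ‖ₑ ^ 2 ≤ ENNReal.ofReal (K ^ 2 * (4 * c / 2 ^ i)) := by
    calc ∫⁻ R in Icc c (2 * c), ‖b R ξ‖ₑ ^ 2
        ≤ ∫⁻ R in Icc c (2 * c), Z.indicator (fun _ => ENNReal.ofReal (K ^ 2)) R := by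
          refine setLIntegral_mono' measurableSet_Icc fun R hR => ?_
          by_cases hRZ : R ∈ Z
          · rw [indicator_of_mem hRZ, ENNReal.ofReal_pow hK]
            gcongr
            rw [← ofReal_norm, Real.norm_eq_abs]
            exact ENNReal.ofReal_le_ofReal (hbd R hR ξ hRZ.2.1 hRZ.2.2)
          · rw [indicator_of_notMem hRZ, hz R hR ξ]
            · simp
            · by_contra hcon
              push Not at hcon
              exact hRZ ⟨hR, hcon.1, hcon.2⟩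
      _ ≤ ∫⁻ R, Z.indicator (fun _ => ENNReal.ofReal (K ^ 2)) R := setLIntegral_le_lintegral _ _
      _ = ENNReal.ofReal (K ^ 2) * volume Z := by
          rw [lintegral_indicator hZms, setLIntegral_const]
      _ ≤ ENNReal.ofReal (K ^ 2) * ENNReal.ofReal (4 * c / 2 ^ i) := by gcongr
      _ = _ := by rw [← ENNReal.ofReal_mul (by positivity)]
  by_cases hξ : ξ ∈ A
  · rw [indicator_of_mem hξ]
    gcongr
  · rw [indicator_of_notMem hξ]
    have h0 : ∫⁻ R in Icc c (2 * c), ‖b R ξ‖ₑ ^ 2 = 0 := by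
      rw [← lintegral_zero (μ := volume.restrict (Icc c (2 * c)))]
      refine setLIntegral_congr_fun measurableSet_Icc fun R hR => ?_
      have : b R ξ = 0 := by
        apply hz R hR ξ
        by_contra hcon
        push Not at hcon
        exact hξ (annul hc hR hcon.1 hcon.2)
      simp only [this, enorm_zero]
      norm_num
    rw [h0, zero_mul]

end main

end AH_

open AH_ in
theorem pAH (h0 : tAH0) (hA : tArea) (hS : tSobI) : tAH := by
  obtain ⟨C0, h0⟩ := h0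
  obtain ⟨C1, hA⟩ := hA
  obtain ⟨B, hB1, hB⟩ := exists_bd
  refine ⟨C0 * C1 * (24 * B ^ 2).toNNReal, fun i c h x0 hc hh => ?_⟩
  set N : ℝ := 2 ^ i with hNdef
  have hN1 : 1 ≤ N := one_le_pow₀ (by norm_num)
  have hN0 : 0 < N := by linarith
  have hpos : ∀ R ∈ Icc c (2 * c), 0 < R := fun R hR => lt_of_lt_of_le hc hR.1
  set I := ∫⁻ ξ in {ξ : E 2 | c / 2 ≤ ‖ξ‖ ∧ ‖ξ‖ ≤ 2 * c}, ‖h ξ‖ₑ ^ 2 with hI
  have e1 := fam_est (i := i) h0 hA hc (fam_mul i) hh (K := B) (by linarith)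
    (fun R _ ξ hv => ps_zero (hv.imp le_of_lt le_of_lt)) (fun R _ ξ _ _ => (hB _).1) x0
  have e2 := fam_est (i := i) h0 hA hc (fam_mR i) hh (K := B * (2 * N / c)) (by positivity)
    (fun R _ ξ hv => by
      unfold mR
      rw [ps1_zero hv, zero_mul])
    (fun R hR ξ h1 h2 => by
      have hR0 := hpos R hR
      obtain ⟨a1, _⟩ := vv_range hR0 h1 h2
      unfold mR
      rw [abs_mul]
      have h3 : |2 * 2 ^ i * ‖ξ‖ ^ 2 / R ^ 3| ≤ 2 * N / c := by
        rw [abs_of_nonneg (by positivity), div_le_div_iff₀ (by positivity) hc, ← hNdef]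
        have h4 : ‖ξ‖ ^ 2 * c ≤ R ^ 3 := by
          calc ‖ξ‖ ^ 2 * c ≤ R ^ 2 * R := by
                apply mul_le_mul a1 hR.1 hc.le (by positivity)
            _ = R ^ 3 := by ring
        calc 2 * N * ‖ξ‖ ^ 2 * c = 2 * N * (‖ξ‖ ^ 2 * c) := by ring
          _ ≤ 2 * N * R ^ 3 := by gcongr
      exact mul_le_mul (hB _).2.1 h3 (abs_nonneg _) (by linarith)) x0
  -- pointwise estimate
  have hl : 0 < N / c := by positivity
  have hpt : ∀ x, (⨆ R ∈ Icc c (2 * c), ‖T (mul i R) h x‖ₑ) ^ 2 ≤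
      ENNReal.ofReal (2 * N / c) * (∫⁻ R in Icc c (2 * c), ‖T (mul i R) h x‖ₑ ^ 2) +
        ENNReal.ofReal (c / N) * ∫⁻ R in Icc c (2 * c), ‖T (mR i R) h x‖ₑ ^ 2 := by
    intro x
    have key : ∀ R ∈ Icc c (2 * c), ‖T (mul i R) h x‖ₑ ^ 2 ≤
        ENNReal.ofReal (2 * N / c) * (∫⁻ R in Icc c (2 * c), ‖T (mul i R) h x‖ₑ ^ 2) +
        ENNReal.ofReal (c / N) * ∫⁻ R in Icc c (2 * c), ‖T (mR i R) h x‖ₑ ^ 2 := by
      intro R hR
      have k := (hS c (2 * c) (N / c) (fun R => T (mul i R) h x) (fun R => T (mR i R) h x)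
        (by linarith) hl (cont_x hc (fam_mR i) hh x)
        (fun t ht => pTderiv 2 (mul i) (mR i) h (fam_mul i) (fam_mR i) hh (derR_mul i) t
          (hpos t ht) x) R hR).1
      refine k.trans ?_
      have i1 : (2 * c - c)⁻¹ + N / c ≤ 2 * N / c := by
        have : (2 * c - c)⁻¹ = 1 / c := by
          rw [show 2 * c - c = c by ring, one_div]
        rw [this, ← add_div]
        gcongr
        linarith
      have i2 : (N / c)⁻¹ = c / N := inv_div _ _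
      rw [i2]
      gcongr
    have hs : (⨆ R ∈ Icc c (2 * c), ‖T (mul i R) h x‖ₑ) ≤
        (ENNReal.ofReal (2 * N / c) * (∫⁻ R in Icc c (2 * c), ‖T (mul i R) h x‖ₑ ^ 2) +
        ENNReal.ofReal (c / N) * ∫⁻ R in Icc c (2 * c), ‖T (mR i R) h x‖ₑ ^ 2) ^ (1 / 2 : ℝ) := by
      refine iSup₂_le fun R hR => ?_
      calc ‖T (mul i R) h x‖ₑ = (‖T (mul i R) h x‖ₑ ^ 2) ^ (1 / 2 : ℝ) := by
            rw [← ENNReal.rpow_natCast, ← ENNReal.rpow_mul]
            norm_num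
        _ ≤ _ := ENNReal.rpow_le_rpow (key R hR) (by norm_num)
    calc (⨆ R ∈ Icc c (2 * c), ‖T (mul i R) h x‖ₑ) ^ 2 ≤ _ ^ 2 := pow_le_pow_left' hs 2
      _ = _ := by
        rw [← ENNReal.rpow_natCast, ← ENNReal.rpow_mul]
        norm_num
  have m0 := (meas_T hc (fam_mul i) hh x0).lintegral_prod_right'
  calc ∫⁻ x in Metric.closedBall x0 1, (⨆ R ∈ Icc c (2 * c), ‖T (mul i R) h x‖ₑ) ^ 2
      ≤ ∫⁻ x in Metric.closedBall x0 1,
        (ENNReal.ofReal (2 * N / c) * (∫⁻ R in Icc c (2 * c), ‖T (mul i R) h x‖ₑ ^ 2) +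
        ENNReal.ofReal (c / N) * ∫⁻ R in Icc c (2 * c), ‖T (mR i R) h x‖ₑ ^ 2) :=
        lintegral_mono hpt
    _ = ENNReal.ofReal (2 * N / c) * (∫⁻ x in Metric.closedBall x0 1,
          ∫⁻ R in Icc c (2 * c), ‖T (mul i R) h x‖ₑ ^ 2) +
        ENNReal.ofReal (c / N) * ∫⁻ x in Metric.closedBall x0 1,
          ∫⁻ R in Icc c (2 * c), ‖T (mR i R) h x‖ₑ ^ 2 := by
        rw [lintegral_add_left', lintegral_const_mul' _ _ ENNReal.ofReal_ne_top,
          lintegral_const_mul' _ _ ENNReal.ofReal_ne_top]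
        exact m0.const_mul _
    _ ≤ ENNReal.ofReal (2 * N / c) * (C0 * C1 * ENNReal.ofReal (c / N) *
          (ENNReal.ofReal (B ^ 2 * (4 * c / N)) * I)) +
        ENNReal.ofReal (c / N) * (C0 * C1 * ENNReal.ofReal (c / N) *
          (ENNReal.ofReal ((B * (2 * N / c)) ^ 2 * (4 * c / N)) * I)) := by
        gcongr
    _ = C0 * C1 * ((ENNReal.ofReal (2 * N / c) * ENNReal.ofReal (c / N) *
          ENNReal.ofReal (B ^ 2 * (4 * c / N))) +
          (ENNReal.ofReal (c / N) * ENNReal.ofReal (c / N) *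
          ENNReal.ofReal ((B * (2 * N / c)) ^ 2 * (4 * c / N)))) * I := by ring
    _ = C0 * C1 * ENNReal.ofReal (24 * B ^ 2 * (c / N)) * I := by
        rw [← ENNReal.ofReal_mul (by positivity), ← ENNReal.ofReal_mul (by positivity),
          ← ENNReal.ofReal_mul (by positivity), ← ENNReal.ofReal_mul (by positivity),
          ← ENNReal.ofReal_add (by positivity) (by positivity)]
        congr 3
        field_simp
        ring
    _ = _ := by
        rw [ENNReal.ofReal_mul (by positivity)]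
        push_cast
        rw [ENNReal.ofReal]
        ring

end Pool.Agent.KSP
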