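import Pool.Agent.KSP.Targets2
import Pool.Agent.MBS.J1

set_option autoImplicit false

/-! KSP-AH0: local orthogonality. -/

namespace Pool.Agent.KSP

open MeasureTheory FourierTransform Set Filter Topology
open scoped ENNReal NNReal
open Pool.Agent.MBS (E ex T S Sstar et ps mul pm Tstar Pstar MF ex_norm ex_continuous)

namespace AH0_

lemma ex_add (x ξ η : E 2) : ex x (ξ + η) = ex x ξ * ex x η := by
  unfold ex
  rw [← Complex.exp_add, inner_add_right]
  congr 1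
  push_cast
  ring

lemma ex_add_left (x y ξ : E 2) : ex (x + y) ξ = ex x ξ * ex y ξ := by
  unfold ex
  rw [← Complex.exp_add, inner_add_left]
  congr 1
  push_cast
  ring

lemma cont_ker (x : E 2) : Continuous fun ξ : E 2 => ex x ξ :=
  ex_continuous.comp (continuous_const.prodMk continuous_id)

/-- bounded functions of bounded support are integrable -/
lemma Bd_int {h : E 2 → ℂ} (hh : BdE h) : Integrable h := by
  obtain ⟨hm, ⟨B, hB⟩, R, hR⟩ := hh
  have hon : IntegrableOn h (Metric.closedBall 0 R) := by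
    refine Measure.integrableOn_of_bounded (isCompact_closedBall _ _).measure_lt_top.ne
      hm.aestronglyMeasurable (M := B) ?_
    exact Filter.Eventually.of_forall hB
  rw [← integrableOn_iff_integrable_of_support_subset (s := Metric.closedBall 0 R)]
  · exact hon
  · intro ξ hξ
    rw [mem_closedBall_zero_iff]
    exact hR ξ hξ

/-- convolution on the Fourier side -/
noncomputable def cvE (g h : E 2 → ℂ) (ζ : E 2) : ℂ := ∫ η, g η * h (ζ - η)

lemma cv_supp (g h : E 2 → ℂ) (ζ : E 2) (hζ : cvE g h ζ ≠ 0) :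
    ∃ η, g η ≠ 0 ∧ h (ζ - η) ≠ 0 := by
  by_contra hcon
  push Not at hcon
  apply hζ
  unfold cvE
  have e : (fun η => g η * h (ζ - η)) = fun _ => 0 := by
    funext η
    by_cases hg : g η = 0
    · rw [hg, zero_mul]
    · rw [hcon η hg, mul_zero]
  rw [e, integral_zero]

lemma cv_bd {g h : E 2 → ℂ} (hg : BdE g) (hh : BdE h) : BdE (cvE g h) := by
  have hgi := Bd_int hg
  obtain ⟨hgm, ⟨B, hB⟩, R, hR⟩ := hg
  obtain ⟨hhm, ⟨B', hB'⟩, R', hR'⟩ := hh
  refine ⟨?_, ⟨B' * ∫ η, ‖g η‖, ?_⟩, R + R', ?_⟩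
  · have hm : Measurable fun p : E 2 × E 2 => g p.2 * h (p.1 - p.2) :=
      (hgm.comp measurable_snd).mul (hhm.comp (measurable_fst.sub measurable_snd))
    have := hm.stronglyMeasurable.integral_prod_right' (ν := (volume : Measure (E 2)))
    exact this.measurable
  · intro ζ
    unfold cvE
    calc ‖∫ η, g η * h (ζ - η)‖ ≤ ∫ η, ‖g η * h (ζ - η)‖ := norm_integral_le_integral_norm _
      _ ≤ ∫ η, B' * ‖g η‖ := by
          refine integral_mono_of_nonneg (Filter.Eventually.of_forall fun _ => norm_nonneg _)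
            (hgi.norm.const_mul _) (Filter.Eventually.of_forall fun η => ?_)
          show ‖g η * h (ζ - η)‖ ≤ B' * ‖g η‖
          rw [norm_mul, mul_comm]
          exact mul_le_mul_of_nonneg_right (hB' _) (norm_nonneg _)
      _ = B' * ∫ η, ‖g η‖ := integral_const_mul _ _
  · intro ζ hζ
    obtain ⟨η, h1, h2⟩ := cv_supp g h ζ hζ
    have a1 := hR η h1
    have a2 := hR' _ h2
    have : ζ = η + (ζ - η) := by abel
    rw [this]
    exact (norm_add_le _ _).trans (add_le_add a1 a2)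

lemma ie_cv {g h : E 2 → ℂ} (hg : BdE g) (hh : BdE h) (x : E 2) :
    IE (cvE g h) x = IE g x * IE h x := by
  have hgi := Bd_int hg
  have hhi := Bd_int hh
  have hint : Integrable (fun p : E 2 × E 2 => g p.2 * h (p.1 - p.2))
      ((volume : Measure (E 2)).prod volume) :=
    Integrable.convolution_integrand (ContinuousLinearMap.mul ℝ ℂ) hgi hhi
  have hint2 : Integrable (fun p : E 2 × E 2 =>
      g p.2 * h (p.1 - p.2) * ex x p.1) ((volume : Measure (E 2)).prod volume) := by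
    refine hint.mul_bdd (c := 1) ?_ ?_
    · exact ((cont_ker x).comp continuous_fst).aestronglyMeasurable
    · exact Filter.Eventually.of_forall fun p => (ex_norm _ _).le
  have e1 : IE (cvE g h) x = ∫ ζ, ∫ η, g η * h (ζ - η) * ex x ζ := by
    unfold IE cvE
    refine integral_congr_ae (Filter.Eventually.of_forall fun ζ => ?_)
    exact (integral_mul_const _ _).symm
  rw [e1, integral_integral_swap hint2]
  have e2 : ∀ η : E 2, ∫ ζ, g η * h (ζ - η) * ex x ζ = g η * ex x η * IE h x := by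
    intro η
    have e3 := integral_sub_right_eq_self (μ := (volume : Measure (E 2)))
      (fun ζ : E 2 => g η * h ζ * ex x (ζ + η)) η
    have e4 : (fun ζ : E 2 => g η * h (ζ - η) * ex x ζ) =
        fun ζ => g η * h (ζ - η) * ex x (ζ - η + η) := by
      funext ζ
      rw [sub_add_cancel]
    rw [e4, e3]
    have e5 : (fun ζ : E 2 => g η * h ζ * ex x (ζ + η)) =
        fun ζ => g η * ex x η * (h ζ * ex x ζ) := by
      funext ζ
      rw [ex_add]
      ring
    rw [e5, integral_const_mul]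
    rfl
  simp_rw [e2]
  rw [integral_mul_const]
  rfl

/-- the ball of radius `1/8` -/
abbrev B8 : Set (E 2) := Metric.closedBall 0 (1 / 8)

/-- its indicator function -/
noncomputable def kk : E 2 → ℂ := B8.indicator 1

lemma kk_bd : BdE kk := by
  refine ⟨measurable_one.indicator Metric.isClosed_closedBall.measurableSet, ⟨1, fun ξ => ?_⟩,
    1 / 8, fun ξ hξ => ?_⟩
  · unfold kk
    by_cases h : ξ ∈ B8
    · rw [indicator_of_mem h]; simp
    · rw [indicator_of_notMem h]; simp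
  · unfold kk at hξ
    have := mem_of_indicator_ne_zero hξ
    exact mem_closedBall_zero_iff.1 this

lemma vol_pos : 0 < volume B8 := Metric.measure_closedBall_pos _ _ (by norm_num)

lemma vol_fin : volume B8 ≠ ⊤ := (isCompact_closedBall _ _).measure_lt_top.ne

lemma kk_lower {x : E 2} (hx : ‖x‖ ≤ 1) : (volume B8).toReal / 2 ≤ ‖IE kk x‖ := by
  have e0 : IE kk x = ∫ ξ in B8, ex x ξ := by
    unfold IE kk
    rw [← integral_indicator Metric.isClosed_closedBall.measurableSet]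
    refine integral_congr_ae (Filter.Eventually.of_forall fun ξ => ?_)
    by_cases h : ξ ∈ B8
    · simp only [indicator_of_mem h, Pi.one_apply, one_mul]
    · simp only [indicator_of_notMem h, zero_mul]
  have hint : IntegrableOn (fun ξ => ex x ξ) B8 :=
    (cont_ker x).continuousOn.integrableOn_compact (isCompact_closedBall _ _)
  have h1 : (∫ ξ in B8, ex x ξ).re = ∫ ξ in B8, (ex x ξ).re := (integral_re hint).symm
  have h2 : (volume B8).toReal / 2 ≤ ∫ ξ in B8, (ex x ξ).re := by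
    have h3 : ∫ ξ in B8, (1 / 2 : ℝ) = (volume B8).toReal / 2 := by
      rw [setIntegral_const, smul_eq_mul, Measure.real]
      ring
    rw [← h3]
    refine setIntegral_mono_on ?_ hint.re Metric.isClosed_closedBall.measurableSet ?_
    · exact integrableOn_const vol_fin
    · intro ξ hξ
      have hb : ‖ξ‖ ≤ 1 / 8 := mem_closedBall_zero_iff.1 hξ
      have hi : |(inner ℝ x ξ : ℝ)| ≤ 1 / 8 := by
        refine (abs_real_inner_le_norm x ξ).trans ?_
        calc ‖x‖ * ‖ξ‖ ≤ 1 * (1 / 8) := mul_le_mul hx hb (norm_nonneg _) zero_le_one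
          _ = 1 / 8 := by ring
      have e1 : (ex x ξ).re = Real.cos (2 * Real.pi * (inner ℝ x ξ : ℝ)) := by
        unfold ex
        have : (2 * (Real.pi : ℂ) * Complex.I * ((inner ℝ x ξ : ℝ) : ℂ)) =
            ((2 * Real.pi * (inner ℝ x ξ : ℝ) : ℝ) : ℂ) * Complex.I := by push_cast; ring
        rw [this, Complex.exp_ofReal_mul_I_re]
      show (1 / 2 : ℝ) ≤ (ex x ξ).re
      rw [e1, ← Real.cos_pi_div_three, ← Real.cos_abs (2 * Real.pi * _)]
      refine Real.cos_le_cos_of_nonneg_of_le_pi (abs_nonneg _) (by linarith [Real.pi_pos]) ?_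
      rw [abs_mul, abs_of_pos (by positivity : (0 : ℝ) < 2 * Real.pi)]
      have := mul_le_mul_of_nonneg_left hi (by positivity : (0 : ℝ) ≤ 2 * Real.pi)
      linarith [Real.pi_pos]
  rw [e0]
  refine h2.trans ?_
  rw [← h1]
  exact Complex.re_le_norm _

lemma cs {g : E 2 → ℂ} (hg : Measurable g) {A : Set (E 2)} :
    (∫⁻ η in A, ‖g η‖ₑ) ^ 2 ≤ volume ({η | g η ≠ 0} ∩ A) * ∫⁻ η in A, ‖g η‖ₑ ^ 2 := by
  have hs : MeasurableSet {η | g η ≠ 0} := hg (measurableSet_singleton 0).compl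
  have h1 : ∫⁻ η in A, ‖g η‖ₑ = ∫⁻ η in A, ‖g η‖ₑ * ({η | g η ≠ 0}.indicator 1 η) := by
    refine lintegral_congr fun η => ?_
    by_cases h : g η = 0
    · rw [h]; simp
    · rw [indicator_of_mem (show η ∈ {η | g η ≠ 0} from h)]; simp
  have h2 := ENNReal.lintegral_mul_le_Lp_mul_Lq (volume.restrict A)
    (Real.HolderConjugate.two_two) (f := fun η => ‖g η‖ₑ)
    (g := fun η => ({η | g η ≠ 0}.indicator (1 : E 2 → ℝ≥0∞) η)) hg.enorm.aemeasurable
    (measurable_one.indicator hs).aemeasurable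
  have h3 : ∫⁻ η in A, ({η | g η ≠ 0}.indicator (1 : E 2 → ℝ≥0∞) η) ^ (2 : ℝ) =
      volume ({η | g η ≠ 0} ∩ A) := by
    have : ∀ η, ({η | g η ≠ 0}.indicator (1 : E 2 → ℝ≥0∞) η) ^ (2 : ℝ) =
        {η | g η ≠ 0}.indicator (1 : E 2 → ℝ≥0∞) η := by
      intro η
      by_cases h : η ∈ {η | g η ≠ 0}
      · rw [indicator_of_mem h]; simp
      · rw [indicator_of_notMem h]; simp
    simp_rw [this]
    rw [lintegral_indicator_one hs, Measure.restrict_apply hs]
  rw [h1]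
  have h4 : (∫⁻ η in A, ‖g η‖ₑ * ({η | g η ≠ 0}.indicator 1 η)) ^ 2 ≤
      ((∫⁻ η in A, ‖g η‖ₑ ^ (2 : ℝ)) ^ (1 / (2 : ℝ)) *
        (∫⁻ η in A, ({η | g η ≠ 0}.indicator (1 : E 2 → ℝ≥0∞) η) ^ (2 : ℝ)) ^ (1 / (2 : ℝ))) ^ 2 :=
    pow_le_pow_left' h2 2
  refine h4.trans (le_of_eq ?_)
  rw [h3, mul_pow, ← ENNReal.rpow_natCast, ← ENNReal.rpow_natCast, ← ENNReal.rpow_mul,
    ← ENNReal.rpow_mul]
  norm_num
  rw [mul_comm]

lemma shift_ball {g : E 2 → ℂ} (ξ : E 2) :
    ∫⁻ η, ‖kk η * g (ξ - η)‖ₑ = ∫⁻ η in Metric.closedBall ξ (1 / 8), ‖g η‖ₑ := by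
  have hm : MeasurableSet (Metric.closedBall ξ (1 / 8 : ℝ)) :=
    Metric.isClosed_closedBall.measurableSet
  have e1 := lintegral_sub_left_eq_self
    (fun η => (Metric.closedBall ξ (1 / 8 : ℝ)).indicator (fun η => ‖g η‖ₑ) η) ξ
    (μ := (volume : Measure (E 2)))
  rw [← lintegral_indicator hm, ← e1]
  refine lintegral_congr fun η => ?_
  by_cases h : η ∈ B8
  · have h' : ξ - η ∈ Metric.closedBall ξ (1 / 8 : ℝ) := by
      rw [Metric.mem_closedBall, dist_eq_norm]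
      have : ξ - η - ξ = -η := by abel
      rw [this, norm_neg]
      exact mem_closedBall_zero_iff.1 h
    rw [indicator_of_mem h', kk, indicator_of_mem h]
    simp
  · have h' : ξ - η ∉ Metric.closedBall ξ (1 / 8 : ℝ) := by
      intro hc
      apply h
      rw [Metric.mem_closedBall, dist_eq_norm] at hc
      have : ξ - η - ξ = -η := by abel
      rw [this, norm_neg] at hc
      exact mem_closedBall_zero_iff.2 hc
    rw [indicator_of_notMem h', kk, indicator_of_notMem h]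
    simp

lemma cv_pt {g : E 2 → ℂ} (hg : Measurable g) {V : ℝ≥0∞}
    (hV : ∀ ξ, volume ({η | g η ≠ 0} ∩ Metric.closedBall ξ 1) ≤ V) (ξ : E 2) :
    ‖cvE kk g ξ‖ₑ ^ 2 ≤ V * ∫⁻ η in Metric.closedBall ξ (1 / 8), ‖g η‖ₑ ^ 2 := by
  have h1 : ‖cvE kk g ξ‖ₑ ≤ ∫⁻ η in Metric.closedBall ξ (1 / 8), ‖g η‖ₑ := by
    unfold cvE
    refine (enorm_integral_le_lintegral_enorm _).trans (le_of_eq (shift_ball ξ))
  have h2 := cs hg (A := Metric.closedBall ξ (1 / 8))
  refine (pow_le_pow_left' h1 2).trans (h2.trans ?_)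
  gcongr
  refine le_trans (measure_mono ?_) (hV ξ)
  exact inter_subset_inter_right _ (Metric.closedBall_subset_closedBall (by norm_num))

lemma cv_int {g : E 2 → ℂ} (hg : Measurable g) {V : ℝ≥0∞}
    (hV : ∀ ξ, volume ({η | g η ≠ 0} ∩ Metric.closedBall ξ 1) ≤ V) :
    ∫⁻ ξ, ‖cvE kk g ξ‖ₑ ^ 2 ≤ V * (volume B8 * ∫⁻ η, ‖g η‖ₑ ^ 2) := by
  have hmset : MeasurableSet {p : E 2 × E 2 | dist p.2 p.1 ≤ 1 / 8} :=
    (isClosed_le (continuous_snd.dist continuous_fst) continuous_const).measurableSet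
  have hM : Measurable fun p : E 2 × E 2 =>
      {p : E 2 × E 2 | dist p.2 p.1 ≤ 1 / 8}.indicator (fun p => ‖g p.2‖ₑ ^ 2) p :=
    ((hg.comp measurable_snd).enorm.pow_const 2).indicator hmset
  have e1 : ∀ ξ, ∫⁻ η in Metric.closedBall ξ (1 / 8), ‖g η‖ₑ ^ 2 =
      ∫⁻ η, {p : E 2 × E 2 | dist p.2 p.1 ≤ 1 / 8}.indicator (fun p => ‖g p.2‖ₑ ^ 2) (ξ, η) := by
    intro ξ
    rw [← lintegral_indicator Metric.isClosed_closedBall.measurableSet]
    rfl
  have e2 : ∫⁻ ξ, ∫⁻ η in Metric.closedBall ξ (1 / 8), ‖g η‖ₑ ^ 2 =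
      volume B8 * ∫⁻ η, ‖g η‖ₑ ^ 2 := by
    simp_rw [e1]
    rw [lintegral_lintegral_swap hM.aemeasurable]
    have e3 : ∀ η, ∫⁻ ξ, {p : E 2 × E 2 | dist p.2 p.1 ≤ 1 / 8}.indicator
        (fun p => ‖g p.2‖ₑ ^ 2) (ξ, η) = volume B8 * ‖g η‖ₑ ^ 2 := by
      intro η
      have e4 : (fun ξ => {p : E 2 × E 2 | dist p.2 p.1 ≤ 1 / 8}.indicator
          (fun p => ‖g p.2‖ₑ ^ 2) (ξ, η)) =
          (Metric.closedBall η (1 / 8)).indicator (fun _ => ‖g η‖ₑ ^ 2) := by
        funext ξ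
        by_cases h : dist η ξ ≤ 1 / 8
        · rw [indicator_of_mem (show (ξ, η) ∈ {p : E 2 × E 2 | dist p.2 p.1 ≤ 1 / 8} from h),
            indicator_of_mem (show ξ ∈ Metric.closedBall η (1 / 8) by
              rw [Metric.mem_closedBall, dist_comm]; exact h)]
        · rw [indicator_of_notMem (show (ξ, η) ∉ {p : E 2 × E 2 | dist p.2 p.1 ≤ 1 / 8} from h),
            indicator_of_notMem (show ξ ∉ Metric.closedBall η (1 / 8) by
              rw [Metric.mem_closedBall, dist_comm]; exact h)]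
      rw [e4, lintegral_indicator Metric.isClosed_closedBall.measurableSet, setLIntegral_const,
        mul_comm]
      congr 1
      rw [EuclideanSpace.volume_closedBall, EuclideanSpace.volume_closedBall]
    simp_rw [e3]
    rw [lintegral_const_mul _ (hg.enorm.pow_const 2)]
  calc ∫⁻ ξ, ‖cvE kk g ξ‖ₑ ^ 2
      ≤ ∫⁻ ξ, V * ∫⁻ η in Metric.closedBall ξ (1 / 8), ‖g η‖ₑ ^ 2 :=
        lintegral_mono fun ξ => cv_pt hg hV ξ
    _ = V * ∫⁻ ξ, ∫⁻ η in Metric.closedBall ξ (1 / 8), ‖g η‖ₑ ^ 2 := by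
        refine lintegral_const_mul _ ?_
        simp_rw [e1]
        exact hM.lintegral_prod_right'
    _ = _ := by rw [e2]

/-- the estimate on the unit disc about the origin -/
lemma core (hP : tPlE) {g : E 2 → ℂ} (hg : BdE g) {V : ℝ≥0∞}
    (hV : ∀ ξ, volume ({η | g η ≠ 0} ∩ Metric.closedBall ξ 1) ≤ V) :
    (volume B8) ^ 2 * ∫⁻ x in Metric.closedBall (0 : E 2) 1, ‖IE g x‖ₑ ^ 2 ≤
      4 * (V * (volume B8 * ∫⁻ η, ‖g η‖ₑ ^ 2)) := by
  have hm : Measurable fun x => ‖IE g x‖ₑ ^ 2 := ((hP g hg).1.measurable.enorm).pow_const 2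
  have hpt : ∀ x ∈ Metric.closedBall (0 : E 2) 1,
      (volume B8) ^ 2 * ‖IE g x‖ₑ ^ 2 ≤ 4 * ‖IE (cvE kk g) x‖ₑ ^ 2 := by
    intro x hx
    have h1 := kk_lower (mem_closedBall_zero_iff.1 hx)
    have h2 : volume B8 ≤ 2 * ‖IE kk x‖ₑ := by
      have h3 : ENNReal.ofReal (2 * ‖IE kk x‖) = 2 * ENNReal.ofReal ‖IE kk x‖ := by
        rw [ENNReal.ofReal_mul (by norm_num), ENNReal.ofReal_ofNat]
      rw [← ofReal_norm, ← h3, ← ENNReal.ofReal_toReal vol_fin]
      exact ENNReal.ofReal_le_ofReal (by linarith)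
    rw [ie_cv kk_bd hg, enorm_mul, mul_pow]
    calc (volume B8) ^ 2 * ‖IE g x‖ₑ ^ 2 ≤ (2 * ‖IE kk x‖ₑ) ^ 2 * ‖IE g x‖ₑ ^ 2 := by gcongr
      _ = _ := by ring
  calc (volume B8) ^ 2 * ∫⁻ x in Metric.closedBall (0 : E 2) 1, ‖IE g x‖ₑ ^ 2
      = ∫⁻ x in Metric.closedBall (0 : E 2) 1, (volume B8) ^ 2 * ‖IE g x‖ₑ ^ 2 :=
        (lintegral_const_mul _ hm).symm
    _ ≤ ∫⁻ x in Metric.closedBall (0 : E 2) 1, 4 * ‖IE (cvE kk g) x‖ₑ ^ 2 :=
        setLIntegral_mono' Metric.isClosed_closedBall.measurableSet hpt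
    _ ≤ ∫⁻ x, 4 * ‖IE (cvE kk g) x‖ₑ ^ 2 := setLIntegral_le_lintegral _ _
    _ = 4 * ∫⁻ x, ‖IE (cvE kk g) x‖ₑ ^ 2 := by
        rw [lintegral_const_mul]
        exact ((hP _ (cv_bd kk_bd hg)).1.measurable.enorm).pow_const 2
    _ = 4 * ∫⁻ ξ, ‖cvE kk g ξ‖ₑ ^ 2 := by rw [(hP _ (cv_bd kk_bd hg)).2]
    _ ≤ _ := by gcongr; exact cv_int hg.1 hV

end AH0_

open AH0_ in
theorem pAH0 (hP : tPlE) : tAH0 := by
  refine ⟨(4 * (volume B8)⁻¹).toNNReal, fun g x0 V hg hV => ?_⟩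
  have hfin : 4 * (volume B8)⁻¹ ≠ (⊤ : ℝ≥0∞) :=
    ENNReal.mul_ne_top (by norm_num) (ENNReal.inv_ne_top.2 vol_pos.ne')
  rw [ENNReal.coe_toNNReal hfin]
  set g0 : E 2 → ℂ := fun ξ => g ξ * ex x0 ξ with hg0
  have hex : ∀ ξ, ex x0 ξ ≠ 0 := fun ξ h0 => by
    have := ex_norm x0 ξ
    rw [h0, norm_zero] at this
    exact zero_ne_one this
  have hb0 : BdE g0 := by
    obtain ⟨h1, ⟨B, hB⟩, R, hR⟩ := hg
    refine ⟨h1.mul (cont_ker x0).measurable, ⟨B, fun ξ => ?_⟩, R, fun ξ hξ => hR ξ ?_⟩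
    · rw [hg0]
      show ‖g ξ * ex x0 ξ‖ ≤ B
      rw [norm_mul, ex_norm, mul_one]
      exact hB ξ
    · intro h0
      apply hξ
      show g ξ * ex x0 ξ = 0
      rw [h0, zero_mul]
  have hset : {η | g0 η ≠ 0} = {η | g η ≠ 0} := by
    ext η
    show g η * ex x0 η ≠ 0 ↔ g η ≠ 0
    constructor
    · intro h h0; exact h (by rw [h0, zero_mul])
    · intro h; exact mul_ne_zero h (hex η)
  have hn0 : ∫⁻ η, ‖g0 η‖ₑ ^ 2 = ∫⁻ η, ‖g η‖ₑ ^ 2 := by
    refine lintegral_congr fun η => ?_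
    show ‖g η * ex x0 η‖ₑ ^ 2 = _
    have : ‖ex x0 η‖ₑ = 1 := by rw [← ofReal_norm, ex_norm, ENNReal.ofReal_one]
    rw [enorm_mul, this, mul_one]
  have hsh : ∀ x, IE g0 x = IE g (x + x0) := by
    intro x
    unfold IE
    refine integral_congr_ae (Filter.Eventually.of_forall fun ξ => ?_)
    show g ξ * ex x0 ξ * ex x ξ = g ξ * ex (x + x0) ξ
    rw [ex_add_left]
    ring
  have hball : ∫⁻ x in Metric.closedBall x0 1, ‖IE g x‖ₑ ^ 2 =
      ∫⁻ x in Metric.closedBall (0 : E 2) 1, ‖IE g0 x‖ₑ ^ 2 := by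
    rw [← lintegral_indicator Metric.isClosed_closedBall.measurableSet,
      ← lintegral_indicator Metric.isClosed_closedBall.measurableSet,
      ← lintegral_add_right_eq_self
        (fun x => (Metric.closedBall x0 1).indicator (fun x => ‖IE g x‖ₑ ^ 2) x) x0]
    refine lintegral_congr fun x => ?_
    by_cases h : x ∈ Metric.closedBall (0 : E 2) 1
    · have h' : x + x0 ∈ Metric.closedBall x0 1 := by
        rw [Metric.mem_closedBall, dist_eq_norm, add_sub_cancel_right]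
        exact mem_closedBall_zero_iff.1 h
      rw [indicator_of_mem h, indicator_of_mem h', hsh]
    · have h' : x + x0 ∉ Metric.closedBall x0 1 := by
        rw [Metric.mem_closedBall, dist_eq_norm, add_sub_cancel_right]
        exact fun hc => h (mem_closedBall_zero_iff.2 hc)
      rw [indicator_of_notMem h, indicator_of_notMem h']
  have hc := core hP hb0 (V := V) (by rw [hset]; exact hV)
  rw [hn0] at hc
  rw [hball]
  set I := ∫⁻ x in Metric.closedBall (0 : E 2) 1, ‖IE g0 x‖ₑ ^ 2 with hI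
  set v := volume B8 with hv
  have hv0 : v ≠ 0 := vol_pos.ne'
  have hvt : v ≠ ⊤ := vol_fin
  have e1 : I = v⁻¹ * v⁻¹ * (v ^ 2 * I) := by
    have : v⁻¹ * v⁻¹ * (v ^ 2 * I) = (v⁻¹ * v) * (v⁻¹ * v) * I := by ring
    rw [this, ENNReal.inv_mul_cancel hv0 hvt, one_mul, one_mul]
  rw [e1]
  calc v⁻¹ * v⁻¹ * (v ^ 2 * I) ≤ v⁻¹ * v⁻¹ * (4 * (V * (v * ∫⁻ η, ‖g η‖ₑ ^ 2))) := by gcongr
    _ = (v⁻¹ * v) * (4 * v⁻¹ * V * ∫⁻ η, ‖g η‖ₑ ^ 2) := by ring
    _ = _ := by rw [ENNReal.inv_mul_cancel hv0 hvt, one_mul]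

end Pool.Agent.KSP
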