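import Pool.Agent.KSP.Targets2
import Pool.Agent.MBS.J5

set_option autoImplicit false

/-! Q12: area of an annulus in a unit disc -/

namespace Pool.Agent.KSP

open MeasureTheory FourierTransform Set Filter Topology
open scoped ENNReal NNReal
open Pool.Agent.MBS (E)

namespace Area_

theorem core {a b v x y : ℝ} (ha : 0 ≤ a) (hb : 0 ≤ b) (hx : |v| ≤ x) (hxy : x ≤ y)
    (h1 : a ^ 2 ≤ x ^ 2 + v ^ 2) (h2 : y ^ 2 + v ^ 2 ≤ b ^ 2) : y - x ≤ 2 * (b - a) := by
  have hx0 : 0 ≤ x := (abs_nonneg v).trans hx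
  have hy0 : 0 ≤ y := hx0.trans hxy
  have hv : v ^ 2 ≤ x ^ 2 := by
    rw [← sq_abs v]
    gcongr
  have hv' : v ^ 2 ≤ y ^ 2 := hv.trans (by gcongr)
  have hax : a ≤ 2 * x := by
    by_contra h
    push Not at h
    nlinarith
  have hab : a ≤ b := by
    by_contra h
    push Not at h
    have : x ^ 2 ≤ y ^ 2 := by gcongr
    nlinarith
  rcases eq_or_lt_of_le hy0 with h | h
  · have : x = 0 := le_antisymm (by linarith) hx0
    linarith
  · -- b' = sqrt (y^2 + v^2), a' = sqrt (x^2 + v^2)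
    set r := Real.sqrt (x ^ 2 + v ^ 2) with hr
    set r' := Real.sqrt (y ^ 2 + v ^ 2) with hr'
    have e1 : r ^ 2 = x ^ 2 + v ^ 2 := Real.sq_sqrt (by positivity)
    have e2 : r' ^ 2 = y ^ 2 + v ^ 2 := Real.sq_sqrt (by positivity)
    have r0 : 0 ≤ r := Real.sqrt_nonneg _
    have r0' : 0 ≤ r' := Real.sqrt_nonneg _
    have f1 : a ≤ r := by
      by_contra h3
      push Not at h3
      nlinarith
    have f2 : r' ≤ b := by
      by_contra h3
      push Not at h3
      nlinarith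
    have f3 : r ≤ 2 * x := by
      by_contra h3
      push Not at h3
      nlinarith
    have f4 : r' ≤ 2 * y := by
      by_contra h3
      push Not at h3
      nlinarith
    have f5 : (y - x) * (y + x) = (r' - r) * (r' + r) := by nlinarith
    have f6 : r ≤ r' := by
      by_contra h3
      push Not at h3
      nlinarith
    have f7 : (y - x) * (y + x) ≤ (2 * (r' - r)) * (y + x) := by
      rw [f5]
      nlinarith
    have f8 : y - x ≤ 2 * (r' - r) := le_of_mul_le_mul_right f7 (by linarith)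
    linarith

/-- one sector -/
def P (a b c e : ℝ) : Set (ℝ × ℝ) :=
  {p | |p.2 - c| ≤ 1 ∧ |p.2| ≤ e * p.1 ∧ a ^ 2 ≤ p.1 ^ 2 + p.2 ^ 2 ∧ p.1 ^ 2 + p.2 ^ 2 ≤ b ^ 2}

theorem P_meas (a b c e : ℝ) : MeasurableSet (P a b c e) := by
  have h1 : MeasurableSet {p : ℝ × ℝ | |p.2 - c| ≤ 1} :=
    measurableSet_le (by fun_prop) (by fun_prop)
  have h2 : MeasurableSet {p : ℝ × ℝ | |p.2| ≤ e * p.1} :=
    measurableSet_le (by fun_prop) (by fun_prop)
  have h3 : MeasurableSet {p : ℝ × ℝ | a ^ 2 ≤ p.1 ^ 2 + p.2 ^ 2} :=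
    measurableSet_le (by fun_prop) (by fun_prop)
  have h4 : MeasurableSet {p : ℝ × ℝ | p.1 ^ 2 + p.2 ^ 2 ≤ b ^ 2} :=
    measurableSet_le (by fun_prop) (by fun_prop)
  exact h1.inter (h2.inter (h3.inter h4))

theorem P_vol {a b c e : ℝ} (ha : 0 ≤ a) (hab : a ≤ b) (he : e = 1 ∨ e = -1) :
    volume (P a b c e) ≤ ENNReal.ofReal (8 * (b - a)) := by
  have hb : 0 ≤ b := ha.trans hab
  rw [Measure.volume_eq_prod, Measure.prod_apply_symm (P_meas a b c e)]
  have h1 : ∀ v : ℝ, volume ((fun x : ℝ => (x, v)) ⁻¹' P a b c e) ≤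
      (Icc (c - 1) (c + 1)).indicator (fun _ => ENNReal.ofReal (4 * (b - a))) v := by
    intro v
    by_cases hv : v ∈ Icc (c - 1) (c + 1)
    · rw [indicator_of_mem hv]
      refine (Pool.Agent.MBS.meas_of_close (d := 2 * (b - a)) ?_).trans (le_of_eq (by ring_nf))
      rintro x ⟨_, hx1, hx2, hx3⟩ y ⟨_, hy1, hy2, hy3⟩ hxy
      dsimp only at hx1 hx2 hx3 hy1 hy2 hy3
      rcases he with rfl | rfl
      · rw [one_mul] at hx1 hy1
        exact core ha hb hx1 hxy hx2 hy3
      · have h3 := core (v := v) (x := -y) (y := -x) ha hb (by linarith) (by linarith)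
          (by nlinarith) (by nlinarith)
        linarith
    · rw [indicator_of_notMem hv]
      have : (fun x : ℝ => (x, v)) ⁻¹' P a b c e = ∅ := by
        ext x
        simp only [mem_preimage, P, Set.mem_ofPred_eq, mem_empty_iff_false, iff_false]
        rintro ⟨h3, _⟩
        rw [abs_le] at h3
        exact hv ⟨by linarith [h3.1], by linarith [h3.2]⟩
      rw [this, measure_empty]
  refine (lintegral_mono h1).trans ?_
  rw [lintegral_indicator measurableSet_Icc, setLIntegral_const, Real.volume_Icc,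
    ← ENNReal.ofReal_mul (by linarith)]
  exact ENNReal.ofReal_le_ofReal (by nlinarith)

/-- the coordinates -/
def co : E 2 → ℝ × ℝ := fun η => (η 0, η 1)

theorem co_mp : MeasurePreserving co := by
  have h1 := EuclideanSpace.volume_preserving_symm_measurableEquiv_toLp (Fin 2)
  have h2 := MeasureTheory.volume_preserving_finTwoArrow ℝ
  exact h2.comp h1

end Area_

open Area_ in
theorem pArea : tArea := by
  refine ⟨32, fun a b ξ ha hab => ?_⟩
  have hb : 0 ≤ b := ha.trans hab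
  have hm : ∀ c e, MeasurableSet (P a b c e) := P_meas a b
  have hsw : ∀ c e, MeasurableSet (Prod.swap ⁻¹' P a b c e) :=
    fun c e => measurable_swap (hm c e)
  have hsub : {η : E 2 | a ≤ ‖η‖ ∧ ‖η‖ ≤ b} ∩ Metric.closedBall ξ 1 ⊆
      co ⁻¹' ((P a b (ξ 1) 1 ∪ P a b (ξ 1) (-1)) ∪
        (Prod.swap ⁻¹' P a b (ξ 0) 1 ∪ Prod.swap ⁻¹' P a b (ξ 0) (-1))) := by
    rintro η ⟨⟨h1, h2⟩, h3⟩
    have e1 : ‖η‖ ^ 2 = η 0 ^ 2 + η 1 ^ 2 := by
      rw [EuclideanSpace.norm_sq_eq, Fin.sum_univ_two, Real.norm_eq_abs, Real.norm_eq_abs,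
        sq_abs, sq_abs]
    have h1' : a ^ 2 ≤ η 0 ^ 2 + η 1 ^ 2 := by rw [← e1]; gcongr
    have h2' : η 0 ^ 2 + η 1 ^ 2 ≤ b ^ 2 := by rw [← e1]; gcongr
    rw [Metric.mem_closedBall, dist_eq_norm] at h3
    have h4 : ∀ i, |η i - ξ i| ≤ 1 := by
      intro i
      have := PiLp.norm_apply_le (η - ξ) i
      rw [PiLp.sub_apply, Real.norm_eq_abs] at this
      exact this.trans h3
    simp only [mem_preimage, mem_union, P, Set.mem_ofPred_eq, co, Prod.swap_prod_mk]
    rcases le_total |η 1| |η 0| with h | h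
    · rcases le_total 0 (η 0) with h5 | h5
      · rw [abs_of_nonneg h5] at h
        exact Or.inl (Or.inl ⟨h4 1, by linarith, h1', h2'⟩)
      · rw [abs_of_nonpos h5] at h
        exact Or.inl (Or.inr ⟨h4 1, by linarith, h1', h2'⟩)
    · rcases le_total 0 (η 1) with h5 | h5
      · rw [abs_of_nonneg h5] at h
        exact Or.inr (Or.inl ⟨h4 0, by linarith, by linarith, by linarith⟩)
      · rw [abs_of_nonpos h5] at h
        exact Or.inr (Or.inr ⟨h4 0, by linarith, by linarith, by linarith⟩)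
  refine (measure_mono hsub).trans ?_
  rw [co_mp.measure_preimage
    (((hm _ _).union (hm _ _)).union ((hsw _ _).union (hsw _ _))).nullMeasurableSet]
  have hv : ∀ c e, (e = 1 ∨ e = -1) → volume (P a b c e) ≤ ENNReal.ofReal (8 * (b - a)) :=
    fun c e he => P_vol ha hab he
  have hv' : ∀ c e, (e = 1 ∨ e = -1) → volume (Prod.swap ⁻¹' P a b c e) ≤
      ENNReal.ofReal (8 * (b - a)) := by
    intro c e he
    have h5 : MeasurePreserving (Prod.swap : ℝ × ℝ → ℝ × ℝ) := Measure.measurePreserving_swap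
    rw [h5.measure_preimage (hm c e).nullMeasurableSet]
    exact hv c e he
  have h6 : ENNReal.ofReal (8 * (b - a)) = 8 * ENNReal.ofReal (b - a) := by
    rw [ENNReal.ofReal_mul (by norm_num)]
    norm_num
  calc _ ≤ (ENNReal.ofReal (8 * (b - a)) + ENNReal.ofReal (8 * (b - a))) +
        (ENNReal.ofReal (8 * (b - a)) + ENNReal.ofReal (8 * (b - a))) := by
        refine (measure_union_le _ _).trans (add_le_add ?_ ?_)
        · exact (measure_union_le _ _).trans
            (add_le_add (hv _ _ (Or.inl rfl)) (hv _ _ (Or.inr rfl)))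
        · exact (measure_union_le _ _).trans
            (add_le_add (hv' _ _ (Or.inl rfl)) (hv' _ _ (Or.inr rfl)))
    _ = ((32 : ℝ≥0) : ℝ≥0∞) * ENNReal.ofReal (b - a) := by
        rw [h6]
        push_cast
        ring

end Pool.Agent.KSP
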