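import Pool.Agent.KSP.Targets2
import Pool.Agent.MBS.J1
import Pool.Agent.MBS.J5

set_option autoImplicit false

/-! KSP Q5: the multipliers `et(u)` on one octave. -/

namespace Pool.Agent.KSP

open MeasureTheory FourierTransform Set Filter Topology
open scoped ENNReal NNReal
open Pool.Agent.MBS (E ex T S Sstar et ps mul pm Tstar Pstar MF Fam DerR vv)

namespace Et0_

/-- derivative of `et` -/
noncomputable def et1 (u : ℝ) : ℝ := deriv et u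

lemma et1_cont : Continuous et1 := by
  unfold et1
  have h := MBS.et_contDiff
  rw [contDiff_infty_iff_deriv] at h
  exact h.2.continuous

lemma hasDerivAt_et (u : ℝ) : HasDerivAt et (et1 u) u :=
  ((MBS.et_contDiff.differentiable (by simp)).differentiableAt (x := u)).hasDerivAt

lemma et1_zero_left {u : ℝ} (h : u < 1 / 4) : et1 u = 0 := by
  have h1 : et =ᶠ[𝓝 u] fun _ => 0 := by
    filter_upwards [Iio_mem_nhds h] with v hv
    exact MBS.et_zero (le_of_lt hv)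
  unfold et1
  rw [h1.deriv_eq]
  simp

lemma et1_zero_right {u : ℝ} (h : 1 / 2 < u) : et1 u = 0 := by
  have h1 : et =ᶠ[𝓝 u] fun _ => 1 := by
    filter_upwards [Ioi_mem_nhds h] with v hv
    exact MBS.et_one (le_of_lt hv)
  unfold et1
  rw [h1.deriv_eq]
  simp

lemma et1_bound : ∃ B : ℝ, 0 ≤ B ∧ ∀ u, |et1 u| ≤ B := by
  have hcs : HasCompactSupport et1 := by
    refine HasCompactSupport.intro (isCompact_Icc (a := (1 / 4 : ℝ)) (b := 1 / 2)) fun u hu => ?_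
    by_cases h : u < 1 / 4
    · exact et1_zero_left h
    · exact et1_zero_right (by
        by_contra h2
        exact hu ⟨not_lt.mp h, not_lt.mp h2⟩)
  obtain ⟨B, hB⟩ := hcs.exists_bound_of_continuous et1_cont
  exact ⟨max B 0, le_max_right _ _, fun u => (hB u).trans (le_max_left _ _)⟩

/-- the family -/
noncomputable def aa (θ : E 2 → ℝ) (R : ℝ) (ξ : E 2) : ℝ := et (1 - ‖ξ‖ ^ 2 / R ^ 2) * θ ξ

/-- its derivative -/
noncomputable def bb (θ : E 2 → ℝ) (R : ℝ) (ξ : E 2) : ℝ :=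
  et1 (1 - ‖ξ‖ ^ 2 / R ^ 2) * (2 * ‖ξ‖ ^ 2 / R ^ 3) * θ ξ

lemma u_neg {R : ℝ} (hR : 0 < R) {ξ : E 2} (h : R < ‖ξ‖) : 1 - ‖ξ‖ ^ 2 / R ^ 2 < 0 := by
  have h1 : 1 < ‖ξ‖ ^ 2 / R ^ 2 := by
    rw [one_lt_div (by positivity)]
    gcongr
  linarith

lemma fam_aa {θ : E 2 → ℝ} (hθ : Continuous θ) : Fam (aa θ) where
  cont := (MBS.fam_pm.cont).mul ((hθ.comp continuous_snd).continuousOn)
  supp := fun R hR ξ hξ => by
    unfold aa
    rw [MBS.et_zero (by linarith [u_neg hR hξ]), zero_mul]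

lemma fam_bb {θ : E 2 → ℝ} (hθ : Continuous θ) : Fam (bb θ) where
  cont := by
    refine ((et1_cont.comp_continuousOn (continuousOn_const.sub
      (MBS.div_cont (f := fun ξ : E 2 => ‖ξ‖ ^ 2) (by fun_prop) 2))).mul
      (MBS.div_cont (f := fun ξ : E 2 => 2 * ‖ξ‖ ^ 2) (by fun_prop) 3)).mul
      ((hθ.comp continuous_snd).continuousOn)
  supp := fun R hR ξ hξ => by
    unfold bb
    rw [et1_zero_left (by linarith [u_neg hR hξ]), zero_mul, zero_mul]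

lemma der_aa (θ : E 2 → ℝ) : DerR (aa θ) (bb θ) := by
  intro R hR ξ
  have h0 := MBS.hasDerivAt_vv 0 hR ξ
  have h1 : HasDerivAt (fun r : ℝ => 1 - ‖ξ‖ ^ 2 / r ^ 2) (2 * ‖ξ‖ ^ 2 / R ^ 3) R := by
    have e1 : (fun r : ℝ => 1 - ‖ξ‖ ^ 2 / r ^ 2) = fun r => vv 0 r ξ := by
      funext r
      simp [vv]
    rw [e1]
    refine h0.congr_deriv ?_
    ring
  have h2 := (hasDerivAt_et (1 - ‖ξ‖ ^ 2 / R ^ 2)).comp R h1
  exact h2.mul_const (θ ξ)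

lemma aa_le {θ : E 2 → ℝ} (hθ : ∀ ξ, 0 ≤ θ ξ ∧ θ ξ ≤ 1) {c R : ℝ} (hc : 0 < c)
    (hR : R ∈ Icc c (2 * c)) (ξ : E 2) :
    ‖aa θ R ξ‖ₑ ^ 2 ≤ {ξ : E 2 | ‖ξ‖ ≤ 2 * c}.indicator (fun ξ => ‖θ ξ‖ₑ ^ 2) ξ := by
  have hR0 : 0 < R := hc.trans_le hR.1
  by_cases hξ : ‖ξ‖ ≤ 2 * c
  · rw [indicator_of_mem (by exact hξ)]
    gcongr
    rw [← ofReal_norm, ← ofReal_norm]
    apply ENNReal.ofReal_le_ofReal
    unfold aa
    rw [norm_mul, Real.norm_eq_abs, Real.norm_eq_abs, abs_of_nonneg (MBS.et_nonneg _)]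
    have h1 := MBS.et_le_one (1 - ‖ξ‖ ^ 2 / R ^ 2)
    have h2 := abs_nonneg (θ ξ)
    nlinarith
  · rw [indicator_of_notMem (by exact hξ)]
    have h1 : aa θ R ξ = 0 := by
      unfold aa
      rw [MBS.et_zero (by linarith [u_neg hR0 (ξ := ξ) (by
        push Not at hξ
        linarith [hR.2])]), zero_mul]
    rw [h1]
    simp

lemma bb_le {θ : E 2 → ℝ} (hθ : ∀ ξ, 0 ≤ θ ξ ∧ θ ξ ≤ 1) {B : ℝ} (hB0 : 0 ≤ B)
    (hB : ∀ u, |et1 u| ≤ B) {c R : ℝ} (hc : 0 < c)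
    (hR : R ∈ Icc c (2 * c)) (ξ : E 2) :
    ‖bb θ R ξ‖ₑ ^ 2 ≤ ENNReal.ofReal ((2 * B / c) ^ 2) *
      {ξ : E 2 | ‖ξ‖ ≤ 2 * c}.indicator (fun ξ => ‖θ ξ‖ₑ ^ 2) ξ := by
  have hR0 : 0 < R := hc.trans_le hR.1
  by_cases hRξ : R < ‖ξ‖
  · have h1 : bb θ R ξ = 0 := (fun h => by
      unfold bb
      rw [et1_zero_left (by linarith [u_neg hR0 h]), zero_mul, zero_mul]) hRξ
    rw [h1]
    simp
  · push Not at hRξ
    have hξ : ‖ξ‖ ≤ 2 * c := hRξ.trans hR.2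
    rw [indicator_of_mem (by exact hξ), ENNReal.ofReal_pow (by positivity), ← mul_pow]
    gcongr
    rw [← ofReal_norm, ← ofReal_norm, ← ENNReal.ofReal_mul (by positivity)]
    apply ENNReal.ofReal_le_ofReal
    unfold bb
    rw [norm_mul, norm_mul, Real.norm_eq_abs, Real.norm_eq_abs]
    have h2 : |2 * ‖ξ‖ ^ 2 / R ^ 3| ≤ 2 / c := by
      rw [abs_of_nonneg (by positivity), div_le_div_iff₀ (by positivity) hc]
      have h3 : ‖ξ‖ ^ 2 ≤ R ^ 2 := by gcongr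
      have h4 : R ^ 2 * c ≤ R ^ 3 := by
        have : R ^ 3 = R ^ 2 * R := by ring
        rw [this]
        gcongr
        exact hR.1
      nlinarith
    have h5 : |et1 (1 - ‖ξ‖ ^ 2 / R ^ 2)| * |2 * ‖ξ‖ ^ 2 / R ^ 3| ≤ 2 * B / c := by
      calc _ ≤ B * (2 / c) := mul_le_mul (hB _) h2 (abs_nonneg _) hB0
        _ = _ := by ring
    exact mul_le_mul_of_nonneg_right h5 (norm_nonneg _)

lemma int_T {a : ℝ → E 2 → ℝ} (ha : Fam a) {h : E 2 → ℂ} (hh : Continuous h) {R : ℝ}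
    (hR : 0 < R) : ∫⁻ x, ‖T (a R) h x‖ₑ ^ 2 = ∫⁻ ξ, ‖a R ξ‖ₑ ^ 2 * ‖h ξ‖ₑ ^ 2 :=
  MBS.pPlanch 2 (a R) h (ha.continuous hR) (ha.hasCompactSupport hR) hh

lemma meas_T {a : ℝ → E 2 → ℝ} (ha : Fam a) {h : E 2 → ℂ} (hh : Continuous h) {c : ℝ}
    (hc : 0 < c) : AEMeasurable (fun p : E 2 × ℝ => ‖T (a p.2) h p.1‖ₑ ^ 2)
      ((volume : Measure (E 2)).prod (volume.restrict (Icc c (2 * c)))) := by
  have hu := MBS.pTcont 2 a h ha hh
  have h1 : ContinuousOn (fun p : E 2 × ℝ => ‖T (a p.2) h p.1‖ₑ ^ 2)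
      (univ ×ˢ Icc c (2 * c)) := by
    have h2 : ContinuousOn (fun p : E 2 × ℝ => T (a p.2) h p.1) (univ ×ˢ Icc c (2 * c)) :=
      hu.comp (f := fun p : E 2 × ℝ => (p.2, p.1)) (by fun_prop)
        (fun p hp => ⟨hc.trans_le hp.2.1, mem_univ _⟩)
    exact (ENNReal.continuous_pow 2).comp_continuousOn h2.enorm
  have h3 := h1.aemeasurable (μ := (volume : Measure (E 2)).prod (volume : Measure ℝ))
    (MeasurableSet.univ.prod measurableSet_Icc)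
  rwa [← Measure.prod_restrict, Measure.restrict_univ] at h3

lemma tonelli {a : ℝ → E 2 → ℝ} (ha : Fam a) {h : E 2 → ℂ} (hh : Continuous h) {c : ℝ}
    (hc : 0 < c) {K : ℝ≥0∞}
    (hK : ∀ R ∈ Icc c (2 * c), ∫⁻ ξ, ‖a R ξ‖ₑ ^ 2 * ‖h ξ‖ₑ ^ 2 ≤ K) :
    ∫⁻ x, ∫⁻ R in Icc c (2 * c), ‖T (a R) h x‖ₑ ^ 2 ≤ ENNReal.ofReal c * K := by
  rw [lintegral_lintegral_swap (μ := (volume : Measure (E 2)))
      (ν := volume.restrict (Icc c (2 * c))) (f := fun x R => ‖T (a R) h x‖ₑ ^ 2)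
      (meas_T ha hh hc)]
  calc ∫⁻ R in Icc c (2 * c), ∫⁻ x, ‖T (a R) h x‖ₑ ^ 2
      ≤ ∫⁻ _R in Icc c (2 * c), K := by
        refine setLIntegral_mono' measurableSet_Icc fun R hR => ?_
        rw [int_T ha hh (hc.trans_le hR.1)]
        exact hK R hR
    _ = ENNReal.ofReal c * K := by
        rw [setLIntegral_const, Real.volume_Icc, mul_comm]
        congr 2
        ring

lemma sup_sq {ι : Type*} {s : Set ι} {f : ι → ℝ≥0∞} {K : ℝ≥0∞} (h : ∀ i ∈ s, f i ^ 2 ≤ K) :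
    (⨆ i ∈ s, f i) ^ 2 ≤ K := by
  have h1 : (⨆ i ∈ s, f i) ≤ K ^ (1 / 2 : ℝ) := by
    refine iSup₂_le fun i hi => ?_
    calc f i = (f i ^ 2) ^ (1 / 2 : ℝ) := by
          rw [← ENNReal.rpow_natCast, ← ENNReal.rpow_mul]
          norm_num
      _ ≤ _ := ENNReal.rpow_le_rpow (h i hi) (by norm_num)
  calc (⨆ i ∈ s, f i) ^ 2 ≤ (K ^ (1 / 2 : ℝ)) ^ 2 := pow_le_pow_left' h1 2
    _ = K := by
      rw [← ENNReal.rpow_natCast, ← ENNReal.rpow_mul]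
      norm_num

end Et0_

open Et0_

theorem pEt0 (_hP : tPlE) (hS : tSobI) : tEt0 := by
  obtain ⟨B, hB0, hB⟩ := et1_bound
  refine ⟨(2 + 4 * B ^ 2).toNNReal, fun c θ h hc hθc hθ hh => ?_⟩
  have ha := fam_aa hθc
  have hb := fam_bb hθc
  set K : ℝ≥0∞ := ∫⁻ ξ in {ξ : E 2 | ‖ξ‖ ≤ 2 * c}, ‖θ ξ‖ₑ ^ 2 * ‖h ξ‖ₑ ^ 2 with hKdef
  have hmeasA : MeasurableSet {ξ : E 2 | ‖ξ‖ ≤ 2 * c} :=
    measurableSet_le measurable_norm measurable_const
  have hKi : K = ∫⁻ ξ, {ξ : E 2 | ‖ξ‖ ≤ 2 * c}.indicator (fun ξ => ‖θ ξ‖ₑ ^ 2) ξ *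
      ‖h ξ‖ₑ ^ 2 := by
    rw [hKdef, ← lintegral_indicator hmeasA]
    refine lintegral_congr fun ξ => ?_
    by_cases hξ : ξ ∈ {ξ : E 2 | ‖ξ‖ ≤ 2 * c}
    · rw [indicator_of_mem hξ, indicator_of_mem hξ]
    · rw [indicator_of_notMem hξ, indicator_of_notMem hξ, zero_mul]
  have hKa : ∀ R ∈ Icc c (2 * c), ∫⁻ ξ, ‖aa θ R ξ‖ₑ ^ 2 * ‖h ξ‖ₑ ^ 2 ≤ K := by
    intro R hR
    rw [hKi]
    refine lintegral_mono fun ξ => ?_
    exact mul_le_mul_left (aa_le hθ hc hR ξ) _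
  have hKb : ∀ R ∈ Icc c (2 * c), ∫⁻ ξ, ‖bb θ R ξ‖ₑ ^ 2 * ‖h ξ‖ₑ ^ 2 ≤
      ENNReal.ofReal ((2 * B / c) ^ 2) * K := by
    intro R hR
    rw [hKi, ← lintegral_const_mul' _ _ ENNReal.ofReal_ne_top]
    refine lintegral_mono fun ξ => ?_
    refine (mul_le_mul_left (bb_le hθ hB0 hB hc hR ξ) _).trans (le_of_eq ?_)
    ring
  have hpt : ∀ x, (⨆ R ∈ Icc c (2 * c), ‖T (aa θ R) h x‖ₑ) ^ 2 ≤
      ENNReal.ofReal (2 / c) * (∫⁻ R in Icc c (2 * c), ‖T (aa θ R) h x‖ₑ ^ 2) +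
        ENNReal.ofReal c * ∫⁻ R in Icc c (2 * c), ‖T (bb θ R) h x‖ₑ ^ 2 := by
    intro x
    refine sup_sq fun R hR => ?_
    have hcF : ContinuousOn (fun R => T (bb θ R) h x) (Icc c (2 * c)) :=
      (MBS.pTcont 2 (bb θ) h hb hh).comp (f := fun R : ℝ => (R, x)) (by fun_prop)
        (fun R hR => ⟨hc.trans_le hR.1, mem_univ _⟩)
    have key := (hS c (2 * c) (1 / c) (fun R => T (aa θ R) h x) (fun R => T (bb θ R) h x)
      (by linarith) (by positivity) hcF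
      (fun t ht => MBS.pTderiv 2 (aa θ) (bb θ) h ha hb hh (der_aa θ) t (hc.trans_le ht.1) x)
      R hR).1
    refine key.trans (le_of_eq ?_)
    congr 3
    · have : 2 * c - c = c := by ring
      rw [this]
      field_simp
      ring
    · rw [one_div, inv_inv]
  calc ∫⁻ x, (⨆ R ∈ Icc c (2 * c), ‖T (aa θ R) h x‖ₑ) ^ 2
      ≤ ∫⁻ x, (ENNReal.ofReal (2 / c) * (∫⁻ R in Icc c (2 * c), ‖T (aa θ R) h x‖ₑ ^ 2) +
        ENNReal.ofReal c * ∫⁻ R in Icc c (2 * c), ‖T (bb θ R) h x‖ₑ ^ 2) := lintegral_mono hpt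
    _ = ENNReal.ofReal (2 / c) * (∫⁻ x, ∫⁻ R in Icc c (2 * c), ‖T (aa θ R) h x‖ₑ ^ 2) +
        ENNReal.ofReal c * ∫⁻ x, ∫⁻ R in Icc c (2 * c), ‖T (bb θ R) h x‖ₑ ^ 2 := by
        rw [lintegral_add_left', lintegral_const_mul' _ _ ENNReal.ofReal_ne_top,
          lintegral_const_mul' _ _ ENNReal.ofReal_ne_top]
        exact ((meas_T ha hh hc).lintegral_prod_right').const_mul _
    _ ≤ ENNReal.ofReal (2 / c) * (ENNReal.ofReal c * K) +
        ENNReal.ofReal c * (ENNReal.ofReal c * (ENNReal.ofReal ((2 * B / c) ^ 2) * K)) := by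
        gcongr
        · exact tonelli ha hh hc hKa
        · exact tonelli hb hh hc hKb
    _ = ENNReal.ofReal (2 + 4 * B ^ 2) * K := by
        have e1 : ENNReal.ofReal (2 / c) * (ENNReal.ofReal c * K) +
            ENNReal.ofReal c * (ENNReal.ofReal c * (ENNReal.ofReal ((2 * B / c) ^ 2) * K)) =
            (ENNReal.ofReal (2 / c) * ENNReal.ofReal c +
              ENNReal.ofReal c * ENNReal.ofReal c * ENNReal.ofReal ((2 * B / c) ^ 2)) * K := by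
          ring
        rw [e1, ← ENNReal.ofReal_mul (by positivity), ← ENNReal.ofReal_mul (by positivity),
          ← ENNReal.ofReal_mul (by positivity), ← ENNReal.ofReal_add (by positivity)
          (by positivity)]
        congr 2
        field_simp
        ring

end Pool.Agent.KSP
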