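import Pool.Agent.KSP.Targets2
import Pool.Agent.MBS.J1
import Pool.Agent.MBS.J5

set_option autoImplicit false

/-! Q4: the multipliers `et(2^m u)` on one octave. -/

namespace Pool.Agent.KSP

open MeasureTheory FourierTransform Set Filter Topology
open scoped ENNReal NNReal
open Pool.Agent.MBS (E ex T S Sstar et ps mul pm Tstar Pstar MF Fam DerR vv)

namespace Etm_

/-- derivative of `et` -/
noncomputable def et1 (u : ℝ) : ℝ := deriv et u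

theorem hasDerivAt_et (u : ℝ) : HasDerivAt et (et1 u) u :=
  (MBS.et_contDiff.differentiable (by simp)).differentiableAt.hasDerivAt

theorem et1_cont : Continuous et1 := by
  have h := MBS.et_contDiff
  rw [contDiff_infty_iff_deriv] at h
  exact h.2.continuous

theorem et1_zero {u : ℝ} (h : u < 1 / 4 ∨ 1 / 2 < u) : et1 u = 0 := by
  unfold et1
  rcases h with h | h
  · have : et =ᶠ[𝓝 u] fun _ => 0 := by
      filter_upwards [Iio_mem_nhds h] with v hv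
      exact MBS.et_zero (le_of_lt hv)
    rw [this.deriv_eq]
    simp
  · have : et =ᶠ[𝓝 u] fun _ => 1 := by
      filter_upwards [Ioi_mem_nhds h] with v hv
      exact MBS.et_one (le_of_lt hv)
    rw [this.deriv_eq]
    simp

theorem et1_bd : ∃ B : ℝ, 1 ≤ B ∧ ∀ u, |et1 u| ≤ B := by
  obtain ⟨B0, h0⟩ := (MBS.cs_of_zero (g := et1) fun u hu =>
    et1_zero (hu.imp (fun h => by linarith) id)).exists_bound_of_continuous et1_cont
  exact ⟨max B0 1, le_max_right _ _, fun u => (h0 u).trans (le_max_left _ _)⟩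

/-- the family -/
noncomputable def A (m : ℕ) (θ : E 2 → ℝ) (R : ℝ) (ξ : E 2) : ℝ := et (vv m R ξ) * θ ξ

/-- its `R`-derivative -/
noncomputable def A1 (m : ℕ) (θ : E 2 → ℝ) (R : ℝ) (ξ : E 2) : ℝ :=
  et1 (vv m R ξ) * (2 * 2 ^ m * ‖ξ‖ ^ 2 / R ^ 3) * θ ξ

theorem fam_A (m : ℕ) {θ : E 2 → ℝ} (hθ : Continuous θ) : Fam (A m θ) where
  cont := (MBS.et_contDiff.continuous.comp_continuousOn (MBS.vv_cont m)).mul
    (hθ.comp continuous_snd).continuousOn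
  supp := fun R hR ξ hξ => by
    unfold A
    rw [MBS.et_zero (by linarith [MBS.vv_neg (i := m) hR hξ]), zero_mul]

theorem fam_A1 (m : ℕ) {θ : E 2 → ℝ} (hθ : Continuous θ) : Fam (A1 m θ) where
  cont := ((et1_cont.comp_continuousOn (MBS.vv_cont m)).mul
    (MBS.div_cont (f := fun ξ : E 2 => 2 * 2 ^ m * ‖ξ‖ ^ 2) (by fun_prop) 3)).mul
    (hθ.comp continuous_snd).continuousOn
  supp := fun R hR ξ hξ => by
    unfold A1
    rw [et1_zero (Or.inl (by linarith [MBS.vv_neg (i := m) hR hξ])), zero_mul, zero_mul]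

theorem derR_A (m : ℕ) (θ : E 2 → ℝ) : DerR (A m θ) (A1 m θ) := fun R hR ξ =>
  ((hasDerivAt_et (vv m R ξ)).comp R (MBS.hasDerivAt_vv m hR ξ)).mul_const _

/-- squares of suprema -/
theorem sq_iSup_le {ι : Type*} {s : Set ι} {f : ι → ℝ≥0∞} {M : ℝ≥0∞}
    (h : ∀ R ∈ s, f R ^ 2 ≤ M) : (⨆ R ∈ s, f R) ^ 2 ≤ M := by
  have hs : (⨆ R ∈ s, f R) ≤ M ^ (1 / 2 : ℝ) := by
    refine iSup₂_le fun R hR => ?_
    calc f R = (f R ^ 2) ^ (1 / 2 : ℝ) := by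
          rw [← ENNReal.rpow_natCast, ← ENNReal.rpow_mul]
          norm_num
      _ ≤ _ := ENNReal.rpow_le_rpow (h R hR) (by norm_num)
  calc (⨆ R ∈ s, f R) ^ 2 ≤ (M ^ (1 / 2 : ℝ)) ^ 2 := pow_le_pow_left' hs 2
    _ = _ := by
      rw [← ENNReal.rpow_natCast, ← ENNReal.rpow_mul]
      norm_num

theorem sq_three (a b c : ℝ≥0∞) : (a + b + c) ^ 2 ≤ 9 * (a ^ 2 + b ^ 2 + c ^ 2) := by
  obtain ⟨M, hM⟩ : ∃ M, M = max a (max b c) := ⟨_, rfl⟩
  have h1 : a + b + c ≤ 3 * M := by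
    calc a + b + c ≤ M + M + M := by
          gcongr
          · rw [hM]; exact le_max_left _ _
          · rw [hM]; exact (le_max_left _ _).trans (le_max_right _ _)
          · rw [hM]; exact (le_max_right _ _).trans (le_max_right _ _)
      _ = _ := by ring
  have h2 : M ^ 2 ≤ a ^ 2 + b ^ 2 + c ^ 2 := by
    rcases max_choice a (max b c) with h | h
    · rw [hM, h, add_assoc]; exact le_self_add
    · rcases max_choice b c with h' | h'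
      · rw [hM, h, h', add_assoc]; exact le_self_add.trans le_add_self
      · rw [hM, h, h']; exact le_add_self
  calc (a + b + c) ^ 2 ≤ (3 * M) ^ 2 := pow_le_pow_left' h1 2
    _ = 9 * M ^ 2 := by ring
    _ ≤ _ := by gcongr

/-- sum with at most one nonzero term -/
theorem sum_le_one {ι : Type*} [DecidableEq ι] (s : Finset ι) (f : ι → ℝ≥0∞) (M : ℝ≥0∞)
    (hM : ∀ i ∈ s, f i ≤ M) (h1 : ∀ i ∈ s, ∀ j ∈ s, f i ≠ 0 → f j ≠ 0 → i = j) :
    ∑ i ∈ s, f i ≤ M := by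
  by_cases h : ∃ i ∈ s, f i ≠ 0
  · obtain ⟨i, hi, hne⟩ := h
    rw [Finset.sum_eq_single_of_mem i hi fun j hj hji => by
      by_contra hcon
      exact hji (h1 j hj i hi hcon hne)]
    exact hM i hi
  · push Not at h
    rw [Finset.sum_eq_zero h]
    exact bot_le

theorem meas_prod {c d : ℝ} (hc : 0 < c) (u : ℝ × E 2 → ℂ) (hu : ContinuousOn u (Ioi 0 ×ˢ univ)) :
    AEMeasurable (fun p : E 2 × ℝ => ‖u (p.2, p.1)‖ₑ ^ 2)
      ((volume : Measure (E 2)).prod (volume.restrict (Icc c d))) := by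
  have hpos : ∀ R ∈ Icc c d, 0 < R := fun R hR => by linarith [hR.1]
  have h1 : ContinuousOn (fun p : E 2 × ℝ => ‖u (p.2, p.1)‖ₑ ^ 2) (univ ×ˢ Icc c d) := by
    have h2 : ContinuousOn (fun p : E 2 × ℝ => u (p.2, p.1)) (univ ×ˢ Icc c d) :=
      hu.comp (f := fun p : E 2 × ℝ => (p.2, p.1)) (by fun_prop)
        (fun p hp => ⟨hpos p.2 hp.2, mem_univ _⟩)
    exact (ENNReal.continuous_pow 2).comp_continuousOn h2.enorm
  have h3 := h1.aemeasurable (μ := (volume : Measure (E 2)).prod (volume : Measure ℝ))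
    (MeasurableSet.univ.prod measurableSet_Icc)
  rwa [← Measure.prod_restrict, Measure.restrict_univ] at h3

/-- Plancherel and Tonelli -/
theorem planch_R {c d : ℝ} (hc : 0 < c) {b : ℝ → E 2 → ℝ} (hb : Fam b) {h : E 2 → ℂ}
    (hh : Continuous h) :
    ∫⁻ x, ∫⁻ R in Icc c d, ‖T (b R) h x‖ₑ ^ 2 =
      ∫⁻ ξ, (∫⁻ R in Icc c d, ‖b R ξ‖ₑ ^ 2) * ‖h ξ‖ₑ ^ 2 := by
  have hpos : ∀ R ∈ Icc c d, 0 < R := fun R hR => by linarith [hR.1]
  have hTb := MBS.pTcont 2 b h hb hh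
  have m := meas_prod (d := d) hc _ hTb
  rw [lintegral_lintegral_swap (μ := (volume : Measure (E 2)))
    (ν := volume.restrict (Icc c d)) (f := fun x R => ‖T (b R) h x‖ₑ ^ 2) m]
  have e1 : ∫⁻ R in Icc c d, ∫⁻ x, ‖T (b R) h x‖ₑ ^ 2 =
      ∫⁻ R in Icc c d, ∫⁻ ξ, ‖b R ξ‖ₑ ^ 2 * ‖h ξ‖ₑ ^ 2 := by
    refine setLIntegral_congr_fun measurableSet_Icc fun R hR => ?_
    exact MBS.pPlanch 2 (b R) h (hb.continuous (hpos R hR)) (hb.hasCompactSupport (hpos R hR)) hh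
  rw [e1]
  have m' : AEMeasurable (fun p : ℝ × E 2 => ‖b p.1 p.2‖ₑ ^ 2 * ‖h p.2‖ₑ ^ 2)
      ((volume.restrict (Icc c d)).prod (volume : Measure (E 2))) := by
    have h1 : ContinuousOn (fun p : ℝ × E 2 => ‖b p.1 p.2‖ₑ ^ 2) (Icc c d ×ˢ univ) := by
      have h2 : ContinuousOn (fun p : ℝ × E 2 => b p.1 p.2) (Icc c d ×ˢ univ) :=
        hb.cont.mono (prod_mono (fun R hR => hpos R hR) le_rfl)
      exact (ENNReal.continuous_pow 2).comp_continuousOn h2.enorm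
    have h3 := h1.aemeasurable (μ := (volume : Measure ℝ).prod (volume : Measure (E 2)))
      (measurableSet_Icc.prod MeasurableSet.univ)
    rw [← Measure.prod_restrict, Measure.restrict_univ] at h3
    refine h3.mul ?_
    exact (((hh.comp continuous_snd).enorm.measurable).pow_const 2).aemeasurable
  rw [lintegral_lintegral_swap (μ := volume.restrict (Icc c d))
    (ν := (volume : Measure (E 2))) (f := fun R ξ => ‖b R ξ‖ₑ ^ 2 * ‖h ξ‖ₑ ^ 2) m']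
  refine lintegral_congr fun ξ => ?_
  rw [lintegral_mul_const' _ _ (ENNReal.pow_ne_top enorm_ne_top)]

/-- the `R`-integral of the derivative -/
theorem A1_int {B : ℝ} (hB1 : 1 ≤ B) (hB : ∀ u, |et1 u| ≤ B) (m : ℕ) {c : ℝ} (hc : 0 < c)
    (θ : E 2 → ℝ) (ξ : E 2) :
    ∫⁻ R in Icc c (2 * c), ‖A1 m θ R ξ‖ₑ ^ 2 ≤
      ENNReal.ofReal (8 * B ^ 2 * 2 ^ m / c) *
        {ξ : E 2 | ‖ξ‖ ≤ 2 * c}.indicator (fun ξ => ‖θ ξ‖ₑ ^ 2) ξ := by
  set Z : Set ℝ := {R : ℝ | R ∈ Icc c (2 * c) ∧ 1 / 8 ≤ vv m R ξ ∧ vv m R ξ ≤ 1 / 2} with hZ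
  have hN : (0 : ℝ) < 2 ^ m := by positivity
  have hvm : Measurable (fun R : ℝ => vv m R ξ) := by
    unfold MBS.vv
    fun_prop
  have hZms : MeasurableSet Z := by
    refine measurableSet_Icc.inter ?_
    exact (measurableSet_le measurable_const hvm).inter (measurableSet_le hvm measurable_const)
  have hZm : volume Z ≤ ENNReal.ofReal (2 * (c / 2 ^ m)) := by
    refine MBS.meas_of_close (d := c / 2 ^ m) ?_
    rintro x ⟨hx, hx1, hx2⟩ y ⟨hy, hy1, hy2⟩ hxy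
    have a1 := (MBS.vv_range (by linarith [hx.1]) hx1 hx2).1
    have a2 := (MBS.vv_range (by linarith [hy.1]) hy1 hy2).2
    have a3 : y ^ 2 * (1 / (2 * 2 ^ m)) ≤ (2 * c) ^ 2 * (1 / (2 * 2 ^ m)) := by
      gcongr
      · linarith [hy.1]
      · exact hy.2
    have a4 : y ^ 2 - x ^ 2 ≤ 2 * c * (c / 2 ^ m) := by
      have e1 : (2 * c) ^ 2 * (1 / (2 * (2 : ℝ) ^ m)) = 2 * c * (c / 2 ^ m) := by
        field_simp
      rw [← e1]
      nlinarith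
    have a5 : 2 * c * (y - x) ≤ (y - x) * (y + x) := by
      rw [mul_comm]
      apply mul_le_mul_of_nonneg_left _ (by linarith)
      linarith [hx.1, hy.1]
    have a6 : 2 * c * (y - x) ≤ 2 * c * (c / 2 ^ m) := by nlinarith
    exact le_of_mul_le_mul_left a6 (by positivity)
  have hpt : ∀ R ∈ Icc c (2 * c), ‖A1 m θ R ξ‖ₑ ^ 2 ≤
      Z.indicator (fun _ => ENNReal.ofReal ((B * (2 * 2 ^ m / c)) ^ 2) *
        {ξ : E 2 | ‖ξ‖ ≤ 2 * c}.indicator (fun ξ => ‖θ ξ‖ₑ ^ 2) ξ) R := by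
    intro R hR
    have hR0 : 0 < R := by linarith [hR.1]
    by_cases hRZ : R ∈ Z
    · rw [indicator_of_mem hRZ]
      obtain ⟨a1, _⟩ := MBS.vv_range hR0 hRZ.2.1 hRZ.2.2
      have hξR : ‖ξ‖ ≤ R := abs_le_of_sq_le_sq' a1 hR0.le |>.2
      have hmem : ξ ∈ {ξ : E 2 | ‖ξ‖ ≤ 2 * c} := le_trans hξR hR.2
      rw [indicator_of_mem hmem]
      unfold A1
      rw [enorm_mul, mul_pow]
      gcongr
      rw [← ofReal_norm, ← ENNReal.ofReal_pow (norm_nonneg _)]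
      apply ENNReal.ofReal_le_ofReal
      rw [Real.norm_eq_abs, abs_mul]
      apply pow_le_pow_left₀ (by positivity)
      have h3 : |2 * 2 ^ m * ‖ξ‖ ^ 2 / R ^ 3| ≤ 2 * 2 ^ m / c := by
        rw [abs_of_nonneg (by positivity), div_le_div_iff₀ (by positivity) hc]
        have h4 : ‖ξ‖ ^ 2 * c ≤ R ^ 3 := by
          calc ‖ξ‖ ^ 2 * c ≤ R ^ 2 * R := by
                gcongr
                exact hR.1
            _ = _ := by ring
        calc 2 * 2 ^ m * ‖ξ‖ ^ 2 * c = 2 * 2 ^ m * (‖ξ‖ ^ 2 * c) := by ring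
          _ ≤ _ := by gcongr
      exact mul_le_mul (hB _) h3 (abs_nonneg _) (by linarith)
    · rw [indicator_of_notMem hRZ]
      have h0 : A1 m θ R ξ = 0 := by
        unfold A1
        rw [et1_zero, zero_mul, zero_mul]
        by_contra hcon
        push Not at hcon
        exact hRZ ⟨hR, by linarith [hcon.1], hcon.2⟩
      rw [h0]
      simp
  calc ∫⁻ R in Icc c (2 * c), ‖A1 m θ R ξ‖ₑ ^ 2
      ≤ ∫⁻ R in Icc c (2 * c), Z.indicator (fun _ => ENNReal.ofReal ((B * (2 * 2 ^ m / c)) ^ 2) *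
        {ξ : E 2 | ‖ξ‖ ≤ 2 * c}.indicator (fun ξ => ‖θ ξ‖ₑ ^ 2) ξ) R :=
        setLIntegral_mono' measurableSet_Icc hpt
    _ ≤ ∫⁻ R, Z.indicator (fun _ => ENNReal.ofReal ((B * (2 * 2 ^ m / c)) ^ 2) *
        {ξ : E 2 | ‖ξ‖ ≤ 2 * c}.indicator (fun ξ => ‖θ ξ‖ₑ ^ 2) ξ) R :=
        setLIntegral_le_lintegral _ _
    _ = ENNReal.ofReal ((B * (2 * 2 ^ m / c)) ^ 2) *
        {ξ : E 2 | ‖ξ‖ ≤ 2 * c}.indicator (fun ξ => ‖θ ξ‖ₑ ^ 2) ξ * volume Z := by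
        rw [lintegral_indicator hZms, setLIntegral_const]
    _ ≤ ENNReal.ofReal ((B * (2 * 2 ^ m / c)) ^ 2) *
        {ξ : E 2 | ‖ξ‖ ≤ 2 * c}.indicator (fun ξ => ‖θ ξ‖ₑ ^ 2) ξ *
          ENNReal.ofReal (2 * (c / 2 ^ m)) := by gcongr
    _ = ENNReal.ofReal ((B * (2 * 2 ^ m / c)) ^ 2) * ENNReal.ofReal (2 * (c / 2 ^ m)) *
        {ξ : E 2 | ‖ξ‖ ≤ 2 * c}.indicator (fun ξ => ‖θ ξ‖ₑ ^ 2) ξ := by ring
    _ = _ := by
        rw [← ENNReal.ofReal_mul (by positivity)]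
        congr 2
        field_simp
        ring

/-- pointwise in `x`: Sobolev on the cells `[ρ_k, ρ_{k+1}]` -/
theorem ptwise (hS : tSobI) {m : ℕ} {c : ℝ} (hc : 0 < c) (F F1 : ℝ → ℂ)
    (hF1 : ContinuousOn F1 (Icc c (2 * c))) (hF : ∀ t ∈ Icc c (2 * c), HasDerivAt F (F1 t) t) :
    (⨆ R ∈ Icc c (2 * c), ‖F R‖ₑ) ^ 2 ≤
      2 * (⨆ k ∈ Finset.range (2 ^ m), ‖F (c * (1 + k / 2 ^ m))‖ₑ) ^ 2 +
        ENNReal.ofReal (2 * (c / 2 ^ m)) * ∫⁻ r in Icc c (2 * c), ‖F1 r‖ₑ ^ 2 := by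
  have hN : (0 : ℝ) < 2 ^ m := by positivity
  refine sq_iSup_le fun R hR => ?_
  -- the cell
  obtain ⟨k, hk, hk1, hk2⟩ : ∃ k : ℕ, k < 2 ^ m ∧ c * (1 + k / 2 ^ m) ≤ R ∧
      R ≤ c * (1 + (k + 1) / 2 ^ m) := by
    rcases lt_or_ge R (2 * c) with h | h
    · have h0 : 0 ≤ (R / c - 1) * 2 ^ m := by
        have : 1 ≤ R / c := by
          rw [le_div_iff₀ hc]
          linarith [hR.1]
        exact mul_nonneg (by linarith) hN.le
      refine ⟨⌊(R / c - 1) * 2 ^ m⌋₊, ?_, ?_, ?_⟩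
      · rw [Nat.floor_lt h0]
        have : R / c < 2 := by
          rw [div_lt_iff₀ hc]
          exact h
        push_cast
        nlinarith
      · have h1 := Nat.floor_le h0
        have h2 : (⌊(R / c - 1) * 2 ^ m⌋₊ : ℝ) / 2 ^ m ≤ R / c - 1 := by
          rw [div_le_iff₀ hN]
          exact h1
        calc c * (1 + (⌊(R / c - 1) * 2 ^ m⌋₊ : ℝ) / 2 ^ m) ≤ c * (1 + (R / c - 1)) := by gcongr
          _ = R := by field_simp; ring
      · have h1 := (Nat.lt_floor_add_one ((R / c - 1) * 2 ^ m)).le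
        have h2 : R / c - 1 ≤ ((⌊(R / c - 1) * 2 ^ m⌋₊ : ℝ) + 1) / 2 ^ m := by
          rw [le_div_iff₀ hN]
          exact h1
        calc R = c * (1 + (R / c - 1)) := by field_simp; ring
          _ ≤ _ := by gcongr
    · have h1 : 1 ≤ 2 ^ m := Nat.one_le_two_pow
      have hRe : R = 2 * c := le_antisymm hR.2 h
      refine ⟨2 ^ m - 1, by omega, ?_, ?_⟩
      · rw [Nat.cast_sub h1, hRe]
        push_cast
        have : ((2 : ℝ) ^ m - 1) / 2 ^ m ≤ 1 := by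
          rw [div_le_one hN]
          linarith
        nlinarith
      · rw [Nat.cast_sub h1, hRe]
        push_cast
        rw [sub_add_cancel, div_self hN.ne']
        linarith
  have hlo : c ≤ c * (1 + k / 2 ^ m) := by
    have : (0 : ℝ) ≤ k / 2 ^ m := by positivity
    nlinarith
  have hhi : c * (1 + (k + 1) / 2 ^ m) ≤ 2 * c := by
    have : ((k : ℝ) + 1) / 2 ^ m ≤ 1 := by
      rw [div_le_one hN]
      exact_mod_cast hk
    nlinarith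
  have hsub : Icc (c * (1 + k / 2 ^ m)) (c * (1 + (k + 1) / 2 ^ m)) ⊆ Icc c (2 * c) :=
    Icc_subset_Icc hlo hhi
  have hlen : c * (1 + (k + 1) / 2 ^ m) - c * (1 + k / 2 ^ m) = c / 2 ^ m := by
    field_simp
    ring
  have hlt : c * (1 + k / 2 ^ m) < c * (1 + (k + 1) / 2 ^ m) := by
    have : 0 < c / 2 ^ m := by positivity
    linarith
  have key := (hS _ _ 1 F F1 hlt one_pos (hF1.mono hsub) (fun t ht => hF t (hsub ht)) R
    ⟨hk1, hk2⟩).2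
  rw [hlen] at key
  refine key.trans ?_
  gcongr
  · exact le_iSup₂_of_le k (Finset.mem_range.mpr hk) le_rfl
  

theorem bd_int {g : E 2 → ℂ} (hg : BdE g) (x : E 2) : Integrable (fun ξ => g ξ * ex x ξ) := by
  obtain ⟨hm, ⟨B, hB⟩, R, hR⟩ := hg
  have hB0 : 0 ≤ B := (norm_nonneg _).trans (hB 0)
  refine Integrable.mono' (g := (Metric.closedBall (0 : E 2) R).indicator (fun _ => B))
    (MBS.indicator_integrable _ _) ?_ (Filter.Eventually.of_forall fun ξ => ?_)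
  · have h1 : Continuous (fun ξ : E 2 => ex x ξ) :=
      MBS.ex_continuous.comp (by fun_prop : Continuous (fun ξ : E 2 => (x, ξ)))
    exact (hm.mul h1.measurable).aestronglyMeasurable
  · rw [norm_mul, MBS.ex_norm, mul_one]
    by_cases h : g ξ = 0
    · rw [h, norm_zero]
      exact indicator_nonneg (fun _ _ => hB0) _
    · rw [indicator_of_mem (by simpa using hR ξ h)]
      exact hB ξ

theorem IE_add {g h : E 2 → ℂ} (hg : BdE g) (hh : BdE h) (x : E 2) :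
    IE (fun ξ => g ξ + h ξ) x = IE g x + IE h x := by
  unfold IE
  rw [← integral_add (bd_int hg x) (bd_int hh x)]
  refine integral_congr_ae (Filter.Eventually.of_forall fun ξ => ?_)
  simp only
  ring

theorem bdE_indicator {g : E 2 → ℂ} (hg : BdE g) {s : Set (E 2)} (hs : MeasurableSet s) :
    BdE (s.indicator g) := by
  obtain ⟨hm, ⟨B, hB⟩, R, hR⟩ := hg
  have hB0 : 0 ≤ B := (norm_nonneg _).trans (hB 0)
  refine ⟨hm.indicator hs, ⟨B, fun ξ => ?_⟩, R, fun ξ hξ => ?_⟩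
  · by_cases h : ξ ∈ s
    · rw [indicator_of_mem h]; exact hB ξ
    · rw [indicator_of_notMem h, norm_zero]; exact hB0
  · exact hR ξ fun h0 => hξ (by
      by_cases h : ξ ∈ s
      · rw [indicator_of_mem h, h0]
      · rw [indicator_of_notMem h])

theorem bdE_mul {g : E 2 → ℂ} (hg : BdE g) {b : E 2 → ℂ} (hb : Measurable b)
    (hb1 : ∀ ξ, ‖b ξ‖ ≤ 1) : BdE (fun ξ => b ξ * g ξ) := by
  obtain ⟨hm, ⟨B, hB⟩, R, hR⟩ := hg
  refine ⟨hb.mul hm, ⟨B, fun ξ => ?_⟩, R, fun ξ hξ => hR ξ (right_ne_zero_of_mul hξ)⟩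
  rw [norm_mul]
  calc ‖b ξ‖ * ‖g ξ‖ ≤ 1 * ‖g ξ‖ := by gcongr; exact hb1 ξ
    _ ≤ B := by rw [one_mul]; exact hB ξ

theorem bdE_cont {g : E 2 → ℂ} (hg : Continuous g) (r : ℝ) :
    BdE ({ξ : E 2 | ‖ξ‖ ≤ r}.indicator g) := by
  have hs : MeasurableSet {ξ : E 2 | ‖ξ‖ ≤ r} := measurableSet_le measurable_norm measurable_const
  obtain ⟨B, hB⟩ := (isCompact_closedBall (0 : E 2) r).exists_bound_of_continuousOn
    hg.norm.continuousOn
  refine ⟨hg.measurable.indicator hs, ⟨max B 0, fun ξ => ?_⟩, r, fun ξ hξ => ?_⟩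
  · by_cases h : ξ ∈ {ξ : E 2 | ‖ξ‖ ≤ r}
    · rw [indicator_of_mem h]
      have := hB ξ (by simpa using h)
      rw [norm_norm] at this
      exact this.trans (le_max_left _ _)
    · rw [indicator_of_notMem h, norm_zero]
      exact le_max_right _ _
  · by_contra hcon
    have h0 : ξ ∉ {ξ : E 2 | ‖ξ‖ ≤ r} := hcon
    exact hξ (indicator_of_notMem h0 _)

section main

variable {m : ℕ} {c : ℝ} {θ : E 2 → ℝ} {h : E 2 → ℂ}

/-- `θ h 1_{|ξ| ≤ 2c}` -/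
noncomputable def H (c : ℝ) (θ : E 2 → ℝ) (h : E 2 → ℂ) : E 2 → ℂ :=
  {ξ : E 2 | ‖ξ‖ ≤ 2 * c}.indicator (fun ξ => (θ ξ : ℂ) * h ξ)

/-- third piece -/
noncomputable def G3 (m : ℕ) (c : ℝ) (θ : E 2 → ℝ) (h : E 2 → ℂ) (k : ℕ) : E 2 → ℂ :=
  {ξ : E 2 | ‖ξ‖ < c * (1 + k / 2 ^ m)}.indicator
    (fun ξ => (-((1 - et (vv m (c * (1 + k / 2 ^ m)) ξ) : ℝ) : ℂ)) * H c θ h ξ)

theorem bd_H (c : ℝ) (hθ : Continuous θ) (hh : Continuous h) : BdE (H c θ h) :=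
  bdE_cont (g := fun ξ => (θ ξ : ℂ) * h ξ) ((Complex.continuous_ofReal.comp hθ).mul hh) _

theorem norm_H (c : ℝ) : ∫⁻ ξ, ‖H c θ h ξ‖ₑ ^ 2 =
    ∫⁻ ξ in {ξ : E 2 | ‖ξ‖ ≤ 2 * c}, ‖θ ξ‖ₑ ^ 2 * ‖h ξ‖ₑ ^ 2 := by
  have hs : MeasurableSet {ξ : E 2 | ‖ξ‖ ≤ 2 * c} :=
    measurableSet_le measurable_norm measurable_const
  rw [← lintegral_indicator hs]
  refine lintegral_congr fun ξ => ?_
  unfold H
  by_cases hm : ξ ∈ {ξ : E 2 | ‖ξ‖ ≤ 2 * c}
  · rw [indicator_of_mem hm, indicator_of_mem hm, enorm_mul, mul_pow]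
    congr 2
    rw [← ofReal_norm, ← ofReal_norm, Complex.norm_real]
  · rw [indicator_of_notMem hm, indicator_of_notMem hm]
    simp

theorem vv_cont' (m : ℕ) (R : ℝ) : Continuous (fun ξ : E 2 => vv m R ξ) := by
  unfold MBS.vv
  fun_prop

theorem bd_G3 (m : ℕ) (c : ℝ) (hθ : Continuous θ) (hh : Continuous h) (k : ℕ) :
    BdE (G3 m c θ h k) := by
  refine bdE_indicator (bdE_mul (bd_H c hθ hh) ?_ fun ξ => ?_)
    (measurableSet_lt measurable_norm measurable_const)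
  · have := MBS.et_contDiff.continuous.comp (vv_cont' m (c * (1 + k / 2 ^ m)))
    have h2 : Continuous (fun ξ : E 2 =>
        (-((1 - et (vv m (c * (1 + k / 2 ^ m)) ξ) : ℝ) : ℂ))) :=
      (Complex.continuous_ofReal.comp (continuous_const.sub this)).neg
    exact h2.measurable
  · rw [norm_neg, Complex.norm_real, Real.norm_eq_abs, abs_le]
    have h1 := MBS.et_nonneg (vv m (c * (1 + k / 2 ^ m)) ξ)
    have h2 := MBS.et_le_one (vv m (c * (1 + k / 2 ^ m)) ξ)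
    constructor <;> linarith

theorem decomp (hc : 0 < c) (hθ : Continuous θ) (hh : Continuous h) {k : ℕ} (hk : k < 2 ^ m)
    (x : E 2) :
    T (A m θ (c * (1 + k / 2 ^ m))) h x =
      IE ({ξ : E 2 | ‖ξ‖ < c}.indicator (H c θ h)) x +
      IE ({ξ : E 2 | c ≤ ‖ξ‖ ∧ ‖ξ‖ < c * (1 + k / 2 ^ m)}.indicator (H c θ h)) x +
      IE (G3 m c θ h k) x := by
  have hN : (0 : ℝ) < 2 ^ m := by positivity
  have s1 : MeasurableSet {ξ : E 2 | ‖ξ‖ < c} := measurableSet_lt measurable_norm measurable_const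
  have s2 : MeasurableSet {ξ : E 2 | c ≤ ‖ξ‖ ∧ ‖ξ‖ < c * (1 + k / 2 ^ m)} :=
    (measurableSet_le measurable_const measurable_norm).inter
      (measurableSet_lt measurable_norm measurable_const)
  have hH := bd_H (θ := θ) (h := h) c hθ hh
  unfold IE
  have i12 : Integrable (fun ξ => {ξ : E 2 | ‖ξ‖ < c}.indicator (H c θ h) ξ * ex x ξ +
      {ξ : E 2 | c ≤ ‖ξ‖ ∧ ‖ξ‖ < c * (1 + k / 2 ^ m)}.indicator (H c θ h) ξ * ex x ξ) :=
    (bd_int (bdE_indicator hH s1) x).add (bd_int (bdE_indicator hH s2) x)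
  rw [← integral_add (bd_int (bdE_indicator hH s1) x) (bd_int (bdE_indicator hH s2) x),
    ← integral_add i12 (bd_int (bd_G3 m c hθ hh k) x)]
  unfold T
  refine integral_congr_ae (Filter.Eventually.of_forall fun ξ => ?_)
  simp only [← add_mul, ← mul_assoc]
  congr 1
  have hkN : (k : ℝ) / 2 ^ m < 1 := by
    rw [div_lt_one hN]
    exact_mod_cast hk
  have hk0 : (0 : ℝ) ≤ k / 2 ^ m := by positivity
  have hlo : c ≤ c * (1 + k / 2 ^ m) := by nlinarith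
  have hhi : c * (1 + k / 2 ^ m) ≤ 2 * c := by nlinarith
  have hρ : 0 < c * (1 + k / 2 ^ m) := by linarith
  unfold G3 A
  by_cases h1 : ‖ξ‖ < c * (1 + k / 2 ^ m)
  · have hmem : ξ ∈ {ξ : E 2 | ‖ξ‖ < c * (1 + k / 2 ^ m)} := h1
    have hmem2 : ξ ∈ {ξ : E 2 | ‖ξ‖ ≤ 2 * c} := le_trans h1.le hhi
    rw [indicator_of_mem hmem]
    have e : {ξ : E 2 | ‖ξ‖ < c}.indicator (H c θ h) ξ +
        {ξ : E 2 | c ≤ ‖ξ‖ ∧ ‖ξ‖ < c * (1 + k / 2 ^ m)}.indicator (H c θ h) ξ = H c θ h ξ := by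
      by_cases h2 : ‖ξ‖ < c
      · have a1 : ξ ∈ {ξ : E 2 | ‖ξ‖ < c} := h2
        have a2 : ξ ∉ {ξ : E 2 | c ≤ ‖ξ‖ ∧ ‖ξ‖ < c * (1 + k / 2 ^ m)} :=
          fun hcon => absurd hcon.1 (not_le.mpr h2)
        rw [indicator_of_mem a1, indicator_of_notMem a2, add_zero]
      · have a1 : ξ ∉ {ξ : E 2 | ‖ξ‖ < c} := h2
        have a2 : ξ ∈ {ξ : E 2 | c ≤ ‖ξ‖ ∧ ‖ξ‖ < c * (1 + k / 2 ^ m)} := ⟨not_lt.mp h2, h1⟩
        rw [indicator_of_notMem a1, indicator_of_mem a2, zero_add]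
    rw [e]
    unfold H
    rw [indicator_of_mem hmem2]
    push_cast
    ring
  · have a0 : ξ ∉ {ξ : E 2 | ‖ξ‖ < c * (1 + k / 2 ^ m)} := h1
    have a1 : ξ ∉ {ξ : E 2 | ‖ξ‖ < c} := fun hcon => h1 (lt_of_lt_of_le hcon hlo)
    have a2 : ξ ∉ {ξ : E 2 | c ≤ ‖ξ‖ ∧ ‖ξ‖ < c * (1 + k / 2 ^ m)} := fun hcon => h1 hcon.2
    rw [indicator_of_notMem a0, indicator_of_notMem a1, indicator_of_notMem a2]
    have hz : et (vv m (c * (1 + k / 2 ^ m)) ξ) = 0 := by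
      apply MBS.et_zero
      unfold MBS.vv
      have : 1 ≤ ‖ξ‖ ^ 2 / (c * (1 + k / 2 ^ m)) ^ 2 := by
        rw [one_le_div (by positivity)]
        have := not_lt.mp h1
        gcongr
      nlinarith
    rw [hz]
    simp

/-- the supports of the third pieces are disjoint -/
theorem G3_supp (hc : 0 < c) {k : ℕ} {ξ : E 2} (hk : k < 2 ^ m) (hne : G3 m c θ h k ξ ≠ 0) :
    (k : ℝ) - 1 < (‖ξ‖ / c - 1) * 2 ^ m ∧ (‖ξ‖ / c - 1) * 2 ^ m < k := by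
  have hN : (0 : ℝ) < 2 ^ m := by positivity
  have hkN : (k : ℝ) / 2 ^ m < 1 := by
    rw [div_lt_one hN]
    exact_mod_cast hk
  have hk0 : (0 : ℝ) ≤ k / 2 ^ m := by positivity
  unfold G3 at hne
  have hmem : ξ ∈ {ξ : E 2 | ‖ξ‖ < c * (1 + k / 2 ^ m)} := by
    by_contra hcon
    exact hne (indicator_of_notMem hcon _)
  rw [indicator_of_mem hmem] at hne
  have h1 := left_ne_zero_of_mul hne
  have h2 : ‖ξ‖ < c * (1 + k / 2 ^ m) := hmem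
  have h3 : vv m (c * (1 + k / 2 ^ m)) ξ < 1 / 2 := by
    by_contra hcon
    apply h1
    rw [MBS.et_one (not_lt.mp hcon)]
    simp
  obtain ⟨ρ, hρe⟩ : ∃ ρ, ρ = c * (1 + (k : ℝ) / 2 ^ m) := ⟨_, rfl⟩
  rw [← hρe] at h2 h3
  have hρ : 0 < ρ := by rw [hρe]; positivity
  have hρ2 : ρ ≤ 2 * c := by rw [hρe]; nlinarith
  have hek : (k : ℝ) = (ρ / c - 1) * 2 ^ m := by
    rw [hρe]
    field_simp
    ring
  constructor
  · unfold MBS.vv at h3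
    -- `‖ξ‖ > ρ (1 - 1/(2 N))`
    have h4 : 1 - 1 / (2 * 2 ^ m) < ‖ξ‖ ^ 2 / ρ ^ 2 := by
      have : 1 - ‖ξ‖ ^ 2 / ρ ^ 2 < 1 / (2 * 2 ^ m) := by
        rw [lt_div_iff₀ (by positivity)]
        nlinarith
      linarith
    rw [lt_div_iff₀ (by positivity)] at h4
    have h5 : (0 : ℝ) ≤ 1 - 1 / (2 * 2 ^ m) := by
      have : 1 / (2 * (2 : ℝ) ^ m) ≤ 1 := by
        rw [div_le_one (by positivity)]
        have : (1 : ℝ) ≤ 2 ^ m := one_le_pow₀ (by norm_num)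
        linarith
      linarith
    have h6 : ρ * (1 - 1 / (2 * 2 ^ m)) < ‖ξ‖ := by
      by_contra hcon
      push Not at hcon
      have h7 : ‖ξ‖ ^ 2 ≤ (ρ * (1 - 1 / (2 * 2 ^ m))) ^ 2 := by
        gcongr
      have h8 : (ρ * (1 - 1 / (2 * 2 ^ m))) ^ 2 ≤ (1 - 1 / (2 * 2 ^ m)) * ρ ^ 2 := by
        have h9 : (1 - 1 / (2 * (2 : ℝ) ^ m)) ≤ 1 := by
          have : (0 : ℝ) ≤ 1 / (2 * 2 ^ m) := by positivity
          linarith
        calc (ρ * (1 - 1 / (2 * 2 ^ m))) ^ 2 =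
            (1 - 1 / (2 * (2 : ℝ) ^ m)) * ((1 - 1 / (2 * 2 ^ m)) * ρ ^ 2) := by ring
          _ ≤ 1 * ((1 - 1 / (2 * 2 ^ m)) * ρ ^ 2) := by gcongr
          _ = _ := one_mul _
      linarith
    have h10 : ρ - c / 2 ^ m ≤ ρ * (1 - 1 / (2 * 2 ^ m)) := by
      have : ρ * (1 / (2 * 2 ^ m)) ≤ 2 * c * (1 / (2 * 2 ^ m)) := by gcongr
      have e : 2 * c * (1 / (2 * (2 : ℝ) ^ m)) = c / 2 ^ m := by field_simp
      rw [e] at this
      linarith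
    have h11 : ρ - c / 2 ^ m < ‖ξ‖ := by linarith
    rw [hek]
    have h12 : (ρ / c - 1) * 2 ^ m - 1 = ((ρ - c / 2 ^ m) / c - 1) * 2 ^ m := by
      field_simp
      ring
    rw [h12]
    gcongr
  · rw [hek]
    gcongr

theorem G3_sum (hc : 0 < c) (ξ : E 2) :
    ∑ k ∈ Finset.range (2 ^ m), ‖G3 m c θ h k ξ‖ₑ ^ 2 ≤ ‖H c θ h ξ‖ₑ ^ 2 := by
  refine sum_le_one _ _ _ (fun k _ => ?_) (fun i hi j hj hi0 hj0 => ?_)
  · gcongr
    unfold G3
    by_cases hm : ξ ∈ {ξ : E 2 | ‖ξ‖ < c * (1 + k / 2 ^ m)}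
    · rw [indicator_of_mem hm, enorm_mul]
      calc _ ≤ 1 * ‖H c θ h ξ‖ₑ := by
            gcongr
            rw [← ofReal_norm, ← ENNReal.ofReal_one]
            apply ENNReal.ofReal_le_ofReal
            rw [norm_neg, Complex.norm_real, Real.norm_eq_abs, abs_le]
            have h1 := MBS.et_nonneg (vv m (c * (1 + k / 2 ^ m)) ξ)
            have h2 := MBS.et_le_one (vv m (c * (1 + k / 2 ^ m)) ξ)
            constructor <;> linarith
        _ = _ := one_mul _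
    · rw [indicator_of_notMem hm]
      simp
  · have a1 := G3_supp hc (Finset.mem_range.mp hi) (fun h0 => hi0 (by rw [h0]; simp))
    have a2 := G3_supp hc (Finset.mem_range.mp hj) (fun h0 => hj0 (by rw [h0]; simp))
    have b1 : (i : ℝ) - 1 < j := by linarith [a1.1, a2.2]
    have b2 : (j : ℝ) - 1 < i := by linarith [a1.2, a2.1]
    have c1 : i < j + 1 := by exact_mod_cast (by linarith : (i : ℝ) < j + 1)
    have c2 : j < i + 1 := by exact_mod_cast (by linarith : (j : ℝ) < i + 1)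
    omega

/-- the radii `ρ_k` -/
theorem radii (hP : tPlE) {C : ℝ≥0}
    (hK : ∀ (m : ℕ) (c : ℝ) (h : E 2 → ℂ), 1 ≤ m → 0 < c → BdE h →
      ∫⁻ x, (⨆ k ∈ Finset.range (2 ^ m),
        ‖IE ({ξ : E 2 | c ≤ ‖ξ‖ ∧ ‖ξ‖ < c * (1 + k / 2 ^ m)}.indicator h) x‖ₑ) ^ 2 ≤
      C * m * ((lg m : ℕ) : ℝ≥0∞) ^ 5 * ∫⁻ ξ in {ξ : E 2 | c ≤ ‖ξ‖ ∧ ‖ξ‖ < 2 * c}, ‖h ξ‖ₑ ^ 2)
    (hm : 1 ≤ m) (hc : 0 < c) (hθ : Continuous θ) (hh : Continuous h) :
    ∫⁻ x, (⨆ k ∈ Finset.range (2 ^ m), ‖T (A m θ (c * (1 + k / 2 ^ m))) h x‖ₑ) ^ 2 ≤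
      9 * (2 + C * m * ((lg m : ℕ) : ℝ≥0∞) ^ 5) * ∫⁻ ξ, ‖H c θ h ξ‖ₑ ^ 2 := by
  have s1 : MeasurableSet {ξ : E 2 | ‖ξ‖ < c} := measurableSet_lt measurable_norm measurable_const
  have s2 : ∀ k : ℕ, MeasurableSet {ξ : E 2 | c ≤ ‖ξ‖ ∧ ‖ξ‖ < c * (1 + k / 2 ^ m)} := fun k =>
    (measurableSet_le measurable_const measurable_norm).inter
      (measurableSet_lt measurable_norm measurable_const)
  have hH := bd_H (θ := θ) (h := h) c hθ hh
  have p1 := hP _ (bdE_indicator hH s1)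
  have p2 := fun k => hP _ (bdE_indicator hH (s2 k))
  have p3 := fun k => hP _ (bd_G3 m c hθ hh k)
  have hpt : ∀ x, (⨆ k ∈ Finset.range (2 ^ m), ‖T (A m θ (c * (1 + k / 2 ^ m))) h x‖ₑ) ^ 2 ≤
      9 * (‖IE ({ξ : E 2 | ‖ξ‖ < c}.indicator (H c θ h)) x‖ₑ ^ 2 +
        (⨆ k ∈ Finset.range (2 ^ m),
          ‖IE ({ξ : E 2 | c ≤ ‖ξ‖ ∧ ‖ξ‖ < c * (1 + k / 2 ^ m)}.indicator (H c θ h)) x‖ₑ) ^ 2 +
        ∑ k ∈ Finset.range (2 ^ m), ‖IE (G3 m c θ h k) x‖ₑ ^ 2) := by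
    intro x
    refine sq_iSup_le (s := (Finset.range (2 ^ m) : Set ℕ)) fun k hk => ?_
    have hk' : k < 2 ^ m := by simpa using hk
    rw [decomp hc hθ hh hk' x]
    refine (pow_le_pow_left' ((enorm_add_le _ _).trans
      (add_le_add_left (enorm_add_le _ _) _)) 2).trans ?_
    refine (sq_three _ _ _).trans ?_
    gcongr
    · exact le_iSup₂_of_le k hk le_rfl
    · exact Finset.single_le_sum (f := fun k => ‖IE (G3 m c θ h k) x‖ₑ ^ 2)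
        (fun _ _ => bot_le) (Finset.mem_range.mpr hk')
  have m1 : Measurable (fun x => ‖IE ({ξ : E 2 | ‖ξ‖ < c}.indicator (H c θ h)) x‖ₑ ^ 2) :=
    (p1.1.enorm.measurable).pow_const 2
  have m2 : Measurable (fun x => (⨆ k ∈ Finset.range (2 ^ m),
      ‖IE ({ξ : E 2 | c ≤ ‖ξ‖ ∧ ‖ξ‖ < c * (1 + k / 2 ^ m)}.indicator (H c θ h)) x‖ₑ) ^ 2) := by
    refine Measurable.pow_const ?_ 2
    exact Measurable.iSup fun k => Measurable.iSup fun _ => (p2 k).1.enorm.measurable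
  have m3 : ∀ k, Measurable (fun x => ‖IE (G3 m c θ h k) x‖ₑ ^ 2) := fun k =>
    ((p3 k).1.enorm.measurable).pow_const 2
  calc ∫⁻ x, (⨆ k ∈ Finset.range (2 ^ m), ‖T (A m θ (c * (1 + k / 2 ^ m))) h x‖ₑ) ^ 2
      ≤ ∫⁻ x, 9 * (‖IE ({ξ : E 2 | ‖ξ‖ < c}.indicator (H c θ h)) x‖ₑ ^ 2 +
        (⨆ k ∈ Finset.range (2 ^ m),
          ‖IE ({ξ : E 2 | c ≤ ‖ξ‖ ∧ ‖ξ‖ < c * (1 + k / 2 ^ m)}.indicator (H c θ h)) x‖ₑ) ^ 2 +
        ∑ k ∈ Finset.range (2 ^ m), ‖IE (G3 m c θ h k) x‖ₑ ^ 2) := lintegral_mono hpt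
    _ = 9 * ((∫⁻ x, ‖IE ({ξ : E 2 | ‖ξ‖ < c}.indicator (H c θ h)) x‖ₑ ^ 2) +
        (∫⁻ x, (⨆ k ∈ Finset.range (2 ^ m),
          ‖IE ({ξ : E 2 | c ≤ ‖ξ‖ ∧ ‖ξ‖ < c * (1 + k / 2 ^ m)}.indicator (H c θ h)) x‖ₑ) ^ 2) +
        ∑ k ∈ Finset.range (2 ^ m), ∫⁻ x, ‖IE (G3 m c θ h k) x‖ₑ ^ 2) := by
        have m12 := m1.add m2
        simp only [Pi.add_def] at m12
        rw [lintegral_const_mul' _ _ (by norm_num), lintegral_add_left m12,
          lintegral_add_left m1, lintegral_finset_sum _ fun k _ => m3 k]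
    _ ≤ 9 * ((∫⁻ ξ, ‖H c θ h ξ‖ₑ ^ 2) +
        C * m * ((lg m : ℕ) : ℝ≥0∞) ^ 5 * (∫⁻ ξ, ‖H c θ h ξ‖ₑ ^ 2) +
        ∫⁻ ξ, ‖H c θ h ξ‖ₑ ^ 2) := by
        gcongr 9 * (?_ + ?_ + ?_)
        · rw [p1.2]
          refine lintegral_mono fun ξ => ?_
          dsimp only
          by_cases hx : ξ ∈ {ξ : E 2 | ‖ξ‖ < c}
          · rw [indicator_of_mem hx]
          · rw [indicator_of_notMem hx]; simp
        · refine (hK m c (H c θ h) hm hc hH).trans ?_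
          gcongr
          exact Measure.restrict_le_self
        · calc ∑ k ∈ Finset.range (2 ^ m), ∫⁻ x, ‖IE (G3 m c θ h k) x‖ₑ ^ 2
              = ∑ k ∈ Finset.range (2 ^ m), ∫⁻ ξ, ‖G3 m c θ h k ξ‖ₑ ^ 2 :=
                Finset.sum_congr rfl fun k _ => (p3 k).2
            _ = ∫⁻ ξ, ∑ k ∈ Finset.range (2 ^ m), ‖G3 m c θ h k ξ‖ₑ ^ 2 := by
                rw [lintegral_finset_sum _ fun k _ =>
                  ((bd_G3 m c hθ hh k).1.enorm.pow_const 2)]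
            _ ≤ _ := lintegral_mono fun ξ => G3_sum hc ξ
    _ = _ := by ring

end main

end Etm_

open Etm_ in
theorem pEtm (hP : tPlE) (hK : tKE) (hS : tSobI) : tEtm := by
  obtain ⟨C, hC⟩ := hK
  obtain ⟨B, hB1, hB⟩ := et1_bd
  refine ⟨18 * C + 36 + (16 * B ^ 2).toNNReal, fun m c θ h hm hc hθ hθ1 hh => ?_⟩
  have hpos : ∀ R ∈ Icc c (2 * c), 0 < R := fun R hR => by linarith [hR.1]
  have hfA := fam_A m hθ
  have hfA1 := fam_A1 m hθ
  have hTa := MBS.pTcont 2 (A m θ) h hfA hh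
  have hTa1 := MBS.pTcont 2 (A1 m θ) h hfA1 hh
  have e0 : ∀ R, (fun ξ : E 2 => et (2 ^ m * (1 - ‖ξ‖ ^ 2 / R ^ 2)) * θ ξ) = A m θ R :=
    fun R => rfl
  simp only [e0]
  rw [← norm_H (θ := θ) (h := h) c]
  have hpt : ∀ x, (⨆ R ∈ Icc c (2 * c), ‖T (A m θ R) h x‖ₑ) ^ 2 ≤
      2 * (⨆ k ∈ Finset.range (2 ^ m), ‖T (A m θ (c * (1 + k / 2 ^ m))) h x‖ₑ) ^ 2 +
        ENNReal.ofReal (2 * (c / 2 ^ m)) * ∫⁻ r in Icc c (2 * c), ‖T (A1 m θ r) h x‖ₑ ^ 2 := by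
    intro x
    refine ptwise hS hc (fun R => T (A m θ R) h x) (fun R => T (A1 m θ R) h x) ?_ fun t ht =>
      MBS.pTderiv 2 _ _ h hfA hfA1 hh (derR_A m θ) t (hpos t ht) x
    exact hTa1.comp (f := fun R : ℝ => (R, x)) (by fun_prop)
      (fun R hR => ⟨hpos R hR, mem_univ _⟩)
  have m1 : Measurable (fun x => 2 * (⨆ k ∈ Finset.range (2 ^ m),
      ‖T (A m θ (c * (1 + k / 2 ^ m))) h x‖ₑ) ^ 2) := by
    refine Measurable.const_mul (Measurable.pow_const ?_ 2) 2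
    refine Measurable.iSup fun k => Measurable.iSup fun _ => ?_
    refine Continuous.measurable (Continuous.enorm ?_)
    have hk : 0 < c * (1 + (k : ℝ) / 2 ^ m) := by positivity
    exact hTa.comp_continuous (f := fun x : E 2 => (c * (1 + (k : ℝ) / 2 ^ m), x)) (by fun_prop)
      (fun x => ⟨hk, mem_univ _⟩)
  have hI : ∫⁻ x, ∫⁻ r in Icc c (2 * c), ‖T (A1 m θ r) h x‖ₑ ^ 2 ≤
      ENNReal.ofReal (8 * B ^ 2 * 2 ^ m / c) * ∫⁻ ξ, ‖H c θ h ξ‖ₑ ^ 2 := by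
    rw [planch_R hc hfA1 hh, ← lintegral_const_mul' _ _ ENNReal.ofReal_ne_top]
    refine lintegral_mono fun ξ => ?_
    dsimp only
    refine (mul_le_mul_left (A1_int hB1 hB m hc θ ξ) _).trans ?_
    rw [mul_assoc]
    gcongr
    unfold H
    by_cases hx : ξ ∈ {ξ : E 2 | ‖ξ‖ ≤ 2 * c}
    · rw [indicator_of_mem hx, indicator_of_mem hx, enorm_mul, mul_pow]
      gcongr
      rw [← ofReal_norm, ← ofReal_norm, Complex.norm_real]
    · rw [indicator_of_notMem hx]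
      simp
  have hone : (1 : ℝ≥0∞) ≤ m * ((lg m : ℕ) : ℝ≥0∞) ^ 5 := by
    have h1 : 1 ≤ m * (lg m) ^ 5 := by
      have : 1 ≤ lg m := by unfold lg; omega
      exact Nat.mul_pos (by omega) (by positivity)
    exact_mod_cast h1
  calc ∫⁻ x, (⨆ R ∈ Icc c (2 * c), ‖T (A m θ R) h x‖ₑ) ^ 2
      ≤ ∫⁻ x, (2 * (⨆ k ∈ Finset.range (2 ^ m), ‖T (A m θ (c * (1 + k / 2 ^ m))) h x‖ₑ) ^ 2 +
        ENNReal.ofReal (2 * (c / 2 ^ m)) *
          ∫⁻ r in Icc c (2 * c), ‖T (A1 m θ r) h x‖ₑ ^ 2) := lintegral_mono hpt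
    _ = 2 * (∫⁻ x, (⨆ k ∈ Finset.range (2 ^ m), ‖T (A m θ (c * (1 + k / 2 ^ m))) h x‖ₑ) ^ 2) +
        ENNReal.ofReal (2 * (c / 2 ^ m)) *
          ∫⁻ x, ∫⁻ r in Icc c (2 * c), ‖T (A1 m θ r) h x‖ₑ ^ 2 := by
        rw [lintegral_add_left m1, lintegral_const_mul' _ _ (by norm_num),
          lintegral_const_mul' _ _ ENNReal.ofReal_ne_top]
    _ ≤ 2 * (9 * (2 + C * m * ((lg m : ℕ) : ℝ≥0∞) ^ 5) * ∫⁻ ξ, ‖H c θ h ξ‖ₑ ^ 2) +
        ENNReal.ofReal (2 * (c / 2 ^ m)) *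
          (ENNReal.ofReal (8 * B ^ 2 * 2 ^ m / c) * ∫⁻ ξ, ‖H c θ h ξ‖ₑ ^ 2) := by
        gcongr
        exact radii hP hC hm hc hθ hh
    _ = (36 * 1 + 18 * C * (m * ((lg m : ℕ) : ℝ≥0∞) ^ 5) + ENNReal.ofReal (16 * B ^ 2) * 1) *
          ∫⁻ ξ, ‖H c θ h ξ‖ₑ ^ 2 := by
        rw [← mul_assoc (ENNReal.ofReal _), ← ENNReal.ofReal_mul (by positivity)]
        rw [show 2 * (c / 2 ^ m) * (8 * B ^ 2 * 2 ^ m / c) = 16 * B ^ 2 by field_simp; ring]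
        ring
    _ ≤ (36 * (m * ((lg m : ℕ) : ℝ≥0∞) ^ 5) + 18 * C * (m * ((lg m : ℕ) : ℝ≥0∞) ^ 5) +
          ENNReal.ofReal (16 * B ^ 2) * (m * ((lg m : ℕ) : ℝ≥0∞) ^ 5)) *
          ∫⁻ ξ, ‖H c θ h ξ‖ₑ ^ 2 := by
        gcongr
    _ = _ := by
        have e1 : ((18 * C + 36 + (16 * B ^ 2).toNNReal : ℝ≥0) : ℝ≥0∞) =
            18 * C + 36 + ENNReal.ofReal (16 * B ^ 2) := by
          push_cast
          rfl
        rw [e1]
        ring

end Pool.Agent.KSP
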