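import Pool.Agent.KSP.Targets2
import Pool.Agent.MBS.J7
import Pool.Agent.MBS.J8
import Pool.Agent.MBS.J10
import Pool.Agent.MBS.J11
import Pool.Agent.MBS.J12
import Pool.Agent.MBS.J13
import Pool.Agent.MBS.J14
import Pool.Agent.MBS.J1
import Pool.Agent.MBS.J5

set_option autoImplicit false

/-! KSP, Q14: local maximal inequality with the weight `lw`. -/

namespace Pool.Agent.KSP

open MeasureTheory FourierTransform Set Filter Topology
open scoped ENNReal NNReal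
open Pool.Agent.MBS (E ex T S Sstar et ps mul pm Tstar Pstar MF)

namespace FA0_

/-- the annulus `2^k / 2 ≤ |ξ| ≤ 2 2^k` -/
def A (k : ℤ) : Set (E 2) := {ξ | (2 : ℝ) ^ k / 2 ≤ ‖ξ‖ ∧ ‖ξ‖ ≤ 2 * 2 ^ k}

lemma A_meas (k : ℤ) : MeasurableSet (A k) :=
  (measurableSet_le measurable_const measurable_norm).inter
      (measurableSet_le measurable_norm measurable_const)

lemma log_three : (1 : ℝ) ≤ Real.log 3 := by
  rw [Real.le_log_iff_exp_le (by norm_num)]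
  linarith [Real.exp_one_lt_d9]

lemma L_one (ξ : E 2) : 1 ≤ Real.log (3 + ‖ξ‖) :=
  log_three.trans (Real.log_le_log (by norm_num) (by linarith [norm_nonneg ξ]))

lemma LL_one (ξ : E 2) : 1 ≤ Real.log (3 + Real.log (3 + ‖ξ‖)) :=
  log_three.trans (Real.log_le_log (by norm_num) (by linarith [L_one ξ]))

lemma lw_one (ξ : E 2) : 1 ≤ lw ξ := by
  unfold lw
  have h1 := L_one ξ
  have h2 : 1 ≤ Real.log (3 + Real.log (3 + ‖ξ‖)) ^ 5 := one_le_pow₀ (LL_one ξ)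
  nlinarith

lemma lw_weight (k : ℕ) {ξ : E 2} (hξ : ξ ∈ A k) :
    ((k + 1 : ℕ) : ℝ) * ((lg (k + 1) : ℕ) : ℝ) ^ 5 ≤ 31104 * lw ξ := by
  have hl2 : (0.6931 : ℝ) < Real.log 2 := by linarith [Real.log_two_gt_d9]
  have hl2' : Real.log 2 < 0.6932 := by linarith [Real.log_two_lt_d9]
  have hL := L_one ξ
  have hLL := LL_one ξ
  set L := Real.log (3 + ‖ξ‖) with hLdef
  set LL := Real.log (3 + L) with hLLdef
  have h1 : (k : ℝ) * Real.log 2 - Real.log 2 ≤ L := by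
    have h2 : Real.log ((2 : ℝ) ^ k / 2) ≤ L := by
      apply Real.log_le_log (by positivity)
      have := hξ.1
      rw [zpow_natCast] at this
      linarith
    rwa [Real.log_div (by positivity) (by norm_num), Real.log_pow] at h2
  have hk0 : (0 : ℝ) ≤ k := Nat.cast_nonneg k
  have h3 : (k : ℝ) + 1 ≤ 4 * L := by nlinarith
  have h4 : ((lg (k + 1) : ℕ) : ℝ) ≤ 6 * LL := by
    unfold lg
    push_cast
    have h5 : ((2 : ℝ)) ^ (Nat.log 2 (k + 1)) ≤ (k : ℝ) + 1 := by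
      have := Nat.pow_log_le_self 2 (x := k + 1) (by omega)
      exact_mod_cast this
    have h6 : (Nat.log 2 (k + 1) : ℝ) * Real.log 2 ≤ Real.log (4 * L) := by
      rw [← Real.log_pow]
      exact Real.log_le_log (by positivity) (h5.trans h3)
    rw [Real.log_mul (by norm_num) (by linarith)] at h6
    have h7 : Real.log 4 = 2 * Real.log 2 := by
      rw [show (4 : ℝ) = 2 ^ 2 by norm_num, Real.log_pow]; norm_num
    have h8 : Real.log L ≤ LL := Real.log_le_log (by linarith) (by linarith)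
    have h9 : (0 : ℝ) ≤ Nat.log 2 (k + 1) := Nat.cast_nonneg _
    nlinarith
  have h10 : (0 : ℝ) ≤ ((lg (k + 1) : ℕ) : ℝ) := Nat.cast_nonneg _
  have h11 : ((lg (k + 1) : ℕ) : ℝ) ^ 5 ≤ (6 * LL) ^ 5 := pow_le_pow_left₀ h10 h4 5
  push_cast
  calc ((k : ℝ) + 1) * ((lg (k + 1) : ℕ) : ℝ) ^ 5 ≤ (4 * L) * (6 * LL) ^ 5 := by
        apply mul_le_mul h3 h11 (by positivity) (by linarith)
    _ = 31104 * (L * LL ^ 5) := by ring
    _ = 31104 * lw ξ := by rw [lw]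

/-- sum over the annuli -/
lemma sum_A {w : E 2 → ℝ≥0∞} (hw : Measurable w) :
    ∑' k : ℕ, ∫⁻ ξ in A k, w ξ ≤ 3 * ∫⁻ ξ, w ξ := by
  calc ∑' k : ℕ, ∫⁻ ξ in A k, w ξ ≤ ∑' m : ℤ, ∫⁻ ξ in A m, w ξ :=
        ENNReal.tsum_comp_le_tsum_of_injective Nat.cast_injective (fun m : ℤ => ∫⁻ ξ in A m, w ξ)
    _ = ∫⁻ ξ, ∑' m : ℤ, (A m).indicator w ξ := by
        rw [lintegral_tsum]
        · refine tsum_congr fun m => ?_
          rw [lintegral_indicator (A_meas m)]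
        · exact fun m => (hw.indicator (A_meas m)).aemeasurable
    _ ≤ ∫⁻ ξ, 3 * w ξ := by
        refine lintegral_mono fun ξ => ?_
        have h1 : ∀ m : ℤ, (A m).indicator w ξ =
            ({m : ℤ | (2 : ℝ) ^ m / 2 ≤ ‖ξ‖ ∧ ‖ξ‖ ≤ 2 * 2 ^ m} : Set ℤ).indicator
              (fun _ => (1 : ℝ≥0∞)) m * w ξ := by
          intro m
          by_cases h : (2 : ℝ) ^ m / 2 ≤ ‖ξ‖ ∧ ‖ξ‖ ≤ 2 * 2 ^ m
          · rw [indicator_of_mem (by exact h), indicator_of_mem (by exact h), one_mul]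
          · rw [indicator_of_notMem (by exact h), indicator_of_notMem (by exact h), zero_mul]
        simp only [h1]
        rw [ENNReal.tsum_mul_right]
        exact mul_le_mul_left (MBS.J8.overlap ‖ξ‖) _
    _ = 3 * ∫⁻ ξ, w ξ := lintegral_const_mul _ hw

/-- the weights of the Cauchy-Schwarz inequality -/
noncomputable def b (i : ℕ) : ℝ≥0∞ := ENNReal.ofReal ((3 / 4) ^ i)

lemma b_ne (i : ℕ) : b i ≠ 0 := by
  simp only [b, ne_eq, ENNReal.ofReal_eq_zero, not_le]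
  positivity

lemma b_top (i : ℕ) : b i ≠ ⊤ := ENNReal.ofReal_ne_top

lemma b_sum : ∑' i, b i = 4 := by
  unfold b
  rw [← ENNReal.ofReal_tsum_of_nonneg (fun k => by positivity)
    (summable_geometric_of_lt_one (by norm_num) (by norm_num)),
    tsum_geometric_of_lt_one (by norm_num) (by norm_num)]
  norm_num

lemma b_sum2 : ∑' i : ℕ, ENNReal.ofReal (1 / 2 ^ (i + 1)) * (b i)⁻¹ ≤ 2 := by
  have h : ∀ i : ℕ, ENNReal.ofReal (1 / 2 ^ (i + 1)) * (b i)⁻¹ =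
      ENNReal.ofReal (1 / 2 * (2 / 3) ^ i) := by
    intro i
    unfold b
    rw [← ENNReal.ofReal_inv_of_pos (by positivity), ← ENNReal.ofReal_mul (by positivity)]
    congr 1
    rw [pow_succ, ← inv_pow]
    have : (2 / 3 : ℝ) ^ i = (1 / 2) ^ i * (3 / 4)⁻¹ ^ i := by
      rw [← mul_pow]; norm_num
    rw [this]
    rw [one_div_pow]
    field_simp
  simp only [h]
  rw [← ENNReal.ofReal_tsum_of_nonneg (fun k => by positivity)
    ((summable_geometric_of_lt_one (by norm_num) (by norm_num)).mul_left _), tsum_mul_left,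
    tsum_geometric_of_lt_one (by norm_num) (by norm_num)]
  norm_num

lemma muS_cont (m : ℕ) (R : ℝ) : Continuous (muS m R) := by
  unfold muS
  exact (MBS.J10.et_cont.comp (by fun_prop)).sub (MBS.J10.et_cont.comp (by fun_prop))

lemma muS_supp (m : ℕ) {R : ℝ} (hR : 0 < R) : HasCompactSupport (muS m R) := by
  refine HasCompactSupport.intro (isCompact_closedBall (0 : E 2) R) ?_
  intro ξ hξ
  have h1 : R < ‖ξ‖ := by simpa using hξ
  have h2 : 1 - ‖ξ‖ ^ 2 / R ^ 2 ≤ 0 := by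
    rw [sub_nonpos, le_div_iff₀ (by positivity)]
    nlinarith
  have h3 : ∀ u : ℝ, u ≤ 0 → et u = 0 := by
    intro u hu
    unfold et
    exact Real.smoothTransition.zero_of_nonpos (by linarith)
  unfold muS
  rw [h3 _ h2, h3 _ (mul_nonpos_of_nonneg_of_nonpos (by positivity) h2), sub_zero]

lemma G_meas (m : ℕ) {c : ℝ} (hc : 0 < c) {h : E 2 → ℂ} (hh : Continuous h) :
    Measurable fun x => ⨆ R ∈ Icc c (2 * c), ‖T (muS m R) h x‖ₑ := by
  refine LowerSemicontinuous.measurable ?_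
  refine lowerSemicontinuous_biSup fun R hR => ?_
  exact (MBS.J8.T_cont (muS_cont m R) (muS_supp m (hc.trans_le hR.1)) hh).enorm.lowerSemicontinuous

lemma add3_sq (a b c : ℝ≥0∞) : (a + b + c) ^ 2 ≤ 4 * (a ^ 2 + b ^ 2 + c ^ 2) := by
  calc (a + b + c) ^ 2 ≤ 2 * (a + b) ^ 2 + 2 * c ^ 2 := MBS.G7.add_sq_le _ _
    _ ≤ 2 * (2 * a ^ 2 + 2 * b ^ 2) + 4 * c ^ 2 := by
        gcongr
        · exact MBS.G7.add_sq_le _ _
        · norm_num
    _ = _ := by ring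

lemma lw_meas : Measurable lw := by
  unfold lw
  fun_prop

lemma sq_rt {a s : ℝ≥0∞} (h : a ^ 2 ≤ s) : a ≤ s ^ (1 / 2 : ℝ) := by
  calc a = (a ^ 2) ^ (1 / 2 : ℝ) := by
        rw [← ENNReal.rpow_natCast, ← ENNReal.rpow_mul]; norm_num
    _ ≤ s ^ (1 / 2 : ℝ) := ENNReal.rpow_le_rpow h (by norm_num)

lemma rt_sq (s : ℝ≥0∞) : (s ^ (1 / 2 : ℝ)) ^ 2 = s := by
  rw [← ENNReal.rpow_natCast, ← ENNReal.rpow_mul]; norm_num

/-- the supremum over one octave of the main part -/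
noncomputable def G (f : E 2 → ℂ) (k : ℕ) (x : E 2) : ℝ≥0∞ :=
  ⨆ R ∈ Icc ((2 : ℝ) ^ (k : ℤ)) (2 * 2 ^ (k : ℤ)), ‖T (muS (k + 1) R) (𝓕 f) x‖ₑ

/-- the supremum over one octave of a fine annulus operator -/
noncomputable def H (f : E 2 → ℂ) (k i : ℕ) (x : E 2) : ℝ≥0∞ :=
  ⨆ R ∈ Icc ((2 : ℝ) ^ (k : ℤ)) (2 * 2 ^ (k : ℤ)), ‖T (mul (i + (k + 1)) R) (𝓕 f) x‖ₑ

/-- the contribution of small radii -/
noncomputable def a0 (f : E 2 → ℂ) : ℝ≥0∞ := ∫⁻ ξ in Metric.closedBall (0 : E 2) 1, ‖𝓕 f ξ‖ₑ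

lemma small (f : E 2 → ℂ) {R : ℝ} (hR : R ≤ 1) (x : E 2) : ‖S f R x‖ₑ ≤ a0 f := by
  unfold S a0
  calc ‖∫ ξ in Metric.closedBall (0 : E 2) R, 𝓕 f ξ * ex x ξ‖ₑ
      ≤ ∫⁻ ξ in Metric.closedBall (0 : E 2) R, ‖𝓕 f ξ * ex x ξ‖ₑ :=
        enorm_integral_le_lintegral_enorm _
    _ = ∫⁻ ξ in Metric.closedBall (0 : E 2) R, ‖𝓕 f ξ‖ₑ := by
        apply lintegral_congr
        intro ξ
        rw [enorm_mul]
        have : ‖ex x ξ‖ₑ = 1 := by
          rw [← ofReal_norm, MBS.J8.ex_norm, ENNReal.ofReal_one]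
        rw [this, mul_one]
    _ ≤ _ := lintegral_mono_set (Metric.closedBall_subset_closedBall hR)

lemma pointwise (hPt : tPt) {f : E 2 → ℂ} (hf : Integrable f) (x : E 2) :
    Sstar f x ^ 2 ≤ a0 f ^ 2 + 4 * (Pstar f x ^ 2 + ∑' k, G f k x ^ 2 +
      ∑' k, (∑' i, H f k i x) ^ 2) := by
  set Z := a0 f ^ 2 + 4 * (Pstar f x ^ 2 + ∑' k, G f k x ^ 2 +
      ∑' k, (∑' i, H f k i x) ^ 2) with hZ
  have h1 : Sstar f x ≤ Z ^ (1 / 2 : ℝ) := by
    refine iSup₂_le fun R hR => sq_rt ?_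
    rcases le_total R 1 with hR1 | hR1
    · calc ‖S f R x‖ₑ ^ 2 ≤ a0 f ^ 2 := by gcongr; exact small f hR1 x
        _ ≤ Z := le_self_add
    · set k := Nat.log 2 ⌊R⌋₊ with hk
      have hlog : Int.log 2 R = (k : ℤ) := Int.log_of_one_le_right 2 hR1
      have hk1 : (2 : ℝ) ^ (k : ℤ) ≤ R := by
        rw [← hlog]; exact Int.zpow_log_le_self (by norm_num) hR
      have hk2 : R ≤ 2 * (2 : ℝ) ^ (k : ℤ) := by
        have := Int.lt_zpow_succ_log_self (b := 2) (by norm_num) R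
        rw [hlog, zpow_add_one₀ (by norm_num)] at this
        push_cast at this
        linarith
      have h2 := ((hPt (k + 1) f hf).1 R x hR)
      have h3 : ‖S f R x‖ₑ ≤ Pstar f x + G f k x + ∑' i, H f k i x := by
        refine h2.trans ?_
        gcongr with i
        · exact le_iSup₂_of_le (f := fun (R : ℝ) (_ : 0 < R) => ‖T (pm R) (𝓕 f) x‖ₑ) R hR le_rfl
        · exact le_iSup₂_of_le (f := fun (R : ℝ) (_ : R ∈ Icc ((2 : ℝ) ^ (k : ℤ))
            (2 * 2 ^ (k : ℤ))) => ‖T (muS (k + 1) R) (𝓕 f) x‖ₑ) R ⟨hk1, hk2⟩ le_rfl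
        · exact le_iSup₂_of_le (f := fun (R : ℝ) (_ : R ∈ Icc ((2 : ℝ) ^ (k : ℤ))
            (2 * 2 ^ (k : ℤ))) => ‖T (mul (i + (k + 1)) R) (𝓕 f) x‖ₑ) R ⟨hk1, hk2⟩ le_rfl
      calc ‖S f R x‖ₑ ^ 2 ≤ (Pstar f x + G f k x + ∑' i, H f k i x) ^ 2 := by gcongr
        _ ≤ 4 * (Pstar f x ^ 2 + G f k x ^ 2 + (∑' i, H f k i x) ^ 2) := add3_sq _ _ _
        _ ≤ 4 * (Pstar f x ^ 2 + ∑' k, G f k x ^ 2 + ∑' k, (∑' i, H f k i x) ^ 2) := by
            gcongr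
            · exact ENNReal.le_tsum (f := fun k => G f k x ^ 2) k
            · exact ENNReal.le_tsum (f := fun k => (∑' i, H f k i x) ^ 2) k
        _ ≤ Z := le_add_self
  calc Sstar f x ^ 2 ≤ (Z ^ (1 / 2 : ℝ)) ^ 2 := by gcongr
    _ = Z := rt_sq Z

lemma G_m {f : E 2 → ℂ} (hf : Integrable f) (k : ℕ) : Measurable (G f k) :=
  G_meas (k + 1) (by positivity) (MBS.J8.fourier_cont hf)

lemma H_m {f : E 2 → ℂ} (hf : Integrable f) (k i : ℕ) : Measurable (H f k i) :=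
  MBS.J8.sup_meas (i + (k + 1)) (by positivity) (MBS.J8.fourier_cont hf)

lemma a0_sq {f : E 2 → ℂ} (hf : Integrable f) :
    a0 f ^ 2 ≤ volume (Metric.closedBall (0 : E 2) 1) * ∫⁻ ξ, ‖𝓕 f ξ‖ₑ ^ 2 := by
  have hm : Measurable fun ξ => ‖𝓕 f ξ‖ₑ := (MBS.J8.fourier_cont hf).measurable.enorm
  have h1 := ENNReal.lintegral_mul_le_Lp_mul_Lq
    ((volume : Measure (E 2)).restrict (Metric.closedBall 0 1)) Real.HolderConjugate.two_two
    hm.aemeasurable (measurable_const (a := (1 : ℝ≥0∞))).aemeasurable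
  simp only [Pi.mul_apply, mul_one, lintegral_const, Measure.restrict_apply_univ,
    ENNReal.rpow_ofNat, one_pow, one_mul] at h1
  calc a0 f ^ 2 ≤ ((∫⁻ ξ in Metric.closedBall (0 : E 2) 1, ‖𝓕 f ξ‖ₑ ^ 2) ^ (1 / 2 : ℝ) *
        volume (Metric.closedBall (0 : E 2) 1) ^ (1 / 2 : ℝ)) ^ 2 := by
        gcongr
        exact h1
    _ = (∫⁻ ξ in Metric.closedBall (0 : E 2) 1, ‖𝓕 f ξ‖ₑ ^ 2) *
        volume (Metric.closedBall (0 : E 2) 1) := by rw [mul_pow, rt_sq, rt_sq]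
    _ ≤ (∫⁻ ξ, ‖𝓕 f ξ‖ₑ ^ 2) * volume (Metric.closedBall (0 : E 2) 1) := by
        gcongr
        exact Measure.restrict_le_self
    _ = _ := mul_comm _ _

lemma H_int {C2 : ℝ≥0}
    (hH : ∀ (i : ℕ) (c : ℝ) (h : E 2 → ℂ) (x0 : E 2), 0 < c → Continuous h →
      ∫⁻ x in Metric.closedBall x0 1, (⨆ R ∈ Icc c (2 * c), ‖T (mul i R) h x‖ₑ) ^ 2 ≤
        C2 * ENNReal.ofReal (c / 2 ^ i) *
          ∫⁻ ξ in {ξ : E 2 | c / 2 ≤ ‖ξ‖ ∧ ‖ξ‖ ≤ 2 * c}, ‖h ξ‖ₑ ^ 2)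
    {f : E 2 → ℂ} (hf : Integrable f) (x0 : E 2) (k : ℕ) :
    ∫⁻ x in Metric.closedBall x0 1, (∑' i, H f k i x) ^ 2 ≤
      8 * C2 * ∫⁻ ξ in A k, ‖𝓕 f ξ‖ₑ ^ 2 := by
  have hh := MBS.J8.fourier_cont hf
  have hi : ∀ i, ∫⁻ x in Metric.closedBall x0 1, H f k i x ^ 2 ≤
      C2 * ENNReal.ofReal (1 / 2 ^ (i + 1)) * ∫⁻ ξ in A k, ‖𝓕 f ξ‖ₑ ^ 2 := by
    intro i
    have h1 := hH (i + (k + 1)) ((2 : ℝ) ^ (k : ℤ)) (𝓕 f) x0 (by positivity) hh
    have h2 : (2 : ℝ) ^ (k : ℤ) / 2 ^ (i + (k + 1)) = 1 / 2 ^ (i + 1) := by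
      rw [zpow_natCast, div_eq_div_iff (by positivity) (by positivity)]
      ring
    rw [h2] at h1
    exact h1
  calc ∫⁻ x in Metric.closedBall x0 1, (∑' i, H f k i x) ^ 2
      ≤ ∫⁻ x in Metric.closedBall x0 1, (∑' i, b i) * ∑' i, H f k i x ^ 2 * (b i)⁻¹ :=
        lintegral_mono fun x => MBS.J14.cs_sum b _ b_ne b_top
    _ = (∑' i, b i) * ∑' i, (∫⁻ x in Metric.closedBall x0 1, H f k i x ^ 2) * (b i)⁻¹ := by
        rw [lintegral_const_mul'' _ (AEMeasurable.tsum fun i =>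
          (((H_m hf k i).pow_const 2).mul_const _).aemeasurable),
          lintegral_tsum fun i => (((H_m hf k i).pow_const 2).mul_const _).aemeasurable]
        congr 1
        apply tsum_congr
        intro i
        rw [lintegral_mul_const _ ((H_m hf k i).pow_const 2)]
    _ ≤ (∑' i, b i) * ∑' i, (C2 * ENNReal.ofReal (1 / 2 ^ (i + 1)) *
          ∫⁻ ξ in A k, ‖𝓕 f ξ‖ₑ ^ 2) * (b i)⁻¹ := by
        refine mul_le_mul_right (ENNReal.tsum_le_tsum fun i => ?_) _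
        gcongr
        exact hi i
    _ = 4 * ((C2 * ∫⁻ ξ in A k, ‖𝓕 f ξ‖ₑ ^ 2) *
          ∑' i : ℕ, ENNReal.ofReal (1 / 2 ^ (i + 1)) * (b i)⁻¹) := by
        have e1 : ∀ i : ℕ, (C2 * ENNReal.ofReal (1 / 2 ^ (i + 1)) *
            ∫⁻ ξ in A k, ‖𝓕 f ξ‖ₑ ^ 2) * (b i)⁻¹ =
            (C2 * ∫⁻ ξ in A k, ‖𝓕 f ξ‖ₑ ^ 2) *
              (ENNReal.ofReal (1 / 2 ^ (i + 1)) * (b i)⁻¹) := by
          intro i
          ring
        simp only [e1]
        rw [ENNReal.tsum_mul_left, b_sum]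
    _ ≤ 4 * ((C2 * ∫⁻ ξ in A k, ‖𝓕 f ξ‖ₑ ^ 2) * 2) := by
        gcongr
        exact b_sum2
    _ = _ := by ring

end FA0_

open FA0_ in
theorem pFA0 (hPt : tPt) (hSm : tSm) (hAH : tAH) : tFA0 := by
  obtain ⟨C1, hG⟩ := hSm
  obtain ⟨C2, hH⟩ := hAH
  obtain ⟨C3, hP⟩ := MBS.pPdom 2
  obtain ⟨C4, hM⟩ := MBS.pMF2 2
  have hVt : volume (Metric.closedBall (0 : E 2) 1) ≠ ⊤ := measure_closedBall_lt_top.ne
  obtain ⟨V, hV⟩ : ∃ V : ℝ≥0, (V : ℝ≥0∞) = volume (Metric.closedBall (0 : E 2) 1) :=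
    ⟨_, ENNReal.coe_toNNReal hVt⟩
  refine ⟨V ^ 2 + 4 * (C3 ^ 2 * C4 + C1 * 31104 * 3 + 8 * C2 * 3), fun f x0 hfm hfi hf2 => ?_⟩
  have hh : Continuous (𝓕 f) := MBS.J8.fourier_cont hfi
  set w : E 2 → ℝ≥0∞ := fun ξ => ‖𝓕 f ξ‖ₑ ^ 2 * ENNReal.ofReal (lw ξ) with hwdef
  have hhm : Measurable fun ξ => ‖𝓕 f ξ‖ₑ ^ 2 := hh.measurable.enorm.pow_const 2
  have hw : Measurable w := hhm.mul lw_meas.ennreal_ofReal
  have hle : ∀ ξ, ‖𝓕 f ξ‖ₑ ^ 2 ≤ w ξ := by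
    intro ξ
    have h1 : (1 : ℝ≥0∞) ≤ ENNReal.ofReal (lw ξ) := by
      rw [← ENNReal.ofReal_one]
      exact ENNReal.ofReal_le_ofReal (lw_one ξ)
    calc ‖𝓕 f ξ‖ₑ ^ 2 = ‖𝓕 f ξ‖ₑ ^ 2 * 1 := (mul_one _).symm
      _ ≤ ‖𝓕 f ξ‖ₑ ^ 2 * ENNReal.ofReal (lw ξ) := by gcongr
  set N := ∫⁻ ξ, w ξ with hN
  have hN2 : ∫⁻ ξ, ‖𝓕 f ξ‖ₑ ^ 2 ≤ N := lintegral_mono hle
  have hvolD : volume (Metric.closedBall x0 1) = V := by
    rw [hV]
    exact Measure.addHaar_closedBall_center _ _ _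
  -- the parts
  have p0 : a0 f ^ 2 * volume (Metric.closedBall x0 1) ≤ V ^ 2 * N := by
    rw [hvolD]
    calc a0 f ^ 2 * V ≤ (volume (Metric.closedBall (0 : E 2) 1) * ∫⁻ ξ, ‖𝓕 f ξ‖ₑ ^ 2) * V := by
          gcongr
          exact a0_sq hfi
      _ ≤ (V * N) * V := by
          rw [← hV]
          gcongr
      _ = V ^ 2 * N := by ring
  have p1 : ∫⁻ x in Metric.closedBall x0 1, Pstar f x ^ 2 ≤ C3 ^ 2 * C4 * N := by
    calc ∫⁻ x in Metric.closedBall x0 1, Pstar f x ^ 2 ≤ ∫⁻ x, Pstar f x ^ 2 :=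
          setLIntegral_le_lintegral _ _
      _ ≤ ∫⁻ x, (C3 * MF (fun y => ‖f y‖ₑ) x) ^ 2 := by
          gcongr with x
          exact hP f hfi x
      _ = (C3 : ℝ≥0∞) ^ 2 * ∫⁻ x, MF (fun y => ‖f y‖ₑ) x ^ 2 := by
          rw [← lintegral_const_mul' _ _ (by simp)]
          congr 1
          ext x
          ring
      _ ≤ C3 ^ 2 * (C4 * ∫⁻ x, ‖f x‖ₑ ^ 2) := by
          gcongr
          exact hM _ hfm.enorm
      _ = C3 ^ 2 * C4 * ∫⁻ ξ, ‖𝓕 f ξ‖ₑ ^ 2 := by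
          rw [MBS.J8.plancherel_sq hfi hf2]; ring
      _ ≤ _ := by gcongr
  have p2 : ∑' k, ∫⁻ x in Metric.closedBall x0 1, G f k x ^ 2 ≤ C1 * 31104 * 3 * N := by
    calc ∑' k, ∫⁻ x in Metric.closedBall x0 1, G f k x ^ 2
        ≤ ∑' k : ℕ, C1 * 31104 * ∫⁻ ξ in A k, w ξ := by
          refine ENNReal.tsum_le_tsum fun k => ?_
          calc ∫⁻ x in Metric.closedBall x0 1, G f k x ^ 2 ≤ ∫⁻ x, G f k x ^ 2 :=
                setLIntegral_le_lintegral _ _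
            _ ≤ C1 * (k + 1 : ℕ) * ((lg (k + 1) : ℕ) : ℝ≥0∞) ^ 5 *
                ∫⁻ ξ in A k, ‖𝓕 f ξ‖ₑ ^ 2 :=
                hG (k + 1) ((2 : ℝ) ^ (k : ℤ)) (𝓕 f) (by omega) (by positivity) hh
            _ = C1 * ∫⁻ ξ in A k, (((k + 1 : ℕ) : ℝ≥0∞) * ((lg (k + 1) : ℕ) : ℝ≥0∞) ^ 5) *
                ‖𝓕 f ξ‖ₑ ^ 2 := by
                rw [lintegral_const_mul _ hhm]
                ring
            _ ≤ C1 * ∫⁻ ξ in A k, 31104 * w ξ := by
                refine mul_le_mul_right (setLIntegral_mono' (A_meas k) fun ξ hξ => ?_) _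
                have h1 := lw_weight k hξ
                have h2 : ((k + 1 : ℕ) : ℝ≥0∞) * ((lg (k + 1) : ℕ) : ℝ≥0∞) ^ 5 ≤
                    31104 * ENNReal.ofReal (lw ξ) := by
                  have h3 : ((k + 1 : ℕ) : ℝ≥0∞) * ((lg (k + 1) : ℕ) : ℝ≥0∞) ^ 5 =
                      ENNReal.ofReal (((k + 1 : ℕ) : ℝ) * ((lg (k + 1) : ℕ) : ℝ) ^ 5) := by
                    rw [ENNReal.ofReal_mul (by positivity), ENNReal.ofReal_pow (by positivity),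
                      ENNReal.ofReal_natCast, ENNReal.ofReal_natCast]
                  have h4 : (31104 : ℝ≥0∞) = ENNReal.ofReal 31104 := by norm_num
                  rw [h3, h4, ← ENNReal.ofReal_mul (by norm_num)]
                  exact ENNReal.ofReal_le_ofReal h1
                calc _ ≤ 31104 * ENNReal.ofReal (lw ξ) * ‖𝓕 f ξ‖ₑ ^ 2 := by gcongr
                  _ = 31104 * w ξ := by rw [hwdef]; ring
            _ = _ := by
                rw [lintegral_const_mul _ hw]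
                ring
      _ = C1 * 31104 * ∑' k : ℕ, ∫⁻ ξ in A k, w ξ := by rw [ENNReal.tsum_mul_left]
      _ ≤ C1 * 31104 * (3 * N) := by
          gcongr
          exact sum_A hw
      _ = _ := by ring
  have p3 : ∑' k, ∫⁻ x in Metric.closedBall x0 1, (∑' i, H f k i x) ^ 2 ≤ 8 * C2 * 3 * N := by
    calc ∑' k, ∫⁻ x in Metric.closedBall x0 1, (∑' i, H f k i x) ^ 2
        ≤ ∑' k : ℕ, 8 * C2 * ∫⁻ ξ in A k, w ξ := by
          refine ENNReal.tsum_le_tsum fun k => (H_int hH hfi x0 k).trans ?_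
          gcongr
          exact hle _
      _ = 8 * C2 * ∑' k : ℕ, ∫⁻ ξ in A k, w ξ := by rw [ENNReal.tsum_mul_left]
      _ ≤ 8 * C2 * (3 * N) := by
          gcongr
          exact sum_A hw
      _ = _ := by ring
  have hPm : Measurable (Pstar f) := (MBS.pMeas MBS.pTcont MBS.pMulFam 2 f hfi).2.1
  have mH : ∀ k, Measurable fun x => (∑' i, H f k i x) ^ 2 := fun k =>
    (Measurable.tsum fun i => H_m hfi k i).pow_const 2
  calc ∫⁻ x in Metric.closedBall x0 1, Sstar f x ^ 2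
      ≤ ∫⁻ x in Metric.closedBall x0 1, (a0 f ^ 2 + 4 * (Pstar f x ^ 2 + ∑' k, G f k x ^ 2 +
        ∑' k, (∑' i, H f k i x) ^ 2)) := lintegral_mono fun x => pointwise hPt hfi x
    _ = a0 f ^ 2 * volume (Metric.closedBall x0 1) +
        4 * ((∫⁻ x in Metric.closedBall x0 1, Pstar f x ^ 2) +
          ∑' k, (∫⁻ x in Metric.closedBall x0 1, G f k x ^ 2) +
          ∑' k, ∫⁻ x in Metric.closedBall x0 1, (∑' i, H f k i x) ^ 2) := by
        have mG : Measurable fun x => ∑' k, G f k x ^ 2 :=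
          Measurable.tsum fun k => (G_m hfi k).pow_const 2
        have mHs : Measurable fun x => ∑' k, (∑' i, H f k i x) ^ 2 :=
          Measurable.tsum fun k => mH k
        have mP : Measurable fun x => Pstar f x ^ 2 := hPm.pow_const 2
        have m1 : Measurable fun x => Pstar f x ^ 2 + ∑' k, G f k x ^ 2 := mP.add mG
        have m2 : Measurable fun x => Pstar f x ^ 2 + ∑' k, G f k x ^ 2 +
            ∑' k, (∑' i, H f k i x) ^ 2 := m1.add mHs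
        rw [lintegral_add_left measurable_const, lintegral_const, Measure.restrict_apply_univ,
          lintegral_const_mul _ m2, lintegral_add_left m1, lintegral_add_left mP,
          lintegral_tsum (fun k => ((G_m hfi k).pow_const 2).aemeasurable),
          lintegral_tsum (fun k => (mH k).aemeasurable)]
    _ ≤ V ^ 2 * N + 4 * (C3 ^ 2 * C4 * N + C1 * 31104 * 3 * N + 8 * C2 * 3 * N) := by
        gcongr
    _ = _ := by
        push_cast
        ring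

end Pool.Agent.KSP
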