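import Pool.Agent.KSP.Targets2
import Pool.Agent.MBS.J1
import Pool.Agent.MBS.J5
import Pool.Agent.MBS.J13

set_option autoImplicit false

/-! KSP bound for disc partial sums (MP_ee701d_an): the local maximal inequality for all `g` in
`L²(lw)` on the Fourier side. -/

namespace Pool.Agent.KSP

open MeasureTheory FourierTransform Set Filter Topology
open scoped ENNReal NNReal SchwartzMap ContDiff
open Pool.Agent.MBS (E ex T S Sstar et ps mul pm Tstar Pstar MF)

namespace FA1_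

lemma log3 : 1 ≤ Real.log 3 := by
  rw [Real.le_log_iff_exp_le (by norm_num)]
  exact (Real.exp_one_lt_d9.le).trans (by norm_num)

lemma log_ge (t : ℝ) (ht : 0 ≤ t) : 1 ≤ Real.log (3 + t) :=
  log3.trans (Real.log_le_log (by norm_num) (by linarith))

lemma lw_cont : Continuous lw := by
  unfold lw
  have h1 : Continuous (fun ξ : E 2 => Real.log (3 + ‖ξ‖)) := by
    refine Continuous.log (by fun_prop) (fun x => ?_)
    positivity
  refine Continuous.mul h1 (Continuous.pow ?_ 5)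
  refine Continuous.log (continuous_const.add h1) (fun x => ?_)
  have := log_ge ‖x‖ (norm_nonneg _)
  linarith

lemma one_le_lw (ξ : E 2) : 1 ≤ lw ξ := by
  unfold lw
  have h1 := log_ge ‖ξ‖ (norm_nonneg _)
  have h2 := log_ge (Real.log (3 + ‖ξ‖)) (by linarith)
  have h3 : (1 : ℝ) ≤ Real.log (3 + Real.log (3 + ‖ξ‖)) ^ 5 := one_le_pow₀ h2
  nlinarith

/-- the measure with density `lw` -/
noncomputable def mu : Measure (E 2) := volume.withDensity (fun ξ => ENNReal.ofReal (lw ξ))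

lemma mu_lf : IsLocallyFiniteMeasure mu := IsLocallyFiniteMeasure.withDensity_ofReal lw_cont

lemma vol_le_mu : (volume : Measure (E 2)) ≤ mu := by
  rw [Measure.le_iff]
  intro s hs
  rw [mu, withDensity_apply _ hs]
  calc volume s = ∫⁻ _ in s, 1 := by simp
    _ ≤ _ := by
      refine setLIntegral_mono' hs fun ξ _ => ?_
      rw [← ENNReal.ofReal_one]
      exact ENNReal.ofReal_le_ofReal (one_le_lw ξ)

lemma lp_sq (g : E 2 → ℂ) (hg : Measurable g) :
    eLpNorm g 2 mu ^ 2 = ∫⁻ ξ, ‖g ξ‖ₑ ^ 2 * ENNReal.ofReal (lw ξ) := by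
  rw [eLpNorm_eq_lintegral_rpow_enorm_toReal (by norm_num) (by norm_num)]
  simp only [ENNReal.toReal_ofNat, ENNReal.rpow_ofNat, one_div]
  rw [← ENNReal.rpow_natCast, ← ENNReal.rpow_mul]
  norm_num
  rw [mu, lintegral_withDensity_eq_lintegral_mul _ (by
    exact (ENNReal.measurable_ofReal.comp lw_cont.measurable)) (hg.enorm.pow_const 2)]
  refine lintegral_congr fun ξ => ?_
  simp only [Pi.mul_apply]
  rw [mul_comm]

lemma ex_norm (x ξ : E 2) : ‖ex x ξ‖ = 1 := Pool.Agent.MBS.J13.ex_norm x ξ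

lemma int_ex {g : E 2 → ℂ} (hg : MemLp g 2 mu) (R : ℝ) (x : E 2) :
    Integrable (fun ξ => g ξ * ex x ξ) (volume.restrict (Metric.closedBall (0 : E 2) R)) := by
  have h1 : MemLp g 2 (volume.restrict (Metric.closedBall (0 : E 2) R)) :=
    (hg.mono_measure vol_le_mu).restrict _
  have : IsFiniteMeasure (volume.restrict (Metric.closedBall (0 : E 2) R)) :=
    ⟨by rw [Measure.restrict_apply_univ]; exact (isCompact_closedBall _ _).measure_lt_top⟩
  have h2 : Integrable g (volume.restrict (Metric.closedBall (0 : E 2) R)) :=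
    h1.integrable (by norm_num)
  refine h2.mul_bdd (c := 1) ?_ ?_
  · exact (Pool.Agent.MBS.J13.ex_cont_right x).aestronglyMeasurable
  · exact Filter.Eventually.of_forall fun ξ => (ex_norm x ξ).le

lemma BI_sub {g g' : E 2 → ℂ} (hg : MemLp g 2 mu) (hg' : MemLp g' 2 mu) (R : ℝ) (x : E 2) :
    ‖BI g R x - BI g' R x‖ₑ ≤
      eLpNorm (g - g') 2 mu * volume (Metric.closedBall (0 : E 2) R) ^ (1 / 2 : ℝ) := by
  unfold BI
  rw [← integral_sub (int_ex hg R x) (int_ex hg' R x)]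
  have hm : AEStronglyMeasurable (g - g') (volume.restrict (Metric.closedBall (0 : E 2) R)) :=
    (((hg.sub hg').mono_measure vol_le_mu).restrict _).1
  calc ‖∫ ξ in Metric.closedBall (0 : E 2) R, (g ξ * ex x ξ - g' ξ * ex x ξ)‖ₑ
      ≤ ∫⁻ ξ in Metric.closedBall (0 : E 2) R, ‖g ξ * ex x ξ - g' ξ * ex x ξ‖ₑ :=
        enorm_integral_le_lintegral_enorm _
    _ = ∫⁻ ξ in Metric.closedBall (0 : E 2) R, ‖(g - g') ξ‖ₑ := by
        refine lintegral_congr fun ξ => ?_
        rw [← sub_mul, enorm_mul]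
        have : ‖ex x ξ‖ₑ = 1 := by rw [← ofReal_norm, ex_norm, ENNReal.ofReal_one]
        rw [this, mul_one, Pi.sub_apply]
    _ = eLpNorm (g - g') 1 (volume.restrict (Metric.closedBall (0 : E 2) R)) :=
        eLpNorm_one_eq_lintegral_enorm.symm
    _ ≤ eLpNorm (g - g') 2 (volume.restrict (Metric.closedBall (0 : E 2) R)) *
        (volume.restrict (Metric.closedBall (0 : E 2) R)) univ ^
          (1 / (1 : ℝ≥0∞).toReal - 1 / (2 : ℝ≥0∞).toReal) :=
        eLpNorm_le_eLpNorm_mul_rpow_measure_univ (by norm_num) hm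
    _ ≤ _ := by
        rw [Measure.restrict_apply_univ]
        refine mul_le_mul' ?_ (le_of_eq ?_)
        · exact eLpNorm_mono_measure _ (Measure.restrict_le_self.trans vol_le_mu)
        · norm_num

end FA1_

open FA1_ in
theorem pFA1 (h : tFA0) : tFA1 := by
  obtain ⟨C, hC⟩ := h
  refine ⟨C + 1, fun g x0 hg => ?_⟩
  by_cases hfin : ∫⁻ ξ, ‖g ξ‖ₑ ^ 2 * ENNReal.ofReal (lw ξ) = ⊤
  · rw [hfin, ENNReal.mul_top (by simp)]
    exact le_top
  have := mu_lf
  have hgM : MemLp g 2 mu := by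
    refine ⟨hg.aestronglyMeasurable, ?_⟩
    rw [lt_top_iff_ne_top]
    intro h1
    apply hfin
    rw [← lp_sq g hg, h1]
    simp
  have hex := fun n : ℕ => hgM.exist_eLpNorm_sub_le (by norm_num) (by norm_num)
    (ε := 1 / ((n : ℝ) + 1)) (by positivity)
  choose gn h1 h2 h3 using hex
  have hgn : ∀ n, MemLp (gn n) 2 mu := fun n =>
    (h2 n).continuous.memLp_of_hasCompactSupport (h1 n)
  let fn : ℕ → 𝓢(E 2, ℂ) := fun n => 𝓕⁻ ((h1 n).toSchwartzMap (h2 n))
  have hF : ∀ n, 𝓕 (fn n : E 2 → ℂ) = gn n := by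
    intro n
    rw [← SchwartzMap.fourier_coe]
    show ((𝓕 (𝓕⁻ ((h1 n).toSchwartzMap (h2 n))) : 𝓢(E 2, ℂ)) : E 2 → ℂ) = gn n
    rw [FourierTransform.fourier_fourierInv_eq]
    rfl
  have hfi : ∀ n, Integrable (fn n : E 2 → ℂ) := fun n => (fn n).integrable
  have hS : ∀ n R x, S (fn n) R x = BI (gn n) R x := by
    intro n R x
    unfold S BI
    rw [hF]
  have hlim : ∀ R x, Tendsto (fun n => BI (gn n) R x) atTop (𝓝 (BI g R x)) := by
    intro R x
    rw [tendsto_iff_edist_tendsto_0]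
    have hV : volume (Metric.closedBall (0 : E 2) R) ^ (1 / 2 : ℝ) ≠ ⊤ :=
      ENNReal.rpow_ne_top_of_nonneg (by norm_num) (isCompact_closedBall _ _).measure_lt_top.ne
    have hz : Tendsto (fun n : ℕ => ENNReal.ofReal (1 / ((n : ℝ) + 1)) *
        volume (Metric.closedBall (0 : E 2) R) ^ (1 / 2 : ℝ)) atTop (𝓝 0) := by
      have h4 : Tendsto (fun n : ℕ => ENNReal.ofReal (1 / ((n : ℝ) + 1))) atTop (𝓝 0) := by
        rw [← ENNReal.ofReal_zero]
        exact ENNReal.tendsto_ofReal tendsto_one_div_add_atTop_nhds_zero_nat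
      simpa using ENNReal.Tendsto.mul_const h4 (Or.inr hV)
    refine tendsto_of_tendsto_of_tendsto_of_le_of_le tendsto_const_nhds hz (fun n => bot_le)
      (fun n => ?_)
    show edist (BI (gn n) R x) (BI g R x) ≤ _
    rw [edist_comm, edist_eq_enorm_sub]
    exact (BI_sub hgM (hgn n) R x).trans (mul_le_mul' (h3 n) le_rfl)
  have hmeas : ∀ n, Measurable (Sstar (fn n : E 2 → ℂ)) := fun n =>
    (Pool.Agent.MBS.pMeas Pool.Agent.MBS.pTcont Pool.Agent.MBS.pMulFam 2 (fn n) (hfi n)).1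
  have hpt : ∀ x, (⨆ (R : ℝ) (_ : 0 < R), ‖BI g R x‖ₑ) ^ 2 ≤
      liminf (fun n => Sstar (fn n : E 2 → ℂ) x ^ 2) atTop := by
    intro x
    have h4 : (⨆ (R : ℝ) (_ : 0 < R), ‖BI g R x‖ₑ) ≤
        liminf (fun n => Sstar (fn n : E 2 → ℂ) x) atTop := by
      refine iSup₂_le fun R hR => ?_
      have h5 : Tendsto (fun n => ‖BI (gn n) R x‖ₑ) atTop (𝓝 ‖BI g R x‖ₑ) := (hlim R x).enorm
      rw [← h5.liminf_eq]
      refine liminf_le_liminf (Eventually.of_forall fun n => ?_)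
      rw [← hS n R x]
      exact le_iSup₂ (f := fun (R : ℝ) (_ : 0 < R) => ‖S (fn n) R x‖ₑ) R hR
    have h6 : (liminf (fun n => Sstar (fn n : E 2 → ℂ) x) atTop) ^ 2 =
        liminf (fun n => Sstar (fn n : E 2 → ℂ) x ^ 2) atTop := by
      have hmono : Monotone (fun y : ℝ≥0∞ => y ^ 2) := fun a b hab => pow_le_pow_left' hab 2
      exact hmono.map_liminf_of_continuousAt (F := atTop)
        (fun n => Sstar (fn n : E 2 → ℂ) x) (ENNReal.continuous_pow 2).continuousAt
    rw [← h6]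
    exact pow_le_pow_left' h4 2
  have hint : ∀ n, ∫⁻ x in Metric.closedBall x0 1, Sstar (fn n : E 2 → ℂ) x ^ 2 ≤
      C * (eLpNorm g 2 mu + ENNReal.ofReal (1 / ((n : ℝ) + 1))) ^ 2 := by
    intro n
    refine (hC (fn n) x0 (fn n).continuous.measurable (hfi n) ((fn n).memLp 2)).trans ?_
    rw [hF n, ← lp_sq (gn n) (h2 n).continuous.measurable]
    gcongr
    have h7 : gn n = g - (g - gn n) := by simp
    calc eLpNorm (gn n) 2 mu = eLpNorm (g - (g - gn n)) 2 mu := by rw [← h7]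
      _ ≤ eLpNorm g 2 mu + eLpNorm (g - gn n) 2 mu :=
          eLpNorm_sub_le hgM.1 (hgM.sub (hgn n)).1 (by norm_num)
      _ ≤ _ := by gcongr; exact h3 n
  have hlim2 : Tendsto (fun n : ℕ => (C : ℝ≥0∞) *
      (eLpNorm g 2 mu + ENNReal.ofReal (1 / ((n : ℝ) + 1))) ^ 2) atTop
      (𝓝 (C * (eLpNorm g 2 mu) ^ 2)) := by
    have h4 : Tendsto (fun n : ℕ => ENNReal.ofReal (1 / ((n : ℝ) + 1))) atTop (𝓝 0) := by
      rw [← ENNReal.ofReal_zero]
      exact ENNReal.tendsto_ofReal tendsto_one_div_add_atTop_nhds_zero_nat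
    have h5 : Tendsto (fun n : ℕ => eLpNorm g 2 mu + ENNReal.ofReal (1 / ((n : ℝ) + 1))) atTop
        (𝓝 (eLpNorm g 2 mu)) := by
      simpa using tendsto_const_nhds.add h4
    exact ENNReal.Tendsto.const_mul (ENNReal.Tendsto.pow h5) (Or.inr ENNReal.coe_ne_top)
  calc ∫⁻ x in Metric.closedBall x0 1, (⨆ (R : ℝ) (_ : 0 < R), ‖BI g R x‖ₑ) ^ 2
      ≤ ∫⁻ x in Metric.closedBall x0 1,
          liminf (fun n => Sstar (fn n : E 2 → ℂ) x ^ 2) atTop := lintegral_mono hpt
    _ ≤ liminf (fun n => ∫⁻ x in Metric.closedBall x0 1, Sstar (fn n : E 2 → ℂ) x ^ 2) atTop :=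
        lintegral_liminf_le fun n => (hmeas n).pow_const 2
    _ ≤ liminf (fun n : ℕ => (C : ℝ≥0∞) *
          (eLpNorm g 2 mu + ENNReal.ofReal (1 / ((n : ℝ) + 1))) ^ 2) atTop :=
        liminf_le_liminf (Eventually.of_forall hint)
    _ = C * (eLpNorm g 2 mu) ^ 2 := hlim2.liminf_eq
    _ ≤ _ := by
        rw [lp_sq g hg]
        gcongr
        exact le_self_add

end Pool.Agent.KSP
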