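import Pool.Agent.KSP.Targets2
import Pool.Agent.MBS.J1

set_option autoImplicit false

/-! KSP-FA2: almost everywhere convergence (`tFA2`, `tFA3` from `tFA1`). -/

namespace Pool.Agent.KSP

open MeasureTheory FourierTransform Set Filter Topology
open scoped ENNReal NNReal
open Pool.Agent.MBS (E ex T S Sstar et ps mul pm Tstar Pstar MF)

namespace FA2_

/-! ### The weight -/

theorem log3_ge {t : ℝ} (ht : 0 ≤ t) : 1 ≤ Real.log (3 + t) := by
  rw [Real.le_log_iff_exp_le (by linarith)]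
  have := Real.exp_one_lt_d9
  linarith

theorem lw_ge (ξ : E 2) : 1 ≤ lw ξ := by
  unfold lw
  have h1 := log3_ge (norm_nonneg ξ)
  have h2 := log3_ge (le_trans zero_le_one h1)
  have h3 : 1 ≤ Real.log (3 + Real.log (3 + ‖ξ‖)) ^ 5 := one_le_pow₀ h2
  nlinarith

theorem lw_meas : Measurable (fun ξ : E 2 => ENNReal.ofReal (lw ξ)) := by
  unfold lw
  fun_prop

theorem one_le_ofReal_lw (ξ : E 2) : 1 ≤ ENNReal.ofReal (lw ξ) := by
  rw [← ENNReal.ofReal_one]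
  exact ENNReal.ofReal_le_ofReal (lw_ge ξ)

/-! ### Integrability on balls -/

theorem lint_sq_ne_top {g : E 2 → ℂ}
    (hG : ∫⁻ ξ, ‖g ξ‖ₑ ^ 2 * ENNReal.ofReal (lw ξ) ≠ ⊤) : ∫⁻ ξ, ‖g ξ‖ₑ ^ 2 ≠ ⊤ := by
  refine ne_top_of_le_ne_top hG (lintegral_mono fun ξ => ?_)
  calc ‖g ξ‖ₑ ^ 2 = ‖g ξ‖ₑ ^ 2 * 1 := (mul_one _).symm
    _ ≤ _ := mul_le_mul_right (one_le_ofReal_lw ξ) _

theorem intOn {g : E 2 → ℂ} (hg : Measurable g) (h2 : ∫⁻ ξ, ‖g ξ‖ₑ ^ 2 ≠ ⊤) (R : ℝ) :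
    IntegrableOn g (Metric.closedBall (0 : E 2) R) := by
  refine ⟨hg.aestronglyMeasurable, ?_⟩
  rw [hasFiniteIntegral_iff_enorm]
  have hle : ∀ ξ, ‖g ξ‖ₑ ≤ 1 + ‖g ξ‖ₑ ^ 2 := by
    intro ξ
    rcases le_total ‖g ξ‖ₑ 1 with h | h
    · exact le_trans h le_self_add
    · refine le_trans ?_ le_add_self
      calc ‖g ξ‖ₑ = ‖g ξ‖ₑ * 1 := (mul_one _).symm
        _ ≤ ‖g ξ‖ₑ * ‖g ξ‖ₑ := mul_le_mul_right h _
        _ = _ := (pow_two _).symm
  calc ∫⁻ ξ in Metric.closedBall (0 : E 2) R, ‖g ξ‖ₑ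
      ≤ ∫⁻ ξ in Metric.closedBall (0 : E 2) R, (1 + ‖g ξ‖ₑ ^ 2) := lintegral_mono hle
    _ = (∫⁻ ξ in Metric.closedBall (0 : E 2) R, 1) +
        ∫⁻ ξ in Metric.closedBall (0 : E 2) R, ‖g ξ‖ₑ ^ 2 := lintegral_add_left measurable_const _
    _ < ⊤ := by
      rw [lintegral_const, one_mul, Measure.restrict_apply_univ]
      refine ENNReal.add_lt_top.2 ⟨measure_closedBall_lt_top, ?_⟩
      exact lt_of_le_of_lt (setLIntegral_le_lintegral _ _) (lt_top_iff_ne_top.2 h2)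

theorem ex_meas (x : E 2) : Continuous (fun ξ : E 2 => ex x ξ) :=
  Pool.Agent.MBS.ex_continuous.comp (Continuous.prodMk_right x)

theorem intEx {g : E 2 → ℂ} {s : Set (E 2)} (h : IntegrableOn g s) (x : E 2) :
    IntegrableOn (fun ξ => g ξ * ex x ξ) s := by
  refine Integrable.mono h (h.1.mul (ex_meas x).aestronglyMeasurable) (ae_of_all _ fun ξ => ?_)
  rw [norm_mul, Pool.Agent.MBS.ex_norm, mul_one]

theorem BI_cont {g : E 2 → ℂ} {R : ℝ} (h : IntegrableOn g (Metric.closedBall (0 : E 2) R)) :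
    Continuous (fun x => BI g R x) := by
  unfold BI
  refine continuous_of_dominated (bound := fun ξ => ‖g ξ‖)
    (fun x => (intEx h x).1) (fun x => ae_of_all _ fun ξ => ?_) h.norm (ae_of_all _ fun ξ => ?_)
  · rw [norm_mul, Pool.Agent.MBS.ex_norm, mul_one]
  · exact continuous_const.mul (Pool.Agent.MBS.ex_continuous.comp (Continuous.prodMk_left ξ))

/-! ### Truncation -/

/-- the part of `g` outside a ball -/
noncomputable def tr (g : E 2 → ℂ) (n : ℕ) : E 2 → ℂ := {ξ : E 2 | (n : ℝ) < ‖ξ‖}.indicator g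

theorem tr_set_meas (n : ℕ) : MeasurableSet {ξ : E 2 | (n : ℝ) < ‖ξ‖} :=
  measurableSet_lt measurable_const measurable_norm

theorem tr_meas {g : E 2 → ℂ} (hg : Measurable g) (n : ℕ) : Measurable (tr g n) :=
  hg.indicator (tr_set_meas n)

theorem tr_enorm_sq (g : E 2 → ℂ) (n : ℕ) (ξ : E 2) : ‖tr g n ξ‖ₑ ^ 2 ≤ ‖g ξ‖ₑ ^ 2 := by
  unfold tr
  by_cases h : ξ ∈ {ξ : E 2 | (n : ℝ) < ‖ξ‖}
  · rw [indicator_of_mem h]
  · rw [indicator_of_notMem h]
    simp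

theorem tr_lim {g : E 2 → ℂ} (hg : Measurable g)
    (hG : ∫⁻ ξ, ‖g ξ‖ₑ ^ 2 * ENNReal.ofReal (lw ξ) ≠ ⊤) :
    Tendsto (fun n : ℕ => ∫⁻ ξ, ‖tr g n ξ‖ₑ ^ 2 * ENNReal.ofReal (lw ξ)) atTop (𝓝 0) := by
  have h := tendsto_lintegral_of_dominated_convergence (μ := (volume : Measure (E 2)))
    (F := fun (n : ℕ) ξ => ‖tr g n ξ‖ₑ ^ 2 * ENNReal.ofReal (lw ξ)) (f := fun _ => 0)
    (fun ξ => ‖g ξ‖ₑ ^ 2 * ENNReal.ofReal (lw ξ))
    (fun n => ((tr_meas hg n).enorm.pow_const 2).mul lw_meas)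
    (fun n => ae_of_all _ fun ξ => mul_le_mul_left (tr_enorm_sq g n ξ) _) hG
    (ae_of_all _ fun ξ => by
      refine tendsto_const_nhds.congr' ?_
      filter_upwards [eventually_ge_atTop ⌈‖ξ‖⌉₊] with n hn
      have h1 : ¬ ((n : ℝ) < ‖ξ‖) := not_lt.2 (Nat.ceil_le.1 hn)
      have h2 : tr g n ξ = 0 := indicator_of_notMem (by simpa using h1) g
      rw [h2]
      simp)
  simpa using h

theorem BI_split {g : E 2 → ℂ} (hg : Measurable g) (h2 : ∫⁻ ξ, ‖g ξ‖ₑ ^ 2 ≠ ⊤) (n : ℕ) {R : ℝ}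
    (hR : (n : ℝ) ≤ R) (x : E 2) : BI g R x = BI g n x + BI (tr g n) R x := by
  have hi := intEx (intOn hg h2 R) x
  have hsub : Metric.closedBall (0 : E 2) (n : ℝ) ⊆ Metric.closedBall (0 : E 2) R :=
    Metric.closedBall_subset_closedBall hR
  have h1 : BI (tr g n) R x =
      ∫ ξ in Metric.closedBall (0 : E 2) R ∩ {ξ : E 2 | (n : ℝ) < ‖ξ‖}, g ξ * ex x ξ := by
    unfold BI tr
    rw [← setIntegral_indicator (tr_set_meas n)]
    refine integral_congr_ae (ae_of_all _ fun ξ => ?_)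
    by_cases h : ξ ∈ {ξ : E 2 | (n : ℝ) < ‖ξ‖}
    · simp only [indicator_of_mem h]
    · simp only [indicator_of_notMem h, zero_mul]
  have hdisj : Disjoint (Metric.closedBall (0 : E 2) (n : ℝ))
      (Metric.closedBall (0 : E 2) R ∩ {ξ : E 2 | (n : ℝ) < ‖ξ‖}) := by
    rw [Set.disjoint_left]
    intro ξ h1 h2
    rw [mem_closedBall_zero_iff] at h1
    exact absurd h2.2 (not_lt.2 h1)
  have hun : Metric.closedBall (0 : E 2) R = Metric.closedBall (0 : E 2) (n : ℝ) ∪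
      (Metric.closedBall (0 : E 2) R ∩ {ξ : E 2 | (n : ℝ) < ‖ξ‖}) := by
    ext ξ
    constructor
    · intro h
      by_cases h3 : (n : ℝ) < ‖ξ‖
      · exact Or.inr ⟨h, h3⟩
      · left
        rw [mem_closedBall_zero_iff]
        exact not_lt.1 h3
    · rintro (h | h)
      · exact hsub h
      · exact h.1
  rw [h1]
  unfold BI
  conv_lhs => rw [hun]
  rw [setIntegral_union hdisj (Metric.isClosed_closedBall.measurableSet.inter (tr_set_meas n))
    (hi.mono_set hsub) (hi.mono_set inter_subset_left)]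

/-! ### The maximal function of the tail -/

noncomputable def Mx (g : E 2 → ℂ) (x : E 2) : ℝ≥0∞ := ⨆ (R : ℝ) (_ : 0 < R), ‖BI g R x‖ₑ

theorem Mx_meas {g : E 2 → ℂ} (hg : Measurable g) (h2 : ∫⁻ ξ, ‖g ξ‖ₑ ^ 2 ≠ ⊤) :
    Measurable (Mx g) := by
  unfold Mx
  refine LowerSemicontinuous.measurable ?_
  refine lowerSemicontinuous_iSup fun R => lowerSemicontinuous_iSup fun _ => ?_
  exact (BI_cont (intOn hg h2 R)).enorm.lowerSemicontinuous

theorem liminf_zero {g : E 2 → ℂ} (hg : Measurable g)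
    (hG : ∫⁻ ξ, ‖g ξ‖ₑ ^ 2 * ENNReal.ofReal (lw ξ) ≠ ⊤) (h : tFA1) (x0 : E 2) :
    ∀ᵐ x ∂(volume.restrict (Metric.closedBall x0 1)),
      liminf (fun n : ℕ => Mx (tr g n) x ^ 2) atTop = 0 := by
  obtain ⟨C, hC⟩ := h
  have h2 := lint_sq_ne_top hG
  have h2n : ∀ n, ∫⁻ ξ, ‖tr g n ξ‖ₑ ^ 2 ≠ ⊤ := fun n =>
    ne_top_of_le_ne_top h2 (lintegral_mono fun ξ => tr_enorm_sq g n ξ)
  have hm : ∀ n, Measurable (fun x => Mx (tr g n) x ^ 2) := fun n =>
    (Mx_meas (tr_meas hg n) (h2n n)).pow_const 2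
  have hlim : Tendsto (fun n : ℕ => (C : ℝ≥0∞) * ∫⁻ ξ, ‖tr g n ξ‖ₑ ^ 2 * ENNReal.ofReal (lw ξ))
      atTop (𝓝 0) := by
    have := ENNReal.Tendsto.const_mul (tr_lim hg hG) (Or.inr (ENNReal.coe_ne_top (r := C)))
    simpa using this
  have hfat : ∫⁻ x in Metric.closedBall x0 1, liminf (fun n : ℕ => Mx (tr g n) x ^ 2) atTop = 0 := by
    refine le_antisymm ?_ zero_le
    refine le_trans (lintegral_liminf_le hm) ?_
    refine le_trans (liminf_le_liminf (v := fun n : ℕ =>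
      (C : ℝ≥0∞) * ∫⁻ ξ, ‖tr g n ξ‖ₑ ^ 2 * ENNReal.ofReal (lw ξ))
      (Eventually.of_forall fun n => hC (tr g n) x0 (tr_meas hg n))) ?_
    rw [hlim.liminf_eq]
  have hmeas : Measurable (fun x => liminf (fun n : ℕ => Mx (tr g n) x ^ 2) atTop) :=
    Measurable.liminf hm
  rw [lintegral_eq_zero_iff hmeas] at hfat
  exact hfat

theorem conv_of_liminf {g : E 2 → ℂ} (hg : Measurable g) (h2 : ∫⁻ ξ, ‖g ξ‖ₑ ^ 2 ≠ ⊤) {x : E 2}
    (hx : liminf (fun n : ℕ => Mx (tr g n) x ^ 2) atTop = 0) :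
    ∃ l : ℂ, Tendsto (fun R : ℝ => BI g R x) atTop (𝓝 l) := by
  refine cauchySeq_tendsto_of_complete ?_
  rw [Metric.cauchySeq_iff]
  intro ε hε
  have hfr : ∃ᶠ n : ℕ in atTop, Mx (tr g n) x ^ 2 < ENNReal.ofReal (ε / 3) ^ 2 := by
    refine frequently_lt_of_liminf_lt ?_ ?_
    · isBoundedDefault
    · rw [hx]
      exact ENNReal.pow_pos (ENNReal.ofReal_pos.2 (by positivity)) 2
  obtain ⟨n, hn1, hn⟩ := (hfr.and_eventually (eventually_ge_atTop 1)).exists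
  have hM : Mx (tr g n) x < ENNReal.ofReal (ε / 3) := by
    by_contra hle
    rw [not_lt] at hle
    exact absurd hn1 (not_lt.2 (pow_le_pow_left' hle 2))
  have hb : ∀ R : ℝ, (n : ℝ) ≤ R → ‖BI (tr g n) R x‖ < ε / 3 := by
    intro R hR
    have hR0 : 0 < R := lt_of_lt_of_le (by exact_mod_cast hn) hR
    have h1 : ‖BI (tr g n) R x‖ₑ ≤ Mx (tr g n) x := by
      unfold Mx
      exact le_iSup₂ (f := fun (R : ℝ) (_ : 0 < R) => ‖BI (tr g n) R x‖ₑ) R hR0
    have h3 := lt_of_le_of_lt h1 hM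
    rw [← ofReal_norm, ENNReal.ofReal_lt_ofReal_iff (by positivity)] at h3
    exact h3
  refine ⟨n, fun R hR R' hR' => ?_⟩
  rw [dist_eq_norm, BI_split hg h2 n hR x, BI_split hg h2 n hR' x]
  have e : BI g n x + BI (tr g n) R x - (BI g n x + BI (tr g n) R' x) =
      BI (tr g n) R x - BI (tr g n) R' x := by ring
  rw [e]
  refine lt_of_le_of_lt (norm_sub_le _ _) ?_
  have h1 := hb R hR
  have h3 := hb R' hR'
  linarith

theorem ae_of_discs {P : E 2 → Prop}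
    (h : ∀ x0 : E 2, ∀ᵐ x ∂(volume.restrict (Metric.closedBall x0 1)), P x) : ∀ᵐ x, P x := by
  have h1 : ∀ k : ℕ, ∀ᵐ x ∂(volume : Measure (E 2)),
      x ∈ Metric.closedBall (TopologicalSpace.denseSeq (E 2) k) 1 → P x := fun k =>
    (ae_restrict_iff' Metric.isClosed_closedBall.measurableSet).1
      (h (TopologicalSpace.denseSeq (E 2) k))
  filter_upwards [ae_all_iff.2 h1] with x hx
  obtain ⟨k, hk⟩ := (TopologicalSpace.denseRange_denseSeq (E 2)).exists_dist_lt x one_pos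
  exact hx k (by rw [Metric.mem_closedBall]; exact hk.le)

/-! ### Identification of the limit -/

theorem lint_of_eLpNorm {f g : E 2 → ℂ} (h : eLpNorm f 2 = eLpNorm g 2) :
    ∫⁻ x, ‖f x‖ₑ ^ 2 = ∫⁻ x, ‖g x‖ₑ ^ 2 := by
  rw [eLpNorm_eq_lintegral_rpow_enorm_toReal (by norm_num) (by norm_num),
    eLpNorm_eq_lintegral_rpow_enorm_toReal (by norm_num) (by norm_num)] at h
  have key2 := ENNReal.rpow_left_injective (x := 1 / (2 : ℝ≥0∞).toReal) (by norm_num) h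
  simpa only [ENNReal.toReal_ofNat, ENNReal.rpow_ofNat] using key2

theorem IE_eq_fourier (h : E 2 → ℂ) (x : E 2) : IE h x = 𝓕 h (-x) := by
  have e := Pool.Agent.MBS.T_eq_fourier (fun _ : E 2 => (1 : ℝ)) h x
  unfold T at e
  simpa [IE] using e

theorem plancherel {f : E 2 → ℂ} (h1 : Integrable f) (h2 : MemLp f 2) :
    ∫⁻ x, ‖𝓕 f x‖ₑ ^ 2 = ∫⁻ x, ‖f x‖ₑ ^ 2 :=
  lint_of_eLpNorm (Pool.Agent.H25.Plancherel.eLpNorm_fourier_eq h1 h2)

theorem plancherelIE {f : E 2 → ℂ} (h1 : Integrable f) (h2 : MemLp f 2) :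
    ∫⁻ x, ‖IE f x‖ₑ ^ 2 = ∫⁻ x, ‖f x‖ₑ ^ 2 := by
  rw [← plancherel h1 h2, ← lintegral_neg_eq_self (fun x => ‖𝓕 f x‖ₑ ^ 2)]
  refine lintegral_congr fun x => ?_
  rw [IE_eq_fourier]

/-- self-adjointness -/
theorem adjoint {f h : E 2 → ℂ} (hf : Integrable f) (hh : Integrable h) :
    ∫ ξ, (starRingEnd ℂ) (𝓕 f ξ) * h ξ = ∫ x, (starRingEnd ℂ) (f x) * IE h x := by
  have key := VectorFourier.integral_sesq_fourierIntegral_eq_neg_flip (E := ℂ) (F := ℂ) (G := ℂ)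
    (L := innerₗ (E 2)) (μ := volume) (ν := volume) (f := f) (g := h) (innerSL ℂ)
    Real.continuous_fourierChar continuous_inner hf hh
  have e1 : ∀ ξ : E 2, VectorFourier.fourierIntegral Real.fourierChar volume (innerₗ (E 2)) f ξ =
      𝓕 f ξ := fun ξ => rfl
  have e2 : ∀ x : E 2, VectorFourier.fourierIntegral Real.fourierChar volume
      (-(innerₗ (E 2)).flip) h x = IE h x := by
    intro x
    unfold VectorFourier.fourierIntegral IE
    refine integral_congr_ae (ae_of_all _ fun ξ => ?_)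
    simp only [ex, Circle.smul_def, Real.fourierChar_apply, smul_eq_mul]
    rw [mul_comm (h ξ)]
    congr 2
    simp only [LinearMap.neg_apply, neg_neg, LinearMap.flip_apply, innerₗ_apply_apply]
    push_cast
    ring
  simp only [e1, e2, innerSL_apply_apply, RCLike.inner_apply'] at key
  exact key

theorem enorm_sq (z : ℂ) : ‖z‖ₑ ^ 2 = ENNReal.ofReal (‖z‖ ^ 2) := by
  rw [← ofReal_norm, ENNReal.ofReal_pow (norm_nonneg z)]

theorem memLp_of_lint {u : E 2 → ℂ} (hu : AEStronglyMeasurable u)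
    (h : ∫⁻ x, ‖u x‖ₑ ^ 2 ≠ ⊤) : MemLp u 2 := by
  rw [memLp_two_iff_integrable_sq_norm hu]
  refine ⟨(hu.norm.pow 2), ?_⟩
  rw [hasFiniteIntegral_iff_enorm]
  refine lt_of_le_of_lt (le_of_eq ?_) (lt_top_iff_ne_top.2 h)
  refine lintegral_congr fun x => ?_
  rw [enorm_sq, ← ofReal_norm, Real.norm_eq_abs, abs_of_nonneg (sq_nonneg _)]

theorem int_sq {u : E 2 → ℂ} (hu : MemLp u 2) :
    ∫⁻ x, ‖u x‖ₑ ^ 2 = ENNReal.ofReal (∫ x, ‖u x‖ ^ 2) := by
  have hi := (memLp_two_iff_integrable_sq_norm hu.1).1 hu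
  rw [ofReal_integral_eq_lintegral_ofReal hi (ae_of_all _ fun x => sq_nonneg _)]
  exact lintegral_congr fun x => enorm_sq _

/-- distance in `L²` from `f` to its partial sum -/
theorem l2dist {f : E 2 → ℂ} (h1 : Integrable f) (h2 : MemLp f 2) (n : ℕ) :
    ∫⁻ x, ‖f x - BI (𝓕 f) n x‖ₑ ^ 2 = ∫⁻ ξ, ‖tr (𝓕 f) n ξ‖ₑ ^ 2 := by
  set F : E 2 → ℂ := 𝓕 f with hF
  have hFc : Continuous F := VectorFourier.fourierIntegral_continuous (V := E 2) (W := E 2)
    Real.continuous_fourierChar (L := innerₗ (E 2)) continuous_inner h1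
  have hf2 : ∫⁻ x, ‖f x‖ₑ ^ 2 ≠ ⊤ := by
    rw [int_sq h2]; exact ENNReal.ofReal_ne_top
  have hF2 : ∫⁻ x, ‖F x‖ₑ ^ 2 ≠ ⊤ := by
    rw [plancherel h1 h2]; exact hf2
  have hFL : MemLp F 2 := memLp_of_lint hFc.aestronglyMeasurable hF2
  set s : Set (E 2) := Metric.closedBall (0 : E 2) (n : ℝ) with hs
  have hsm : MeasurableSet s := Metric.isClosed_closedBall.measurableSet
  set h : E 2 → ℂ := s.indicator F with hh
  have hhI : Integrable h := (intOn hFc.measurable hF2 n).integrable_indicator hsm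
  have hhL : MemLp h 2 := hFL.indicator hsm
  set u : E 2 → ℂ := fun x => BI F n x with hu
  have huIE : ∀ x, IE h x = u x := by
    intro x
    simp only [hu, BI, IE, hh]
    rw [← integral_indicator hsm]
    refine integral_congr_ae (ae_of_all _ fun ξ => ?_)
    by_cases h : ξ ∈ s
    · simp only [indicator_of_mem h]
    · simp only [indicator_of_notMem h, zero_mul]
  have huc : Continuous u := BI_cont (intOn hFc.measurable hF2 n)
  have hu2 : ∫⁻ x, ‖u x‖ₑ ^ 2 = ∫⁻ x, ‖h x‖ₑ ^ 2 := by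
    rw [← plancherelIE hhI hhL]
    exact lintegral_congr fun x => by rw [huIE]
  have huL : MemLp u 2 := memLp_of_lint huc.aestronglyMeasurable (by
    rw [hu2, int_sq hhL]; exact ENNReal.ofReal_ne_top)
  have iF := (memLp_two_iff_integrable_sq_norm hFL.1).1 hFL
  have ih := (memLp_two_iff_integrable_sq_norm hhL.1).1 hhL
  have iu := (memLp_two_iff_integrable_sq_norm huL.1).1 huL
  have ig := (memLp_two_iff_integrable_sq_norm h2.1).1 h2
  have rnn : ∀ v : E 2 → ℂ, 0 ≤ ∫ x, ‖v x‖ ^ 2 := fun v => integral_nonneg fun x => sq_nonneg _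
  have eA : ∫ x, ‖F x‖ ^ 2 = ∫ x, ‖f x‖ ^ 2 := by
    have e := plancherel h1 h2
    rw [int_sq h2, int_sq hFL, ENNReal.ofReal_eq_ofReal_iff (rnn _) (rnn _)] at e
    exact e
  have eB : ∫ x, ‖u x‖ ^ 2 = ∫ x, ‖h x‖ ^ 2 := by
    rw [int_sq hhL, int_sq huL, ENNReal.ofReal_eq_ofReal_iff (rnn _) (rnn _)] at hu2
    exact hu2
  have icross : Integrable (fun x => (starRingEnd ℂ) (f x) * u x) := by
    have := MemLp.integrable_mul (p := 2) (q := 2) h2.star huL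
    exact this
  have eC : ∫ x, ((starRingEnd ℂ) (f x) * u x).re = ∫ x, ‖h x‖ ^ 2 := by
    have e := adjoint h1 hhI
    have e1 : ∫ ξ, (starRingEnd ℂ) (𝓕 f ξ) * h ξ = ((∫ x, ‖h x‖ ^ 2 : ℝ) : ℂ) := by
      rw [← integral_complex_ofReal]
      refine integral_congr_ae (ae_of_all _ fun ξ => ?_)
      by_cases hξ : ξ ∈ s
      · simp only [hh, indicator_of_mem hξ, ← hF]
        rw [mul_comm, Complex.mul_conj, Complex.normSq_eq_norm_sq]
      · simp only [hh, indicator_of_notMem hξ]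
        simp
    rw [e1] at e
    have e2 : ∫ x, (starRingEnd ℂ) (f x) * IE h x = ∫ x, (starRingEnd ℂ) (f x) * u x :=
      integral_congr_ae (ae_of_all _ fun x => by simp only [huIE])
    rw [e2] at e
    have e3 := integral_re icross
    simp only [RCLike.re_to_complex] at e3
    rw [e3, ← e, Complex.ofReal_re]
  have hpt : ∀ x, ‖f x - u x‖ ^ 2 =
      ‖f x‖ ^ 2 - 2 * ((starRingEnd ℂ) (f x) * u x).re + ‖u x‖ ^ 2 := by
    intro x
    rw [← Complex.normSq_eq_norm_sq, ← Complex.normSq_eq_norm_sq, ← Complex.normSq_eq_norm_sq]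
    simp only [Complex.normSq_apply, Complex.sub_re, Complex.sub_im, Complex.mul_re,
      Complex.conj_re, Complex.conj_im]
    ring
  have hpt2 : ∀ ξ, ‖tr F n ξ‖ ^ 2 = ‖F ξ‖ ^ 2 - ‖h ξ‖ ^ 2 := by
    intro ξ
    by_cases hξ : (n : ℝ) < ‖ξ‖
    · have h3 : ξ ∉ s := by
        rw [hs, mem_closedBall_zero_iff]; exact not_le.2 hξ
      have h4 : tr F n ξ = F ξ := indicator_of_mem (by simpa using hξ) F
      simp only [hh, indicator_of_notMem h3, h4]
      simp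
    · have h3 : ξ ∈ s := by
        rw [hs, mem_closedBall_zero_iff]; exact not_lt.1 hξ
      have h4 : tr F n ξ = 0 := indicator_of_notMem (by simpa using hξ) F
      simp only [hh, indicator_of_mem h3, h4]
      simp
  have htrL : MemLp (tr F n) 2 := hFL.indicator (tr_set_meas n)
  change ∫⁻ x, ‖(f - u) x‖ₑ ^ 2 = _
  rw [int_sq (h2.sub huL), int_sq htrL]
  congr 1
  have e4 : ∫ x, ‖(f - u) x‖ ^ 2 =
      ∫ x, (‖f x‖ ^ 2 - 2 * ((starRingEnd ℂ) (f x) * u x).re + ‖u x‖ ^ 2) :=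
    integral_congr_ae (ae_of_all _ fun x => hpt x)
  have e5 : ∫ x, ‖tr F n x‖ ^ 2 = ∫ x, (‖F x‖ ^ 2 - ‖h x‖ ^ 2) :=
    integral_congr_ae (ae_of_all _ fun x => hpt2 x)
  have ire : Integrable (fun x => 2 * ((starRingEnd ℂ) (f x) * u x).re) :=
    (icross.re).const_mul 2
  have isub : Integrable (fun x => ‖f x‖ ^ 2 - 2 * ((starRingEnd ℂ) (f x) * u x).re) :=
    ig.sub ire
  rw [e4, e5, integral_add isub iu, integral_sub ig ire, integral_sub iF ih,
    integral_const_mul, eA, eB, eC]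
  ring

end FA2_

open FA2_ in
/-- Q16 -/
theorem pFA2 (h : tFA1) : tFA2 := by
  intro g hg hG
  refine ae_of_discs fun x0 => ?_
  filter_upwards [liminf_zero hg hG h x0] with x hx
  exact conv_of_liminf hg (lint_sq_ne_top hG) hx

open FA2_ in
/-- Q16 -/
theorem pFA3 (h : tFA1) : tFA3 := by
  intro f hf h1 h2 hG
  have hFc : Continuous (𝓕 f) := VectorFourier.fourierIntegral_continuous (V := E 2) (W := E 2)
    Real.continuous_fourierChar (L := innerₗ (E 2)) continuous_inner h1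
  have hconv := pFA2 h (𝓕 f) hFc.measurable hG
  have hF2 := lint_sq_ne_top hG
  have hm : ∀ n : ℕ, Measurable (fun x => ‖f x - BI (𝓕 f) n x‖ₑ ^ 2) := fun n =>
    ((hf.sub (BI_cont (intOn hFc.measurable hF2 n)).measurable).enorm).pow_const 2
  have hlim : Tendsto (fun n : ℕ => ∫⁻ x, ‖f x - BI (𝓕 f) n x‖ₑ ^ 2) atTop (𝓝 0) := by
    refine tendsto_of_tendsto_of_tendsto_of_le_of_le tendsto_const_nhds
      (tr_lim hFc.measurable hG) (fun _ => zero_le) (fun n => ?_)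
    simp only
    rw [l2dist h1 h2 n]
    refine lintegral_mono fun ξ => ?_
    calc ‖tr (𝓕 f) n ξ‖ₑ ^ 2 = ‖tr (𝓕 f) n ξ‖ₑ ^ 2 * 1 := (mul_one _).symm
      _ ≤ _ := mul_le_mul_right (one_le_ofReal_lw ξ) _
  have hfat : ∫⁻ x, liminf (fun n : ℕ => ‖f x - BI (𝓕 f) n x‖ₑ ^ 2) atTop = 0 := by
    refine le_antisymm ?_ zero_le
    refine le_trans (lintegral_liminf_le hm) ?_
    rw [hlim.liminf_eq]
  have hmeas : Measurable (fun x => liminf (fun n : ℕ => ‖f x - BI (𝓕 f) n x‖ₑ ^ 2) atTop) :=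
    Measurable.liminf hm
  rw [lintegral_eq_zero_iff hmeas] at hfat
  filter_upwards [hconv, hfat] with x hx hx0
  obtain ⟨l, hl⟩ := hx
  have h3 : Tendsto (fun n : ℕ => ‖f x - BI (𝓕 f) n x‖ₑ ^ 2) atTop (𝓝 (‖f x - l‖ₑ ^ 2)) := by
    have h4 : Tendsto (fun n : ℕ => BI (𝓕 f) n x) atTop (𝓝 l) := hl.comp tendsto_natCast_atTop_atTop
    exact ENNReal.Tendsto.pow ((tendsto_const_nhds.sub h4).enorm)
  rw [Pi.zero_apply] at hx0
  rw [h3.liminf_eq] at hx0
  have h5 : f x - l = 0 := by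
    have := pow_eq_zero_iff (two_ne_zero) |>.1 hx0
    simpa using this
  have h6 : l = f x := (sub_eq_zero.1 h5).symm
  rw [← h6]
  exact hl

end Pool.Agent.KSP
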