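import Pool.Agent.KSP.Targets2

set_option autoImplicit false

/-! Q2: transfer of the plane theorem to `E 2`, all dilations. -/

namespace Pool.Agent.KSP

open MeasureTheory FourierTransform Set Filter Topology
open scoped ENNReal NNReal
open Pool.Agent.MBS (E ex)

namespace KE_

/-- the plane as a Euclidean space -/
noncomputable def φ : ℝ × ℝ ≃ᵐ E 2 :=
  MeasurableEquiv.finTwoArrow.symm.trans (MeasurableEquiv.toLp 2 (Fin 2 → ℝ))

lemma φ_mp : MeasurePreserving φ volume volume :=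
  ((volume_preserving_finTwoArrow ℝ).symm _).trans (PiLp.volume_preserving_toLp (Fin 2))

lemma φ_zero (x : ℝ × ℝ) : φ x 0 = x.1 := rfl

lemma φ_one (x : ℝ × ℝ) : φ x 1 = x.2 := rfl

lemma φ_inner (x ξ : ℝ × ℝ) : inner ℝ (φ x) (φ ξ) = dot x ξ := by
  rw [PiLp.inner_apply, Fin.sum_univ_two]
  simp only [φ_zero, φ_one, dot, RCLike.inner_apply, conj_trivial]
  ring

lemma φ_norm (x : ℝ × ℝ) : ‖φ x‖ = nr x := by
  rw [EuclideanSpace.norm_eq, Fin.sum_univ_two]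
  simp only [φ_zero, φ_one, nr, Real.norm_eq_abs, sq_abs]

lemma φ_ex (x ξ : ℝ × ℝ) : ex (φ x) (φ ξ) = ee (dot x ξ) := by
  simp only [ex, ee, φ_inner]

lemma IE_φ (g : E 2 → ℂ) (x : ℝ × ℝ) : IE g (φ x) = Ex (g ∘ φ) x := by
  unfold IE Ex
  rw [← φ_mp.integral_comp φ.measurableEmbedding]
  refine integral_congr_ae (Eventually.of_forall fun ξ => ?_)
  simp only [φ_ex, Function.comp]

lemma lint_φ (G : E 2 → ℝ≥0∞) : ∫⁻ y, G y = ∫⁻ x : ℝ × ℝ, G (φ x) :=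
  (φ_mp.lintegral_comp_emb φ.measurableEmbedding G).symm

/-- change of variables `z = c⁻¹ ξ` -/
lemma lint_smul (G : ℝ × ℝ → ℝ≥0∞) {c : ℝ} (hc : 0 < c) :
    ∫⁻ x : ℝ × ℝ, G (c • x) = ENNReal.ofReal ((c ^ 2)⁻¹) * ∫⁻ x, G x := by
  have h1 : ∫⁻ x : ℝ × ℝ, G (c • x) = ∫⁻ x, G x ∂(Measure.map (c • ·) volume) :=
    ((Homeomorph.smulOfNeZero c hc.ne').measurableEmbedding.lintegral_map G).symm
  rw [h1, Measure.map_addHaar_smul volume hc.ne', lintegral_smul_measure]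
  have h2 : Module.finrank ℝ (ℝ × ℝ) = 2 := by simp
  rw [h2, abs_of_nonneg (by positivity)]
  rfl

lemma int_smul (F : ℝ × ℝ → ℂ) {c : ℝ} (hc : 0 < c) :
    ∫ x : ℝ × ℝ, F x = (c ^ 2 : ℝ) • ∫ x, F (c • x) := by
  have h2 : Module.finrank ℝ (ℝ × ℝ) = 2 := by simp
  rw [Measure.integral_comp_smul_of_nonneg volume F c (hR := hc.le), h2, smul_smul,
    mul_inv_cancel₀ (by positivity), one_smul]

lemma nr_smul (c : ℝ) (hc : 0 < c) (z : ℝ × ℝ) : nr (c • z) = c * nr z := by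
  unfold nr
  simp only [Prod.smul_fst, Prod.smul_snd, smul_eq_mul]
  rw [show (c * z.1) ^ 2 + (c * z.2) ^ 2 = c ^ 2 * (z.1 ^ 2 + z.2 ^ 2) by ring,
    Real.sqrt_mul (by positivity), Real.sqrt_sq hc.le]

lemma dot_smul (c : ℝ) (x z : ℝ × ℝ) : dot x (c • z) = dot (c • x) z := by
  unfold dot
  simp only [Prod.smul_fst, Prod.smul_snd, smul_eq_mul]
  ring

/-- the dilated function, restricted to the annulus -/
noncomputable def dl (c : ℝ) (g : ℝ × ℝ → ℂ) : ℝ × ℝ → ℂ :=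
  (ann 1 2).indicator fun z => g (c • z)

lemma nr_cont : Continuous nr := by
  unfold nr
  fun_prop

lemma ann_meas (a b : ℝ) : MeasurableSet (ann a b) :=
  (measurableSet_le measurable_const nr_cont.measurable).inter
    (measurableSet_lt nr_cont.measurable measurable_const)

lemma abs_le_nr (ξ : ℝ × ℝ) : |ξ.1| ≤ nr ξ ∧ |ξ.2| ≤ nr ξ := by
  unfold nr
  constructor
  · exact Real.abs_le_sqrt (by nlinarith [sq_nonneg ξ.2])
  · exact Real.abs_le_sqrt (by nlinarith [sq_nonneg ξ.1])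

lemma dl_Bd {g : ℝ × ℝ → ℂ} (hm : Measurable g) {B : ℝ} (hB : ∀ ξ, ‖g ξ‖ ≤ B) (c : ℝ) :
    Bd (dl c g) := by
  refine ⟨(hm.comp (measurable_const_smul c)).indicator (ann_meas 1 2), ⟨B, fun ξ => ?_⟩, 2,
    fun ξ hξ => ?_⟩
  · unfold dl
    by_cases h : ξ ∈ ann 1 2
    · rw [indicator_of_mem h]
      exact hB _
    · rw [indicator_of_notMem h, norm_zero]
      exact (norm_nonneg _).trans (hB 0)
  · have h : ξ ∈ ann 1 2 := by
      by_contra h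
      exact hξ (by unfold dl; rw [indicator_of_notMem h])
    have h2 := abs_le_nr ξ
    exact ⟨h2.1.trans h.2.le, h2.2.trans h.2.le⟩

lemma Ex_dil (g : ℝ × ℝ → ℂ) {c s : ℝ} (hc : 0 < c) (hs : s ≤ 2) (x : ℝ × ℝ) :
    Ex ((ann c (c * s)).indicator g) x =
      ((c ^ 2 : ℝ) : ℂ) * Ex ((ann 1 s).indicator (dl c g)) (c • x) := by
  unfold Ex
  rw [int_smul _ hc, Complex.real_smul]
  congr 1
  refine integral_congr_ae (Eventually.of_forall fun z => ?_)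
  simp only
  rw [dot_smul]
  congr 1
  have hiff : c • z ∈ ann c (c * s) ↔ z ∈ ann 1 s := by
    unfold ann
    simp only [mem_ofPred_eq, nr_smul c hc]
    constructor
    · rintro ⟨h1, h2⟩
      exact ⟨by nlinarith, lt_of_mul_lt_mul_left h2 hc.le⟩
    · rintro ⟨h1, h2⟩
      exact ⟨by nlinarith, mul_lt_mul_of_pos_left h2 hc⟩
  by_cases h : z ∈ ann 1 s
  · rw [indicator_of_mem (hiff.2 h), indicator_of_mem h]
    unfold dl
    rw [indicator_of_mem (show z ∈ ann 1 2 from ⟨h.1, h.2.trans_le hs⟩)]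
  · rw [indicator_of_notMem (fun h1 => h (hiff.1 h1)), indicator_of_notMem h]

end KE_

open KE_ in
/-- Q2 -/
theorem pKE (hK : tK) : tKE := by
  obtain ⟨C, hC⟩ := hK
  refine ⟨C, fun m c h hm hc hh => ?_⟩
  obtain ⟨hmeas, ⟨B, hB⟩, -⟩ := hh
  set g : ℝ × ℝ → ℂ := h ∘ φ with hg
  have hgm : Measurable g := hmeas.comp φ.measurable
  have hgB : ∀ ξ, ‖g ξ‖ ≤ B := fun ξ => hB _
  have hmain := hC m (dl c g) hm (dl_Bd hgm hgB c) (fun ξ hξ => by
    by_contra hcon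
    exact hξ (by
      unfold dl
      rw [indicator_of_notMem (show ξ ∉ ann 1 2 from fun h1 => hcon h1)]))
  -- the left side
  have hset : ∀ s : ℝ, ({ξ : E 2 | c ≤ ‖ξ‖ ∧ ‖ξ‖ < c * s}.indicator h) ∘ φ =
      (ann c (c * s)).indicator g := by
    intro s
    funext ξ
    have hiff : φ ξ ∈ {ξ : E 2 | c ≤ ‖ξ‖ ∧ ‖ξ‖ < c * s} ↔ ξ ∈ ann c (c * s) := by
      simp only [mem_ofPred_eq, φ_norm, ann]
    simp only [Function.comp, hg]
    by_cases h1 : ξ ∈ ann c (c * s)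
    · rw [indicator_of_mem h1, indicator_of_mem (hiff.2 h1)]
      rfl
    · rw [indicator_of_notMem h1, indicator_of_notMem (fun h2 => h1 (hiff.1 h2))]
  have hs2 : ∀ k ∈ Finset.range (2 ^ m), (1 + (k : ℝ) / 2 ^ m) ≤ 2 := by
    intro k hk
    have h1 : (k : ℝ) ≤ 2 ^ m := by
      have := (Finset.mem_range.1 hk).le
      exact_mod_cast this
    have h2 : (k : ℝ) / 2 ^ m ≤ 1 := by
      rw [div_le_one (by positivity)]
      exact h1
    linarith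
  have hL : ∫⁻ x : E 2, (⨆ k ∈ Finset.range (2 ^ m),
      ‖IE ({ξ : E 2 | c ≤ ‖ξ‖ ∧ ‖ξ‖ < c * (1 + k / 2 ^ m)}.indicator h) x‖ₑ) ^ 2 =
      ENNReal.ofReal (c ^ 2) * ∫⁻ x : ℝ × ℝ, (⨆ k ∈ Finset.range (2 ^ m),
        ‖Ex ((ann 1 (1 + k / 2 ^ m)).indicator (dl c g)) x‖ₑ) ^ 2 := by
    rw [lint_φ]
    have h1 : ∀ x : ℝ × ℝ, (⨆ k ∈ Finset.range (2 ^ m),
        ‖IE ({ξ : E 2 | c ≤ ‖ξ‖ ∧ ‖ξ‖ < c * (1 + k / 2 ^ m)}.indicator h) (φ x)‖ₑ) ^ 2 =
        ENNReal.ofReal (c ^ 4) * (fun y : ℝ × ℝ => (⨆ k ∈ Finset.range (2 ^ m),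
          ‖Ex ((ann 1 (1 + k / 2 ^ m)).indicator (dl c g)) y‖ₑ) ^ 2) (c • x) := by
      intro x
      have h2 : (⨆ k ∈ Finset.range (2 ^ m),
          ‖IE ({ξ : E 2 | c ≤ ‖ξ‖ ∧ ‖ξ‖ < c * (1 + k / 2 ^ m)}.indicator h) (φ x)‖ₑ) =
          ENNReal.ofReal (c ^ 2) * ⨆ k ∈ Finset.range (2 ^ m),
            ‖Ex ((ann 1 (1 + k / 2 ^ m)).indicator (dl c g)) (c • x)‖ₑ := by
        rw [ENNReal.mul_iSup]
        refine iSup_congr fun k => ?_
        rw [ENNReal.mul_iSup]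
        refine iSup_congr fun hk => ?_
        rw [IE_φ, hset, Ex_dil g hc (hs2 k hk), enorm_mul]
        congr 1
        rw [← ofReal_norm, Complex.norm_real, Real.norm_of_nonneg (by positivity)]
      rw [h2, mul_pow, ← ENNReal.ofReal_pow (by positivity)]
      congr 2
      ring
    simp_rw [h1]
    rw [lintegral_const_mul' _ _ ENNReal.ofReal_ne_top, lint_smul (fun y : ℝ × ℝ =>
      (⨆ k ∈ Finset.range (2 ^ m),
        ‖Ex ((ann 1 (1 + k / 2 ^ m)).indicator (dl c g)) y‖ₑ) ^ 2) hc, ← mul_assoc,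
      ← ENNReal.ofReal_mul (by positivity)]
    congr 2
    field_simp
  -- the right side
  have hR : n2 (dl c g) = ENNReal.ofReal ((c ^ 2)⁻¹) *
      ∫⁻ ξ in {ξ : E 2 | c ≤ ‖ξ‖ ∧ ‖ξ‖ < 2 * c}, ‖h ξ‖ₑ ^ 2 := by
    have hms : MeasurableSet {ξ : E 2 | c ≤ ‖ξ‖ ∧ ‖ξ‖ < 2 * c} :=
      (measurableSet_le measurable_const measurable_norm).inter
        (measurableSet_lt measurable_norm measurable_const)
    rw [← lintegral_indicator hms, lint_φ, ← lint_smul _ hc]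
    unfold n2
    refine lintegral_congr fun z => ?_
    by_cases h1 : z ∈ ann 1 2
    · have h2 : φ (c • z) ∈ {ξ : E 2 | c ≤ ‖ξ‖ ∧ ‖ξ‖ < 2 * c} := by
        simp only [mem_ofPred_eq, φ_norm, nr_smul c hc]
        exact ⟨by nlinarith [h1.1], by nlinarith [h1.2]⟩
      rw [indicator_of_mem h2]
      unfold dl
      rw [indicator_of_mem h1]
      rfl
    · have h2 : φ (c • z) ∉ {ξ : E 2 | c ≤ ‖ξ‖ ∧ ‖ξ‖ < 2 * c} := by
        simp only [mem_ofPred_eq, φ_norm, nr_smul c hc]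
        rintro ⟨h3, h4⟩
        exact h1 ⟨by nlinarith, by nlinarith⟩
      rw [indicator_of_notMem h2]
      unfold dl
      rw [indicator_of_notMem h1]
      simp
  rw [hL]
  calc ENNReal.ofReal (c ^ 2) * ∫⁻ x : ℝ × ℝ, (⨆ k ∈ Finset.range (2 ^ m),
        ‖Ex ((ann 1 (1 + k / 2 ^ m)).indicator (dl c g)) x‖ₑ) ^ 2
      ≤ ENNReal.ofReal (c ^ 2) * (C * m * ((lg m : ℕ) : ℝ≥0∞) ^ 5 * n2 (dl c g)) :=
        mul_le_mul' le_rfl hmain
    _ = C * m * ((lg m : ℕ) : ℝ≥0∞) ^ 5 * ((ENNReal.ofReal (c ^ 2) * ENNReal.ofReal ((c ^ 2)⁻¹)) *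
        ∫⁻ ξ in {ξ : E 2 | c ≤ ‖ξ‖ ∧ ‖ξ‖ < 2 * c}, ‖h ξ‖ₑ ^ 2) := by
        rw [hR]
        ring
    _ = _ := by
        rw [← ENNReal.ofReal_mul (by positivity), mul_inv_cancel₀ (by positivity),
          ENNReal.ofReal_one, one_mul]

end Pool.Agent.KSP
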