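import Pool.Agent.KSP.Targets2
import Pool.Agent.MBS.J1
import Pool.Agent.MBS.J5
import Pool.Agent.MBS.J8
import Pool.Agent.MBS.J11
import Pool.Agent.MBS.J12

set_option autoImplicit false

/-! Radii `2^j (1 + k/2^m)`. -/

namespace Pool.Agent.KSP

open MeasureTheory FourierTransform Set Filter Topology
open scoped ENNReal NNReal
open Pool.Agent.MBS (E ex T S Sstar et ps mul pm Tstar Pstar MF)

namespace Oct_

/-- multiplication by a real function -/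
noncomputable def cut (a : E 2 → ℝ) (H : E 2 → ℂ) : E 2 → ℂ := fun ξ => (a ξ : ℂ) * H ξ

lemma cut_BdE {a : E 2 → ℝ} {H : E 2 → ℂ} (ha : Measurable a) (h1 : ∀ ξ, |a ξ| ≤ 1)
    (R : ℝ) (hR : ∀ ξ, a ξ ≠ 0 → ‖ξ‖ ≤ R) (hH : Continuous H) : BdE (cut a H) := by
  obtain ⟨B, hB⟩ := (isCompact_closedBall (0 : E 2) R).exists_bound_of_continuousOn
    (f := H) hH.continuousOn
  refine ⟨(Complex.measurable_ofReal.comp ha).mul hH.measurable, ⟨max B 0, fun ξ => ?_⟩, R,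
    fun ξ hξ => ?_⟩
  · unfold cut
    by_cases h0 : a ξ = 0
    · rw [h0]; simp
    · rw [norm_mul, Complex.norm_real, Real.norm_eq_abs]
      have h2 := hB ξ (by rw [mem_closedBall_zero_iff]; exact hR ξ h0)
      calc |a ξ| * ‖H ξ‖ ≤ 1 * B := mul_le_mul (h1 ξ) h2 (norm_nonneg _) zero_le_one
        _ = B := one_mul B
        _ ≤ max B 0 := le_max_left _ _
  · refine hR ξ fun h0 => hξ ?_
    unfold cut
    rw [h0]; simp

lemma BdE_int {h : E 2 → ℂ} (hh : BdE h) (x : E 2) : Integrable fun ξ => h ξ * ex x ξ := by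
  obtain ⟨hm, ⟨B, hB⟩, R, hR⟩ := hh
  have hfin : volume (Metric.closedBall (0 : E 2) R) < ⊤ := measure_closedBall_lt_top
  have hexm : Measurable fun ξ : E 2 => ex x ξ :=
    (MBS.ex_continuous.comp (Continuous.prodMk_right x)).measurable
  have hon : IntegrableOn (fun ξ => h ξ * ex x ξ) (Metric.closedBall (0 : E 2) R) := by
    refine Measure.integrableOn_of_bounded hfin.ne (hm.mul hexm).aestronglyMeasurable (M := B) ?_
    refine Filter.Eventually.of_forall fun ξ => ?_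
    rw [norm_mul, MBS.ex_norm, mul_one]
    exact hB ξ
  rw [← integrableOn_iff_integrable_of_support_subset (s := Metric.closedBall (0 : E 2) R)]
  · exact hon
  · intro ξ hξ
    rw [mem_closedBall_zero_iff]
    refine hR ξ fun h0 => hξ ?_
    simp only [h0, zero_mul]

/-- the sphere does not matter -/
lemma S_eq {f : E 2 → ℂ} (R : ℝ) (x : E 2) :
    S f R x = ∫ ξ in {ξ : E 2 | ‖ξ‖ < R}, 𝓕 f ξ * ex x ξ := by
  unfold S
  refine setIntegral_congr_set ?_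
  have h0 : volume (Metric.sphere (0 : E 2) R) = 0 := Measure.addHaar_sphere _ _ _
  rw [ae_eq_set]
  constructor
  · refine measure_mono_null ?_ h0
    rintro ξ ⟨h1, h2⟩
    rw [mem_closedBall_zero_iff] at h1
    rw [mem_sphere_zero_iff_norm]
    exact le_antisymm h1 (not_lt.1 h2)
  · have : {ξ : E 2 | ‖ξ‖ < R} \ Metric.closedBall 0 R = ∅ := by
      ext ξ
      simp only [Set.mem_sdiff, mem_ofPred_eq, mem_closedBall_zero_iff, mem_empty_iff_false, iff_false,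
        not_and, not_not]
      exact fun h => h.le
    rw [this, measure_empty]

/-- the multiplier `1_{|ξ| < c} - pm c` -/
noncomputable def dm (c : ℝ) (ξ : E 2) : ℝ := ({ξ : E 2 | ‖ξ‖ < c}.indicator 1 ξ) - pm c ξ

lemma pm_zero {c : ℝ} (hc : 0 < c) {ξ : E 2} (h : c ≤ ‖ξ‖) : pm c ξ = 0 := by
  unfold pm
  apply MBS.et_zero
  have h1 : 1 ≤ ‖ξ‖ ^ 2 / c ^ 2 := by
    rw [one_le_div (by positivity)]
    gcongr
  linarith

lemma pm_one {c : ℝ} (hc : 0 < c) {ξ : E 2} (h : ‖ξ‖ ≤ c / 2) : pm c ξ = 1 := by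
  unfold pm
  apply MBS.et_one
  have h1 : ‖ξ‖ ^ 2 / c ^ 2 ≤ 1 / 4 := by
    rw [div_le_iff₀ (by positivity)]
    have : ‖ξ‖ ^ 2 ≤ (c / 2) ^ 2 := by gcongr
    linarith
  linarith

lemma pm_cont (c : ℝ) : Continuous (pm (n := 2) c) := by
  unfold pm
  exact MBS.et_contDiff.continuous.comp (by fun_prop)

lemma meas_lt (c : ℝ) : MeasurableSet {ξ : E 2 | ‖ξ‖ < c} :=
  measurableSet_lt measurable_norm measurable_const

lemma dm_meas (c : ℝ) : Measurable (dm c) :=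
  (measurable_one.indicator (meas_lt c)).sub (pm_cont c).measurable

lemma dm_bd {c : ℝ} (hc : 0 < c) (ξ : E 2) : 0 ≤ dm c ξ ∧ dm c ξ ≤ 1 := by
  unfold dm
  have h0 : 0 ≤ pm c ξ := MBS.et_nonneg _
  have h1 : pm c ξ ≤ 1 := MBS.et_le_one _
  by_cases h : ‖ξ‖ < c
  · rw [indicator_of_mem (by exact h), Pi.one_apply]
    constructor <;> linarith
  · rw [indicator_of_notMem (by exact h), pm_zero hc (not_lt.1 h)]
    norm_num

lemma dm_supp {c : ℝ} (hc : 0 < c) {ξ : E 2} (h : dm c ξ ≠ 0) : c / 2 ≤ ‖ξ‖ ∧ ‖ξ‖ ≤ 2 * c := by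
  unfold dm at h
  constructor
  · by_contra h1
    push Not at h1
    apply h
    rw [pm_one hc h1.le, indicator_of_mem (show ξ ∈ {ξ : E 2 | ‖ξ‖ < c} by
      show ‖ξ‖ < c
      linarith), Pi.one_apply, sub_self]
  · by_contra h1
    push Not at h1
    apply h
    rw [pm_zero hc (by linarith), indicator_of_notMem (show ξ ∉ {ξ : E 2 | ‖ξ‖ < c} by
      show ¬ ‖ξ‖ < c
      linarith), sub_self]

/-- splitting of the ball partial sum -/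
lemma split (f : E 2 → ℂ) (hf : Integrable f) {c R : ℝ} (hc : 0 < c) (hR : c ≤ R) (x : E 2) :
    S f R x = IE ({ξ : E 2 | c ≤ ‖ξ‖ ∧ ‖ξ‖ < R}.indicator (𝓕 f)) x + IE (cut (dm c) (𝓕 f)) x +
      T (pm c) (𝓕 f) x := by
  have hH : Continuous (𝓕 f) := MBS.J8.fourier_cont hf
  have hA : MeasurableSet {ξ : E 2 | c ≤ ‖ξ‖ ∧ ‖ξ‖ < R} :=
    (measurableSet_le measurable_const measurable_norm).inter
      (measurableSet_lt measurable_norm measurable_const)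
  have i1 : Integrable fun ξ => cut ({ξ : E 2 | c ≤ ‖ξ‖ ∧ ‖ξ‖ < R}.indicator 1) (𝓕 f) ξ *
      ex x ξ := by
    refine BdE_int (cut_BdE (measurable_one.indicator hA) (fun ξ => ?_) R (fun ξ hξ => ?_) hH) x
    · by_cases h : ξ ∈ {ξ : E 2 | c ≤ ‖ξ‖ ∧ ‖ξ‖ < R}
      · rw [indicator_of_mem h]; simp
      · rw [indicator_of_notMem h]; simp
    · exact (mem_of_indicator_ne_zero hξ).2.le
  have i2 : Integrable fun ξ => cut (dm c) (𝓕 f) ξ * ex x ξ := by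
    refine BdE_int (cut_BdE (dm_meas c) (fun ξ => ?_) (2 * c) (fun ξ hξ => ?_) hH) x
    · rw [abs_of_nonneg (dm_bd hc ξ).1]
      exact (dm_bd hc ξ).2
    · exact (dm_supp hc hξ).2
  have i3 : Integrable fun ξ => cut (pm c) (𝓕 f) ξ * ex x ξ := by
    refine BdE_int (cut_BdE (pm_cont c).measurable (fun ξ => ?_) c (fun ξ hξ => ?_) hH) x
    · unfold pm
      rw [abs_of_nonneg (MBS.et_nonneg _)]
      exact MBS.et_le_one _
    · by_contra h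
      exact hξ (pm_zero hc (not_le.1 h).le)
  have e1 : IE ({ξ : E 2 | c ≤ ‖ξ‖ ∧ ‖ξ‖ < R}.indicator (𝓕 f)) x =
      ∫ ξ, cut ({ξ : E 2 | c ≤ ‖ξ‖ ∧ ‖ξ‖ < R}.indicator 1) (𝓕 f) ξ * ex x ξ := by
    unfold IE
    refine integral_congr_ae (Eventually.of_forall fun ξ => ?_)
    unfold cut
    by_cases h : ξ ∈ {ξ : E 2 | c ≤ ‖ξ‖ ∧ ‖ξ‖ < R}
    · simp only [indicator_of_mem h, Pi.one_apply, Complex.ofReal_one, one_mul]
    · simp only [indicator_of_notMem h, Complex.ofReal_zero, zero_mul]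
  have e3 : T (pm c) (𝓕 f) x = ∫ ξ, cut (pm c) (𝓕 f) ξ * ex x ξ := by
    unfold T cut
    refine integral_congr_ae (Eventually.of_forall fun ξ => ?_)
    simp only
    ring
  have i12 : Integrable fun ξ => cut ({ξ : E 2 | c ≤ ‖ξ‖ ∧ ‖ξ‖ < R}.indicator 1) (𝓕 f) ξ *
      ex x ξ + cut (dm c) (𝓕 f) ξ * ex x ξ := i1.add i2
  rw [S_eq, ← integral_indicator (meas_lt R), e1, e3]
  unfold IE
  rw [← integral_add i1 i2, ← integral_add i12 i3]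
  refine integral_congr_ae (Eventually.of_forall fun ξ => ?_)
  simp only [cut, dm, indicator_apply, mem_ofPred_eq, Pi.one_apply]
  by_cases h1 : ‖ξ‖ < c
  · rw [if_pos (lt_of_lt_of_le h1 hR), if_neg (fun h => absurd h.1 (not_le.2 h1)), if_pos h1]
    push_cast
    ring
  · by_cases h2 : ‖ξ‖ < R
    · rw [if_pos h2, if_pos ⟨not_lt.1 h1, h2⟩, if_neg h1]
      push_cast
      ring
    · rw [if_neg h2, if_neg (fun h => h2 h.2), if_neg h1]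
      push_cast
      ring

/-- the maximal function of the pieces in one octave -/
noncomputable def AA (m : ℕ) (f : E 2 → ℂ) (c : ℝ) (x : E 2) : ℝ≥0∞ :=
  ⨆ k ∈ Finset.range (2 ^ m),
    ‖IE ({ξ : E 2 | c ≤ ‖ξ‖ ∧ ‖ξ‖ < c * (1 + k / 2 ^ m)}.indicator (𝓕 f)) x‖ₑ

/-- the continuous function `𝓕 f` cut off at `2c` -/
lemma big_BdE {H : E 2 → ℂ} (hH : Continuous H) (R : ℝ) :
    BdE ({ξ : E 2 | ‖ξ‖ ≤ R}.indicator H) := by
  have hA : MeasurableSet {ξ : E 2 | ‖ξ‖ ≤ R} := measurableSet_le measurable_norm measurable_const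
  have h1 : ∀ ξ : E 2, |({ξ : E 2 | ‖ξ‖ ≤ R}.indicator (1 : E 2 → ℝ)) ξ| ≤ 1 := by
    intro ξ
    by_cases h : ξ ∈ {ξ : E 2 | ‖ξ‖ ≤ R}
    · rw [indicator_of_mem h]; simp
    · rw [indicator_of_notMem h]; simp
  have h2 : ∀ ξ : E 2, ({ξ : E 2 | ‖ξ‖ ≤ R}.indicator (1 : E 2 → ℝ)) ξ ≠ 0 → ‖ξ‖ ≤ R := by
    intro ξ hξ
    by_contra h
    exact hξ (indicator_of_notMem (by exact h) _)
  have h3 := cut_BdE (a := {ξ : E 2 | ‖ξ‖ ≤ R}.indicator 1) (H := H)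
    (measurable_one.indicator hA) h1 R h2 hH
  convert h3 using 1
  funext ξ
  unfold cut
  by_cases h : ξ ∈ {ξ : E 2 | ‖ξ‖ ≤ R}
  · simp only [indicator_of_mem h, Pi.one_apply, Complex.ofReal_one, one_mul]
  · simp only [indicator_of_notMem h, Complex.ofReal_zero, zero_mul]

lemma ind_big (m : ℕ) {k : ℕ} (hk : k < 2 ^ m) {c : ℝ} (hc : 0 < c) (H : E 2 → ℂ) :
    {ξ : E 2 | c ≤ ‖ξ‖ ∧ ‖ξ‖ < c * (1 + k / 2 ^ m)}.indicator
      ({ξ : E 2 | ‖ξ‖ ≤ 2 * c}.indicator H) =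
    {ξ : E 2 | c ≤ ‖ξ‖ ∧ ‖ξ‖ < c * (1 + k / 2 ^ m)}.indicator H := by
  rw [indicator_indicator]
  congr 1
  refine inter_eq_left.2 fun ξ hξ => ?_
  have h1 : (k : ℝ) / 2 ^ m ≤ 1 := by
    rw [div_le_one (by positivity)]
    exact_mod_cast hk.le
  show ‖ξ‖ ≤ 2 * c
  have h2 := hξ.2
  nlinarith

lemma AA_meas (hP : tPlE) (m : ℕ) {f : E 2 → ℂ} (hf : Integrable f) {c : ℝ} (hc : 0 < c) :
    Measurable (AA m f c) := by
  have hH : Continuous (𝓕 f) := MBS.J8.fourier_cont hf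
  unfold AA
  refine Measurable.biSup _ (Finset.countable_toSet _) fun k hk => ?_
  have hk' : k < 2 ^ m := Finset.mem_range.1 hk
  rw [← ind_big m hk' hc]
  have hB := big_BdE hH (2 * c)
  have hA : MeasurableSet {ξ : E 2 | c ≤ ‖ξ‖ ∧ ‖ξ‖ < c * (1 + k / 2 ^ m)} :=
    (measurableSet_le measurable_const measurable_norm).inter
      (measurableSet_lt measurable_norm measurable_const)
  have hB2 : BdE ({ξ : E 2 | c ≤ ‖ξ‖ ∧ ‖ξ‖ < c * (1 + k / 2 ^ m)}.indicator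
      ({ξ : E 2 | ‖ξ‖ ≤ 2 * c}.indicator (𝓕 f))) := by
    obtain ⟨a1, ⟨B, a2⟩, R, a3⟩ := hB
    refine ⟨a1.indicator hA, ⟨B, fun ξ => ?_⟩, R, fun ξ hξ => a3 ξ fun h0 => hξ ?_⟩
    · exact (norm_indicator_le_norm_self _ _).trans (a2 ξ)
    · by_cases hx : ξ ∈ {ξ : E 2 | c ≤ ‖ξ‖ ∧ ‖ξ‖ < c * (1 + k / 2 ^ m)}
      · rw [indicator_of_mem hx, h0]
      · rw [indicator_of_notMem hx]
  exact (hP _ hB2).1.measurable.enorm

/-- the maximal function does not see null sets -/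
lemma MF_congr {n : ℕ} {F G : E n → ℝ≥0∞} (h : F =ᵐ[volume] G) (x : E n) : MF F x = MF G x := by
  unfold MF
  refine iSup_congr fun r => iSup_congr fun _ => ?_
  rw [lintegral_congr_ae (ae_restrict_of_ae h)]

lemma sq3 (a b c : ℝ≥0∞) : (a + b + c) ^ 2 ≤ 9 * (a ^ 2 + b ^ 2 + c ^ 2) := by
  have h : ∀ y : ℝ≥0∞, a ≤ y → b ≤ y → c ≤ y → (a + b + c) ^ 2 ≤ 9 * y ^ 2 := by
    intro y h1 h2 h3
    calc (a + b + c) ^ 2 ≤ (y + y + y) ^ 2 := by gcongr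
      _ = 9 * y ^ 2 := by ring
  rcases le_total a b with h1 | h1
  · rcases le_total b c with h2 | h2
    · exact (h c (h1.trans h2) h2 le_rfl).trans (by gcongr; exact le_add_self)
    · refine (h b h1 le_rfl h2).trans ?_
      gcongr
      calc b ^ 2 ≤ a ^ 2 + b ^ 2 := le_add_self
        _ ≤ _ := le_self_add
  · rcases le_total a c with h2 | h2
    · exact (h c h2 (h1.trans h2) le_rfl).trans (by gcongr; exact le_add_self)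
    · refine (h a le_rfl h1 h2).trans ?_
      gcongr
      calc a ^ 2 ≤ a ^ 2 + b ^ 2 := le_self_add
        _ ≤ _ := le_self_add

end Oct_

open Oct_ in
theorem pDD (hK : tKE) (hP : tPlE) : tDD := by
  obtain ⟨K, hK⟩ := hK
  obtain ⟨C1, hC1⟩ := MBS.pPdom 2
  obtain ⟨C2, hC2⟩ := MBS.pMF2 2
  refine ⟨9 * (3 * K + 3 + C1 ^ 2 * C2), fun m f hm hf h2 => ?_⟩
  have hH : Continuous (𝓕 f) := MBS.J8.fourier_cont hf
  have hHm : Measurable (fun ξ => ‖𝓕 f ξ‖ₑ ^ 2) := hH.measurable.enorm.pow_const 2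
  have hc : ∀ j : ℤ, (0 : ℝ) < 2 ^ j := fun j => by positivity
  have hmeas : ∀ j : ℤ, MeasurableSet {ξ : E 2 | (2 : ℝ) ^ j / 2 ≤ ‖ξ‖ ∧ ‖ξ‖ ≤ 2 * 2 ^ j} :=
    fun j => (measurableSet_le measurable_const measurable_norm).inter
      (measurableSet_le measurable_norm measurable_const)
  -- sum over the annuli
  have hann : ∑' j : ℤ, ∫⁻ ξ in {ξ : E 2 | (2 : ℝ) ^ j / 2 ≤ ‖ξ‖ ∧ ‖ξ‖ ≤ 2 * 2 ^ j},
      ‖𝓕 f ξ‖ₑ ^ 2 ≤ 3 * ∫⁻ x, ‖f x‖ₑ ^ 2 := by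
    calc ∑' j : ℤ, ∫⁻ ξ in {ξ : E 2 | (2 : ℝ) ^ j / 2 ≤ ‖ξ‖ ∧ ‖ξ‖ ≤ 2 * 2 ^ j}, ‖𝓕 f ξ‖ₑ ^ 2
        = ∫⁻ ξ, ∑' j : ℤ, ({ξ : E 2 | (2 : ℝ) ^ j / 2 ≤ ‖ξ‖ ∧ ‖ξ‖ ≤ 2 * 2 ^ j}).indicator
          (fun ξ => ‖𝓕 f ξ‖ₑ ^ 2) ξ := by
          rw [lintegral_tsum]
          · refine tsum_congr fun m => ?_
            rw [lintegral_indicator (hmeas m)]
          · exact fun m => (hHm.indicator (hmeas m)).aemeasurable
    _ ≤ ∫⁻ ξ, 3 * ‖𝓕 f ξ‖ₑ ^ 2 := by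
        refine lintegral_mono fun ξ => ?_
        have h1 : ∀ m : ℤ, ({ξ : E 2 | (2 : ℝ) ^ m / 2 ≤ ‖ξ‖ ∧ ‖ξ‖ ≤ 2 * 2 ^ m}).indicator
            (fun ξ => ‖𝓕 f ξ‖ₑ ^ 2) ξ =
            ({m : ℤ | (2 : ℝ) ^ m / 2 ≤ ‖ξ‖ ∧ ‖ξ‖ ≤ 2 * 2 ^ m} : Set ℤ).indicator
              (fun _ => (1 : ℝ≥0∞)) m * ‖𝓕 f ξ‖ₑ ^ 2 := by
          intro m
          by_cases h : (2 : ℝ) ^ m / 2 ≤ ‖ξ‖ ∧ ‖ξ‖ ≤ 2 * 2 ^ m
          · rw [indicator_of_mem (by exact h), indicator_of_mem (by exact h), one_mul]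
          · rw [indicator_of_notMem (by exact h), indicator_of_notMem (by exact h), zero_mul]
        simp only [h1]
        rw [ENNReal.tsum_mul_right]
        exact mul_le_mul_left (MBS.J8.overlap ‖ξ‖) _
    _ = _ := by rw [lintegral_const_mul _ hHm, MBS.J8.plancherel_sq hf h2]
  -- the three parts
  have hAbd : ∀ j : ℤ, ∫⁻ x, AA m f (2 ^ j) x ^ 2 ≤
      K * m * ((lg m : ℕ) : ℝ≥0∞) ^ 5 *
        ∫⁻ ξ in {ξ : E 2 | (2 : ℝ) ^ j / 2 ≤ ‖ξ‖ ∧ ‖ξ‖ ≤ 2 * 2 ^ j}, ‖𝓕 f ξ‖ₑ ^ 2 := by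
    intro j
    have h3 := hK m (2 ^ j) ({ξ : E 2 | ‖ξ‖ ≤ 2 * (2 : ℝ) ^ j}.indicator (𝓕 f)) hm (hc j)
      (big_BdE hH _)
    have h4 : ∀ x, (⨆ k ∈ Finset.range (2 ^ m),
        ‖IE ({ξ : E 2 | (2 : ℝ) ^ j ≤ ‖ξ‖ ∧ ‖ξ‖ < 2 ^ j * (1 + k / 2 ^ m)}.indicator
          ({ξ : E 2 | ‖ξ‖ ≤ 2 * (2 : ℝ) ^ j}.indicator (𝓕 f))) x‖ₑ) = AA m f (2 ^ j) x := by
      intro x
      unfold AA
      refine iSup_congr fun k => iSup_congr fun hk => ?_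
      rw [ind_big m (Finset.mem_range.1 hk) (hc j)]
    simp only [h4] at h3
    refine h3.trans (mul_le_mul' le_rfl ?_)
    have hs1 : MeasurableSet {ξ : E 2 | (2 : ℝ) ^ j ≤ ‖ξ‖ ∧ ‖ξ‖ < 2 * 2 ^ j} :=
      (measurableSet_le measurable_const measurable_norm).inter
        (measurableSet_lt measurable_norm measurable_const)
    calc _ ≤ ∫⁻ ξ in {ξ : E 2 | (2 : ℝ) ^ j ≤ ‖ξ‖ ∧ ‖ξ‖ < 2 * 2 ^ j}, ‖𝓕 f ξ‖ₑ ^ 2 := by
          refine lintegral_mono fun ξ => ?_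
          gcongr
          exact enorm_indicator_le_enorm_self _ _
      _ ≤ _ := by
          refine lintegral_mono_set fun ξ hξ => ⟨?_, hξ.2.le⟩
          have := hξ.1
          have := hc j
          linarith
  have hBbd : ∀ j : ℤ, ∫⁻ x, ‖IE (cut (dm (2 ^ j)) (𝓕 f)) x‖ₑ ^ 2 ≤
      ∫⁻ ξ in {ξ : E 2 | (2 : ℝ) ^ j / 2 ≤ ‖ξ‖ ∧ ‖ξ‖ ≤ 2 * 2 ^ j}, ‖𝓕 f ξ‖ₑ ^ 2 := by
    intro j
    rw [(hP _ (cut_BdE (dm_meas _) (fun ξ => by
      rw [abs_of_nonneg (dm_bd (hc j) ξ).1]; exact (dm_bd (hc j) ξ).2) (2 * 2 ^ j)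
      (fun ξ hξ => (dm_supp (hc j) hξ).2) hH)).2, ← lintegral_indicator (hmeas j)]
    refine lintegral_mono fun ξ => ?_
    by_cases h0 : dm (2 ^ j) ξ = 0
    · unfold cut
      rw [h0]
      simp
    · rw [indicator_of_mem (by exact dm_supp (hc j) h0)]
      gcongr
      unfold cut
      rw [enorm_mul]
      calc _ ≤ 1 * ‖𝓕 f ξ‖ₑ := by
            gcongr
            rw [← ofReal_norm, Complex.norm_real, Real.norm_eq_abs,
              abs_of_nonneg (dm_bd (hc j) ξ).1]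
            exact ENNReal.ofReal_le_one.2 (dm_bd (hc j) ξ).2
        _ = _ := one_mul _
  have hBm : ∀ j : ℤ, Measurable fun x => ‖IE (cut (dm (2 ^ j)) (𝓕 f)) x‖ₑ ^ 2 := by
    intro j
    exact (hP _ (cut_BdE (dm_meas _) (fun ξ => by
      rw [abs_of_nonneg (dm_bd (hc j) ξ).1]; exact (dm_bd (hc j) ξ).2) (2 * 2 ^ j)
      (fun ξ hξ => (dm_supp (hc j) hξ).2) hH)).1.measurable.enorm.pow_const 2
  have hAm : ∀ j : ℤ, Measurable fun x => AA m f (2 ^ j) x ^ 2 := fun j =>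
    (AA_meas hP m hf (hc j)).pow_const 2
  have hfm : AEMeasurable (fun y => ‖f y‖ₑ) := hf.1.enorm
  have hMF : ∫⁻ x, (C1 * MF (fun y => ‖f y‖ₑ) x) ^ 2 ≤ C1 ^ 2 * C2 * ∫⁻ x, ‖f x‖ₑ ^ 2 := by
    have h3 : ∀ x, MF (fun y => ‖f y‖ₑ) x = MF (hfm.mk _) x := fun x => MF_congr hfm.ae_eq_mk x
    simp only [h3, mul_pow]
    rw [lintegral_const_mul _ ((MBS.J11.measurable_MF _).pow_const 2), mul_assoc]
    gcongr
    refine (hC2 _ hfm.measurable_mk).trans (le_of_eq ?_)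
    congr 1
    refine lintegral_congr_ae ?_
    filter_upwards [hfm.ae_eq_mk] with x hx
    rw [← hx]
  have hpt : ∀ x, (⨆ (j : ℤ) (k ∈ Finset.range (2 ^ m)), ‖S f (2 ^ j * (1 + k / 2 ^ m)) x‖ₑ) ^ 2 ≤
      9 * ((∑' j : ℤ, AA m f (2 ^ j) x ^ 2) +
        (∑' j : ℤ, ‖IE (cut (dm (2 ^ j)) (𝓕 f)) x‖ₑ ^ 2) +
        (C1 * MF (fun y => ‖f y‖ₑ) x) ^ 2) := by
    intro x
    set X := 9 * ((∑' j : ℤ, AA m f (2 ^ j) x ^ 2) +
        (∑' j : ℤ, ‖IE (cut (dm (2 ^ j)) (𝓕 f)) x‖ₑ ^ 2) +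
        (C1 * MF (fun y => ‖f y‖ₑ) x) ^ 2) with hX
    have h3 : (⨆ (j : ℤ) (k ∈ Finset.range (2 ^ m)), ‖S f (2 ^ j * (1 + k / 2 ^ m)) x‖ₑ) ≤
        X ^ (1 / 2 : ℝ) := by
      refine iSup_le fun j => iSup₂_le fun k hk => ?_
      have hR : (2 : ℝ) ^ j ≤ 2 ^ j * (1 + k / 2 ^ m) := by
        have h4 : (0 : ℝ) ≤ (k : ℝ) / 2 ^ m := by positivity
        have := hc j
        nlinarith
      have h4 : ‖S f (2 ^ j * (1 + k / 2 ^ m)) x‖ₑ ^ 2 ≤ X := by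
        calc ‖S f (2 ^ j * (1 + k / 2 ^ m)) x‖ₑ ^ 2 ≤
            (AA m f (2 ^ j) x + ‖IE (cut (dm (2 ^ j)) (𝓕 f)) x‖ₑ +
              C1 * MF (fun y => ‖f y‖ₑ) x) ^ 2 := by
              gcongr
              rw [split f hf (hc j) hR x]
              refine (enorm_add_le _ _).trans ?_
              refine add_le_add ((enorm_add_le _ _).trans (add_le_add ?_ le_rfl)) ?_
              · unfold AA
                exact le_iSup₂_of_le k hk le_rfl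
              · refine le_trans ?_ (hC1 f hf x)
                unfold Pstar
                exact le_iSup₂_of_le ((2 : ℝ) ^ j) (hc j) le_rfl
          _ ≤ 9 * (AA m f (2 ^ j) x ^ 2 + ‖IE (cut (dm (2 ^ j)) (𝓕 f)) x‖ₑ ^ 2 +
              (C1 * MF (fun y => ‖f y‖ₑ) x) ^ 2) := sq3 _ _ _
          _ ≤ X := by
              rw [hX]
              gcongr
              · exact ENNReal.le_tsum (f := fun j : ℤ => AA m f (2 ^ j) x ^ 2) j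
              · exact ENNReal.le_tsum
                  (f := fun j : ℤ => ‖IE (cut (dm (2 ^ j)) (𝓕 f)) x‖ₑ ^ 2) j
      calc ‖S f (2 ^ j * (1 + k / 2 ^ m)) x‖ₑ =
          (‖S f (2 ^ j * (1 + k / 2 ^ m)) x‖ₑ ^ 2) ^ (1 / 2 : ℝ) := by
            rw [← ENNReal.rpow_natCast, ← ENNReal.rpow_mul]; norm_num
        _ ≤ X ^ (1 / 2 : ℝ) := ENNReal.rpow_le_rpow h4 (by norm_num)
    calc _ ≤ (X ^ (1 / 2 : ℝ)) ^ 2 := pow_le_pow_left' h3 2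
      _ = X := by rw [← ENNReal.rpow_natCast, ← ENNReal.rpow_mul]; norm_num
  have hone : (1 : ℝ≥0∞) ≤ m * ((lg m : ℕ) : ℝ≥0∞) ^ 5 := by
    have h3 : 1 ≤ m * (lg m) ^ 5 := by
      refine Nat.one_le_iff_ne_zero.2 (Nat.mul_ne_zero (by omega) (pow_ne_zero _ ?_))
      unfold lg
      omega
    exact_mod_cast h3
  have hAs : ∫⁻ x, ∑' j : ℤ, AA m f (2 ^ j) x ^ 2 ≤
      3 * K * (m * ((lg m : ℕ) : ℝ≥0∞) ^ 5) * ∫⁻ x, ‖f x‖ₑ ^ 2 := by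
    rw [lintegral_tsum fun j => (hAm j).aemeasurable]
    calc _ ≤ ∑' j : ℤ, K * m * ((lg m : ℕ) : ℝ≥0∞) ^ 5 *
          ∫⁻ ξ in {ξ : E 2 | (2 : ℝ) ^ j / 2 ≤ ‖ξ‖ ∧ ‖ξ‖ ≤ 2 * 2 ^ j}, ‖𝓕 f ξ‖ₑ ^ 2 :=
          ENNReal.tsum_le_tsum hAbd
      _ ≤ K * m * ((lg m : ℕ) : ℝ≥0∞) ^ 5 * (3 * ∫⁻ x, ‖f x‖ₑ ^ 2) := by
          rw [ENNReal.tsum_mul_left]
          gcongr
      _ = _ := by ring
  have hBs : ∫⁻ x, ∑' j : ℤ, ‖IE (cut (dm (2 ^ j)) (𝓕 f)) x‖ₑ ^ 2 ≤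
      3 * ∫⁻ x, ‖f x‖ₑ ^ 2 := by
    rw [lintegral_tsum fun j => (hBm j).aemeasurable]
    exact (ENNReal.tsum_le_tsum hBbd).trans hann
  calc _ ≤ ∫⁻ x, 9 * ((∑' j : ℤ, AA m f (2 ^ j) x ^ 2) +
        (∑' j : ℤ, ‖IE (cut (dm (2 ^ j)) (𝓕 f)) x‖ₑ ^ 2) +
        (C1 * MF (fun y => ‖f y‖ₑ) x) ^ 2) := lintegral_mono hpt
    _ = 9 * ((∫⁻ x, ∑' j : ℤ, AA m f (2 ^ j) x ^ 2) +
        (∫⁻ x, ∑' j : ℤ, ‖IE (cut (dm (2 ^ j)) (𝓕 f)) x‖ₑ ^ 2) +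
        ∫⁻ x, (C1 * MF (fun y => ‖f y‖ₑ) x) ^ 2) := by
        have mA : Measurable fun x => ∑' j : ℤ, AA m f (2 ^ j) x ^ 2 := Measurable.tsum hAm
        have mB : Measurable fun x => ∑' j : ℤ, ‖IE (cut (dm (2 ^ j)) (𝓕 f)) x‖ₑ ^ 2 :=
          Measurable.tsum hBm
        have mAB : Measurable fun x => (∑' j : ℤ, AA m f (2 ^ j) x ^ 2) +
            ∑' j : ℤ, ‖IE (cut (dm (2 ^ j)) (𝓕 f)) x‖ₑ ^ 2 := mA.add mB
        rw [lintegral_const_mul' _ _ (by norm_num), lintegral_add_left mAB,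
          lintegral_add_left mA]
    _ ≤ 9 * (3 * K * (m * ((lg m : ℕ) : ℝ≥0∞) ^ 5) * (∫⁻ x, ‖f x‖ₑ ^ 2) +
        3 * (m * ((lg m : ℕ) : ℝ≥0∞) ^ 5) * (∫⁻ x, ‖f x‖ₑ ^ 2) +
        C1 ^ 2 * C2 * (m * ((lg m : ℕ) : ℝ≥0∞) ^ 5) * ∫⁻ x, ‖f x‖ₑ ^ 2) := by
        have hB' : 3 * ∫⁻ x, ‖f x‖ₑ ^ 2 ≤
            3 * (m * ((lg m : ℕ) : ℝ≥0∞) ^ 5) * ∫⁻ x, ‖f x‖ₑ ^ 2 := by
          calc _ = 3 * 1 * ∫⁻ x, ‖f x‖ₑ ^ 2 := by ring
            _ ≤ _ := by gcongr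
        have hC' : C1 ^ 2 * C2 * ∫⁻ x, ‖f x‖ₑ ^ 2 ≤
            C1 ^ 2 * C2 * (m * ((lg m : ℕ) : ℝ≥0∞) ^ 5) * ∫⁻ x, ‖f x‖ₑ ^ 2 := by
          calc _ = C1 ^ 2 * C2 * 1 * ∫⁻ x, ‖f x‖ₑ ^ 2 := by ring
            _ ≤ _ := by gcongr
        gcongr
        · exact hBs.trans hB'
        · exact hMF.trans hC'
    _ = _ := by
        push_cast
        ring

end Pool.Agent.KSP
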