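import Pool.Agent.KSP.Targets2
import Pool.Agent.MBS.J1
import Pool.Agent.H25.Plancherel

set_option autoImplicit false

/-! Plancherel for bounded functions of bounded support on the plane. -/

namespace Pool.Agent.KSP

open MeasureTheory FourierTransform Set Filter Topology
open scoped ENNReal NNReal
open Pool.Agent.MBS (E ex T)

namespace PlE_

/-- bounded measurable functions of bounded support are in every `L^p` -/
theorem memLp {h : E 2 → ℂ} (hh : BdE h) (p : ℝ≥0∞) : MemLp h p := by
  obtain ⟨hm, ⟨B, hB⟩, R, hR⟩ := hh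
  have h1 : h = (Metric.closedBall (0 : E 2) R).indicator h := by
    ext ξ
    by_cases hξ : ξ ∈ Metric.closedBall (0 : E 2) R
    · rw [indicator_of_mem hξ]
    · rw [indicator_of_notMem hξ]
      by_contra hne
      exact hξ (by simpa using hR ξ hne)
  rw [h1]
  have h2 : MemLp h p (volume.restrict (Metric.closedBall (0 : E 2) R)) := by
    have : IsFiniteMeasure (volume.restrict (Metric.closedBall (0 : E 2) R)) :=
      ⟨by
        rw [Measure.restrict_apply MeasurableSet.univ, univ_inter]
        exact measure_closedBall_lt_top⟩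
    exact MemLp.of_bound hm.aestronglyMeasurable B (Eventually.of_forall hB)
  exact (memLp_indicator_iff_restrict Metric.isClosed_closedBall.measurableSet).2 h2

theorem integrable {h : E 2 → ℂ} (hh : BdE h) : Integrable h := memLp_one_iff_integrable.1 (memLp hh 1)

theorem IE_eq_fourier (h : E 2 → ℂ) (x : E 2) : IE h x = 𝓕 h (-x) := by
  have h1 := Pool.Agent.MBS.T_eq_fourier (fun _ => (1 : ℝ)) h x
  have h2 : T (fun _ => (1 : ℝ)) h x = IE h x := by
    unfold T IE
    simp
  rw [h2] at h1
  simpa using h1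

end PlE_

theorem pPlE : tPlE := by
  intro h hh
  have h1 := PlE_.integrable hh
  have h2 := PlE_.memLp hh 2
  refine ⟨?_, ?_⟩
  · have h3 : IE h = fun x => 𝓕 h (-x) := funext (PlE_.IE_eq_fourier h)
    rw [h3]
    exact (VectorFourier.fourierIntegral_continuous Real.continuous_fourierChar
      (by exact continuous_inner) h1).comp continuous_neg
  · have key := Pool.Agent.H25.Plancherel.eLpNorm_fourier_eq h1 h2
    rw [eLpNorm_eq_lintegral_rpow_enorm_toReal (by norm_num) (by norm_num),
      eLpNorm_eq_lintegral_rpow_enorm_toReal (by norm_num) (by norm_num)] at key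
    have key2 := ENNReal.rpow_left_injective (x := 1 / (2 : ℝ≥0∞).toReal) (by norm_num) key
    simp only [ENNReal.toReal_ofNat, ENNReal.rpow_ofNat] at key2
    calc ∫⁻ x, ‖IE h x‖ₑ ^ 2 = ∫⁻ x, ‖𝓕 h (-x)‖ₑ ^ 2 := by
          refine lintegral_congr fun x => ?_
          rw [PlE_.IE_eq_fourier]
      _ = ∫⁻ x, ‖𝓕 h x‖ₑ ^ 2 := by
          rw [lintegral_neg_eq_self (fun x => ‖𝓕 h x‖ₑ ^ 2)]
      _ = ∫⁻ ξ, ‖h ξ‖ₑ ^ 2 := key2

end Pool.Agent.KSP

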