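import Pool.Agent.KSP.Targets2
import Pool.Agent.MBS.J1
import Pool.Agent.MBS.J13

set_option autoImplicit false

/-! KSP-PT: pointwise decomposition of `S f R` and measurability (MP_ee701d_an), target `tPt`. -/

namespace Pool.Agent.KSP

open MeasureTheory FourierTransform Set Filter Topology
open scoped ENNReal NNReal
open Pool.Agent.MBS (E ex T S Sstar et ps mul pm Tstar Pstar MF Fam)
open Pool.Agent.MBS.J13

namespace Pt_

lemma muS_fam (m : ℕ) : Fam (muS m) := by
  constructor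
  · have h : ContinuousOn (fun p : ℝ × E 2 => 1 - ‖p.2‖ ^ 2 / p.1 ^ 2) (Ioi 0 ×ˢ univ) := by
      refine continuousOn_const.sub (ContinuousOn.div ?_ ?_ ?_)
      · exact (continuous_snd.norm.pow 2).continuousOn
      · exact (continuous_fst.pow 2).continuousOn
      · rintro ⟨r, ξ⟩ ⟨hr, _⟩
        exact pow_ne_zero 2 (ne_of_gt hr)
    unfold muS
    exact (et_cont.comp_continuousOn (continuousOn_const.mul h)).sub (et_cont.comp_continuousOn h)
  · intro R hR ξ hξ
    have h1 := scaled_zero hR hξ m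
    have h2 := scaled_zero hR hξ 0
    rw [pow_zero, one_mul] at h2
    rw [muS, h1, h2, sub_zero]

lemma T_muS (m : ℕ) {h : E 2 → ℂ} (hh : Continuous h) {R : ℝ} (hR : 0 < R) (x : E 2) :
    T (fun ξ => et (2 ^ m * (1 - ‖ξ‖ ^ 2 / R ^ 2))) h x = T (pm R) h x + T (muS m R) h x := by
  have h1 := int_scaled hh hR m x
  have h0 : Integrable (fun ξ => ((pm R ξ : ℝ) : ℂ) * (h ξ * ex x ξ)) := by
    have := int_scaled hh hR 0 x
    simpa [pm] using this
  have h2 : Integrable (fun ξ => ((muS m R ξ : ℝ) : ℂ) * (h ξ * ex x ξ)) := by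
    refine (h1.sub h0).congr (Eventually.of_forall fun ξ => ?_)
    simp only [Pi.sub_apply, muS, pm]
    push_cast
    ring
  unfold T
  rw [← integral_add h0 h2]
  congr 1
  ext ξ
  simp only [muS, pm]
  push_cast
  ring

end Pt_

open Pt_

theorem pPt : tPt := by
  intro m f hf
  have hh := fourier_cont hf
  refine ⟨fun R x hR => ?_, ?_⟩
  · have h1 : Tendsto (fun N : ℕ => ‖T (fun ξ => et (2 ^ (N + m) * (1 - ‖ξ‖ ^ 2 / R ^ 2)))
        (𝓕 f) x‖ₑ) atTop (𝓝 ‖S f R x‖ₑ) :=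
      ((tendsto_add_atTop_iff_nat m).2 (T_lim hf hR x)).enorm
    refine le_of_tendsto h1 (Eventually.of_forall fun N => ?_)
    have h2 : T (fun ξ => et (2 ^ (N + m) * (1 - ‖ξ‖ ^ 2 / R ^ 2))) (𝓕 f) x =
        T (pm R) (𝓕 f) x + T (muS m R) (𝓕 f) x +
          ∑ i ∈ Finset.range N, T (mul (i + m) R) (𝓕 f) x := by
      rw [← T_muS m hh hR, T_scaled hh hR, T_scaled hh hR, add_comm N m, Finset.sum_range_add,
        ← add_assoc]
      congr 1
      exact Finset.sum_congr rfl fun i _ => by rw [add_comm m i]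
    rw [h2]
    calc ‖T (pm R) (𝓕 f) x + T (muS m R) (𝓕 f) x +
          ∑ i ∈ Finset.range N, T (mul (i + m) R) (𝓕 f) x‖ₑ
        ≤ ‖T (pm R) (𝓕 f) x + T (muS m R) (𝓕 f) x‖ₑ +
          ‖∑ i ∈ Finset.range N, T (mul (i + m) R) (𝓕 f) x‖ₑ := enorm_add_le _ _
      _ ≤ (‖T (pm R) (𝓕 f) x‖ₑ + ‖T (muS m R) (𝓕 f) x‖ₑ) +
          ∑ i ∈ Finset.range N, ‖T (mul (i + m) R) (𝓕 f) x‖ₑ := by
          gcongr
          · exact enorm_add_le _ _
          · exact enorm_sum_le _ _
      _ ≤ _ := by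
          gcongr
          exact ENNReal.sum_le_tsum _
  · exact sup_rat (G := fun R x => T (muS m R) (𝓕 f) x)
      (fun R hR => T_meas (Fam_meas (muS_fam m) hR) hh)
      (fun x R hR => fam_cont Pool.Agent.MBS.pTcont (muS_fam m) hh x hR)

end Pool.Agent.KSP
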