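import Pool.Agent.KSP.Targets2
import Pool.Agent.MBS.J8

set_option autoImplicit false

/-! KSP bound for disc partial sums (MP_ee701d_an): job KSP-SS, all octaves. -/

namespace Pool.Agent.KSP

open MeasureTheory FourierTransform Set Filter Topology
open scoped ENNReal NNReal
open Pool.Agent.MBS (E ex T S Sstar et ps mul pm Tstar Pstar MF)

namespace SS_

theorem et_cont : Continuous et := by
  unfold et
  exact Real.smoothTransition.continuous.comp (by fun_prop)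

theorem et_zero {u : ℝ} (hu : u ≤ 1 / 4) : et u = 0 := by
  unfold et
  exact Real.smoothTransition.zero_of_nonpos (by linarith)

theorem muS_cont (m : ℕ) (R : ℝ) : Continuous (muS m R) := by
  unfold muS
  exact (et_cont.comp (by fun_prop)).sub (et_cont.comp (by fun_prop))

theorem muS_supp (m : ℕ) {R : ℝ} (hR : 0 < R) : HasCompactSupport (muS m R) := by
  refine HasCompactSupport.intro (isCompact_closedBall (0 : E 2) R) fun ξ hξ => ?_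
  rw [mem_closedBall_zero_iff, not_le] at hξ
  have h1 : 1 ≤ ‖ξ‖ ^ 2 / R ^ 2 := by
    rw [le_div_iff₀ (by positivity), one_mul]
    exact pow_le_pow_left₀ hR.le hξ.le 2
  have h2 : (0 : ℝ) < 2 ^ m := by positivity
  unfold muS
  rw [et_zero (by nlinarith), et_zero (by linarith), sub_zero]

theorem sup_meas (m : ℕ) {c d : ℝ} (hc : 0 < c) {h : E 2 → ℂ} (hh : Continuous h) :
    Measurable fun x => ⨆ R ∈ Icc c d, ‖T (muS m R) h x‖ₑ := by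
  refine LowerSemicontinuous.measurable ?_
  refine lowerSemicontinuous_biSup fun R hR => ?_
  exact (MBS.J8.T_cont (muS_cont m R) (muS_supp m (hc.trans_le hR.1)) hh).enorm.lowerSemicontinuous

theorem pointwise (m : ℕ) (f : E 2 → ℂ) (x : E 2) :
    (⨆ (R : ℝ) (_ : 0 < R), ‖T (muS m R) (𝓕 f) x‖ₑ) ^ 2 ≤
      ∑' j : ℤ, (⨆ R ∈ Icc ((2 : ℝ) ^ j) (2 * 2 ^ j), ‖T (muS m R) (𝓕 f) x‖ₑ) ^ 2 := by
  set S := ∑' j : ℤ, (⨆ R ∈ Icc ((2 : ℝ) ^ j) (2 * 2 ^ j), ‖T (muS m R) (𝓕 f) x‖ₑ) ^ 2 with hS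
  have h1 : (⨆ (R : ℝ) (_ : 0 < R), ‖T (muS m R) (𝓕 f) x‖ₑ) ≤ S ^ (1 / 2 : ℝ) := by
    refine iSup₂_le fun R hR => ?_
    have hk1 : (2 : ℝ) ^ (Int.log 2 R) ≤ R := Int.zpow_log_le_self (by norm_num) hR
    have hk2 : R < (2 : ℝ) ^ (Int.log 2 R + 1) := Int.lt_zpow_succ_log_self (by norm_num) R
    rw [zpow_add_one₀ (by norm_num)] at hk2
    have h2 : ‖T (muS m R) (𝓕 f) x‖ₑ ^ 2 ≤ S := by
      refine le_trans ?_ (ENNReal.le_tsum (Int.log 2 R))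
      refine pow_le_pow_left' ?_ 2
      exact le_iSup₂_of_le R ⟨hk1, by linarith⟩ le_rfl
    calc ‖T (muS m R) (𝓕 f) x‖ₑ = (‖T (muS m R) (𝓕 f) x‖ₑ ^ 2) ^ (1 / 2 : ℝ) := by
          rw [← ENNReal.rpow_natCast, ← ENNReal.rpow_mul]; norm_num
      _ ≤ S ^ (1 / 2 : ℝ) := ENNReal.rpow_le_rpow h2 (by norm_num)
  calc (⨆ (R : ℝ) (_ : 0 < R), ‖T (muS m R) (𝓕 f) x‖ₑ) ^ 2 ≤ (S ^ (1 / 2 : ℝ)) ^ 2 :=
        pow_le_pow_left' h1 2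
    _ = S := by rw [← ENNReal.rpow_natCast, ← ENNReal.rpow_mul]; norm_num

end SS_

open SS_

theorem pSS (h : tSm) : tSS := by
  obtain ⟨C, hC⟩ := h
  refine ⟨C * 3, fun m f hm hf h2 => ?_⟩
  have hmeas : ∀ j : ℤ, MeasurableSet {ξ : E 2 | (2 : ℝ) ^ j / 2 ≤ ‖ξ‖ ∧ ‖ξ‖ ≤ 2 * 2 ^ j} :=
    fun j => (measurableSet_le measurable_const measurable_norm).inter
      (measurableSet_le measurable_norm measurable_const)
  have hFc := MBS.J8.fourier_cont hf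
  have hFm : Measurable (fun ξ => ‖𝓕 f ξ‖ₑ ^ 2) := hFc.measurable.enorm.pow_const 2
  set K : ℝ≥0∞ := C * m * ((lg m : ℕ) : ℝ≥0∞) ^ 5 with hK
  calc ∫⁻ x, (⨆ (R : ℝ) (_ : 0 < R), ‖T (muS m R) (𝓕 f) x‖ₑ) ^ 2
      ≤ ∫⁻ x, ∑' j : ℤ, (⨆ R ∈ Icc ((2 : ℝ) ^ j) (2 * 2 ^ j), ‖T (muS m R) (𝓕 f) x‖ₑ) ^ 2 :=
        lintegral_mono fun x => pointwise m f x
    _ = ∑' j : ℤ, ∫⁻ x, (⨆ R ∈ Icc ((2 : ℝ) ^ j) (2 * 2 ^ j), ‖T (muS m R) (𝓕 f) x‖ₑ) ^ 2 := by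
        rw [lintegral_tsum]
        intro j
        exact ((sup_meas m (by positivity) hFc).pow_const 2).aemeasurable
    _ ≤ ∑' j : ℤ, K * ∫⁻ ξ in {ξ : E 2 | (2 : ℝ) ^ j / 2 ≤ ‖ξ‖ ∧ ‖ξ‖ ≤ 2 * 2 ^ j}, ‖𝓕 f ξ‖ₑ ^ 2 :=
        ENNReal.tsum_le_tsum fun j => hC m _ _ hm (by positivity) hFc
    _ = K * ∫⁻ ξ, ∑' j : ℤ, ({ξ : E 2 | (2 : ℝ) ^ j / 2 ≤ ‖ξ‖ ∧ ‖ξ‖ ≤ 2 * 2 ^ j}).indicator
          (fun ξ => ‖𝓕 f ξ‖ₑ ^ 2) ξ := by
        rw [ENNReal.tsum_mul_left, lintegral_tsum]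
        · congr 1
          refine tsum_congr fun j => ?_
          rw [lintegral_indicator (hmeas j)]
        · exact fun j => (hFm.indicator (hmeas j)).aemeasurable
    _ ≤ K * ∫⁻ ξ, 3 * ‖𝓕 f ξ‖ₑ ^ 2 := by
        refine mul_le_mul_right (lintegral_mono fun ξ => ?_) _
        have h1 : ∀ j : ℤ, ({ξ : E 2 | (2 : ℝ) ^ j / 2 ≤ ‖ξ‖ ∧ ‖ξ‖ ≤ 2 * 2 ^ j}).indicator
            (fun ξ => ‖𝓕 f ξ‖ₑ ^ 2) ξ =
            ({j : ℤ | (2 : ℝ) ^ j / 2 ≤ ‖ξ‖ ∧ ‖ξ‖ ≤ 2 * 2 ^ j} : Set ℤ).indicator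
              (fun _ => (1 : ℝ≥0∞)) j * ‖𝓕 f ξ‖ₑ ^ 2 := by
          intro j
          by_cases h : (2 : ℝ) ^ j / 2 ≤ ‖ξ‖ ∧ ‖ξ‖ ≤ 2 * 2 ^ j
          · rw [indicator_of_mem (by exact h), indicator_of_mem (by exact h), one_mul]
          · rw [indicator_of_notMem (by exact h), indicator_of_notMem (by exact h), zero_mul]
        simp only [h1]
        rw [ENNReal.tsum_mul_right]
        exact mul_le_mul_left (MBS.J8.overlap ‖ξ‖) _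
    _ = ↑(C * 3) * m * ((lg m : ℕ) : ℝ≥0∞) ^ 5 * ∫⁻ x, ‖f x‖ₑ ^ 2 := by
        rw [lintegral_const_mul _ hFm, MBS.J8.plancherel_sq hf h2, ← mul_assoc, hK]
        push_cast
        ring

end Pool.Agent.KSP
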