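import Pool.Agent.KSP.Targets2
import Pool.Agent.MBS.J13

set_option autoImplicit false

/-! KSP bound for disc partial sums (MP_ee701d_an), item Q6: the multipliers `muS` on one octave. -/

namespace Pool.Agent.KSP

open MeasureTheory FourierTransform Set Filter Topology
open scoped ENNReal NNReal
open Pool.Agent.MBS (E ex T S Sstar et ps mul pm Tstar Pstar MF)

namespace Sm_

/-- a Lipschitz cutoff, `0` for `|ξ| ≤ c/2` and `1` for `|ξ| ≥ 7c/10` -/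
noncomputable def th (c : ℝ) (ξ : E 2) : ℝ := min 1 (max 0 ((‖ξ‖ - c / 2) / (c / 5)))

lemma th_cont (c : ℝ) : Continuous (th c) := by
  unfold th
  fun_prop

lemma th_bd (c : ℝ) (ξ : E 2) : 0 ≤ th c ξ ∧ th c ξ ≤ 1 :=
  ⟨le_min zero_le_one (le_max_left _ _), min_le_left _ _⟩

lemma th_one {c : ℝ} (hc : 0 < c) {ξ : E 2} (h : 7 / 10 * c ≤ ‖ξ‖) : th c ξ = 1 := by
  unfold th
  apply min_eq_left
  apply le_max_of_le_right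
  rw [le_div_iff₀ (by linarith)]
  linarith

lemma th_zero {c : ℝ} (hc : 0 < c) {ξ : E 2} (h : ‖ξ‖ ≤ c / 2) : th c ξ = 0 := by
  unfold th
  have : (‖ξ‖ - c / 2) / (c / 5) ≤ 0 := div_nonpos_of_nonpos_of_nonneg (by linarith) (by linarith)
  rw [max_eq_left this]
  exact min_eq_right zero_le_one

lemma muS_eq (m : ℕ) {c R : ℝ} (hc : 0 < c) (hR : R ∈ Icc c (2 * c)) (ξ : E 2) :
    muS m R ξ = et (2 ^ m * (1 - ‖ξ‖ ^ 2 / R ^ 2)) * th c ξ - et (1 - ‖ξ‖ ^ 2 / R ^ 2) * th c ξ := by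
  unfold muS
  rcases le_or_gt (7 / 10 * c) ‖ξ‖ with h | h
  · rw [th_one hc h]
    ring
  · have hR0 : 0 < R := hc.trans_le hR.1
    have h1 : ‖ξ‖ ^ 2 / R ^ 2 ≤ 49 / 100 := by
      rw [div_le_iff₀ (by positivity)]
      have h2 : ‖ξ‖ ^ 2 ≤ (7 / 10 * c) ^ 2 := pow_le_pow_left₀ (norm_nonneg _) h.le 2
      have h3 : c ^ 2 ≤ R ^ 2 := pow_le_pow_left₀ hc.le hR.1 2
      nlinarith
    have h4 : 1 / 2 ≤ 1 - ‖ξ‖ ^ 2 / R ^ 2 := by linarith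
    have h5 : (1 : ℝ) ≤ 2 ^ m := one_le_pow₀ (by norm_num)
    have h6 : 1 / 2 ≤ 2 ^ m * (1 - ‖ξ‖ ^ 2 / R ^ 2) := by nlinarith
    rw [MBS.J13.et_one h4, MBS.J13.et_one h6]
    ring

lemma meas_a (c k R : ℝ) : Measurable (fun ξ : E 2 => et (k * (1 - ‖ξ‖ ^ 2 / R ^ 2)) * th c ξ) := by
  apply Measurable.mul
  · apply (MBS.J13.et_cont.comp _).measurable
    fun_prop
  · exact (th_cont c).measurable

lemma int_a (c k : ℝ) (hk : 0 ≤ k) {R : ℝ} (hR : 0 < R) {h : E 2 → ℂ} (hh : Continuous h) (x : E 2) :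
    Integrable (fun ξ : E 2 => ((et (k * (1 - ‖ξ‖ ^ 2 / R ^ 2)) * th c ξ : ℝ) : ℂ) * (h ξ * ex x ξ)) := by
  refine MBS.J13.integrable_mulT hh (meas_a c k R) (B := 1) (R := R) (fun ξ => ?_) (fun ξ hξ => ?_) x
  · rw [abs_of_nonneg (mul_nonneg (MBS.J13.et_nonneg _) (th_bd c ξ).1)]
    exact mul_le_one₀ (MBS.J13.et_le_one _) (th_bd c ξ).1 (th_bd c ξ).2
  · have h1 := MBS.J13.arg_le hR hξ
    have h2 : k * (1 - ‖ξ‖ ^ 2 / R ^ 2) ≤ 1 / 4 :=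
      (mul_nonpos_of_nonneg_of_nonpos hk h1).trans (by norm_num)
    rw [MBS.J13.et_zero h2, zero_mul]

lemma T_cont_a (c k : ℝ) (hk : 0 ≤ k) {R : ℝ} (hR : 0 < R) {h : E 2 → ℂ} (hh : Continuous h) :
    Continuous (T (fun ξ : E 2 => et (k * (1 - ‖ξ‖ ^ 2 / R ^ 2)) * th c ξ) h) := by
  unfold T
  apply continuous_of_dominated
    (bound := fun ξ => ‖((et (k * (1 - ‖ξ‖ ^ 2 / R ^ 2)) * th c ξ : ℝ) : ℂ) * (h ξ * ex 0 ξ)‖)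
  · exact fun x => (int_a c k hk hR hh x).1
  · intro x
    refine ae_of_all _ fun ξ => ?_
    rw [norm_mul, norm_mul, norm_mul, norm_mul, MBS.J13.ex_norm, MBS.J13.ex_norm]
  · exact (int_a c k hk hR hh 0).norm
  · refine ae_of_all _ fun ξ => ?_
    have : Continuous (fun x => ex x ξ) := MBS.J13.ex_cont.comp (by fun_prop : Continuous fun x : E 2 => (x, ξ))
    fun_prop

lemma sup_meas (c k : ℝ) (hk : 0 ≤ k) (hc : 0 < c) {h : E 2 → ℂ} (hh : Continuous h) :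
    Measurable (fun x => ⨆ R ∈ Icc c (2 * c),
      ‖T (fun ξ : E 2 => et (k * (1 - ‖ξ‖ ^ 2 / R ^ 2)) * th c ξ) h x‖ₑ) := by
  refine LowerSemicontinuous.measurable ?_
  refine lowerSemicontinuous_biSup fun R hR => ?_
  exact (T_cont_a c k hk (hc.trans_le hR.1) hh).enorm.lowerSemicontinuous

lemma T_muS (m : ℕ) {c R : ℝ} (hc : 0 < c) (hR : R ∈ Icc c (2 * c)) {h : E 2 → ℂ} (hh : Continuous h)
    (x : E 2) :
    T (muS m R) h x = T (fun ξ : E 2 => et (2 ^ m * (1 - ‖ξ‖ ^ 2 / R ^ 2)) * th c ξ) h x -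
      T (fun ξ : E 2 => et (1 - ‖ξ‖ ^ 2 / R ^ 2) * th c ξ) h x := by
  have hR0 : 0 < R := hc.trans_le hR.1
  have i1 := int_a c (2 ^ m) (by positivity) hR0 hh x
  have i2 := int_a c 1 (by norm_num) hR0 hh x
  simp only [one_mul] at i2
  unfold T
  rw [← integral_sub i1 i2]
  refine integral_congr_ae (ae_of_all _ fun ξ => ?_)
  simp only
  rw [muS_eq m hc hR ξ]
  push_cast
  ring

lemma sq_add_le (a b : ℝ≥0∞) : (a + b) ^ 2 ≤ 4 * (a ^ 2 + b ^ 2) := by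
  rcases le_total a b with h | h
  · calc (a + b) ^ 2 ≤ (b + b) ^ 2 := by gcongr
      _ = 4 * b ^ 2 := by ring
      _ ≤ 4 * (a ^ 2 + b ^ 2) := by gcongr; exact le_add_self
  · calc (a + b) ^ 2 ≤ (a + a) ^ 2 := by gcongr
      _ = 4 * a ^ 2 := by ring
      _ ≤ 4 * (a ^ 2 + b ^ 2) := by gcongr; exact le_self_add

lemma weight (c : ℝ) (hc : 0 < c) (h : E 2 → ℂ) :
    ∫⁻ ξ in {ξ : E 2 | ‖ξ‖ ≤ 2 * c}, ‖th c ξ‖ₑ ^ 2 * ‖h ξ‖ₑ ^ 2 ≤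
      ∫⁻ ξ in {ξ : E 2 | c / 2 ≤ ‖ξ‖ ∧ ‖ξ‖ ≤ 2 * c}, ‖h ξ‖ₑ ^ 2 := by
  have m1 : MeasurableSet {ξ : E 2 | ‖ξ‖ ≤ 2 * c} := measurableSet_le measurable_norm measurable_const
  have m2 : MeasurableSet {ξ : E 2 | c / 2 ≤ ‖ξ‖ ∧ ‖ξ‖ ≤ 2 * c} :=
    (measurableSet_le measurable_const measurable_norm).inter m1
  rw [← lintegral_indicator m1, ← lintegral_indicator m2]
  refine lintegral_mono fun ξ => ?_
  by_cases h1 : ‖ξ‖ ≤ 2 * c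
  · rw [indicator_of_mem (show ξ ∈ {ξ : E 2 | ‖ξ‖ ≤ 2 * c} from h1)]
    rcases le_or_gt (c / 2) ‖ξ‖ with h2 | h2
    · rw [indicator_of_mem (show ξ ∈ {ξ : E 2 | c / 2 ≤ ‖ξ‖ ∧ ‖ξ‖ ≤ 2 * c} from ⟨h2, h1⟩)]
      have h3 : ‖th c ξ‖ₑ ≤ 1 := by
        rw [Real.enorm_eq_ofReal (th_bd c ξ).1]
        exact ENNReal.ofReal_le_one.2 (th_bd c ξ).2
      calc ‖th c ξ‖ₑ ^ 2 * ‖h ξ‖ₑ ^ 2 ≤ 1 ^ 2 * ‖h ξ‖ₑ ^ 2 := by gcongr
        _ = ‖h ξ‖ₑ ^ 2 := by rw [one_pow, one_mul]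
    · rw [th_zero hc h2.le]
      simp
  · rw [indicator_of_notMem (show ξ ∉ {ξ : E 2 | ‖ξ‖ ≤ 2 * c} from h1)]
    exact bot_le

end Sm_

open Sm_ in
theorem pSm (h1 : tEtm) (h0 : tEt0) : tSm := by
  obtain ⟨C1, hC1⟩ := h1
  obtain ⟨C0, hC0⟩ := h0
  refine ⟨4 * (C1 + C0), fun m c h hm hc hh => ?_⟩
  set I := ∫⁻ ξ in {ξ : E 2 | c / 2 ≤ ‖ξ‖ ∧ ‖ξ‖ ≤ 2 * c}, ‖h ξ‖ₑ ^ 2 with hI
  set A := fun x : E 2 => ⨆ R ∈ Icc c (2 * c),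
      ‖T (fun ξ : E 2 => et (2 ^ m * (1 - ‖ξ‖ ^ 2 / R ^ 2)) * th c ξ) h x‖ₑ with hA
  set B := fun x : E 2 => ⨆ R ∈ Icc c (2 * c),
      ‖T (fun ξ : E 2 => et (1 - ‖ξ‖ ^ 2 / R ^ 2) * th c ξ) h x‖ₑ with hB
  have hAm : Measurable A := sup_meas c (2 ^ m) (by positivity) hc hh
  have b1 : ∫⁻ x, A x ^ 2 ≤ C1 * m * ((lg m : ℕ) : ℝ≥0∞) ^ 5 * I :=
    (hC1 m c (th c) h hm hc (th_cont c) (th_bd c) hh).trans (by gcongr; exact weight c hc h)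
  have b0 : ∫⁻ x, B x ^ 2 ≤ C0 * I :=
    (hC0 c (th c) h hc (th_cont c) (th_bd c) hh).trans (by gcongr; exact weight c hc h)
  have hm1 : (1 : ℝ≥0∞) ≤ m := by exact_mod_cast hm
  have hl1 : (1 : ℝ≥0∞) ≤ ((lg m : ℕ) : ℝ≥0∞) := by
    have : 1 ≤ lg m := by unfold lg; omega
    exact_mod_cast this
  have b0' : ∫⁻ x, B x ^ 2 ≤ C0 * m * ((lg m : ℕ) : ℝ≥0∞) ^ 5 * I := by
    refine b0.trans ?_
    calc (C0 : ℝ≥0∞) * I = C0 * 1 * 1 ^ 5 * I := by ring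
      _ ≤ C0 * m * ((lg m : ℕ) : ℝ≥0∞) ^ 5 * I := by gcongr
  calc ∫⁻ x, (⨆ R ∈ Icc c (2 * c), ‖T (muS m R) h x‖ₑ) ^ 2
      ≤ ∫⁻ x, 4 * (A x ^ 2 + B x ^ 2) := by
        refine lintegral_mono fun x => ?_
        refine le_trans ?_ (sq_add_le (A x) (B x))
        gcongr
        refine iSup₂_le fun R hR => ?_
        rw [T_muS m hc hR hh x]
        refine (enorm_sub_le).trans (add_le_add ?_ ?_)
        · exact le_iSup₂_of_le R hR le_rfl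
        · exact le_iSup₂_of_le R hR le_rfl
    _ = 4 * ((∫⁻ x, A x ^ 2) + ∫⁻ x, B x ^ 2) := by
        rw [lintegral_const_mul' _ _ (by norm_num), lintegral_add_left (hAm.pow_const 2)]
    _ ≤ 4 * (C1 * m * ((lg m : ℕ) : ℝ≥0∞) ^ 5 * I + C0 * m * ((lg m : ℕ) : ℝ≥0∞) ^ 5 * I) := by gcongr
    _ = ((4 * (C1 + C0) : ℝ≥0) : ℝ≥0∞) * m * ((lg m : ℕ) : ℝ≥0∞) ^ 5 * I := by
        push_cast
        ring

end Pool.Agent.KSP
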