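import Pool.Agent.KSP.Targets2

set_option autoImplicit false

/-! Q3 of the KSP bound (MP_ee701d_an): two one-dimensional Sobolev inequalities. -/

namespace Pool.Agent.KSP

namespace SobI_

open MeasureTheory Set

/-- One-dimensional Sobolev inequality on `[a,b]`. -/
theorem sobab (a b : ℝ) (hab : a < b) (F F1 : ℝ → ℂ) (l : ℝ) (hl : 0 < l)
    (hc : ContinuousOn F1 (Icc a b))
    (hF : ∀ t ∈ Icc a b, HasDerivAt F (F1 t) t) (R : ℝ) (hR : R ∈ Icc a b) :
    ‖F R‖ ^ 2 ≤ ((b - a)⁻¹ + l) * (∫ r in a..b, ‖F r‖ ^ 2) + l⁻¹ * ∫ r in a..b, ‖F1 r‖ ^ 2 := by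
  have hFc : ContinuousOn F (Icc a b) := fun t ht => (hF t ht).continuousAt.continuousWithinAt
  have hu12 : uIcc a b = Icc a b := uIcc_of_le hab.le
  have cF2 : ContinuousOn (fun t => ‖F t‖ ^ 2) (Icc a b) := hFc.norm.pow 2
  have cF12 : ContinuousOn (fun t => ‖F1 t‖ ^ 2) (Icc a b) := hc.norm.pow 2
  have iF2 : IntervalIntegrable (fun t => ‖F t‖ ^ 2) volume a b :=
    (by rw [hu12]; exact cF2 : ContinuousOn _ (uIcc a b)).intervalIntegrable
  have iF12 : IntervalIntegrable (fun t => ‖F1 t‖ ^ 2) volume a b :=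
    (by rw [hu12]; exact cF12 : ContinuousOn _ (uIcc a b)).intervalIntegrable
  obtain ⟨J, hJ⟩ : ∃ J, J = ∫ r in a..b, (l * ‖F r‖ ^ 2 + l⁻¹ * ‖F1 r‖ ^ 2) := ⟨_, rfl⟩
  have hJ2 : J = l * (∫ r in a..b, ‖F r‖ ^ 2) + l⁻¹ * ∫ r in a..b, ‖F1 r‖ ^ 2 := by
    rw [hJ, intervalIntegral.integral_add (iF2.const_mul _) (iF12.const_mul _),
      intervalIntegral.integral_const_mul, intervalIntegral.integral_const_mul]
  have step : ∀ s ∈ Icc a b, ‖F R‖ ^ 2 ≤ ‖F s‖ ^ 2 + J := by
    intro s hs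
    have hsub : uIcc s R ⊆ Icc a b := by
      intro t ht
      exact (convex_Icc a b).ordConnected.uIcc_subset hs hR ht
    have hder : ∀ t ∈ uIcc s R, HasDerivAt (fun t => ‖F t‖ ^ 2) (2 * inner ℝ (F t) (F1 t)) t :=
      fun t ht => (hF t (hsub ht)).norm_sq
    have cI : ContinuousOn (fun t => 2 * inner ℝ (F t) (F1 t)) (Icc a b) :=
      continuousOn_const.mul (hFc.inner hc)
    have e := intervalIntegral.integral_eq_sub_of_hasDerivAt hder
      (cI.mono hsub).intervalIntegrable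
    have cM : ContinuousOn (fun t => l * ‖F t‖ ^ 2 + l⁻¹ * ‖F1 t‖ ^ 2) (Icc a b) :=
      (continuousOn_const.mul cF2).add (continuousOn_const.mul cF12)
    have hb : |∫ t in s..R, 2 * inner ℝ (F t) (F1 t)| ≤ J := by
      rw [hJ]
      have h1 : |∫ t in s..R, 2 * inner ℝ (F t) (F1 t)| ≤
          |∫ t in s..R, (l * ‖F t‖ ^ 2 + l⁻¹ * ‖F1 t‖ ^ 2)| := by
        have := intervalIntegral.norm_integral_le_abs_of_norm_le (μ := volume) (a := s) (b := R)
          (f := fun t => 2 * inner ℝ (F t) (F1 t))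
          (g := fun t => l * ‖F t‖ ^ 2 + l⁻¹ * ‖F1 t‖ ^ 2) ?_
          (cM.mono hsub).intervalIntegrable
        · exact this
        · refine (ae_restrict_iff' measurableSet_uIoc).mpr
            (Filter.Eventually.of_forall fun t _ => ?_)
          have hi : |inner ℝ (F t) (F1 t)| ≤ ‖F t‖ * ‖F1 t‖ := abs_real_inner_le_norm _ _
          rw [Real.norm_eq_abs, abs_mul, abs_of_pos (by norm_num : (0 : ℝ) < 2)]
          have hsq : 0 ≤ l⁻¹ * (l * ‖F t‖ - ‖F1 t‖) ^ 2 := by positivity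
          have e2 : l⁻¹ * (l * ‖F t‖ - ‖F1 t‖) ^ 2 =
              l * ‖F t‖ ^ 2 + l⁻¹ * ‖F1 t‖ ^ 2 - 2 * (‖F t‖ * ‖F1 t‖) := by
            field_simp
            ring
          linarith
      refine h1.trans ?_
      have hnn : ∀ t, 0 ≤ l * ‖F t‖ ^ 2 + l⁻¹ * ‖F1 t‖ ^ 2 := fun t => by positivity
      rw [← abs_of_nonneg (intervalIntegral.integral_nonneg hab.le
        fun t _ => hnn t)]
      refine intervalIntegral.abs_integral_mono_interval ?_
        (Filter.Eventually.of_forall fun t => hnn t)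
        (by rw [hu12]; exact cM : ContinuousOn _ (uIcc a b)).intervalIntegrable
      rw [uIoc_of_le hab.le]
      intro t ht
      rw [mem_uIoc] at ht
      constructor
      · rcases ht with h | h
        · linarith [hs.1, h.1]
        · linarith [hR.1, h.1]
      · rcases ht with h | h
        · linarith [hR.2, h.2]
        · linarith [hs.2, h.2]
    rw [e] at hb
    have := (abs_le.mp hb).2
    linarith
  have h3 : (∫ _s in a..b, ‖F R‖ ^ 2) ≤ ∫ s in a..b, (‖F s‖ ^ 2 + J) :=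
    intervalIntegral.integral_mono_on hab.le intervalIntegrable_const
      (iF2.add intervalIntegrable_const) step
  rw [intervalIntegral.integral_const, intervalIntegral.integral_add iF2 intervalIntegrable_const,
    intervalIntegral.integral_const, hJ2] at h3
  simp only [smul_eq_mul] at h3
  have hba : 0 < b - a := sub_pos.2 hab
  have h4 := mul_le_mul_of_nonneg_left h3 (inv_nonneg.2 hba.le)
  have e1 : (b - a)⁻¹ * ((b - a) * ‖F R‖ ^ 2) = ‖F R‖ ^ 2 := by field_simp
  rw [e1] at h4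
  refine h4.trans (le_of_eq ?_)
  field_simp
  ring

theorem cs (a b : ℝ) (hab : a < b) (G : ℝ → ℝ) (hG : ContinuousOn G (Icc a b)) :
    (∫ r in a..b, G r) ^ 2 ≤ (b - a) * ∫ r in a..b, G r ^ 2 := by
  have hu : uIcc a b = Icc a b := uIcc_of_le hab.le
  have i1 : IntervalIntegrable G volume a b :=
    (by rw [hu]; exact hG : ContinuousOn _ (uIcc a b)).intervalIntegrable
  have i2 : IntervalIntegrable (fun t => G t ^ 2) volume a b :=
    (by rw [hu]; exact hG.pow 2 : ContinuousOn _ (uIcc a b)).intervalIntegrable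
  obtain ⟨I, hI⟩ : ∃ I, I = ∫ r in a..b, G r := ⟨_, rfl⟩
  have hba : 0 < b - a := sub_pos.2 hab
  have h : 0 ≤ ∫ r in a..b, ((b - a) * G r - I) ^ 2 :=
    intervalIntegral.integral_nonneg hab.le fun t _ => sq_nonneg _
  have e : ∫ r in a..b, ((b - a) * G r - I) ^ 2 =
      (b - a) ^ 2 * (∫ r in a..b, G r ^ 2) - 2 * (b - a) * I * (∫ r in a..b, G r) + (b - a) * I ^ 2 := by
    have : ∀ r, ((b - a) * G r - I) ^ 2 = (b - a) ^ 2 * G r ^ 2 - 2 * (b - a) * I * G r + I ^ 2 := by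
      intro r; ring
    simp only [this]
    rw [intervalIntegral.integral_add ((i2.const_mul _).sub (i1.const_mul _)) intervalIntegrable_const,
      intervalIntegral.integral_sub (i2.const_mul _) (i1.const_mul _),
      intervalIntegral.integral_const_mul, intervalIntegral.integral_const_mul,
      intervalIntegral.integral_const, smul_eq_mul]
  rw [e, ← hI] at h
  rw [← hI]
  have : 0 ≤ (b - a) * ((b - a) * (∫ r in a..b, G r ^ 2) - I ^ 2) := by
    linarith
  have h6 := (mul_nonneg_iff_of_pos_left hba).1 this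
  linarith

theorem sob2 (a b : ℝ) (hab : a < b) (F F1 : ℝ → ℂ)
    (hc : ContinuousOn F1 (Icc a b))
    (hF : ∀ t ∈ Icc a b, HasDerivAt F (F1 t) t) (R : ℝ) (hR : R ∈ Icc a b) :
    ‖F R‖ ^ 2 ≤ 2 * ‖F a‖ ^ 2 + 2 * (b - a) * ∫ r in a..b, ‖F1 r‖ ^ 2 := by
  have hu12 : uIcc a b = Icc a b := uIcc_of_le hab.le
  have hsub : uIcc a R ⊆ Icc a b := by
    rw [uIcc_of_le hR.1]; exact Icc_subset_Icc_right hR.2
  have e := intervalIntegral.integral_eq_sub_of_hasDerivAt (fun t ht => hF t (hsub ht))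
    (hc.mono hsub).intervalIntegrable
  have i1 : IntervalIntegrable (fun t => ‖F1 t‖) volume a b :=
    (by rw [hu12]; exact hc.norm : ContinuousOn _ (uIcc a b)).intervalIntegrable
  have h1 : ‖F R - F a‖ ≤ ∫ r in a..b, ‖F1 r‖ := by
    rw [← e]
    refine (intervalIntegral.norm_integral_le_integral_norm hR.1).trans ?_
    exact intervalIntegral.integral_mono_interval le_rfl hR.1 hR.2
      (Filter.Eventually.of_forall fun t => norm_nonneg _) i1
  have h2 := cs a b hab (fun t => ‖F1 t‖) hc.norm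
  have h3 : ‖F R - F a‖ ^ 2 ≤ (b - a) * ∫ r in a..b, ‖F1 r‖ ^ 2 :=
    (pow_le_pow_left₀ (norm_nonneg _) h1 2).trans h2
  have h4 : ‖F R‖ ≤ ‖F a‖ + ‖F R - F a‖ := by
    calc ‖F R‖ = ‖F a + (F R - F a)‖ := by congr 1; ring
      _ ≤ _ := norm_add_le _ _
  have h5 : ‖F R‖ ^ 2 ≤ 2 * ‖F a‖ ^ 2 + 2 * ‖F R - F a‖ ^ 2 := by
    nlinarith [sq_nonneg (‖F a‖ - ‖F R - F a‖), norm_nonneg (F R)]
  linarith

theorem ofReal_ab {a b : ℝ} (hab : a < b) {F : ℝ → ℂ} (hF : ContinuousOn F (Icc a b)) :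
    ENNReal.ofReal (∫ r in a..b, ‖F r‖ ^ 2) = ∫⁻ r in Icc a b, ‖F r‖ₑ ^ 2 := by
  rw [intervalIntegral.integral_of_le hab.le, ← integral_Icc_eq_integral_Ioc,
    ofReal_integral_eq_lintegral_ofReal]
  · refine lintegral_congr fun r => ?_
    rw [ENNReal.ofReal_pow (norm_nonneg _), ofReal_norm]
  · exact (hF.norm.pow 2).integrableOn_compact isCompact_Icc
  · exact Filter.Eventually.of_forall fun r => by positivity

end SobI_

open SobI_ MeasureTheory Set in
theorem pSobI : tSobI := by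
  intro a b l F F1 hab hl hc hF R hR
  have hFc : ContinuousOn F (Icc a b) := fun t ht => (hF t ht).continuousAt.continuousWithinAt
  have hba : 0 < b - a := sub_pos.2 hab
  have n1 : 0 ≤ ∫ r in a..b, ‖F r‖ ^ 2 :=
    intervalIntegral.integral_nonneg hab.le fun t _ => by positivity
  have n2 : 0 ≤ ∫ r in a..b, ‖F1 r‖ ^ 2 :=
    intervalIntegral.integral_nonneg hab.le fun t _ => by positivity
  have eR : ∀ z : ℂ, ‖z‖ₑ ^ 2 = ENNReal.ofReal (‖z‖ ^ 2) := by
    intro z
    rw [ENNReal.ofReal_pow (norm_nonneg _), ofReal_norm]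
  rw [← ofReal_ab hab hFc, ← ofReal_ab hab hc, eR, eR]
  constructor
  · rw [← ENNReal.ofReal_mul (by positivity), ← ENNReal.ofReal_mul (by positivity),
      ← ENNReal.ofReal_add (by positivity) (by positivity)]
    exact ENNReal.ofReal_le_ofReal (sobab a b hab F F1 l hl hc hF R hR)
  · rw [← ENNReal.ofReal_mul (by positivity), show (2 : ENNReal) = ENNReal.ofReal 2 by simp,
      ← ENNReal.ofReal_mul (by positivity), ← ENNReal.ofReal_add (by positivity) (by positivity)]
    exact ENNReal.ofReal_le_ofReal (sob2 a b hab F F1 hc hF R hR)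

end Pool.Agent.KSP
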