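import Pool.Agent.KSP.All1
import Pool.Agent.KSP.KE
import Pool.Agent.KSP.PlE
import Pool.Agent.KSP.SobI
import Pool.Agent.KSP.Etm
import Pool.Agent.KSP.Et0
import Pool.Agent.KSP.Sm
import Pool.Agent.KSP.SS
import Pool.Agent.KSP.Pt
import Pool.Agent.KSP.Oct
import Pool.Agent.KSP.AH0
import Pool.Agent.KSP.Area
import Pool.Agent.KSP.AH
import Pool.Agent.KSP.FA0
import Pool.Agent.KSP.FA1
import Pool.Agent.KSP.FA2

set_option autoImplicit false

/-! KSP bound for disc partial sums (MP_ee701d_an): assembly of the theorems on `S^*`. -/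

namespace Pool.Agent.KSP

theorem fKE : tKE := pKE fK

theorem fSm : tSm := pSm (pEtm pPlE fKE pSobI) (pEt0 pPlE pSobI)

theorem fSS : tSS := pSS fSm

theorem fDD : tDD := pDD fKE pPlE

theorem fAH : tAH := pAH (pAH0 pPlE) pArea pSobI

theorem fFA0 : tFA0 := pFA0 pPt fSm fAH

theorem fFA1 : tFA1 := pFA1 fFA0

theorem fFA2 : tFA2 := pFA2 fFA1

theorem fFA3 : tFA3 := pFA3 fFA1

end Pool.Agent.KSP
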