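import Pool.Agent.KSP.Targets

set_option autoImplicit false

/-! KSP bound: kernel bound and Parseval for one frequency block, Bessel inequality. -/

namespace Pool.Agent.KSP

open MeasureTheory Set
open scoped ENNReal NNReal ComplexConjugate

namespace Ker_

lemma ee_add (a b : ℝ) : ee (a + b) = ee a * ee b := by
  unfold ee; rw [← Complex.exp_add]; congr 1; push_cast; ring

lemma ee_zero : ee 0 = 1 := by simp [ee]

lemma norm_ee (t : ℝ) : ‖ee t‖ = 1 := by
  unfold ee
  have : (2 * Real.pi * Complex.I * (t : ℂ)) = ((2 * Real.pi * t : ℝ) : ℂ) * Complex.I := by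
    push_cast; ring
  rw [this, Complex.norm_exp_ofReal_mul_I]

lemma conj_ee (t : ℝ) : conj (ee t) = ee (-t) := by
  unfold ee; rw [← Complex.exp_conj]; congr 1
  rw [map_mul, map_mul, map_mul, Complex.conj_I, Complex.conj_ofReal, Complex.conj_ofReal,
    map_ofNat]
  push_cast; ring

lemma cont_ee : Continuous ee := by unfold ee; fun_prop

lemma ee_nat_mul (l : ℕ) (u : ℝ) : ee (l * u) = ee u ^ l := by
  unfold ee; rw [← Complex.exp_nat_mul]; congr 1; push_cast; ring

lemma norm_ee_sub_one (u : ℝ) : ‖ee u - 1‖ = 2 * |Real.sin (Real.pi * u)| := by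
  unfold ee
  have : (2 * Real.pi * Complex.I * (u : ℂ)) = Complex.I * ((2 * Real.pi * u : ℝ) : ℂ) := by
    push_cast; ring
  rw [this, Complex.norm_exp_I_mul_ofReal_sub_one, norm_mul, Real.norm_eq_abs, Real.norm_eq_abs]
  have h2 : 2 * Real.pi * u / 2 = Real.pi * u := by ring
  rw [h2]; simp

lemma sin_lower {u : ℝ} (hu : |u| ≤ 3 / 4) : 2 / 3 * |u| ≤ |Real.sin (Real.pi * u)| := by
  have hpi := Real.pi_pos
  have h1 : |Real.sin (Real.pi * u)| = |Real.sin (Real.pi * |u|)| := by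
    rcases abs_cases u with ⟨h, -⟩ | ⟨h, -⟩
    · rw [h]
    · rw [h, mul_neg, Real.sin_neg, abs_neg]
  rw [h1]
  refine le_trans ?_ (le_abs_self _)
  have hu0 := abs_nonneg u
  rcases le_total |u| (1 / 2) with h | h
  · have := Real.mul_le_sin (x := Real.pi * |u|) (by positivity) (by nlinarith)
    have e : 2 / Real.pi * (Real.pi * |u|) = 2 * |u| := by field_simp
    rw [e] at this
    linarith
  · have h2 : Real.sin (Real.pi * |u|) = Real.sin (Real.pi - Real.pi * |u|) := by
      rw [Real.sin_pi_sub]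
    rw [h2]
    have := Real.mul_le_sin (x := Real.pi - Real.pi * |u|) (by nlinarith) (by nlinarith)
    have e : 2 / Real.pi * (Real.pi - Real.pi * |u|) = 2 * (1 - |u|) := by field_simp
    rw [e] at this
    linarith

/-- the Dirichlet type kernel of a block -/
noncomputable def Dk (j J : ℕ) (u : ℝ) : ℂ :=
  ∑ l ∈ Finset.Ico (J * 2 ^ j) ((J + 1) * 2 ^ j), ee (l * u)

lemma cont_Dk (j J : ℕ) : Continuous (Dk j J) := by
  unfold Dk
  exact continuous_finsetSum _ fun l _ => cont_ee.comp (by fun_prop)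

lemma norm_Dk_le (j J : ℕ) (u : ℝ) : ‖Dk j J u‖ ≤ 2 ^ j := by
  unfold Dk
  refine (norm_sum_le _ _).trans ?_
  simp only [norm_ee, Finset.sum_const, Nat.card_Ico, nsmul_eq_mul, mul_one]
  have : (J + 1) * 2 ^ j - J * 2 ^ j = 2 ^ j := by
    rw [add_mul, one_mul, Nat.add_sub_cancel_left]
  rw [this]
  push_cast
  exact le_rfl

lemma Dk_mul_abs (j J : ℕ) {u : ℝ} (hu : |u| ≤ 3 / 4) : ‖Dk j J u‖ * |u| ≤ 3 / 2 := by
  have hle : J * 2 ^ j ≤ (J + 1) * 2 ^ j := Nat.mul_le_mul_right _ (Nat.le_succ _)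
  have h1 : Dk j J u * (ee u - 1) = ee u ^ ((J + 1) * 2 ^ j) - ee u ^ (J * 2 ^ j) := by
    unfold Dk
    simp only [ee_nat_mul]
    exact geom_sum_Ico_mul _ hle
  have h2 : ‖Dk j J u‖ * (2 * |Real.sin (Real.pi * u)|) ≤ 2 := by
    rw [← norm_ee_sub_one, ← norm_mul, h1]
    refine (norm_sub_le _ _).trans ?_
    rw [norm_pow, norm_pow, norm_ee]
    norm_num
  have h3 := sin_lower hu
  have h4 := norm_nonneg (Dk j J u)
  nlinarith [mul_le_mul_of_nonneg_left h3 h4]

lemma cell_bound (j J : ℕ) {s s' : ℝ} (t : ℕ) (hs1 : -(1 / 4) ≤ s) (hs2 : s < 3 / 4)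
    (ht : t < 2 ^ (j + 1)) (h1 : (t : ℝ) / 2 ^ (j + 2) ≤ s')
    (h2 : s' ≤ ((t : ℝ) + 1) / 2 ^ (j + 2)) :
    ‖Dk j J (s - s')‖ ≤ 18 * 2 ^ j * (1 + |(⌊(2 : ℝ) ^ (j + 2) * s⌋ - t : ℝ)|)⁻¹ := by
  set τ : ℤ := ⌊(2 : ℝ) ^ (j + 2) * s⌋ with hτ
  have hp : (0 : ℝ) < 2 ^ (j + 2) := by positivity
  have hp' : (0 : ℝ) < 2 ^ j := by positivity
  have hpj : (2 : ℝ) ^ (j + 2) = 4 * 2 ^ j := by rw [pow_add]; ring
  have ht' : (t : ℝ) + 1 ≤ 2 ^ (j + 1) := by exact_mod_cast ht
  have hpj1 : (2 : ℝ) ^ (j + 1) = 2 * 2 ^ j := by rw [pow_add]; ring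
  have hs'0 : 0 ≤ s' := le_trans (by positivity) h1
  have hs'1 : s' ≤ 1 / 2 := by
    refine h2.trans ?_
    rw [div_le_iff₀ hp, hpj]
    linarith
  have hu : |s - s'| ≤ 3 / 4 := by
    rw [abs_le]; constructor <;> linarith
  have a1 : (τ : ℝ) ≤ 2 ^ (j + 2) * s := Int.floor_le _
  have a2 : 2 ^ (j + 2) * s < τ + 1 := Int.lt_floor_add_one _
  have b1 : (t : ℝ) ≤ 2 ^ (j + 2) * s' := by
    rw [div_le_iff₀ hp] at h1; linarith
  have b2 : 2 ^ (j + 2) * s' ≤ t + 1 := by
    rw [le_div_iff₀ hp] at h2; linarith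
  have hx0 := abs_nonneg ((τ : ℝ) - t)
  rw [← div_eq_mul_inv, le_div_iff₀ (by positivity)]
  have c1 : |(τ : ℝ) - t| - 1 ≤ 2 ^ (j + 2) * |s - s'| := by
    have : 2 ^ (j + 2) * |s - s'| = |2 ^ (j + 2) * s - 2 ^ (j + 2) * s'| := by
      rw [← mul_sub, abs_mul, abs_of_pos hp]
    rw [this]
    rcases abs_cases ((τ : ℝ) - t) with ⟨h, -⟩ | ⟨h, -⟩
    · rw [h]
      refine le_trans ?_ (le_abs_self _)
      linarith
    · rw [h]
      refine le_trans ?_ (neg_abs_le _ |> fun h => (neg_le.mp h))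
      linarith
  have d0 := norm_nonneg (Dk j J (s - s'))
  have d1 := norm_Dk_le j J (s - s')
  rcases le_total (|(τ : ℝ) - t|) 2 with h | h
  · nlinarith
  · have d2 := Dk_mul_abs j J hu
    have e1 : |(τ : ℝ) - t| / 2 ≤ 2 ^ (j + 2) * |s - s'| := by linarith
    have e2 : ‖Dk j J (s - s')‖ * (|(τ : ℝ) - t| / 2) ≤
        ‖Dk j J (s - s')‖ * (2 ^ (j + 2) * |s - s'|) := mul_le_mul_of_nonneg_left e1 d0
    have e3 : ‖Dk j J (s - s')‖ * (2 ^ (j + 2) * |s - s'|) =
        2 ^ (j + 2) * (‖Dk j J (s - s')‖ * |s - s'|) := by ring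
    have e4 : 2 ^ (j + 2) * (‖Dk j J (s - s')‖ * |s - s'|) ≤ 2 ^ (j + 2) * (3 / 2) :=
      mul_le_mul_of_nonneg_left d2 hp.le
    have e5 : ‖Dk j J (s - s')‖ * |(τ : ℝ) - t| ≤ 12 * 2 ^ j := by
      have : ‖Dk j J (s - s')‖ * |(τ : ℝ) - t| = 2 * (‖Dk j J (s - s')‖ * (|(τ : ℝ) - t| / 2)) := by
        ring
      rw [this]
      calc 2 * (‖Dk j J (s - s')‖ * (|(τ : ℝ) - t| / 2)) ≤ 2 * (2 ^ (j + 2) * (3 / 2)) := by
            linarith
        _ = 12 * 2 ^ j := by rw [hpj]; ring
    nlinarith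

/-! ### integrability -/

variable {g : ℝ → ℂ}

lemma int_g (hg : Bd1 g) : Integrable g := by
  obtain ⟨hm, ⟨B, hB⟩, R, hR⟩ := hg
  have h1 : IntegrableOn g (Icc (-R) R) := by
    refine Measure.integrableOn_of_bounded (M := B) ?_ hm.aestronglyMeasurable (ae_of_all _ hB)
    rw [Real.volume_Icc]; exact ENNReal.ofReal_ne_top
  rw [← integrableOn_univ]
  refine h1.of_forall_sdiff_eq_zero MeasurableSet.univ fun x hx => ?_
  by_contra hne
  have := hR x hne
  rw [abs_le] at this
  exact hx.2 ⟨this.1, this.2⟩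

lemma int_mul (hg : Bd1 g) {F : ℝ → ℂ} (hF : Continuous F) (hb : ∀ s, ‖F s‖ ≤ 1) :
    Integrable (fun s => g s * F s) :=
  (int_g hg).mul_bdd hF.aestronglyMeasurable (ae_of_all _ hb)

lemma hJ_eq (hg : Bd1 g) (j J : ℕ) (s : ℝ) : hJ j g J s = ∫ s', g s' * Dk j J (s - s') := by
  unfold hJ Dk
  simp only [Finset.mul_sum]
  rw [integral_finsetSum]
  · refine Finset.sum_congr rfl fun l _ => ?_
    rw [← integral_mul_const]
    congr 1; ext s'
    rw [mul_assoc, ← ee_add]
    congr 2; ring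
  · intro l _
    exact int_mul hg (cont_ee.comp (by fun_prop)) fun s' => (norm_ee _).le

lemma integral_half {f : ℝ → ℝ} (hf : ∀ s, f s ≠ 0 → 0 ≤ s ∧ s < 1 / 2) {a : ℝ}
    (ha : 1 / 2 ≤ a) : ∫ s, f s = ∫ s in (0 : ℝ)..a, f s := by
  rw [intervalIntegral.integral_of_le (by linarith), ← integral_Icc_eq_integral_Ioc]
  refine (setIntegral_eq_integral_of_forall_compl_eq_zero fun x hx => ?_).symm
  by_contra hne
  have := hf x hne
  exact hx ⟨this.1, by linarith⟩

lemma integral_half' {f : ℝ → ℂ} (hf : ∀ s, f s ≠ 0 → 0 ≤ s ∧ s < 1 / 2) {a : ℝ}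
    (ha : 1 / 2 ≤ a) : ∫ s, f s = ∫ s in (0 : ℝ)..a, f s := by
  rw [intervalIntegral.integral_of_le (by linarith), ← integral_Icc_eq_integral_Ioc]
  refine (setIntegral_eq_integral_of_forall_compl_eq_zero fun x hx => ?_).symm
  by_contra hne
  have := hf x hne
  exact hx ⟨this.1, by linarith⟩

/-! ### orthogonality -/

lemma integral_ee (a : ℝ) (n : ℤ) : ∫ s in a..(a + 1), ee (n * s) = if n = 0 then 1 else 0 := by
  split_ifs with h
  · subst h
    simp [ee]
  · have hc : (2 * Real.pi * Complex.I * n : ℂ) ≠ 0 := by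
      have : (n : ℂ) ≠ 0 := by exact_mod_cast h
      have hp : (Real.pi : ℂ) ≠ 0 := by exact_mod_cast Real.pi_ne_zero
      simp [hp, Complex.I_ne_zero, h]
    have e : ∀ s : ℝ, ee (n * s) = Complex.exp ((2 * Real.pi * Complex.I * n : ℂ) * s) := by
      intro s; unfold ee; congr 1; push_cast; ring
    simp only [e]
    rw [integral_exp_mul_complex hc]
    have e2 : Complex.exp ((2 * Real.pi * Complex.I * n : ℂ) * ((a + 1 : ℝ) : ℂ)) =
        Complex.exp ((2 * Real.pi * Complex.I * n : ℂ) * a) := by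
      have : (2 * Real.pi * Complex.I * n : ℂ) * ((a + 1 : ℝ) : ℂ) =
          (2 * Real.pi * Complex.I * n : ℂ) * a + n * (2 * Real.pi * Complex.I) := by
        push_cast; ring
      rw [this, Complex.exp_add, Complex.exp_int_mul_two_pi_mul_I, mul_one]
    rw [e2, sub_self, zero_div]

lemma parseval (a : ℝ) (S : Finset ℕ) (c : ℕ → ℂ) :
    ∫ s in a..(a + 1), ‖∑ l ∈ S, c l * ee (l * s)‖ ^ 2 = ∑ l ∈ S, ‖c l‖ ^ 2 := by
  have hcont : ∀ l : ℕ, Continuous (fun s : ℝ => ee (l * s)) := fun l =>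
    cont_ee.comp (by fun_prop)
  have h1 : ((∫ s in a..(a + 1), ‖∑ l ∈ S, c l * ee (l * s)‖ ^ 2 : ℝ) : ℂ) =
      ((∑ l ∈ S, ‖c l‖ ^ 2 : ℝ) : ℂ) := by
    rw [← intervalIntegral.integral_ofReal]
    have e : ∀ s : ℝ, ((‖∑ l ∈ S, c l * ee (l * s)‖ ^ 2 : ℝ) : ℂ) =
        ∑ l ∈ S, ∑ l' ∈ S, c l * conj (c l') * ee (((l : ℤ) - l' : ℤ) * s) := by
      intro s
      rw [Complex.ofReal_pow, ← Complex.mul_conj', map_sum, Finset.sum_mul_sum]
      refine Finset.sum_congr rfl fun l _ => Finset.sum_congr rfl fun l' _ => ?_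
      rw [map_mul, conj_ee]
      have : ee ((((l : ℤ) - l' : ℤ) : ℝ) * s) = ee (l * s) * ee (-(l' * s)) := by
        rw [← ee_add]; congr 1; push_cast; ring
      rw [this]; ring
    simp only [e]
    have hci : ∀ (l l' : ℕ), Continuous fun s : ℝ =>
        c l * conj (c l') * ee ((((l : ℤ) - l' : ℤ) : ℝ) * s) := fun l l' =>
      continuous_const.mul (cont_ee.comp (by fun_prop))
    rw [intervalIntegral.integral_finsetSum fun l _ =>
      (continuous_finsetSum _ fun l' _ => hci l l').intervalIntegrable _ _, Complex.ofReal_sum]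
    refine Finset.sum_congr rfl fun l hl => ?_
    rw [intervalIntegral.integral_finsetSum fun l' _ => (hci l l').intervalIntegrable _ _]
    simp only [intervalIntegral.integral_const_mul, integral_ee]
    rw [Finset.sum_eq_single l]
    · simp [Complex.mul_conj']
    · intro l' _ hne
      rw [if_neg, mul_zero]
      intro h0
      apply hne
      omega
    · intro h; exact absurd hl h
  exact_mod_cast h1

end Ker_

open Ker_

theorem pKer : tKer := by
  refine ⟨18, fun j J g hg hsupp => ⟨fun s hs1 hs2 => ?_, ?_⟩⟩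
  · rw [hJ_eq hg]
    have hgn : Integrable (fun s => ‖g s‖) := (int_g hg).norm
    set N : ℕ → ℝ := fun t => (t : ℝ) / 2 ^ (j + 2) with hN
    have hN0 : N 0 = 0 := by simp [hN]
    have hNe : N (2 ^ (j + 1)) = 1 / 2 := by
      simp only [hN]; push_cast
      rw [pow_add, pow_add]
      have : (2 : ℝ) ^ j ≠ 0 := by positivity
      field_simp
    have hint : Integrable (fun s' => ‖g s'‖ * ‖Dk j J (s - s')‖) :=
      hgn.mul_bdd ((cont_Dk j J).comp (by fun_prop)).norm.aestronglyMeasurable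
        (c := 2 ^ j) (ae_of_all _ fun s' => by
          rw [norm_norm]; exact norm_Dk_le j J _)
    calc ‖∫ s', g s' * Dk j J (s - s')‖ ≤ ∫ s', ‖g s' * Dk j J (s - s')‖ :=
          norm_integral_le_integral_norm _
      _ = ∫ s', ‖g s'‖ * ‖Dk j J (s - s')‖ := by simp only [norm_mul]
      _ = ∫ s' in (0 : ℝ)..(1 / 2), ‖g s'‖ * ‖Dk j J (s - s')‖ := by
          refine integral_half (fun s' hs' => hsupp s' ?_) le_rfl
          intro h0; apply hs'; rw [h0, norm_zero, zero_mul]
      _ = ∑ t ∈ Finset.range (2 ^ (j + 1)), ∫ s' in N t..N (t + 1), ‖g s'‖ * ‖Dk j J (s - s')‖ := by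
          rw [intervalIntegral.sum_integral_adjacent_intervals (fun k _ => hint.intervalIntegrable),
            hN0, hNe]
      _ ≤ ∑ t ∈ Finset.range (2 ^ (j + 1)), ∫ s' in N t..N (t + 1), ‖g s'‖ *
            (18 * 2 ^ j * (1 + |(⌊(2 : ℝ) ^ (j + 2) * s⌋ - t : ℝ)|)⁻¹) := by
          refine Finset.sum_le_sum fun t ht => ?_
          rw [Finset.mem_range] at ht
          refine intervalIntegral.integral_mono_on ?_ hint.intervalIntegrable
            (hgn.mul_const _).intervalIntegrable fun s' hs' => ?_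
          · simp only [hN]; push_cast; gcongr; linarith
          · refine mul_le_mul_of_nonneg_left ?_ (norm_nonneg _)
            refine cell_bound j J t hs1 hs2 ht hs'.1 ?_
            have := hs'.2
            simp only [hN] at this
            push_cast at this
            exact this
      _ = _ := by
          rw [Finset.mul_sum]
          refine Finset.sum_congr rfl fun t _ => ?_
          rw [intervalIntegral.integral_mul_const]
          simp only [hN]
          push_cast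
          ring
  · have h1 := parseval (-(1 / 4)) (Finset.Ico (J * 2 ^ j) ((J + 1) * 2 ^ j))
      (fun l => ∫ s', g s' * ee (-(l * s')))
    have e : (-(1 / 4) + 1 : ℝ) = 3 / 4 := by norm_num
    rw [e] at h1
    exact h1

theorem pBes : tBes := by
  intro S g hg hsupp
  set c : ℕ → ℂ := fun l => ∫ s', g s' * ee (-(l * s')) with hc
  set h : ℝ → ℂ := fun s => ∑ l ∈ S, c l * ee (l * s) with hh
  have hhc : Continuous h := by
    refine continuous_finsetSum _ fun l _ => continuous_const.mul (cont_ee.comp (by fun_prop))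
  have hP : ∫ s in (0 : ℝ)..1, ‖h s‖ ^ 2 = ∑ l ∈ S, ‖c l‖ ^ 2 := by
    have := parseval 0 S c
    rw [zero_add] at this
    exact this
  obtain ⟨hm, ⟨B, hB⟩, R, hR⟩ := id hg
  have hgi : Integrable g := int_g hg
  -- integrability of the pieces on [0,1]
  have i1 : IntervalIntegrable (fun s => ‖g s‖ ^ 2) volume 0 1 := by
    refine Integrable.intervalIntegrable ?_
    have : (fun s => ‖g s‖ ^ 2) = fun s => ‖g s‖ * ‖g s‖ := by ext s; ring
    rw [this]
    exact hgi.norm.mul_bdd hm.norm.aestronglyMeasurable (c := B)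
      (ae_of_all _ fun s => by rw [norm_norm]; exact hB s)
  have i2 : IntervalIntegrable (fun s => ‖h s‖ ^ 2) volume 0 1 :=
    (hhc.norm.pow 2).intervalIntegrable _ _
  have i3c : ∀ l : ℕ, IntervalIntegrable (fun s => conj (c l) * (g s * ee (-(l * s)))) volume 0 1 :=
    fun l => ((int_mul hg (cont_ee.comp (by fun_prop)) fun s' =>
      (norm_ee _).le).const_mul _).intervalIntegrable
  have hcross : ∫ s in (0 : ℝ)..1, g s * conj (h s) = ((∑ l ∈ S, ‖c l‖ ^ 2 : ℝ) : ℂ) := by
    have e : ∀ s, g s * conj (h s) = ∑ l ∈ S, conj (c l) * (g s * ee (-(l * s))) := by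
      intro s
      simp only [hh]
      rw [map_sum, Finset.mul_sum]
      refine Finset.sum_congr rfl fun l _ => ?_
      rw [map_mul, conj_ee]; ring
    simp only [e]
    rw [intervalIntegral.integral_finsetSum fun l _ => i3c l]
    push_cast
    refine Finset.sum_congr rfl fun l _ => ?_
    rw [intervalIntegral.integral_const_mul]
    have : ∫ s in (0 : ℝ)..1, g s * ee (-(l * s)) = c l := by
      simp only [hc]
      refine (integral_half' (fun s hs => hsupp s ?_) (by norm_num)).symm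
      intro h0; apply hs; rw [h0, zero_mul]
    rw [this, mul_comm, Complex.mul_conj']
  have i3 : IntervalIntegrable (fun s => g s * conj (h s)) volume 0 1 := by
    have e : (fun s => g s * conj (h s)) = ∑ l ∈ S, fun s => conj (c l) * (g s * ee (-(l * s))) := by
      ext s
      rw [Finset.sum_apply]
      simp only [hh]
      rw [map_sum, Finset.mul_sum]
      refine Finset.sum_congr rfl fun l _ => ?_
      rw [map_mul, conj_ee]; ring
    rw [e]
    exact IntervalIntegrable.sum _ fun l _ => i3c l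
  have hre : ∫ s in (0 : ℝ)..1, (g s * conj (h s)).re = ∑ l ∈ S, ‖c l‖ ^ 2 := by
    have h1 := intervalIntegral.intervalIntegral_eq_integral_uIoc (fun s => g s * conj (h s)) 0 1 volume
    have := congrArg Complex.re hcross
    rw [Complex.ofReal_re] at this
    rw [← this]
    rw [intervalIntegral.integral_of_le zero_le_one, intervalIntegral.integral_of_le zero_le_one]
    have i3' : Integrable (fun s => g s * conj (h s)) (volume.restrict (Ioc 0 1)) := by
      have := i3.1
      exact this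
    exact integral_re i3'
  have hpos : 0 ≤ ∫ s in (0 : ℝ)..1, ‖g s - h s‖ ^ 2 :=
    intervalIntegral.integral_nonneg zero_le_one fun s _ => by positivity
  have hexp : ∫ s in (0 : ℝ)..1, ‖g s - h s‖ ^ 2 =
      (∫ s in (0 : ℝ)..1, ‖g s‖ ^ 2) - 2 * (∑ l ∈ S, ‖c l‖ ^ 2) + ∑ l ∈ S, ‖c l‖ ^ 2 := by
    have e : ∀ s, ‖g s - h s‖ ^ 2 = (‖g s‖ ^ 2 - 2 * (g s * conj (h s)).re) + ‖h s‖ ^ 2 := by
      intro s
      rw [← Complex.normSq_eq_norm_sq, ← Complex.normSq_eq_norm_sq, ← Complex.normSq_eq_norm_sq,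
        Complex.normSq_sub]
      ring
    simp only [e]
    have ire : IntervalIntegrable (fun s => 2 * (g s * conj (h s)).re) volume 0 1 := by
      refine IntervalIntegrable.const_mul ?_ 2
      rw [intervalIntegrable_iff_integrableOn_Ioc_of_le zero_le_one] at i3 ⊢
      exact i3.re
    rw [intervalIntegral.integral_add (i1.sub ire) i2, intervalIntegral.integral_sub i1 ire,
      intervalIntegral.integral_const_mul, hre, hP]
  have hfin : ∫ s, ‖g s‖ ^ 2 = ∫ s in (0 : ℝ)..1, ‖g s‖ ^ 2 := by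
    refine integral_half (fun s hs => hsupp s ?_) (by norm_num)
    intro h0; apply hs; rw [h0]; simp
  rw [hfin]
  linarith

end Pool.Agent.KSP
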