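import Pool.Agent.KSP.Targets

set_option autoImplicit false

/-! Convolution on the Fourier side. -/

namespace Pool.Agent.KSP

open MeasureTheory Set
open scoped ENNReal NNReal ComplexConjugate

namespace Conv_

lemma ee_add (s t : ℝ) : ee (s + t) = ee s * ee t := by
  unfold ee
  rw [← Complex.exp_add]
  congr 1
  push_cast
  ring

lemma norm_ee (t : ℝ) : ‖ee t‖ = 1 := by
  unfold ee
  have h : 2 * (Real.pi : ℂ) * Complex.I * (t : ℂ) = ((2 * Real.pi * t : ℝ) : ℂ) * Complex.I := by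
    push_cast; ring
  rw [h, Complex.norm_exp_ofReal_mul_I]

lemma cont_ee : Continuous ee := by
  unfold ee
  fun_prop

lemma cont_ker (x : ℝ × ℝ) : Continuous fun ξ : ℝ × ℝ => ee (dot x ξ) := by
  refine cont_ee.comp ?_
  unfold dot
  fun_prop

lemma dot_add (x ξ η : ℝ × ℝ) : dot x (ξ + η) = dot x ξ + dot x η := by
  unfold dot
  simp only [Prod.fst_add, Prod.snd_add]
  ring

/-- bounded functions of bounded support are integrable -/
lemma Bd_int {h : ℝ × ℝ → ℂ} (hh : Bd h) : Integrable h := by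
  obtain ⟨hm, ⟨B, hB⟩, R, hR⟩ := hh
  have hS : MeasurableSet (Icc (-R) R ×ˢ Icc (-R) R : Set (ℝ × ℝ)) :=
    measurableSet_Icc.prod measurableSet_Icc
  have hfin : volume (Icc (-R) R ×ˢ Icc (-R) R : Set (ℝ × ℝ)) < ⊤ := by
    have hc : IsCompact (Icc (-R) R ×ˢ Icc (-R) R : Set (ℝ × ℝ)) :=
      isCompact_Icc.prod isCompact_Icc
    exact hc.measure_lt_top
  have hon : IntegrableOn h (Icc (-R) R ×ˢ Icc (-R) R) := by
    refine Measure.integrableOn_of_bounded hfin.ne hm.aestronglyMeasurable (M := B) ?_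
    exact Filter.Eventually.of_forall hB
  rw [← integrableOn_iff_integrable_of_support_subset (s := Icc (-R) R ×ˢ Icc (-R) R)]
  · exact hon
  · intro ξ hξ
    have := hR ξ hξ
    rw [abs_le, abs_le] at this
    exact ⟨⟨this.1.1, this.1.2⟩, ⟨this.2.1, this.2.2⟩⟩

lemma cv_supp (g h : ℝ × ℝ → ℂ) (ζ : ℝ × ℝ) (hζ : cv g h ζ ≠ 0) :
    ∃ η, g η ≠ 0 ∧ h (ζ - η) ≠ 0 := by
  by_contra hcon
  push Not at hcon
  apply hζ
  unfold cv
  have e : (fun η => g η * h (ζ - η)) = fun _ => 0 := by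
    funext η
    by_cases hg : g η = 0
    · rw [hg, zero_mul]
    · rw [hcon η hg, mul_zero]
  rw [e, integral_zero]

lemma cv_bd {g h : ℝ × ℝ → ℂ} (hg : Bd g) (hh : Bd h) : Bd (cv g h) := by
  have hgi := Bd_int hg
  obtain ⟨hgm, ⟨B, hB⟩, R, hR⟩ := hg
  obtain ⟨hhm, ⟨B', hB'⟩, R', hR'⟩ := hh
  refine ⟨?_, ⟨B' * ∫ η, ‖g η‖, ?_⟩, R + R', ?_⟩
  · have hm : Measurable fun p : (ℝ × ℝ) × (ℝ × ℝ) => g p.2 * h (p.1 - p.2) :=
      (hgm.comp measurable_snd).mul (hhm.comp (measurable_fst.sub measurable_snd))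
    have := hm.stronglyMeasurable.integral_prod_right' (ν := (volume : Measure (ℝ × ℝ)))
    exact this.measurable
  · intro ζ
    unfold cv
    calc ‖∫ η, g η * h (ζ - η)‖ ≤ ∫ η, ‖g η * h (ζ - η)‖ := norm_integral_le_integral_norm _
      _ ≤ ∫ η, B' * ‖g η‖ := by
          refine integral_mono_of_nonneg (Filter.Eventually.of_forall fun _ => norm_nonneg _)
            (hgi.norm.const_mul _) (Filter.Eventually.of_forall fun η => ?_)
          show ‖g η * h (ζ - η)‖ ≤ B' * ‖g η‖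
          rw [norm_mul, mul_comm]
          exact mul_le_mul_of_nonneg_right (hB' _) (norm_nonneg _)
      _ = B' * ∫ η, ‖g η‖ := integral_const_mul _ _
  · intro ζ hζ
    obtain ⟨η, h1, h2⟩ := cv_supp g h ζ hζ
    have a1 := hR η h1
    have a2 := hR' _ h2
    rw [Prod.fst_sub, Prod.snd_sub] at a2
    constructor
    · have : ζ.1 = η.1 + (ζ.1 - η.1) := by ring
      rw [this]
      exact (abs_add_le _ _).trans (add_le_add a1.1 a2.1)
    · have : ζ.2 = η.2 + (ζ.2 - η.2) := by ring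
      rw [this]
      exact (abs_add_le _ _).trans (add_le_add a1.2 a2.2)

lemma ex_cv {g h : ℝ × ℝ → ℂ} (hg : Bd g) (hh : Bd h) (x : ℝ × ℝ) :
    Ex (cv g h) x = Ex g x * Ex h x := by
  have hgi := Bd_int hg
  have hhi := Bd_int hh
  have hint : Integrable (fun p : (ℝ × ℝ) × (ℝ × ℝ) => g p.2 * h (p.1 - p.2))
      ((volume : Measure (ℝ × ℝ)).prod volume) :=
    Integrable.convolution_integrand (ContinuousLinearMap.mul ℝ ℂ) hgi hhi
  have hint2 : Integrable (fun p : (ℝ × ℝ) × (ℝ × ℝ) =>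
      g p.2 * h (p.1 - p.2) * ee (dot x p.1)) ((volume : Measure (ℝ × ℝ)).prod volume) := by
    refine hint.mul_bdd (c := 1) ?_ ?_
    · exact ((cont_ker x).comp continuous_fst).aestronglyMeasurable
    · exact Filter.Eventually.of_forall fun p => (norm_ee _).le
  have e1 : Ex (cv g h) x = ∫ ζ, ∫ η, g η * h (ζ - η) * ee (dot x ζ) := by
    unfold Ex cv
    refine integral_congr_ae (Filter.Eventually.of_forall fun ζ => ?_)
    exact (integral_mul_const _ _).symm
  rw [e1, integral_integral_swap hint2]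
  have e2 : ∀ η : ℝ × ℝ, ∫ ζ, g η * h (ζ - η) * ee (dot x ζ) =
      g η * ee (dot x η) * Ex h x := by
    intro η
    have e3 := integral_sub_right_eq_self (μ := (volume : Measure (ℝ × ℝ)))
      (fun ζ : ℝ × ℝ => g η * h ζ * ee (dot x (ζ + η))) η
    have e4 : (fun ζ : ℝ × ℝ => g η * h (ζ - η) * ee (dot x ζ)) =
        fun ζ => g η * h (ζ - η) * ee (dot x (ζ - η + η)) := by
      funext ζ
      rw [sub_add_cancel]
    rw [e4, e3]
    have e5 : (fun ζ : ℝ × ℝ => g η * h ζ * ee (dot x (ζ + η))) =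
        fun ζ => g η * ee (dot x η) * (h ζ * ee (dot x ζ)) := by
      funext ζ
      rw [dot_add, ee_add]
      ring
    rw [e5, integral_const_mul]
    rfl
  simp_rw [e2]
  rw [integral_mul_const]
  rfl

end Conv_

open Conv_ in
theorem pCv : tCv := fun g h hg hh => ⟨cv_bd hg hh, cv_supp g h, ex_cv hg hh⟩

end Pool.Agent.KSP
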