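import Pool.Agent.KSP.Targets
import Pool.Agent.H25.Plancherel

set_option autoImplicit false

/-! KSP-B1: Plancherel on the line and in the plane, and the polarized forms. -/

namespace Pool.Agent.KSP

open MeasureTheory Set FourierTransform
open scoped ENNReal NNReal ComplexConjugate RealInnerProductSpace InnerProductSpace

namespace Base_

section gen

variable {V : Type*} [NormedAddCommGroup V] [InnerProductSpace ℝ V] [FiniteDimensional ℝ V]
  [MeasurableSpace V] [BorelSpace V]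

lemma inv_eq (f : V → ℂ) : (𝓕⁻ f : V → ℂ) = fun w => 𝓕 f (-w) := by
  funext w
  exact Real.fourierInv_eq_fourier_neg f w

lemma gen_cont {f : V → ℂ} (hf : Integrable f) : Continuous (𝓕⁻ f : V → ℂ) := by
  have hcont : Continuous (𝓕 f) :=
    VectorFourier.fourierIntegral_continuous (V := V) (W := V)
      Real.continuous_fourierChar (L := innerₗ V) continuous_inner hf
  rw [inv_eq]
  exact hcont.comp continuous_neg

lemma lint_eq (f : V → ℂ) : ∫⁻ v, ‖f v‖ₑ ^ 2 = eLpNorm f 2 ^ 2 := by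
  have h := eLpNorm_nnreal_pow_eq_lintegral (f := f) (μ := (volume : Measure V))
    (p := (2 : ℝ≥0)) (by norm_num)
  have h2 : ((2 : ℝ≥0) : ℝ≥0∞) = 2 := by norm_num
  have h3 : (((2 : ℝ≥0) : ℝ≥0) : ℝ) = 2 := by norm_num
  rw [h2, h3] at h
  simp only [ENNReal.rpow_two] at h
  exact h.symm

lemma gen_norm {f : V → ℂ} (h1 : Integrable f) (h2 : MemLp f 2) :
    ∫⁻ w, ‖(𝓕⁻ f : V → ℂ) w‖ₑ ^ 2 = ∫⁻ v, ‖f v‖ₑ ^ 2 := by
  rw [inv_eq]
  have e1 : ∫⁻ w : V, ‖𝓕 f (-w)‖ₑ ^ 2 = ∫⁻ w : V, ‖𝓕 f w‖ₑ ^ 2 :=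
    lintegral_neg_eq_self (fun w => ‖𝓕 f w‖ₑ ^ 2)
  rw [e1, lint_eq, lint_eq, Pool.Agent.H25.Plancherel.eLpNorm_fourier_eq h1 h2]

lemma gen_inner {f g : V → ℂ} (hf1 : Integrable f) (hf2 : MemLp f 2) (hg1 : Integrable g)
    (hg2 : MemLp g 2) :
    Integrable (fun w => (𝓕⁻ f : V → ℂ) w * conj ((𝓕⁻ g : V → ℂ) w)) ∧
    ∫ w, (𝓕⁻ f : V → ℂ) w * conj ((𝓕⁻ g : V → ℂ) w) = ∫ v, f v * conj (g v) := by
  rw [inv_eq, inv_eq]
  set F : Lp ℂ 2 (volume : Measure V) := 𝓕 (hf2.toLp f) with hF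
  set G : Lp ℂ 2 (volume : Measure V) := 𝓕 (hg2.toLp g) with hG
  have aF : (F : V → ℂ) =ᵐ[volume] 𝓕 f := Pool.Agent.H25.Plancherel.fourier_ae_eq hf1 hf2
  have aG : (G : V → ℂ) =ᵐ[volume] 𝓕 g := Pool.Agent.H25.Plancherel.fourier_ae_eq hg1 hg2
  have hcongr : (fun w => ⟪(G : V → ℂ) w, (F : V → ℂ) w⟫_ℂ) =ᵐ[volume]
      fun w => 𝓕 f w * conj (𝓕 g w) := by
    filter_upwards [aF, aG] with w h1 h2
    rw [h1, h2, RCLike.inner_apply]
  have hint : Integrable (fun w => 𝓕 f w * conj (𝓕 g w)) :=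
    (L2.integrable_inner G F).congr hcongr
  refine ⟨hint.comp_neg, ?_⟩
  have e1 : ∫ w : V, 𝓕 f (-w) * conj (𝓕 g (-w)) = ∫ w : V, 𝓕 f w * conj (𝓕 g w) :=
    integral_neg_eq_self (fun w => 𝓕 f w * conj (𝓕 g w)) volume
  rw [e1, ← integral_congr_ae hcongr]
  have e2 := Lp.inner_fourier_eq (hg2.toLp g) (hf2.toLp f)
  rw [L2.inner_def, L2.inner_def] at e2
  rw [e2]
  refine integral_congr_ae ?_
  filter_upwards [hf2.coeFn_toLp, hg2.coeFn_toLp] with w h1 h2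
  rw [h1, h2, RCLike.inner_apply]

end gen

/-- bounded measurable functions supported in a set of finite measure -/
lemma memLp_of {α : Type*} [MeasurableSpace α] {μ : Measure α} {h : α → ℂ} (hm : Measurable h)
    {B : ℝ} (hB : ∀ x, ‖h x‖ ≤ B) {S : Set α} (hS : MeasurableSet S) (hSf : μ S < ∞)
    (hz : ∀ x, x ∉ S → h x = 0) (p : ℝ≥0∞) : MemLp h p μ := by
  have e : h = S.indicator h := by
    funext x
    by_cases hx : x ∈ S
    · rw [indicator_of_mem hx]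
    · rw [indicator_of_notMem hx, hz x hx]
  rw [e, memLp_indicator_iff_restrict hS]
  have : IsFiniteMeasure (μ.restrict S) := ⟨by rwa [Measure.restrict_apply_univ]⟩
  exact MemLp.of_bound hm.aestronglyMeasurable B (ae_of_all _ hB)

lemma bd1_memLp {H : ℝ → ℂ} (hH : Bd1 H) (p : ℝ≥0∞) : MemLp H p := by
  obtain ⟨hm, ⟨B, hB⟩, R, hR⟩ := hH
  refine memLp_of hm hB (S := Icc (-R) R) measurableSet_Icc isCompact_Icc.measure_lt_top ?_ p
  intro x hx
  by_contra h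
  exact hx (abs_le.1 (hR x h))

lemma bd_memLp {h : ℝ × ℝ → ℂ} (hh : Bd h) (p : ℝ≥0∞) : MemLp h p := by
  obtain ⟨hm, ⟨B, hB⟩, R, hR⟩ := hh
  refine memLp_of hm hB (S := Icc (-R) R ×ˢ Icc (-R) R) (measurableSet_Icc.prod measurableSet_Icc)
    (isCompact_Icc.prod isCompact_Icc).measure_lt_top ?_ p
  intro x hx
  by_contra h
  exact hx ⟨abs_le.1 (hR x h).1, abs_le.1 (hR x h).2⟩

lemma Ex1_eq (H : ℝ → ℂ) : Ex1 H = (𝓕⁻ H : ℝ → ℂ) := by
  funext s
  rw [Real.fourierInv_eq', Ex1]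
  congr 1
  funext τ
  rw [ee, smul_eq_mul, mul_comm]
  congr 2
  have : (inner ℝ τ s : ℝ) = s * τ := by simp [inner]
  rw [this]
  push_cast
  ring

/-- the plane as an inner product space -/
abbrev P2 : Type := WithLp 2 (ℝ × ℝ)

/-- transfer of a function -/
def tr (h : ℝ × ℝ → ℂ) : P2 → ℂ := fun v => h (WithLp.ofLp v)

lemma mp : MeasurePreserving (WithLp.ofLp : P2 → ℝ × ℝ) := WithLp.volume_preserving_ofLp ℝ ℝ

lemma memb : MeasurableEmbedding (WithLp.ofLp : P2 → ℝ × ℝ) :=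
  (MeasurableEquiv.toLp 2 (ℝ × ℝ)).symm.measurableEmbedding

lemma Ex_eq (h : ℝ × ℝ → ℂ) (v : P2) : Ex h (WithLp.ofLp v) = (𝓕⁻ (tr h) : P2 → ℂ) v := by
  rw [Real.fourierInv_eq', Ex, ← mp.integral_comp memb]
  congr 1
  funext w
  rw [ee, smul_eq_mul, mul_comm, tr]
  congr 2
  have : (inner ℝ w v : ℝ) = dot (WithLp.ofLp v) (WithLp.ofLp w) := by
    rw [WithLp.prod_inner_apply, dot]
    simp [inner]
  rw [this]
  push_cast
  ring

lemma tr_memLp {h : ℝ × ℝ → ℂ} (hh : Bd h) (p : ℝ≥0∞) : MemLp (tr h) p :=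
  (bd_memLp hh p).comp_measurePreserving mp

lemma tr_int {h : ℝ × ℝ → ℂ} (hh : Bd h) : Integrable (tr h) := memLp_one_iff_integrable.1
  (tr_memLp hh 1)

end Base_

open Base_

theorem pPl1 : tPl1 := by
  intro H hH
  have h1 : Integrable H := memLp_one_iff_integrable.1 (bd1_memLp hH 1)
  rw [Ex1_eq]
  exact ⟨gen_cont h1, gen_norm h1 (bd1_memLp hH 2)⟩

theorem pPo1 : tPo1 := by
  intro H K hH hK
  have h1 : Integrable H := memLp_one_iff_integrable.1 (bd1_memLp hH 1)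
  have k1 : Integrable K := memLp_one_iff_integrable.1 (bd1_memLp hK 1)
  rw [Ex1_eq, Ex1_eq]
  exact gen_inner h1 (bd1_memLp hH 2) k1 (bd1_memLp hK 2)

theorem pPl2 : tPl2 := by
  intro h hh
  constructor
  · have h1 : Ex h = fun x => (𝓕⁻ (tr h) : P2 → ℂ) (WithLp.toLp 2 x) := by
      funext x
      rw [← Ex_eq]
    rw [h1]
    exact (gen_cont (tr_int hh)).comp (WithLp.prod_continuous_toLp 2 ℝ ℝ)
  · rw [← mp.lintegral_comp_emb memb, n2, ← mp.lintegral_comp_emb memb]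
    simp only [Ex_eq]
    exact gen_norm (tr_int hh) (tr_memLp hh 2)

theorem pPo2 : tPo2 := by
  intro h k hh hk
  obtain ⟨g1, g2⟩ := gen_inner (tr_int hh) (tr_memLp hh 2) (tr_int hk) (tr_memLp hk 2)
  constructor
  · rw [← mp.integrable_comp_emb memb]
    have : (fun x => Ex h x * conj (Ex k x)) ∘ (WithLp.ofLp : P2 → ℝ × ℝ) =
        fun w => (𝓕⁻ (tr h) : P2 → ℂ) w * conj ((𝓕⁻ (tr k) : P2 → ℂ) w) := by
      funext w
      rw [Function.comp_apply, Ex_eq, Ex_eq]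
    rw [this]
    exact g1
  · rw [← mp.integral_comp memb, ← mp.integral_comp memb]
    simp only [Ex_eq]
    exact g2

end Pool.Agent.KSP
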