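import Pool.Agent.KSP.Base

set_option autoImplicit false

/-! KSP-MV: the main estimate in the right sector, linearised. -/

namespace Pool.Agent.KSP

open MeasureTheory Set
open scoped ENNReal NNReal ComplexConjugate

namespace MV_

lemma cont_nr : Continuous nr := by unfold nr; fun_prop

lemma ms_ann (a b : ℝ) : MeasurableSet (ann a b) := by
  have h1 : MeasurableSet {ξ | a ≤ nr ξ} := measurableSet_le measurable_const cont_nr.measurable
  have h2 : MeasurableSet {ξ | nr ξ < b} := measurableSet_lt cont_nr.measurable measurable_const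
  exact h1.inter h2

lemma bd_ind {h : ℝ × ℝ → ℂ} (hh : Bd h) {s : Set (ℝ × ℝ)} (hs : MeasurableSet s) :
    Bd (s.indicator h) := by
  obtain ⟨h1, ⟨B, hB⟩, R, hR⟩ := hh
  refine ⟨h1.indicator hs, ⟨B, fun ξ => ?_⟩, R, fun ξ hξ => ?_⟩
  · by_cases hx : ξ ∈ s
    · rw [indicator_of_mem hx]
      exact hB ξ
    · rw [indicator_of_notMem hx, norm_zero]
      exact (norm_nonneg _).trans (hB ξ)
  · by_cases hx : ξ ∈ s
    · rw [indicator_of_mem hx] at hξ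
      exact hR ξ hξ
    · rw [indicator_of_notMem hx] at hξ
      exact absurd rfl hξ

lemma norm_ee (t : ℝ) : ‖ee t‖ = 1 := by
  unfold ee
  rw [Complex.norm_exp]
  simp

lemma int_Ex {h : ℝ × ℝ → ℂ} (hh : Bd h) (x : ℝ × ℝ) :
    Integrable (fun ξ => h ξ * ee (dot x ξ)) := by
  have h1 : Integrable h := memLp_one_iff_integrable.1 (Base_.bd_memLp hh 1)
  have hc : Continuous (fun ξ => ee (dot x ξ)) := by unfold ee dot; fun_prop
  refine h1.mono (hh.1.mul hc.measurable).aestronglyMeasurable (ae_of_all _ fun ξ => ?_)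
  rw [norm_mul, norm_ee, mul_one]

/-- radial cut at level `i` -/
noncomputable def rd (m i k : ℕ) : ℝ := 1 + (k / 2 ^ (m - i) : ℕ) / 2 ^ i

/-- partial sums -/
noncomputable def S (h : ℝ × ℝ → ℂ) (m : ℕ) (k : ℝ × ℝ → ℕ) (i : ℕ) (x : ℝ × ℝ) : ℂ :=
  Ex ((ann 1 (rd m i (k x))).indicator h) x

lemma div_div' (m b c k : ℕ) (hbc : b ≤ c) (hc : c ≤ m) :
    k / 2 ^ (m - b) = k / 2 ^ (m - c) / 2 ^ (c - b) := by
  rw [Nat.div_div_eq_div_mul, ← pow_add]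
  congr 2
  omega

lemma one_le_rd (m i k : ℕ) : 1 ≤ rd m i k := by
  unfold rd
  have : (0 : ℝ) ≤ (k / 2 ^ (m - i) : ℕ) / 2 ^ i := by positivity
  linarith

lemma rd_mono (m b c k : ℕ) (hbc : b ≤ c) (hc : c ≤ m) : rd m b k ≤ rd m c k := by
  unfold rd
  rw [div_div' m b c k hbc hc]
  set v := k / 2 ^ (m - c) with hv
  have h1 : v / 2 ^ (c - b) * 2 ^ (c - b) ≤ v := Nat.div_mul_le_self _ _
  have h2 : ((v / 2 ^ (c - b) : ℕ) : ℝ) * 2 ^ (c - b) ≤ v := by exact_mod_cast h1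
  have h3 : (2 : ℝ) ^ c = 2 ^ (c - b) * 2 ^ b := by
    rw [← pow_add]
    congr 1
    omega
  have h4 : ((v / 2 ^ (c - b) : ℕ) : ℝ) / 2 ^ b ≤ (v : ℝ) / 2 ^ c := by
    rw [h3, div_le_div_iff₀ (by positivity) (by positivity)]
    nlinarith [show (0 : ℝ) < 2 ^ b by positivity]
  linarith

lemma Ex_sub {h : ℝ × ℝ → ℂ} (hh : Bd h) {a b : ℝ} (ha : 1 ≤ a) (hab : a ≤ b) (x : ℝ × ℝ) :
    Ex ((ann 1 b).indicator h) x - Ex ((ann 1 a).indicator h) x = Ex ((ann a b).indicator h) x := by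
  unfold Ex
  rw [← integral_sub (int_Ex (bd_ind hh (ms_ann 1 b)) x) (int_Ex (bd_ind hh (ms_ann 1 a)) x)]
  congr 1
  funext ξ
  rw [← sub_mul]
  congr 1
  unfold ann
  by_cases h1 : 1 ≤ nr ξ
  · by_cases h2 : nr ξ < a
    · have h3 : nr ξ < b := h2.trans_le hab
      simp [indicator, h1, h2, h3]
    · have h3 : a ≤ nr ξ := not_lt.1 h2
      simp [indicator, h1, h2, h3]
  · have h3 : ¬ a ≤ nr ξ := fun h => h1 (ha.trans h)
    simp [indicator, h1, h3]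

lemma S_sub {h : ℝ × ℝ → ℂ} (hh : Bd h) (m : ℕ) (k : ℝ × ℝ → ℕ) (b c : ℕ) (hbc : b ≤ c)
    (hc : c ≤ m) (x : ℝ × ℝ) :
    S h m k c x - S h m k b x = Ex ((ann (rd m b (k x)) (rd m c (k x))).indicator h) x :=
  Ex_sub hh (one_le_rd _ _ _) (rd_mono _ _ _ _ hbc hc) x

lemma S_zero (h : ℝ × ℝ → ℂ) (m : ℕ) (k : ℝ × ℝ → ℕ) (x : ℝ × ℝ) (hk : k x < 2 ^ m) :
    S h m k 0 x = 0 := by
  unfold S rd
  have h1 : k x / 2 ^ (m - 0) = 0 := Nat.div_eq_of_lt (by simpa using hk)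
  have h2 : ann 1 (1 + ((0 : ℕ) : ℝ) / 2 ^ 0) = ∅ := by
    ext ξ
    simp only [ann, mem_ofPred_eq, mem_empty_iff_false, iff_false, not_and, not_lt]
    intro h
    simpa using h
  rw [h1, h2, indicator_empty]
  simp [Ex]

lemma meas_diag {g : ℕ → ℝ × ℝ → ℂ} (hg : ∀ v, Measurable (g v)) {k : ℝ × ℝ → ℕ}
    (hk : Measurable k) : Measurable (fun x => g (k x) x) := by
  intro T hT
  have e : (fun x => g (k x) x) ⁻¹' T = ⋃ v : ℕ, (k ⁻¹' {v}) ∩ (g v) ⁻¹' T := by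
    ext x
    simp only [mem_preimage, mem_iUnion, mem_inter_iff, mem_singleton_iff]
    constructor
    · intro h
      exact ⟨k x, rfl, h⟩
    · rintro ⟨v, rfl, h⟩
      exact h
  rw [e]
  exact MeasurableSet.iUnion fun v => (hk (measurableSet_singleton v)).inter (hg v hT)

lemma S_meas {h : ℝ × ℝ → ℂ} (hh : Bd h) (m : ℕ) (k : ℝ × ℝ → ℕ) (hk : Measurable k) (i : ℕ) :
    Measurable (S h m k i) := by
  have h1 : ∀ v : ℕ, Measurable (fun x => Ex ((ann 1 (rd m i v)).indicator h) x) := fun v =>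
    (pPl2 _ (bd_ind hh (ms_ann _ _))).1.measurable
  exact meas_diag h1 hk

lemma badS_mono (m A i j : ℕ) (k : ℝ × ℝ → ℕ) (hij : i ≤ j) (x : ℝ × ℝ)
    (hx : x ∉ badS m A j k) : x ∉ badS m A i k := by
  rintro ⟨l, hl, hu⟩
  exact hx ⟨l, hl.trans hij, hu⟩

lemma sq_sum_le (s : Finset ℕ) (f : ℕ → ℂ) :
    ‖∑ i ∈ s, f i‖ₑ ^ 2 ≤ (s.card : ℝ≥0∞) * ∑ i ∈ s, ‖f i‖ₑ ^ 2 := by
  have h1 : ‖∑ i ∈ s, f i‖ ^ 2 ≤ (s.card : ℝ) * ∑ i ∈ s, ‖f i‖ ^ 2 := by
    refine (pow_le_pow_left₀ (norm_nonneg _) (norm_sum_le _ _) 2).trans ?_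
    exact sq_sum_le_card_mul_sum_sq
  have h2 := ENNReal.ofReal_le_ofReal h1
  rw [ENNReal.ofReal_pow (norm_nonneg _), ofReal_norm, ENNReal.ofReal_mul (by positivity),
    ENNReal.ofReal_natCast, ENNReal.ofReal_sum_of_nonneg (fun i _ => by positivity)] at h2
  refine h2.trans (le_of_eq ?_)
  congr 1
  refine Finset.sum_congr rfl fun i _ => ?_
  rw [ENNReal.ofReal_pow (norm_nonneg _), ofReal_norm]

/-- the greatest level where `x` is not bad -/
noncomputable def iX (m A : ℕ) (k : ℝ × ℝ → ℕ) (x : ℝ × ℝ) : ℕ :=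
  open Classical in Nat.findGreatest (fun i => x ∉ badS m A i k) m

lemma iX_le (m A : ℕ) (k : ℝ × ℝ → ℕ) (x : ℝ × ℝ) : iX m A k x ≤ m := by
  classical
  exact Nat.findGreatest_le _

lemma iX_not (m A : ℕ) (k : ℝ × ℝ → ℕ) (x : ℝ × ℝ) (h : iX m A k x ≠ 0) :
    x ∉ badS m A (iX m A k x) k := by
  classical
  unfold iX at h ⊢
  exact Nat.findGreatest_of_ne_zero rfl h

lemma iX_bad (m A : ℕ) (k : ℝ × ℝ → ℕ) (x : ℝ × ℝ) (i : ℕ) (h : iX m A k x < i) (hi : i ≤ m) :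
    x ∈ badS m A i k := by
  classical
  unfold iX at h
  by_contra hx
  exact Nat.findGreatest_is_greatest h hi hx

/-- second part, pointwise -/
lemma ptV {h : ℝ × ℝ → ℂ} (m A : ℕ) (k : ℝ × ℝ → ℕ) (x : ℝ × ℝ) :
    ‖S h m k m x - S h m k (iX m A k x) x‖ₑ ^ 2 ≤ (m : ℝ≥0∞) * ∑ i ∈ Finset.range m,
      (badS m A (i + 1) k).indicator (fun x => ‖S h m k (i + 1) x - S h m k i x‖ₑ ^ 2) x := by
  set n := iX m A k x with hn
  have hnm : n ≤ m := iX_le m A k x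
  have h1 : S h m k m x - S h m k n x = ∑ i ∈ Finset.Ico n m, (S h m k (i + 1) x - S h m k i x) := by
    rw [Finset.sum_Ico_sub (fun i => S h m k i x) hnm]
  rw [h1]
  refine (sq_sum_le _ _).trans ?_
  refine mul_le_mul' ?_ ?_
  · rw [Nat.card_Ico]
    exact_mod_cast Nat.sub_le _ _
  · have h2 : Finset.Ico n m ⊆ Finset.range m := by
      intro i hi
      rw [Finset.mem_Ico] at hi
      exact Finset.mem_range.2 hi.2
    refine le_trans (le_of_eq ?_) (Finset.sum_le_sum_of_subset h2)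
    refine Finset.sum_congr rfl fun i hi => ?_
    rw [Finset.mem_Ico] at hi
    rw [indicator_of_mem (iX_bad m A k x (i + 1) (by omega) (by omega))]

lemma div_step (n s : ℕ) : 2 ^ s * (n / 2 ^ s) = 2 ^ (s + 1) * (n / 2 ^ (s + 1)) ∨
    2 ^ s * (n / 2 ^ s) = n / 2 ^ (s + 1) * 2 ^ (s + 1) + 2 ^ s := by
  have h1 : n / 2 ^ (s + 1) = n / 2 ^ s / 2 := by
    rw [Nat.div_div_eq_div_mul, pow_succ]
  rw [h1]
  set u := n / 2 ^ s
  rcases Nat.even_or_odd' u with ⟨w, hw | hw⟩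
  · left
    have : u / 2 = w := by omega
    rw [this, hw, pow_succ]
    ring
  · right
    have : u / 2 = w := by omega
    rw [this, hw, pow_succ]
    ring

/-- first part, pointwise -/
lemma ptU {h : ℝ × ℝ → ℂ} (m A : ℕ) (k : ℝ × ℝ → ℕ) (x : ℝ × ℝ) (hk : k x < 2 ^ m) :
    ‖S h m k (iX m A k x) x‖ₑ ^ 2 ≤ ((lg m : ℕ) : ℝ≥0∞) * ∑ s ∈ Finset.range (lg m),
      ∑ q ∈ (Finset.range (m / 2 ^ s)).filter (fun q => q * 2 ^ (s + 1) + 2 ^ s ≤ m),
      ((badS m A (q * 2 ^ (s + 1) + 2 ^ s) k)ᶜ).indicator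
        (fun x => ‖S h m k (q * 2 ^ (s + 1) + 2 ^ s) x - S h m k (q * 2 ^ (s + 1)) x‖ₑ ^ 2) x := by
  set n := iX m A k x with hn
  have hnm : n ≤ m := iX_le m A k x
  set L := lg m with hL
  have hmL : m < 2 ^ L := Nat.lt_pow_succ_log_self (by norm_num) m
  have h0 : S h m k (2 ^ L * (n / 2 ^ L)) x = 0 := by
    rw [Nat.div_eq_of_lt (by omega), mul_zero, S_zero h m k x hk]
  have h1 : S h m k n x = ∑ s ∈ Finset.range L,
      (S h m k (2 ^ s * (n / 2 ^ s)) x - S h m k (2 ^ (s + 1) * (n / 2 ^ (s + 1))) x) := by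
    rw [Finset.sum_range_sub' (fun s => S h m k (2 ^ s * (n / 2 ^ s)) x), h0]
    simp
  rw [h1]
  refine (sq_sum_le _ _).trans ?_
  rw [Finset.card_range]
  refine mul_le_mul' le_rfl (Finset.sum_le_sum fun s hs => ?_)
  rcases div_step n s with h2 | h2
  · rw [h2, sub_self]
    simp
  · have hle : n / 2 ^ (s + 1) * 2 ^ (s + 1) + 2 ^ s ≤ n := by
      rw [← h2]
      exact Nat.mul_div_le _ _
    have hpos : 0 < 2 ^ s := by positivity
    have hn0 : n ≠ 0 := by omega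
    have hx : x ∉ badS m A n k := iX_not m A k x hn0
    have hx' := badS_mono m A _ n k hle x hx
    have hmem : n / 2 ^ (s + 1) ∈ (Finset.range (m / 2 ^ s)).filter
        (fun q => q * 2 ^ (s + 1) + 2 ^ s ≤ m) := by
      rw [Finset.mem_filter, Finset.mem_range]
      refine ⟨?_, hle.trans hnm⟩
      rw [← Nat.succ_le_iff, Nat.le_div_iff_mul_le hpos]
      have h5 : (n / 2 ^ (s + 1)) * 2 ^ s ≤ n / 2 ^ (s + 1) * 2 ^ (s + 1) := by
        exact Nat.mul_le_mul_left _ (Nat.pow_le_pow_right (by norm_num) (Nat.le_succ s))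
      have h6 : (n / 2 ^ (s + 1)).succ * 2 ^ s = (n / 2 ^ (s + 1)) * 2 ^ s + 2 ^ s := by
        rw [Nat.succ_mul]
      rw [h6]
      omega
    refine le_trans (le_of_eq ?_) (Finset.single_le_sum (fun _ _ => zero_le) hmem)
    rw [indicator_of_mem (show x ∈ (badS m A (n / 2 ^ (s + 1) * 2 ^ (s + 1) + 2 ^ s) k)ᶜ from hx')]
    rw [h2, mul_comm (2 ^ (s + 1)) (n / 2 ^ (s + 1))]

lemma lgA (m : ℕ) : lg ((m + 1) ^ 8) ≤ 9 * lg m := by
  have hmL : m < 2 ^ (lg m) := Nat.lt_pow_succ_log_self (by norm_num) m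
  have h1 : (m + 1) ^ 8 ≤ 2 ^ (8 * lg m) := by
    calc (m + 1) ^ 8 ≤ (2 ^ lg m) ^ 8 := Nat.pow_le_pow_left (by omega) 8
      _ = 2 ^ (8 * lg m) := by rw [← pow_mul, mul_comm]
  have h2 : Nat.log 2 ((m + 1) ^ 8) ≤ 8 * lg m := by
    have := Nat.log_mono_right (b := 2) h1
    rwa [Nat.log_pow (by norm_num)] at this
  have h3 : 1 ≤ lg m := by unfold lg; omega
  have h4 : lg ((m + 1) ^ 8) = Nat.log 2 ((m + 1) ^ 8) + 1 := rfl
  omega

lemma lgs (m s : ℕ) (hs : s < lg m) : lg (2 ^ s + 1) ≤ 2 * lg m := by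
  have h1 : 2 ^ s + 1 ≤ 2 ^ (s + 1) := by
    rw [pow_succ]
    have : 0 < 2 ^ s := by positivity
    omega
  have h2 : Nat.log 2 (2 ^ s + 1) ≤ s + 1 := by
    have := Nat.log_mono_right (b := 2) h1
    rwa [Nat.log_pow (by norm_num)] at this
  have h4 : lg (2 ^ s + 1) = Nat.log 2 (2 ^ s + 1) + 1 := rfl
  omega

end MV_

open MV_

theorem pMV (hBl : tBlock) (hB : tBad) (hE : tBadE) : tMV := by
  obtain ⟨C1, hC1⟩ := hBl
  obtain ⟨C2, hC2⟩ := hE
  refine ⟨2 * (2662 * C1 + C2), fun m k h hm hk hk2 hh hV => ?_⟩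
  set A : ℕ := (m + 1) ^ 8 with hA
  have hA1 : 1 ≤ A := Nat.one_le_pow _ _ (by omega)
  set L := lg m with hL
  have hL1 : 1 ≤ L := by rw [hL]; unfold lg; omega
  have hSm : ∀ i, Measurable (S h m k i) := S_meas hh m k hk
  -- the two pointwise majorants
  set f1 : ℕ → ℕ → ℝ × ℝ → ℝ≥0∞ := fun s q =>
    ((badS m A (q * 2 ^ (s + 1) + 2 ^ s) k)ᶜ).indicator
      (fun x => ‖S h m k (q * 2 ^ (s + 1) + 2 ^ s) x - S h m k (q * 2 ^ (s + 1)) x‖ₑ ^ 2) with hf1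
  set f2 : ℕ → ℝ × ℝ → ℝ≥0∞ := fun i =>
    (badS m A (i + 1) k).indicator (fun x => ‖S h m k (i + 1) x - S h m k i x‖ₑ ^ 2) with hf2
  set Q : ℕ → Finset ℕ := fun s =>
    (Finset.range (m / 2 ^ s)).filter (fun q => q * 2 ^ (s + 1) + 2 ^ s ≤ m) with hQ
  have hb : ∀ i ≤ m, MeasurableSet (badS m A i k) := fun i hi => (hB m A i k hA1 hi hk hk2).1
  have hdm : ∀ b c, Measurable (fun x => ‖S h m k c x - S h m k b x‖ₑ ^ 2) := fun b c =>
    ((hSm c).sub (hSm b)).enorm.pow_const 2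
  have hf1m : ∀ s, ∀ q ∈ Q s, Measurable (f1 s q) := by
    intro s q hq
    rw [hQ, Finset.mem_filter] at hq
    exact (hdm _ _).indicator (hb _ hq.2).compl
  have hf2m : ∀ i ∈ Finset.range m, Measurable (f2 i) := by
    intro i hi
    exact (hdm _ _).indicator (hb _ (by rw [Finset.mem_range] at hi; omega))
  -- integral bounds
  have hi1 : ∀ s ∈ Finset.range L, ∀ q ∈ Q s, ∫⁻ x, f1 s q x ≤
      C1 * ((2 ^ s + 1 : ℕ) : ℝ≥0∞) * ((11 * L : ℕ) : ℝ≥0∞) ^ 3 * n2 h := by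
    intro s hs q hq
    rw [Finset.mem_range] at hs
    rw [hQ, Finset.mem_filter] at hq
    obtain ⟨-, hq⟩ := hq
    set b := q * 2 ^ (s + 1) with hbdef
    set c := b + 2 ^ s with hc
    obtain ⟨hmb, -, Λ, hΛ1, hΛ2⟩ := hB m A c k hA1 hq hk hk2
    have hcb : c - b = 2 ^ s := by rw [hc]; exact Nat.add_sub_cancel_left _ _
    have hcont := hC1 b c A (fun x => k x / 2 ^ (m - c)) (badS m A c k)ᶜ Λ h (by omega)
      (Measurable.comp (measurable_from_top (f := fun v : ℕ => v / 2 ^ (m - c))) hk)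
      (fun x => by
        have h1 := hk2 x
        refine Nat.div_lt_of_lt_mul ?_
        rw [← pow_add]
        have : m - c + c = m := by omega
        rwa [this])
      hmb.compl hΛ1 (fun x hx => hΛ2 x hx) hh hV
    rw [hcb] at hcont
    have e1 : ∫⁻ x, f1 s q x = ∫⁻ x in (badS m A c k)ᶜ,
        ‖Ex ((ann (1 + (k x / 2 ^ (m - c) / 2 ^ 2 ^ s : ℕ) / 2 ^ b)
          (1 + ((k x / 2 ^ (m - c) : ℕ) : ℝ) / 2 ^ c)).indicator h) x‖ₑ ^ 2 := by
      rw [hf1]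
      simp only
      rw [lintegral_indicator hmb.compl]
      refine lintegral_congr fun x => ?_
      rw [S_sub hh m k b c (by omega) hq x]
      unfold rd
      rw [div_div' m b c (k x) (by omega) hq, hcb]
    rw [e1]
    refine hcont.trans ?_
    gcongr
    have h1 := lgA m
    have h2 := lgs m s hs
    rw [hA, hL]
    omega
  have hi2 : ∀ i ∈ Finset.range m, ∫⁻ x, f2 i x ≤
      C2 * ((m + 1 : ℕ) : ℝ≥0∞) ^ 2 * ENNReal.ofReal (1 / √A) * n2 h := by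
    intro i hi
    rw [Finset.mem_range] at hi
    have hcont := hC2 m A (i + 1) k h hA1 (by omega) (by omega) hk hk2 hh hV
    have e0 : m - (i + 1) + 1 = m - i := by omega
    have e1 : ∫⁻ x, f2 i x = ∫⁻ x in badS m A (i + 1) k,
        ‖Ex ((ann (1 + (k x / 2 ^ (m - (i + 1) + 1) : ℕ) / 2 ^ (i + 1 - 1))
          (1 + (k x / 2 ^ (m - (i + 1)) : ℕ) / 2 ^ (i + 1))).indicator h) x‖ₑ ^ 2 := by
      rw [hf2]
      simp only
      rw [lintegral_indicator (hb _ (by omega))]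
      refine lintegral_congr fun x => ?_
      rw [S_sub hh m k i (i + 1) (by omega) (by omega) x]
      unfold rd
      rw [e0, Nat.add_sub_cancel]
    rw [e1]
    refine hcont.trans ?_
    gcongr
    omega
  -- the pointwise bound
  have hpt : ∀ x, ‖Ex ((ann 1 (1 + k x / 2 ^ m)).indicator h) x‖ₑ ^ 2 ≤
      2 * ((L : ℝ≥0∞) * ∑ s ∈ Finset.range L, ∑ q ∈ Q s, f1 s q x) +
      2 * ((m : ℝ≥0∞) * ∑ i ∈ Finset.range m, f2 i x) := by
    intro x
    have e1 : Ex ((ann 1 (1 + k x / 2 ^ m)).indicator h) x = S h m k m x := by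
      unfold S rd
      simp
    rw [e1]
    have e2 : S h m k m x = S h m k (iX m A k x) x +
        (S h m k m x - S h m k (iX m A k x) x) := by ring
    have h1 := ptU (h := h) m A k x (hk2 x)
    have h2 := ptV (h := h) m A k x
    have h3 : ∀ u v : ℂ, ‖u + v‖ₑ ^ 2 ≤ 2 * ‖u‖ₑ ^ 2 + 2 * ‖v‖ₑ ^ 2 := by
      intro u v
      have h1 : ‖u + v‖ ^ 2 ≤ 2 * ‖u‖ ^ 2 + 2 * ‖v‖ ^ 2 := by
        have h4 := norm_add_le u v
        nlinarith [norm_nonneg (u + v), norm_nonneg u, norm_nonneg v, sq_nonneg (‖u‖ - ‖v‖)]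
      have h2 := ENNReal.ofReal_le_ofReal h1
      rw [ENNReal.ofReal_add (by positivity) (by positivity), ENNReal.ofReal_mul (by norm_num),
        ENNReal.ofReal_mul (by norm_num), ENNReal.ofReal_pow (norm_nonneg _),
        ENNReal.ofReal_pow (norm_nonneg _), ENNReal.ofReal_pow (norm_nonneg _)] at h2
      simpa [ofReal_norm] using h2
    rw [e2]
    refine (h3 _ _).trans ?_
    exact add_le_add (mul_le_mul' le_rfl h1) (mul_le_mul' le_rfl h2)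
  -- integrate
  have hm1 : Measurable (fun x => ∑ s ∈ Finset.range L, ∑ q ∈ Q s, f1 s q x) :=
    Finset.measurable_fun_sum _ fun s _ => Finset.measurable_fun_sum _ fun q hq => hf1m s q hq
  have hm2 : Measurable (fun x => ∑ i ∈ Finset.range m, f2 i x) :=
    Finset.measurable_fun_sum _ fun i hi => hf2m i hi
  have hI1 : ∫⁻ x, ∑ s ∈ Finset.range L, ∑ q ∈ Q s, f1 s q x ≤
      (L : ℝ≥0∞) * (C1 * (2 * m : ℝ≥0∞) * ((11 * L : ℕ) : ℝ≥0∞) ^ 3 * n2 h) := by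
    rw [lintegral_finsetSum _ fun s _ => Finset.measurable_fun_sum _ fun q hq => hf1m s q hq]
    have : ∀ s ∈ Finset.range L, ∫⁻ x, ∑ q ∈ Q s, f1 s q x ≤
        C1 * (2 * m : ℝ≥0∞) * ((11 * L : ℕ) : ℝ≥0∞) ^ 3 * n2 h := by
      intro s hs
      rw [lintegral_finsetSum _ fun q hq => hf1m s q hq]
      refine (Finset.sum_le_sum (hi1 s hs)).trans ?_
      rw [Finset.sum_const, nsmul_eq_mul]
      have hcard : (Q s).card ≤ m / 2 ^ s := by
        rw [hQ]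
        refine (Finset.card_filter_le _ _).trans ?_
        rw [Finset.card_range]
      have h5 : (Q s).card * (2 ^ s + 1) ≤ 2 * m := by
        have hpos : 0 < 2 ^ s := by positivity
        calc (Q s).card * (2 ^ s + 1) ≤ (m / 2 ^ s) * (2 ^ s + 2 ^ s) := by
              exact Nat.mul_le_mul hcard (by omega)
          _ = 2 * (m / 2 ^ s * 2 ^ s) := by ring
          _ ≤ 2 * m := Nat.mul_le_mul_left 2 (Nat.div_mul_le_self _ _)
      have h6 : ((Q s).card : ℝ≥0∞) * ((2 ^ s + 1 : ℕ) : ℝ≥0∞) ≤ 2 * m := by exact_mod_cast h5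
      calc ((Q s).card : ℝ≥0∞) * (C1 * ((2 ^ s + 1 : ℕ) : ℝ≥0∞) * ((11 * L : ℕ) : ℝ≥0∞) ^ 3 * n2 h)
          = C1 * (((Q s).card : ℝ≥0∞) * ((2 ^ s + 1 : ℕ) : ℝ≥0∞)) *
              ((11 * L : ℕ) : ℝ≥0∞) ^ 3 * n2 h := by ring
        _ ≤ _ := by gcongr
    refine (Finset.sum_le_sum this).trans ?_
    rw [Finset.sum_const, nsmul_eq_mul, Finset.card_range]
  have hsq : √(A : ℝ) = (m + 1) ^ 4 := by
    rw [hA]
    push_cast
    rw [show ((m : ℝ) + 1) ^ 8 = ((m + 1) ^ 4) ^ 2 by ring]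
    exact Real.sqrt_sq (by positivity)
  have hI2 : ∫⁻ x, ∑ i ∈ Finset.range m, f2 i x ≤
      (m : ℝ≥0∞) * (C2 * ((m + 1 : ℕ) : ℝ≥0∞) ^ 2 * ENNReal.ofReal (1 / √A) * n2 h) := by
    rw [lintegral_finsetSum _ hf2m]
    refine (Finset.sum_le_sum hi2).trans ?_
    rw [Finset.sum_const, nsmul_eq_mul, Finset.card_range]
  have hI2' : (m : ℝ≥0∞) * ((m : ℝ≥0∞) *
      (C2 * ((m + 1 : ℕ) : ℝ≥0∞) ^ 2 * ENNReal.ofReal (1 / √A) * n2 h)) ≤ C2 * n2 h := by
    have h7 : (m : ℝ≥0∞) * ((m : ℝ≥0∞) * (((m + 1 : ℕ) : ℝ≥0∞) ^ 2 *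
        ENNReal.ofReal (1 / √A))) ≤ 1 := by
      have e1 : (m : ℝ≥0∞) * ((m : ℝ≥0∞) * (((m + 1 : ℕ) : ℝ≥0∞) ^ 2 *
        ENNReal.ofReal (1 / √A))) = ENNReal.ofReal (m * (m * ((m + 1 : ℕ) ^ 2 * (1 / √A)))) := by
        rw [ENNReal.ofReal_mul (by positivity), ENNReal.ofReal_mul (by positivity),
          ENNReal.ofReal_mul (by positivity), ENNReal.ofReal_pow (by positivity),
          ENNReal.ofReal_natCast, ENNReal.ofReal_natCast]
      rw [e1, hsq]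
      rw [← ENNReal.ofReal_one]
      refine ENNReal.ofReal_le_ofReal ?_
      push_cast
      have hm0 : (0 : ℝ) ≤ m := by positivity
      rw [mul_one_div, ← mul_div_assoc, ← mul_div_assoc, div_le_one (by positivity)]
      have : (m : ℝ) * m ≤ (m + 1) ^ 2 := by nlinarith
      nlinarith [show (0 : ℝ) ≤ (m + 1) ^ 2 by positivity]
    calc (m : ℝ≥0∞) * ((m : ℝ≥0∞) *
          (C2 * ((m + 1 : ℕ) : ℝ≥0∞) ^ 2 * ENNReal.ofReal (1 / √A) * n2 h))
        = C2 * ((m : ℝ≥0∞) * ((m : ℝ≥0∞) * (((m + 1 : ℕ) : ℝ≥0∞) ^ 2 *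
        ENNReal.ofReal (1 / √A)))) * n2 h := by ring
      _ ≤ C2 * 1 * n2 h := by gcongr
      _ = C2 * n2 h := by rw [mul_one]
  calc ∫⁻ x, ‖Ex ((ann 1 (1 + k x / 2 ^ m)).indicator h) x‖ₑ ^ 2
      ≤ ∫⁻ x, (2 * ((L : ℝ≥0∞) * ∑ s ∈ Finset.range L, ∑ q ∈ Q s, f1 s q x) +
          2 * ((m : ℝ≥0∞) * ∑ i ∈ Finset.range m, f2 i x)) := lintegral_mono hpt
    _ = 2 * ((L : ℝ≥0∞) * ∫⁻ x, ∑ s ∈ Finset.range L, ∑ q ∈ Q s, f1 s q x) +
          2 * ((m : ℝ≥0∞) * ∫⁻ x, ∑ i ∈ Finset.range m, f2 i x) := by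
        rw [lintegral_add_left ((hm1.const_mul _).const_mul _), lintegral_const_mul _
          (hm1.const_mul _), lintegral_const_mul _ hm1, lintegral_const_mul _
          (hm2.const_mul _), lintegral_const_mul _ hm2]
    _ ≤ 2 * ((L : ℝ≥0∞) * ((L : ℝ≥0∞) *
          (C1 * (2 * m : ℝ≥0∞) * ((11 * L : ℕ) : ℝ≥0∞) ^ 3 * n2 h))) + 2 * (C2 * n2 h) := by
        refine add_le_add ?_ ?_
        · gcongr
        · refine mul_le_mul' le_rfl (le_trans (mul_le_mul' le_rfl hI2) hI2')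
    _ ≤ 2 * (2662 * C1 * m * (L : ℝ≥0∞) ^ 5 * n2 h) + 2 * (C2 * (m * (L : ℝ≥0∞) ^ 5) * n2 h) := by
        refine add_le_add (le_of_eq ?_) ?_
        · push_cast
          ring
        · refine mul_le_mul' le_rfl (mul_le_mul' ?_ le_rfl)
          have h8 : (1 : ℝ≥0∞) ≤ m * (L : ℝ≥0∞) ^ 5 := by
            have : 1 ≤ m * L ^ 5 := Nat.one_le_iff_ne_zero.2
              (mul_ne_zero (by omega) (pow_ne_zero 5 (by omega)))
            exact_mod_cast this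
          calc (C2 : ℝ≥0∞) = C2 * 1 := (mul_one _).symm
            _ ≤ _ := mul_le_mul' le_rfl h8
    _ = _ := by
        push_cast
        ring

end Pool.Agent.KSP
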