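import Pool.Agent.KSP.Targets3
import Pool.Agent.KSP.Oct

set_option autoImplicit false

/-! The maximal operator over separated radii. -/

namespace Pool.Agent.KSP

open MeasureTheory FourierTransform Set Filter Topology
open scoped ENNReal NNReal
open Pool.Agent.MBS (E ex T S Sstar et ps mul pm Tstar Pstar MF)

namespace DS_

open Oct_

/-- the multiplier `1_{|ξ| < R} - et (2^m u_R)` -/
noncomputable def bm (m : ℕ) (R : ℝ) (ξ : E 2) : ℝ :=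
  ({ξ : E 2 | ‖ξ‖ < R}.indicator 1 ξ) - et (2 ^ m * (1 - ‖ξ‖ ^ 2 / R ^ 2))

lemma et_cont (m : ℕ) (R : ℝ) :
    Continuous fun ξ : E 2 => et (2 ^ m * (1 - ‖ξ‖ ^ 2 / R ^ 2)) :=
  MBS.et_contDiff.continuous.comp (by fun_prop)

lemma bm_meas (m : ℕ) (R : ℝ) : Measurable (bm m R) :=
  (measurable_one.indicator (meas_lt R)).sub (et_cont m R).measurable

lemma et_out (m : ℕ) {R : ℝ} (hR : 0 < R) {ξ : E 2} (h : R ≤ ‖ξ‖) :
    et (2 ^ m * (1 - ‖ξ‖ ^ 2 / R ^ 2)) = 0 := by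
  apply MBS.et_zero
  have h1 : 1 ≤ ‖ξ‖ ^ 2 / R ^ 2 := by
    rw [one_le_div (by positivity)]
    gcongr
  have h2 : (2 : ℝ) ^ m * (1 - ‖ξ‖ ^ 2 / R ^ 2) ≤ 0 :=
    mul_nonpos_of_nonneg_of_nonpos (by positivity) (by linarith)
  linarith

lemma bm_bd (m : ℕ) {R : ℝ} (hR : 0 < R) (ξ : E 2) : 0 ≤ bm m R ξ ∧ bm m R ξ ≤ 1 := by
  unfold bm
  have h0 := MBS.et_nonneg (2 ^ m * (1 - ‖ξ‖ ^ 2 / R ^ 2))
  have h1 := MBS.et_le_one (2 ^ m * (1 - ‖ξ‖ ^ 2 / R ^ 2))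
  by_cases h : ‖ξ‖ < R
  · rw [indicator_of_mem (by exact h), Pi.one_apply]
    constructor <;> linarith
  · rw [indicator_of_notMem (by exact h), et_out m hR (not_lt.1 h)]
    norm_num

lemma bm_supp (m : ℕ) {R : ℝ} (hR : 0 < R) {ξ : E 2} (h : bm m R ξ ≠ 0) :
    R * (1 - (1 / 2) ^ (m + 1)) < ‖ξ‖ ∧ ‖ξ‖ < R := by
  unfold bm at h
  have h3 : ‖ξ‖ < R := by
    by_contra h1
    apply h
    rw [et_out m hR (not_lt.1 h1), indicator_of_notMem (by exact h1), sub_self]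
  refine ⟨?_, h3⟩
  by_contra h1
  push Not at h1
  apply h
  have h2 : et (2 ^ m * (1 - ‖ξ‖ ^ 2 / R ^ 2)) = 1 := by
    apply MBS.et_one
    set t : ℝ := (1 / 2) ^ (m + 1) with ht
    have ht0 : 0 < t := by positivity
    have ht1 : t ≤ 1 := pow_le_one₀ (by norm_num) (by norm_num)
    have h4 : ‖ξ‖ ^ 2 / R ^ 2 ≤ 1 - t := by
      rw [div_le_iff₀ (by positivity)]
      have h5 : ‖ξ‖ ^ 2 ≤ (R * (1 - t)) ^ 2 := by gcongr
      have h6 : (1 - t) ^ 2 ≤ 1 - t := by nlinarith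
      have h7 : (R * (1 - t)) ^ 2 = (1 - t) ^ 2 * R ^ 2 := by ring
      rw [h7] at h5
      exact h5.trans (mul_le_mul_of_nonneg_right h6 (by positivity))
    have h8 : (2 : ℝ) ^ m * t = 1 / 2 := by
      rw [ht, pow_succ, ← mul_assoc, ← mul_pow]
      norm_num
    have h9 : (2 : ℝ) ^ m * t ≤ 2 ^ m * (1 - ‖ξ‖ ^ 2 / R ^ 2) := by
      gcongr
      linarith
    linarith
  rw [h2, indicator_of_mem (by exact h3), Pi.one_apply, sub_self]

lemma bm_BdE (m : ℕ) {R : ℝ} (hR : 0 < R) {H : E 2 → ℂ} (hH : Continuous H) :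
    BdE (cut (bm m R) H) :=
  cut_BdE (bm_meas m R) (fun ξ => by
    rw [abs_of_nonneg (bm_bd m hR ξ).1]; exact (bm_bd m hR ξ).2) R
    (fun ξ hξ => (bm_supp m hR hξ).2.le) hH

/-- splitting of the ball partial sum -/
lemma split (m : ℕ) (f : E 2 → ℂ) (hf : Integrable f) {R : ℝ} (hR : 0 < R) (x : E 2) :
    S f R x = IE (cut (bm m R) (𝓕 f)) x + T (pm R) (𝓕 f) x + T (muS m R) (𝓕 f) x := by
  have hH : Continuous (𝓕 f) := MBS.J8.fourier_cont hf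
  have i1 : Integrable fun ξ => cut (bm m R) (𝓕 f) ξ * ex x ξ := BdE_int (bm_BdE m hR hH) x
  have i2 : Integrable fun ξ => cut (pm R) (𝓕 f) ξ * ex x ξ := by
    refine BdE_int (cut_BdE (pm_cont R).measurable (fun ξ => ?_) R (fun ξ hξ => ?_) hH) x
    · unfold pm
      rw [abs_of_nonneg (MBS.et_nonneg _)]
      exact MBS.et_le_one _
    · by_contra h
      exact hξ (pm_zero hR (not_le.1 h).le)
  have i3 : Integrable fun ξ => cut (muS m R) (𝓕 f) ξ * ex x ξ := by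
    refine BdE_int (cut_BdE ?_ (fun ξ => ?_) R (fun ξ hξ => ?_) hH) x
    · unfold muS
      exact ((et_cont m R).sub (pm_cont R)).measurable
    · unfold muS
      have h0 := MBS.et_nonneg (2 ^ m * (1 - ‖ξ‖ ^ 2 / R ^ 2))
      have h1 := MBS.et_le_one (2 ^ m * (1 - ‖ξ‖ ^ 2 / R ^ 2))
      have h2 := MBS.et_nonneg (1 - ‖ξ‖ ^ 2 / R ^ 2)
      have h3 := MBS.et_le_one (1 - ‖ξ‖ ^ 2 / R ^ 2)
      rw [abs_le]
      constructor <;> linarith
    · by_contra h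
      apply hξ
      have h4 := et_out 0 hR (not_le.1 h).le
      rw [pow_zero, one_mul] at h4
      unfold muS
      rw [et_out m hR (not_le.1 h).le, h4, sub_self]
  have e : ∀ a : E 2 → ℝ, T a (𝓕 f) x = ∫ ξ, cut a (𝓕 f) ξ * ex x ξ := by
    intro a
    unfold T cut
    refine integral_congr_ae (Eventually.of_forall fun ξ => ?_)
    simp only
    ring
  have i12 : Integrable fun ξ => cut (bm m R) (𝓕 f) ξ * ex x ξ +
      cut (pm R) (𝓕 f) ξ * ex x ξ := i1.add i2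
  rw [S_eq, ← integral_indicator (meas_lt R), e, e]
  unfold IE
  rw [← integral_add i1 i2, ← integral_add i12 i3]
  refine integral_congr_ae (Eventually.of_forall fun ξ => ?_)
  simp only [cut, bm, muS, pm, indicator_apply, mem_ofPred_eq, Pi.one_apply]
  by_cases h1 : ‖ξ‖ < R
  · rw [if_pos h1, if_pos h1]
    push_cast
    ring
  · rw [if_neg h1, if_neg h1]
    push_cast
    ring

/-- the supports are disjoint -/
lemma disj {m : ℕ} {δ : ℝ} (hδm : (1 / 2) ^ (m + 1) ≤ δ) {R R' : ℝ} (hR : 0 < R) (hR' : 0 < R')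
    (h : R + δ * R' ≤ R') {ξ : E 2} (h1 : bm m R ξ ≠ 0) (h2 : bm m R' ξ ≠ 0) : False := by
  have h3 := (bm_supp m hR h1).2
  have h4 := (bm_supp m hR' h2).1
  have h5 : R' * (1 / 2) ^ (m + 1) ≤ R' * δ := by gcongr
  nlinarith

lemma countable {δ : ℝ} (hδ : 0 < δ) {A : Set ℝ} (hA : ∀ R ∈ A, 0 < R)
    (hs : ∀ R ∈ A, ∀ R' ∈ A, R < R' → R + δ * R' ≤ R') : A.Countable := by
  refine Set.PairwiseDisjoint.countable_of_Ioo (y := fun R => R + δ * R) ?_ fun R hR => ?_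
  · have key : ∀ R ∈ A, ∀ R' ∈ A, R < R' → Disjoint (Ioo R (R + δ * R)) (Ioo R' (R' + δ * R')) := by
      intro R hR R' hR' hlt
      rw [Set.disjoint_left]
      intro y hy hy'
      have h1 := hs R hR R' hR' hlt
      have h2 : δ * R ≤ δ * R' := by gcongr
      have h3 := hy.2
      have h4 := hy'.1
      linarith
    intro R hR R' hR' hne
    rcases lt_or_gt_of_ne hne with h | h
    · exact key R hR R' hR' h
    · exact (key R' hR' R hR h).symm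
  · have := mul_pos hδ (hA R hR)
    linarith

/-- the choice of `m` -/
lemma choose_m {δ : ℝ} (hδ : 0 < δ) (hδ2 : δ ≤ 1 / 2) : ∃ m : ℕ, 1 ≤ m ∧
    (1 / 2 : ℝ) ^ (m + 1) ≤ δ ∧
    ((m * lg m ^ 5 : ℕ) : ℝ) ≤ 3072 * (Real.log δ⁻¹ * Real.log (3 + Real.log δ⁻¹) ^ 5) := by
  have h2 : (2 : ℝ) ≤ δ⁻¹ := by
    rw [le_inv_comm₀ two_pos hδ]
    linarith
  obtain ⟨n, hn1, hn2⟩ := exists_nat_pow_near (x := δ⁻¹) (y := 2) (by linarith) one_lt_two
  have hl2 : 0.6931471803 < Real.log 2 := Real.log_two_gt_d9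
  set ℓ : ℝ := Real.log δ⁻¹ with hℓ
  have hℓ2 : Real.log 2 ≤ ℓ := Real.log_le_log two_pos h2
  have hm : ((n + 1 : ℕ) : ℝ) ≤ 3 * ℓ := by
    have h3 : (n : ℝ) * Real.log 2 ≤ ℓ := by
      rw [← Real.log_pow, hℓ]
      exact Real.log_le_log (by positivity) hn1
    push_cast
    nlinarith
  have hlog3 : 1 ≤ Real.log (3 + ℓ) := by
    rw [Real.le_log_iff_exp_le (by linarith)]
    have := Real.exp_one_lt_d9
    linarith
  have hlg : ((lg (n + 1) : ℕ) : ℝ) ≤ 4 * Real.log (3 + ℓ) := by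
    unfold lg
    have h4 : (2 : ℝ) ^ (Nat.log 2 (n + 1)) ≤ ((n + 1 : ℕ) : ℝ) := by
      exact_mod_cast Nat.pow_log_le_self 2 (by omega)
    have h5 : (Nat.log 2 (n + 1) : ℝ) * Real.log 2 ≤ Real.log (3 * ℓ) := by
      rw [← Real.log_pow]
      exact Real.log_le_log (by positivity) (h4.trans hm)
    have h6 : Real.log (3 * ℓ) ≤ 2 * Real.log (3 + ℓ) := by
      have h7 : Real.log (3 * ℓ) ≤ Real.log ((3 + ℓ) ^ 2) := by
        have hℓ0 : 0 < ℓ := by linarith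
        apply Real.log_le_log (by positivity)
        nlinarith
      rwa [Real.log_pow, Nat.cast_ofNat] at h7
    push_cast
    nlinarith
  refine ⟨n + 1, by omega, ?_, ?_⟩
  · have h8 : (2 : ℝ) ^ (n + 1 + 1) * δ ≥ 1 := by
      have h9 : δ⁻¹ * δ = 1 := inv_mul_cancel₀ hδ.ne'
      have h10 : δ⁻¹ ≤ 2 ^ (n + 1 + 1) := hn2.le.trans (by gcongr <;> norm_num)
      nlinarith
    rw [one_div, inv_pow, inv_le_iff_one_le_mul₀ (by positivity)]
    linarith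
  · push_cast
    calc ((n : ℝ) + 1) * (lg (n + 1) : ℝ) ^ 5 ≤ (3 * ℓ) * (4 * Real.log (3 + ℓ)) ^ 5 := by
          push_cast at hm
          have hℓ0 : 0 ≤ 3 * ℓ := by linarith
          gcongr
      _ = _ := by ring

end DS_

open Oct_ DS_ in
theorem pDS (hSS : tSS) (hP : tPlE) : tDS := by
  obtain ⟨K, hK⟩ := hSS
  obtain ⟨C1, hC1⟩ := MBS.pPdom 2
  obtain ⟨C2, hC2⟩ := MBS.pMF2 2
  refine ⟨9 * (1 + C1 ^ 2 * C2 + K) * 3072, fun δ A f hδ hδ2 hA hsep hfm hf h2 => ?_⟩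
  obtain ⟨m, hm, hmδ, hml⟩ := choose_m hδ hδ2
  have hH : Continuous (𝓕 f) := MBS.J8.fourier_cont hf
  have hHm : Measurable (fun ξ => ‖𝓕 f ξ‖ₑ ^ 2) := hH.measurable.enorm.pow_const 2
  have hcount : Countable A := (countable hδ hA hsep).to_subtype
  set X : ℝ≥0∞ := ((m * lg m ^ 5 : ℕ) : ℝ≥0∞) with hX
  -- the disjoint pieces
  have hBm : ∀ R : A, Measurable fun x => ‖IE (cut (bm m R) (𝓕 f)) x‖ₑ ^ 2 := fun R =>
    (hP _ (bm_BdE m (hA R R.2) hH)).1.measurable.enorm.pow_const 2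
  have hBs : ∫⁻ x, ∑' R : A, ‖IE (cut (bm m R) (𝓕 f)) x‖ₑ ^ 2 ≤ ∫⁻ x, ‖f x‖ₑ ^ 2 := by
    rw [lintegral_tsum fun R => (hBm R).aemeasurable]
    have h3 : ∀ R : A, ∫⁻ x, ‖IE (cut (bm m R) (𝓕 f)) x‖ₑ ^ 2 =
        ∫⁻ ξ, ‖cut (bm m R) (𝓕 f) ξ‖ₑ ^ 2 := fun R => (hP _ (bm_BdE m (hA R R.2) hH)).2
    simp only [h3]
    rw [← lintegral_tsum fun R : A => ((bm_BdE m (hA R R.2) hH).1.enorm.pow_const 2).aemeasurable,
      ← MBS.J8.plancherel_sq hf h2]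
    refine lintegral_mono fun ξ => ?_
    by_cases hex : ∃ R : A, bm m R ξ ≠ 0
    · obtain ⟨R, hR⟩ := hex
      rw [tsum_eq_single R]
      · unfold cut
        gcongr
        rw [enorm_mul]
        calc _ ≤ 1 * ‖𝓕 f ξ‖ₑ := by
              gcongr
              rw [← ofReal_norm, Complex.norm_real, Real.norm_eq_abs,
                abs_of_nonneg (bm_bd m (hA R R.2) ξ).1]
              exact ENNReal.ofReal_le_one.2 (bm_bd m (hA R R.2) ξ).2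
          _ = _ := one_mul _
      · intro R' hne
        have h4 : bm m R' ξ = 0 := by
          by_contra h5
          rcases lt_or_gt_of_ne (fun h => hne (Subtype.ext h) : (R' : ℝ) ≠ R) with h | h
          · exact disj hmδ (hA _ R'.2) (hA _ R.2) (hsep _ R'.2 _ R.2 h) h5 hR
          · exact disj hmδ (hA _ R.2) (hA _ R'.2) (hsep _ R.2 _ R'.2 h) hR h5
        unfold cut
        rw [h4]
        simp
    · push Not at hex
      have h5 : ∀ R : A, ‖cut (bm m R) (𝓕 f) ξ‖ₑ ^ 2 = 0 := by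
        intro R
        unfold cut
        rw [hex R]
        simp
      simp only [h5, tsum_zero]
      exact bot_le
  -- the smooth part
  have hMF : ∫⁻ x, (C1 * MF (fun y => ‖f y‖ₑ) x) ^ 2 ≤ C1 ^ 2 * C2 * ∫⁻ x, ‖f x‖ₑ ^ 2 := by
    simp only [mul_pow]
    rw [lintegral_const_mul _ ((MBS.J11.measurable_MF _).pow_const 2), mul_assoc]
    gcongr
    exact hC2 _ hfm.enorm
  have hMm : Measurable fun x => (C1 * MF (fun y => ‖f y‖ₑ) x) ^ 2 :=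
    ((MBS.J11.measurable_MF _).const_mul _).pow_const 2
  set Z : E 2 → ℝ≥0∞ := fun x => ⨆ (R : ℝ) (_ : 0 < R), ‖T (muS m R) (𝓕 f) x‖ₑ with hZ
  have hZb : ∫⁻ x, Z x ^ 2 ≤ K * X * ∫⁻ x, ‖f x‖ₑ ^ 2 := by
    have h6 := hK m f hm hf h2
    refine h6.trans (le_of_eq ?_)
    rw [hX]
    push_cast
    ring
  have hpt : ∀ x, (⨆ R ∈ A, ‖S f R x‖ₑ) ^ 2 ≤
      9 * ((∑' R : A, ‖IE (cut (bm m R) (𝓕 f)) x‖ₑ ^ 2) +
        (C1 * MF (fun y => ‖f y‖ₑ) x) ^ 2 + Z x ^ 2) := by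
    intro x
    set Y := 9 * ((∑' R : A, ‖IE (cut (bm m R) (𝓕 f)) x‖ₑ ^ 2) +
        (C1 * MF (fun y => ‖f y‖ₑ) x) ^ 2 + Z x ^ 2) with hY
    have h3 : (⨆ R ∈ A, ‖S f R x‖ₑ) ≤ Y ^ (1 / 2 : ℝ) := by
      refine iSup₂_le fun R hR => ?_
      have h4 : ‖S f R x‖ₑ ^ 2 ≤ Y := by
        calc ‖S f R x‖ₑ ^ 2 ≤
            (‖IE (cut (bm m R) (𝓕 f)) x‖ₑ + C1 * MF (fun y => ‖f y‖ₑ) x + Z x) ^ 2 := by
              gcongr
              rw [DS_.split m f hf (hA R hR) x]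
              refine (enorm_add_le _ _).trans ?_
              refine add_le_add ((enorm_add_le _ _).trans (add_le_add le_rfl ?_)) ?_
              · refine le_trans ?_ (hC1 f hf x)
                unfold Pstar
                exact le_iSup₂_of_le R (hA R hR) le_rfl
              · rw [hZ]
                exact le_iSup₂_of_le R (hA R hR) le_rfl
          _ ≤ 9 * (‖IE (cut (bm m R) (𝓕 f)) x‖ₑ ^ 2 +
              (C1 * MF (fun y => ‖f y‖ₑ) x) ^ 2 + Z x ^ 2) := sq3 _ _ _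
          _ ≤ Y := by
              rw [hY]
              gcongr
              exact ENNReal.le_tsum (f := fun R : A => ‖IE (cut (bm m R) (𝓕 f)) x‖ₑ ^ 2) ⟨R, hR⟩
      calc ‖S f R x‖ₑ = (‖S f R x‖ₑ ^ 2) ^ (1 / 2 : ℝ) := by
            rw [← ENNReal.rpow_natCast, ← ENNReal.rpow_mul]; norm_num
        _ ≤ Y ^ (1 / 2 : ℝ) := ENNReal.rpow_le_rpow h4 (by norm_num)
    calc _ ≤ (Y ^ (1 / 2 : ℝ)) ^ 2 := pow_le_pow_left' h3 2
      _ = Y := by rw [← ENNReal.rpow_natCast, ← ENNReal.rpow_mul]; norm_num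
  have hone : (1 : ℝ≥0∞) ≤ X := by
    have h3 : 1 ≤ m * (lg m) ^ 5 := by
      refine Nat.one_le_iff_ne_zero.2 (Nat.mul_ne_zero (by omega) (pow_ne_zero _ ?_))
      unfold lg
      omega
    rw [hX]
    exact_mod_cast h3
  have hXle : X ≤ 3072 * ENNReal.ofReal (Real.log δ⁻¹ * Real.log (3 + Real.log δ⁻¹) ^ 5) := by
    rw [hX, ← ENNReal.ofReal_natCast]
    calc ENNReal.ofReal ((m * lg m ^ 5 : ℕ) : ℝ) ≤
        ENNReal.ofReal (3072 * (Real.log δ⁻¹ * Real.log (3 + Real.log δ⁻¹) ^ 5)) :=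
          ENNReal.ofReal_le_ofReal hml
      _ = _ := by
          rw [ENNReal.ofReal_mul (by norm_num)]
          norm_num
  have mB : Measurable fun x => ∑' R : A, ‖IE (cut (bm m R) (𝓕 f)) x‖ₑ ^ 2 :=
    Measurable.tsum hBm
  have mBM : Measurable fun x => (∑' R : A, ‖IE (cut (bm m R) (𝓕 f)) x‖ₑ ^ 2) +
      (C1 * MF (fun y => ‖f y‖ₑ) x) ^ 2 := mB.add hMm
  calc _ ≤ ∫⁻ x, 9 * ((∑' R : A, ‖IE (cut (bm m R) (𝓕 f)) x‖ₑ ^ 2) +
        (C1 * MF (fun y => ‖f y‖ₑ) x) ^ 2 + Z x ^ 2) := lintegral_mono hpt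
    _ = 9 * ((∫⁻ x, ∑' R : A, ‖IE (cut (bm m R) (𝓕 f)) x‖ₑ ^ 2) +
        (∫⁻ x, (C1 * MF (fun y => ‖f y‖ₑ) x) ^ 2) + ∫⁻ x, Z x ^ 2) := by
        rw [lintegral_const_mul' _ _ (by norm_num), lintegral_add_left mBM,
          lintegral_add_left mB]
    _ ≤ 9 * (X * (∫⁻ x, ‖f x‖ₑ ^ 2) + C1 ^ 2 * C2 * (X * ∫⁻ x, ‖f x‖ₑ ^ 2) +
        K * X * ∫⁻ x, ‖f x‖ₑ ^ 2) := by
        have h7 : ∫⁻ x, ‖f x‖ₑ ^ 2 ≤ X * ∫⁻ x, ‖f x‖ₑ ^ 2 := by
          calc _ = 1 * ∫⁻ x, ‖f x‖ₑ ^ 2 := (one_mul _).symm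
            _ ≤ _ := by gcongr
        gcongr
        · exact hBs.trans h7
        · exact hMF.trans (by gcongr)
    _ = 9 * (1 + C1 ^ 2 * C2 + K) * X * ∫⁻ x, ‖f x‖ₑ ^ 2 := by ring
    _ ≤ 9 * (1 + C1 ^ 2 * C2 + K) *
        (3072 * ENNReal.ofReal (Real.log δ⁻¹ * Real.log (3 + Real.log δ⁻¹) ^ 5)) *
          ∫⁻ x, ‖f x‖ₑ ^ 2 := by gcongr
    _ = _ := by
        push_cast
        ring

end Pool.Agent.KSP

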