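import Pool.Agent.KSP.Targets2
import Pool.Agent.MBS.All

set_option autoImplicit false

/-! Q10 of the KSP bound for the disc: the logarithmic Nash inequality. -/

namespace Pool.Agent.KSP

open MeasureTheory FourierTransform Set Filter Topology
open scoped ENNReal NNReal
open Pool.Agent.MBS (E ex T S Sstar et ps mul pm Tstar Pstar MF PP)

namespace FB_

lemma sq_add_le (x y : ℝ≥0∞) : (x + y) ^ 2 ≤ 2 * x ^ 2 + 2 * y ^ 2 := by
  have := ENNReal.rpow_add_le_mul_rpow_add_rpow x y (p := 2) (by norm_num)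
  have e2 : ∀ y : ℝ≥0∞, y ^ (2 : ℝ) = y ^ 2 := fun y => by
    rw [← ENNReal.rpow_natCast]; norm_num
  rw [e2, e2, e2] at this
  refine le_trans this (le_of_eq ?_)
  norm_num
  ring

lemma sq_add3_le (x y z : ℝ≥0∞) :
    (x + y + z) ^ 2 ≤ 4 * x ^ 2 + 4 * y ^ 2 + 2 * z ^ 2 := by
  calc (x + y + z) ^ 2 ≤ 2 * (x + y) ^ 2 + 2 * z ^ 2 := sq_add_le _ _
    _ ≤ 2 * (2 * x ^ 2 + 2 * y ^ 2) + 2 * z ^ 2 := by gcongr; exact sq_add_le _ _
    _ = _ := by ring

/-- the tail of the gains is bounded -/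
lemma be_tail (a : ℝ) (ha : 0 < a) : ∃ C : ℝ, 0 < C ∧ ∀ (Q : ℝ) (m : ℕ), 1 ≤ Q →
    Q ≤ (2 : ℝ) ^ (a / 4 * m) →
    ∑' i : ℕ, ENNReal.ofReal (MBS.J14.be Q a (i + m)) ≤ ENNReal.ofReal C := by
  have hq0 : 0 < (2 : ℝ) ^ (-(1 / 16) : ℝ) := by positivity
  have hq1 : (2 : ℝ) ^ (-(1 / 16) : ℝ) < 1 :=
    Real.rpow_lt_one_of_one_lt_of_neg (by norm_num) (by norm_num)
  have hS : 0 < (1 - (2 : ℝ) ^ (-(1 / 16) : ℝ))⁻¹ := inv_pos.2 (by linarith)
  have hr0 : 0 < (2 : ℝ) ^ (-(a / 4)) := by positivity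
  have hr1 : (2 : ℝ) ^ (-(a / 4)) < 1 :=
    Real.rpow_lt_one_of_one_lt_of_neg (by norm_num) (by linarith)
  have hS2 : 0 < (1 - (2 : ℝ) ^ (-(a / 4)))⁻¹ := inv_pos.2 (by linarith)
  refine ⟨(2 : ℝ) ^ (1 / 4 : ℝ) * (1 - (2 : ℝ) ^ (-(1 / 16) : ℝ))⁻¹ +
    (2 : ℝ) ^ a * (1 - (2 : ℝ) ^ (-(a / 4)))⁻¹, by positivity, fun Q m hQ hm => ?_⟩
  have hA : ∑' i : ℕ, ENNReal.ofReal ((PP (i + m) : ℝ) ^ (-(1 / 4) : ℝ)) ≤
      ENNReal.ofReal ((2 : ℝ) ^ (1 / 4 : ℝ) * (1 - (2 : ℝ) ^ (-(1 / 16) : ℝ))⁻¹) := by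
    calc ∑' i : ℕ, ENNReal.ofReal ((PP (i + m) : ℝ) ^ (-(1 / 4) : ℝ))
        ≤ ∑' i : ℕ, ENNReal.ofReal ((2 : ℝ) ^ (1 / 4 : ℝ) * ((2 : ℝ) ^ (-(1 / 16) : ℝ)) ^ i) := by
          apply ENNReal.tsum_le_tsum
          intro i
          apply ENNReal.ofReal_le_ofReal
          refine le_trans (MBS.J14.PP_rpow_le (1 / 4) (by norm_num) (i + m)) ?_
          have h1 : (2 : ℝ) ^ (-(1 / 4 / 4 * ((i + m : ℕ) : ℝ))) ≤
              ((2 : ℝ) ^ (-(1 / 16) : ℝ)) ^ i := by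
            rw [← Real.rpow_natCast ((2 : ℝ) ^ (-(1 / 16) : ℝ)), ← Real.rpow_mul (by norm_num)]
            apply Real.rpow_le_rpow_of_exponent_le (by norm_num)
            push_cast
            have : (0 : ℝ) ≤ m := Nat.cast_nonneg m
            nlinarith
          gcongr
      _ = _ := by
          rw [← ENNReal.ofReal_tsum_of_nonneg (fun k => by positivity)
            ((summable_geometric_of_lt_one hq0.le hq1).mul_left _), tsum_mul_left,
            tsum_geometric_of_lt_one hq0.le hq1]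
  have hB : ∑' i : ℕ, ENNReal.ofReal (min 1 (Q * (PP (i + m) : ℝ) ^ (-a))) ≤
      ENNReal.ofReal ((2 : ℝ) ^ a * (1 - (2 : ℝ) ^ (-(a / 4)))⁻¹) := by
    calc ∑' i : ℕ, ENNReal.ofReal (min 1 (Q * (PP (i + m) : ℝ) ^ (-a)))
        ≤ ∑' i : ℕ, ENNReal.ofReal ((2 : ℝ) ^ a * ((2 : ℝ) ^ (-(a / 4))) ^ i) := by
          apply ENNReal.tsum_le_tsum
          intro i
          apply ENNReal.ofReal_le_ofReal
          refine le_trans (min_le_right _ _) ?_
          have h1 := MBS.J14.PP_rpow_le a ha (i + m)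
          have h2 : (2 : ℝ) ^ (-(a / 4 * ((i + m : ℕ) : ℝ))) =
              ((2 : ℝ) ^ (a / 4 * m))⁻¹ * ((2 : ℝ) ^ (-(a / 4))) ^ i := by
            rw [← Real.rpow_natCast ((2 : ℝ) ^ (-(a / 4))), ← Real.rpow_mul (by norm_num),
              ← Real.rpow_neg (by norm_num), ← Real.rpow_add (by norm_num)]
            congr 1
            push_cast
            ring
          have h3 : 0 < (2 : ℝ) ^ (a / 4 * m) := by positivity
          calc Q * (PP (i + m) : ℝ) ^ (-a) ≤ (2 : ℝ) ^ (a / 4 * m) *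
                ((2 : ℝ) ^ a * (2 : ℝ) ^ (-(a / 4 * ((i + m : ℕ) : ℝ)))) := by gcongr
            _ = _ := by
                rw [h2]
                field_simp
      _ = _ := by
          rw [← ENNReal.ofReal_tsum_of_nonneg (fun k => by positivity)
            ((summable_geometric_of_lt_one hr0.le hr1).mul_left _), tsum_mul_left,
            tsum_geometric_of_lt_one hr0.le hr1]
  calc ∑' i : ℕ, ENNReal.ofReal (MBS.J14.be Q a (i + m))
      ≤ ∑' i : ℕ, (ENNReal.ofReal ((PP (i + m) : ℝ) ^ (-(1 / 4) : ℝ)) +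
          ENNReal.ofReal (min 1 (Q * (PP (i + m) : ℝ) ^ (-a)))) :=
        ENNReal.tsum_le_tsum fun i => ENNReal.ofReal_add_le
    _ = ∑' i : ℕ, ENNReal.ofReal ((PP (i + m) : ℝ) ^ (-(1 / 4) : ℝ)) +
          ∑' i : ℕ, ENNReal.ofReal (min 1 (Q * (PP (i + m) : ℝ) ^ (-a))) := ENNReal.tsum_add
    _ ≤ _ := add_le_add hA hB
    _ = _ := by rw [← ENNReal.ofReal_add (by positivity) (by positivity)]

/-- the choice of the number of annuli -/
lemma choose_m (a : ℝ) (ha : 0 < a) : ∃ K K2 : ℝ, 0 < K ∧ 0 < K2 ∧ ∀ Q : ℝ, 1 ≤ Q →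
    ∃ m : ℕ, 1 ≤ m ∧ Q ≤ (2 : ℝ) ^ (a / 4 * m) ∧ (m : ℝ) ≤ K * (1 + Real.log Q) ∧
      (lg m : ℝ) ≤ K2 * (1 + Real.log (1 + Real.log Q)) := by
  have hl2 : 0 < Real.log 2 := Real.log_pos (by norm_num)
  have hl21 : Real.log 2 ≤ 1 := by
    have := Real.log_two_lt_d9
    linarith
  set K : ℝ := 2 + 4 / (a * Real.log 2) with hK
  have hK1 : 1 ≤ K := by
    have : 0 ≤ 4 / (a * Real.log 2) := by positivity
    linarith
  have hK0 : 0 < K := by linarith
  have hlK : 0 ≤ Real.log K := Real.log_nonneg hK1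
  refine ⟨K, 1 + Real.log K / Real.log 2 + 1 / Real.log 2, hK0, by positivity, fun Q hQ => ?_⟩
  have hlQ : 0 ≤ Real.log Q := Real.log_nonneg hQ
  set m : ℕ := ⌈Real.log Q / (a / 4 * Real.log 2)⌉₊ + 1 with hm
  have hm1 : Real.log Q / (a / 4 * Real.log 2) ≤ m := by
    have := Nat.le_ceil (Real.log Q / (a / 4 * Real.log 2))
    rw [hm]
    push_cast
    linarith
  have hm2 : (m : ℝ) ≤ Real.log Q / (a / 4 * Real.log 2) + 2 := by
    have := (Nat.ceil_lt_add_one (a := Real.log Q / (a / 4 * Real.log 2)) (by positivity)).le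
    rw [hm]
    push_cast
    linarith
  have hmK : (m : ℝ) ≤ K * (1 + Real.log Q) := by
    refine le_trans hm2 ?_
    have e1 : Real.log Q / (a / 4 * Real.log 2) = 4 / (a * Real.log 2) * Real.log Q := by
      field_simp
    rw [e1, hK]
    have : 0 ≤ 4 / (a * Real.log 2) := by positivity
    nlinarith [mul_nonneg this hlQ]
  refine ⟨m, by omega, ?_, hmK, ?_⟩
  · rw [← Real.log_le_log_iff (by linarith) (by positivity), Real.log_rpow (by norm_num)]
    rw [div_le_iff₀ (by positivity)] at hm1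
    nlinarith
  · have hX : 0 < 1 + Real.log Q := by linarith
    have hX1 : 0 ≤ Real.log (1 + Real.log Q) := Real.log_nonneg (by linarith)
    have hm0 : (0 : ℝ) < m := by
      rw [hm]
      positivity
    have h1 : ((Nat.log 2 m : ℕ) : ℝ) ≤ Real.log m / Real.log 2 := by
      rw [le_div_iff₀ hl2, ← Real.log_rpow (by norm_num), Real.rpow_natCast]
      apply Real.log_le_log (by positivity)
      have h := Nat.pow_log_le_self 2 (x := m) (by omega)
      exact_mod_cast h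
    have h2 : Real.log m ≤ Real.log K + Real.log (1 + Real.log Q) := by
      rw [← Real.log_mul hK0.ne' hX.ne']
      exact Real.log_le_log hm0 hmK
    have h3 : (lg m : ℝ) = ((Nat.log 2 m : ℕ) : ℝ) + 1 := by
      unfold lg
      push_cast
      ring
    have h4 : Real.log m / Real.log 2 ≤
        Real.log K / Real.log 2 + Real.log (1 + Real.log Q) / Real.log 2 := by
      rw [← add_div]
      gcongr
    rw [h3]
    have h5 : 0 ≤ Real.log K / Real.log 2 := by positivity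
    have h6 : 0 ≤ 1 / Real.log 2 := by positivity
    have e2 : Real.log (1 + Real.log Q) / Real.log 2 =
        1 / Real.log 2 * Real.log (1 + Real.log Q) := by ring
    rw [e2] at h4
    nlinarith [mul_nonneg h5 hX1, mul_nonneg h6 hX1]

end FB_

open FB_ in
theorem pFB (h1 : tPt) (h2 : tSS) : tFB := by
  intro s hs
  obtain ⟨C1, hC1, hT⟩ := MBS.J14.tstar_bound MBS.pTstarW MBS.fF2c MBS.fGainL1 MBS.fTriv 2 s
    (by norm_num) hs
  obtain ⟨C2, hC2, hB⟩ := be_tail (s / (2 * (2 : ℕ))) (by positivity)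
  obtain ⟨K, K2, hK, hK2, hm⟩ := choose_m (s / (2 * (2 : ℕ))) (by positivity)
  obtain ⟨C3, hP⟩ := MBS.pPdom 2
  obtain ⟨C4, hM⟩ := MBS.pMF2 2
  obtain ⟨C5, hSS⟩ := h2
  refine ⟨4 * (C3 ^ 2 * C4) + 4 * (C5 * K * K2 ^ 5) + 2 * (C1 * C2 ^ 2),
    fun f Q hfm hfi hf2 hQ hyp => ?_⟩
  have hlQ : 0 ≤ Real.log Q := Real.log_nonneg hQ
  obtain ⟨m, hm1, hmQ, hmK, hlg⟩ := hm Q hQ
  have hyp' : (∫⁻ x, ‖f x‖ₑ) ^ (2 * s / ((2 : ℕ) : ℝ)) *
        (∫⁻ ξ, ENNReal.ofReal (‖ξ‖ ^ (2 * s)) * ‖𝓕 f ξ‖ₑ ^ 2) ^ (1 / 2 : ℝ)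
        ≤ ENNReal.ofReal Q *
          ((∫⁻ x, ‖f x‖ₑ ^ 2) ^ (1 / 2 : ℝ)) ^ (1 + 2 * s / ((2 : ℕ) : ℝ)) := by
    have e : 2 * s / ((2 : ℕ) : ℝ) = s := by push_cast; ring
    rw [e]
    exact hyp
  set N2 := ∫⁻ x, ‖f x‖ₑ ^ 2 with hN2
  set b : ℕ → ℝ≥0∞ := fun i => ENNReal.ofReal (MBS.J14.be Q (s / (2 * (2 : ℕ))) (i + m)) with hb
  have hb0 : ∀ i, b i ≠ 0 := fun i => by
    simp only [hb, ne_eq, ENNReal.ofReal_eq_zero, not_le]
    exact MBS.J14.be_pos Q _ hQ _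
  have hb1 : ∀ i, b i ≠ ⊤ := fun i => ENNReal.ofReal_ne_top
  have hTi : ∀ i, ∫⁻ x, Tstar (i + m) f x ^ 2 ≤ ENNReal.ofReal C1 * b i ^ 2 * N2 := by
    intro i
    refine le_trans (hT f Q (i + m) hfm hfi hf2 hQ hyp') (le_of_eq ?_)
    have e1 : b i = ENNReal.ofReal (MBS.J14.be Q (s / (2 * (2 : ℕ))) (i + m)) := rfl
    rw [ENNReal.ofReal_mul hC1.le, e1, ← ENNReal.ofReal_pow (MBS.J14.be_pos Q _ hQ _).le]
    rfl
  obtain ⟨hm1', hm2', hm3'⟩ := MBS.fMeas 2 f hfi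
  -- the sum of the annulus operators
  have hsum : ∫⁻ x, (∑' i, Tstar (i + m) f x) ^ 2 ≤
      ENNReal.ofReal C1 * (ENNReal.ofReal C2) ^ 2 * N2 := by
    calc ∫⁻ x, (∑' i, Tstar (i + m) f x) ^ 2
        ≤ ∫⁻ x, (∑' i, b i) * ∑' i, Tstar (i + m) f x ^ 2 * (b i)⁻¹ :=
          lintegral_mono fun x => MBS.J14.cs_sum b _ hb0 hb1
      _ = (∑' i, b i) * ∑' i, (∫⁻ x, Tstar (i + m) f x ^ 2) * (b i)⁻¹ := by
          rw [lintegral_const_mul'' _ (AEMeasurable.tsum fun i =>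
            (((hm3' (i + m)).pow_const 2).mul_const _).aemeasurable),
            lintegral_tsum fun i => (((hm3' (i + m)).pow_const 2).mul_const _).aemeasurable]
          congr 1
          apply tsum_congr
          intro i
          rw [lintegral_mul_const _ ((hm3' (i + m)).pow_const 2)]
      _ ≤ (∑' i, b i) * ∑' i, ENNReal.ofReal C1 * N2 * b i := by
          refine mul_le_mul_right (ENNReal.tsum_le_tsum fun i => ?_) _
          calc (∫⁻ x, Tstar (i + m) f x ^ 2) * (b i)⁻¹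
              ≤ (ENNReal.ofReal C1 * b i ^ 2 * N2) * (b i)⁻¹ := by
                gcongr
                exact hTi i
            _ = ENNReal.ofReal C1 * N2 * b i * (b i * (b i)⁻¹) := by ring
            _ = _ := by rw [ENNReal.mul_inv_cancel (hb0 i) (hb1 i), mul_one]
      _ = ENNReal.ofReal C1 * (∑' i, b i) ^ 2 * N2 := by
          rw [ENNReal.tsum_mul_left]
          ring
      _ ≤ _ := by
          gcongr
          exact hB Q m hQ hmQ
  have hPs : ∫⁻ x, Pstar f x ^ 2 ≤ ENNReal.ofReal (C3 ^ 2 * C4) * N2 := by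
    calc ∫⁻ x, Pstar f x ^ 2 ≤ ∫⁻ x, (C3 * MF (fun y => ‖f y‖ₑ) x) ^ 2 := by
          gcongr with x
          exact hP f hfi x
      _ = (C3 : ℝ≥0∞) ^ 2 * ∫⁻ x, MF (fun y => ‖f y‖ₑ) x ^ 2 := by
          rw [← lintegral_const_mul' _ _ (by simp)]
          congr 1
          ext x
          rw [mul_pow]
      _ ≤ (C3 : ℝ≥0∞) ^ 2 * (C4 * N2) := by
          gcongr
          exact hM _ hfm.enorm
      _ = _ := by
          rw [ENNReal.ofReal_mul (by positivity), ENNReal.ofReal_pow (by positivity),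
            ENNReal.ofReal_coe_nnreal, ENNReal.ofReal_coe_nnreal]
          ring
  obtain ⟨hpt, hMm⟩ := h1 m f hfi
  set M : E 2 → ℝ≥0∞ := fun x => ⨆ (R : ℝ) (_ : 0 < R), ‖T (muS m R) (𝓕 f) x‖ₑ with hMdef
  have hMs : ∫⁻ x, M x ^ 2 ≤ ENNReal.ofReal (C5 * (K * (1 + Real.log Q)) *
      (K2 * (1 + Real.log (1 + Real.log Q))) ^ 5) * N2 := by
    refine le_trans (hSS m f hm1 hfi hf2) ?_
    rw [← hN2]
    have hY0 : 0 ≤ Real.log (1 + Real.log Q) := Real.log_nonneg (by linarith)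
    have e1 : (C5 : ℝ≥0∞) = ENNReal.ofReal C5 := (ENNReal.ofReal_coe_nnreal).symm
    have e2 : ((m : ℕ) : ℝ≥0∞) = ENNReal.ofReal m := (ENNReal.ofReal_natCast m).symm
    have e3 : ((lg m : ℕ) : ℝ≥0∞) = ENNReal.ofReal (lg m : ℝ) :=
      (ENNReal.ofReal_natCast (lg m)).symm
    rw [e1, e2, e3, ENNReal.ofReal_mul (by positivity), ENNReal.ofReal_mul (by positivity),
      ENNReal.ofReal_pow (by positivity)]
    gcongr
  have hSle : ∀ x, Sstar f x ≤ Pstar f x + M x + ∑' i, Tstar (i + m) f x := by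
    intro x
    refine iSup₂_le fun R hR => le_trans (hpt R x hR) ?_
    refine add_le_add (add_le_add ?_ ?_) (ENNReal.tsum_le_tsum fun i => ?_)
    · exact le_iSup₂_of_le R hR le_rfl
    · exact le_iSup₂_of_le (f := fun (R : ℝ) (_ : 0 < R) => ‖T (muS m R) (𝓕 f) x‖ₑ) R hR le_rfl
    · exact le_iSup₂_of_le R hR le_rfl
  calc ∫⁻ x, Sstar f x ^ 2
      ≤ ∫⁻ x, (4 * Pstar f x ^ 2 + 4 * M x ^ 2 + 2 * (∑' i, Tstar (i + m) f x) ^ 2) := by
        gcongr with x
        exact le_trans (by gcongr; exact hSle x) (sq_add3_le _ _ _)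
    _ = 4 * (∫⁻ x, Pstar f x ^ 2) + 4 * (∫⁻ x, M x ^ 2) +
          2 * ∫⁻ x, (∑' i, Tstar (i + m) f x) ^ 2 := by
        have ha : Measurable fun x => 4 * Pstar f x ^ 2 := (hm2'.pow_const 2).const_mul _
        have hb' : Measurable fun x => 4 * M x ^ 2 := (hMm.pow_const 2).const_mul _
        have hab : Measurable fun x => 4 * Pstar f x ^ 2 + 4 * M x ^ 2 := ha.add hb'
        rw [lintegral_add_left hab, lintegral_add_left ha,
          lintegral_const_mul' _ _ (by simp), lintegral_const_mul' _ _ (by simp),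
          lintegral_const_mul' _ _ (by simp)]
    _ ≤ 4 * (ENNReal.ofReal (C3 ^ 2 * C4) * N2) + 4 * (ENNReal.ofReal (C5 *
          (K * (1 + Real.log Q)) * (K2 * (1 + Real.log (1 + Real.log Q))) ^ 5) * N2) +
          2 * (ENNReal.ofReal C1 * (ENNReal.ofReal C2) ^ 2 * N2) := by
        gcongr
    _ = ENNReal.ofReal (4 * (C3 ^ 2 * C4) + 4 * (C5 * (K * (1 + Real.log Q)) *
          (K2 * (1 + Real.log (1 + Real.log Q))) ^ 5) + 2 * (C1 * C2 ^ 2)) * N2 := by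
        have hY0 : 0 ≤ Real.log (1 + Real.log Q) := Real.log_nonneg (by linarith)
        have e2 : (2 : ℝ≥0∞) = ENNReal.ofReal 2 := by simp
        have e4 : (4 : ℝ≥0∞) = ENNReal.ofReal 4 := by simp
        rw [ENNReal.ofReal_add (by positivity) (by positivity),
          ENNReal.ofReal_add (by positivity) (by positivity),
          ENNReal.ofReal_mul (p := 4) (q := (C3 : ℝ) ^ 2 * C4) (by norm_num),
          ENNReal.ofReal_mul (p := 4) (q := C5 * (K * (1 + Real.log Q)) *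
            (K2 * (1 + Real.log (1 + Real.log Q))) ^ 5) (by norm_num),
          ENNReal.ofReal_mul (p := 2) (q := C1 * C2 ^ 2) (by norm_num),
          ENNReal.ofReal_mul (p := C1) (q := C2 ^ 2) hC1.le,
          ENNReal.ofReal_pow (p := C2) hC2.le, ← e2, ← e4]
        ring
    _ ≤ _ := by
        gcongr
        set X := 1 + Real.log Q with hX
        have hX1 : 1 ≤ X := by linarith
        set Y := 1 + Real.log X with hY
        have hY1 : 1 ≤ Y := by
          have := Real.log_nonneg hX1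
          linarith
        have hXY : 1 ≤ X * Y ^ 5 := by
          have : 1 ≤ Y ^ 5 := one_le_pow₀ hY1
          nlinarith
        have g1 : 0 ≤ 4 * ((C3 : ℝ) ^ 2 * C4) := by positivity
        have g2 : 0 ≤ 2 * (C1 * C2 ^ 2) := by positivity
        have e : (4 * ((C3 : ℝ) ^ 2 * C4) + 4 * (C5 * K * K2 ^ 5) + 2 * (C1 * C2 ^ 2)) * X *
            Y ^ 5 = 4 * ((C3 : ℝ) ^ 2 * C4) * (X * Y ^ 5) +
            4 * (C5 * (K * X) * (K2 * Y) ^ 5) + 2 * (C1 * C2 ^ 2) * (X * Y ^ 5) := by ring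
        rw [e]
        nlinarith [mul_le_mul_of_nonneg_left hXY g1, mul_le_mul_of_nonneg_left hXY g2]

end Pool.Agent.KSP
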