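import Pool.Agent.KSP.Targets

set_option autoImplicit false

/-! KSP bound for disc partial sums (MP_ee701d_an): the main estimate. -/

namespace Pool.Agent.KSP

open MeasureTheory Set
open scoped ENNReal NNReal ComplexConjugate

namespace K_

/-- rotation by a right angle -/
def E : ℝ × ℝ ≃ᵐ ℝ × ℝ :=
  MeasurableEquiv.prodComm.trans ((MeasurableEquiv.neg ℝ).prodCongr (MeasurableEquiv.refl ℝ))

theorem E_apply (x : ℝ × ℝ) : E x = (-x.2, x.1) := rfl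

theorem E_mp : MeasurePreserving E := by
  have h1 : MeasurePreserving (Prod.swap : ℝ × ℝ → ℝ × ℝ) := by
    have := Measure.measurePreserving_swap (μ := (volume : Measure ℝ)) (ν := (volume : Measure ℝ))
    exact this
  have h2 : MeasurePreserving (fun t : ℝ => -t) := Measure.measurePreserving_neg _
  have h3 : MeasurePreserving (Prod.map (fun t : ℝ => -t) (id : ℝ → ℝ)) :=
    MeasurePreserving.prod h2 (MeasurePreserving.id _)
  exact h3.comp h1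

theorem nr_E (x : ℝ × ℝ) : nr (E x) = nr x := by
  rw [E_apply, nr, nr]
  congr 1
  simp only
  ring

theorem dot_E (x y : ℝ × ℝ) : dot (E x) (E y) = dot x y := by
  rw [E_apply, E_apply, dot, dot]
  simp only
  ring

theorem Ex_E (g : ℝ × ℝ → ℂ) (x : ℝ × ℝ) : Ex g (E x) = Ex (fun ξ => g (E ξ)) x := by
  unfold Ex
  rw [← E_mp.integral_comp E.measurableEmbedding]
  refine integral_congr_ae (Filter.Eventually.of_forall fun ξ => ?_)
  simp only [dot_E]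

theorem measurable_ee : Measurable ee := by
  unfold ee
  fun_prop

theorem norm_ee (t : ℝ) : ‖ee t‖ = 1 := by
  unfold ee
  rw [show 2 * (Real.pi : ℂ) * Complex.I * (t : ℂ) = ((2 * Real.pi * t : ℝ) : ℂ) * Complex.I by
    push_cast; ring]
  exact Complex.norm_exp_ofReal_mul_I _

theorem measurable_Ex {h : ℝ × ℝ → ℂ} (hh : Measurable h) : Measurable (Ex h) := by
  have h1 : Measurable (fun p : (ℝ × ℝ) × (ℝ × ℝ) => h p.2 * ee (dot p.1 p.2)) := by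
    refine (hh.comp measurable_snd).mul (measurable_ee.comp ?_)
    unfold dot
    fun_prop
  have h2 := (h1.stronglyMeasurable.integral_prod_right' (ν := (volume : Measure (ℝ × ℝ))))
  exact h2.measurable

theorem measurable_nr : Measurable nr := by
  unfold nr
  fun_prop

theorem measurable_ann (a b : ℝ) : MeasurableSet (ann a b) := by
  unfold ann
  exact (measurableSet_le measurable_const measurable_nr).inter
    (measurableSet_lt measurable_nr measurable_const)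

theorem integrable_Bd {h : ℝ × ℝ → ℂ} (hh : Bd h) : Integrable h := by
  obtain ⟨h1, ⟨B, hB⟩, R, hR⟩ := hh
  have hs : Integrable ((Icc (-R) R ×ˢ Icc (-R) R : Set (ℝ × ℝ)).indicator fun _ : ℝ × ℝ => B) := by
    rw [integrable_indicator_iff (measurableSet_Icc.prod measurableSet_Icc)]
    refine integrableOn_const ?_
    rw [Measure.volume_eq_prod, Measure.prod_prod]
    exact (ENNReal.mul_lt_top (by simp) (by simp)).ne
  refine hs.mono' h1.aestronglyMeasurable (Filter.Eventually.of_forall fun ξ => ?_)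
  by_cases hξ : h ξ = 0
  · rw [hξ, norm_zero]
    refine indicator_nonneg (fun x _ => ?_) _
    exact (norm_nonneg _).trans (hB x)
  · have := hR ξ hξ
    rw [indicator_of_mem]
    · exact hB ξ
    · exact ⟨abs_le.1 this.1, abs_le.1 this.2⟩

theorem Bd_indicator {h : ℝ × ℝ → ℂ} (hh : Bd h) {S : Set (ℝ × ℝ)} (hS : MeasurableSet S) :
    Bd (S.indicator h) := by
  obtain ⟨h1, ⟨B, hB⟩, R, hR⟩ := hh
  refine ⟨h1.indicator hS, ⟨B, fun ξ => ?_⟩, R, fun ξ hξ => ?_⟩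
  · by_cases h : ξ ∈ S
    · rw [indicator_of_mem h]; exact hB ξ
    · rw [indicator_of_notMem h, norm_zero]; exact (norm_nonneg _).trans (hB ξ)
  · refine hR ξ fun h0 => hξ ?_
    by_cases h : ξ ∈ S
    · rw [indicator_of_mem h, h0]
    · rw [indicator_of_notMem h]

theorem Bd_E {h : ℝ × ℝ → ℂ} (hh : Bd h) : Bd fun ξ => h (E ξ) := by
  obtain ⟨h1, ⟨B, hB⟩, R, hR⟩ := hh
  refine ⟨h1.comp E.measurable, ⟨B, fun ξ => hB _⟩, R, fun ξ hξ => ?_⟩
  have := hR _ hξ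
  rw [E_apply] at this
  simp only [abs_neg] at this
  exact ⟨this.2, this.1⟩

theorem integrable_Ex {h : ℝ × ℝ → ℂ} (hh : Bd h) (x : ℝ × ℝ) :
    Integrable fun ξ => h ξ * ee (dot x ξ) := by
  refine (integrable_Bd hh).norm.mono' ?_ (Filter.Eventually.of_forall fun ξ => ?_)
  · refine (hh.1.mul (measurable_ee.comp ?_)).aestronglyMeasurable
    unfold dot
    fun_prop
  · rw [norm_mul, norm_ee, mul_one]

/-- a measurable choice of a maximiser -/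
theorem sel {X : Type} [MeasurableSpace X] (F : ℕ → X → ℝ≥0∞) (hF : ∀ i, Measurable (F i)) :
    ∀ N : ℕ, ∃ k : X → ℕ, Measurable k ∧ (∀ x, k x ≤ N) ∧ ∀ x i, i ≤ N → F i x ≤ F (k x) x := by
  intro N
  induction N with
  | zero =>
    refine ⟨fun _ => 0, measurable_const, fun _ => le_rfl, fun x i hi => ?_⟩
    rw [Nat.le_zero.1 hi]
  | succ N ih =>
    obtain ⟨k, k1, k2, k3⟩ := ih
    have hc : Measurable (fun x => F (k x) x) := by
      have : Measurable (fun p : ℕ × X => F p.1 p.2) := measurable_from_prod_countable_right hF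
      exact this.comp (k1.prodMk measurable_id)
    classical
    refine ⟨fun x => if F (N + 1) x ≤ F (k x) x then k x else N + 1, ?_, fun x => ?_,
      fun x i hi => ?_⟩
    · exact Measurable.ite (measurableSet_le (hF _) hc) k1 measurable_const
    · dsimp only
      split_ifs
      · exact (k2 x).trans (Nat.le_succ N)
      · exact le_rfl
    · dsimp only
      rcases Nat.lt_or_ge N i with h | h
      · obtain rfl : i = N + 1 := by omega
        split_ifs with h1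
        · exact h1
        · exact le_rfl
      · split_ifs with h1
        · exact k3 x i h
        · exact (k3 x i h).trans (not_le.1 h1).le

/-- the maximal function -/
noncomputable def M (m : ℕ) (h : ℝ × ℝ → ℂ) (x : ℝ × ℝ) : ℝ≥0∞ :=
  ⨆ k ∈ Finset.range (2 ^ m), ‖Ex ((ann 1 (1 + k / 2 ^ m)).indicator h) x‖ₑ

theorem measurable_M (m : ℕ) {h : ℝ × ℝ → ℂ} (hh : Measurable h) : Measurable (M m h) := by
  unfold M
  refine Measurable.iSup fun k => Measurable.iSup fun _ => ?_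
  exact (measurable_Ex (hh.indicator (measurable_ann _ _))).enorm

theorem est0 {C : ℝ≥0} (hC : ∀ (m : ℕ) (k : ℝ × ℝ → ℕ) (h : ℝ × ℝ → ℂ), 1 ≤ m → Measurable k →
    (∀ x, k x < 2 ^ m) → Bd h → (∀ ξ, h ξ ≠ 0 → ξ ∈ V0) →
    ∫⁻ x, ‖Ex ((ann 1 (1 + k x / 2 ^ m)).indicator h) x‖ₑ ^ 2 ≤
      C * m * ((lg m : ℕ) : ℝ≥0∞) ^ 5 * n2 h) (m : ℕ) (hm : 1 ≤ m) {h : ℝ × ℝ → ℂ} (hh : Bd h)
    (hV : ∀ ξ, h ξ ≠ 0 → ξ ∈ V0) :
    ∫⁻ x, M m h x ^ 2 ≤ C * m * ((lg m : ℕ) : ℝ≥0∞) ^ 5 * n2 h := by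
  obtain ⟨k, k1, k2, k3⟩ := sel
    (fun i x => ‖Ex ((ann 1 (1 + (i : ℝ) / 2 ^ m)).indicator h) x‖ₑ)
    (fun i => (measurable_Ex (hh.1.indicator (measurable_ann _ _))).enorm) (2 ^ m - 1)
  have hpos : 0 < 2 ^ m := Nat.two_pow_pos m
  refine le_trans (lintegral_mono fun x => ?_)
    (hC m k h hm k1 (fun x => by have := k2 x; omega) hh hV)
  refine pow_le_pow_left' (iSup₂_le fun i hi => ?_) 2
  have := Finset.mem_range.1 hi
  exact k3 x i (by omega)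

theorem M_E (m : ℕ) (h : ℝ × ℝ → ℂ) (x : ℝ × ℝ) : M m h (E x) = M m (fun ξ => h (E ξ)) x := by
  unfold M
  refine iSup_congr fun k => iSup_congr fun _ => ?_
  rw [Ex_E]
  congr 2
  funext ξ
  by_cases hξ : ξ ∈ ann 1 (1 + (k : ℝ) / 2 ^ m)
  · rw [indicator_of_mem hξ, indicator_of_mem]
    rw [ann, mem_ofPred_eq, nr_E]
    exact hξ
  · rw [indicator_of_notMem hξ, indicator_of_notMem]
    rw [ann, mem_ofPred_eq, nr_E]
    exact hξ

theorem est_E (m : ℕ) (h : ℝ × ℝ → ℂ) :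
    ∫⁻ x, M m h x ^ 2 = ∫⁻ x, M m (fun ξ => h (E ξ)) x ^ 2 := by
  rw [← E_mp.lintegral_comp_emb E.measurableEmbedding]
  refine lintegral_congr fun x => ?_
  rw [M_E]

theorem n2_E (h : ℝ × ℝ → ℂ) : n2 (fun ξ => h (E ξ)) = n2 h := by
  unfold n2
  exact E_mp.lintegral_comp_emb E.measurableEmbedding (fun ξ => ‖h ξ‖ₑ ^ 2)

theorem M_add (m : ℕ) {g h : ℝ × ℝ → ℂ} (hg : Bd g) (hh : Bd h) (x : ℝ × ℝ) :
    M m (fun ξ => g ξ + h ξ) x ≤ M m g x + M m h x := by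
  unfold M
  refine iSup₂_le fun k hk => ?_
  have h1 : Ex ((ann 1 (1 + (k : ℝ) / 2 ^ m)).indicator fun ξ => g ξ + h ξ) x =
      Ex ((ann 1 (1 + (k : ℝ) / 2 ^ m)).indicator g) x +
        Ex ((ann 1 (1 + (k : ℝ) / 2 ^ m)).indicator h) x := by
    unfold Ex
    rw [← integral_add (integrable_Ex (Bd_indicator hg (measurable_ann _ _)) x)
      (integrable_Ex (Bd_indicator hh (measurable_ann _ _)) x)]
    refine integral_congr_ae (Filter.Eventually.of_forall fun ξ => ?_)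
    simp only
    rw [← add_mul]
    congr 1
    by_cases hξ : ξ ∈ ann 1 (1 + (k : ℝ) / 2 ^ m)
    · simp only [indicator_of_mem hξ]
    · simp only [indicator_of_notMem hξ, add_zero]
  rw [h1]
  refine (enorm_add_le _ _).trans (add_le_add ?_ ?_)
  · exact le_iSup₂ (f := fun (k : ℕ) (_ : k ∈ Finset.range (2 ^ m)) =>
      ‖Ex ((ann 1 (1 + (k : ℝ) / 2 ^ m)).indicator g) x‖ₑ) k hk
  · exact le_iSup₂ (f := fun (k : ℕ) (_ : k ∈ Finset.range (2 ^ m)) =>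
      ‖Ex ((ann 1 (1 + (k : ℝ) / 2 ^ m)).indicator h) x‖ₑ) k hk

theorem sq_add (a b : ℝ≥0∞) : (a + b) ^ 2 ≤ 4 * a ^ 2 + 4 * b ^ 2 := by
  rcases le_total a b with h | h
  · calc (a + b) ^ 2 ≤ (b + b) ^ 2 := pow_le_pow_left' (add_le_add h le_rfl) 2
      _ = 4 * b ^ 2 := by ring
      _ ≤ _ := le_add_self
  · calc (a + b) ^ 2 ≤ (a + a) ^ 2 := pow_le_pow_left' (add_le_add le_rfl h) 2
      _ = 4 * a ^ 2 := by ring
      _ ≤ _ := le_self_add

theorem est_add (m : ℕ) {g h : ℝ × ℝ → ℂ} (hg : Bd g) (hh : Bd h) :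
    ∫⁻ x, M m (fun ξ => g ξ + h ξ) x ^ 2 ≤
      4 * (∫⁻ x, M m g x ^ 2) + 4 * (∫⁻ x, M m h x ^ 2) := by
  calc ∫⁻ x, M m (fun ξ => g ξ + h ξ) x ^ 2 ≤ ∫⁻ x, (4 * M m g x ^ 2 + 4 * M m h x ^ 2) :=
        lintegral_mono fun x => (pow_le_pow_left' (M_add m hg hh x) 2).trans (sq_add _ _)
    _ = _ := by
        have h1 := (measurable_M m hg.1).pow_const 2
        have h2 := (measurable_M m hh.1).pow_const 2
        rw [lintegral_add_left (h1.const_mul 4), lintegral_const_mul 4 h1,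
          lintegral_const_mul 4 h2]

theorem n2_indicator (S : Set (ℝ × ℝ)) (h : ℝ × ℝ → ℂ) : n2 (S.indicator h) ≤ n2 h := by
  unfold n2
  refine lintegral_mono fun ξ => ?_
  by_cases hξ : ξ ∈ S
  · simp only [indicator_of_mem hξ]; exact le_rfl
  · simp only [indicator_of_notMem hξ, enorm_zero]
    exact (zero_pow two_ne_zero).le.trans bot_le

/-- iterated rotation -/
def rE : ℕ → ℝ × ℝ → ℝ × ℝ
  | 0, x => x
  | n + 1, x => E (rE n x)

theorem est_r {C : ℝ≥0} (hC : ∀ (m : ℕ) (k : ℝ × ℝ → ℕ) (h : ℝ × ℝ → ℂ), 1 ≤ m → Measurable k →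
    (∀ x, k x < 2 ^ m) → Bd h → (∀ ξ, h ξ ≠ 0 → ξ ∈ V0) →
    ∫⁻ x, ‖Ex ((ann 1 (1 + k x / 2 ^ m)).indicator h) x‖ₑ ^ 2 ≤
      C * m * ((lg m : ℕ) : ℝ≥0∞) ^ 5 * n2 h) (m : ℕ) (hm : 1 ≤ m) : ∀ (n : ℕ) {h : ℝ × ℝ → ℂ},
    Bd h → (∀ ξ, h ξ ≠ 0 → ∃ η ∈ V0, rE n η = ξ) →
    ∫⁻ x, M m h x ^ 2 ≤ C * m * ((lg m : ℕ) : ℝ≥0∞) ^ 5 * n2 h := by
  intro n
  induction n with
  | zero =>
    intro h hh hV
    refine est0 hC m hm hh fun ξ hξ => ?_
    obtain ⟨η, h1, h2⟩ := hV ξ hξ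
    rw [← h2]
    exact h1
  | succ n ih =>
    intro h hh hV
    rw [est_E, ← n2_E]
    refine ih (Bd_E hh) fun ξ hξ => ?_
    obtain ⟨η, h1, h2⟩ := hV _ hξ
    exact ⟨η, h1, E.injective h2⟩

theorem mem_V0 {ξ : ℝ × ℝ} (h1 : 1 ≤ nr ξ) (h2 : nr ξ < 2) (a b : ℝ)
    (hab : a ^ 2 + b ^ 2 = ξ.1 ^ 2 + ξ.2 ^ 2) (hb : |b| ≤ a) : (a, b) ∈ V0 := by
  have : nr (a, b) = nr ξ := by
    rw [nr, nr]
    simp only
    rw [hab]
  exact ⟨hb, this ▸ h1, this ▸ h2⟩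

def S0 : Set (ℝ × ℝ) := {ξ | |ξ.2| ≤ ξ.1}
def S1 : Set (ℝ × ℝ) := {ξ | |ξ.1| ≤ ξ.2}
def S2 : Set (ℝ × ℝ) := {ξ | |ξ.2| ≤ -ξ.1}

theorem mS0 : MeasurableSet S0 := measurableSet_le measurable_snd.abs measurable_fst
theorem mS1 : MeasurableSet S1 := measurableSet_le measurable_fst.abs measurable_snd
theorem mS2 : MeasurableSet S2 := measurableSet_le measurable_snd.abs measurable_fst.neg

theorem ind_add (S : Set (ℝ × ℝ)) (h : ℝ × ℝ → ℂ) :
    h = fun ξ => S.indicator h ξ + Sᶜ.indicator h ξ := by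
  funext ξ
  exact (indicator_self_add_compl_apply S h ξ).symm

theorem ind_ne {S : Set (ℝ × ℝ)} {h : ℝ × ℝ → ℂ} {ξ : ℝ × ℝ} (hξ : S.indicator h ξ ≠ 0) :
    ξ ∈ S ∧ h ξ ≠ 0 := by
  by_cases hS : ξ ∈ S
  · rw [indicator_of_mem hS] at hξ
    exact ⟨hS, hξ⟩
  · rw [indicator_of_notMem hS] at hξ
    exact absurd rfl hξ

end K_

open K_ in
theorem pK (hM : tMV) : tK := by
  obtain ⟨C, hC⟩ := hM
  refine ⟨148 * C, fun m h hm hh hsupp => ?_⟩
  change ∫⁻ x, M m h x ^ 2 ≤ _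
  set K : ℝ≥0∞ := C * m * ((lg m : ℕ) : ℝ≥0∞) ^ 5 with hK
  -- the four pieces
  set g0 := S0.indicator h with hg0
  set r0 := S0ᶜ.indicator h with hr0
  set g1 := S1.indicator r0 with hg1
  set r1 := S1ᶜ.indicator r0 with hr1
  set g2 := S2.indicator r1 with hg2
  set r2 := S2ᶜ.indicator r1 with hr2
  have b0 : Bd g0 := Bd_indicator hh mS0
  have c0 : Bd r0 := Bd_indicator hh mS0.compl
  have b1 : Bd g1 := Bd_indicator c0 mS1
  have c1 : Bd r1 := Bd_indicator c0 mS1.compl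
  have b2 : Bd g2 := Bd_indicator c1 mS2
  have c2 : Bd r2 := Bd_indicator c1 mS2.compl
  have n0 : n2 g0 ≤ n2 h := n2_indicator _ _
  have k0 : n2 r0 ≤ n2 h := n2_indicator _ _
  have n1 : n2 g1 ≤ n2 h := (n2_indicator _ _).trans k0
  have k1 : n2 r1 ≤ n2 h := (n2_indicator _ _).trans k0
  have n2' : n2 g2 ≤ n2 h := (n2_indicator _ _).trans k1
  have k2 : n2 r2 ≤ n2 h := (n2_indicator _ _).trans k1
  have e0 : ∫⁻ x, M m g0 x ^ 2 ≤ K * n2 h := by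
    refine (est_r hC m hm 0 b0 fun ξ hξ => ?_).trans (mul_le_mul_right n0 K)
    obtain ⟨h1, h2⟩ := ind_ne hξ
    obtain ⟨h3, h4⟩ := hsupp ξ h2
    exact ⟨(ξ.1, ξ.2), mem_V0 h3 h4 _ _ rfl h1, rfl⟩
  have e1 : ∫⁻ x, M m g1 x ^ 2 ≤ K * n2 h := by
    refine (est_r hC m hm 1 b1 fun ξ hξ => ?_).trans (mul_le_mul_right n1 K)
    obtain ⟨h1, h2⟩ := ind_ne hξ
    obtain ⟨h3, h4⟩ := ind_ne h2
    obtain ⟨h5, h6⟩ := hsupp ξ h4
    refine ⟨(ξ.2, -ξ.1), mem_V0 h5 h6 _ _ (by ring) ?_, ?_⟩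
    · rw [abs_neg]
      exact h1
    · simp only [rE, E_apply, neg_neg]
  have e2 : ∫⁻ x, M m g2 x ^ 2 ≤ K * n2 h := by
    refine (est_r hC m hm 2 b2 fun ξ hξ => ?_).trans (mul_le_mul_right n2' K)
    obtain ⟨h1, h2⟩ := ind_ne hξ
    obtain ⟨h3, h4⟩ := ind_ne h2
    obtain ⟨h3', h4'⟩ := ind_ne h4
    obtain ⟨h5, h6⟩ := hsupp ξ h4'
    refine ⟨(-ξ.1, -ξ.2), mem_V0 h5 h6 _ _ (by ring) ?_, ?_⟩
    · rw [abs_neg]
      exact h1
    · simp only [rE, E_apply, neg_neg]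
  have e3 : ∫⁻ x, M m r2 x ^ 2 ≤ K * n2 h := by
    refine (est_r hC m hm 3 c2 fun ξ hξ => ?_).trans (mul_le_mul_right k2 K)
    obtain ⟨h1, h2⟩ := ind_ne hξ
    obtain ⟨h3, h4⟩ := ind_ne h2
    obtain ⟨h3', h4'⟩ := ind_ne h4
    obtain ⟨h5, h6⟩ := hsupp ξ h4'
    have j1 : ¬ |ξ.2| ≤ -ξ.1 := h1
    have j2 : ¬ |ξ.1| ≤ ξ.2 := h3
    have j3 : ¬ |ξ.2| ≤ ξ.1 := h3'
    refine ⟨(-ξ.2, ξ.1), mem_V0 h5 h6 _ _ (by ring) ?_, ?_⟩
    · rcases le_total 0 ξ.1 with p | p <;> rcases le_total 0 ξ.2 with q | q <;>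
        simp only [abs_of_nonneg, abs_of_nonpos, p, q] at j1 j2 j3 ⊢ <;> linarith
    · simp only [rE, E_apply, neg_neg]
  have f2 : ∫⁻ x, M m r1 x ^ 2 ≤ 4 * (K * n2 h) + 4 * (K * n2 h) := by
    have := est_add m b2 c2
    rw [← ind_add] at this
    exact this.trans (add_le_add (mul_le_mul_right e2 4) (mul_le_mul_right e3 4))
  have f1 : ∫⁻ x, M m r0 x ^ 2 ≤ 4 * (K * n2 h) + 4 * (4 * (K * n2 h) + 4 * (K * n2 h)) := by
    have := est_add m b1 c1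
    rw [← ind_add] at this
    exact this.trans (add_le_add (mul_le_mul_right e1 4) (mul_le_mul_right f2 4))
  have f0 : ∫⁻ x, M m h x ^ 2 ≤
      4 * (K * n2 h) + 4 * (4 * (K * n2 h) + 4 * (4 * (K * n2 h) + 4 * (K * n2 h))) := by
    have := est_add m b0 c0
    rw [← ind_add] at this
    exact this.trans (add_le_add (mul_le_mul_right e0 4) (mul_le_mul_right f1 4))
  refine f0.trans (le_of_eq ?_)
  rw [hK]
  push_cast
  ring

end Pool.Agent.KSP
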