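import Pool.Agent.KSP.Targets

set_option autoImplicit false

/-! KSP, L5: bilinear estimate for separated strips. -/

namespace Pool.Agent.KSP

open MeasureTheory Set
open scoped ENNReal NNReal ComplexConjugate

namespace BL_

/-- Cauchy-Schwarz for sums -/
theorem cs_tsum {ι : Type*} (x α β : ι → ℝ≥0∞) (K : ℝ≥0∞)
    (h : ∀ z, x z ^ 2 ≤ K * (α z * β z)) :
    (∑' z, x z) ^ 2 ≤ K * ((∑' z, α z) * ∑' z, β z) := by
  have hx : ∀ z, x z ≤ (K * α z) ^ (1 / 2 : ℝ) * (β z) ^ (1 / 2 : ℝ) := by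
    intro z
    rw [← ENNReal.mul_rpow_of_nonneg _ _ (by norm_num : (0 : ℝ) ≤ 1 / 2), mul_assoc]
    calc x z = (x z ^ 2) ^ (1 / 2 : ℝ) := by
          rw [← ENNReal.rpow_natCast, ← ENNReal.rpow_mul]; norm_num
      _ ≤ _ := ENNReal.rpow_le_rpow (h z) (by norm_num)
  have hc : Real.HolderConjugate 2 2 := by
    rw [Real.holderConjugate_iff]; norm_num
  have hsq : ∀ y : ℝ≥0∞, (y ^ (1 / 2 : ℝ)) ^ (2 : ℝ) = y := by
    intro y; rw [← ENNReal.rpow_mul]; norm_num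
  have key : ∑' z, x z ≤ (K * ((∑' z, α z) * ∑' z, β z)) ^ (1 / 2 : ℝ) := by
    rw [ENNReal.tsum_eq_iSup_sum]
    refine iSup_le fun F => ?_
    calc ∑ z ∈ F, x z ≤ ∑ z ∈ F, (K * α z) ^ (1 / 2 : ℝ) * (β z) ^ (1 / 2 : ℝ) :=
          Finset.sum_le_sum fun z _ => hx z
      _ ≤ _ := ENNReal.inner_le_Lp_mul_Lq F _ _ hc
      _ = (∑ z ∈ F, K * α z) ^ (1 / 2 : ℝ) * (∑ z ∈ F, β z) ^ (1 / 2 : ℝ) := by
          simp only [hsq]
      _ = ((∑ z ∈ F, K * α z) * (∑ z ∈ F, β z)) ^ (1 / 2 : ℝ) := by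
          rw [ENNReal.mul_rpow_of_nonneg _ _ (by norm_num : (0 : ℝ) ≤ 1 / 2)]
      _ ≤ _ := by
          refine ENNReal.rpow_le_rpow ?_ (by norm_num)
          rw [← Finset.mul_sum, mul_assoc]
          gcongr
          · exact ENNReal.sum_le_tsum F
          · exact ENNReal.sum_le_tsum F
  calc (∑' z, x z) ^ 2 ≤ ((K * ((∑' z, α z) * ∑' z, β z)) ^ (1 / 2 : ℝ)) ^ 2 := by gcongr
    _ = _ := by
      rw [← ENNReal.rpow_natCast, ← ENNReal.rpow_mul]; norm_num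

/-- the parallelogram -/
def pg (a b t : ℝ) (z : ℤ × ℤ) : Set (ℝ × ℝ) :=
  {x | ⌊4 * a * x.1⌋ = z.1 ∧ ⌊4 * b * (x.2 - t * x.1)⌋ = z.2}

theorem pg_meas (a b t : ℝ) (z : ℤ × ℤ) : MeasurableSet (pg a b t z) := by
  have h1 : Measurable fun x : ℝ × ℝ => ⌊4 * a * x.1⌋ :=
    Int.measurable_floor.comp (by fun_prop)
  have h2 : Measurable fun x : ℝ × ℝ => ⌊4 * b * (x.2 - t * x.1)⌋ :=
    Int.measurable_floor.comp (by fun_prop)
  exact (h1 (measurableSet_singleton z.1)).inter (h2 (measurableSet_singleton z.2))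

theorem pg_disj (a b t : ℝ) : Pairwise (Function.onFun Disjoint (pg a b t)) := by
  intro z z' hzz
  rw [Function.onFun, Set.disjoint_left]
  rintro x ⟨h1, h2⟩ ⟨h3, h4⟩
  exact hzz (Prod.ext (h1.symm.trans h3) (h2.symm.trans h4))

theorem pg_bdd {a b t : ℝ} (ha : 0 < a) (hb : 0 < b) (z : ℤ × ℤ) :
    ∃ R : ℝ, ∀ x ∈ pg a b t z, |x.1| ≤ R ∧ |x.2| ≤ R := by
  set R1 : ℝ := (|(z.1 : ℝ)| + 1) / (4 * a) with hR1
  set R2 : ℝ := (|(z.2 : ℝ)| + 1) / (4 * b) + |t| * R1 with hR2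
  have hR1p : 0 ≤ R1 := by positivity
  have hR2p : 0 ≤ R2 := by positivity
  have hfl : ∀ (y : ℝ) (m : ℤ), ⌊y⌋ = m → |y| ≤ |(m : ℝ)| + 1 := by
    intro y m h
    have h1 := Int.floor_le y
    have h2 := Int.lt_floor_add_one y
    rw [h] at h1 h2
    rw [abs_le]
    constructor
    · linarith [neg_abs_le (m : ℝ)]
    · linarith [le_abs_self (m : ℝ)]
  refine ⟨R1 + R2, fun x hx => ?_⟩
  have h1 := hfl _ _ hx.1
  have h2 := hfl _ _ hx.2
  have h3 : |x.1| ≤ R1 := by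
    rw [hR1, le_div_iff₀ (by positivity)]
    rw [abs_mul, abs_of_pos (by positivity : (0 : ℝ) < 4 * a)] at h1
    linarith
  have h4 : |x.2 - t * x.1| ≤ (|(z.2 : ℝ)| + 1) / (4 * b) := by
    rw [le_div_iff₀ (by positivity)]
    rw [abs_mul, abs_of_pos (by positivity : (0 : ℝ) < 4 * b)] at h2
    linarith
  have h5 : |x.2| ≤ R2 := by
    have h6 : |x.2| ≤ |x.2 - t * x.1| + |t * x.1| := by
      calc |x.2| = |(x.2 - t * x.1) + t * x.1| := by ring_nf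
        _ ≤ _ := abs_add_le _ _
    have h7 : |t * x.1| ≤ |t| * R1 := by rw [abs_mul]; gcongr
    linarith
  exact ⟨by linarith, by linarith⟩

theorem n2_lt_top {h : ℝ × ℝ → ℂ} (hh : Bd h) : n2 h < ∞ := by
  obtain ⟨hm, ⟨B, hB⟩, R, hR⟩ := hh
  unfold n2
  have h1 : ∀ ξ, ‖h ξ‖ₑ ^ 2 ≤ (Icc (-R) R ×ˢ Icc (-R) R).indicator
      (fun _ => ENNReal.ofReal (B ^ 2)) ξ := by
    intro ξ
    by_cases h0 : h ξ = 0
    · simp [h0]
    · have h2 := hR ξ h0
      rw [indicator_of_mem (by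
        exact ⟨abs_le.1 h2.1, abs_le.1 h2.2⟩ : ξ ∈ Icc (-R) R ×ˢ Icc (-R) R)]
      rw [← ofReal_norm, ← ENNReal.ofReal_pow (norm_nonneg _)]
      exact ENNReal.ofReal_le_ofReal (by have := hB ξ; gcongr)
  refine (lintegral_mono h1).trans_lt ?_
  rw [lintegral_indicator (measurableSet_Icc.prod measurableSet_Icc), setLIntegral_const]
  refine ENNReal.mul_lt_top ENNReal.ofReal_lt_top ?_
  exact (isCompact_Icc.prod isCompact_Icc).measure_lt_top

theorem str_bd {k : ℕ} {p : ℤ} {h : ℝ × ℝ → ℂ} (hh : Bd h) : Bd (str k p h) := by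
  obtain ⟨hm, ⟨B, hB⟩, R, hR⟩ := hh
  have hB0 : 0 ≤ B := (norm_nonneg _).trans (hB 0)
  refine ⟨?_, ⟨B, fun ξ => ?_⟩, R, fun ξ hξ => ?_⟩
  · have h2 : Measurable fun ξ : ℝ × ℝ => ⌊(2 : ℝ) ^ k * ξ.2⌋ :=
      Int.measurable_floor.comp (by fun_prop)
    exact hm.indicator (h2 (measurableSet_singleton p))
  · unfold str
    by_cases hξ : ξ ∈ {ξ : ℝ × ℝ | ⌊(2 : ℝ) ^ k * ξ.2⌋ = p}
    · rw [indicator_of_mem hξ]; exact hB ξ
    · rw [indicator_of_notMem hξ, norm_zero]; exact hB0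
  · exact hR ξ fun h0 => hξ (by unfold str; rw [Set.indicator_apply, h0, ite_self])

theorem str_ne {k : ℕ} {p : ℤ} {h : ℝ × ℝ → ℂ} {ξ : ℝ × ℝ} (hξ : str k p h ξ ≠ 0) :
    h ξ ≠ 0 ∧ ⌊(2 : ℝ) ^ k * ξ.2⌋ = p := by
  unfold str at hξ
  rw [Set.indicator_apply_ne_zero] at hξ
  exact ⟨hξ.2, hξ.1⟩

/-- the weight -/
noncomputable def wt (T : Set (ℝ × ℝ)) (G : ℝ × ℝ → ℂ) (x : ℝ × ℝ) : ℝ :=
  T.indicator (fun x => (‖G x‖ ^ 2)⁻¹) x

theorem wt_bd {T : Set (ℝ × ℝ)} {G : ℝ × ℝ → ℂ} {m : ℝ} (hT : MeasurableSet T)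
    (hTb : ∃ R : ℝ, ∀ x ∈ T, |x.1| ≤ R ∧ |x.2| ≤ R) (hG : Continuous G) (hm : 0 < m)
    (hGm : ∀ x ∈ T, m ≤ ‖G x‖) :
    Bd (fun x => (wt T G x : ℂ)) ∧
      n2 (fun x => (wt T G x : ℂ)) ≤ ENNReal.ofReal ((m ^ 4)⁻¹) * volume T := by
  have hle : ∀ x ∈ T, (‖G x‖ ^ 2)⁻¹ ≤ (m ^ 2)⁻¹ := by
    intro x hx
    have := hGm x hx
    gcongr
  have hnn : ∀ x, 0 ≤ (‖G x‖ ^ 2)⁻¹ := fun x => by positivity
  have hmeas : Measurable (wt T G) := by
    refine Measurable.indicator ?_ hT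
    exact (hG.norm.measurable.pow_const 2).inv
  have hnorm : ∀ x, ‖((wt T G x : ℝ) : ℂ)‖ = T.indicator (fun x => (‖G x‖ ^ 2)⁻¹) x := by
    intro x
    rw [Complex.norm_real, Real.norm_of_nonneg]
    · rfl
    · exact Set.indicator_nonneg (fun x _ => hnn x) x
  refine ⟨⟨Complex.measurable_ofReal.comp hmeas, ⟨(m ^ 2)⁻¹, fun x => ?_⟩, ?_⟩, ?_⟩
  · rw [hnorm]
    by_cases hx : x ∈ T
    · rw [indicator_of_mem hx]; exact hle x hx
    · rw [indicator_of_notMem hx]; positivity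
  · obtain ⟨R, hR⟩ := hTb
    refine ⟨R, fun x hx => hR x ?_⟩
    by_contra h
    apply hx
    simp [wt, indicator_of_notMem h]
  · unfold n2
    have h1 : ∀ x, ‖((wt T G x : ℝ) : ℂ)‖ₑ ^ 2 ≤
        T.indicator (fun _ => ENNReal.ofReal ((m ^ 4)⁻¹)) x := by
      intro x
      rw [← ofReal_norm, hnorm]
      by_cases hx : x ∈ T
      · rw [indicator_of_mem hx, indicator_of_mem hx, ← ENNReal.ofReal_pow (hnn x)]
        refine ENNReal.ofReal_le_ofReal ?_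
        calc ((‖G x‖ ^ 2)⁻¹) ^ 2 ≤ ((m ^ 2)⁻¹) ^ 2 := by have := hle x hx; have := hnn x; gcongr
          _ = (m ^ 4)⁻¹ := by rw [inv_pow, ← pow_mul]
      · rw [indicator_of_notMem hx, indicator_of_notMem hx]; simp
    calc ∫⁻ x, ‖((wt T G x : ℝ) : ℂ)‖ₑ ^ 2
        ≤ ∫⁻ x, T.indicator (fun _ => ENNReal.ofReal ((m ^ 4)⁻¹)) x := lintegral_mono h1
      _ = _ := by rw [lintegral_indicator hT, setLIntegral_const]

theorem wt_int {T : Set (ℝ × ℝ)} {G U V : ℝ × ℝ → ℂ} {m : ℝ} (hT : MeasurableSet T) (hm : 0 < m)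
    (hGm : ∀ x ∈ T, m ≤ ‖G x‖) :
    ∫ x, (wt T G x : ℂ) * ((G x * U x) * conj (G x * V x)) = ∫ x in T, U x * conj (V x) := by
  rw [← integral_indicator hT]
  congr 1
  funext x
  by_cases hx : x ∈ T
  · rw [indicator_of_mem hx, wt, indicator_of_mem hx]
    have h1 : G x ≠ 0 := by
      intro h0
      have := hGm x hx
      rw [h0, norm_zero] at this
      linarith
    have h2 : ((‖G x‖ : ℝ) : ℂ) ^ 2 = G x * conj (G x) := by
      rw [Complex.mul_conj, Complex.normSq_eq_norm_sq]; push_cast; rfl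
    have h3 : G x * conj (G x) ≠ 0 := mul_ne_zero h1 ((map_ne_zero _).2 h1)
    push_cast
    rw [h2, map_mul]
    calc (G x * conj (G x))⁻¹ * (G x * U x * (conj (G x) * conj (V x)))
        = (G x * conj (G x))⁻¹ * (G x * conj (G x)) * (U x * conj (V x)) := by ring
      _ = U x * conj (V x) := by rw [inv_mul_cancel₀ h3, one_mul]
  · rw [indicator_of_notMem hx, wt, indicator_of_notMem hx]
    simp

theorem prod_int (hPl : tPl2) {u v : ℝ × ℝ → ℂ} (hu : Bd u) (hv : Bd v) :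
    Integrable (fun x => Ex u x * conj (Ex v x)) := by
  have key : ∀ w : ℝ × ℝ → ℂ, Bd w → MemLp (Ex w) 2 := by
    intro w hw
    obtain ⟨h1, h2⟩ := hPl w hw
    refine ⟨h1.aestronglyMeasurable, ?_⟩
    rw [eLpNorm_lt_top_iff_lintegral_rpow_enorm_lt_top (by norm_num) (by norm_num)]
    have h3 : ∫⁻ x, ‖Ex w x‖ₑ ^ (2 : ℝ≥0∞).toReal = n2 w := by
      rw [← h2]
      congr 1
      funext x
      rw [show (2 : ℝ≥0∞).toReal = ((2 : ℕ) : ℝ) by norm_num, ENNReal.rpow_natCast]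
    rw [h3]
    exact n2_lt_top hw
  have h2 : MemLp (fun x => conj (Ex v x)) 2 := by
    have := key v hv
    exact ((memLp_norm_iff (Complex.continuous_conj.comp (hPl v hv).1).aestronglyMeasurable).1
      (by simpa using this.norm))
  exact (key u hu).integrable_mul h2

/-- the sum of the localised pieces -/
theorem sum_n2 (hPl : tPl2) (hCv : tCv) {a b t : ℝ} {C : ℝ≥0} (hB : ∀ c, Bd (par a b t c))
    (hS : ∀ x, ∑' z : ℤ × ℤ, ‖Ex (par a b t (cen a b t z)) x‖ₑ ^ 2 ≤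
      C * ENNReal.ofReal ((a * b) ^ 2)) {u : ℝ × ℝ → ℂ} (hu : Bd u) :
    ∑' z : ℤ × ℤ, n2 (cv (par a b t (cen a b t z)) u) ≤
      C * ENNReal.ofReal ((a * b) ^ 2) * n2 u := by
  have h1 : ∀ z : ℤ × ℤ, n2 (cv (par a b t (cen a b t z)) u) =
      ∫⁻ x, ‖Ex (par a b t (cen a b t z)) x‖ₑ ^ 2 * ‖Ex u x‖ₑ ^ 2 := by
    intro z
    obtain ⟨h1, _, h3⟩ := hCv _ u (hB (cen a b t z)) hu
    rw [← (hPl _ h1).2]
    congr 1
    funext x
    rw [h3, enorm_mul, mul_pow]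
  simp_rw [h1]
  rw [← lintegral_tsum]
  · simp_rw [ENNReal.tsum_mul_right]
    calc ∫⁻ x, (∑' z : ℤ × ℤ, ‖Ex (par a b t (cen a b t z)) x‖ₑ ^ 2) * ‖Ex u x‖ₑ ^ 2
        ≤ ∫⁻ x, (C * ENNReal.ofReal ((a * b) ^ 2)) * ‖Ex u x‖ₑ ^ 2 :=
          lintegral_mono fun x => by gcongr; exact hS x
      _ = _ := by
          rw [lintegral_const_mul _ ((hPl u hu).1.measurable.enorm.pow_const 2), (hPl u hu).2]
  · intro z
    exact (((hPl _ (hB _)).1.measurable.enorm.pow_const 2).mul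
      ((hPl u hu).1.measurable.enorm.pow_const 2)).aemeasurable

end BL_

open BL_

theorem pBL (hPl : tPl2) (hCv : tCv) (hPar : tPar) (hHS : tHS) (hCoV : tCoV) (hArc : tArc)
    (hSupp : tSupp) (hCover : tCover) : tBL := by
  obtain ⟨C3, hPar⟩ := hPar
  obtain ⟨C1, hCoV⟩ := hCoV
  obtain ⟨C2, hArc⟩ := hArc
  obtain ⟨t, hSupp⟩ := hSupp
  obtain ⟨C4, hCover⟩ := hCover
  refine ⟨(C1 + 2 * C2) * C4 * C3 ^ 2 * 4096, ?_⟩
  intro j k ρ A p p' E h hj hk hρ1 hρ2 hA hE hdens hh hsup hcase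
  obtain ⟨ht2, hSupp⟩ := hSupp j k ρ p hj hk hρ1 hρ2
  set T := t k ρ p with hT
  set a : ℝ := 1 / 2 ^ j / 64 with ha
  set b : ℝ := 2 ^ k / 2 ^ j / 64 with hb
  have ha0 : 0 < a := by positivity
  have hb0 : 0 < b := by positivity
  obtain ⟨hBd, hsize, -, hsum⟩ := hPar a b T ha0 hb0
  have hpp : |p' - p| ≤ 3 := by
    rcases hcase with h1 | h1
    · rw [abs_sub_comm]; exact h1.2
    · rw [h1.2, sub_self, abs_zero]; norm_num
  have hu : Bd (str k p h) := str_bd hh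
  have hv : Bd (str k p' h) := str_bd hh
  -- supports after localisation
  have hloc : ∀ (c : ℝ × ℝ) (q : ℤ), |q - p| ≤ 3 → ∀ ζ, cv (par a b T c) (str k q h) ζ ≠ 0 →
      ζ ∈ arc j k ρ q := by
    intro c q hq ζ hζ
    obtain ⟨η, h1, h2⟩ := (hCv _ _ (hBd c) (str_bd hh)).2.1 ζ hζ
    obtain ⟨h3, h4⟩ := str_ne h2
    obtain ⟨h5, h6⟩ := hsup _ h3
    have h7 : |η.2| ≤ b ∧ |η.1 + T * η.2| ≤ a := by
      by_contra hcon
      apply h1
      unfold par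
      rw [if_neg hcon]
    have h8 := hSupp q (ζ - η) η hq h5 h6 h4 h7.1 h7.2
    rwa [sub_add_cancel] at h8
  -- the double integral
  have hdouble : ∀ F : ℝ × ℝ → ℝ≥0∞, Measurable F →
      ∫⁻ ζ in arc j k ρ p, ∫⁻ ζ' in arc j k ρ p', F (ζ - ζ') ≤
        ((C1 + 2 * C2 : ℝ≥0) : ℝ≥0∞) * ENNReal.ofReal (2 ^ k / 4 ^ j) * ∫⁻ ζ, F ζ := by
    intro F hF
    rcases hcase with h1 | h1
    · refine (hCoV j k ρ p p' F hj hk hρ1 hρ2 h1.1 hF).trans ?_
      gcongr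
      exact_mod_cast (le_add_of_nonneg_right (by positivity) : C1 ≤ C1 + 2 * C2)
    · calc ∫⁻ ζ in arc j k ρ p, ∫⁻ ζ' in arc j k ρ p', F (ζ - ζ')
          ≤ ∫⁻ ζ in arc j k ρ p, ∫⁻ ζ', F (ζ - ζ') :=
            lintegral_mono fun ζ => setLIntegral_le_lintegral _ _
        _ = (∫⁻ ζ, F ζ) * volume (arc j k ρ p) := by
            have h2 : ∀ ζ : ℝ × ℝ, ∫⁻ ζ', F (ζ - ζ') = ∫⁻ ζ', F ζ' := fun ζ =>
              lintegral_sub_left_eq_self F ζ
            simp_rw [h2]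
            rw [setLIntegral_const]
        _ ≤ (∫⁻ ζ, F ζ) * (C2 * ENNReal.ofReal (1 / 2 ^ j / 2 ^ k)) := by
            gcongr
            exact (hArc j k ρ p hρ1 hρ2).2
        _ ≤ (∫⁻ ζ, F ζ) * (C2 * ENNReal.ofReal (2 * (2 ^ k / 4 ^ j))) := by
            gcongr
            have h3 : (2 : ℝ) ^ j ≤ 2 * (2 ^ k * 2 ^ k) := by
              rw [← pow_add, ← pow_succ']
              exact pow_le_pow_right₀ (by norm_num) (by omega)
            have h4 : (4 : ℝ) ^ j = 2 ^ j * 2 ^ j := by rw [← mul_pow]; norm_num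
            rw [h4, div_div, div_le_iff₀ (by positivity)]
            have h5 : (0 : ℝ) < 2 ^ j := by positivity
            have h6 : 2 * (2 ^ k / (2 ^ j * 2 ^ j)) * ((2 : ℝ) ^ j * 2 ^ k) =
                2 * (2 ^ k * 2 ^ k) / 2 ^ j := by field_simp
            rw [h6, le_div_iff₀ h5]
            linarith
        _ ≤ _ := by
            rw [ENNReal.ofReal_mul (by norm_num : (0 : ℝ) ≤ 2), ENNReal.ofReal_ofNat]
            calc (∫⁻ ζ, F ζ) * (C2 * (2 * ENNReal.ofReal (2 ^ k / 4 ^ j)))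
                = ((2 * C2 : ℝ≥0) : ℝ≥0∞) * ENNReal.ofReal (2 ^ k / 4 ^ j) * ∫⁻ ζ, F ζ := by
                  push_cast; ring
              _ ≤ _ := by
                  gcongr
                  exact_mod_cast (le_add_of_nonneg_left (by positivity) : 2 * C2 ≤ C1 + 2 * C2)
  -- sizes
  have hab : 0 < a * b := by positivity
  have hr2 : ((2 : ℝ) ^ (j / 2)) ^ 2 = 4 ^ (j / 2) := by
    rw [← pow_mul, mul_comm, pow_mul]; norm_num
  have hra : (2 : ℝ) ^ (j / 2) ≤ 1 / a := by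
    have e : 1 / a = 64 * 2 ^ j := by rw [ha]; field_simp
    have h1 : (2 : ℝ) ^ (j / 2) ≤ 2 ^ j := pow_le_pow_right₀ (by norm_num) (by omega)
    rw [e]
    linarith [pow_pos (by norm_num : (0 : ℝ) < 2) j]
  have hrb : (2 : ℝ) ^ (j / 2) ≤ 1 / b := by
    have e : 1 / b = 64 * 2 ^ j / 2 ^ k := by rw [hb]; field_simp
    have h1 : (2 : ℝ) ^ (j / 2) * 2 ^ k ≤ 2 ^ j := by
      rw [← pow_add]
      exact pow_le_pow_right₀ (by norm_num) (by omega)
    rw [e, le_div_iff₀ (by positivity)]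
    linarith [pow_pos (by norm_num : (0 : ℝ) < 2) j]
  have hab2 : (2 : ℝ) ^ k / 4 ^ j = 4096 * (a * b) := by
    have h4 : (4 : ℝ) ^ j = 2 ^ j * 2 ^ j := by rw [← mul_pow]; norm_num
    rw [ha, hb, h4]
    field_simp
    norm_num
  set K : ℝ≥0∞ := ((C1 + 2 * C2 : ℝ≥0) : ℝ≥0∞) * ENNReal.ofReal (2 ^ k / 4 ^ j) *
    (ENNReal.ofReal (((a * b) ^ 4)⁻¹) * (C4 * ENNReal.ofReal (1 / (a * b * A)))) with hK
  have hpiece : ∀ z : ℤ × ℤ,
      ‖∫ x in E ∩ pg a b T z, Ex (str k p h) x * conj (Ex (str k p' h) x)‖ₑ ^ 2 ≤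
        K * (n2 (cv (par a b T (cen a b T z)) (str k p h)) *
          n2 (cv (par a b T (cen a b T z)) (str k p' h))) := by
    intro z
    set G := Ex (par a b T (cen a b T z)) with hG
    set U := cv (par a b T (cen a b T z)) (str k p h) with hU
    set V := cv (par a b T (cen a b T z)) (str k p' h) with hV
    have hGc : Continuous G := (hPl _ (hBd _)).1
    have hm : MeasurableSet (E ∩ pg a b T z) := hE.inter (pg_meas a b T z)
    have hGm : ∀ x ∈ E ∩ pg a b T z, a * b ≤ ‖G x‖ := fun x hx => hsize z x hx.2.1 hx.2.2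
    have hbdd : ∃ R : ℝ, ∀ x ∈ E ∩ pg a b T z, |x.1| ≤ R ∧ |x.2| ≤ R := by
      obtain ⟨R, hR⟩ := pg_bdd (t := T) ha0 hb0 z
      exact ⟨R, fun x hx => hR x hx.2⟩
    obtain ⟨hw1, hw2⟩ := wt_bd hm hbdd hGc hab hGm
    obtain ⟨hU1, _, hU3⟩ := hCv _ _ (hBd (cen a b T z)) hu
    obtain ⟨hV1, _, hV3⟩ := hCv _ _ (hBd (cen a b T z)) hv
    have h1 := hHS U V (wt (E ∩ pg a b T z) G) (arc j k ρ p) (arc j k ρ p') hU1 hV1 hw1
      (hArc j k ρ p hρ1 hρ2).1 (hArc j k ρ p' hρ1 hρ2).1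
      (hloc _ p (by rw [sub_self, abs_zero]; norm_num)) (hloc _ p' hpp)
    have h2 : ∫ x, (wt (E ∩ pg a b T z) G x : ℂ) * (Ex U x * conj (Ex V x)) =
        ∫ x in E ∩ pg a b T z, Ex (str k p h) x * conj (Ex (str k p' h) x) := by
      rw [← wt_int hm hab hGm]
      congr 1
      funext x
      rw [hU3, hV3]
    rw [h2] at h1
    refine h1.trans ?_
    obtain ⟨hwc, hwn⟩ := hPl _ hw1
    have h3 := hdouble (fun ζ => ‖Ex (fun x => (wt (E ∩ pg a b T z) G x : ℂ)) ζ‖ₑ ^ 2)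
      (hwc.measurable.enorm.pow_const 2)
    rw [hwn] at h3
    have h4 := hCover E a b T (2 ^ (j / 2)) A z hE ha0 hb0 ht2 (by positivity) hra hrb hA
      (fun y => by rw [hr2]; exact hdens y)
    calc n2 U * n2 V * ∫⁻ ζ in arc j k ρ p, ∫⁻ ζ' in arc j k ρ p',
          ‖Ex (fun x => (wt (E ∩ pg a b T z) G x : ℂ)) (ζ - ζ')‖ₑ ^ 2
        ≤ n2 U * n2 V * (((C1 + 2 * C2 : ℝ≥0) : ℝ≥0∞) * ENNReal.ofReal (2 ^ k / 4 ^ j) *
            (ENNReal.ofReal (((a * b) ^ 4)⁻¹) * (C4 * ENNReal.ofReal (1 / (a * b * A))))) := by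
          gcongr
          refine h3.trans ?_
          gcongr
          refine hw2.trans ?_
          gcongr
          exact h4
      _ = K * (n2 U * n2 V) := by rw [hK]; ring
  -- the sum
  have hcov : E = ⋃ z : ℤ × ℤ, E ∩ pg a b T z := by
    ext x
    simp only [mem_iUnion]
    constructor
    · intro hx
      exact ⟨(⌊4 * a * x.1⌋, ⌊4 * b * (x.2 - T * x.1)⌋), hx, rfl, rfl⟩
    · rintro ⟨z, hx, _⟩
      exact hx
  have hint := prod_int hPl hu hv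
  have hdisj : Pairwise (Function.onFun Disjoint fun z : ℤ × ℤ => E ∩ pg a b T z) := by
    intro z z' hzz
    exact (pg_disj a b T hzz).mono inter_subset_right inter_subset_right
  have hsum1 := hasSum_integral_iUnion (μ := (volume : Measure (ℝ × ℝ)))
    (s := fun z : ℤ × ℤ => E ∩ pg a b T z)
    (f := fun x => Ex (str k p h) x * conj (Ex (str k p' h) x))
    (fun z => hE.inter (pg_meas a b T z)) hdisj hint.integrableOn
  rw [← hcov] at hsum1
  have hfin := cs_tsum _ _ _ K hpiece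
  calc ‖∫ x in E, Ex (str k p h) x * conj (Ex (str k p' h) x)‖ₑ ^ 2
      ≤ (∑' z : ℤ × ℤ,
          ‖∫ x in E ∩ pg a b T z, Ex (str k p h) x * conj (Ex (str k p' h) x)‖ₑ) ^ 2 := by
        rw [← hsum1.tsum_eq]
        gcongr
        exact enorm_tsum_le_tsum_enorm
    _ ≤ _ := hfin
    _ ≤ K * ((C3 * ENNReal.ofReal ((a * b) ^ 2) * n2 (str k p h)) *
          (C3 * ENNReal.ofReal ((a * b) ^ 2) * n2 (str k p' h))) := by
        gcongr
        · exact sum_n2 hPl hCv hBd hsum hu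
        · exact sum_n2 hPl hCv hBd hsum hv
    _ = _ := by
        have e : ENNReal.ofReal (2 ^ k / 4 ^ j) * ENNReal.ofReal (((a * b) ^ 4)⁻¹) *
            ENNReal.ofReal (1 / (a * b * A)) * ENNReal.ofReal ((a * b) ^ 2) *
            ENNReal.ofReal ((a * b) ^ 2) = 4096 * ENNReal.ofReal (1 / A) := by
          rw [← ENNReal.ofReal_mul (by positivity), ← ENNReal.ofReal_mul (by positivity),
            ← ENNReal.ofReal_mul (by positivity), ← ENNReal.ofReal_mul (by positivity), hab2,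
            show (4096 : ℝ≥0∞) = ENNReal.ofReal 4096 by norm_num,
            ← ENNReal.ofReal_mul (by norm_num)]
          congr 1
          field_simp
        have e2 : K * ((C3 * ENNReal.ofReal ((a * b) ^ 2) * n2 (str k p h)) *
            (C3 * ENNReal.ofReal ((a * b) ^ 2) * n2 (str k p' h))) =
            ((C1 + 2 * C2 : ℝ≥0) : ℝ≥0∞) * C4 * C3 ^ 2 *
              (ENNReal.ofReal (2 ^ k / 4 ^ j) * ENNReal.ofReal (((a * b) ^ 4)⁻¹) *
                ENNReal.ofReal (1 / (a * b * A)) * ENNReal.ofReal ((a * b) ^ 2) *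
                ENNReal.ofReal ((a * b) ^ 2)) * (n2 (str k p h) * n2 (str k p' h)) := by
          rw [hK]; ring
        rw [e2, e]
        push_cast
        ring

end Pool.Agent.KSP
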