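import Pool.Agent.KSP.Targets

set_option autoImplicit false

/-! P4: unpopular points -/

namespace Pool.Agent.KSP

open MeasureTheory Set
open scoped ENNReal NNReal

namespace Bad_

theorem meas_Qi (c : ℕ) : Measurable (Qi c) := by
  unfold Qi
  exact (Int.measurable_floor.comp (measurable_fst.div_const _)).prodMk
    (Int.measurable_floor.comp (measurable_snd.div_const _))

theorem meas_lev (q : ℕ) (k : ℝ × ℝ → ℕ) (hk : Measurable k) :
    Measurable (fun x => k x / q) :=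
  (measurable_from_top (f := fun n : ℕ => n / q)).comp hk

theorem meas_unpop (m A j : ℕ) (k : ℝ × ℝ → ℕ) (hk : Measurable k) :
    MeasurableSet {x | unpop m A j k x} := by
  have h : {x | unpop m A j k x} = (fun x => (Qi j x, k x / 2 ^ (m - j))) ⁻¹'
      {p : (ℤ × ℤ) × ℕ | (A : ℝ≥0∞) *
        volume {y : ℝ × ℝ | Qi j y = p.1 ∧ k y / 2 ^ (m - j) = p.2} <
          (4 : ℝ≥0∞) ^ (j / 2)} := rfl
  rw [h]
  exact ((meas_Qi j).prodMk (meas_lev _ k hk)) (Set.to_countable _).measurableSet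

theorem meas_bad (m A i : ℕ) (k : ℝ × ℝ → ℕ) (hk : Measurable k) :
    MeasurableSet (badS m A i k) := by
  have h : badS m A i k = ⋃ j ∈ Finset.range (i + 1), {x | unpop m A j k x} := by
    ext x
    simp only [badS, mem_ofPred_eq, mem_iUnion, Finset.mem_range, exists_prop]
    constructor
    · rintro ⟨j, hj, h⟩
      exact ⟨j, by omega, h⟩
    · rintro ⟨j, hj, h⟩
      exact ⟨j, by omega, h⟩
  rw [h]
  exact Finset.measurableSet_biUnion _ fun j _ => meas_unpop m A j k hk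

theorem Qi_eq (c : ℕ) (z : ℤ × ℤ) : {x : ℝ × ℝ | Qi c x = z} =
    Ico (z.1 * 2 ^ (c / 2) : ℝ) ((z.1 + 1) * 2 ^ (c / 2)) ×ˢ
      Ico (z.2 * 2 ^ (c / 2) : ℝ) ((z.2 + 1) * 2 ^ (c / 2)) := by
  have h2 : (0 : ℝ) < 2 ^ (c / 2) := by positivity
  ext x
  rw [mem_ofPred_eq, Prod.ext_iff, mem_prod, mem_Ico, mem_Ico]
  unfold Qi
  rw [Int.floor_eq_iff, Int.floor_eq_iff, le_div_iff₀ h2, div_lt_iff₀ h2, le_div_iff₀ h2,
    div_lt_iff₀ h2]

theorem vol_Qi (c : ℕ) (z : ℤ × ℤ) :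
    volume {x : ℝ × ℝ | Qi c x = z} = (4 : ℝ≥0∞) ^ (c / 2) := by
  rw [Qi_eq, Measure.volume_eq_prod, Measure.prod_prod, Real.volume_Ico, Real.volume_Ico]
  have h : ∀ a : ℤ, ((a : ℝ) + 1) * 2 ^ (c / 2) - a * 2 ^ (c / 2) = 2 ^ (c / 2) := by
    intro a; ring
  rw [h, h, ENNReal.ofReal_pow (by norm_num), ← mul_pow]
  congr 1
  rw [ENNReal.ofReal_ofNat]
  norm_num

theorem Qi_sub {i j : ℕ} (hij : j ≤ i) (x : ℝ × ℝ) :
    Qi j x ∈ Finset.Ico ((Qi i x).1 * 2 ^ (i / 2 - j / 2)) (((Qi i x).1 + 1) * 2 ^ (i / 2 - j / 2)) ×ˢ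
      Finset.Ico ((Qi i x).2 * 2 ^ (i / 2 - j / 2)) (((Qi i x).2 + 1) * 2 ^ (i / 2 - j / 2)) := by
  have hp : (2 : ℝ) ^ (i / 2) = 2 ^ (j / 2) * 2 ^ (i / 2 - j / 2) := by
    rw [← pow_add]
    congr 1
    omega
  have hj : (0 : ℝ) < 2 ^ (j / 2) := by positivity
  have he : (0 : ℝ) < 2 ^ (i / 2 - j / 2) := by positivity
  have key : ∀ t : ℝ, ⌊t / 2 ^ (i / 2)⌋ * 2 ^ (i / 2 - j / 2) ≤ ⌊t / 2 ^ (j / 2)⌋ ∧
      ⌊t / 2 ^ (j / 2)⌋ < (⌊t / 2 ^ (i / 2)⌋ + 1) * 2 ^ (i / 2 - j / 2) := by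
    intro t
    have h1 := Int.floor_le (t / 2 ^ (i / 2))
    have h2 := Int.lt_floor_add_one (t / 2 ^ (i / 2))
    have h3 : t / 2 ^ (i / 2) = t / 2 ^ (j / 2) / 2 ^ (i / 2 - j / 2) := by
      rw [hp, div_div]
    constructor
    · rw [Int.le_floor]
      push_cast
      rw [h3, le_div_iff₀ he] at h1
      rw [← h3] at h1
      exact h1
    · rw [Int.floor_lt]
      push_cast
      rw [h3, div_lt_iff₀ he] at h2
      rw [← h3] at h2
      exact h2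
  unfold Qi
  rw [Finset.mem_product, Finset.mem_Ico, Finset.mem_Ico]
  exact ⟨key x.1, key x.2⟩

theorem card_sub (z : ℤ × ℤ) (e : ℕ) : (Finset.Ico (z.1 * 2 ^ e) ((z.1 + 1) * 2 ^ e) ×ˢ
    Finset.Ico (z.2 * 2 ^ e) ((z.2 + 1) * 2 ^ e)).card = 4 ^ e := by
  rw [Finset.card_product, Int.card_Ico, Int.card_Ico]
  have h : ∀ a : ℤ, ((a + 1) * 2 ^ e - a * 2 ^ e).toNat = 2 ^ e := by
    intro a
    have : (a + 1) * 2 ^ e - a * 2 ^ e = ((2 ^ e : ℕ) : ℤ) := by push_cast; ring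
    rw [this, Int.toNat_natCast]
  rw [h, h, ← mul_pow]
  norm_num

/-- unpopular points of level `j` in a square of level `i` -/
theorem dens_level (m A i j : ℕ) (k : ℝ × ℝ → ℕ) (him : i ≤ m) (hij : j ≤ i) (v : ℕ)
    (z : ℤ × ℤ) :
    (A : ℝ≥0∞) * volume {x | Qi i x = z ∧ k x / 2 ^ (m - i) = v ∧ unpop m A j k x} ≤
      (4 : ℝ≥0∞) ^ (i / 2) := by
  set e : ℕ := i / 2 - j / 2 with he
  set Z := Finset.Ico (z.1 * 2 ^ e) ((z.1 + 1) * 2 ^ e) ×ˢ
    Finset.Ico (z.2 * 2 ^ e) ((z.2 + 1) * 2 ^ e) with hZ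
  have hcov : {x | Qi i x = z ∧ k x / 2 ^ (m - i) = v ∧ unpop m A j k x} ⊆
      ⋃ z' ∈ Z, {x | Qi j x = z' ∧ k x / 2 ^ (m - i) = v ∧ unpop m A j k x} := by
    rintro x ⟨h1, h2, h3⟩
    rw [mem_iUnion₂]
    refine ⟨Qi j x, ?_, rfl, h2, h3⟩
    have := Qi_sub hij x
    rw [h1] at this
    exact this
  have hone : ∀ z' ∈ Z, (A : ℝ≥0∞) *
      volume {x | Qi j x = z' ∧ k x / 2 ^ (m - i) = v ∧ unpop m A j k x} ≤
        (4 : ℝ≥0∞) ^ (j / 2) := by
    intro z' _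
    rcases Set.eq_empty_or_nonempty
      {x | Qi j x = z' ∧ k x / 2 ^ (m - i) = v ∧ unpop m A j k x} with h | ⟨x₀, h1, h2, h3⟩
    · rw [h, measure_empty, mul_zero]
      exact zero_le
    · refine le_trans (mul_le_mul_right (measure_mono ?_) _) h3.le
      rintro x ⟨g1, g2, _⟩
      refine ⟨by rw [g1, h1], ?_⟩
      have hq : 2 ^ (m - j) = 2 ^ (m - i) * 2 ^ (i - j) := by
        rw [← pow_add]; congr 1; omega
      rw [hq, ← Nat.div_div_eq_div_mul, ← Nat.div_div_eq_div_mul, g2, h2]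
  calc (A : ℝ≥0∞) * volume {x | Qi i x = z ∧ k x / 2 ^ (m - i) = v ∧ unpop m A j k x}
      ≤ (A : ℝ≥0∞) * ∑ z' ∈ Z,
          volume {x | Qi j x = z' ∧ k x / 2 ^ (m - i) = v ∧ unpop m A j k x} := by
        gcongr
        exact (measure_mono hcov).trans (measure_biUnion_finset_le _ _)
    _ = ∑ z' ∈ Z, (A : ℝ≥0∞) *
          volume {x | Qi j x = z' ∧ k x / 2 ^ (m - i) = v ∧ unpop m A j k x} := by
        rw [Finset.mul_sum]
    _ ≤ ∑ _z' ∈ Z, (4 : ℝ≥0∞) ^ (j / 2) := Finset.sum_le_sum hone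
    _ = (4 : ℝ≥0∞) ^ (i / 2) := by
        rw [Finset.sum_const, hZ, card_sub, nsmul_eq_mul]
        push_cast
        rw [← pow_add]
        congr 1
        omega

theorem dens_square (m A i : ℕ) (k : ℝ × ℝ → ℕ) (him : i ≤ m) (v : ℕ) (z : ℤ × ℤ) :
    (A : ℝ≥0∞) * volume ({x | k x / 2 ^ (m - i) = v} ∩ badS m A i k ∩ {x | Qi i x = z}) ≤
      ((i + 1 : ℕ) : ℝ≥0∞) * 4 ^ (i / 2) := by
  have hcov : {x | k x / 2 ^ (m - i) = v} ∩ badS m A i k ∩ {x | Qi i x = z} ⊆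
      ⋃ j ∈ Finset.range (i + 1),
        {x | Qi i x = z ∧ k x / 2 ^ (m - i) = v ∧ unpop m A j k x} := by
    rintro x ⟨⟨h1, j, hj, h2⟩, h3⟩
    rw [mem_iUnion₂]
    exact ⟨j, Finset.mem_range.2 (by omega), h3, h1, h2⟩
  calc (A : ℝ≥0∞) * volume ({x | k x / 2 ^ (m - i) = v} ∩ badS m A i k ∩ {x | Qi i x = z})
      ≤ (A : ℝ≥0∞) * ∑ j ∈ Finset.range (i + 1),
          volume {x | Qi i x = z ∧ k x / 2 ^ (m - i) = v ∧ unpop m A j k x} := by
        gcongr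
        exact (measure_mono hcov).trans (measure_biUnion_finset_le _ _)
    _ = ∑ j ∈ Finset.range (i + 1), (A : ℝ≥0∞) *
          volume {x | Qi i x = z ∧ k x / 2 ^ (m - i) = v ∧ unpop m A j k x} := by
        rw [Finset.mul_sum]
    _ ≤ ∑ _j ∈ Finset.range (i + 1), (4 : ℝ≥0∞) ^ (i / 2) :=
        Finset.sum_le_sum fun j hj => dens_level m A i j k him
          (by rw [Finset.mem_range] at hj; omega) v z
    _ = _ := by rw [Finset.sum_const, Finset.card_range, nsmul_eq_mul]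

theorem floor_two {r t y : ℝ} (hr : 0 < r) (h1 : y ≤ t) (h2 : t < y + r) :
    ⌊t / r⌋ = ⌊y / r⌋ ∨ ⌊t / r⌋ = ⌊y / r⌋ + 1 := by
  have h3 : ⌊y / r⌋ ≤ ⌊t / r⌋ := Int.floor_le_floor (div_le_div_of_nonneg_right h1 hr.le)
  have h4 : ⌊t / r⌋ < ⌊y / r⌋ + 2 := by
    rw [Int.floor_lt]
    push_cast
    have h5 : t / r < y / r + 1 := by
      rw [div_add_one hr.ne']
      exact div_lt_div_of_pos_right h2 hr
    have h6 := Int.lt_floor_add_one (y / r)
    linarith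
  omega

end Bad_

open Bad_ in
theorem pBad : tBad := by
  intro m A i k hA him hk hkm
  refine ⟨meas_bad m A i k hk, ?_, ?_⟩
  · intro v y
    have hA0 : (A : ℝ≥0∞) ≠ 0 := by
      have : A ≠ 0 := by omega
      exact_mod_cast this
    have hAt : (A : ℝ≥0∞) ≠ ⊤ := ENNReal.natCast_ne_top A
    set B := {x | k x / 2 ^ (m - i) = v} ∩ badS m A i k with hB
    have hone : ∀ z : ℤ × ℤ, volume (B ∩ {x | Qi i x = z}) ≤
        ((i + 1 : ℕ) : ℝ≥0∞) * 4 ^ (i / 2) / A := by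
      intro z
      rw [ENNReal.le_div_iff_mul_le (Or.inl hA0) (Or.inl hAt), mul_comm]
      exact dens_square m A i k him v z
    set a := ⌊y.1 / 2 ^ (i / 2)⌋ with ha
    set b := ⌊y.2 / 2 ^ (i / 2)⌋ with hb
    have hcov : B ∩ sq y (2 ^ (i / 2)) ⊆
        (B ∩ {x | Qi i x = (a, b)}) ∪ (B ∩ {x | Qi i x = (a + 1, b)}) ∪
          ((B ∩ {x | Qi i x = (a, b + 1)}) ∪ (B ∩ {x | Qi i x = (a + 1, b + 1)})) := by
      rintro x ⟨hx, hxs⟩
      obtain ⟨⟨h1, h2⟩, h3, h4⟩ := hxs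
      have hr : (0 : ℝ) < 2 ^ (i / 2) := by positivity
      have c1 := floor_two hr h1 h2
      have c2 := floor_two hr h3 h4
      have hQ : Qi i x = (⌊x.1 / 2 ^ (i / 2)⌋, ⌊x.2 / 2 ^ (i / 2)⌋) := rfl
      rw [← ha] at c1
      rw [← hb] at c2
      rcases c1 with c1 | c1 <;> rcases c2 with c2 | c2
      · exact Or.inl (Or.inl ⟨hx, by show Qi i x = _; rw [hQ, c1, c2]⟩)
      · exact Or.inr (Or.inl ⟨hx, by show Qi i x = _; rw [hQ, c1, c2]⟩)
      · exact Or.inl (Or.inr ⟨hx, by show Qi i x = _; rw [hQ, c1, c2]⟩)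
      · exact Or.inr (Or.inr ⟨hx, by show Qi i x = _; rw [hQ, c1, c2]⟩)
    set D : ℝ≥0∞ := ((i + 1 : ℕ) : ℝ≥0∞) * 4 ^ (i / 2) / A with hD
    calc volume (B ∩ sq y (2 ^ (i / 2)))
        ≤ (volume (B ∩ {x | Qi i x = (a, b)}) + volume (B ∩ {x | Qi i x = (a + 1, b)})) +
          (volume (B ∩ {x | Qi i x = (a, b + 1)}) + volume (B ∩ {x | Qi i x = (a + 1, b + 1)})) :=
          (measure_mono hcov).trans ((measure_union_le _ _).trans
            (add_le_add (measure_union_le _ _) (measure_union_le _ _)))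
      _ ≤ (D + D) + (D + D) :=
          add_le_add (add_le_add (hone _) (hone _)) (add_le_add (hone _) (hone _))
      _ = 4 * ((i + 1 : ℕ) : ℝ≥0∞) * 4 ^ (i / 2) / A := by
          rw [mul_assoc, mul_div_assoc, ← hD]
          ring
  · classical
    set Λ : ℤ × ℤ → Finset ℕ := fun z => (Finset.range (2 ^ i)).filter fun v =>
      (4 : ℝ≥0∞) ^ (i / 2) ≤ (A : ℝ≥0∞) *
        volume {y : ℝ × ℝ | Qi i y = z ∧ k y / 2 ^ (m - i) = v} with hΛ
    refine ⟨Λ, ?_, ?_⟩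
    · intro z
      have h4 : (4 : ℝ≥0∞) ^ (i / 2) ≠ 0 := pow_ne_zero _ (by norm_num)
      have h4t : (4 : ℝ≥0∞) ^ (i / 2) ≠ ⊤ := ENNReal.pow_ne_top (by norm_num)
      have hdis : Set.PairwiseDisjoint (↑(Λ z))
          (fun v : ℕ => {y : ℝ × ℝ | Qi i y = z ∧ k y / 2 ^ (m - i) = v}) := by
        intro v _ w _ hvw
        rw [Function.onFun, Set.disjoint_left]
        rintro x ⟨_, h1⟩ ⟨_, h2⟩
        exact hvw (h1.symm.trans h2)
      have hmeas : ∀ v ∈ Λ z,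
          MeasurableSet {y : ℝ × ℝ | Qi i y = z ∧ k y / 2 ^ (m - i) = v} := by
        intro v _
        exact ((meas_Qi i) (measurableSet_singleton z)).inter
          ((meas_lev _ k hk) (measurableSet_singleton v))
      have hsum : ∑ v ∈ Λ z, volume {y : ℝ × ℝ | Qi i y = z ∧ k y / 2 ^ (m - i) = v} ≤
          (4 : ℝ≥0∞) ^ (i / 2) := by
        rw [← measure_biUnion_finset hdis hmeas, ← vol_Qi i z]
        apply measure_mono
        intro x hx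
        rw [mem_iUnion₂] at hx
        obtain ⟨v, _, hv⟩ := hx
        exact hv.1
      have hmain : (((Λ z).card : ℕ) : ℝ≥0∞) * 4 ^ (i / 2) ≤ (A : ℝ≥0∞) * 4 ^ (i / 2) := by
        calc (((Λ z).card : ℕ) : ℝ≥0∞) * 4 ^ (i / 2)
            = ∑ _v ∈ Λ z, (4 : ℝ≥0∞) ^ (i / 2) := by rw [Finset.sum_const, nsmul_eq_mul]
          _ ≤ ∑ v ∈ Λ z, (A : ℝ≥0∞) *
                volume {y : ℝ × ℝ | Qi i y = z ∧ k y / 2 ^ (m - i) = v} :=
              Finset.sum_le_sum fun v hv => (Finset.mem_filter.1 hv).2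
          _ = (A : ℝ≥0∞) * ∑ v ∈ Λ z,
                volume {y : ℝ × ℝ | Qi i y = z ∧ k y / 2 ^ (m - i) = v} := by
              rw [Finset.mul_sum]
          _ ≤ _ := by gcongr
      have := (ENNReal.mul_le_mul_iff_left h4 h4t).1 hmain
      exact_mod_cast this
    · intro x hx
      have hn : ¬ unpop m A i k x := fun h => hx ⟨i, le_rfl, h⟩
      unfold unpop at hn
      rw [not_lt] at hn
      rw [hΛ]
      refine Finset.mem_filter.2 ⟨Finset.mem_range.2 ?_, hn⟩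
      apply Nat.div_lt_of_lt_mul
      rw [← pow_add, Nat.sub_add_cancel him]
      exact hkm x

end Pool.Agent.KSP
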