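import Pool.Agent.KSP.Targets

set_option autoImplicit false

/-! P5: contribution of the unpopular points -/

namespace Pool.Agent.KSP

open MeasureTheory Set
open scoped ENNReal NNReal

namespace BadE_

theorem meas_nr : Measurable nr := by
  unfold nr
  fun_prop

theorem meas_ann (a b : ℝ) : MeasurableSet (ann a b) :=
  (measurableSet_le measurable_const meas_nr).inter (measurableSet_lt meas_nr measurable_const)

theorem Bd_ind {h : ℝ × ℝ → ℂ} (hh : Bd h) {S : Set (ℝ × ℝ)} (hS : MeasurableSet S) :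
    Bd (S.indicator h) := by
  obtain ⟨h1, ⟨B, hB⟩, R, hR⟩ := hh
  refine ⟨h1.indicator hS, ⟨B, fun ξ => ?_⟩, R, fun ξ hξ => hR ξ ?_⟩
  · by_cases hx : ξ ∈ S
    · rw [indicator_of_mem hx]; exact hB ξ
    · rw [indicator_of_notMem hx, norm_zero]
      exact le_trans (norm_nonneg _) (hB ξ)
  · intro h0
    apply hξ
    by_cases hx : ξ ∈ S
    · rw [indicator_of_mem hx, h0]
    · rw [indicator_of_notMem hx]

theorem n2_ind (h : ℝ × ℝ → ℂ) {S : Set (ℝ × ℝ)} (hS : MeasurableSet S) :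
    n2 (S.indicator h) = ∫⁻ ξ in S, ‖h ξ‖ₑ ^ 2 := by
  unfold n2
  rw [← lintegral_indicator hS]
  refine lintegral_congr fun ξ => ?_
  by_cases hx : ξ ∈ S
  · rw [indicator_of_mem hx, indicator_of_mem hx]
  · rw [indicator_of_notMem hx, indicator_of_notMem hx]
    simp

/-- the annulus at value `v` -/
def A_ (i v : ℕ) : Set (ℝ × ℝ) :=
  ann (1 + ((v / 2 : ℕ) : ℝ) / 2 ^ (i - 1)) (1 + (v : ℝ) / 2 ^ i)

theorem A_eq {i : ℕ} (hi : 1 ≤ i) (v : ℕ) :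
    A_ i v = ann (1 + ((2 * (v / 2) : ℕ) : ℝ) / 2 ^ i) (1 + (v : ℝ) / 2 ^ i) := by
  obtain ⟨j, rfl⟩ : ∃ j, i = j + 1 := ⟨i - 1, by omega⟩
  unfold A_
  congr 1
  rw [Nat.add_sub_cancel, pow_succ]
  push_cast
  field_simp

theorem A_disj {i : ℕ} (hi : 1 ≤ i) {v w : ℕ} (hvw : v < w) : Disjoint (A_ i v) (A_ i w) := by
  rw [A_eq hi, A_eq hi, Set.disjoint_left]
  rintro ξ ⟨_, h2⟩ ⟨h3, _⟩
  have h4 : (v : ℝ) ≤ ((2 * (w / 2) : ℕ) : ℝ) := by
    exact_mod_cast (by omega : v ≤ 2 * (w / 2))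
  have h5 : (v : ℝ) / 2 ^ i ≤ ((2 * (w / 2) : ℕ) : ℝ) / 2 ^ i := by gcongr
  linarith

theorem A_even {i : ℕ} (hi : 1 ≤ i) {v : ℕ} (hv : v % 2 = 0) : A_ i v = ∅ := by
  rw [A_eq hi]
  have : 2 * (v / 2) = v := by omega
  rw [this]
  ext ξ
  simp only [ann, mem_ofPred_eq, mem_empty_iff_false, iff_false, not_and, not_lt]
  exact fun h => h

theorem A_odd {i : ℕ} (hi : 1 ≤ i) {v : ℕ} (hv : v % 2 = 1) :
    A_ i v = ann (1 + ((2 * (v / 2) : ℕ) : ℝ) / 2 ^ i)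
      (1 + ((2 * (v / 2) : ℕ) : ℝ) / 2 ^ i + 1 / 2 ^ i) := by
  rw [A_eq hi]
  congr 1
  have : (v : ℝ) = ((2 * (v / 2) : ℕ) : ℝ) + 1 := by
    exact_mod_cast (by omega : v = 2 * (v / 2) + 1)
  rw [this]
  ring

theorem sum_n2 {i : ℕ} (hi : 1 ≤ i) (h : ℝ × ℝ → ℂ) (s : Finset ℕ) :
    ∑ v ∈ s, n2 ((A_ i v).indicator h) ≤ n2 h := by
  have h1 : ∀ v ∈ s, n2 ((A_ i v).indicator h) = ∫⁻ ξ in A_ i v, ‖h ξ‖ₑ ^ 2 :=
    fun v _ => n2_ind h (meas_ann _ _)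
  rw [Finset.sum_congr rfl h1, ← lintegral_biUnion_finset]
  · exact setLIntegral_le_lintegral _ _
  · intro v _ w _ hvw
    rcases lt_or_gt_of_ne hvw with h | h
    · exact A_disj hi h
    · exact (A_disj hi h).symm
  · exact fun v _ => meas_ann _ _

theorem root_le (A n : ℝ) (hA : 0 < A) (hn : 1 ≤ n) :
    1 / √(A / (4 * n)) ≤ 2 * n * (1 / √A) := by
  rw [Real.sqrt_div hA.le, show (4 : ℝ) * n = 2 ^ 2 * n by norm_num,
    Real.sqrt_mul (by positivity), Real.sqrt_sq (by norm_num)]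
  have h1 : √n ≤ n := by
    rw [Real.sqrt_le_left (by linarith)]
    nlinarith
  have h2 : 0 < √A := Real.sqrt_pos.2 hA
  rw [one_div_div, mul_one_div]
  gcongr

end BadE_

open BadE_ in
theorem pBadE (hL : tL) (hB : tBad) : tBadE := by
  obtain ⟨C, hC⟩ := hL
  refine ⟨2 * C, fun m A i k h hA hi him hk hk2 hh hsupp => ?_⟩
  obtain ⟨hbm, hdens, _⟩ := hB m A i k hA him hk hk2
  set B := badS m A i k with hBdef
  have hA0 : (0 : ℝ) < A := by exact_mod_cast hA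
  have hn1 : (1 : ℝ) ≤ ((i + 1 : ℕ) : ℝ) := by exact_mod_cast (by omega : 1 ≤ i + 1)
  have hmeas : ∀ v : ℕ, MeasurableSet ({x | k x / 2 ^ (m - i) = v} ∩ B) := fun v =>
    (((measurable_from_top (f := fun n : ℕ => n / 2 ^ (m - i))).comp hk)
      (measurableSet_singleton v)).inter hbm
  have hlev : ∀ x, k x / 2 ^ (m - i + 1) = (k x / 2 ^ (m - i)) / 2 := by
    intro x
    rw [pow_succ, Nat.div_div_eq_div_mul]
  have hval : ∀ x, k x / 2 ^ (m - i) < 2 ^ i := by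
    intro x
    rw [Nat.div_lt_iff_lt_mul (by positivity), ← pow_add]
    have : i + (m - i) = m := by omega
    rw [this]
    exact hk2 x
  have hU : B = ⋃ v ∈ Finset.range (2 ^ i), ({x | k x / 2 ^ (m - i) = v} ∩ B) := by
    ext x
    simp only [mem_iUnion, Finset.mem_range, mem_inter_iff, mem_ofPred_eq, exists_prop]
    constructor
    · intro hx
      exact ⟨_, hval x, rfl, hx⟩
    · rintro ⟨v, _, _, hx⟩
      exact hx
  have hdj : (Finset.range (2 ^ i) : Set ℕ).PairwiseDisjoint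
      (fun v => {x | k x / 2 ^ (m - i) = v} ∩ B) := by
    intro v _ w _ hvw
    rw [Function.onFun, Set.disjoint_left]
    rintro x ⟨h1, _⟩ ⟨h2, _⟩
    exact hvw (h1.symm.trans h2)
  have hone : ∀ v ∈ Finset.range (2 ^ i), ∫⁻ x in ({x | k x / 2 ^ (m - i) = v} ∩ B),
      ‖Ex ((ann (1 + (k x / 2 ^ (m - i + 1) : ℕ) / 2 ^ (i - 1))
      (1 + (k x / 2 ^ (m - i) : ℕ) / 2 ^ i)).indicator h) x‖ₑ ^ 2 ≤
      (2 * C : ℝ≥0) * ((i + 1 : ℕ) : ℝ≥0∞) ^ 2 * ENNReal.ofReal (1 / √A) *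
        n2 ((A_ i v).indicator h) := by
    intro v hv
    have hcongr : ∫⁻ x in ({x | k x / 2 ^ (m - i) = v} ∩ B),
      ‖Ex ((ann (1 + (k x / 2 ^ (m - i + 1) : ℕ) / 2 ^ (i - 1))
      (1 + (k x / 2 ^ (m - i) : ℕ) / 2 ^ i)).indicator h) x‖ₑ ^ 2 =
      ∫⁻ x in ({x | k x / 2 ^ (m - i) = v} ∩ B), ‖Ex ((A_ i v).indicator h) x‖ₑ ^ 2 := by
      refine setLIntegral_congr_fun (hmeas v) fun x hx => ?_
      have hx1 : k x / 2 ^ (m - i) = v := hx.1
      show ‖Ex ((ann (1 + (k x / 2 ^ (m - i + 1) : ℕ) / 2 ^ (i - 1))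
        (1 + (k x / 2 ^ (m - i) : ℕ) / 2 ^ i)).indicator h) x‖ₑ ^ 2 = _
      rw [hlev, hx1]
      rfl
    rw [hcongr]
    rcases Nat.mod_two_eq_zero_or_one v with hv2 | hv2
    · rw [A_even hi hv2]
      simp only [indicator_empty]
      have : ∀ x : ℝ × ℝ, Ex (fun _ => (0 : ℂ)) x = 0 := by
        intro x; simp [Ex]
      simp [this]
    · have hvlt : v < 2 ^ i := Finset.mem_range.1 hv
      have hr1 : (1 : ℝ) ≤ 1 + ((2 * (v / 2) : ℕ) : ℝ) / 2 ^ i := by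
        have : (0 : ℝ) ≤ ((2 * (v / 2) : ℕ) : ℝ) / 2 ^ i := by positivity
        linarith
      have hr2 : 1 + ((2 * (v / 2) : ℕ) : ℝ) / 2 ^ i ≤ 2 := by
        have : ((2 * (v / 2) : ℕ) : ℝ) / 2 ^ i ≤ 1 := by
          rw [div_le_one (by positivity)]
          exact_mod_cast (by omega : 2 * (v / 2) ≤ 2 ^ i)
        linarith
      have hE : ∀ y, volume (({x | k x / 2 ^ (m - i) = v} ∩ B) ∩ sq y (2 ^ (i / 2))) ≤
          ENNReal.ofReal (4 ^ (i / 2) / ((A : ℝ) / (4 * ((i + 1 : ℕ) : ℝ)))) := by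
        intro y
        refine (hdens v y).trans (le_of_eq ?_)
        have e1 : (4 : ℝ) ^ (i / 2) / ((A : ℝ) / (4 * ((i + 1 : ℕ) : ℝ))) =
            4 * ((i + 1 : ℕ) : ℝ) * 4 ^ (i / 2) / A := by
          field_simp
        rw [e1, ENNReal.ofReal_div_of_pos hA0, ENNReal.ofReal_mul (by positivity),
          ENNReal.ofReal_mul (by norm_num), ENNReal.ofReal_natCast, ENNReal.ofReal_natCast,
          ENNReal.ofReal_pow (by norm_num)]
        norm_num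
      have hkey := hC i (1 + ((2 * (v / 2) : ℕ) : ℝ) / 2 ^ i) ((A : ℝ) / (4 * ((i + 1 : ℕ) : ℝ)))
        ({x | k x / 2 ^ (m - i) = v} ∩ B) ((A_ i v).indicator h) hr1 hr2 (by positivity)
        (hmeas v) hE (Bd_ind hh (meas_ann _ _)) (by
          intro ξ hξ
          have h1 : ξ ∈ A_ i v := by
            by_contra hcon
            exact hξ (indicator_of_notMem hcon _)
          refine ⟨hsupp ξ ?_, ?_⟩
          · intro h0
            apply hξ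
            rw [indicator_of_mem h1, h0]
          · rw [← A_odd hi hv2]
            exact h1)
      refine hkey.trans ?_
      have e2 : ENNReal.ofReal (1 / √((A : ℝ) / (4 * ((i + 1 : ℕ) : ℝ)))) ≤
          2 * ((i + 1 : ℕ) : ℝ≥0∞) * ENNReal.ofReal (1 / √A) := by
        refine (ENNReal.ofReal_le_ofReal (root_le A ((i + 1 : ℕ) : ℝ) hA0 hn1)).trans
          (le_of_eq ?_)
        rw [ENNReal.ofReal_mul (by positivity), ENNReal.ofReal_mul (by norm_num),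
          ENNReal.ofReal_natCast]
        norm_num
      calc (C : ℝ≥0∞) * ((i + 1 : ℕ) : ℝ≥0∞) *
            ENNReal.ofReal (1 / √((A : ℝ) / (4 * ((i + 1 : ℕ) : ℝ)))) *
            n2 ((A_ i v).indicator h)
          ≤ (C : ℝ≥0∞) * ((i + 1 : ℕ) : ℝ≥0∞) *
            (2 * ((i + 1 : ℕ) : ℝ≥0∞) * ENNReal.ofReal (1 / √A)) *
            n2 ((A_ i v).indicator h) := by gcongr
        _ = _ := by
          push_cast
          ring
  calc ∫⁻ x in B, ‖Ex ((ann (1 + (k x / 2 ^ (m - i + 1) : ℕ) / 2 ^ (i - 1))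
      (1 + (k x / 2 ^ (m - i) : ℕ) / 2 ^ i)).indicator h) x‖ₑ ^ 2
      = ∑ v ∈ Finset.range (2 ^ i), ∫⁻ x in ({x | k x / 2 ^ (m - i) = v} ∩ B),
        ‖Ex ((ann (1 + (k x / 2 ^ (m - i + 1) : ℕ) / 2 ^ (i - 1))
        (1 + (k x / 2 ^ (m - i) : ℕ) / 2 ^ i)).indicator h) x‖ₑ ^ 2 := by
        conv_lhs => rw [hU]
        exact lintegral_biUnion_finset hdj (fun v _ => hmeas v) _
    _ ≤ ∑ v ∈ Finset.range (2 ^ i), (2 * C : ℝ≥0) * ((i + 1 : ℕ) : ℝ≥0∞) ^ 2 *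
        ENNReal.ofReal (1 / √A) * n2 ((A_ i v).indicator h) := Finset.sum_le_sum hone
    _ = (2 * C : ℝ≥0) * ((i + 1 : ℕ) : ℝ≥0∞) ^ 2 * ENNReal.ofReal (1 / √A) *
        ∑ v ∈ Finset.range (2 ^ i), n2 ((A_ i v).indicator h) := by rw [Finset.mul_sum]
    _ ≤ _ := by
        gcongr
        exact sum_n2 hi h _

end Pool.Agent.KSP
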