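import Pool.Agent.KSP.Targets

set_option autoImplicit false

/-! KSP bound for disc partial sums (MP_ee701d_an): one block of scales. -/

namespace Pool.Agent.KSP

open MeasureTheory Set
open scoped ENNReal NNReal ComplexConjugate

namespace Block_

/-- the `i`-th smallest element of `R` (`0` for `i = 0`) -/
def rk (κ : ℕ) (R : Finset ℕ) (i : ℕ) : ℕ :=
  ((Finset.range (2 ^ κ)).filter (fun v => (R.filter (· ≤ v)).card < i)).card

lemma rk_mono (κ : ℕ) (R : Finset ℕ) {i j : ℕ} (h : i ≤ j) : rk κ R i ≤ rk κ R j := by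
  apply Finset.card_le_card
  intro v hv
  rw [Finset.mem_filter] at hv ⊢
  exact ⟨hv.1, lt_of_lt_of_le hv.2 h⟩

lemma rk_le (κ : ℕ) (R : Finset ℕ) (i : ℕ) : rk κ R i ≤ 2 ^ κ := by
  refine (Finset.card_le_card (Finset.filter_subset _ _)).trans ?_
  rw [Finset.card_range]

lemma rk_zero (κ : ℕ) (R : Finset ℕ) : rk κ R 0 = 0 := by
  simp [rk]

lemma rk_rank (κ : ℕ) (R : Finset ℕ) {r : ℕ} (hr : r ∈ R) (h : r < 2 ^ κ) :
    rk κ R ((R.filter (· ≤ r)).card) = r := by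
  have : (Finset.range (2 ^ κ)).filter
      (fun v => (R.filter (· ≤ v)).card < (R.filter (· ≤ r)).card) = Finset.range r := by
    ext v
    rw [Finset.mem_filter, Finset.mem_range, Finset.mem_range]
    constructor
    · rintro ⟨_, h2⟩
      by_contra h3
      push Not at h3
      refine absurd h2 (not_lt.mpr (Finset.card_le_card ?_))
      intro w hw
      rw [Finset.mem_filter] at hw ⊢
      exact ⟨hw.1, hw.2.trans h3⟩
    · intro h3
      refine ⟨h3.trans h, Finset.card_lt_card ?_⟩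
      rw [Finset.ssubset_iff_of_subset]
      · exact ⟨r, Finset.mem_filter.mpr ⟨hr, le_refl r⟩, fun h4 =>
          absurd (Finset.mem_filter.mp h4).2 (by omega)⟩
      · intro w hw
        rw [Finset.mem_filter] at hw ⊢
        exact ⟨hw.1, hw.2.trans h3.le⟩
  rw [rk, this, Finset.card_range]

lemma tele (G : ℕ → ℕ → ℂ) (h0 : ∀ a, G a a = 0)
    (hadd : ∀ a b c, a ≤ b → b ≤ c → G a c = G a b + G b c) (i : ℕ) : ∀ S : ℕ,
    G (i / 2 ^ S * 2 ^ S) i =
      ∑ s ∈ Finset.range S, G (i / 2 ^ (s + 1) * 2 ^ (s + 1)) (i / 2 ^ s * 2 ^ s)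
  | 0 => by simp [h0]
  | S + 1 => by
      have h1 : i / 2 ^ (S + 1) * 2 ^ (S + 1) ≤ i / 2 ^ S * 2 ^ S := by
        rw [pow_succ, ← Nat.div_div_eq_div_mul]
        calc i / 2 ^ S / 2 * (2 ^ S * 2) = (i / 2 ^ S / 2 * 2) * 2 ^ S := by ring
          _ ≤ i / 2 ^ S * 2 ^ S := Nat.mul_le_mul_right _ (Nat.div_mul_le_self _ _)
      rw [Finset.sum_range_succ, ← tele G h0 hadd i S,
        hadd _ _ _ h1 (Nat.div_mul_le_self i (2 ^ S))]
      exact add_comm _ _

lemma sq_sum_le (S : ℕ) (f : ℕ → ℂ) :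
    ‖∑ s ∈ Finset.range S, f s‖ₑ ^ 2 ≤ (S : ℝ≥0∞) * ∑ s ∈ Finset.range S, ‖f s‖ₑ ^ 2 := by
  have h1 : ‖∑ s ∈ Finset.range S, f s‖₊ ^ 2 ≤ (S : ℝ≥0) * ∑ s ∈ Finset.range S, ‖f s‖₊ ^ 2 := by
    calc ‖∑ s ∈ Finset.range S, f s‖₊ ^ 2 ≤ (∑ s ∈ Finset.range S, ‖f s‖₊) ^ 2 :=
          pow_le_pow_left' (nnnorm_sum_le _ _) 2
      _ ≤ ((Finset.range S).card : ℝ≥0) * ∑ s ∈ Finset.range S, ‖f s‖₊ ^ 2 :=
          sq_sum_le_card_mul_sum_sq
      _ = _ := by rw [Finset.card_range]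
  have h2 := ENNReal.coe_le_coe.mpr h1
  simpa [enorm_eq_nnnorm] using h2

lemma dyad (G : ℕ → ℕ → ℂ) (h0 : ∀ a, G a a = 0)
    (hadd : ∀ a b c, a ≤ b → b ≤ c → G a c = G a b + G b c) (A i : ℕ) (hi : i ≤ A) :
    ‖G 0 i‖ₑ ^ 2 ≤ (lg A : ℝ≥0∞) * ∑ s ∈ Finset.range (lg A),
      ∑ u ∈ Finset.range (A + 1), ‖G (u * 2 ^ s) ((u + 1) * 2 ^ s)‖ₑ ^ 2 := by
  have hS : i / 2 ^ (lg A) = 0 := by
    apply Nat.div_eq_of_lt
    exact lt_of_le_of_lt hi (Nat.lt_pow_succ_log_self (by norm_num) A)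
  have h1 := tele G h0 hadd i (lg A)
  rw [hS, zero_mul] at h1
  rw [h1]
  refine (sq_sum_le _ _).trans ?_
  gcongr with s hs
  have h2 : i / 2 ^ (s + 1) = i / 2 ^ s / 2 := by
    rw [pow_succ, Nat.div_div_eq_div_mul]
  rcases Nat.even_or_odd (i / 2 ^ s) with he | ho
  · have h3 : i / 2 ^ (s + 1) * 2 ^ (s + 1) = i / 2 ^ s * 2 ^ s := by
      rw [h2, pow_succ]
      obtain ⟨w, hw⟩ := he
      rw [hw]
      have : (w + w) / 2 = w := by omega
      rw [this]; ring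
    rw [h3, h0]
    simp
  · obtain ⟨w, hw⟩ := ho
    have h3 : i / 2 ^ (s + 1) * 2 ^ (s + 1) = (2 * w) * 2 ^ s := by
      rw [h2, pow_succ, hw]
      have : (2 * w + 1) / 2 = w := by omega
      rw [this]; ring
    have h4 : i / 2 ^ s * 2 ^ s = (2 * w + 1) * 2 ^ s := by rw [hw]
    rw [h3, h4]
    refine Finset.single_le_sum (f := fun u => ‖G (u * 2 ^ s) ((u + 1) * 2 ^ s)‖ₑ ^ 2)
      (fun _ _ => bot_le) (Finset.mem_range.mpr ?_)
    have h5 : i / 2 ^ s ≤ i := Nat.div_le_self _ _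
    omega

/-! ### measurability and additivity -/

lemma nr_meas : Measurable nr := by
  unfold nr
  exact Measurable.sqrt (by fun_prop)

lemma ann_meas (a b : ℝ) : MeasurableSet (ann a b) :=
  (measurableSet_le measurable_const nr_meas).inter (measurableSet_lt nr_meas measurable_const)

lemma bd_ind {h : ℝ × ℝ → ℂ} (hh : Bd h) {S : Set (ℝ × ℝ)} (hS : MeasurableSet S) :
    Bd (S.indicator h) := by
  obtain ⟨h1, ⟨B, hB⟩, R, hR⟩ := hh
  refine ⟨h1.indicator hS, ⟨B, fun ξ => ?_⟩, R, fun ξ hξ => ?_⟩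
  · by_cases hx : ξ ∈ S
    · rw [indicator_of_mem hx]; exact hB ξ
    · rw [indicator_of_notMem hx, norm_zero]; exact (norm_nonneg _).trans (hB ξ)
  · apply hR
    intro h0
    apply hξ
    by_cases hx : ξ ∈ S
    · rw [indicator_of_mem hx, h0]
    · rw [indicator_of_notMem hx]

lemma bd_int {h : ℝ × ℝ → ℂ} (hh : Bd h) : Integrable h := by
  obtain ⟨h1, ⟨B, hB⟩, R, hR⟩ := hh
  have h2 : h = (Icc (-R) R ×ˢ Icc (-R) R).indicator h := by
    ext ξ
    by_cases hx : ξ ∈ Icc (-R) R ×ˢ Icc (-R) R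
    · rw [indicator_of_mem hx]
    · rw [indicator_of_notMem hx]
      by_contra h3
      obtain ⟨h4, h5⟩ := hR ξ h3
      rw [abs_le] at h4 h5
      exact hx ⟨h4, h5⟩
  rw [h2, integrable_indicator_iff (measurableSet_Icc.prod measurableSet_Icc)]
  refine Measure.integrableOn_of_bounded (M := B) ?_ h1.aestronglyMeasurable
    (Filter.Eventually.of_forall hB)
  exact ((isCompact_Icc.prod isCompact_Icc).measure_lt_top).ne

lemma ee_norm (t : ℝ) : ‖ee t‖ = 1 := by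
  unfold ee
  have : (2 * Real.pi * Complex.I * (t : ℂ)) = ((2 * Real.pi * t : ℝ) : ℂ) * Complex.I := by
    push_cast; ring
  rw [this, Complex.norm_exp_ofReal_mul_I]

lemma ee_cont : Continuous ee := by
  unfold ee
  fun_prop

lemma dot_cont1 (ξ : ℝ × ℝ) : Continuous (fun x => dot x ξ) := by
  unfold dot; fun_prop

lemma dot_cont2 (x : ℝ × ℝ) : Continuous (fun ξ => dot x ξ) := by
  unfold dot; fun_prop

lemma int_ee {h : ℝ × ℝ → ℂ} (hh : Integrable h) (x : ℝ × ℝ) :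
    Integrable (fun ξ => h ξ * ee (dot x ξ)) := by
  refine hh.mul_bdd (c := 1) ?_ ?_
  · exact (ee_cont.comp (dot_cont2 x)).aestronglyMeasurable
  · exact Filter.Eventually.of_forall fun ξ => (ee_norm _).le

lemma Ex_cont {h : ℝ × ℝ → ℂ} (hh : Integrable h) : Continuous (Ex h) := by
  unfold Ex
  refine continuous_of_dominated (bound := fun ξ => ‖h ξ‖) ?_ ?_ hh.norm ?_
  · exact fun x => (int_ee hh x).aestronglyMeasurable
  · refine fun x => Filter.Eventually.of_forall fun ξ => ?_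
    rw [norm_mul, ee_norm, mul_one]
  · refine Filter.Eventually.of_forall fun ξ => ?_
    exact continuous_const.mul (ee_cont.comp (dot_cont1 ξ))

lemma Ex_ann_add {h : ℝ × ℝ → ℂ} (hh : Bd h) {p q r : ℝ} (hpq : p ≤ q) (hqr : q ≤ r)
    (x : ℝ × ℝ) : Ex ((ann p r).indicator h) x =
      Ex ((ann p q).indicator h) x + Ex ((ann q r).indicator h) x := by
  unfold Ex
  rw [← integral_add (int_ee (bd_int (bd_ind hh (ann_meas p q))) x)
    (int_ee (bd_int (bd_ind hh (ann_meas q r))) x)]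
  congr 1
  ext ξ
  rw [← add_mul]
  congr 1
  have hdis : Disjoint (ann p q) (ann q r) := by
    rw [Set.disjoint_left]
    intro y hy hy'
    exact absurd hy.2 (not_lt.mpr hy'.1)
  have hun : ann p r = ann p q ∪ ann q r := by
    ext y
    constructor
    · intro hy
      by_cases h1 : nr y < q
      · exact Or.inl ⟨hy.1, h1⟩
      · exact Or.inr ⟨not_lt.mp h1, hy.2⟩
    · rintro (hy | hy)
      · exact ⟨hy.1, hy.2.trans_le hqr⟩
      · exact ⟨hpq.trans hy.1, hy.2⟩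
  rw [hun, Set.indicator_union_of_disjoint hdis]

lemma Ex_ann_self (h : ℝ × ℝ → ℂ) (p : ℝ) (x : ℝ × ℝ) : Ex ((ann p p).indicator h) x = 0 := by
  have : ann p p = ∅ := by
    ext y
    simp only [mem_empty_iff_false, iff_false]
    exact fun hy => absurd hy.2 (not_lt.mpr hy.1)
  rw [this]
  simp [Ex]

lemma Qi_meas (c : ℕ) : Measurable (Qi c) := by
  unfold Qi
  exact Measurable.prodMk (Int.measurable_floor.comp (by fun_prop))
    (Int.measurable_floor.comp (by fun_prop))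

/-- measurability of a function that depends on `x` and on the square of `x` -/
lemma meas_Qi (c : ℕ) (F : ℤ × ℤ → ℝ × ℝ → ℝ≥0∞) (hF : ∀ z, Measurable (F z)) :
    Measurable (fun x => F (Qi c x) x) := by
  have h1 : Measurable (fun y : (ℤ × ℤ) × (ℝ × ℝ) => F y.1 y.2) :=
    measurable_from_prod_countable_right hF
  exact h1.comp ((Qi_meas c).prodMk measurable_id)

lemma lg_succ (A : ℕ) : lg (A + 1) ≤ 2 * lg A := by
  have h1 : Nat.log 2 (A + 1) ≤ Nat.log 2 A + 1 := by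
    rcases Nat.eq_zero_or_pos A with h | h
    · subst h; simp
    · rw [← Nat.log_mul_base (by norm_num) h.ne']
      exact Nat.log_mono_right (by omega)
  unfold lg
  omega

/-- the pieces over the `L`-th annulus -/
lemma sum_n2 (b : ℕ) {h : ℝ × ℝ → ℂ} (hh : Bd h) :
    ∑ L ∈ Finset.range (2 ^ b),
      n2 ((ann (1 + L / 2 ^ b) (1 + (L + 1 : ℕ) / 2 ^ b)).indicator h) ≤ n2 h := by
  unfold n2
  rw [← lintegral_finsetSum]
  · refine lintegral_mono fun ξ => ?_
    by_cases hex : ∃ L ∈ Finset.range (2 ^ b), ξ ∈ ann (1 + L / 2 ^ b) (1 + (L + 1 : ℕ) / 2 ^ b)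
    · obtain ⟨L, hL, hξ⟩ := hex
      rw [Finset.sum_eq_single L]
      · rw [indicator_of_mem hξ]
      · intro L' _ hne
        rw [indicator_of_notMem]
        · simp
        · intro hξ'
          have hp : (0 : ℝ) < 2 ^ b := by positivity
          rcases lt_or_gt_of_ne hne with hlt | hlt
          · have h1 : (L' + 1 : ℕ) ≤ L := hlt
            have h2 : ((L' + 1 : ℕ) : ℝ) / 2 ^ b ≤ (L : ℝ) / 2 ^ b := by
              apply div_le_div_of_nonneg_right _ hp.le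
              exact_mod_cast h1
            have h3 := hξ'.2
            have h4 := hξ.1
            linarith
          · have h1 : (L + 1 : ℕ) ≤ L' := hlt
            have h2 : ((L + 1 : ℕ) : ℝ) / 2 ^ b ≤ (L' : ℝ) / 2 ^ b := by
              apply div_le_div_of_nonneg_right _ hp.le
              exact_mod_cast h1
            have h3 := hξ.2
            have h4 := hξ'.1
            linarith
      · exact fun h => absurd hL h
    · push Not at hex
      rw [Finset.sum_eq_zero]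
      · exact bot_le
      · intro L hL
        rw [indicator_of_notMem (hex L hL)]
        simp
  · intro L _
    exact ((hh.1.indicator (ann_meas _ _)).enorm).pow_const 2

lemma core (b c A : ℕ) (v : ℝ × ℝ → ℕ) (Y : Set (ℝ × ℝ)) (Λ : ℤ × ℤ → Finset ℕ)
    (h : ℝ × ℝ → ℂ) (hbc : b ≤ c) (hvc : ∀ x, v x < 2 ^ c) (hΛ : ∀ z, (Λ z).card ≤ A)
    (hYΛ : ∀ x ∈ Y, v x ∈ Λ (Qi c x)) (hh : Bd h) (x : ℝ × ℝ) (hx : x ∈ Y) :
    ‖Ex ((ann (1 + (v x / 2 ^ (c - b) : ℕ) / 2 ^ b) (1 + v x / 2 ^ c)).indicator h) x‖ₑ ^ 2 ≤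
    ∑ L ∈ Finset.range (2 ^ b), (lg A : ℝ≥0∞) * ∑ s ∈ Finset.range (lg A),
      ∑ u ∈ Finset.range (A + 1),
        ‖Ex ((ann ((1 + L / 2 ^ b) +
            rk (c - b) (((Λ (Qi c x)).filter (fun w => w / 2 ^ (c - b) = L)).image
              (· % 2 ^ (c - b))) (u * 2 ^ s) / 2 ^ c)
          ((1 + L / 2 ^ b) +
            rk (c - b) (((Λ (Qi c x)).filter (fun w => w / 2 ^ (c - b) = L)).image
              (· % 2 ^ (c - b))) ((u + 1) * 2 ^ s) / 2 ^ c)).indicator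
          ((ann (1 + L / 2 ^ b) (1 + (L + 1 : ℕ) / 2 ^ b)).indicator h)) x‖ₑ ^ 2 := by
  set κ := c - b with hκ
  have hc : c = b + κ := by omega
  have hκp : 0 < 2 ^ κ := by positivity
  set L := v x / 2 ^ κ with hL
  set r := v x % 2 ^ κ with hr
  have hvx : v x = L * 2 ^ κ + r := by
    rw [hL, hr, mul_comm]; exact (Nat.div_add_mod _ _).symm
  have hrκ : r < 2 ^ κ := Nat.mod_lt _ hκp
  have hLb : L < 2 ^ b := by
    rw [hL]
    apply Nat.div_lt_of_lt_mul
    have := hvc x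
    rw [hc, pow_add] at this
    rw [mul_comm]; exact this
  set R := ((Λ (Qi c x)).filter (fun w => w / 2 ^ κ = L)).image (· % 2 ^ κ) with hR
  have hrR : r ∈ R := by
    rw [hR, Finset.mem_image]
    exact ⟨v x, Finset.mem_filter.mpr ⟨hYΛ x hx, rfl⟩, rfl⟩
  set i := (R.filter (· ≤ r)).card with hi
  have hiA : i ≤ A := by
    calc i ≤ R.card := Finset.card_filter_le _ _
      _ ≤ ((Λ (Qi c x)).filter (fun w => w / 2 ^ κ = L)).card := Finset.card_image_le
      _ ≤ (Λ (Qi c x)).card := Finset.card_filter_le _ _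
      _ ≤ A := hΛ _
  have hrk : rk κ R i = r := rk_rank κ R hrR hrκ
  let hl := (ann (1 + L / 2 ^ b) (1 + (L + 1 : ℕ) / 2 ^ b)).indicator h
  have hlB : Bd hl := bd_ind hh (ann_meas _ _)
  let G : ℕ → ℕ → ℂ := fun a a' => Ex ((ann ((1 + L / 2 ^ b) + rk κ R a / 2 ^ c)
          ((1 + L / 2 ^ b) + rk κ R a' / 2 ^ c)).indicator hl) x
  have hG0 : ∀ a, G a a = 0 := fun a => Ex_ann_self _ _ _
  have hGadd : ∀ a a' a'', a ≤ a' → a' ≤ a'' → G a a'' = G a a' + G a' a'' := by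
    intro a a' a'' h1 h2
    have h3 : (rk κ R a : ℝ) ≤ rk κ R a' := by exact_mod_cast rk_mono κ R h1
    have h4 : (rk κ R a' : ℝ) ≤ rk κ R a'' := by exact_mod_cast rk_mono κ R h2
    apply Ex_ann_add hlB
    · gcongr
    · gcongr
  have key : Ex ((ann (1 + (v x / 2 ^ κ : ℕ) / 2 ^ b) (1 + v x / 2 ^ c)).indicator h) x
      = G 0 i := by
    have e1 : (1 + (L : ℝ) / 2 ^ b) + (rk κ R 0 : ℝ) / 2 ^ c = 1 + L / 2 ^ b := by
      rw [rk_zero]; simp
    have e2 : (1 + (L : ℝ) / 2 ^ b) + (rk κ R i : ℝ) / 2 ^ c = 1 + v x / 2 ^ c := by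
      rw [hrk, hvx, hc, pow_add]
      push_cast
      field_simp
      ring
    show _ = Ex ((ann ((1 + L / 2 ^ b) + rk κ R 0 / 2 ^ c)
          ((1 + L / 2 ^ b) + rk κ R i / 2 ^ c)).indicator hl) x
    rw [e1, e2]
    show _ = Ex ((ann (1 + L / 2 ^ b) (1 + v x / 2 ^ c)).indicator
      ((ann (1 + L / 2 ^ b) (1 + (L + 1 : ℕ) / 2 ^ b)).indicator h)) x
    rw [Set.indicator_indicator]
    have hsub : ann (1 + (L : ℝ) / 2 ^ b) (1 + v x / 2 ^ c) ⊆
        ann (1 + L / 2 ^ b) (1 + (L + 1 : ℕ) / 2 ^ b) := by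
      intro y hy
      refine ⟨hy.1, hy.2.trans_le ?_⟩
      have h5 : (v x : ℝ) ≤ (L + 1 : ℕ) * 2 ^ κ := by
        have : v x ≤ (L + 1) * 2 ^ κ := by rw [hvx, add_mul, one_mul]; omega
        exact_mod_cast this
      have h6 : (v x : ℝ) / 2 ^ c ≤ ((L + 1 : ℕ) : ℝ) / 2 ^ b := by
        rw [hc, pow_add, div_le_div_iff₀ (by positivity) (by positivity)]
        calc (v x : ℝ) * 2 ^ b ≤ ((L + 1 : ℕ) * 2 ^ κ) * 2 ^ b :=
              mul_le_mul_of_nonneg_right h5 (by positivity)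
          _ = (L + 1 : ℕ) * (2 ^ b * 2 ^ κ) := by ring
      linarith
    rw [Set.inter_eq_left.mpr hsub]
  rw [key]
  refine (dyad G hG0 hGadd A i hiA).trans ?_
  exact Finset.single_le_sum (f := fun L : ℕ => (lg A : ℝ≥0∞) * ∑ s ∈ Finset.range (lg A),
      ∑ u ∈ Finset.range (A + 1),
        ‖Ex ((ann ((1 + L / 2 ^ b) +
            rk κ (((Λ (Qi c x)).filter (fun w => w / 2 ^ κ = L)).image
              (· % 2 ^ κ)) (u * 2 ^ s) / 2 ^ c)
          ((1 + L / 2 ^ b) +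
            rk κ (((Λ (Qi c x)).filter (fun w => w / 2 ^ κ = L)).image
              (· % 2 ^ κ)) ((u + 1) * 2 ^ s) / 2 ^ c)).indicator
          ((ann (1 + L / 2 ^ b) (1 + (L + 1 : ℕ) / 2 ^ b)).indicator h)) x‖ₑ ^ 2)
    (fun _ _ => bot_le) (Finset.mem_range.mpr hLb)

end Block_

open Block_ in
theorem pBlock (h2 : tV2) : tBlock := by
  obtain ⟨C, hC⟩ := h2
  refine ⟨2 * C, ?_⟩
  intro b c A v Y Λ h hbc hv hvc hY hΛ hYΛ hh hsupp
  let T : ℕ → ℕ → ℕ → ℤ × ℤ → ℝ × ℝ → ℝ≥0∞ := fun L s u z x =>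
    ‖Ex ((ann ((1 + L / 2 ^ b) +
            rk (c - b) (((Λ z).filter (fun w => w / 2 ^ (c - b) = L)).image
              (· % 2 ^ (c - b))) (u * 2 ^ s) / 2 ^ c)
          ((1 + L / 2 ^ b) +
            rk (c - b) (((Λ z).filter (fun w => w / 2 ^ (c - b) = L)).image
              (· % 2 ^ (c - b))) ((u + 1) * 2 ^ s) / 2 ^ c)).indicator
          ((ann (1 + L / 2 ^ b) (1 + (L + 1 : ℕ) / 2 ^ b)).indicator h)) x‖ₑ ^ 2
  have hT : ∀ L s u, Measurable (fun x => T L s u (Qi c x) x) := by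
    intro L s u
    apply meas_Qi
    intro z
    have := (Ex_cont (bd_int (bd_ind (bd_ind hh (ann_meas (1 + L / 2 ^ b)
      (1 + (L + 1 : ℕ) / 2 ^ b))) (ann_meas ((1 + L / 2 ^ b) +
            rk (c - b) (((Λ z).filter (fun w => w / 2 ^ (c - b) = L)).image
              (· % 2 ^ (c - b))) (u * 2 ^ s) / 2 ^ c)
          ((1 + L / 2 ^ b) +
            rk (c - b) (((Λ z).filter (fun w => w / 2 ^ (c - b) = L)).image
              (· % 2 ^ (c - b))) ((u + 1) * 2 ^ s) / 2 ^ c))))).measurable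
    exact this.enorm.pow_const 2
  have hLs : ∀ L s, ∫⁻ x, ∑ u ∈ Finset.range (A + 1), T L s u (Qi c x) x ≤
      C * ((c - b + 1 : ℕ) : ℝ≥0∞) * ((lg (A + 1) + lg (c - b + 1) : ℕ) : ℝ≥0∞) *
        n2 ((ann (1 + L / 2 ^ b) (1 + (L + 1 : ℕ) / 2 ^ b)).indicator h) := by
    intro L s
    refine hC c (c - b) (A + 1) (1 + L / 2 ^ b)
      (fun k z => rk (c - b) (((Λ z).filter (fun w => w / 2 ^ (c - b) = L)).image
              (· % 2 ^ (c - b))) (k * 2 ^ s)) _ (bd_ind hh (ann_meas _ _)) ?_ ?_ ?_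
    · intro ξ hξ
      apply hsupp
      intro h0
      apply hξ
      by_cases hx : ξ ∈ ann (1 + (L : ℝ) / 2 ^ b) (1 + (L + 1 : ℕ) / 2 ^ b)
      · rw [indicator_of_mem hx, h0]
      · rw [indicator_of_notMem hx]
    · intro k z
      exact rk_mono _ _ (Nat.mul_le_mul_right _ (Nat.le_succ _))
    · intro k z
      exact rk_le _ _ _
  calc _ ≤ ∫⁻ x in Y, ∑ L ∈ Finset.range (2 ^ b), (lg A : ℝ≥0∞) * ∑ s ∈ Finset.range (lg A),
          ∑ u ∈ Finset.range (A + 1), T L s u (Qi c x) x := by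
        refine setLIntegral_mono' hY fun x hx => ?_
        exact core b c A v Y Λ h hbc hvc hΛ hYΛ hh x hx
    _ ≤ ∫⁻ x, ∑ L ∈ Finset.range (2 ^ b), (lg A : ℝ≥0∞) * ∑ s ∈ Finset.range (lg A),
          ∑ u ∈ Finset.range (A + 1), T L s u (Qi c x) x := setLIntegral_le_lintegral _ _
    _ = ∑ L ∈ Finset.range (2 ^ b), (lg A : ℝ≥0∞) * ∑ s ∈ Finset.range (lg A),
          ∫⁻ x, ∑ u ∈ Finset.range (A + 1), T L s u (Qi c x) x := by
        rw [lintegral_finsetSum]
        · refine Finset.sum_congr rfl fun L _ => ?_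
          rw [lintegral_const_mul]
          · rw [lintegral_finsetSum]
            intro s _
            exact Finset.measurable_fun_sum _ fun u _ => hT L s u
          · exact Finset.measurable_fun_sum _ fun s _ =>
              Finset.measurable_fun_sum _ fun u _ => hT L s u
        · intro L _
          exact (Finset.measurable_fun_sum _ fun s _ =>
              Finset.measurable_fun_sum _ fun u _ => hT L s u).const_mul _
    _ ≤ ∑ L ∈ Finset.range (2 ^ b), (lg A : ℝ≥0∞) * ∑ s ∈ Finset.range (lg A),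
          (C * ((c - b + 1 : ℕ) : ℝ≥0∞) * ((lg (A + 1) + lg (c - b + 1) : ℕ) : ℝ≥0∞) *
        n2 ((ann (1 + L / 2 ^ b) (1 + (L + 1 : ℕ) / 2 ^ b)).indicator h)) := by
        gcongr with L _ s _
        exact hLs L s
    _ = ((lg A : ℝ≥0∞) * (lg A : ℝ≥0∞) * (C * ((c - b + 1 : ℕ) : ℝ≥0∞) *
          ((lg (A + 1) + lg (c - b + 1) : ℕ) : ℝ≥0∞))) * ∑ L ∈ Finset.range (2 ^ b),
          n2 ((ann (1 + L / 2 ^ b) (1 + (L + 1 : ℕ) / 2 ^ b)).indicator h) := by
        rw [Finset.mul_sum]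
        refine Finset.sum_congr rfl fun L _ => ?_
        rw [Finset.sum_const, Finset.card_range, nsmul_eq_mul]
        ring
    _ ≤ ((lg A : ℝ≥0∞) * (lg A : ℝ≥0∞) * (C * ((c - b + 1 : ℕ) : ℝ≥0∞) *
          ((lg (A + 1) + lg (c - b + 1) : ℕ) : ℝ≥0∞))) * n2 h := by
        gcongr
        exact sum_n2 b hh
    _ ≤ _ := by
        refine mul_le_mul' ?_ le_rfl
        have hnat : lg A * lg A * (lg (A + 1) + lg (c - b + 1)) ≤
            2 * (lg A + lg (c - b + 1)) ^ 3 := by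
          have h1 := lg_succ A
          calc lg A * lg A * (lg (A + 1) + lg (c - b + 1)) ≤
              (lg A + lg (c - b + 1)) * (lg A + lg (c - b + 1)) *
                (2 * (lg A + lg (c - b + 1))) := by
                gcongr
                · omega
                · omega
                · omega
            _ = _ := by ring
        have hcast : (lg A : ℝ≥0∞) * (lg A : ℝ≥0∞) * ((lg (A + 1) + lg (c - b + 1) : ℕ) : ℝ≥0∞) ≤
            2 * ((lg A + lg (c - b + 1) : ℕ) : ℝ≥0∞) ^ 3 := by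
          exact_mod_cast hnat
        calc (lg A : ℝ≥0∞) * (lg A : ℝ≥0∞) * (C * ((c - b + 1 : ℕ) : ℝ≥0∞) *
              ((lg (A + 1) + lg (c - b + 1) : ℕ) : ℝ≥0∞)) =
            C * ((c - b + 1 : ℕ) : ℝ≥0∞) * ((lg A : ℝ≥0∞) * (lg A : ℝ≥0∞) *
              ((lg (A + 1) + lg (c - b + 1) : ℕ) : ℝ≥0∞)) := by ring
          _ ≤ C * ((c - b + 1 : ℕ) : ℝ≥0∞) *
              (2 * ((lg A + lg (c - b + 1) : ℕ) : ℝ≥0∞) ^ 3) := by gcongr
          _ = _ := by rw [ENNReal.coe_mul, ENNReal.coe_ofNat]; ring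

end Pool.Agent.KSP
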