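import Pool.Agent.KSP.Defs

set_option autoImplicit false

/-! KSP bound for disc partial sums (MP_ee701d_an): exact targets.  Proofs: Blueprint.lean.txt. -/

namespace Pool.Agent.KSP

open MeasureTheory Set
open scoped ENNReal NNReal ComplexConjugate

/-! ### Base -/

/-- B1 Plancherel on the line and in the plane -/
def tPl1 : Prop := ∀ H : ℝ → ℂ, Bd1 H → Continuous (Ex1 H) ∧ ∫⁻ s, ‖Ex1 H s‖ₑ ^ 2 = n1 H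

def tPl2 : Prop := ∀ h : ℝ × ℝ → ℂ, Bd h → Continuous (Ex h) ∧ ∫⁻ x, ‖Ex h x‖ₑ ^ 2 = n2 h

/-- B2 polarized Plancherel -/
def tPo1 : Prop := ∀ H K : ℝ → ℂ, Bd1 H → Bd1 K →
  Integrable (fun s => Ex1 H s * conj (Ex1 K s)) ∧
    ∫ s, Ex1 H s * conj (Ex1 K s) = ∫ τ, H τ * conj (K τ)

def tPo2 : Prop := ∀ h k : ℝ × ℝ → ℂ, Bd h → Bd k →
  Integrable (fun x => Ex h x * conj (Ex k x)) ∧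
    ∫ x, Ex h x * conj (Ex k x) = ∫ ξ, h ξ * conj (k ξ)

/-- B3 almost orthogonality with the weight `|Ex1 g|²` -/
def tOL1 : Prop := ∀ (S : Finset ℤ) (W : ℕ) (h : ℤ → ℝ → ℂ) (g : ℝ → ℂ), (∀ p, Bd1 (h p)) →
  Bd1 g →
  (∀ p p' ξ η η', h p ξ ≠ 0 → g η ≠ 0 → g η' ≠ 0 → h p' (ξ + η - η') ≠ 0 → |p - p'| ≤ W) →
  ∫⁻ x, ‖Ex1 g x‖ₑ ^ 2 * ‖∑ p ∈ S, Ex1 (h p) x‖ₑ ^ 2 ≤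
    (2 * W + 1) * ∑ p ∈ S, ∫⁻ x, ‖Ex1 g x‖ₑ ^ 2 * ‖Ex1 (h p) x‖ₑ ^ 2

/-- B4 the same in the plane -/
def tOL2 : Prop := ∀ (S : Finset ℤ) (W : ℕ) (h : ℤ → ℝ × ℝ → ℂ) (g : ℝ × ℝ → ℂ),
  (∀ p, Bd (h p)) → Bd g →
  (∀ p p' ξ η η', h p ξ ≠ 0 → g η ≠ 0 → g η' ≠ 0 → h p' (ξ + η - η') ≠ 0 → |p - p'| ≤ W) →
  ∫⁻ x, ‖Ex g x‖ₑ ^ 2 * ‖∑ p ∈ S, Ex (h p) x‖ₑ ^ 2 ≤
    (2 * W + 1) * ∑ p ∈ S, ∫⁻ x, ‖Ex g x‖ₑ ^ 2 * ‖Ex (h p) x‖ₑ ^ 2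

/-- B5 convolution on the Fourier side -/
def tCv : Prop := ∀ g h : ℝ × ℝ → ℂ, Bd g → Bd h →
  Bd (cv g h) ∧ (∀ ζ, cv g h ζ ≠ 0 → ∃ η, g η ≠ 0 ∧ h (ζ - η) ≠ 0) ∧
    ∀ x, Ex (cv g h) x = Ex g x * Ex h x

/-- B6 the parallelogram cutoffs: size on the parallelogram, and their sum -/
def tPar : Prop := ∃ C : ℝ≥0, ∀ a b t : ℝ, 0 < a → 0 < b →
  (∀ c, Bd (par a b t c)) ∧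
  (∀ (z : ℤ × ℤ) (x : ℝ × ℝ), ⌊4 * a * x.1⌋ = z.1 → ⌊4 * b * (x.2 - t * x.1)⌋ = z.2 →
    a * b ≤ ‖Ex (par a b t (cen a b t z)) x‖) ∧
  (∀ (z : ℤ × ℤ) (x : ℝ × ℝ), ‖Ex (par a b t (cen a b t z)) x‖ ≤
    C * (a * b) / ((1 + |(⌊4 * a * x.1⌋ - z.1 : ℝ)|) *
      (1 + |(⌊4 * b * (x.2 - t * x.1)⌋ - z.2 : ℝ)|))) ∧
  ∀ x, ∑' z : ℤ × ℤ, ‖Ex (par a b t (cen a b t z)) x‖ₑ ^ 2 ≤ C * ENNReal.ofReal ((a * b) ^ 2)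

/-! ### Weighted estimate for an annulus (Cordoba type), right sector -/

/-- L1 Hilbert-Schmidt bound for a bilinear form with a weight -/
def tHS : Prop := ∀ (u v : ℝ × ℝ → ℂ) (w : ℝ × ℝ → ℝ) (S S' : Set (ℝ × ℝ)), Bd u → Bd v →
  Bd (fun x => (w x : ℂ)) → MeasurableSet S → MeasurableSet S' → (∀ ξ, u ξ ≠ 0 → ξ ∈ S) →
  (∀ ξ, v ξ ≠ 0 → ξ ∈ S') →
  ‖∫ x, (w x : ℂ) * (Ex u x * conj (Ex v x))‖ₑ ^ 2 ≤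
    n2 u * n2 v * ∫⁻ ζ in S, ∫⁻ ζ' in S', ‖Ex (fun x => (w x : ℂ)) (ζ - ζ')‖ₑ ^ 2

/-- L2 change of variables for two separated arcs -/
def tCoV : Prop := ∃ C : ℝ≥0, ∀ (j k : ℕ) (ρ : ℝ) (p p' : ℤ) (F : ℝ × ℝ → ℝ≥0∞), 4 ≤ j →
  k ≤ j / 2 → 1 ≤ ρ → ρ ≤ 2 → 2 ≤ |p - p'| → Measurable F →
  ∫⁻ ζ in arc j k ρ p, ∫⁻ ζ' in arc j k ρ p', F (ζ - ζ') ≤
    C * ENNReal.ofReal (2 ^ k / 4 ^ j) * ∫⁻ ζ, F ζ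

/-- L2 area of an arc neighbourhood -/
def tArc : Prop := ∃ C : ℝ≥0, ∀ (j k : ℕ) (ρ : ℝ) (p : ℤ), 1 ≤ ρ → ρ ≤ 2 →
  MeasurableSet (arc j k ρ p) ∧
    volume (arc j k ρ p) ≤ C * ENNReal.ofReal (1 / 2 ^ j / 2 ^ k)

/-- L3 supports after localisation; the slope `t` depends on `j, k, ρ, p` only -/
def tSupp : Prop := ∃ t : ℕ → ℝ → ℤ → ℝ, ∀ (j k : ℕ) (ρ : ℝ) (p : ℤ), 4 ≤ j → k ≤ j / 2 →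
  1 ≤ ρ → ρ ≤ 2 → |t k ρ p| ≤ 2 ∧
    ∀ (p' : ℤ) (ξ η : ℝ × ℝ), |p' - p| ≤ 3 → ξ ∈ V0 → ξ ∈ ann ρ (ρ + 1 / 2 ^ j) →
      ⌊(2 : ℝ) ^ k * ξ.2⌋ = p' → |η.2| ≤ 2 ^ k / 2 ^ j / 64 →
      |η.1 + t k ρ p * η.2| ≤ 1 / 2 ^ j / 64 → ξ + η ∈ arc j k ρ p'

/-- L4 a set with small density in the squares of side `r` has small density in parallelograms -/
def tCover : Prop := ∃ C : ℝ≥0, ∀ (E : Set (ℝ × ℝ)) (a b t r A : ℝ) (z : ℤ × ℤ), MeasurableSet E →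
  0 < a → 0 < b → |t| ≤ 2 → 0 < r → r ≤ 1 / a → r ≤ 1 / b → 0 < A →
  (∀ y, volume (E ∩ sq y r) ≤ ENNReal.ofReal (r ^ 2 / A)) →
  volume (E ∩ {x | ⌊4 * a * x.1⌋ = z.1 ∧ ⌊4 * b * (x.2 - t * x.1)⌋ = z.2}) ≤
    C * ENNReal.ofReal (1 / (a * b * A))

/-- L5 bilinear estimate for separated strips, and the diagonal estimate -/
def tBL : Prop := ∃ C : ℝ≥0, ∀ (j k : ℕ) (ρ A : ℝ) (p p' : ℤ) (E : Set (ℝ × ℝ))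
    (h : ℝ × ℝ → ℂ), 4 ≤ j → k ≤ j / 2 → 1 ≤ ρ → ρ ≤ 2 → 0 < A → MeasurableSet E →
  (∀ y, volume (E ∩ sq y (2 ^ (j / 2))) ≤ ENNReal.ofReal (4 ^ (j / 2) / A)) →
  Bd h → (∀ ξ, h ξ ≠ 0 → ξ ∈ V0 ∧ ξ ∈ ann ρ (ρ + 1 / 2 ^ j)) →
  ((2 ≤ |p - p'| ∧ |p - p'| ≤ 3) ∨ (k = j / 2 ∧ p = p')) →
  ‖∫ x in E, Ex (str k p h) x * conj (Ex (str k p' h) x)‖ₑ ^ 2 ≤
    C * ENNReal.ofReal (1 / A) * (n2 (str k p h) * n2 (str k p' h))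

/-- L6 the weighted estimate -/
def tL : Prop := ∃ C : ℝ≥0, ∀ (j : ℕ) (ρ A : ℝ) (E : Set (ℝ × ℝ)) (h : ℝ × ℝ → ℂ),
  1 ≤ ρ → ρ ≤ 2 → 0 < A → MeasurableSet E →
  (∀ y, volume (E ∩ sq y (2 ^ (j / 2))) ≤ ENNReal.ofReal (4 ^ (j / 2) / A)) →
  Bd h → (∀ ξ, h ξ ≠ 0 → ξ ∈ V0 ∧ ξ ∈ ann ρ (ρ + 1 / 2 ^ j)) →
  ∫⁻ x in E, ‖Ex h x‖ₑ ^ 2 ≤ C * ((j + 1 : ℕ) : ℝ≥0∞) * ENNReal.ofReal (1 / √A) * n2 h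

/-! ### One dimension: KSP with `ℓ²` sums over disjoint frequency intervals -/

/-- S1 Rademacher-Menshov for disjoint ranges -/
def tRM : Prop := ∀ (n q : ℕ) (Λ : Finset ℕ) (F : ℕ → ℂ) (μ ν : ℕ → ℕ), Λ.card ≤ 2 ^ n →
  (∀ k, μ k ≤ ν k) → (∀ k, ν k ≤ μ (k + 1)) →
  ∑ k ∈ Finset.range q, ‖∑ J ∈ Λ with μ k ≤ J ∧ J < ν k, F J‖ ^ 2 ≤
    2 * (n + 1) * ∑ s ∈ Finset.range (n + 1), ∑ i ∈ Finset.range (2 ^ n),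
      ‖∑ J ∈ DD Λ s i, F J‖ ^ 2

/-- S2 orthogonality of frequency blocks on a cell of length `2^{-j-2}` -/
def tCell : Prop := ∃ (C : ℝ≥0) (Φ : ℕ → ℤ → ℝ → ℝ), (∀ j t, Continuous (Φ j t)) ∧
  (∀ j t s, 0 ≤ Φ j t s) ∧
  (∀ (j : ℕ) (t : ℤ) (s : ℝ), ⌊(2 : ℝ) ^ (j + 2) * s⌋ = t → 1 ≤ Φ j t s) ∧
  (∀ (j : ℕ) (t : ℤ) (s : ℝ), 0 ≤ t → t < 2 ^ (j + 1) → -(1 / 4) ≤ s → s < 3 / 4 →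
    Φ j t s ≤ C / (1 + |(⌊(2 : ℝ) ^ (j + 2) * s⌋ - t : ℝ)|) ^ 2) ∧
  ∀ (j : ℕ) (t : ℤ) (D : Finset ℕ) (g : ℕ → ℝ → ℂ), (∀ J, Bd1 (g J)) →
    ∫ s in (-(1 / 4) : ℝ)..3 / 4, Φ j t s * ‖∑ J ∈ D, hJ j (g J) J s‖ ^ 2 ≤
      3 * ∑ J ∈ D, ∫ s in (-(1 / 4) : ℝ)..3 / 4, Φ j t s * ‖hJ j (g J) J s‖ ^ 2

/-- S3 kernel bound and Bessel for one block -/
def tKer : Prop := ∃ C : ℝ≥0, ∀ (j J : ℕ) (g : ℝ → ℂ), Bd1 g → (∀ s, g s ≠ 0 → 0 ≤ s ∧ s < 1 / 2) →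
  (∀ s, -(1 / 4) ≤ s → s < 3 / 4 → ‖hJ j g J s‖ ≤
    C * ∑ t ∈ Finset.range (2 ^ (j + 1)), (1 + |(⌊(2 : ℝ) ^ (j + 2) * s⌋ - t : ℝ)|)⁻¹ *
      (2 ^ j * ∫ s' in (t / 2 ^ (j + 2) : ℝ)..((t + 1) / 2 ^ (j + 2)), ‖g s'‖)) ∧
  ∫ s in (-(1 / 4) : ℝ)..3 / 4, ‖hJ j g J s‖ ^ 2 =
    ∑ l ∈ Finset.Ico (J * 2 ^ j) ((J + 1) * 2 ^ j), ‖∫ s', g s' * ee (-(l * s'))‖ ^ 2

/-- S3 Bessel -/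
def tBes : Prop := ∀ (S : Finset ℕ) (g : ℝ → ℂ), Bd1 g → (∀ s, g s ≠ 0 → 0 ≤ s ∧ s < 1 / 2) →
  ∑ l ∈ S, ‖∫ s', g s' * ee (-(l * s'))‖ ^ 2 ≤ ∫ s, ‖g s‖ ^ 2

/-- S4 sparse square function estimate -/
def tSparse : Prop := ∃ C : ℝ≥0, ∀ (j κ q : ℕ) (g : ℕ → ℝ → ℂ) (μ ν : ℕ → ℝ → ℕ), j ≤ κ →
  (∀ J, Bd1 (g J)) → (∀ J s, g J s ≠ 0 → 0 ≤ s ∧ s < 1 / 2) →
  (∀ s, {J ∈ Finset.range (2 ^ κ) | g J s ≠ 0}.card ≤ 2 * q) →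
  (∀ k, Measurable (μ k)) → (∀ k, Measurable (ν k)) → (∀ k s, μ k s ≤ ν k s) →
  (∀ k s, ν k s ≤ μ (k + 1) s) → (∀ k s, ν k s ≤ 2 ^ κ) →
  ∫⁻ s in Ico (0 : ℝ) (1 / 2), ∑ k ∈ Finset.range q,
      ‖∑ J ∈ Finset.Ico (μ k s) (ν k s), hJ j (g J) J s‖ₑ ^ 2 ≤
    C * ((lg q + lg (κ + 1) : ℕ) : ℝ≥0∞) ^ 2 * ∑ J ∈ Finset.range (2 ^ κ), n1 (g J)

/-- S5 dual estimate on the circle -/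
def tDT : Prop := ∃ C : ℝ≥0, ∀ (κ q : ℕ) (lam : ℕ → ℝ → ℕ) (G : ℕ → ℝ → ℂ),
  (∀ k, Measurable (lam k)) → (∀ k s, lam k s ≤ lam (k + 1) s) → (∀ k s, lam k s ≤ 2 ^ κ) →
  (∀ k, Bd1 (G k)) → (∀ k s, G k s ≠ 0 → 0 ≤ s ∧ s < 1 / 2) →
  ∑ l ∈ Finset.range (2 ^ κ), ‖∫ s, (∑ k ∈ Finset.range q,
      if lam k s ≤ l ∧ l < lam (k + 1) s then G k s else 0) * ee (-(l * s))‖ₑ ^ 2 ≤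
    C * ((κ + 1 : ℕ) : ℝ≥0∞) * ((lg q + lg (κ + 1) : ℕ) : ℝ≥0∞) *
      ∑ k ∈ Finset.range q, n1 (G k)

/-- S6 dual estimate on the line -/
def tDR : Prop := ∃ C : ℝ≥0, ∀ (κ q : ℕ) (lam : ℕ → ℝ → ℕ) (G : ℕ → ℝ → ℂ),
  (∀ k, Measurable (lam k)) → (∀ k s, lam k s ≤ lam (k + 1) s) → (∀ k s, lam k s ≤ 2 ^ κ) →
  (∀ k, Bd1 (G k)) →
  ∫⁻ τ in Ico (0 : ℝ) (2 ^ κ), ‖∫ s, (∑ k ∈ Finset.range q,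
      if (lam k s : ℝ) ≤ τ ∧ τ < lam (k + 1) s then G k s else 0) * ee (-(τ * s))‖ₑ ^ 2 ≤
    C * ((κ + 1 : ℕ) : ℝ≥0∞) * ((lg q + lg (κ + 1) : ℕ) : ℝ≥0∞) *
      ∑ k ∈ Finset.range q, n1 (G k)

/-- S7 primal estimate on the line -/
def tK1 : Prop := ∃ C : ℝ≥0, ∀ (κ q : ℕ) (lam : ℕ → ℝ → ℕ) (a u : ℝ) (H : ℝ → ℂ), 0 < u →
  (∀ k, Measurable (lam k)) → (∀ k s, lam k s ≤ lam (k + 1) s) → (∀ k s, lam k s ≤ 2 ^ κ) →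
  Bd1 H →
  ∫⁻ s, ∑ k ∈ Finset.range q,
      ‖Ex1 ((Ico (a + u * lam k s) (a + u * lam (k + 1) s)).indicator H) s‖ₑ ^ 2 ≤
    C * ((κ + 1 : ℕ) : ℝ≥0∞) * ((lg q + lg (κ + 1) : ℕ) : ℝ≥0∞) * n1 H

/-! ### The plane -/

/-- P1 one sector of slopes -/
def tV1 : Prop := ∃ C : ℝ≥0, ∀ (c κ q : ℕ) (p : ℤ) (a : ℝ) (lam : ℕ → ℝ × ℝ → ℕ)
    (h : ℝ × ℝ → ℂ), Bd h → (∀ ξ, h ξ ≠ 0 → ξ ∈ V0 ∧ ξ ∈ sec c p) →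
  (∀ k, Measurable (lam k)) → (∀ k s, lam k s ≤ lam (k + 1) s) → (∀ k s, lam k s ≤ 2 ^ κ) →
  ∫⁻ x, ∑ k ∈ Finset.range q,
      ‖Ex ((ann (a + lam k x / 2 ^ c) (a + lam (k + 1) x / 2 ^ c)).indicator h) x‖ₑ ^ 2 ≤
    C * ((κ + 1 : ℕ) : ℝ≥0∞) * ((lg q + lg (κ + 1) : ℕ) : ℝ≥0∞) * n2 h

/-- P2 cutoffs that are constant on the squares of side `2^{⌊c/2⌋}` -/
def tV2 : Prop := ∃ C : ℝ≥0, ∀ (c κ q : ℕ) (a : ℝ) (lam : ℕ → ℤ × ℤ → ℕ) (h : ℝ × ℝ → ℂ),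
  Bd h → (∀ ξ, h ξ ≠ 0 → ξ ∈ V0) → (∀ k z, lam k z ≤ lam (k + 1) z) →
  (∀ k z, lam k z ≤ 2 ^ κ) →
  ∫⁻ x, ∑ k ∈ Finset.range q, ‖Ex ((ann (a + lam k (Qi c x) / 2 ^ c)
      (a + lam (k + 1) (Qi c x) / 2 ^ c)).indicator h) x‖ₑ ^ 2 ≤
    C * ((κ + 1 : ℕ) : ℝ≥0∞) * ((lg q + lg (κ + 1) : ℕ) : ℝ≥0∞) * n2 h

/-- P3 one block of scales, at points where at most `A` values occur in each square -/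
def tBlock : Prop := ∃ C : ℝ≥0, ∀ (b c A : ℕ) (v : ℝ × ℝ → ℕ) (Y : Set (ℝ × ℝ))
    (Λ : ℤ × ℤ → Finset ℕ) (h : ℝ × ℝ → ℂ), b ≤ c → Measurable v → (∀ x, v x < 2 ^ c) →
  MeasurableSet Y → (∀ z, (Λ z).card ≤ A) → (∀ x ∈ Y, v x ∈ Λ (Qi c x)) → Bd h →
  (∀ ξ, h ξ ≠ 0 → ξ ∈ V0) →
  ∫⁻ x in Y, ‖Ex ((ann (1 + (v x / 2 ^ (c - b) : ℕ) / 2 ^ b) (1 + v x / 2 ^ c)).indicator h) x‖ₑ ^ 2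
    ≤ C * ((c - b + 1 : ℕ) : ℝ≥0∞) * ((lg A + lg (c - b + 1) : ℕ) : ℝ≥0∞) ^ 3 * n2 h

/-- P4 unpopular points -/
def tBad : Prop := ∀ (m A i : ℕ) (k : ℝ × ℝ → ℕ), 1 ≤ A → i ≤ m → Measurable k →
  (∀ x, k x < 2 ^ m) →
  MeasurableSet (badS m A i k) ∧
  (∀ (v : ℕ) (y : ℝ × ℝ),
    volume ({x | k x / 2 ^ (m - i) = v} ∩ badS m A i k ∩ sq y (2 ^ (i / 2))) ≤
      4 * ((i + 1 : ℕ) : ℝ≥0∞) * 4 ^ (i / 2) / A) ∧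
  ∃ Λ : ℤ × ℤ → Finset ℕ, (∀ z, (Λ z).card ≤ A) ∧
    ∀ x, x ∉ badS m A i k → k x / 2 ^ (m - i) ∈ Λ (Qi i x)

/-- P5 contribution of the unpopular points -/
def tBadE : Prop := ∃ C : ℝ≥0, ∀ (m A i : ℕ) (k : ℝ × ℝ → ℕ) (h : ℝ × ℝ → ℂ), 1 ≤ A → 1 ≤ i →
  i ≤ m → Measurable k → (∀ x, k x < 2 ^ m) → Bd h → (∀ ξ, h ξ ≠ 0 → ξ ∈ V0) →
  ∫⁻ x in badS m A i k, ‖Ex ((ann (1 + (k x / 2 ^ (m - i + 1) : ℕ) / 2 ^ (i - 1))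
      (1 + (k x / 2 ^ (m - i) : ℕ) / 2 ^ i)).indicator h) x‖ₑ ^ 2 ≤
    C * ((i + 1 : ℕ) : ℝ≥0∞) ^ 2 * ENNReal.ofReal (1 / √A) * n2 h

/-- P6 the main estimate, right sector, linearised -/
def tMV : Prop := ∃ C : ℝ≥0, ∀ (m : ℕ) (k : ℝ × ℝ → ℕ) (h : ℝ × ℝ → ℂ), 1 ≤ m → Measurable k →
  (∀ x, k x < 2 ^ m) → Bd h → (∀ ξ, h ξ ≠ 0 → ξ ∈ V0) →
  ∫⁻ x, ‖Ex ((ann 1 (1 + k x / 2 ^ m)).indicator h) x‖ₑ ^ 2 ≤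
    C * m * ((lg m : ℕ) : ℝ≥0∞) ^ 5 * n2 h

/-- P7 the main estimate -/
def tK : Prop := ∃ C : ℝ≥0, ∀ (m : ℕ) (h : ℝ × ℝ → ℂ), 1 ≤ m → Bd h →
  (∀ ξ, h ξ ≠ 0 → 1 ≤ nr ξ ∧ nr ξ < 2) →
  ∫⁻ x, (⨆ k ∈ Finset.range (2 ^ m), ‖Ex ((ann 1 (1 + k / 2 ^ m)).indicator h) x‖ₑ) ^ 2 ≤
    C * m * ((lg m : ℕ) : ℝ≥0∞) ^ 5 * n2 h

end Pool.Agent.KSP
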