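import Mathlib
import Pool.Agent.KSP.Targets

set_option autoImplicit false

namespace Pool.Agent.KSP

open MeasureTheory Set
open scoped ENNReal NNReal ComplexConjugate

namespace Cell_

lemma ee_zero : ee 0 = 1 := by simp [ee]

lemma ee_add (a b : ℝ) : ee (a + b) = ee a * ee b := by
  simp only [ee]
  rw [← Complex.exp_add]
  congr 1
  push_cast
  ring

lemma ee_neg_conj (a : ℝ) : conj (ee a) = ee (-a) := by
  simp only [ee]
  rw [← Complex.exp_conj]
  congr 1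
  simp only [map_mul, Complex.conj_ofReal, Complex.conj_I]
  push_cast
  have : conj (2 : ℂ) = 2 := by
    rw [show (2 : ℂ) = ((2 : ℝ) : ℂ) by norm_num, Complex.conj_ofReal]
  rw [this]
  ring

lemma ee_nat_mul (a : ℕ) (u : ℝ) : ee (a * u) = ee u ^ a := by
  simp only [ee]
  rw [← Complex.exp_nat_mul]
  congr 1
  push_cast
  ring

lemma norm_ee (a : ℝ) : ‖ee a‖ = 1 := by
  simp only [ee]
  rw [show (2 * Real.pi * Complex.I * (a : ℂ)) = ((2 * Real.pi * a : ℝ) : ℂ) * Complex.I by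
    push_cast; ring]
  exact Complex.norm_exp_ofReal_mul_I _

lemma continuous_ee : Continuous ee := by
  unfold ee
  fun_prop

lemma norm_ee_sub_one (u : ℝ) : ‖ee u - 1‖ = 2 * |Real.sin (Real.pi * u)| := by
  have h1 : ee u - 1 = ee (u / 2) * (2 * Complex.I * ((Real.sin (Real.pi * u) : ℝ) : ℂ)) := by
    have h2 : ee u = ee (u / 2) * ee (u / 2) := by rw [← ee_add]; congr 1; ring
    have h3 : (1 : ℂ) = ee (u / 2) * ee (-(u / 2)) := by
      rw [← ee_add, add_neg_cancel, ee_zero]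
    have h6 : ee u - 1 = ee (u / 2) * (ee (u / 2) - ee (-(u / 2))) := by
      rw [mul_sub, ← h2, ← h3]
    rw [h6]
    congr 1
    rw [Complex.ofReal_sin, Complex.sin]
    have h4 : ee (u / 2) = Complex.exp ((Real.pi * u : ℝ) * Complex.I) := by
      simp only [ee]; congr 1; push_cast; ring
    have h5 : ee (-(u / 2)) = Complex.exp (-(Real.pi * u : ℝ) * Complex.I) := by
      simp only [ee]; congr 1; push_cast; ring
    rw [h4, h5]
    linear_combination (-1 : ℂ) * (Complex.exp (-((Real.pi * u : ℝ) : ℂ) * Complex.I) -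
      Complex.exp (((Real.pi * u : ℝ) : ℂ) * Complex.I)) * Complex.I_sq
  rw [h1, norm_mul, norm_ee, one_mul, norm_mul, norm_mul, Complex.norm_I, Complex.norm_real]
  simp

/-- the exponential sum -/
noncomputable def P (n : ℕ) (u : ℝ) : ℂ := ∑ a ∈ Finset.range n, ee (a * u)

lemma P_mul (n : ℕ) (u : ℝ) : ‖P n u‖ * |Real.sin (Real.pi * u)| = |Real.sin (Real.pi * (n * u))| := by
  have h1 : P n u * (ee u - 1) = ee (n * u) - 1 := by
    unfold P
    simp only [ee_nat_mul]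
    exact geom_sum_mul (ee u) n
  have h2 := congrArg norm h1
  rw [norm_mul, norm_ee_sub_one, norm_ee_sub_one] at h2
  linarith

lemma P_le (n : ℕ) (u : ℝ) : ‖P n u‖ ≤ n := by
  unfold P
  refine (norm_sum_le _ _).trans ?_
  simp [norm_ee]

lemma continuous_P (n : ℕ) : Continuous (P n) := by
  unfold P
  exact continuous_finsetSum _ (fun a _ => continuous_ee.comp (by fun_prop))

/-- the weight -/
noncomputable def Phi (j : ℕ) (t : ℤ) (s : ℝ) : ℝ :=
  Real.pi ^ 2 / 4 / ((2 : ℝ) ^ j) ^ 2 * ‖P (2 ^ j) (s - t / 2 ^ (j + 2))‖ ^ 2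

lemma continuous_Phi (j : ℕ) (t : ℤ) : Continuous (Phi j t) := by
  unfold Phi
  exact continuous_const.mul (((continuous_P _).comp (by fun_prop)).norm.pow 2)

lemma Phi_lower (j : ℕ) (t : ℤ) (s : ℝ) (h : ⌊(2 : ℝ) ^ (j + 2) * s⌋ = t) : 1 ≤ Phi j t s := by
  have hpos : (0 : ℝ) < 2 ^ (j + 2) := by positivity
  have hn : (0 : ℝ) < 2 ^ j := by positivity
  obtain ⟨h1, h2⟩ := Int.floor_eq_iff.mp h
  set u : ℝ := s - t / 2 ^ (j + 2) with hu
  have hu1 : (2 : ℝ) ^ (j + 2) * u = 2 ^ (j + 2) * s - t := by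
    rw [hu]; field_simp
  have hu0 : 0 ≤ u := by
    by_contra hneg
    push Not at hneg
    have : (2 : ℝ) ^ (j + 2) * u < 0 := mul_neg_of_pos_of_neg hpos hneg
    linarith
  have hu2 : (2 : ℝ) ^ (j + 2) * u < 1 := by linarith
  have hu3 : (2 : ℝ) ^ j * u < 1 / 4 := by
    have : (2 : ℝ) ^ (j + 2) * u = 4 * (2 ^ j * u) := by rw [pow_add]; ring
    linarith
  have hlow : 2 / Real.pi * 2 ^ j ≤ ‖P (2 ^ j) u‖ := by
    rcases eq_or_lt_of_le hu0 with h0 | h0
    · rw [← h0]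
      have : P (2 ^ j) 0 = (2 : ℂ) ^ j := by
        unfold P
        simp [ee_zero]
      rw [this, norm_pow]
      simp only [Complex.norm_ofNat]
      have : 2 / Real.pi ≤ 1 := by
        rw [div_le_one Real.pi_pos]
        linarith [Real.pi_gt_three]
      nlinarith
    · have h3 := P_mul (2 ^ j) u
      have h4 : |Real.sin (Real.pi * u)| ≤ Real.pi * u := by
        have := Real.abs_sin_le_abs (x := Real.pi * u)
        rwa [abs_of_nonneg (a := Real.pi * u) (by positivity)] at this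
      have h5 : 2 * (2 ^ j * u) ≤ |Real.sin (Real.pi * (((2 ^ j : ℕ) : ℝ) * u))| := by
        push_cast
        have h6 := Real.mul_le_sin (x := Real.pi * (2 ^ j * u)) (by positivity) (by
          have := Real.pi_pos
          nlinarith)
        have h7 : 2 / Real.pi * (Real.pi * (2 ^ j * u)) = 2 * (2 ^ j * u) := by
          field_simp
        rw [h7] at h6
        exact h6.trans (le_abs_self _)
      rw [← h3] at h5
      have h8 : 2 * (2 ^ j * u) ≤ ‖P (2 ^ j) u‖ * (Real.pi * u) :=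
        h5.trans (mul_le_mul_of_nonneg_left h4 (norm_nonneg _))
      have h9 : (2 * 2 ^ j) * u ≤ (‖P (2 ^ j) u‖ * Real.pi) * u := by linarith
      have h10 := le_of_mul_le_mul_right h9 h0
      rw [div_mul_eq_mul_div, div_le_iff₀ Real.pi_pos]
      exact h10
  unfold Phi
  rw [← hu]
  have hp := Real.pi_pos
  have h11 : (2 / Real.pi * 2 ^ j) ^ 2 ≤ ‖P (2 ^ j) u‖ ^ 2 :=
    pow_le_pow_left₀ (by positivity) hlow 2
  have h12 : (1 : ℝ) = Real.pi ^ 2 / 4 / ((2 : ℝ) ^ j) ^ 2 * (2 / Real.pi * 2 ^ j) ^ 2 := by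
    field_simp
    norm_num
  calc (1 : ℝ) = Real.pi ^ 2 / 4 / ((2 : ℝ) ^ j) ^ 2 * (2 / Real.pi * 2 ^ j) ^ 2 := h12
    _ ≤ _ := mul_le_mul_of_nonneg_left h11 (by positivity)

lemma sin_lower (u : ℝ) (hu : |u| ≤ 3 / 4) : 2 / 3 * |u| ≤ |Real.sin (Real.pi * u)| := by
  have key : ∀ x : ℝ, 0 ≤ x → x ≤ 3 / 4 → 2 / 3 * x ≤ Real.sin (Real.pi * x) := by
    intro x h0 h1
    have hp := Real.pi_pos
    by_cases hx : x ≤ 1 / 2
    · have h6 := Real.mul_le_sin (x := Real.pi * x) (by positivity) (by nlinarith)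
      have h7 : 2 / Real.pi * (Real.pi * x) = 2 * x := by field_simp
      rw [h7] at h6
      linarith
    · push Not at hx
      have h6 := Real.mul_le_sin (x := Real.pi * (1 - x)) (by nlinarith) (by nlinarith)
      have h7 : 2 / Real.pi * (Real.pi * (1 - x)) = 2 * (1 - x) := by field_simp
      rw [h7] at h6
      have h8 : Real.pi * (1 - x) = Real.pi - Real.pi * x := by ring
      rw [h8, Real.sin_pi_sub] at h6
      linarith
  rcases le_total 0 u with h | h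
  · rw [abs_of_nonneg h] at hu ⊢
    exact (key u h hu).trans (le_abs_self _)
  · rw [abs_of_nonpos h] at hu ⊢
    have := key (-u) (by linarith) hu
    rw [show Real.pi * -u = -(Real.pi * u) by ring, Real.sin_neg] at this
    exact this.trans (neg_le_abs _)

lemma Phi_upper (j : ℕ) (t : ℤ) (s : ℝ) (ht0 : 0 ≤ t) (ht : t < 2 ^ (j + 1))
    (hs0 : -(1 / 4) ≤ s) (hs : s < 3 / 4) :
    Phi j t s ≤ ((160 : ℝ≥0) : ℝ) / (1 + |(⌊(2 : ℝ) ^ (j + 2) * s⌋ - t : ℝ)|) ^ 2 := by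
  have hpos : (0 : ℝ) < 2 ^ (j + 2) := by positivity
  have hn : (0 : ℝ) < 2 ^ j := by positivity
  set u : ℝ := s - t / 2 ^ (j + 2) with hu
  have hu1 : (2 : ℝ) ^ (j + 2) * u = 2 ^ (j + 2) * s - t := by
    rw [hu]; field_simp
  have ht' : (t : ℝ) / 2 ^ (j + 2) < 1 / 2 := by
    rw [div_lt_iff₀ hpos]
    have h1 : (t : ℝ) < 2 ^ (j + 1) := by exact_mod_cast ht
    have h2 : (1 : ℝ) / 2 * 2 ^ (j + 2) = 2 ^ (j + 1) := by
      rw [pow_succ (2 : ℝ) (j + 1)]; ring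
    rw [h2]; exact h1
  have ht'' : 0 ≤ (t : ℝ) / 2 ^ (j + 2) := by
    have : (0 : ℝ) ≤ t := by exact_mod_cast ht0
    positivity
  have habs : |u| ≤ 3 / 4 := by
    rw [abs_le, hu]
    constructor <;> linarith
  set N : ℝ := |(⌊(2 : ℝ) ^ (j + 2) * s⌋ - t : ℝ)| with hN
  have hN0 : 0 ≤ N := abs_nonneg _
  have hN1 : N ≤ 4 * (2 ^ j * |u|) + 1 := by
    have h1 := Int.floor_le ((2 : ℝ) ^ (j + 2) * s)
    have h2 := Int.lt_floor_add_one ((2 : ℝ) ^ (j + 2) * s)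
    have h3 : |(2 : ℝ) ^ (j + 2) * u| = 4 * (2 ^ j * |u|) := by
      rw [abs_mul, abs_of_pos hpos, pow_add]; ring
    rw [← h3, hu1, hN, abs_le]
    constructor
    · have := neg_abs_le ((2 : ℝ) ^ (j + 2) * s - t)
      linarith
    · have := le_abs_self ((2 : ℝ) ^ (j + 2) * s - t)
      linarith
  have hP1 : ‖P (2 ^ j) u‖ ≤ 2 ^ j := by
    have := P_le (2 ^ j) u
    push_cast at this
    exact this
  have hP2 : ‖P (2 ^ j) u‖ * (2 / 3 * |u|) ≤ 1 := by
    have h1 := P_mul (2 ^ j) u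
    have h2 : ‖P (2 ^ j) u‖ * (2 / 3 * |u|) ≤ ‖P (2 ^ j) u‖ * |Real.sin (Real.pi * u)| :=
      mul_le_mul_of_nonneg_left (sin_lower u habs) (norm_nonneg _)
    rw [h1] at h2
    exact h2.trans (Real.abs_sin_le_one _)
  have hP3 : (1 + N) * ‖P (2 ^ j) u‖ ≤ 8 * 2 ^ j := by
    have h1 : (1 + N) * ‖P (2 ^ j) u‖ ≤ (4 * (2 ^ j * |u|) + 2) * ‖P (2 ^ j) u‖ :=
      mul_le_mul_of_nonneg_right (by linarith) (norm_nonneg _)
    have h2 : (4 * (2 ^ j * |u|) + 2) * ‖P (2 ^ j) u‖ =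
        6 * 2 ^ j * (‖P (2 ^ j) u‖ * (2 / 3 * |u|)) + 2 * ‖P (2 ^ j) u‖ := by ring
    have h3 : 6 * 2 ^ j * (‖P (2 ^ j) u‖ * (2 / 3 * |u|)) ≤ 6 * 2 ^ j * 1 :=
      mul_le_mul_of_nonneg_left hP2 (by positivity)
    linarith
  rw [le_div_iff₀ (by positivity)]
  unfold Phi
  rw [← hu]
  have h4 : ((1 + N) * ‖P (2 ^ j) u‖) ^ 2 ≤ (8 * 2 ^ j) ^ 2 :=
    pow_le_pow_left₀ (by positivity) hP3 2
  have h5 : Real.pi ^ 2 / 4 / ((2 : ℝ) ^ j) ^ 2 * ‖P (2 ^ j) u‖ ^ 2 * (1 + N) ^ 2 =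
      Real.pi ^ 2 / 4 / ((2 : ℝ) ^ j) ^ 2 * ((1 + N) * ‖P (2 ^ j) u‖) ^ 2 := by ring
  rw [h5]
  refine (mul_le_mul_of_nonneg_left h4 (by positivity)).trans ?_
  have h6 : Real.pi ^ 2 / 4 / ((2 : ℝ) ^ j) ^ 2 * (8 * 2 ^ j) ^ 2 = 16 * Real.pi ^ 2 := by
    field_simp
    norm_num
  rw [h6]
  have h7 : Real.pi < 3.15 := Real.pi_lt_d2
  have h8 := Real.pi_pos
  push_cast
  nlinarith

lemma integral_ee (k : ℤ) (hk : k ≠ 0) : ∫ s in (-(1 / 4) : ℝ)..3 / 4, ee (k * s) = 0 := by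
  have hc : (2 * Real.pi * Complex.I * (k : ℂ)) ≠ 0 := by
    have h1 : (k : ℂ) ≠ 0 := by exact_mod_cast hk
    have h2 : (Real.pi : ℂ) ≠ 0 := by exact_mod_cast Real.pi_ne_zero
    simp [h1, h2]
  have h1 : ∀ s : ℝ, ee (k * s) = Complex.exp ((2 * Real.pi * Complex.I * (k : ℂ)) * s) := by
    intro s
    simp only [ee]
    congr 1
    push_cast
    ring
  simp only [h1]
  rw [integral_exp_mul_complex hc]
  have h2 : Complex.exp (2 * Real.pi * Complex.I * (k : ℂ) * ((3 / 4 : ℝ) : ℂ)) =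
      Complex.exp (2 * Real.pi * Complex.I * (k : ℂ) * ((-(1 / 4) : ℝ) : ℂ)) := by
    rw [Complex.exp_eq_exp_iff_exists_int]
    refine ⟨k, ?_⟩
    push_cast
    ring
  rw [h2, sub_self, zero_div]

/-- orthogonal families -/
lemma orth_sum (D : Finset ℕ) (F : ℕ → ℝ → ℂ) (hF : ∀ J, Continuous (F J))
    (h : ∀ J ∈ D, ∀ J' ∈ D, J ≠ J' → ∫ s in (-(1 / 4) : ℝ)..3 / 4, F J s * conj (F J' s) = 0) :
    ∫ s in (-(1 / 4) : ℝ)..3 / 4, ‖∑ J ∈ D, F J s‖ ^ 2 =
      ∑ J ∈ D, ∫ s in (-(1 / 4) : ℝ)..3 / 4, ‖F J s‖ ^ 2 := by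
  have hn : ∀ z : ℂ, ((‖z‖ ^ 2 : ℝ) : ℂ) = z * conj z := by
    intro z
    rw [Complex.mul_conj, Complex.normSq_eq_norm_sq]
  have key : ((∫ s in (-(1 / 4) : ℝ)..3 / 4, ‖∑ J ∈ D, F J s‖ ^ 2 : ℝ) : ℂ) =
      ((∑ J ∈ D, ∫ s in (-(1 / 4) : ℝ)..3 / 4, ‖F J s‖ ^ 2 : ℝ) : ℂ) := by
    rw [← intervalIntegral.integral_ofReal]
    push_cast
    have h1 : ∀ s : ℝ, ((‖∑ J ∈ D, F J s‖ : ℝ) : ℂ) ^ 2 =
        ∑ J ∈ D, ∑ J' ∈ D, F J s * conj (F J' s) := by
      intro s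
      have := hn (∑ J ∈ D, F J s)
      push_cast at this
      rw [this, map_sum, Finset.sum_mul_sum]
    simp only [h1]
    have hint : ∀ J J', IntervalIntegrable (fun s => F J s * conj (F J' s)) volume
        (-(1 / 4) : ℝ) (3 / 4) := by
      intro J J'
      apply Continuous.intervalIntegrable
      exact (hF J).mul (Complex.continuous_conj.comp (hF J'))
    rw [intervalIntegral.integral_finsetSum]
    · apply Finset.sum_congr rfl
      intro J hJ
      rw [intervalIntegral.integral_finsetSum (fun J' _ => hint J J')]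
      rw [Finset.sum_eq_single J]
      · rw [← intervalIntegral.integral_ofReal]
        apply intervalIntegral.integral_congr
        intro s _
        have := hn (F J s)
        push_cast at this
        simp only
        push_cast
        rw [this]
      · intro J' hJ' hne
        exact h J hJ J' hJ' (Ne.symm hne)
      · intro hh; exact absurd hJ hh
    · intro J _
      apply Continuous.intervalIntegrable
      exact continuous_finsetSum _ (fun J' _ => (hF J).mul (Complex.continuous_conj.comp (hF J')))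
  exact_mod_cast key

lemma continuous_hJ (j : ℕ) (g : ℝ → ℂ) (J : ℕ) : Continuous (hJ j g J) := by
  unfold hJ
  exact continuous_finsetSum _ (fun l _ => continuous_const.mul (continuous_ee.comp (by fun_prop)))

/-- the product of the kernel and a block -/
noncomputable def PH (j : ℕ) (t : ℤ) (g : ℝ → ℂ) (J : ℕ) (s : ℝ) : ℂ :=
  P (2 ^ j) (s - t / 2 ^ (j + 2)) * hJ j g J s

lemma continuous_PH (j : ℕ) (t : ℤ) (g : ℝ → ℂ) (J : ℕ) : Continuous (PH j t g J) :=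
  ((continuous_P _).comp (by fun_prop)).mul (continuous_hJ j g J)

/-- `PH` is a trigonometric polynomial -/
lemma PH_eq (j : ℕ) (t : ℤ) (g : ℝ → ℂ) (J : ℕ) : ∃ c : ℕ × ℕ → ℂ, ∀ s, PH j t g J s =
    ∑ p ∈ Finset.range (2 ^ j) ×ˢ Finset.Ico (J * 2 ^ j) ((J + 1) * 2 ^ j),
      c p * ee (((p.1 + p.2 : ℕ) : ℝ) * s) := by
  refine ⟨fun p => ee (-(p.1 * (t / 2 ^ (j + 2)))) * (∫ s', g s' * ee (-(p.2 * s'))), fun s => ?_⟩
  unfold PH P hJ
  rw [Finset.sum_mul_sum, ← Finset.sum_product']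
  apply Finset.sum_congr rfl
  rintro ⟨a, l⟩ _
  dsimp only
  have h1 : ee (a * (s - t / 2 ^ (j + 2))) = ee (-(a * (t / 2 ^ (j + 2)))) * ee (a * s) := by
    rw [← ee_add]; congr 1; ring
  have h2 : ee (((a + l : ℕ) : ℝ) * s) = ee (a * s) * ee (l * s) := by
    rw [← ee_add]; congr 1; push_cast; ring
  rw [h1, h2]
  ring

lemma PH_orth (j : ℕ) (t : ℤ) (g g' : ℝ → ℂ) (J J' : ℕ) (h : J + 2 ≤ J' ∨ J' + 2 ≤ J) :
    ∫ s in (-(1 / 4) : ℝ)..3 / 4, PH j t g J s * conj (PH j t g' J' s) = 0 := by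
  obtain ⟨c, hc⟩ := PH_eq j t g J
  obtain ⟨c', hc'⟩ := PH_eq j t g' J'
  have h1 : ∀ s, PH j t g J s * conj (PH j t g' J' s) =
      ∑ p ∈ Finset.range (2 ^ j) ×ˢ Finset.Ico (J * 2 ^ j) ((J + 1) * 2 ^ j),
      ∑ p' ∈ Finset.range (2 ^ j) ×ˢ Finset.Ico (J' * 2 ^ j) ((J' + 1) * 2 ^ j),
        (c p * conj (c' p')) *
          ee ((((p.1 + p.2 : ℕ) : ℤ) - ((p'.1 + p'.2 : ℕ) : ℤ) : ℤ) * s) := by
    intro s
    rw [hc, hc', map_sum, Finset.sum_mul_sum]
    apply Finset.sum_congr rfl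
    intro p _
    apply Finset.sum_congr rfl
    intro p' _
    rw [map_mul, ee_neg_conj]
    have h2 : ee ((((p.1 + p.2 : ℕ) : ℤ) - ((p'.1 + p'.2 : ℕ) : ℤ) : ℤ) * s) =
        ee (((p.1 + p.2 : ℕ) : ℝ) * s) * ee (-(((p'.1 + p'.2 : ℕ) : ℝ) * s)) := by
      rw [← ee_add]; congr 1; push_cast; ring
    rw [h2]
    ring
  simp only [h1]
  have hcont : ∀ (d : ℂ) (k : ℤ), Continuous (fun s : ℝ => d * ee (k * s)) := fun d k =>
    continuous_const.mul (continuous_ee.comp (by fun_prop))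
  rw [intervalIntegral.integral_finsetSum]
  · apply Finset.sum_eq_zero
    intro p hp
    rw [intervalIntegral.integral_finsetSum]
    · apply Finset.sum_eq_zero
      intro p' hp'
      rw [intervalIntegral.integral_const_mul, integral_ee, mul_zero]
      simp only [Finset.mem_product, Finset.mem_range, Finset.mem_Ico] at hp hp'
      obtain ⟨ha, hl1, hl2⟩ := hp
      obtain ⟨hb, hm1, hm2⟩ := hp'
      intro h0
      have h3 : p.1 + p.2 = p'.1 + p'.2 := by omega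
      rcases h with h | h
      · have h4 : (J + 2) * 2 ^ j ≤ J' * 2 ^ j := Nat.mul_le_mul_right _ h
        have h5 : (J + 2) * 2 ^ j = (J + 1) * 2 ^ j + 2 ^ j := by ring
        omega
      · have h4 : (J' + 2) * 2 ^ j ≤ J * 2 ^ j := Nat.mul_le_mul_right _ h
        have h5 : (J' + 2) * 2 ^ j = (J' + 1) * 2 ^ j + 2 ^ j := by ring
        omega
    · intro p' _
      exact (hcont _ _).intervalIntegrable _ _
  · intro p _
    apply Continuous.intervalIntegrable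
    exact continuous_finsetSum _ (fun p' _ => hcont _ _)

lemma parity_case (j : ℕ) (t : ℤ) (D : Finset ℕ) (g : ℕ → ℝ → ℂ)
    (hD : ∀ J ∈ D, ∀ J' ∈ D, J % 2 = J' % 2) :
    ∫ s in (-(1 / 4) : ℝ)..3 / 4, Phi j t s * ‖∑ J ∈ D, hJ j (g J) J s‖ ^ 2 =
      ∑ J ∈ D, ∫ s in (-(1 / 4) : ℝ)..3 / 4, Phi j t s * ‖hJ j (g J) J s‖ ^ 2 := by
  have h1 : ∀ (f : ℝ → ℂ) (s : ℝ), Phi j t s * ‖f s‖ ^ 2 = Real.pi ^ 2 / 4 / ((2 : ℝ) ^ j) ^ 2 *
      ‖P (2 ^ j) (s - t / 2 ^ (j + 2)) * f s‖ ^ 2 := by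
    intro f s
    unfold Phi
    rw [norm_mul]
    ring
  have h2 : ∀ s, Phi j t s * ‖∑ J ∈ D, hJ j (g J) J s‖ ^ 2 = Real.pi ^ 2 / 4 / ((2 : ℝ) ^ j) ^ 2 *
      ‖∑ J ∈ D, PH j t (g J) J s‖ ^ 2 := by
    intro s
    rw [h1 (fun s => ∑ J ∈ D, hJ j (g J) J s) s, Finset.mul_sum]
    rfl
  have h3 : ∀ J s, Phi j t s * ‖hJ j (g J) J s‖ ^ 2 = Real.pi ^ 2 / 4 / ((2 : ℝ) ^ j) ^ 2 *
      ‖PH j t (g J) J s‖ ^ 2 := by
    intro J s
    rw [h1 (hJ j (g J) J) s]
    rfl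
  simp only [h2, h3, intervalIntegral.integral_const_mul]
  rw [← Finset.mul_sum]
  congr 1
  apply orth_sum D (fun J => PH j t (g J) J) (fun J => continuous_PH j t (g J) J)
  intro J hJ' J' hJ'' hne
  apply PH_orth
  have := hD J hJ' J' hJ''
  omega

end Cell_

open Cell_

theorem pCell : tCell := by
  refine ⟨160, Phi, continuous_Phi, fun j t s => ?_, Phi_lower, Phi_upper, ?_⟩
  · unfold Phi; positivity
  · intro j t D g _
    classical
    let D0 := D.filter (fun J => J % 2 = 0)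
    let D1 := D.filter (fun J => ¬ J % 2 = 0)
    have hpar0 := parity_case j t D0 g (by
      intro J hJ J' hJ'
      rw [(Finset.mem_filter.mp hJ).2, (Finset.mem_filter.mp hJ').2])
    have hpar1 := parity_case j t D1 g (by
      intro J hJ J' hJ'
      have h1 := (Finset.mem_filter.mp hJ).2
      have h2 := (Finset.mem_filter.mp hJ').2
      omega)
    have hsplit : ∀ (f : ℕ → ℂ), ∑ J ∈ D, f J = ∑ J ∈ D0, f J + ∑ J ∈ D1, f J := fun f =>
      (Finset.sum_filter_add_sum_filter_not D _ f).symm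
    have hsplit' : ∀ (f : ℕ → ℝ), ∑ J ∈ D, f J = ∑ J ∈ D0, f J + ∑ J ∈ D1, f J := fun f =>
      (Finset.sum_filter_add_sum_filter_not D _ f).symm
    have hPhi0 : ∀ s, 0 ≤ Phi j t s := fun s => by unfold Phi; positivity
    have hcont : ∀ D' : Finset ℕ, Continuous
        (fun s => Phi j t s * ‖∑ J ∈ D', hJ j (g J) J s‖ ^ 2) := fun D' =>
      (continuous_Phi j t).mul
        ((continuous_finsetSum _ (fun J _ => continuous_hJ j (g J) J)).norm.pow 2)
    have hle : ∫ s in (-(1 / 4) : ℝ)..3 / 4, Phi j t s * ‖∑ J ∈ D, hJ j (g J) J s‖ ^ 2 ≤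
        ∫ s in (-(1 / 4) : ℝ)..3 / 4, (2 * (Phi j t s * ‖∑ J ∈ D0, hJ j (g J) J s‖ ^ 2) +
          2 * (Phi j t s * ‖∑ J ∈ D1, hJ j (g J) J s‖ ^ 2)) := by
      apply intervalIntegral.integral_mono_on (by norm_num)
      · exact (hcont D).intervalIntegrable _ _
      · exact ((continuous_const.mul (hcont D0)).add
          (continuous_const.mul (hcont D1))).intervalIntegrable _ _
      · intro s _
        rw [hsplit]
        have h1 := norm_add_le (∑ J ∈ D0, hJ j (g J) J s) (∑ J ∈ D1, hJ j (g J) J s)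
        set a := ‖∑ J ∈ D0, hJ j (g J) J s‖
        set b := ‖∑ J ∈ D1, hJ j (g J) J s‖
        set w := ‖∑ J ∈ D0, hJ j (g J) J s + ∑ J ∈ D1, hJ j (g J) J s‖ with hw
        have hw0 : 0 ≤ w := norm_nonneg _
        have h2 : w ^ 2 ≤ 2 * a ^ 2 + 2 * b ^ 2 := by
          have : w ^ 2 ≤ (a + b) ^ 2 := pow_le_pow_left₀ hw0 h1 2
          nlinarith [sq_nonneg (a - b)]
        have := mul_le_mul_of_nonneg_left h2 (hPhi0 s)
        linarith
    rw [intervalIntegral.integral_add, intervalIntegral.integral_const_mul,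
      intervalIntegral.integral_const_mul, hpar0, hpar1] at hle
    · rw [hsplit']
      have hnn : ∀ D' : Finset ℕ, 0 ≤ ∑ J ∈ D', ∫ s in (-(1 / 4) : ℝ)..3 / 4,
          Phi j t s * ‖hJ j (g J) J s‖ ^ 2 := fun D' =>
        Finset.sum_nonneg (fun J _ => intervalIntegral.integral_nonneg (by norm_num)
          (fun s _ => mul_nonneg (hPhi0 s) (by positivity)))
      have h0 := hnn D0
      have h1 := hnn D1
      linarith
    · exact (continuous_const.mul (hcont D0)).intervalIntegrable _ _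
    · exact (continuous_const.mul (hcont D1)).intervalIntegrable _ _

end Pool.Agent.KSP
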