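import Pool.Agent.KSP.Targets

set_option autoImplicit false

namespace Pool.Agent.KSP

open MeasureTheory Set
open scoped ENNReal NNReal ComplexConjugate

namespace CoV_

/-- second coordinates of the points of the arc -/
def Yp (k : ℕ) (ρ : ℝ) (p : ℤ) : Set ℝ :=
  {y | |y| ≤ 4 / 5 * ρ ∧ ((p : ℝ) - 1 / 4) / 2 ^ k ≤ y ∧ y ≤ ((p : ℝ) + 5 / 4) / 2 ^ k}

/-- minus the derivative of `ga` -/
noncomputable def uu (ρ y : ℝ) : ℝ := y / √(ρ ^ 2 - y ^ 2)

lemma pos_of {ρ y : ℝ} (h1 : 1 ≤ ρ) (hy : |y| ≤ 4 / 5 * ρ) : 0 < ρ ^ 2 - y ^ 2 := by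
  have h := abs_le.1 hy
  nlinarith [h.1, h.2]

lemma sqrt_le_two {ρ y : ℝ} (h1 : 1 ≤ ρ) (h2 : ρ ≤ 2) : √(ρ ^ 2 - y ^ 2) ≤ 2 := by
  rw [Real.sqrt_le_left (by norm_num)]
  nlinarith [sq_nonneg y]

lemma uu_sub {ρ y z : ℝ} (h1 : 1 ≤ ρ) (h2 : ρ ≤ 2) (hy : |y| ≤ 4 / 5 * ρ)
    (hz : |z| ≤ 4 / 5 * ρ) (hzy : z ≤ y) : (y - z) / 2 ≤ uu ρ y - uu ρ z := by
  have hA := Real.sqrt_pos.2 (pos_of h1 hy)
  have hB := Real.sqrt_pos.2 (pos_of h1 hz)
  have hA2 := sqrt_le_two (y := y) h1 h2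
  have hB2 := sqrt_le_two (y := z) h1 h2
  unfold uu
  rcases le_or_gt 0 z with hz0 | hz0
  · have hAB : √(ρ ^ 2 - y ^ 2) ≤ √(ρ ^ 2 - z ^ 2) := by
      apply Real.sqrt_le_sqrt
      nlinarith
    have e1 : y / √(ρ ^ 2 - z ^ 2) ≤ y / √(ρ ^ 2 - y ^ 2) :=
      div_le_div_of_nonneg_left (hz0.trans hzy) hA hAB
    have e2 : (y - z) / 2 ≤ (y - z) / √(ρ ^ 2 - z ^ 2) :=
      div_le_div_of_nonneg_left (by linarith) hB hB2
    have e3 : (y - z) / √(ρ ^ 2 - z ^ 2) = y / √(ρ ^ 2 - z ^ 2) - z / √(ρ ^ 2 - z ^ 2) :=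
      sub_div _ _ _
    linarith
  · rcases le_or_gt 0 y with hy0 | hy0
    · have e1 : y / 2 ≤ y / √(ρ ^ 2 - y ^ 2) := div_le_div_of_nonneg_left hy0 hA hA2
      have e2 : (-z) / 2 ≤ (-z) / √(ρ ^ 2 - z ^ 2) :=
        div_le_div_of_nonneg_left (by linarith) hB hB2
      rw [neg_div, neg_div] at e2
      linarith
    · have hAB : √(ρ ^ 2 - z ^ 2) ≤ √(ρ ^ 2 - y ^ 2) := by
        apply Real.sqrt_le_sqrt
        nlinarith
      have e1 : (-z) / √(ρ ^ 2 - y ^ 2) ≤ (-z) / √(ρ ^ 2 - z ^ 2) :=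
        div_le_div_of_nonneg_left (by linarith) hB hAB
      have e2 : (y - z) / 2 ≤ (y - z) / √(ρ ^ 2 - y ^ 2) :=
        div_le_div_of_nonneg_left (by linarith) hA hA2
      have e3 : (y - z) / √(ρ ^ 2 - y ^ 2) = y / √(ρ ^ 2 - y ^ 2) + (-z) / √(ρ ^ 2 - y ^ 2) := by
        rw [← add_div]; ring_nf
      rw [neg_div √(ρ ^ 2 - z ^ 2)] at e1
      linarith

lemma hasDeriv_ga {ρ y : ℝ} (h1 : 1 ≤ ρ) (hy : |y| ≤ 4 / 5 * ρ) :
    HasDerivAt (ga ρ) (-uu ρ y) y := by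
  have h0 := pos_of h1 hy
  have h : HasDerivAt (fun y : ℝ => ρ ^ 2 - y ^ 2) (-(2 * y)) y := by
    have := (hasDerivAt_pow 2 y).const_sub (ρ ^ 2)
    simpa using this
  have h' := h.sqrt h0.ne'
  have e : -(2 * y) / (2 * √(ρ ^ 2 - y ^ 2)) = -uu ρ y := by
    unfold uu
    have := (Real.sqrt_pos.2 h0).ne'
    field_simp
  rw [e] at h'
  exact h'

lemma continuous_ga (ρ : ℝ) : Continuous (ga ρ) := by
  unfold ga
  fun_prop

/-- difference of two values -/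
noncomputable def psi (ρ d y : ℝ) : ℝ := ga ρ y - ga ρ (y - d)

lemma hasDeriv_psi {ρ d y : ℝ} (h1 : 1 ≤ ρ) (hy : |y| ≤ 4 / 5 * ρ) (hyd : |y - d| ≤ 4 / 5 * ρ) :
    HasDerivAt (psi ρ d) (uu ρ (y - d) - uu ρ y) y := by
  have h := hasDeriv_ga h1 hy
  have h' := (hasDeriv_ga h1 hyd).comp_sub_const y d
  have := h.sub h'
  have e : -uu ρ y - -uu ρ (y - d) = uu ρ (y - d) - uu ρ y := by ring
  rw [e] at this
  exact this

lemma abs_deriv {ρ d y : ℝ} (h1 : 1 ≤ ρ) (h2 : ρ ≤ 2) (hy : |y| ≤ 4 / 5 * ρ)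
    (hyd : |y - d| ≤ 4 / 5 * ρ) : |d| / 2 ≤ |uu ρ (y - d) - uu ρ y| := by
  rcases le_or_gt 0 d with hd | hd
  · have := uu_sub h1 h2 hy hyd (by linarith)
    rw [abs_of_nonneg hd, abs_sub_comm]
    refine le_trans ?_ (le_abs_self _)
    linarith
  · have := uu_sub h1 h2 hyd hy (by linarith)
    rw [abs_of_neg hd]
    refine le_trans ?_ (le_abs_self _)
    linarith

/-- the set of the points `y` with `y` in the first and `y - d` in the second strip -/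
def sd (k : ℕ) (ρ : ℝ) (p p' : ℤ) (d : ℝ) : Set ℝ := {y | y ∈ Yp k ρ p ∧ y - d ∈ Yp k ρ p'}

lemma measurableSet_Yp (k : ℕ) (ρ : ℝ) (p : ℤ) : MeasurableSet (Yp k ρ p) := by
  have : Yp k ρ p = Icc (-(4 / 5 * ρ)) (4 / 5 * ρ) ∩
      Icc (((p : ℝ) - 1 / 4) / 2 ^ k) (((p : ℝ) + 5 / 4) / 2 ^ k) := by
    ext y
    simp only [Yp, abs_le, mem_inter_iff, mem_Icc]
    rfl
  rw [this]
  exact measurableSet_Icc.inter measurableSet_Icc

lemma measurableSet_sd (k : ℕ) (ρ : ℝ) (p p' : ℤ) (d : ℝ) : MeasurableSet (sd k ρ p p' d) :=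
  (measurableSet_Yp k ρ p).inter ((measurableSet_Yp k ρ p').preimage (by fun_prop))

lemma abs_d {k : ℕ} {ρ : ℝ} {p p' : ℤ} (hp : 2 ≤ |p - p'|) {d y : ℝ} (hy : y ∈ sd k ρ p p' d) :
    1 / 2 ^ k / 2 ≤ |d| := by
  obtain ⟨⟨_, h1, h2⟩, _, h3, h4⟩ := hy
  have hk : (0 : ℝ) < 2 ^ k := by positivity
  rw [div_le_iff₀ hk] at h1 h3
  rw [le_div_iff₀ hk] at h2 h4
  have key : 1 / 2 ≤ |d| * 2 ^ k := by
    rcases le_abs.1 hp with h | h
    · have h' : (2 : ℝ) ≤ p - p' := by exact_mod_cast h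
      have := le_abs_self d
      nlinarith
    · have h' : (2 : ℝ) ≤ p' - p := by
        have : (2 : ℤ) ≤ p' - p := by linarith
        exact_mod_cast this
      have := neg_abs_le d
      nlinarith
  rw [div_div, div_le_iff₀ (by positivity)]
  nlinarith

lemma injOn_psi {k : ℕ} {ρ : ℝ} {p p' : ℤ} (h1 : 1 ≤ ρ) (h2 : ρ ≤ 2) (hp : 2 ≤ |p - p'|)
    (d : ℝ) : InjOn (psi ρ d) (sd k ρ p p' d) := by
  have key : ∀ y₁ ∈ sd k ρ p p' d, ∀ y₂ ∈ sd k ρ p p' d, y₁ < y₂ → psi ρ d y₁ ≠ psi ρ d y₂ := by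
    intro y₁ hy₁ y₂ hy₂ hlt he
    have hmid : ∀ ξ ∈ Icc y₁ y₂, |ξ| ≤ 4 / 5 * ρ ∧ |ξ - d| ≤ 4 / 5 * ρ := by
      intro ξ hξ
      have e1 := abs_le.1 hy₁.1.1
      have e2 := abs_le.1 hy₂.1.1
      have e3 := abs_le.1 hy₁.2.1
      have e4 := abs_le.1 hy₂.2.1
      exact ⟨abs_le.2 ⟨by linarith [hξ.1], by linarith [hξ.2]⟩,
        abs_le.2 ⟨by linarith [hξ.1], by linarith [hξ.2]⟩⟩
    have hder : ∀ ξ ∈ Icc y₁ y₂, HasDerivAt (psi ρ d) (uu ρ (ξ - d) - uu ρ ξ) ξ := by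
      intro ξ hξ
      exact hasDeriv_psi h1 (hmid ξ hξ).1 (hmid ξ hξ).2
    obtain ⟨ξ, hξ, h0⟩ := exists_hasDerivAt_eq_zero hlt
      (fun ξ hξ => (hder ξ hξ).continuousAt.continuousWithinAt) he
      (fun ξ hξ => hder ξ ⟨hξ.1.le, hξ.2.le⟩)
    have h3 := abs_deriv h1 h2 (hmid ξ ⟨hξ.1.le, hξ.2.le⟩).1 (hmid ξ ⟨hξ.1.le, hξ.2.le⟩).2
    have h4 := abs_d hp hy₁
    rw [h0, abs_zero] at h3
    have : (0 : ℝ) < 1 / 2 ^ k / 2 := by positivity
    linarith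
  intro y₁ hy₁ y₂ hy₂ he
  rcases lt_trichotomy y₁ y₂ with h | h | h
  · exact absurd he (key _ hy₁ _ hy₂ h)
  · exact h
  · exact absurd he.symm (key _ hy₂ _ hy₁ h)

lemma one_dim {k : ℕ} {ρ : ℝ} {p p' : ℤ} (h1 : 1 ≤ ρ) (h2 : ρ ≤ 2) (hp : 2 ≤ |p - p'|)
    (d : ℝ) (G : ℝ → ℝ≥0∞) :
    ∫⁻ y in sd k ρ p p' d, G (psi ρ d y) ≤ ENNReal.ofReal (4 * 2 ^ k) * ∫⁻ s, G s := by
  have hm := measurableSet_sd k ρ p p' d
  have hcv := lintegral_image_eq_lintegral_abs_deriv_mul hm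
    (f := psi ρ d) (f' := fun y => uu ρ (y - d) - uu ρ y)
    (fun y hy => (hasDeriv_psi h1 hy.1.1 hy.2.1).hasDerivWithinAt) (injOn_psi h1 h2 hp d) G
  calc ∫⁻ y in sd k ρ p p' d, G (psi ρ d y)
      ≤ ∫⁻ y in sd k ρ p p' d, ENNReal.ofReal (4 * 2 ^ k) *
          (ENNReal.ofReal |uu ρ (y - d) - uu ρ y| * G (psi ρ d y)) := by
        apply setLIntegral_mono' hm
        intro y hy
        rw [← mul_assoc, ← ENNReal.ofReal_mul (by positivity)]
        have h3 := abs_deriv h1 h2 hy.1.1 hy.2.1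
        have h4 := abs_d hp hy
        have h5 : 1 ≤ 4 * 2 ^ k * |uu ρ (y - d) - uu ρ y| := by
          have h6 : 1 / 2 ^ k / 2 / 2 ≤ |uu ρ (y - d) - uu ρ y| := by linarith
          have hk : (0 : ℝ) < 2 ^ k := by positivity
          calc (1 : ℝ) = 4 * 2 ^ k * (1 / 2 ^ k / 2 / 2) := by field_simp; norm_num
            _ ≤ _ := by gcongr
        calc G (psi ρ d y) = 1 * G (psi ρ d y) := (one_mul _).symm
          _ ≤ _ := by
            gcongr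
            rw [← ENNReal.ofReal_one]
            exact ENNReal.ofReal_le_ofReal h5
    _ = ENNReal.ofReal (4 * 2 ^ k) * ∫⁻ y in sd k ρ p p' d,
          (ENNReal.ofReal |uu ρ (y - d) - uu ρ y| * G (psi ρ d y)) := by
        rw [lintegral_const_mul' _ _ ENNReal.ofReal_ne_top]
    _ = ENNReal.ofReal (4 * 2 ^ k) * ∫⁻ s in psi ρ d '' sd k ρ p p' d, G s := by
        rw [hcv]
    _ ≤ _ := by
        gcongr
        exact Measure.restrict_le_self

lemma two_dim {k : ℕ} {ρ : ℝ} {p p' : ℤ} (h1 : 1 ≤ ρ) (h2 : ρ ≤ 2) (hp : 2 ≤ |p - p'|)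
    (F : ℝ × ℝ → ℝ≥0∞) (hF : Measurable F) (b : ℝ) :
    ∫⁻ y in Yp k ρ p, ∫⁻ y' in Yp k ρ p', F (ga ρ y - ga ρ y' + b, y - y') ≤
      ENNReal.ofReal (4 * 2 ^ k) * ∫⁻ ζ, F ζ := by
  have hga := (continuous_ga ρ).measurable
  set H : ℝ → ℝ → ℝ≥0∞ := fun y y' =>
    (Yp k ρ p).indicator (fun _ => (1 : ℝ≥0∞)) y * ((Yp k ρ p').indicator (fun _ => 1) y' *
      F (ga ρ y - ga ρ y' + b, y - y')) with hH
  have hmH : Measurable (Function.uncurry H) := by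
    have e1 : Measurable ((Yp k ρ p).indicator (fun _ => (1 : ℝ≥0∞))) :=
      measurable_const.indicator (measurableSet_Yp k ρ p)
    have e2 : Measurable ((Yp k ρ p').indicator (fun _ => (1 : ℝ≥0∞))) :=
      measurable_const.indicator (measurableSet_Yp k ρ p')
    have e3 : Measurable fun z : ℝ × ℝ => F (ga ρ z.1 - ga ρ z.2 + b, z.1 - z.2) :=
      hF.comp (by fun_prop)
    exact (e1.comp measurable_fst).mul ((e2.comp measurable_snd).mul e3)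
  have hL : ∫⁻ y in Yp k ρ p, ∫⁻ y' in Yp k ρ p', F (ga ρ y - ga ρ y' + b, y - y') =
      ∫⁻ y, ∫⁻ y', H y y' := by
    rw [← lintegral_indicator (measurableSet_Yp k ρ p)]
    refine lintegral_congr fun y => ?_
    rw [hH]
    by_cases hy : y ∈ Yp k ρ p
    · simp only [indicator_of_mem hy, one_mul]
      rw [← lintegral_indicator (measurableSet_Yp k ρ p')]
      refine lintegral_congr fun y' => ?_
      by_cases hy' : y' ∈ Yp k ρ p'
      · simp only [indicator_of_mem hy', one_mul]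
      · simp only [indicator_of_notMem hy', zero_mul]
    · simp only [indicator_of_notMem hy, zero_mul, lintegral_zero]
  have hS : ∫⁻ y, ∫⁻ y', H y y' = ∫⁻ y, ∫⁻ d, H y (y - d) := by
    refine lintegral_congr fun y => ?_
    exact (lintegral_sub_left_eq_self (fun y' => H y y') y).symm
  have hW : ∫⁻ y, ∫⁻ d, H y (y - d) = ∫⁻ d, ∫⁻ y, H y (y - d) := by
    refine lintegral_lintegral_swap ?_
    refine Measurable.aemeasurable ?_
    exact hmH.comp (by fun_prop : Measurable fun z : ℝ × ℝ => (z.1, z.1 - z.2))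
  have hB : ∀ d, ∫⁻ y, H y (y - d) ≤ ENNReal.ofReal (4 * 2 ^ k) * ∫⁻ s, F (s, d) := by
    intro d
    have e1 : ∫⁻ y, H y (y - d) = ∫⁻ y in sd k ρ p p' d, F (psi ρ d y + b, d) := by
      rw [← lintegral_indicator (measurableSet_sd k ρ p p' d)]
      refine lintegral_congr fun y => ?_
      rw [hH]
      by_cases hy : y ∈ Yp k ρ p
      · by_cases hy' : y - d ∈ Yp k ρ p'
        · have : y ∈ sd k ρ p p' d := ⟨hy, hy'⟩
          simp only [indicator_of_mem hy, indicator_of_mem hy', indicator_of_mem this, one_mul,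
            psi, sub_sub_cancel]
        · have : y ∉ sd k ρ p p' d := fun h => hy' h.2
          simp only [indicator_of_notMem hy', indicator_of_notMem this, zero_mul, mul_zero]
      · have : y ∉ sd k ρ p p' d := fun h => hy h.1
        simp only [indicator_of_notMem hy, indicator_of_notMem this, zero_mul]
    rw [e1]
    refine (one_dim h1 h2 hp d (fun s => F (s + b, d))).trans (le_of_eq ?_)
    rw [lintegral_add_right_eq_self (fun s => F (s, d)) b]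
  rw [hL, hS, hW]
  calc ∫⁻ d, ∫⁻ y, H y (y - d) ≤ ∫⁻ d, ENNReal.ofReal (4 * 2 ^ k) * ∫⁻ s, F (s, d) :=
        lintegral_mono hB
    _ = ENNReal.ofReal (4 * 2 ^ k) * ∫⁻ d, ∫⁻ s, F (s, d) :=
        lintegral_const_mul' _ _ ENNReal.ofReal_ne_top
    _ = _ := by
        rw [Measure.volume_eq_prod, lintegral_prod_symm' _ hF]

lemma measurableSet_arc (j k : ℕ) (ρ : ℝ) (p : ℤ) : MeasurableSet (arc j k ρ p) := by
  have hga := (continuous_ga ρ).measurable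
  have : arc j k ρ p = (fun ζ : ℝ × ℝ => ζ.2) ⁻¹' Yp k ρ p ∩
      (fun ζ : ℝ × ℝ => |ζ.1 - ga ρ ζ.2|) ⁻¹' Iic (3 / 2 ^ j) := by
    ext ζ
    constructor
    · rintro ⟨h1, h2, h3, h4⟩
      exact ⟨⟨h1, h2, h3⟩, h4⟩
    · rintro ⟨⟨h1, h2, h3⟩, h4⟩
      exact ⟨h1, h2, h3, h4⟩
  rw [this]
  refine ((measurableSet_Yp k ρ p).preimage measurable_snd).inter (measurableSet_Iic.preimage ?_)
  fun_prop

lemma arc_int (j k : ℕ) (ρ : ℝ) (p : ℤ) (G : ℝ × ℝ → ℝ≥0∞) (hG : Measurable G) :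
    ∫⁻ ζ in arc j k ρ p, G ζ = ∫⁻ y in Yp k ρ p, ∫⁻ a in Icc (-(3 / 2 ^ j) : ℝ) (3 / 2 ^ j),
      G (a + ga ρ y, y) := by
  have hm := measurableSet_arc j k ρ p
  rw [← lintegral_indicator hm, Measure.volume_eq_prod, lintegral_prod_symm' _ (hG.indicator hm),
    ← lintegral_indicator (measurableSet_Yp k ρ p)]
  refine lintegral_congr fun y => ?_
  rw [← lintegral_add_right_eq_self _ (ga ρ y)]
  by_cases hy : y ∈ Yp k ρ p
  · rw [indicator_of_mem hy, ← lintegral_indicator measurableSet_Icc]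
    refine lintegral_congr fun a => ?_
    by_cases ha : a ∈ Icc (-(3 / 2 ^ j) : ℝ) (3 / 2 ^ j)
    · have : (a + ga ρ y, y) ∈ arc j k ρ p := by
        refine ⟨hy.1, hy.2.1, hy.2.2, ?_⟩
        simp only [add_sub_cancel_right]
        exact abs_le.2 ha
      rw [indicator_of_mem this, indicator_of_mem ha]
    · have : (a + ga ρ y, y) ∉ arc j k ρ p := by
        rintro ⟨_, _, _, h⟩
        simp only [add_sub_cancel_right] at h
        exact ha (abs_le.1 h)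
      rw [indicator_of_notMem this, indicator_of_notMem ha]
  · rw [indicator_of_notMem hy]
    have : ∀ a, (arc j k ρ p).indicator G (a + ga ρ y, y) = 0 := by
      intro a
      apply indicator_of_notMem
      rintro ⟨h1, h2, h3, _⟩
      exact hy ⟨h1, h2, h3⟩
    simp only [this, lintegral_zero]

end CoV_

open CoV_ in
theorem pCoV : tCoV := by
  refine ⟨144, ?_⟩
  intro j k ρ p p' F _ _ h1 h2 hp hF
  have hga := (continuous_ga ρ).measurable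
  set I : Set ℝ := Icc (-(3 / 2 ^ j) : ℝ) (3 / 2 ^ j) with hI
  have hinner : ∀ ζ : ℝ × ℝ, ∫⁻ ζ' in arc j k ρ p', F (ζ - ζ') =
      ∫⁻ a' in I, ∫⁻ y' in Yp k ρ p', F (ζ - (a' + ga ρ y', y')) := by
    intro ζ
    rw [arc_int j k ρ p' (fun ζ' => F (ζ - ζ')) (hF.comp (by fun_prop))]
    refine lintegral_lintegral_swap ?_
    refine Measurable.aemeasurable ?_
    exact hF.comp (by fun_prop : Measurable fun z : ℝ × ℝ => ζ - (z.2 + ga ρ z.1, z.1))
  have hmeas : Measurable fun ζ : ℝ × ℝ => ∫⁻ a' in I, ∫⁻ y' in Yp k ρ p',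
      F (ζ - (a' + ga ρ y', y')) := by
    refine Measurable.lintegral_prod_right' (f := fun z : (ℝ × ℝ) × ℝ => ∫⁻ y' in Yp k ρ p',
      F (z.1 - (z.2 + ga ρ y', y'))) ?_
    refine Measurable.lintegral_prod_right' (f := fun z : ((ℝ × ℝ) × ℝ) × ℝ =>
      F (z.1.1 - (z.1.2 + ga ρ z.2, z.2))) ?_
    exact hF.comp (by fun_prop)
  simp_rw [hinner]
  rw [arc_int j k ρ p _ hmeas]
  -- swap `y` and `a`
  have hsw1 : ∫⁻ y in Yp k ρ p, ∫⁻ a in I, ∫⁻ a' in I, ∫⁻ y' in Yp k ρ p',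
        F ((a + ga ρ y, y) - (a' + ga ρ y', y')) =
      ∫⁻ a in I, ∫⁻ y in Yp k ρ p, ∫⁻ a' in I, ∫⁻ y' in Yp k ρ p',
        F ((a + ga ρ y, y) - (a' + ga ρ y', y')) := by
    refine lintegral_lintegral_swap ?_
    refine Measurable.aemeasurable ?_
    exact hmeas.comp (by fun_prop : Measurable fun z : ℝ × ℝ => (z.2 + ga ρ z.1, z.1))
  rw [hsw1]
  have hsw2 : ∀ a, ∫⁻ y in Yp k ρ p, ∫⁻ a' in I, ∫⁻ y' in Yp k ρ p',
        F ((a + ga ρ y, y) - (a' + ga ρ y', y')) =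
      ∫⁻ a' in I, ∫⁻ y in Yp k ρ p, ∫⁻ y' in Yp k ρ p',
        F ((a + ga ρ y, y) - (a' + ga ρ y', y')) := by
    intro a
    refine lintegral_lintegral_swap ?_
    refine Measurable.aemeasurable ?_
    refine Measurable.lintegral_prod_right' (f := fun z : (ℝ × ℝ) × ℝ =>
      F ((a + ga ρ z.1.1, z.1.1) - (z.1.2 + ga ρ z.2, z.2))) ?_
    exact hF.comp (by fun_prop)
  simp_rw [hsw2]
  have hb : ∀ a a', ∫⁻ y in Yp k ρ p, ∫⁻ y' in Yp k ρ p',
        F ((a + ga ρ y, y) - (a' + ga ρ y', y')) ≤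
      ENNReal.ofReal (4 * 2 ^ k) * ∫⁻ ζ, F ζ := by
    intro a a'
    refine le_trans (le_of_eq ?_) (two_dim h1 h2 hp F hF (a - a'))
    refine lintegral_congr fun y => lintegral_congr fun y' => ?_
    congr 1
    refine Prod.ext ?_ rfl
    change a + ga ρ y - (a' + ga ρ y') = ga ρ y - ga ρ y' + (a - a')
    ring
  have hvol : volume I = ENNReal.ofReal (6 / 2 ^ j) := by
    rw [hI, Real.volume_Icc]
    congr 1
    ring
  calc _ ≤ ∫⁻ a in I, ∫⁻ a' in I, ENNReal.ofReal (4 * 2 ^ k) * ∫⁻ ζ, F ζ :=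
        lintegral_mono fun a => lintegral_mono fun a' => hb a a'
    _ = ENNReal.ofReal (4 * 2 ^ k) * (∫⁻ ζ, F ζ) * volume I * volume I := by
        rw [setLIntegral_const, setLIntegral_const]
    _ = _ := by
        rw [hvol]
        have e1 : ((144 : ℝ≥0) : ℝ≥0∞) = ENNReal.ofReal 144 := by
          simp
        rw [e1, ← ENNReal.ofReal_mul (by norm_num)]
        have e2 : ENNReal.ofReal (144 * (2 ^ k / 4 ^ j)) = ENNReal.ofReal (4 * 2 ^ k) *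
            ENNReal.ofReal (6 / 2 ^ j) * ENNReal.ofReal (6 / 2 ^ j) := by
          rw [← ENNReal.ofReal_mul (by positivity), ← ENNReal.ofReal_mul (by positivity)]
          congr 1
          have : (4 : ℝ) ^ j = 2 ^ j * 2 ^ j := by
            rw [← mul_pow]; norm_num
          rw [this]
          field_simp
          norm_num
        rw [e2]
        ring

end Pool.Agent.KSP
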