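import Pool.Agent.KSP.Targets

set_option autoImplicit false

/-! KSP bound for disc partial sums (MP_ee701d_an): L4, density in parallelograms. -/

namespace Pool.Agent.KSP

open MeasureTheory Set
open scoped ENNReal NNReal ComplexConjugate

theorem pCover : tCover := by
  refine ⟨7, ?_⟩
  intro E a b t r A z hE ha hb ht hr hra hrb hA hd
  set n1 : ℕ := ⌈1 / (4 * a * r)⌉₊ with hn1
  set n2 : ℕ := ⌈1 / (4 * b * r)⌉₊ + 4 with hn2
  set y : ℕ → ℕ → ℝ × ℝ := fun i j => (z.1 / (4 * a) + i * r,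
    t * (z.1 / (4 * a) + i * r) + z.2 / (4 * b) - 2 * r + j * r) with hy
  have h4a : 0 < 4 * a := by linarith
  have h4b : 0 < 4 * b := by linarith
  have hcov : E ∩ {x : ℝ × ℝ | ⌊4 * a * x.1⌋ = z.1 ∧ ⌊4 * b * (x.2 - t * x.1)⌋ = z.2} ⊆
      ⋃ i ∈ Finset.range n1, ⋃ j ∈ Finset.range n2, E ∩ sq (y i j) r := by
    rintro x ⟨hxE, hx1, hx2⟩
    rw [Int.floor_eq_iff] at hx1 hx2
    obtain ⟨h1, h2⟩ := hx1
    obtain ⟨h3, h4⟩ := hx2
    have h1' : (z.1 : ℝ) / (4 * a) ≤ x.1 := by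
      rw [div_le_iff₀ h4a]; linarith
    have h2' : x.1 < (z.1 : ℝ) / (4 * a) + 1 / (4 * a) := by
      rw [← add_div, lt_div_iff₀ h4a]; linarith
    have h3' : (z.2 : ℝ) / (4 * b) ≤ x.2 - t * x.1 := by
      rw [div_le_iff₀ h4b]; linarith
    have h4' : x.2 - t * x.1 < (z.2 : ℝ) / (4 * b) + 1 / (4 * b) := by
      rw [← add_div, lt_div_iff₀ h4b]; linarith
    -- the column
    set u := x.1 - z.1 / (4 * a) with hu
    have hu0 : 0 ≤ u := by linarith
    set i := ⌊u / r⌋₊ with hi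
    have hi1 : (i : ℝ) * r ≤ u := by
      rw [← le_div_iff₀ hr]
      exact Nat.floor_le (by positivity)
    have hi2 : u < i * r + r := by
      have := Nat.lt_floor_add_one (u / r)
      rw [div_lt_iff₀ hr] at this
      linarith
    have hin : i < n1 := by
      rw [hn1, Nat.lt_ceil]
      have e : 1 / (4 * a * r) = (1 / (4 * a)) / r := by field_simp
      rw [e, lt_div_iff₀ hr]
      linarith
    -- the row
    have hs : |t * (u - i * r)| ≤ 2 * r := by
      rw [abs_mul]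
      have h5 : |u - i * r| ≤ r := abs_le.2 ⟨by linarith, by linarith⟩
      calc |t| * |u - i * r| ≤ 2 * r := mul_le_mul ht h5 (abs_nonneg _) (by norm_num)
        _ = 2 * r := rfl
    rw [abs_le] at hs
    set w := x.2 - (t * (z.1 / (4 * a) + i * r) + z.2 / (4 * b) - 2 * r) with hw
    have hx1e : x.1 = z.1 / (4 * a) + u := by rw [hu]; ring
    have hwe : w = (x.2 - t * x.1 - z.2 / (4 * b)) + t * (u - i * r) + 2 * r := by
      rw [hw, hx1e]; ring
    have hw0 : 0 ≤ w := by linarith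
    have hw1 : w < 1 / (4 * b) + 4 * r := by linarith
    set j := ⌊w / r⌋₊ with hj
    have hj1 : (j : ℝ) * r ≤ w := by
      rw [← le_div_iff₀ hr]
      exact Nat.floor_le (by positivity)
    have hj2 : w < j * r + r := by
      have := Nat.lt_floor_add_one (w / r)
      rw [div_lt_iff₀ hr] at this
      linarith
    have hjn : j < n2 := by
      have h6 : (j : ℝ) < n2 := by
        have h7 : 1 / (4 * b * r) ≤ (⌈1 / (4 * b * r)⌉₊ : ℝ) := Nat.le_ceil _
        have e : 1 / (4 * b * r) = (1 / (4 * b)) / r := by field_simp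
        rw [e, div_le_iff₀ hr] at h7
        rw [hn2]
        push_cast
        rw [← e] at h7
        have h8 : (j : ℝ) * r < ((⌈1 / (4 * b * r)⌉₊ : ℝ) + 4) * r := by nlinarith
        exact lt_of_mul_lt_mul_right h8 hr.le
      exact_mod_cast h6
    simp only [mem_iUnion, Finset.mem_range, exists_prop]
    refine ⟨i, hin, j, hjn, hxE, ⟨?_, ?_⟩, ?_, ?_⟩ <;> simp only [hy] <;> linarith
  have hb1 : volume (E ∩ {x : ℝ × ℝ | ⌊4 * a * x.1⌋ = z.1 ∧ ⌊4 * b * (x.2 - t * x.1)⌋ = z.2}) ≤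
      ∑ i ∈ Finset.range n1, ∑ j ∈ Finset.range n2, ENNReal.ofReal (r ^ 2 / A) := by
    refine (measure_mono hcov).trans ((measure_biUnion_finset_le _ _).trans ?_)
    refine Finset.sum_le_sum fun i _ => (measure_biUnion_finset_le _ _).trans ?_
    exact Finset.sum_le_sum fun j _ => hd _
  refine hb1.trans ?_
  simp only [Finset.sum_const, Finset.card_range, nsmul_eq_mul]
  have e1 : (n1 : ℝ≥0∞) * ((n2 : ℝ≥0∞) * ENNReal.ofReal (r ^ 2 / A)) =
      ENNReal.ofReal (n1 * (n2 * (r ^ 2 / A))) := by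
    rw [ENNReal.ofReal_mul (by positivity), ENNReal.ofReal_mul (by positivity),
      ENNReal.ofReal_natCast, ENNReal.ofReal_natCast]
  have e2 : ((7 : ℝ≥0) : ℝ≥0∞) * ENNReal.ofReal (1 / (a * b * A)) =
      ENNReal.ofReal (7 * (1 / (a * b * A))) := by
    rw [ENNReal.ofReal_mul (by norm_num)]
    norm_num
  rw [e1, e2]
  apply ENNReal.ofReal_le_ofReal
  have hn1b : (n1 : ℝ) ≤ 5 / 4 / (a * r) := by
    have h1 : (n1 : ℝ) < 1 / (4 * a * r) + 1 := Nat.ceil_lt_add_one (by positivity)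
    have h2 : 1 ≤ 1 / (a * r) := by
      rw [le_div_iff₀ ha] at hra
      rw [le_div_iff₀ (by positivity)]
      nlinarith
    have e : 1 / (4 * a * r) = 1 / 4 * (1 / (a * r)) := by field_simp
    have e' : 5 / 4 / (a * r) = 5 / 4 * (1 / (a * r)) := by field_simp
    rw [e] at h1
    rw [e']
    linarith
  have hn2b : (n2 : ℝ) ≤ 21 / 4 / (b * r) := by
    have h1 : (⌈1 / (4 * b * r)⌉₊ : ℝ) < 1 / (4 * b * r) + 1 := Nat.ceil_lt_add_one (by positivity)
    have h2 : 1 ≤ 1 / (b * r) := by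
      rw [le_div_iff₀ hb] at hrb
      rw [le_div_iff₀ (by positivity)]
      nlinarith
    have e : 1 / (4 * b * r) = 1 / 4 * (1 / (b * r)) := by field_simp
    have e' : 21 / 4 / (b * r) = 21 / 4 * (1 / (b * r)) := by field_simp
    rw [e'] 
    rw [hn2]
    push_cast
    rw [e] at h1
    rw [e]
    linarith
  calc (n1 : ℝ) * (n2 * (r ^ 2 / A)) ≤ 5 / 4 / (a * r) * (21 / 4 / (b * r) * (r ^ 2 / A)) := by
        gcongr
    _ = 105 / 16 * (1 / (a * b * A)) := by field_simp; norm_num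
    _ ≤ 7 * (1 / (a * b * A)) := by
        have : 0 ≤ 1 / (a * b * A) := by positivity
        linarith

end Pool.Agent.KSP
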