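import Pool.Agent.KSP.Targets

set_option autoImplicit false

/-! Job DR: the dual estimate on the line. -/

namespace Pool.Agent.KSP

open MeasureTheory Set
open scoped ENNReal NNReal ComplexConjugate

namespace DR_

lemma norm_ee (t : ℝ) : ‖ee t‖ = 1 := by
  unfold ee
  have h : (2 * Real.pi * Complex.I * (t : ℂ)) = ((2 * Real.pi * t : ℝ) : ℂ) * Complex.I := by
    push_cast
    ring
  rw [h, Complex.norm_exp_ofReal_mul_I]

lemma enorm_ee (t : ℝ) : ‖ee t‖ₑ = 1 := by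
  rw [← ofReal_norm, norm_ee, ENNReal.ofReal_one]

lemma ee_add (s t : ℝ) : ee (s + t) = ee s * ee t := by
  unfold ee
  rw [← Complex.exp_add]
  congr 1
  push_cast
  ring

lemma cont_ee : Continuous ee := by
  unfold ee
  fun_prop

lemma re_ee (t : ℝ) : (ee t).re = Real.cos (2 * Real.pi * t) := by
  unfold ee
  have h : (2 * Real.pi * Complex.I * (t : ℂ)) = ((2 * Real.pi * t : ℝ) : ℂ) * Complex.I := by
    push_cast
    ring
  rw [h, Complex.exp_ofReal_mul_I_re]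

lemma bd1_mul_ee {H : ℝ → ℂ} (h : Bd1 H) {φ : ℝ → ℝ} (hφ : Measurable φ) :
    Bd1 (fun s => H s * ee (φ s)) := by
  obtain ⟨h1, ⟨B, hB⟩, ⟨R, hR⟩⟩ := h
  refine ⟨h1.mul (cont_ee.measurable.comp hφ), ⟨B, fun s => ?_⟩, ⟨R, fun s hs => ?_⟩⟩
  · rw [norm_mul, norm_ee, mul_one]
    exact hB s
  · exact hR s (left_ne_zero_of_mul hs)

lemma bd1_ind {H : ℝ → ℂ} (h : Bd1 H) {A : Set ℝ} (hA : MeasurableSet A) :
    Bd1 (A.indicator H) := by
  obtain ⟨h1, ⟨B, hB⟩, ⟨R, hR⟩⟩ := h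
  refine ⟨h1.indicator hA, ⟨B, fun s => ?_⟩, ⟨R, fun s hs => ?_⟩⟩
  · exact (norm_indicator_le_norm_self H s).trans (hB s)
  · refine hR s fun h0 => hs ?_
    by_cases hsA : s ∈ A
    · rw [indicator_of_mem hsA, h0]
    · rw [indicator_of_notMem hsA]

lemma bd1_shift {H : ℝ → ℂ} (h : Bd1 H) (c : ℝ) : Bd1 (fun s => H (s + c)) := by
  obtain ⟨h1, ⟨B, hB⟩, ⟨R, hR⟩⟩ := h
  refine ⟨h1.comp (measurable_id.add_const c), ⟨B, fun s => hB _⟩, ⟨R + |c|, fun s hs => ?_⟩⟩
  have h2 := hR _ hs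
  have h3 : |s| ≤ |s + c| + |c| := by
    have h4 : s = (s + c) - c := by ring
    calc |s| = |(s + c) - c| := by rw [← h4]
      _ ≤ |s + c| + |c| := abs_sub _ _
  linarith

lemma bd1_int {H : ℝ → ℂ} (h : Bd1 H) : Integrable H := by
  obtain ⟨h1, ⟨B, hB⟩, ⟨R, hR⟩⟩ := h
  have h2 : IntegrableOn H (Icc (-R) R) :=
    Measure.integrableOn_of_bounded (M := B) (by simp) h1.aestronglyMeasurable
      (Filter.Eventually.of_forall hB)
  rw [← integrableOn_iff_integrable_of_support_subset (s := Icc (-R) R)]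
  · exact h2
  · intro s hs
    have := hR s hs
    rw [abs_le] at this
    exact this

/-- the window -/
noncomputable def k0 : ℝ → ℂ := (Ico (0 : ℝ) (1 / 4)).indicator fun _ => 1

lemma k0_ne {t : ℝ} (h : k0 t ≠ 0) : 0 ≤ t ∧ t < 1 / 4 := by
  by_contra h1
  exact h (indicator_of_notMem (fun h2 => h1 ⟨h2.1, h2.2⟩) _)

lemma bd1_k0 : Bd1 k0 := by
  refine ⟨measurable_const.indicator measurableSet_Ico, ⟨1, fun s => ?_⟩, ⟨1, fun s hs => ?_⟩⟩
  · refine (norm_indicator_le_norm_self _ s).trans ?_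
    simp
  · have := k0_ne hs
    rw [abs_le]
    constructor <;> linarith

lemma n1_k0 : n1 k0 = ENNReal.ofReal (1 / 4) := by
  unfold n1
  have h : ∀ τ : ℝ, ‖k0 τ‖ₑ ^ 2 = (Ico (0 : ℝ) (1 / 4)).indicator (fun _ => (1 : ℝ≥0∞)) τ := by
    intro τ
    unfold k0
    by_cases hτ : τ ∈ Ico (0 : ℝ) (1 / 4)
    · rw [indicator_of_mem hτ, indicator_of_mem hτ]
      simp
    · rw [indicator_of_notMem hτ, indicator_of_notMem hτ]
      simp
  simp_rw [h]
  rw [lintegral_indicator measurableSet_Ico, setLIntegral_one, Real.volume_Ico]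
  norm_num

lemma low (y : ℝ) (hy : |y| ≤ 1) : 1 / 8 ≤ ‖Ex1 k0 y‖ := by
  have h1 : Integrable (fun τ => k0 τ * ee (y * τ)) :=
    bd1_int (bd1_mul_ee bd1_k0 (measurable_id.const_mul y))
  have h2 : (Ex1 k0 y).re = ∫ τ, (k0 τ * ee (y * τ)).re := by
    unfold Ex1
    exact (integral_re h1).symm
  have h3 : ∀ τ : ℝ, (Ico (0 : ℝ) (1 / 4)).indicator (fun τ => 1 - 4 * τ) τ ≤
      (k0 τ * ee (y * τ)).re := by
    intro τ
    unfold k0
    by_cases hτ : τ ∈ Ico (0 : ℝ) (1 / 4)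
    · rw [indicator_of_mem hτ, indicator_of_mem hτ, one_mul, re_ee]
      have h4 : Real.cos (2 * Real.pi * (y * τ)) = Real.cos (2 * Real.pi * (|y| * τ)) := by
        rcases abs_cases y with ⟨h5, -⟩ | ⟨h5, -⟩
        · rw [h5]
        · rw [h5, ← Real.cos_neg]
          congr 1
          ring
      rw [h4]
      have hpi := Real.pi_pos
      have h6 : 0 ≤ |y| * τ := mul_nonneg (abs_nonneg _) hτ.1
      have h7 : |y| * τ ≤ τ := by
        nlinarith [hτ.1]
      have h8 : 2 * Real.pi * (|y| * τ) ≤ Real.pi / 2 := by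
        have := hτ.2
        nlinarith
      have h9 := Real.one_sub_mul_le_cos (x := 2 * Real.pi * (|y| * τ)) (by positivity) h8
      have h10 : 2 / Real.pi * (2 * Real.pi * (|y| * τ)) = 4 * (|y| * τ) := by
        field_simp
        ring
      rw [h10] at h9
      linarith
    · rw [indicator_of_notMem hτ, indicator_of_notMem hτ]
      simp
  have h4 : ∫ τ, (Ico (0 : ℝ) (1 / 4)).indicator (fun τ => 1 - 4 * τ) τ = 1 / 8 := by
    rw [integral_indicator measurableSet_Ico, integral_Ico_eq_integral_Ioo,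
      ← integral_Ioc_eq_integral_Ioo, ← intervalIntegral.integral_of_le (by norm_num)]
    rw [intervalIntegral.integral_sub (by simp) (by
      apply Continuous.intervalIntegrable
      fun_prop)]
    rw [intervalIntegral.integral_const_mul, integral_id]
    norm_num
  have h5 : ∫ τ, (Ico (0 : ℝ) (1 / 4)).indicator (fun τ => 1 - 4 * τ) τ ≤
      ∫ τ, (k0 τ * ee (y * τ)).re := by
    refine integral_mono ?_ h1.re h3
    rw [integrable_indicator_iff measurableSet_Ico]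
    refine IntegrableOn.mono_set (t := Icc (0 : ℝ) (1 / 4)) ?_ Ico_subset_Icc_self
    apply Continuous.integrableOn_Icc
    fun_prop
  calc (1 : ℝ) / 8 ≤ (Ex1 k0 y).re := by rw [h2]; linarith
    _ ≤ ‖Ex1 k0 y‖ := Complex.re_le_norm _

/-- the cells -/
def cell (p : ℤ) : Set ℝ := Ico ((p : ℝ) / 2) (((p : ℝ) + 1) / 2)

lemma meas_cell (p : ℤ) : MeasurableSet (cell p) := measurableSet_Ico

lemma mem_cell (p : ℤ) (s : ℝ) : s ∈ cell p ↔ ⌊2 * s⌋ = p := by
  unfold cell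
  rw [mem_Ico, Int.floor_eq_iff]
  constructor
  · rintro ⟨h1, h2⟩
    constructor <;> linarith
  · rintro ⟨h1, h2⟩
    constructor <;> linarith

lemma cell_disj (S : Set ℤ) : S.PairwiseDisjoint cell := by
  intro p _ p' _ hpp'
  rw [Function.onFun, Set.disjoint_left]
  intro s hs hs'
  rw [mem_cell] at hs hs'
  exact hpp' (hs.symm.trans hs')

lemma sum_cell (S : Finset ℤ) (f : ℝ → ℝ≥0∞) : ∑ p ∈ S, ∫⁻ s in cell p, f s ≤ ∫⁻ s, f s := by
  rw [← lintegral_biUnion_finset (cell_disj _) (fun p _ => meas_cell p)]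
  exact setLIntegral_le_lintegral _ _

end DR_

open DR_

/-- S6 -/
theorem pDR (hT : tDT) (hO : tOL1) (hP : tPl1) : tDR := by
  obtain ⟨C, hC⟩ := hT
  refine ⟨48 * C, ?_⟩
  intro κ q lam G hlm hmono hle hG
  classical
  have hG' := hG
  have hG0 : ∀ k, Measurable (G k) ∧ (∃ B : ℝ, ∀ τ, ‖G k τ‖ ≤ B) ∧
      ∃ R : ℝ, ∀ τ, G k τ ≠ 0 → |τ| ≤ R := hG
  choose hGm hBx hRx using hG0
  choose B hB using hBx
  choose R hR using hRx
  -- the functions `u l`
  set u : ℕ → ℝ → ℂ := fun l s => ∑ k ∈ Finset.range q,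
    if lam k s ≤ l ∧ l < lam (k + 1) s then G k s else 0 with hu_def
  have hBnn : ∀ k, 0 ≤ B k := fun k => (norm_nonneg _).trans (hB k 0)
  set R0 : ℝ := ∑ k ∈ Finset.range q, |R k| with hR0
  have hRk : ∀ k ∈ Finset.range q, R k ≤ R0 := by
    intro k hk
    exact (le_abs_self _).trans
      (Finset.single_le_sum (f := fun k => |R k|) (fun i _ => abs_nonneg _) hk)
  have hu : ∀ l, Bd1 (u l) := by
    intro l
    refine ⟨?_, ⟨∑ k ∈ Finset.range q, B k, fun s => ?_⟩, ⟨R0, fun s hs => ?_⟩⟩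
    · refine Finset.measurable_fun_sum _ fun k _ => Measurable.ite ?_ (hGm k) measurable_const
      exact (measurableSet_le (hlm k) measurable_const).inter
        (measurableSet_lt measurable_const (hlm (k + 1)))
    · refine (norm_sum_le _ _).trans (Finset.sum_le_sum fun k _ => ?_)
      split_ifs
      · exact hB k s
      · rw [norm_zero]
        exact hBnn k
    · obtain ⟨k, hk, hk0⟩ := Finset.exists_ne_zero_of_sum_ne_zero hs
      have h1 : G k s ≠ 0 := by
        intro h0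
        apply hk0
        rw [h0]
        simp
      exact (hR k s h1).trans (hRk k hk)
  -- the finite set of cells
  set M : ℤ := ⌈2 * R0⌉ + 1 with hM
  set S : Finset ℤ := Finset.Icc (-M) M with hS
  have hcov : ∀ s : ℝ, |s| ≤ R0 → ⌊2 * s⌋ ∈ S := by
    intro s hs
    rw [abs_le] at hs
    have h1 : (2 * R0 : ℝ) ≤ ⌈2 * R0⌉ := Int.le_ceil _
    rw [hS, Finset.mem_Icc]
    constructor
    · have h2 : (2 * s) < ⌊2 * s⌋ + 1 := Int.lt_floor_add_one _
      have h3 : (-M : ℝ) ≤ ⌊2 * s⌋ := by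
        rw [hM]
        push_cast
        linarith [hs.1]
      exact_mod_cast h3
    · have h2 : (⌊2 * s⌋ : ℝ) ≤ 2 * s := Int.floor_le _
      have h3 : (⌊2 * s⌋ : ℝ) ≤ M := by
        rw [hM]
        push_cast
        linarith [hs.2]
      exact_mod_cast h3
  set h : ℕ → ℤ → ℝ → ℂ := fun l p => (cell p).indicator (u l) with hh
  set g : ℕ → ℝ → ℂ := fun l t => k0 t * ee (l * t) with hg
  have hgb : ∀ l, Bd1 (g l) := fun l => bd1_mul_ee bd1_k0 (measurable_id.const_mul _)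
  have hhb : ∀ l p, Bd1 (h l p) := fun l p => bd1_ind (hu l) (meas_cell p)
  have hgE : ∀ (l : ℕ) (x : ℝ), Ex1 (g l) x = Ex1 k0 (x + l) := by
    intro l x
    unfold Ex1
    refine integral_congr_ae (Filter.Eventually.of_forall fun τ => ?_)
    simp only [hg]
    rw [mul_assoc, ← ee_add]
    congr 2
    ring
  -- decomposition
  have hdec : ∀ (l : ℕ) (x : ℝ), Ex1 (u l) x = ∑ p ∈ S, Ex1 (h l p) x := by
    intro l x
    unfold Ex1
    rw [← integral_finsetSum]
    · refine integral_congr_ae (Filter.Eventually.of_forall fun τ => ?_)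
      simp only
      rw [← Finset.sum_mul]
      congr 1
      by_cases h0 : u l τ = 0
      · rw [h0]
        symm
        refine Finset.sum_eq_zero fun p _ => ?_
        simp only [hh]
        by_cases hτ : τ ∈ cell p
        · rw [indicator_of_mem hτ, h0]
        · rw [indicator_of_notMem hτ]
      · obtain ⟨k, hk, hk0⟩ := Finset.exists_ne_zero_of_sum_ne_zero h0
        have h1 : G k τ ≠ 0 := by
          intro h0
          apply hk0
          rw [h0]
          simp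
        have h2 : |τ| ≤ R0 := (hR k τ h1).trans (hRk k hk)
        rw [Finset.sum_eq_single (⌊2 * τ⌋)]
        · simp only [hh]
          rw [indicator_of_mem ((mem_cell _ _).2 rfl)]
        · intro p _ hp
          simp only [hh]
          rw [indicator_of_notMem]
          intro h3
          exact hp ((mem_cell _ _).1 h3).symm
        · intro h3
          exact absurd (hcov τ h2) h3
    · intro p _
      exact bd1_int (bd1_mul_ee (hhb l p) (measurable_id.const_mul _))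
  -- step A
  have hA : ∀ l : ℕ, ∀ τ ∈ Ico (l : ℝ) (l + 1), ‖∫ s, (∑ k ∈ Finset.range q,
      if (lam k s : ℝ) ≤ τ ∧ τ < lam (k + 1) s then G k s else 0) * ee (-(τ * s))‖ₑ ^ 2 =
      ‖Ex1 (u l) (-τ)‖ₑ ^ 2 := by
    intro l τ hτ
    congr 2
    unfold Ex1
    refine integral_congr_ae (Filter.Eventually.of_forall fun s => ?_)
    simp only [hu_def]
    congr 1
    · refine Finset.sum_congr rfl fun k _ => ?_
      have h1 : ((lam k s : ℝ) ≤ τ ∧ τ < lam (k + 1) s) ↔ (lam k s ≤ l ∧ l < lam (k + 1) s) := by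
        constructor
        · rintro ⟨h2, h3⟩
          constructor
          · by_contra h4
            have h5 : l + 1 ≤ lam k s := by omega
            have h6 : ((l : ℝ) + 1) ≤ lam k s := by exact_mod_cast h5
            linarith [hτ.2]
          · have h4 : (l : ℝ) < lam (k + 1) s := by linarith [hτ.1]
            exact_mod_cast h4
        · rintro ⟨h2, h3⟩
          constructor
          · have h4 : (lam k s : ℝ) ≤ l := by exact_mod_cast h2
            linarith [hτ.1]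
          · have h5 : l + 1 ≤ lam (k + 1) s := by omega
            have h6 : ((l : ℝ) + 1) ≤ lam (k + 1) s := by exact_mod_cast h5
            linarith [hτ.2]
      simp only [h1]
    · congr 1
      ring
  -- step B and C
  have hBC : ∀ l : ℕ, ∫⁻ τ in Ico (l : ℝ) (l + 1), ‖Ex1 (u l) (-τ)‖ₑ ^ 2 ≤
      64 * (3 * ∑ p ∈ S, ∫⁻ x, ‖Ex1 (g l) x‖ₑ ^ 2 * ‖Ex1 (h l p) x‖ₑ ^ 2) := by
    intro l
    have h1 : ∀ τ ∈ Ico (l : ℝ) (l + 1), ‖Ex1 (u l) (-τ)‖ₑ ^ 2 ≤
        64 * (‖Ex1 (g l) (-τ)‖ₑ ^ 2 * ‖Ex1 (u l) (-τ)‖ₑ ^ 2) := by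
      intro τ hτ
      have h2 : |(-τ + l : ℝ)| ≤ 1 := by
        rw [abs_le]
        constructor <;> linarith [hτ.1, hτ.2]
      have h3 := low _ h2
      rw [hgE]
      have h4 : (1 : ℝ≥0∞) ≤ 64 * ‖Ex1 k0 (-τ + l)‖ₑ ^ 2 := by
        rw [← ofReal_norm, ← ENNReal.ofReal_pow (norm_nonneg _)]
        have h5 : (64 : ℝ≥0∞) = ENNReal.ofReal 64 := by norm_num
        rw [h5, ← ENNReal.ofReal_mul (by norm_num), ← ENNReal.ofReal_one]
        apply ENNReal.ofReal_le_ofReal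
        nlinarith
      calc ‖Ex1 (u l) (-τ)‖ₑ ^ 2 = 1 * ‖Ex1 (u l) (-τ)‖ₑ ^ 2 := (one_mul _).symm
        _ ≤ (64 * ‖Ex1 k0 (-τ + l)‖ₑ ^ 2) * ‖Ex1 (u l) (-τ)‖ₑ ^ 2 := by gcongr
        _ = _ := by rw [mul_assoc]
    have hm : Measurable fun x => ‖Ex1 (g l) x‖ₑ ^ 2 * ‖Ex1 (u l) x‖ₑ ^ 2 := by
      have hc1 := (hP _ (hgb l)).1.measurable
      have hc2 := (hP _ (hu l)).1.measurable
      exact (hc1.enorm.pow_const 2).mul (hc2.enorm.pow_const 2)
    calc ∫⁻ τ in Ico (l : ℝ) (l + 1), ‖Ex1 (u l) (-τ)‖ₑ ^ 2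
        ≤ ∫⁻ τ in Ico (l : ℝ) (l + 1),
          64 * (‖Ex1 (g l) (-τ)‖ₑ ^ 2 * ‖Ex1 (u l) (-τ)‖ₑ ^ 2) :=
          setLIntegral_mono' measurableSet_Ico h1
      _ ≤ ∫⁻ τ, 64 * (‖Ex1 (g l) (-τ)‖ₑ ^ 2 * ‖Ex1 (u l) (-τ)‖ₑ ^ 2) :=
          setLIntegral_le_lintegral _ _
      _ = ∫⁻ τ, 64 * (‖Ex1 (g l) τ‖ₑ ^ 2 * ‖Ex1 (u l) τ‖ₑ ^ 2) :=
          (Measure.measurePreserving_neg (volume : Measure ℝ)).lintegral_comp (hm.const_mul 64)
      _ = 64 * ∫⁻ τ, ‖Ex1 (g l) τ‖ₑ ^ 2 * ‖Ex1 (u l) τ‖ₑ ^ 2 := lintegral_const_mul _ hm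
      _ ≤ _ := by
          gcongr
          have h5 := hO S 1 (h l) (g l) (hhb l) (hgb l) (by
            intro p p' ξ η η' hp hη hη' hp'
            have e1 : ξ ∈ cell p := by
              by_contra hn
              exact hp (indicator_of_notMem hn _)
            have e2 : ξ + η - η' ∈ cell p' := by
              by_contra hn
              exact hp' (indicator_of_notMem hn _)
            have e3 := k0_ne (left_ne_zero_of_mul hη)
            have e4 := k0_ne (left_ne_zero_of_mul hη')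
            unfold cell at e1 e2
            rw [mem_Ico] at e1 e2
            have e5 : (p' : ℝ) - p < 2 := by linarith [e1.1, e1.2, e2.1, e2.2]
            have e6 : (p : ℝ) - p' < 2 := by linarith [e1.1, e1.2, e2.1, e2.2]
            have e7 : p' - p < 2 := by exact_mod_cast e5
            have e8 : p - p' < 2 := by exact_mod_cast e6
            rw [abs_le]
            push_cast
            constructor <;> omega)
          simp_rw [← hdec] at h5
          refine h5.trans (le_of_eq ?_)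
          congr 1
          norm_num
  -- step D
  have hD : ∀ p : ℤ, ∑ l ∈ Finset.range (2 ^ κ),
      ∫⁻ x, ‖Ex1 (g l) x‖ₑ ^ 2 * ‖Ex1 (h l p) x‖ₑ ^ 2 ≤
      ENNReal.ofReal (1 / 4) * (C * ((κ + 1 : ℕ) : ℝ≥0∞) * ((lg q + lg (κ + 1) : ℕ) : ℝ≥0∞) *
        ∑ k ∈ Finset.range q, ∫⁻ s in cell p, ‖G k s‖ₑ ^ 2) := by
    intro p
    set V : ℝ≥0∞ := C * ((κ + 1 : ℕ) : ℝ≥0∞) * ((lg q + lg (κ + 1) : ℕ) : ℝ≥0∞) *
        ∑ k ∈ Finset.range q, ∫⁻ s in cell p, ‖G k s‖ₑ ^ 2 with hV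
    have h1 : ∀ l : ℕ, ∫⁻ x, ‖Ex1 (g l) x‖ₑ ^ 2 * ‖Ex1 (h l p) x‖ₑ ^ 2 =
        ∫⁻ y, ‖Ex1 k0 y‖ₑ ^ 2 * ‖Ex1 (h l p) (y - l)‖ₑ ^ 2 := by
      intro l
      rw [← lintegral_add_right_eq_self
        (fun y => ‖Ex1 k0 y‖ₑ ^ 2 * ‖Ex1 (h l p) (y - l)‖ₑ ^ 2) (l : ℝ)]
      refine lintegral_congr fun x => ?_
      rw [hgE, add_sub_cancel_right]
    have hmk : Measurable fun y => ‖Ex1 k0 y‖ₑ ^ 2 :=
      ((hP _ bd1_k0).1.measurable.enorm.pow_const 2)
    have hmh : ∀ l : ℕ, Measurable fun y : ℝ => ‖Ex1 (h l p) (y - l)‖ₑ ^ 2 := by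
      intro l
      exact ((hP _ (hhb l p)).1.measurable.comp (measurable_id.sub_const _)).enorm.pow_const 2
    have key : ∀ y : ℝ, ∑ l ∈ Finset.range (2 ^ κ), ‖Ex1 (h l p) (y - l)‖ₑ ^ 2 ≤ V := by
      intro y
      set G1 : ℕ → ℝ → ℂ := fun k => (Ico (0 : ℝ) (1 / 2)).indicator
        (fun s => G k (s + p / 2) * ee (y * (s + p / 2))) with hG1
      have hG1b : ∀ k, Bd1 (G1 k) := by
        intro k
        refine bd1_ind ?_ measurableSet_Ico
        exact bd1_mul_ee (bd1_shift (hG' k) _) ((measurable_id.add_const _).const_mul _)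
      have h2 := hC κ q (fun k s => lam k (s + p / 2)) G1
        (fun k => (hlm k).comp (measurable_id.add_const _)) (fun k s => hmono k _)
        (fun k s => hle k _) hG1b (by
          intro k s hs
          by_contra h3
          exact hs (indicator_of_notMem (fun h4 => h3 ⟨h4.1, h4.2⟩) _))
      have h3 : ∀ k, n1 (G1 k) = ∫⁻ s in cell p, ‖G k s‖ₑ ^ 2 := by
        intro k
        unfold n1
        rw [← lintegral_indicator (meas_cell p), ← lintegral_add_right_eq_self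
          (fun s => (cell p).indicator (fun s => ‖G k s‖ₑ ^ 2) s) ((p : ℝ) / 2)]
        refine lintegral_congr fun s => ?_
        simp only [hG1]
        have h4 : s + (p : ℝ) / 2 ∈ cell p ↔ s ∈ Ico (0 : ℝ) (1 / 2) := by
          unfold cell
          rw [mem_Ico, mem_Ico]
          constructor
          · rintro ⟨h5, h6⟩
            constructor <;> linarith
          · rintro ⟨h5, h6⟩
            constructor <;> linarith
        by_cases hs : s ∈ Ico (0 : ℝ) (1 / 2)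
        · rw [indicator_of_mem hs, indicator_of_mem (h4.2 hs), enorm_mul, enorm_ee, mul_one]
        · rw [indicator_of_notMem hs, indicator_of_notMem (fun h5 => hs (h4.1 h5))]
          simp
      simp_rw [h3] at h2
      refine le_trans (le_of_eq ?_) h2
      refine Finset.sum_congr rfl fun l _ => ?_
      congr 1
      have h4 : Ex1 (h l p) (y - l) = ee (-(l * (p / 2))) * ∫ s, (∑ k ∈ Finset.range q,
          if lam k (s + p / 2) ≤ l ∧ l < lam (k + 1) (s + p / 2) then G1 k s else 0) *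
            ee (-(l * s)) := by
        unfold Ex1
        rw [← integral_add_right_eq_self
          (fun s => h l p s * ee ((y - l) * s)) ((p : ℝ) / 2), ← integral_const_mul]
        refine integral_congr_ae (Filter.Eventually.of_forall fun s => ?_)
        simp only [hh, hG1]
        have h4 : s + (p : ℝ) / 2 ∈ cell p ↔ s ∈ Ico (0 : ℝ) (1 / 2) := by
          unfold cell
          rw [mem_Ico, mem_Ico]
          constructor
          · rintro ⟨h5, h6⟩
            constructor <;> linarith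
          · rintro ⟨h5, h6⟩
            constructor <;> linarith
        by_cases hs : s ∈ Ico (0 : ℝ) (1 / 2)
        · rw [indicator_of_mem (h4.2 hs)]
          simp only [indicator_of_mem hs, hu_def]
          have h5 : ee ((y - l) * (s + p / 2)) =
              ee (y * (s + p / 2)) * (ee (-(l * s)) * ee (-(l * (p / 2)))) := by
            rw [← ee_add, ← ee_add]
            congr 1
            ring
          have h6 : (∑ k ∈ Finset.range q,
              if lam k (s + p / 2) ≤ l ∧ l < lam (k + 1) (s + p / 2) then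
                G k (s + p / 2) * ee (y * (s + p / 2)) else 0) =
              (∑ k ∈ Finset.range q,
              if lam k (s + p / 2) ≤ l ∧ l < lam (k + 1) (s + p / 2) then
                G k (s + p / 2) else 0) * ee (y * (s + p / 2)) := by
            rw [Finset.sum_mul]
            refine Finset.sum_congr rfl fun k _ => ?_
            rw [ite_mul, zero_mul]
          rw [h5, h6]
          ring
        · rw [indicator_of_notMem (fun h5 => hs (h4.1 h5))]
          simp only [indicator_of_notMem hs, ite_self, Finset.sum_const_zero, zero_mul, mul_zero]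
      rw [h4, enorm_mul, enorm_ee, one_mul]
    calc ∑ l ∈ Finset.range (2 ^ κ), ∫⁻ x, ‖Ex1 (g l) x‖ₑ ^ 2 * ‖Ex1 (h l p) x‖ₑ ^ 2
        = ∑ l ∈ Finset.range (2 ^ κ),
          ∫⁻ y, ‖Ex1 k0 y‖ₑ ^ 2 * ‖Ex1 (h l p) (y - l)‖ₑ ^ 2 :=
          Finset.sum_congr rfl fun l _ => h1 l
      _ = ∫⁻ y, ∑ l ∈ Finset.range (2 ^ κ), ‖Ex1 k0 y‖ₑ ^ 2 * ‖Ex1 (h l p) (y - l)‖ₑ ^ 2 :=
          (lintegral_finsetSum _ fun l _ => hmk.mul (hmh l)).symm
      _ ≤ ∫⁻ y, ‖Ex1 k0 y‖ₑ ^ 2 * V := by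
          refine lintegral_mono fun y => ?_
          simp only
          rw [← Finset.mul_sum]
          gcongr
          exact key y
      _ = (∫⁻ y, ‖Ex1 k0 y‖ₑ ^ 2) * V := lintegral_mul_const _ hmk
      _ = ENNReal.ofReal (1 / 4) * V := by rw [(hP _ bd1_k0).2, n1_k0]
  -- assembly
  have hsub : Ico (0 : ℝ) (2 ^ κ) ⊆ ⋃ l ∈ Finset.range (2 ^ κ), Ico (l : ℝ) (l + 1) := by
    intro τ hτ
    simp only [mem_iUnion]
    refine ⟨⌊τ⌋₊, ?_, ?_⟩
    · rw [Finset.mem_range, Nat.floor_lt hτ.1]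
      exact_mod_cast hτ.2
    · exact ⟨Nat.floor_le hτ.1, Nat.lt_floor_add_one τ⟩
  have hdis : ((Finset.range (2 ^ κ) : Finset ℕ) : Set ℕ).PairwiseDisjoint
      fun l : ℕ => Ico (l : ℝ) (l + 1) := by
    intro a _ b _ hab
    rw [Function.onFun, Set.disjoint_left]
    intro τ h1 h2
    apply hab
    have h3 : (a : ℝ) < b + 1 := lt_of_le_of_lt h1.1 h2.2
    have h4 : (b : ℝ) < a + 1 := lt_of_le_of_lt h2.1 h1.2
    have h5 : a < b + 1 := by exact_mod_cast h3
    have h6 : b < a + 1 := by exact_mod_cast h4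
    omega
  calc ∫⁻ τ in Ico (0 : ℝ) (2 ^ κ), ‖∫ s, (∑ k ∈ Finset.range q,
      if (lam k s : ℝ) ≤ τ ∧ τ < lam (k + 1) s then G k s else 0) * ee (-(τ * s))‖ₑ ^ 2
      ≤ ∫⁻ τ in ⋃ l ∈ Finset.range (2 ^ κ), Ico (l : ℝ) (l + 1), ‖∫ s, (∑ k ∈ Finset.range q,
      if (lam k s : ℝ) ≤ τ ∧ τ < lam (k + 1) s then G k s else 0) * ee (-(τ * s))‖ₑ ^ 2 :=
        lintegral_mono_set hsub
    _ = ∑ l ∈ Finset.range (2 ^ κ), ∫⁻ τ in Ico (l : ℝ) (l + 1), ‖∫ s,
      (∑ k ∈ Finset.range q,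
      if (lam k s : ℝ) ≤ τ ∧ τ < lam (k + 1) s then G k s else 0) * ee (-(τ * s))‖ₑ ^ 2 :=
        lintegral_biUnion_finset hdis (fun l _ => measurableSet_Ico) _
    _ = ∑ l ∈ Finset.range (2 ^ κ), ∫⁻ τ in Ico (l : ℝ) (l + 1), ‖Ex1 (u l) (-τ)‖ₑ ^ 2 :=
        Finset.sum_congr rfl fun l _ => setLIntegral_congr_fun measurableSet_Ico (hA l)
    _ ≤ ∑ l ∈ Finset.range (2 ^ κ),
        64 * (3 * ∑ p ∈ S, ∫⁻ x, ‖Ex1 (g l) x‖ₑ ^ 2 * ‖Ex1 (h l p) x‖ₑ ^ 2) :=
        Finset.sum_le_sum fun l _ => hBC l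
    _ = 192 * ∑ p ∈ S, ∑ l ∈ Finset.range (2 ^ κ),
        ∫⁻ x, ‖Ex1 (g l) x‖ₑ ^ 2 * ‖Ex1 (h l p) x‖ₑ ^ 2 := by
        rw [Finset.sum_comm, ← Finset.mul_sum, ← Finset.mul_sum, ← mul_assoc]
        norm_num
    _ ≤ 192 * ∑ p ∈ S, ENNReal.ofReal (1 / 4) * (C * ((κ + 1 : ℕ) : ℝ≥0∞) *
        ((lg q + lg (κ + 1) : ℕ) : ℝ≥0∞) *
        ∑ k ∈ Finset.range q, ∫⁻ s in cell p, ‖G k s‖ₑ ^ 2) := by
        gcongr with p hp
        exact hD p
    _ = 192 * ENNReal.ofReal (1 / 4) * (C * ((κ + 1 : ℕ) : ℝ≥0∞) *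
        ((lg q + lg (κ + 1) : ℕ) : ℝ≥0∞)) *
        ∑ k ∈ Finset.range q, ∑ p ∈ S, ∫⁻ s in cell p, ‖G k s‖ₑ ^ 2 := by
        rw [← Finset.mul_sum, ← Finset.mul_sum, Finset.sum_comm]
        ring
    _ ≤ 192 * ENNReal.ofReal (1 / 4) * (C * ((κ + 1 : ℕ) : ℝ≥0∞) *
        ((lg q + lg (κ + 1) : ℕ) : ℝ≥0∞)) * ∑ k ∈ Finset.range q, n1 (G k) := by
        gcongr with k hk
        exact sum_cell S _
    _ = ((48 * C : ℝ≥0) : ℝ≥0∞) * ((κ + 1 : ℕ) : ℝ≥0∞) *
        ((lg q + lg (κ + 1) : ℕ) : ℝ≥0∞) * ∑ k ∈ Finset.range q, n1 (G k) := by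
        have h1 : (192 : ℝ≥0∞) * ENNReal.ofReal (1 / 4) = 48 := by
          have h2 : (192 : ℝ≥0∞) = ENNReal.ofReal 192 := by norm_num
          have h3 : (48 : ℝ≥0∞) = ENNReal.ofReal 48 := by norm_num
          rw [h2, ← ENNReal.ofReal_mul (by norm_num), h3]
          norm_num
        rw [h1]
        push_cast
        ring

end Pool.Agent.KSP
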