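import Pool.Agent.KSP.Targets

set_option autoImplicit false

/-! S5: the dual estimate on the circle. -/

namespace Pool.Agent.KSP

open MeasureTheory Set
open scoped ENNReal NNReal ComplexConjugate

namespace DT_

/-! ### Blocks of natural numbers -/

/-- The `J`-th block of level `j` is contained in `[a, b)`. -/
def inC (j a b J : ℕ) : Prop := a ≤ J * 2 ^ j ∧ (J + 1) * 2 ^ j ≤ b

lemma inC_zero {a b l : ℕ} : inC 0 a b l ↔ a ≤ l ∧ l < b := by
  unfold inC
  rw [pow_zero, mul_one, mul_one, Nat.succ_le_iff]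

lemma inC_top {κ a b J : ℕ} (hb : b ≤ 2 ^ κ) : ¬ inC (κ + 1) a b J := by
  rintro ⟨-, h⟩
  have h1 : 1 * 2 ^ (κ + 1) ≤ (J + 1) * 2 ^ (κ + 1) := Nat.mul_le_mul_right _ (by omega)
  have h2 : 2 ^ (κ + 1) = 2 * 2 ^ κ := by ring
  have h3 : 0 < 2 ^ κ := by positivity
  omega

lemma inC_child {j a b J : ℕ} (h : inC (j + 1) a b (J / 2)) : inC j a b J := by
  obtain ⟨h1, h2⟩ := h
  have e1 : J / 2 * 2 ^ (j + 1) = (J / 2 * 2) * 2 ^ j := by ring
  have e2 : (J / 2 + 1) * 2 ^ (j + 1) = ((J / 2 + 1) * 2) * 2 ^ j := by ring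
  have i1 : (J / 2 * 2) * 2 ^ j ≤ J * 2 ^ j := Nat.mul_le_mul_right _ (by omega)
  have i2 : (J + 1) * 2 ^ j ≤ ((J / 2 + 1) * 2) * 2 ^ j := Nat.mul_le_mul_right _ (by omega)
  exact ⟨by omega, by omega⟩

lemma inC_disj {j a b a' b' J : ℕ} (h : b ≤ a') (h1 : inC j a b J) (h2 : inC j a' b' J) :
    False := by
  have e : (J + 1) * 2 ^ j = J * 2 ^ j + 2 ^ j := by ring
  have h3 : 0 < 2 ^ j := by positivity
  have := h1.2
  have := h2.1
  omega

open Classical in
lemma card_diff (j a b : ℕ) (S : Finset ℕ) :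
    (S.filter (fun J => inC j a b J ∧ ¬ inC (j + 1) a b (J / 2))).card ≤ 2 := by
  refine (Finset.card_le_card (t := {(a + 2 ^ j - 1) / 2 ^ j, b / 2 ^ j - 1}) ?_).trans
    Finset.card_le_two
  intro J hJ
  obtain ⟨-, ⟨h1, h2⟩, h3⟩ := Finset.mem_filter.mp hJ
  have hD : 0 < 2 ^ j := by positivity
  rw [Finset.mem_insert, Finset.mem_singleton]
  have e1 : J / 2 * 2 ^ (j + 1) = (J / 2 * 2) * 2 ^ j := by ring
  have e2 : (J / 2 + 1) * 2 ^ (j + 1) = ((J / 2 + 1) * 2) * 2 ^ j := by ring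
  by_cases h4 : a ≤ J / 2 * 2 ^ (j + 1)
  · right
    have h5 : b < (J / 2 + 1) * 2 ^ (j + 1) := by
      by_contra hcon
      exact h3 ⟨h4, not_lt.mp hcon⟩
    have i2 : ((J / 2 + 1) * 2) * 2 ^ j ≤ (J + 1 + 1) * 2 ^ j := Nat.mul_le_mul_right _ (by omega)
    have : b / 2 ^ j = J + 1 := Nat.div_eq_of_lt_le h2 (by omega)
    omega
  · left
    have i1 : J * 2 ^ j ≤ (J / 2 * 2 + 1) * 2 ^ j := Nat.mul_le_mul_right _ (by omega)
    have e3 : (J / 2 * 2 + 1) * 2 ^ j = (J / 2 * 2) * 2 ^ j + 2 ^ j := by ring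
    have e4 : (J + 1) * 2 ^ j = J * 2 ^ j + 2 ^ j := by ring
    exact (Nat.div_eq_of_lt_le (by omega) (by omega)).symm

/-- Upper end of the range of blocks. -/
def nu (j b : ℕ) : ℕ := 2 * (b / 2 ^ (j + 1))

/-- Lower end of the range of blocks. -/
def mu (j a b : ℕ) : ℕ := min (2 * ((a + 2 ^ (j + 1) - 1) / 2 ^ (j + 1))) (nu j b)

lemma ceil_le {a D x : ℕ} (hD : 0 < D) : (a + D - 1) / D ≤ x ↔ a ≤ x * D := by
  rw [← Nat.lt_succ_iff, Nat.div_lt_iff_lt_mul hD, Nat.succ_mul]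
  omega

lemma inC_iff {j a b J : ℕ} : inC (j + 1) a b (J / 2) ↔ J ∈ Finset.Ico (mu j a b) (nu j b) := by
  have hD : 0 < 2 ^ (j + 1) := by positivity
  unfold inC
  rw [← ceil_le hD, ← Nat.le_div_iff_mul_le hD, Finset.mem_Ico]
  unfold mu nu
  generalize (a + 2 ^ (j + 1) - 1) / 2 ^ (j + 1) = x
  generalize b / 2 ^ (j + 1) = y
  omega

lemma nu_le (j b : ℕ) : nu j b ≤ b := by
  unfold nu
  have h1 : b / 2 ^ (j + 1) ≤ b / 2 := by
    apply Nat.div_le_div_left _ (by norm_num)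
    calc 2 = 2 ^ 1 := rfl
      _ ≤ 2 ^ (j + 1) := Nat.pow_le_pow_right (by norm_num) (by omega)
  omega

lemma nu_mul_le (j b : ℕ) : nu j b * 2 ^ j ≤ b := by
  unfold nu
  have h1 : 2 * (b / 2 ^ (j + 1)) * 2 ^ j = b / 2 ^ (j + 1) * 2 ^ (j + 1) := by ring
  rw [h1]
  exact Nat.div_mul_le_self _ _

lemma mu_le_nu (j a b : ℕ) : mu j a b ≤ nu j b := min_le_right _ _

lemma nu_le_mu (j : ℕ) {b c : ℕ} (h : b ≤ c) : nu j b ≤ mu j b c := by
  have hD : 0 < 2 ^ (j + 1) := by positivity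
  unfold mu nu
  refine le_min ?_ ?_
  · have : b / 2 ^ (j + 1) ≤ (b + 2 ^ (j + 1) - 1) / 2 ^ (j + 1) :=
      Nat.div_le_div_right (by omega)
    omega
  · have : b / 2 ^ (j + 1) ≤ c / 2 ^ (j + 1) := Nat.div_le_div_right h
    omega

/-! ### Exponentials -/

lemma ee_norm (t : ℝ) : ‖ee t‖ = 1 := by
  unfold ee
  rw [Complex.norm_exp]
  simp

lemma ee_cont : Continuous ee := by
  unfold ee
  fun_prop

lemma ee_conj (t : ℝ) : conj (ee t) = ee (-t) := by
  unfold ee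
  rw [← Complex.exp_conj]
  congr 1
  simp only [map_mul, Complex.conj_ofReal, Complex.conj_I, map_ofNat]
  push_cast
  ring

/-! ### Bounded functions of bounded support -/

lemma int_bd {F : Type} [NormedAddCommGroup F] {f : ℝ → F} {B R : ℝ}
    (hm : AEStronglyMeasurable f) (hB : ∀ s, ‖f s‖ ≤ B) (hR : ∀ s, f s ≠ 0 → |s| ≤ R) :
    Integrable f := by
  have hg : Integrable ((Icc (-R) R).indicator (fun _ : ℝ => B)) := by
    rw [integrable_indicator_iff measurableSet_Icc]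
    exact integrableOn_const (by simp) (by simp)
  refine hg.mono' hm (ae_of_all _ fun s => ?_)
  by_cases hs : f s = 0
  · rw [hs, norm_zero]
    refine indicator_nonneg (fun x _ => ?_) s
    exact (norm_nonneg _).trans (hB x)
  · have hmem : s ∈ Icc (-R) R := abs_le.mp (hR s hs)
    rw [indicator_of_mem hmem]
    exact hB s

lemma bd_int {H : ℝ → ℂ} (h : Bd1 H) : Integrable H := by
  obtain ⟨h1, ⟨B, h2⟩, R, h3⟩ := h
  exact int_bd h1.aestronglyMeasurable h2 h3

lemma bd_int_ee {H : ℝ → ℂ} (h : Bd1 H) (l : ℝ) : Integrable (fun s => H s * ee (l * s)) := by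
  obtain ⟨h1, ⟨B, h2⟩, R, h3⟩ := h
  refine int_bd (B := B) (R := R) ?_ (fun s => ?_) (fun s hs => h3 s (left_ne_zero_of_mul hs))
  · exact (h1.mul (ee_cont.measurable.comp (measurable_const.mul measurable_id))).aestronglyMeasurable
  · rw [norm_mul, ee_norm, mul_one]
    exact h2 s

lemma bd_int_sq {H : ℝ → ℂ} (h : Bd1 H) : Integrable (fun s => ‖H s‖ ^ 2) := by
  obtain ⟨h1, ⟨B, h2⟩, R, h3⟩ := h
  refine int_bd (B := B ^ 2) (R := R) ?_ (fun s => ?_) (fun s hs => h3 s fun h0 => hs ?_)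
  · exact (h1.norm.pow_const 2).aestronglyMeasurable
  · rw [Real.norm_of_nonneg (by positivity)]
    exact pow_le_pow_left₀ (norm_nonneg _) (h2 s) 2
  · rw [h0, norm_zero]
    norm_num

lemma enorm_sq (z : ℂ) : ‖z‖ₑ ^ 2 = ENNReal.ofReal (‖z‖ ^ 2) := by
  rw [← ofReal_norm, ENNReal.ofReal_pow (norm_nonneg _)]

lemma n1_eq {H : ℝ → ℂ} (h : Bd1 H) : n1 H = ENNReal.ofReal (∫ s, ‖H s‖ ^ 2) := by
  unfold n1
  rw [ofReal_integral_eq_lintegral_ofReal (bd_int_sq h) (ae_of_all _ fun s => by positivity)]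
  simp only [enorm_sq]

/-! ### Selected sums -/

open Classical in
/-- Sum of the selected functions. -/
noncomputable def sel (G : ℕ → ℝ → ℂ) (q : ℕ) (p : ℕ → ℝ → Prop) (s : ℝ) : ℂ :=
  ∑ k ∈ Finset.range q, if p k s then G k s else 0

/-- Support in `[0, 1/2)`. -/
def Su (g : ℝ → ℂ) : Prop := ∀ s, g s ≠ 0 → 0 ≤ s ∧ s < 1 / 2

lemma sel_supp {G : ℕ → ℝ → ℂ} (hsu : ∀ k, Su (G k)) (q : ℕ) (p : ℕ → ℝ → Prop) :
    Su (sel G q p) := by
  intro s hs
  obtain ⟨k, -, hk⟩ := Finset.exists_ne_zero_of_sum_ne_zero hs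
  refine hsu k s fun h0 => hk ?_
  rw [h0, ite_self]

lemma sel_bd {G : ℕ → ℝ → ℂ} (hG : ∀ k, Bd1 (G k)) (hsu : ∀ k, Su (G k)) (q : ℕ)
    {p : ℕ → ℝ → Prop} (hp : ∀ k, MeasurableSet {s | p k s}) : Bd1 (sel G q p) := by
  classical
  choose B hB using fun k => (hG k).2.1
  refine ⟨?_, ⟨∑ k ∈ Finset.range q, B k, fun s => ?_⟩, 1 / 2, fun s hs => ?_⟩
  · unfold sel
    refine Finset.measurable_sum _ fun k _ => ?_
    exact Measurable.ite (hp k) (hG k).1 measurable_const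
  · refine (norm_sum_le _ _).trans (Finset.sum_le_sum fun k _ => ?_)
    split_ifs
    · exact hB k s
    · rw [norm_zero]
      exact (norm_nonneg _).trans (hB k s)
  · obtain ⟨h1, h2⟩ := sel_supp hsu q p s hs
    rw [abs_of_nonneg h1]
    exact h2.le

lemma norm_sum_sq {q : ℕ} {x : ℕ → ℂ} (h : ∀ k k', k ≠ k' → x k = 0 ∨ x k' = 0) :
    ‖∑ k ∈ Finset.range q, x k‖ ^ 2 = ∑ k ∈ Finset.range q, ‖x k‖ ^ 2 := by
  by_cases h0 : ∀ k ∈ Finset.range q, x k = 0
  · rw [Finset.sum_eq_zero h0, norm_zero, Finset.sum_eq_zero]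
    · norm_num
    · intro k hk
      rw [h0 k hk, norm_zero]
      norm_num
  · push Not at h0
    obtain ⟨k, hk, hxk⟩ := h0
    have h1 : ∀ k' ∈ Finset.range q, k' ≠ k → x k' = 0 := by
      intro k' _ hne
      rcases h k' k hne with h2 | h2
      · exact h2
      · exact absurd h2 hxk
    rw [Finset.sum_eq_single_of_mem k hk h1, Finset.sum_eq_single_of_mem k hk]
    intro k' hk' hne
    rw [h1 k' hk' hne, norm_zero]
    norm_num

/-! ### The decomposition -/

/-- The hypotheses of the estimate. -/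
structure Hy (κ : ℕ) (lam : ℕ → ℝ → ℕ) (G : ℕ → ℝ → ℂ) : Prop where
  lm : ∀ k, Measurable (lam k)
  mono : ∀ k s, lam k s ≤ lam (k + 1) s
  le : ∀ k s, lam k s ≤ 2 ^ κ
  bd : ∀ k, Bd1 (G k)
  su : ∀ k, Su (G k)

section

variable {κ : ℕ} {lam : ℕ → ℝ → ℕ} {G : ℕ → ℝ → ℂ}

/-- The frequency `l` is in a block of level `j` contained in the `k`-th interval. -/
def pp (lam : ℕ → ℝ → ℕ) (j l k : ℕ) (s : ℝ) : Prop :=
  inC j (lam k s) (lam (k + 1) s) (l / 2 ^ j)

/-- The block `J` of level `j` is contained in the `k`-th interval, its parent is not. -/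
def pd (lam : ℕ → ℝ → ℕ) (j J k : ℕ) (s : ℝ) : Prop :=
  inC j (lam k s) (lam (k + 1) s) J ∧ ¬ inC (j + 1) (lam k s) (lam (k + 1) s) (J / 2)

/-- The level `j` part of the dual sum. -/
noncomputable def AA (q : ℕ) (lam : ℕ → ℝ → ℕ) (G : ℕ → ℝ → ℂ) (j l : ℕ) : ℂ :=
  ∫ s, sel G q (pp lam j l) s * ee (-(l * s))

/-- The functions of the blocks. -/
noncomputable def gg (q : ℕ) (lam : ℕ → ℝ → ℕ) (G : ℕ → ℝ → ℂ) (j J : ℕ) : ℝ → ℂ :=
  sel G q (pd lam j J)

/-- The differences. -/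
noncomputable def dd (q : ℕ) (lam : ℕ → ℝ → ℕ) (G : ℕ → ℝ → ℂ) (j l : ℕ) : ℂ :=
  ∫ s, gg q lam G j (l / 2 ^ j) s * ee (-(l * s))

lemma meas_inC (H : Hy κ lam G) (j J k : ℕ) :
    MeasurableSet {s | inC j (lam k s) (lam (k + 1) s) J} := by
  have h : Measurable (fun s => (lam k s, lam (k + 1) s)) := (H.lm k).prodMk (H.lm (k + 1))
  exact h (MeasurableSet.of_discrete (s := {x : ℕ × ℕ | inC j x.1 x.2 J}))

lemma meas_pp (H : Hy κ lam G) (j l k : ℕ) : MeasurableSet {s | pp lam j l k s} :=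
  meas_inC H _ _ _

lemma meas_pd (H : Hy κ lam G) (j J k : ℕ) : MeasurableSet {s | pd lam j J k s} :=
  (meas_inC H _ _ _).inter (meas_inC H _ _ _).compl

lemma gg_bd (H : Hy κ lam G) (q j J : ℕ) : Bd1 (gg q lam G j J) :=
  sel_bd H.bd H.su q (meas_pd H j J)

lemma gg_su (H : Hy κ lam G) (q j J : ℕ) : Su (gg q lam G j J) := sel_supp H.su q _

lemma sel_add (q j l : ℕ) (s : ℝ) : sel G q (pp lam j l) s =
    sel G q (pp lam (j + 1) l) s + gg q lam G j (l / 2 ^ j) s := by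
  classical
  unfold gg sel
  rw [← Finset.sum_add_distrib]
  refine Finset.sum_congr rfl fun k _ => ?_
  have e : l / 2 ^ (j + 1) = l / 2 ^ j / 2 := by
    rw [Nat.div_div_eq_div_mul, pow_succ]
  unfold pp pd
  rw [e]
  by_cases h1 : inC (j + 1) (lam k s) (lam (k + 1) s) (l / 2 ^ j / 2)
  · have h2 := inC_child h1
    simp [h1, h2]
  · by_cases h2 : inC j (lam k s) (lam (k + 1) s) (l / 2 ^ j)
    · simp [h1, h2]
    · simp [h1, h2]

lemma AA_eq (H : Hy κ lam G) (q j l : ℕ) :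
    AA q lam G j l = dd q lam G j l + AA q lam G (j + 1) l := by
  unfold AA dd
  have i1 : Integrable (fun s : ℝ => gg q lam G j (l / 2 ^ j) s * ee (-(l * s))) := by
    have := bd_int_ee (gg_bd H q j (l / 2 ^ j)) (-(l : ℝ))
    simpa only [neg_mul] using this
  have i2 : Integrable (fun s : ℝ => sel G q (pp lam (j + 1) l) s * ee (-(l * s))) := by
    have := bd_int_ee (sel_bd H.bd H.su q (meas_pp H (j + 1) l)) (-(l : ℝ))
    simpa only [neg_mul] using this
  rw [← integral_add i1 i2]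
  refine integral_congr_ae (ae_of_all _ fun s => ?_)
  dsimp only
  rw [sel_add q j l s]
  ring

lemma AA_top (H : Hy κ lam G) (q l : ℕ) : AA q lam G (κ + 1) l = 0 := by
  classical
  unfold AA
  have : ∀ s, sel G q (pp lam (κ + 1) l) s = 0 := by
    intro s
    unfold sel
    refine Finset.sum_eq_zero fun k _ => ?_
    rw [if_neg]
    exact inC_top (H.le (k + 1) s)
  simp only [this, zero_mul, integral_zero]

/-- The energy. -/
noncomputable def EE (q : ℕ) (G : ℕ → ℝ → ℂ) : ℝ := ∑ k ∈ Finset.range q, ∫ s, ‖G k s‖ ^ 2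

lemma EE_nonneg (q : ℕ) (G : ℕ → ℝ → ℂ) : 0 ≤ EE q G :=
  Finset.sum_nonneg fun k _ => integral_nonneg fun s => by positivity

lemma EE_eq (H : Hy κ lam G) (q : ℕ) : EE q G = ∫ s, ∑ k ∈ Finset.range q, ‖G k s‖ ^ 2 := by
  unfold EE
  rw [integral_finsetSum]
  intro k _
  exact bd_int_sq (H.bd k)

lemma mono_le (H : Hy κ lam G) {k k' : ℕ} (h : k ≤ k') (s : ℝ) : lam k s ≤ lam k' s :=
  monotone_nat_of_le_succ (f := fun k => lam k s) (fun k => H.mono k s) h

open Classical in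
lemma gg_sq (H : Hy κ lam G) (q j J : ℕ) (s : ℝ) : ‖gg q lam G j J s‖ ^ 2 =
    ∑ k ∈ Finset.range q, if pd lam j J k s then ‖G k s‖ ^ 2 else 0 := by
  unfold gg sel
  rw [norm_sum_sq]
  · refine Finset.sum_congr rfl fun k _ => ?_
    split_ifs
    · rfl
    · rw [norm_zero]
      norm_num
  · have hdis : ∀ k k', k < k' → ¬ (pd lam j J k s ∧ pd lam j J k' s) := by
      rintro k k' hk ⟨h1, h2⟩
      exact inC_disj (mono_le H (show k + 1 ≤ k' from hk) s) h1.1 h2.1
    intro k k' hne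
    rcases lt_or_gt_of_ne hne with h | h
    · by_cases h1 : pd lam j J k s
      · right
        rw [if_neg fun h2 => hdis k k' h ⟨h1, h2⟩]
      · left
        rw [if_neg h1]
    · by_cases h1 : pd lam j J k s
      · right
        rw [if_neg fun h2 => hdis k' k h ⟨h2, h1⟩]
      · left
        rw [if_neg h1]

open Classical in
lemma card_pd (lam : ℕ → ℝ → ℕ) (j k : ℕ) (s : ℝ) (S : Finset ℕ) :
    (S.filter (fun J => pd lam j J k s)).card ≤ 2 := by
  have h := card_diff j (lam k s) (lam (k + 1) s) S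
  unfold pd
  convert h

lemma gg_sum_pt (H : Hy κ lam G) (q j : ℕ) (S : Finset ℕ) (s : ℝ) :
    ∑ J ∈ S, ‖gg q lam G j J s‖ ^ 2 ≤ 2 * ∑ k ∈ Finset.range q, ‖G k s‖ ^ 2 := by
  classical
  simp only [gg_sq H]
  rw [Finset.sum_comm, Finset.mul_sum]
  refine Finset.sum_le_sum fun k _ => ?_
  rw [← Finset.sum_filter, Finset.sum_const, nsmul_eq_mul]
  have h2 : ((S.filter (fun J => pd lam j J k s)).card : ℝ) ≤ 2 := by
    exact_mod_cast card_pd lam j k s S
  exact mul_le_mul_of_nonneg_right h2 (by positivity)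

lemma gg_sum (H : Hy κ lam G) (q j : ℕ) (S : Finset ℕ) :
    ∑ J ∈ S, ∫ s, ‖gg q lam G j J s‖ ^ 2 ≤ 2 * EE q G := by
  rw [EE_eq H, ← integral_const_mul, ← integral_finsetSum _ fun J _ => bd_int_sq (gg_bd H q j J)]
  refine integral_mono (integrable_finsetSum _ fun J _ => bd_int_sq (gg_bd H q j J)) ?_
    (fun s => gg_sum_pt H q j S s)
  exact (integrable_finsetSum _ fun k _ => bd_int_sq (H.bd k)).const_mul 2

lemma gg_card (q j : ℕ) (s : ℝ) (S : Finset ℕ) :
    (S.filter (fun J => gg q lam G j J s ≠ 0)).card ≤ 2 * q := by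
  classical
  have hsub : S.filter (fun J => gg q lam G j J s ≠ 0) ⊆
      (Finset.range q).biUnion (fun k => S.filter (fun J => pd lam j J k s)) := by
    intro J hJ
    obtain ⟨h1, h2⟩ := Finset.mem_filter.mp hJ
    unfold gg sel at h2
    obtain ⟨k, hk, hne⟩ := Finset.exists_ne_zero_of_sum_ne_zero h2
    rw [Finset.mem_biUnion]
    refine ⟨k, hk, Finset.mem_filter.mpr ⟨h1, ?_⟩⟩
    by_contra hcon
    rw [if_neg hcon] at hne
    exact hne rfl
  refine (Finset.card_le_card hsub).trans (Finset.card_biUnion_le.trans ?_)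
  have : ∀ k ∈ Finset.range q, (S.filter (fun J => pd lam j J k s)).card ≤ 2 :=
    fun k _ => card_pd lam j k s S
  refine (Finset.sum_le_sum this).trans ?_
  rw [Finset.sum_const, Finset.card_range, smul_eq_mul, mul_comm]

lemma dd_sum (hB : tBes) (H : Hy κ lam G) (q j : ℕ) :
    ∑ l ∈ Finset.range (2 ^ κ), ‖dd q lam G j l‖ ^ 2 ≤ 2 * EE q G := by
  have h1 : ∀ l ∈ Finset.range (2 ^ κ), l / 2 ^ j ∈ Finset.range (2 ^ κ) := by
    intro l hl
    rw [Finset.mem_range] at hl ⊢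
    exact lt_of_le_of_lt (Nat.div_le_self _ _) hl
  rw [← Finset.sum_fiberwise_of_maps_to h1]
  refine le_trans (Finset.sum_le_sum fun J _ => ?_) (gg_sum H q j (Finset.range (2 ^ κ)))
  have h2 := hB ((Finset.range (2 ^ κ)).filter (fun l => l / 2 ^ j = J)) (gg q lam G j J)
    (gg_bd H q j J) (gg_su H q j J)
  refine le_trans (le_of_eq ?_) h2
  refine Finset.sum_congr rfl fun l hl => ?_
  unfold dd
  rw [(Finset.mem_filter.mp hl).2]

/-! ### The inner products -/

open Classical in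
/-- The inner sums. -/
noncomputable def TT (κ q : ℕ) (lam : ℕ → ℝ → ℕ) (G : ℕ → ℝ → ℂ) (j k : ℕ) (s : ℝ) : ℂ :=
  ∑ l ∈ Finset.range (2 ^ κ), if pp lam (j + 1) l k s then dd q lam G j l * ee (l * s) else 0

lemma TT_meas (H : Hy κ lam G) (q j k : ℕ) : Measurable (TT κ q lam G j k) := by
  classical
  unfold TT
  refine Finset.measurable_sum _ fun l _ => ?_
  refine Measurable.ite (meas_pp H (j + 1) l k) ?_ measurable_const
  exact measurable_const.mul (ee_cont.measurable.comp (measurable_const.mul measurable_id))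

lemma TT_bound (κ q : ℕ) (lam : ℕ → ℝ → ℕ) (G : ℕ → ℝ → ℂ) (j k : ℕ) (s : ℝ) :
    ‖TT κ q lam G j k s‖ ≤ ∑ l ∈ Finset.range (2 ^ κ), ‖dd q lam G j l‖ := by
  unfold TT
  refine (norm_sum_le _ _).trans (Finset.sum_le_sum fun l _ => ?_)
  split_ifs
  · rw [norm_mul, ee_norm, mul_one]
  · rw [norm_zero]
    exact norm_nonneg _

lemma TT_eq (H : Hy κ lam G) (q j k : ℕ) (s : ℝ) : TT κ q lam G j k s =
    ∑ J ∈ Finset.Ico (mu j (lam k s) (lam (k + 1) s)) (nu j (lam (k + 1) s)),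
      hJ j (gg q lam G j J) J s := by
  classical
  unfold TT
  rw [← Finset.sum_filter]
  have e0 : ∀ l, l / 2 ^ (j + 1) = l / 2 ^ j / 2 := by
    intro l
    rw [Nat.div_div_eq_div_mul, pow_succ]
  have h1 : ∀ l ∈ (Finset.range (2 ^ κ)).filter (fun l => pp lam (j + 1) l k s),
      l / 2 ^ j ∈ Finset.Ico (mu j (lam k s) (lam (k + 1) s)) (nu j (lam (k + 1) s)) := by
    intro l hl
    have h2 := (Finset.mem_filter.mp hl).2
    unfold pp at h2
    rw [e0] at h2
    exact inC_iff.mp h2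
  rw [← Finset.sum_fiberwise_of_maps_to h1]
  refine Finset.sum_congr rfl fun J hJ' => ?_
  unfold hJ
  have hD : 0 < 2 ^ j := by positivity
  have hset : ((Finset.range (2 ^ κ)).filter (fun l => pp lam (j + 1) l k s)).filter
      (fun l => l / 2 ^ j = J) = Finset.Ico (J * 2 ^ j) ((J + 1) * 2 ^ j) := by
    ext l
    rw [Finset.mem_filter, Finset.mem_filter, Finset.mem_range, Finset.mem_Ico]
    have hdiv : l / 2 ^ j = J ↔ J * 2 ^ j ≤ l ∧ l < (J + 1) * 2 ^ j := by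
      constructor
      · rintro rfl
        exact ⟨Nat.div_mul_le_self _ _, by
          rw [← Nat.div_lt_iff_lt_mul hD]
          exact Nat.lt_succ_self _⟩
      · rintro ⟨h3, h4⟩
        exact Nat.div_eq_of_lt_le h3 h4
    constructor
    · rintro ⟨-, h3⟩
      exact hdiv.mp h3
    · intro h3
      have h4 := hdiv.mpr h3
      refine ⟨⟨?_, ?_⟩, h4⟩
      · have h5 : J + 1 ≤ nu j (lam (k + 1) s) := (Finset.mem_Ico.mp hJ').2
        have h6 := Nat.mul_le_mul_right (2 ^ j) h5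
        have h7 := nu_mul_le j (lam (k + 1) s)
        have h8 := H.le (k + 1) s
        omega
      · unfold pp
        rw [e0, h4]
        exact inC_iff.mpr hJ'
  rw [hset]
  refine Finset.sum_congr rfl fun l hl => ?_
  unfold dd
  rw [← hset] at hl
  rw [(Finset.mem_filter.mp hl).2]

lemma inner_eq (H : Hy κ lam G) (q j : ℕ) :
    ∑ l ∈ Finset.range (2 ^ κ), dd q lam G j l * conj (AA q lam G (j + 1) l) =
      ∫ s, ∑ k ∈ Finset.range q, conj (G k s) * TT κ q lam G j k s := by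
  classical
  have e1 : ∀ l : ℕ, dd q lam G j l * conj (AA q lam G (j + 1) l) =
      ∫ s, dd q lam G j l * (conj (sel G q (pp lam (j + 1) l) s) * ee (l * s)) := by
    intro l
    unfold AA
    rw [integral_const_mul, ← integral_conj]
    congr 1
    refine integral_congr_ae (ae_of_all _ fun s => ?_)
    dsimp only
    rw [map_mul, ee_conj, neg_neg]
  simp only [e1]
  rw [← integral_finsetSum]
  · refine integral_congr_ae (ae_of_all _ fun s => ?_)
    dsimp only
    unfold TT sel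
    simp only [map_sum, Finset.mul_sum, Finset.sum_mul]
    rw [Finset.sum_comm]
    refine Finset.sum_congr rfl fun k _ => Finset.sum_congr rfl fun l _ => ?_
    split_ifs
    · ring
    · simp
  · intro l _
    have h1 := bd_int_ee (sel_bd H.bd H.su q (meas_pp H (j + 1) l)) (-(l : ℝ))
    have h2 : Integrable (fun s : ℝ => conj (sel G q (pp lam (j + 1) l) s) * ee (l * s)) := by
      have h3 := (LinearIsometryEquiv.integrable_comp_iff Complex.conjLIE).mpr h1
      refine h3.congr (ae_of_all _ fun s => ?_)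
      show conj (sel G q (pp lam (j + 1) l) s * ee (-(l : ℝ) * s)) = _
      rw [map_mul, ee_conj]
      congr 2
      ring
    exact h2.const_mul _

lemma TT_int (H : Hy κ lam G) (q j : ℕ) :
    Integrable ((Ico (0 : ℝ) (1 / 2)).indicator
      (fun s => ∑ k ∈ Finset.range q, ‖TT κ q lam G j k s‖ ^ 2)) := by
  set B := ∑ l ∈ Finset.range (2 ^ κ), ‖dd q lam G j l‖ with hBdef
  refine int_bd (B := ∑ k ∈ Finset.range q, B ^ 2) (R := 1 / 2) ?_ (fun s => ?_)
    (fun s hs => ?_)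
  · refine Measurable.aestronglyMeasurable ?_
    refine Measurable.indicator ?_ measurableSet_Ico
    exact Finset.measurable_sum _ fun k _ => (TT_meas H q j k).norm.pow_const 2
  · refine (norm_indicator_le_norm_self _ _).trans ?_
    rw [Real.norm_of_nonneg (Finset.sum_nonneg fun k _ => by positivity)]
    refine Finset.sum_le_sum fun k _ => ?_
    exact pow_le_pow_left₀ (norm_nonneg _) (TT_bound κ q lam G j k s) 2
  · have h := mem_of_indicator_ne_zero hs
    rw [abs_of_nonneg h.1]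
    exact h.2.le

lemma sparse_real {C : ℝ≥0} (hS : ∀ (j κ q : ℕ) (g : ℕ → ℝ → ℂ) (μ ν : ℕ → ℝ → ℕ), j ≤ κ →
      (∀ J, Bd1 (g J)) → (∀ J s, g J s ≠ 0 → 0 ≤ s ∧ s < 1 / 2) →
      (∀ s, {J ∈ Finset.range (2 ^ κ) | g J s ≠ 0}.card ≤ 2 * q) →
      (∀ k, Measurable (μ k)) → (∀ k, Measurable (ν k)) → (∀ k s, μ k s ≤ ν k s) →
      (∀ k s, ν k s ≤ μ (k + 1) s) → (∀ k s, ν k s ≤ 2 ^ κ) →
      ∫⁻ s in Ico (0 : ℝ) (1 / 2), ∑ k ∈ Finset.range q,
          ‖∑ J ∈ Finset.Ico (μ k s) (ν k s), hJ j (g J) J s‖ₑ ^ 2 ≤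
        C * ((lg q + lg (κ + 1) : ℕ) : ℝ≥0∞) ^ 2 * ∑ J ∈ Finset.range (2 ^ κ), n1 (g J))
    (H : Hy κ lam G) (q : ℕ) {j : ℕ} (hj : j ≤ κ) :
    ∫ s, (Ico (0 : ℝ) (1 / 2)).indicator
      (fun s => ∑ k ∈ Finset.range q, ‖TT κ q lam G j k s‖ ^ 2) s ≤
      C * ((lg q + lg (κ + 1) : ℕ) : ℝ) ^ 2 * (2 * EE q G) := by
  classical
  have h := hS j κ q (gg q lam G j) (fun k s => mu j (lam k s) (lam (k + 1) s))
    (fun k s => nu j (lam (k + 1) s)) hj (gg_bd H q j) (gg_su H q j)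
    (fun s => by
      refine le_trans (le_of_eq ?_) (gg_card (lam := lam) (G := G) q j s (Finset.range (2 ^ κ)))
      congr!)
    (fun k => (Measurable.of_discrete (f := fun x : ℕ × ℕ => mu j x.1 x.2)).comp
      ((H.lm k).prodMk (H.lm (k + 1))))
    (fun k => (Measurable.of_discrete (f := fun x : ℕ => nu j x)).comp (H.lm (k + 1)))
    (fun k s => mu_le_nu _ _ _) (fun k s => nu_le_mu j (H.mono (k + 1) s))
    (fun k s => (nu_le _ _).trans (H.le _ _))
  simp only [← TT_eq H] at h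
  have e1 : ∑ J ∈ Finset.range (2 ^ κ), n1 (gg q lam G j J) ≤ ENNReal.ofReal (2 * EE q G) := by
    simp only [n1_eq (gg_bd H q j _)]
    rw [← ENNReal.ofReal_sum_of_nonneg fun J _ => integral_nonneg fun s => by positivity]
    exact ENNReal.ofReal_le_ofReal (gg_sum H q j _)
  have h2 : ∫⁻ s in Ico (0 : ℝ) (1 / 2), ∑ k ∈ Finset.range q, ‖TT κ q lam G j k s‖ₑ ^ 2 ≤
      ENNReal.ofReal (C * ((lg q + lg (κ + 1) : ℕ) : ℝ) ^ 2 * (2 * EE q G)) := by
    refine (h.trans (mul_le_mul_right e1 _)).trans (le_of_eq ?_)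
    generalize 2 * EE q G = X
    rw [ENNReal.ofReal_mul (by positivity), ENNReal.ofReal_mul (by positivity),
      ENNReal.ofReal_pow (by positivity), ENNReal.ofReal_natCast, ENNReal.ofReal_coe_nnreal]
  rw [integral_indicator measurableSet_Ico,
    integral_eq_lintegral_of_nonneg_ae
      (ae_of_all _ fun s => Finset.sum_nonneg fun k _ => by positivity)
      ((Finset.measurable_sum _ fun k _ => (TT_meas H q j k).norm.pow_const 2).aestronglyMeasurable)]
  refine ENNReal.toReal_le_of_le_ofReal ?_ (le_trans (le_of_eq ?_) h2)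
  · have := EE_nonneg q G
    positivity
  · refine lintegral_congr fun s => ?_
    rw [ENNReal.ofReal_sum_of_nonneg fun k _ => by positivity]
    simp only [enorm_sq]

lemma lg_pos (n : ℕ) : 1 ≤ lg n := by
  unfold lg
  omega

lemma inner_bound {C : ℝ≥0} {L : ℝ} (hL : 1 ≤ L) (H : Hy κ lam G) (q j : ℕ)
    (hsp : ∫ s, (Ico (0 : ℝ) (1 / 2)).indicator
      (fun s => ∑ k ∈ Finset.range q, ‖TT κ q lam G j k s‖ ^ 2) s ≤ C * L ^ 2 * (2 * EE q G)) :
    ‖∑ l ∈ Finset.range (2 ^ κ), dd q lam G j l * conj (AA q lam G (j + 1) l)‖ ≤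
      (C + 2) * L * EE q G := by
  have hE := EE_nonneg q G
  have hC : (0 : ℝ) ≤ C := C.2
  set c : ℝ := (C + 1) * L with hc
  have hc0 : 0 < c := by positivity
  have hpt : ∀ s, ‖∑ k ∈ Finset.range q, conj (G k s) * TT κ q lam G j k s‖ ≤
      c / 2 * ∑ k ∈ Finset.range q, ‖G k s‖ ^ 2 + 1 / (2 * c) *
        (Ico (0 : ℝ) (1 / 2)).indicator
          (fun s => ∑ k ∈ Finset.range q, ‖TT κ q lam G j k s‖ ^ 2) s := by
    intro s
    by_cases hs : s ∈ Ico (0 : ℝ) (1 / 2)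
    · rw [indicator_of_mem hs, Finset.mul_sum, Finset.mul_sum, ← Finset.sum_add_distrib]
      refine (norm_sum_le _ _).trans (Finset.sum_le_sum fun k _ => ?_)
      rw [norm_mul, RCLike.norm_conj]
      generalize ‖G k s‖ = x
      generalize ‖TT κ q lam G j k s‖ = y
      have h1 : 0 ≤ 1 / (2 * c) * (c * x - y) ^ 2 := by positivity
      have h2 : 1 / (2 * c) * (c * x - y) ^ 2 =
          c / 2 * x ^ 2 + 1 / (2 * c) * y ^ 2 - x * y := by
        field_simp
        ring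
      linarith
    · have h0 : ∀ k, G k s = 0 := by
        intro k
        by_contra hne
        exact hs ⟨(H.su k s hne).1, (H.su k s hne).2⟩
      rw [indicator_of_notMem hs]
      simp [h0]
  rw [inner_eq H]
  refine (norm_integral_le_integral_norm _).trans ?_
  have i1 : Integrable (fun s => c / 2 * ∑ k ∈ Finset.range q, ‖G k s‖ ^ 2) :=
    (integrable_finsetSum _ fun k _ => bd_int_sq (H.bd k)).const_mul _
  have i2 := (TT_int H q j).const_mul (1 / (2 * c))
  calc ∫ s, ‖∑ k ∈ Finset.range q, conj (G k s) * TT κ q lam G j k s‖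
      ≤ ∫ s, (c / 2 * ∑ k ∈ Finset.range q, ‖G k s‖ ^ 2 + 1 / (2 * c) *
        (Ico (0 : ℝ) (1 / 2)).indicator
          (fun s => ∑ k ∈ Finset.range q, ‖TT κ q lam G j k s‖ ^ 2) s) :=
        integral_mono_of_nonneg (ae_of_all _ fun s => norm_nonneg _) (i1.add i2)
          (ae_of_all _ hpt)
    _ = c / 2 * EE q G + 1 / (2 * c) * ∫ s, (Ico (0 : ℝ) (1 / 2)).indicator
          (fun s => ∑ k ∈ Finset.range q, ‖TT κ q lam G j k s‖ ^ 2) s := by
        rw [integral_add i1 i2, integral_const_mul, integral_const_mul, EE_eq H]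
    _ ≤ c / 2 * EE q G + 1 / (2 * c) * (C * L ^ 2 * (2 * EE q G)) := by
        gcongr
    _ = c / 2 * EE q G + C / (C + 1) * (L * EE q G) := by
        rw [hc]
        field_simp
    _ ≤ c / 2 * EE q G + 1 * (L * EE q G) := by
        gcongr
        rw [div_le_one (by positivity)]
        linarith
    _ ≤ (C + 2) * L * EE q G := by
        rw [hc]
        have : 0 ≤ L * EE q G := by positivity
        nlinarith

/-- The square sum of a level. -/
noncomputable def NN (κ q : ℕ) (lam : ℕ → ℝ → ℕ) (G : ℕ → ℝ → ℂ) (j : ℕ) : ℝ :=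
  ∑ l ∈ Finset.range (2 ^ κ), ‖AA q lam G j l‖ ^ 2

lemma norm_add_sq_c (z w : ℂ) : ‖z + w‖ ^ 2 = ‖z‖ ^ 2 + ‖w‖ ^ 2 + 2 * (z * conj w).re := by
  rw [← Complex.normSq_eq_norm_sq, ← Complex.normSq_eq_norm_sq, ← Complex.normSq_eq_norm_sq,
    Complex.normSq_add]

lemma level {C : ℝ≥0} {L : ℝ} (hL : 1 ≤ L) (hB : tBes) (H : Hy κ lam G) (q j : ℕ)
    (hsp : ∫ s, (Ico (0 : ℝ) (1 / 2)).indicator
      (fun s => ∑ k ∈ Finset.range q, ‖TT κ q lam G j k s‖ ^ 2) s ≤ C * L ^ 2 * (2 * EE q G)) :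
    NN κ q lam G j ≤ NN κ q lam G (j + 1) + (2 * C + 6) * L * EE q G := by
  have hE := EE_nonneg q G
  have h1 := dd_sum hB H q j
  have h2 := inner_bound hL H q j hsp
  have h3 : NN κ q lam G j = ∑ l ∈ Finset.range (2 ^ κ), ‖dd q lam G j l‖ ^ 2 +
      NN κ q lam G (j + 1) + 2 *
        (∑ l ∈ Finset.range (2 ^ κ), dd q lam G j l * conj (AA q lam G (j + 1) l)).re := by
    unfold NN
    rw [Complex.re_sum, Finset.mul_sum, ← Finset.sum_add_distrib, ← Finset.sum_add_distrib]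
    refine Finset.sum_congr rfl fun l _ => ?_
    rw [AA_eq H q j l, norm_add_sq_c]
  have h4 := Complex.re_le_norm
    (∑ l ∈ Finset.range (2 ^ κ), dd q lam G j l * conj (AA q lam G (j + 1) l))
  have h5 : EE q G ≤ L * EE q G := by nlinarith
  rw [h3]
  nlinarith

lemma final {C : ℝ≥0} {L : ℝ} (hL : 1 ≤ L) (hB : tBes) (H : Hy κ lam G) (q : ℕ)
    (hsp : ∀ j ≤ κ, ∫ s, (Ico (0 : ℝ) (1 / 2)).indicator
      (fun s => ∑ k ∈ Finset.range q, ‖TT κ q lam G j k s‖ ^ 2) s ≤ C * L ^ 2 * (2 * EE q G)) :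
    NN κ q lam G 0 ≤ (2 * C + 6) * (κ + 1) * L * EE q G := by
  have h : ∀ j ≤ κ + 1, NN κ q lam G 0 ≤ NN κ q lam G j + j * ((2 * C + 6) * L * EE q G) := by
    intro j
    induction j with
    | zero => intro _; simp
    | succ j ih =>
      intro hj
      have h1 := ih (by omega)
      have h2 := level hL hB H q j (hsp j (by omega))
      push_cast
      linarith
  have h1 := h (κ + 1) le_rfl
  have h2 : NN κ q lam G (κ + 1) = 0 := by
    unfold NN
    refine Finset.sum_eq_zero fun l _ => ?_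
    rw [AA_top H, norm_zero]
    norm_num
  rw [h2] at h1
  push_cast at h1
  linarith

end

end DT_

/-- S5: dual estimate on the circle. -/
theorem pDT (hS : tSparse) (hB : tBes) : tDT := by
  classical
  obtain ⟨C, hC⟩ := hS
  refine ⟨2 * C + 6, fun κ q lam G h1 h2 h3 h4 h5 => ?_⟩
  have H : DT_.Hy κ lam G := ⟨h1, h2, h3, h4, h5⟩
  set Ln : ℕ := lg q + lg (κ + 1) with hLn
  have hL : (1 : ℝ) ≤ (Ln : ℝ) := by
    have : 1 ≤ Ln := by
      have := DT_.lg_pos q
      omega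
    exact_mod_cast this
  have hf := DT_.final hL hB H q (fun j hj => DT_.sparse_real hC H q hj)
  have e1 : ∀ l : ℕ, ∫ s, (∑ k ∈ Finset.range q,
      if lam k s ≤ l ∧ l < lam (k + 1) s then G k s else 0) * ee (-(l * s)) =
      DT_.AA q lam G 0 l := by
    intro l
    unfold DT_.AA DT_.sel
    refine integral_congr_ae (ae_of_all _ fun s => ?_)
    dsimp only
    congr 1
    refine Finset.sum_congr rfl fun k _ => ?_
    have : DT_.pp lam 0 l k s ↔ lam k s ≤ l ∧ l < lam (k + 1) s := by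
      unfold DT_.pp
      rw [pow_zero, Nat.div_one]
      exact DT_.inC_zero
    exact if_congr this.symm rfl rfl
  have e2 : ∑ k ∈ Finset.range q, n1 (G k) = ENNReal.ofReal (DT_.EE q G) := by
    simp only [DT_.n1_eq (h4 _)]
    unfold DT_.EE
    rw [ENNReal.ofReal_sum_of_nonneg fun k _ => integral_nonneg fun s => by positivity]
  simp only [e1]
  rw [e2]
  have e3 : ∑ l ∈ Finset.range (2 ^ κ), ‖DT_.AA q lam G 0 l‖ₑ ^ 2 =
      ENNReal.ofReal (DT_.NN κ q lam G 0) := by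
    unfold DT_.NN
    rw [ENNReal.ofReal_sum_of_nonneg fun l _ => by positivity]
    simp only [DT_.enorm_sq]
  rw [e3]
  refine (ENNReal.ofReal_le_ofReal hf).trans (le_of_eq ?_)
  have hC0 : (0 : ℝ) ≤ C := C.2
  rw [ENNReal.ofReal_mul (by positivity), ENNReal.ofReal_mul (by positivity),
    ENNReal.ofReal_mul (by positivity), ENNReal.ofReal_natCast]
  have e4 : ENNReal.ofReal (2 * (C : ℝ) + 6) = ((2 * C + 6 : ℝ≥0) : ℝ≥0∞) := by
    rw [ENNReal.ofReal, Real.toNNReal_of_nonneg (by positivity)]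
    congr 1
  have e5 : ENNReal.ofReal ((κ : ℝ) + 1) = ((κ + 1 : ℕ) : ℝ≥0∞) := by
    rw [← ENNReal.ofReal_natCast]
    push_cast
    rfl
  rw [e4, e5]

end Pool.Agent.KSP
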