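import Pool.Agent.KSP.Targets

set_option autoImplicit false

/-! Hilbert-Schmidt bound for a bilinear form with a weight. -/

namespace Pool.Agent.KSP

open MeasureTheory Set
open scoped ENNReal NNReal ComplexConjugate

namespace HS_

lemma ee_add (s t : ℝ) : ee (s + t) = ee s * ee t := by
  unfold ee
  rw [← Complex.exp_add]
  congr 1
  push_cast
  ring

lemma norm_ee (t : ℝ) : ‖ee t‖ = 1 := by
  unfold ee
  have h : 2 * (Real.pi : ℂ) * Complex.I * (t : ℂ) = ((2 * Real.pi * t : ℝ) : ℂ) * Complex.I := by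
    push_cast; ring
  rw [h, Complex.norm_exp_ofReal_mul_I]

lemma conj_ee (t : ℝ) : conj (ee t) = ee (-t) := by
  unfold ee
  rw [← Complex.exp_conj]
  congr 1
  simp only [map_mul, Complex.conj_ofReal, Complex.conj_I, map_ofNat]
  push_cast
  ring

lemma cont_ee : Continuous ee := by
  unfold ee
  fun_prop

lemma cont_dot : Continuous fun p : (ℝ × ℝ) × (ℝ × ℝ) => dot p.1 p.2 := by
  unfold dot
  fun_prop

/-- bounded functions of bounded support are integrable -/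
lemma Bd_int {h : ℝ × ℝ → ℂ} (hh : Bd h) : Integrable h := by
  obtain ⟨hm, ⟨B, hB⟩, R, hR⟩ := hh
  have hS : MeasurableSet (Icc (-R) R ×ˢ Icc (-R) R : Set (ℝ × ℝ)) :=
    measurableSet_Icc.prod measurableSet_Icc
  have hfin : volume (Icc (-R) R ×ˢ Icc (-R) R : Set (ℝ × ℝ)) < ⊤ := by
    have hc : IsCompact (Icc (-R) R ×ˢ Icc (-R) R : Set (ℝ × ℝ)) :=
      isCompact_Icc.prod isCompact_Icc
    exact hc.measure_lt_top
  have hon : IntegrableOn h (Icc (-R) R ×ˢ Icc (-R) R) := by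
    refine Measure.integrableOn_of_bounded hfin.ne hm.aestronglyMeasurable (M := B) ?_
    exact Filter.Eventually.of_forall hB
  rw [← integrableOn_iff_integrable_of_support_subset (s := Icc (-R) R ×ˢ Icc (-R) R)]
  · exact hon
  · intro ξ hξ
    have := hR ξ hξ
    rw [abs_le, abs_le] at this
    exact ⟨⟨this.1.1, this.1.2⟩, ⟨this.2.1, this.2.2⟩⟩

lemma Ex_meas {w : ℝ × ℝ → ℂ} (hw : Measurable w) : Measurable (Ex w) := by
  have hm : Measurable fun p : (ℝ × ℝ) × (ℝ × ℝ) => w p.2 * ee (dot p.1 p.2) :=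
    (hw.comp measurable_snd).mul (cont_ee.comp cont_dot).measurable
  exact (hm.stronglyMeasurable.integral_prod_right' (ν := (volume : Measure (ℝ × ℝ)))).measurable

/-- Cauchy-Schwarz -/
lemma cs {α : Type*} [MeasurableSpace α] (μ : Measure α) (f g : α → ℝ≥0∞)
    (hf : AEMeasurable f μ) (hg : AEMeasurable g μ) :
    (∫⁻ a, f a * g a ∂μ) ^ 2 ≤ (∫⁻ a, f a ^ 2 ∂μ) * ∫⁻ a, g a ^ 2 ∂μ := by
  have h := ENNReal.lintegral_mul_le_Lp_mul_Lq μ Real.HolderConjugate.two_two hf hg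
  have h2 : ∀ x : ℝ≥0∞, (x ^ (1 / (2 : ℝ))) ^ 2 = x := by
    intro x
    rw [← ENNReal.rpow_natCast, ← ENNReal.rpow_mul]
    norm_num
  calc (∫⁻ a, f a * g a ∂μ) ^ 2
      ≤ ((∫⁻ a, f a ^ (2 : ℝ) ∂μ) ^ (1 / (2 : ℝ)) * (∫⁻ a, g a ^ (2 : ℝ) ∂μ) ^ (1 / (2 : ℝ))) ^ 2 :=
        pow_le_pow_left' h 2
    _ = (∫⁻ a, f a ^ (2 : ℝ) ∂μ) * ∫⁻ a, g a ^ (2 : ℝ) ∂μ := by
        rw [mul_pow, h2, h2]
    _ = (∫⁻ a, f a ^ 2 ∂μ) * ∫⁻ a, g a ^ 2 ∂μ := by
        simp only [ENNReal.rpow_ofNat]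

/-- the phase of the triple integrand -/
noncomputable def ph (q : (ℝ × ℝ) × ((ℝ × ℝ) × (ℝ × ℝ))) : ℂ :=
  ee (dot q.1 q.2.1) * ee (-(dot q.1 q.2.2))

lemma cont_ph : Continuous ph := by
  unfold ph
  refine (cont_ee.comp ?_).mul (cont_ee.comp ?_)
  · unfold dot; fun_prop
  · unfold dot; fun_prop

lemma norm_ph (q) : ‖ph q‖ = 1 := by
  unfold ph
  rw [norm_mul, norm_ee, norm_ee, mul_one]

lemma ph_eq (x : ℝ × ℝ) (p : (ℝ × ℝ) × (ℝ × ℝ)) : ph (x, p) = ee (dot (p.1 - p.2) x) := by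
  unfold ph
  rw [← ee_add]
  congr 1
  unfold dot
  simp only [Prod.fst_sub, Prod.snd_sub]
  ring

/-- the form as a double integral -/
lemma form_eq {u v w : ℝ × ℝ → ℂ} (hu : Bd u) (hv : Bd v) (hw : Bd w) :
    ∫ x, w x * (Ex u x * conj (Ex v x)) =
      ∫ p : (ℝ × ℝ) × (ℝ × ℝ), u p.1 * conj (v p.2) * Ex w (p.1 - p.2) := by
  have hui := Bd_int hu
  have hvi := Bd_int hv
  have hwi := Bd_int hw
  have hvc : Integrable fun ξ => conj (v ξ) := by
    refine hvi.congr' ?_ ?_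
    · exact (Complex.continuous_conj.measurable.comp hv.1).aestronglyMeasurable
    · exact Filter.Eventually.of_forall fun ξ => (RCLike.norm_conj _).symm
  have hint : Integrable (fun q : (ℝ × ℝ) × ((ℝ × ℝ) × (ℝ × ℝ)) =>
      w q.1 * (u q.2.1 * conj (v q.2.2)) * ph q)
      ((volume : Measure (ℝ × ℝ)).prod volume) := by
    refine Integrable.mul_bdd (c := 1) ?_ cont_ph.aestronglyMeasurable ?_
    · exact hwi.mul_prod (hui.mul_prod hvc)
    · exact Filter.Eventually.of_forall fun p => (norm_ph _).le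
  have e1 : ∀ x, w x * (Ex u x * conj (Ex v x)) =
      ∫ p : (ℝ × ℝ) × (ℝ × ℝ), w x * (u p.1 * conj (v p.2)) * ph (x, p) := by
    intro x
    have c1 : conj (Ex v x) = ∫ ζ, conj (v ζ) * ee (-(dot x ζ)) := by
      unfold Ex
      rw [← integral_conj]
      refine integral_congr_ae (Filter.Eventually.of_forall fun ζ => ?_)
      show conj (v ζ * ee (dot x ζ)) = conj (v ζ) * ee (-(dot x ζ))
      rw [map_mul, conj_ee]
    rw [c1]
    unfold Ex
    rw [← integral_prod_mul, ← integral_const_mul]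
    refine integral_congr_ae (Filter.Eventually.of_forall fun p => ?_)
    show w x * (u p.1 * ee (dot x p.1) * (conj (v p.2) * ee (-(dot x p.2)))) =
      w x * (u p.1 * conj (v p.2)) * ph (x, p)
    unfold ph
    ring
  simp_rw [e1]
  rw [integral_integral_swap hint]
  refine integral_congr_ae (Filter.Eventually.of_forall fun p => ?_)
  show ∫ x, w x * (u p.1 * conj (v p.2)) * ph (x, p) = u p.1 * conj (v p.2) * Ex w (p.1 - p.2)
  unfold Ex
  rw [← integral_const_mul]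
  refine integral_congr_ae (Filter.Eventually.of_forall fun x => ?_)
  show w x * (u p.1 * conj (v p.2)) * ph (x, p) =
    u p.1 * conj (v p.2) * (w x * ee (dot (p.1 - p.2) x))
  rw [ph_eq]
  ring

lemma main {u v w : ℝ × ℝ → ℂ} {S S' : Set (ℝ × ℝ)} (hu : Bd u) (hv : Bd v) (hw : Bd w)
    (hS : MeasurableSet S) (hS' : MeasurableSet S') (huS : ∀ ξ, u ξ ≠ 0 → ξ ∈ S)
    (hvS : ∀ ξ, v ξ ≠ 0 → ξ ∈ S') :
    ‖∫ x, w x * (Ex u x * conj (Ex v x))‖ₑ ^ 2 ≤
      n2 u * n2 v * ∫⁻ ζ in S, ∫⁻ ζ' in S', ‖Ex w (ζ - ζ')‖ₑ ^ 2 := by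
  rw [form_eq hu hv hw]
  have mEx := Ex_meas hw.1
  have mE : Measurable fun p : (ℝ × ℝ) × (ℝ × ℝ) => ‖Ex w (p.1 - p.2)‖ₑ :=
    (mEx.comp (measurable_fst.sub measurable_snd)).enorm
  have mU : Measurable fun p : (ℝ × ℝ) × (ℝ × ℝ) => ‖u p.1‖ₑ * ‖v p.2‖ₑ :=
    (hu.1.comp measurable_fst).enorm.mul (hv.1.comp measurable_snd).enorm
  have hSS : MeasurableSet (S ×ˢ S') := hS.prod hS'
  have s1 : ‖∫ p : (ℝ × ℝ) × (ℝ × ℝ), u p.1 * conj (v p.2) * Ex w (p.1 - p.2)‖ₑ ≤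
      ∫⁻ p in S ×ˢ S', ‖u p.1‖ₑ * ‖v p.2‖ₑ * ‖Ex w (p.1 - p.2)‖ₑ := by
    refine (enorm_integral_le_lintegral_enorm _).trans ?_
    rw [← lintegral_indicator hSS]
    refine lintegral_mono fun p => ?_
    by_cases hp : p ∈ S ×ˢ S'
    · rw [indicator_of_mem hp, enorm_mul, enorm_mul]
      have : ‖conj (v p.2)‖ₑ = ‖v p.2‖ₑ := by
        rw [← ofReal_norm, ← ofReal_norm, RCLike.norm_conj]
      rw [this]
    · rw [indicator_of_notMem hp]
      have h0 : u p.1 = 0 ∨ v p.2 = 0 := by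
        by_contra hcon
        push Not at hcon
        exact hp ⟨huS _ hcon.1, hvS _ hcon.2⟩
      rcases h0 with h0 | h0
      · simp [h0]
      · simp [h0]
  calc ‖∫ p : (ℝ × ℝ) × (ℝ × ℝ), u p.1 * conj (v p.2) * Ex w (p.1 - p.2)‖ₑ ^ 2
      ≤ (∫⁻ p in S ×ˢ S', ‖u p.1‖ₑ * ‖v p.2‖ₑ * ‖Ex w (p.1 - p.2)‖ₑ) ^ 2 :=
        pow_le_pow_left' s1 2
    _ ≤ (∫⁻ p in S ×ˢ S', (‖u p.1‖ₑ * ‖v p.2‖ₑ) ^ 2) *
        ∫⁻ p in S ×ˢ S', ‖Ex w (p.1 - p.2)‖ₑ ^ 2 :=
        cs _ _ _ mU.aemeasurable mE.aemeasurable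
    _ ≤ (n2 u * n2 v) * ∫⁻ ζ in S, ∫⁻ ζ' in S', ‖Ex w (ζ - ζ')‖ₑ ^ 2 := by
        refine mul_le_mul' ?_ (le_of_eq ?_)
        · refine (setLIntegral_le_lintegral _ _).trans (le_of_eq ?_)
          simp_rw [mul_pow]
          exact lintegral_prod_mul (hu.1.enorm.pow_const 2).aemeasurable
            (hv.1.enorm.pow_const 2).aemeasurable
        · have e : (volume : Measure ((ℝ × ℝ) × (ℝ × ℝ))).restrict (S ×ˢ S') =
              (volume.restrict S).prod (volume.restrict S') :=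
            (Measure.prod_restrict S S').symm
          rw [e, lintegral_prod _ (mE.pow_const 2).aemeasurable]

end HS_

open HS_ in
theorem pHS : tHS := fun _ _ _ _ _ hu hv hw hS hS' h1 h2 => main hu hv hw hS hS' h1 h2

end Pool.Agent.KSP
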