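import Pool.Agent.KSP.Targets

set_option autoImplicit false

/-! KSP bound for disc partial sums (MP_ee701d_an), S7: the primal estimate on the line (tK1)
from the dual one (tDR). -/

namespace Pool.Agent.KSP

open MeasureTheory Set
open scoped ENNReal NNReal ComplexConjugate

namespace K1_

lemma ee_norm (t : ℝ) : ‖ee t‖ = 1 := by
  unfold ee
  rw [Complex.norm_exp]
  simp

lemma ee_cont : Continuous ee := by
  unfold ee
  fun_prop

lemma ee_conj (t : ℝ) : conj (ee t) = ee (-t) := by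
  unfold ee
  rw [← Complex.exp_conj]
  congr 1
  have h2 : (starRingEnd ℂ) 2 = 2 := Complex.conj_ofNat 2
  simp [h2]

lemma ee_add (s t : ℝ) : ee (s + t) = ee s * ee t := by
  unfold ee
  rw [← Complex.exp_add]
  congr 1
  push_cast
  ring

/-- Cauchy-Schwarz -/
lemma csq (f g : ℝ → ℝ≥0∞) (hf : AEMeasurable f) (hg : AEMeasurable g) :
    (∫⁻ x, f x * g x) ^ 2 ≤ (∫⁻ x, f x ^ 2) * ∫⁻ x, g x ^ 2 := by
  have h := ENNReal.lintegral_mul_le_Lp_mul_Lq volume Real.HolderConjugate.two_two hf hg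
  have h2 : ∀ y : ℝ≥0∞, (y ^ (1 / (2 : ℝ))) ^ 2 = y := by
    intro y
    rw [← ENNReal.rpow_natCast, ← ENNReal.rpow_mul]
    norm_num
  have h3 : ∀ y : ℝ≥0∞, y ^ (2 : ℝ) = y ^ 2 := by
    intro y
    rw [← ENNReal.rpow_natCast]
    norm_num
  calc (∫⁻ x, f x * g x) ^ 2
      ≤ ((∫⁻ x, f x ^ (2 : ℝ)) ^ (1 / (2 : ℝ)) * (∫⁻ x, g x ^ (2 : ℝ)) ^ (1 / (2 : ℝ))) ^ 2 := by
        gcongr
        simpa using h
    _ = (∫⁻ x, f x ^ 2) * ∫⁻ x, g x ^ 2 := by
        rw [mul_pow, h2, h2]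
        simp only [h3]

lemma Bd1.integrable {H : ℝ → ℂ} (h : Bd1 H) : Integrable H := by
  obtain ⟨hm, ⟨B, hB⟩, R, hR⟩ := h
  have hi : IntegrableOn H (Icc (-R) R) := by
    refine Measure.integrableOn_of_bounded (M := B) ?_ hm.aestronglyMeasurable ?_
    · simp
    · exact Filter.Eventually.of_forall hB
  have : H = (Icc (-R) R).indicator H := by
    ext x
    by_cases hx : x ∈ Icc (-R) R
    · rw [indicator_of_mem hx]
    · rw [indicator_of_notMem hx]
      by_contra hne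
      exact hx (abs_le.mp (hR x hne))
  rw [this]
  exact hi.integrable_indicator measurableSet_Icc

/-- the set where `τ` lies in the `k`-th interval -/
def Q (lam : ℕ → ℝ → ℕ) (k : ℕ) : Set (ℝ × ℝ) :=
  {p | (lam k p.1 : ℝ) ≤ p.2 ∧ p.2 < lam (k + 1) p.1}

lemma Q_meas {lam : ℕ → ℝ → ℕ} (h1 : ∀ k, Measurable (lam k)) (k : ℕ) :
    MeasurableSet (Q lam k) := by
  have hc : ∀ k, Measurable (fun p : ℝ × ℝ => (lam k p.1 : ℝ)) := fun k =>
    (measurable_from_top (f := fun n : ℕ => (n : ℝ))).comp ((h1 k).comp measurable_fst)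
  exact (measurableSet_le (hc k) measurable_snd).inter (measurableSet_lt measurable_snd (hc (k + 1)))

/-- integrand of `Ex1 (1 H)` as a function of two variables -/
noncomputable def Ph (lam : ℕ → ℝ → ℕ) (H : ℝ → ℂ) (k : ℕ) (p : ℝ × ℝ) : ℂ :=
  (Q lam k).indicator (fun p => H p.2 * ee (p.1 * p.2)) p

lemma Ph_meas {lam : ℕ → ℝ → ℕ} (h1 : ∀ k, Measurable (lam k)) {H : ℝ → ℂ} (hH : Measurable H)
    (k : ℕ) : Measurable (Ph lam H k) := by
  unfold Ph
  refine Measurable.indicator ?_ (Q_meas h1 k)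
  exact (hH.comp measurable_snd).mul (ee_cont.measurable.comp (measurable_fst.mul measurable_snd))

lemma Ph_norm (lam : ℕ → ℝ → ℕ) (H : ℝ → ℂ) (k : ℕ) (p : ℝ × ℝ) :
    ‖Ph lam H k p‖ ≤ ‖H p.2‖ := by
  unfold Ph
  refine (norm_indicator_le_norm_self _ _).trans ?_
  rw [norm_mul, ee_norm, mul_one]

/-- the function `F_k` -/
noncomputable def F (lam : ℕ → ℝ → ℕ) (H : ℝ → ℂ) (k : ℕ) (s : ℝ) : ℂ :=
  Ex1 ((Ico (lam k s : ℝ) (lam (k + 1) s)).indicator H) s

lemma F_eq (lam : ℕ → ℝ → ℕ) (H : ℝ → ℂ) (k : ℕ) (s : ℝ) :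
    F lam H k s = ∫ τ, Ph lam H k (s, τ) := by
  unfold F Ex1
  congr 1
  ext τ
  unfold Ph
  by_cases hτ : (s, τ) ∈ Q lam k
  · rw [indicator_of_mem hτ, indicator_of_mem (by exact hτ)]
  · rw [indicator_of_notMem hτ, indicator_of_notMem (by exact hτ), zero_mul]

lemma F_meas {lam : ℕ → ℝ → ℕ} (h1 : ∀ k, Measurable (lam k)) {H : ℝ → ℂ} (hH : Measurable H)
    (k : ℕ) : Measurable (F lam H k) := by
  have : F lam H k = fun s => ∫ τ, Ph lam H k (s, τ) := by
    ext s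
    exact F_eq lam H k s
  rw [this]
  exact ((Ph_meas h1 hH k).stronglyMeasurable.integral_prod_right').measurable

lemma F_norm (lam : ℕ → ℝ → ℕ) {H : ℝ → ℂ} (hH : Integrable H) (k : ℕ) (s : ℝ) :
    ‖F lam H k s‖ ≤ ∫ τ, ‖H τ‖ := by
  rw [F_eq]
  refine (norm_integral_le_integral_norm _).trans ?_
  refine integral_mono_of_nonneg (Filter.Eventually.of_forall fun _ => norm_nonneg _) hH.norm
    (Filter.Eventually.of_forall fun τ => Ph_norm lam H k (s, τ))

/-- truncation of `F_k` -/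
noncomputable def G (lam : ℕ → ℝ → ℕ) (H : ℝ → ℂ) (S : ℕ) (k : ℕ) (s : ℝ) : ℂ :=
  (Icc (-(S : ℝ)) S).indicator (F lam H k) s

lemma G_Bd {lam : ℕ → ℝ → ℕ} (h1 : ∀ k, Measurable (lam k)) {H : ℝ → ℂ} (hH : Bd1 H) (S k : ℕ) :
    Bd1 (G lam H S k) := by
  refine ⟨(F_meas h1 hH.1 k).indicator measurableSet_Icc, ⟨∫ τ, ‖H τ‖, fun s => ?_⟩, S, ?_⟩
  · exact (norm_indicator_le_norm_self _ _).trans (F_norm lam (Bd1.integrable hH) k s)
  · intro s hs
    have : s ∈ Icc (-(S : ℝ)) S := by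
      by_contra hne
      exact hs (indicator_of_notMem hne _)
    exact abs_le.mpr this

lemma G_mul (lam : ℕ → ℝ → ℕ) (H : ℝ → ℂ) (S k : ℕ) (s : ℝ) :
    conj (G lam H S k s) * F lam H k s = ((‖G lam H S k s‖ ^ 2 : ℝ) : ℂ) := by
  unfold G
  by_cases hs : s ∈ Icc (-(S : ℝ)) S
  · rw [indicator_of_mem hs, ← Complex.normSq_eq_conj_mul_self, Complex.normSq_eq_norm_sq]
  · rw [indicator_of_notMem hs]
    simp

/-- the dual operator -/
noncomputable def T (lam : ℕ → ℝ → ℕ) (q : ℕ) (g : ℕ → ℝ → ℂ) (τ : ℝ) : ℂ :=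
  ∫ s, (∑ k ∈ Finset.range q,
      if (lam k s : ℝ) ≤ τ ∧ τ < lam (k + 1) s then g k s else 0) * ee (-(τ * s))

lemma T_meas {lam : ℕ → ℝ → ℕ} (h1 : ∀ k, Measurable (lam k)) (q : ℕ) {g : ℕ → ℝ → ℂ}
    (hg : ∀ k, Measurable (g k)) : Measurable (T lam q g) := by
  have hm : Measurable (fun p : ℝ × ℝ => (∑ k ∈ Finset.range q,
      if (lam k p.2 : ℝ) ≤ p.1 ∧ p.1 < lam (k + 1) p.2 then g k p.2 else 0) *
        ee (-(p.1 * p.2))) := by
    refine Measurable.mul ?_ ?_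
    · refine Finset.measurable_sum _ fun k _ => ?_
      refine Measurable.ite ?_ ((hg k).comp measurable_snd) measurable_const
      exact measurable_swap (Q_meas h1 k)
    · exact ee_cont.measurable.comp (measurable_fst.mul measurable_snd).neg
  exact (hm.stronglyMeasurable.integral_prod_right').measurable

lemma T_zero {lam : ℕ → ℝ → ℕ} {κ : ℕ} (h3 : ∀ k s, lam k s ≤ 2 ^ κ) (q : ℕ) (g : ℕ → ℝ → ℂ)
    (τ : ℝ) (hτ : τ ∉ Ico (0 : ℝ) (2 ^ κ)) : T lam q g τ = 0 := by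
  unfold T
  have : ∀ s, (∑ k ∈ Finset.range q,
      if (lam k s : ℝ) ≤ τ ∧ τ < lam (k + 1) s then g k s else 0) * ee (-(τ * s)) = 0 := by
    intro s
    rw [Finset.sum_eq_zero, zero_mul]
    intro k _
    rw [if_neg]
    rintro ⟨ha, hb⟩
    apply hτ
    constructor
    · exact le_trans (Nat.cast_nonneg _) ha
    · refine lt_of_lt_of_le hb ?_
      exact_mod_cast h3 (k + 1) s
  simp only [this]
  simp

/-- Fubini -/
lemma duality {lam : ℕ → ℝ → ℕ} (h1 : ∀ k, Measurable (lam k)) {H : ℝ → ℂ} (hH : Bd1 H)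
    (q : ℕ) {g : ℕ → ℝ → ℂ} (hg : ∀ k, Bd1 (g k)) :
    ∑ k ∈ Finset.range q, ∫ s, conj (g k s) * F lam H k s =
      ∫ τ, H τ * conj (T lam q g τ) := by
  have hint : ∀ k, Integrable (fun p : ℝ × ℝ => conj (g k p.1) * Ph lam H k p)
      (volume.prod volume) := by
    intro k
    have hb : Integrable (fun p : ℝ × ℝ => ‖g k p.1‖ * ‖H p.2‖) (volume.prod volume) :=
      (Bd1.integrable (hg k)).norm.mul_prod (Bd1.integrable hH).norm
    refine hb.mono' ?_ ?_
    · refine Measurable.aestronglyMeasurable ?_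
      exact (Complex.continuous_conj.measurable.comp ((hg k).1.comp measurable_fst)).mul
        (Ph_meas h1 hH.1 k)
    · refine Filter.Eventually.of_forall fun p => ?_
      rw [norm_mul, RCLike.norm_conj]
      exact mul_le_mul_of_nonneg_left (Ph_norm lam H k p) (norm_nonneg _)
  have e1 : ∀ k, ∫ s, conj (g k s) * F lam H k s =
      ∫ p, conj (g k p.1) * Ph lam H k p ∂(volume.prod volume) := by
    intro k
    rw [integral_prod _ (hint k)]
    congr 1
    ext s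
    simp only
    rw [integral_const_mul, F_eq]
  simp only [e1]
  rw [← integral_finsetSum _ (fun k _ => hint k),
    integral_prod_symm _ (integrable_finsetSum _ fun k _ => hint k)]
  congr 1
  ext τ
  unfold T
  rw [← integral_conj, ← integral_const_mul]
  congr 1
  ext s
  rw [map_mul, ee_conj, neg_neg, map_sum, Finset.sum_mul, Finset.mul_sum]
  refine Finset.sum_congr rfl fun k _ => ?_
  unfold Ph
  by_cases h : (s, τ) ∈ Q lam k
  · rw [indicator_of_mem h, if_pos (by exact h)]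
    simp only
    rw [mul_comm τ s]
    ring
  · rw [indicator_of_notMem h, if_neg (by exact h)]
    simp

lemma n1_ofReal {g : ℝ → ℂ} (hg : Bd1 g) : n1 g = ENNReal.ofReal (∫ s, ‖g s‖ ^ 2) := by
  have hi : Integrable (fun s => ‖g s‖ ^ 2) := by
    obtain ⟨B, hB⟩ := hg.2.1
    have h1 := (Bd1.integrable hg).norm.bdd_mul (c := B) (f := fun s => ‖g s‖)
      hg.1.norm.aestronglyMeasurable (Filter.Eventually.of_forall fun x => by simpa using hB x)
    refine h1.congr (Filter.Eventually.of_forall fun x => ?_)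
    simp only
    ring
  rw [ofReal_integral_eq_lintegral_ofReal hi (Filter.Eventually.of_forall fun x => by positivity)]
  unfold n1
  congr 1
  ext s
  rw [ENNReal.ofReal_pow (norm_nonneg _), ofReal_norm]

lemma step {lam : ℕ → ℝ → ℕ} (h1 : ∀ k, Measurable (lam k)) {κ : ℕ}
    (h3 : ∀ k s, lam k s ≤ 2 ^ κ) {H : ℝ → ℂ} (hH : Bd1 H) (q : ℕ) (K : ℝ≥0∞)
    (hD : ∀ g : ℕ → ℝ → ℂ, (∀ k, Bd1 (g k)) →
      ∫⁻ τ in Ico (0 : ℝ) (2 ^ κ), ‖T lam q g τ‖ₑ ^ 2 ≤ K * ∑ k ∈ Finset.range q, n1 (g k))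
    (S : ℕ) : ∑ k ∈ Finset.range q, n1 (G lam H S k) ≤ K * n1 H := by
  set X := ∑ k ∈ Finset.range q, n1 (G lam H S k) with hX
  have hg : ∀ k, Bd1 (G lam H S k) := G_Bd h1 hH S
  have hXr : X = ENNReal.ofReal (∑ k ∈ Finset.range q, ∫ s, ‖G lam H S k s‖ ^ 2) := by
    rw [hX, ENNReal.ofReal_sum_of_nonneg]
    · exact Finset.sum_congr rfl fun k _ => n1_ofReal (hg k)
    · intro k _
      exact integral_nonneg fun s => by positivity
  have hXt : X ≠ ∞ := by
    rw [hXr]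
    exact ENNReal.ofReal_ne_top
  have hXc : X = ‖∫ τ, H τ * conj (T lam q (G lam H S) τ)‖ₑ := by
    rw [← duality h1 hH q hg]
    have e : ∀ k, ∫ s, conj (G lam H S k s) * F lam H k s =
        ((∫ s, ‖G lam H S k s‖ ^ 2 : ℝ) : ℂ) := by
      intro k
      rw [← integral_complex_ofReal]
      congr 1
      ext s
      exact G_mul lam H S k s
    simp only [e]
    rw [← Complex.ofReal_sum, hXr, ← ofReal_norm, Complex.norm_real, Real.norm_eq_abs,
      abs_of_nonneg]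
    exact Finset.sum_nonneg fun k _ => integral_nonneg fun s => by positivity
  have hT : ∫⁻ τ, ‖T lam q (G lam H S) τ‖ₑ ^ 2 ≤ K * X := by
    refine le_trans (le_of_eq ?_) (hD _ hg)
    rw [← lintegral_indicator measurableSet_Ico]
    congr 1
    ext τ
    by_cases hτ : τ ∈ Ico (0 : ℝ) (2 ^ κ)
    · rw [indicator_of_mem hτ]
    · rw [indicator_of_notMem hτ, T_zero h3 q _ τ hτ]
      simp
  have hsq : X ^ 2 ≤ n1 H * (K * X) := by
    calc X ^ 2 ≤ (∫⁻ τ, ‖H τ‖ₑ * ‖T lam q (G lam H S) τ‖ₑ) ^ 2 := by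
          rw [hXc]
          gcongr
          refine (enorm_integral_le_lintegral_enorm _).trans (le_of_eq ?_)
          congr 1
          ext τ
          rw [enorm_mul, RCLike.enorm_conj]
      _ ≤ (∫⁻ τ, ‖H τ‖ₑ ^ 2) * ∫⁻ τ, ‖T lam q (G lam H S) τ‖ₑ ^ 2 :=
          csq _ _ hH.1.enorm.aemeasurable
            (T_meas h1 q fun k => (hg k).1).enorm.aemeasurable
      _ ≤ n1 H * (K * X) := by
          unfold n1
          gcongr
  by_cases h0 : X = 0
  · rw [h0]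
    exact zero_le
  have : X * X ≤ (K * n1 H) * X := by
    calc X * X = X ^ 2 := by ring
      _ ≤ n1 H * (K * X) := hsq
      _ = (K * n1 H) * X := by ring
  exact (ENNReal.mul_le_mul_iff_left h0 hXt).mp this

lemma core {lam : ℕ → ℝ → ℕ} (h1 : ∀ k, Measurable (lam k)) {κ : ℕ}
    (h3 : ∀ k s, lam k s ≤ 2 ^ κ) {H : ℝ → ℂ} (hH : Bd1 H) (q : ℕ) (K : ℝ≥0∞)
    (hD : ∀ g : ℕ → ℝ → ℂ, (∀ k, Bd1 (g k)) →
      ∫⁻ τ in Ico (0 : ℝ) (2 ^ κ), ‖T lam q g τ‖ₑ ^ 2 ≤ K * ∑ k ∈ Finset.range q, n1 (g k)) :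
    ∫⁻ s, ∑ k ∈ Finset.range q, ‖F lam H k s‖ₑ ^ 2 ≤ K * n1 H := by
  have hU : (⋃ S : ℕ, Icc (-(S : ℝ)) S) = univ := by
    ext x
    simp only [mem_iUnion, mem_univ, iff_true]
    obtain ⟨n, hn⟩ := exists_nat_ge |x|
    exact ⟨n, abs_le.mp hn⟩
  have hmono : Monotone fun S : ℕ => Icc (-(S : ℝ)) S := by
    intro S S' h x hx
    have h' : (S : ℝ) ≤ S' := by exact_mod_cast h
    exact ⟨by linarith [hx.1], by linarith [hx.2]⟩
  rw [← setLIntegral_univ, ← hU, setLIntegral_iUnion_of_directed _ hmono.directed_le]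
  refine iSup_le fun S => ?_
  refine le_trans (le_of_eq ?_) (step h1 h3 hH q K hD S)
  rw [lintegral_finsetSum _ fun k _ => (F_meas h1 hH.1 k).enorm.pow_const 2]
  refine Finset.sum_congr rfl fun k _ => ?_
  unfold n1
  rw [← lintegral_indicator measurableSet_Icc]
  congr 1
  ext s
  unfold G
  by_cases hs : s ∈ Icc (-(S : ℝ)) S
  · rw [indicator_of_mem hs, indicator_of_mem hs]
  · rw [indicator_of_notMem hs, indicator_of_notMem hs]
    simp

lemma lint_mul {u : ℝ} (hu : 0 < u) (f : ℝ → ℝ≥0∞) :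
    ∫⁻ x, f x = ENNReal.ofReal u * ∫⁻ x, f (u * x) := by
  have h := Real.smul_map_volume_mul_left (ne_of_gt hu)
  conv_lhs => rw [← h]
  rw [lintegral_smul_measure, abs_of_pos hu, smul_eq_mul,
    (measurableEmbedding_mulLeft₀ (ne_of_gt hu)).lintegral_map]

lemma lint_aff {u : ℝ} (hu : 0 < u) (a : ℝ) (f : ℝ → ℝ≥0∞) :
    ∫⁻ x, f x = ENNReal.ofReal u * ∫⁻ x, f (a + u * x) := by
  rw [← lintegral_add_left_eq_self f a, lint_mul hu]

lemma scale {u : ℝ} (hu : 0 < u) (a : ℝ) (l l' : ℕ) (H : ℝ → ℂ) (s : ℝ) :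
    ‖Ex1 ((Ico (a + u * l) (a + u * l')).indicator H) s‖ₑ =
      ENNReal.ofReal u * ‖Ex1 ((Ico (l : ℝ) l').indicator fun τ => H (a + u * τ)) (u * s)‖ₑ := by
  have key : Ex1 ((Ico (a + u * l) (a + u * l')).indicator H) s =
      (u : ℂ) * (ee (s * a) * Ex1 ((Ico (l : ℝ) l').indicator fun τ => H (a + u * τ)) (u * s)) := by
    unfold Ex1
    rw [← integral_const_mul]
    have hs : ∀ f : ℝ → ℂ, ∫ x, f x = (u : ℂ) * ∫ x, f (a + u * x) := by
      intro f
      rw [← integral_add_left_eq_self f a]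
      have := Measure.integral_comp_mul_left (fun x => f (a + x)) u
      rw [this, abs_of_pos (inv_pos.mpr hu)]
      rw [Complex.real_smul, ← mul_assoc]
      rw [← Complex.ofReal_mul, mul_inv_cancel₀ (ne_of_gt hu)]
      simp
    rw [hs]
    congr 2
    ext τ
    have hmem : a + u * τ ∈ Ico (a + u * l) (a + u * l') ↔ τ ∈ Ico (l : ℝ) l' := by
      simp only [mem_Ico, add_le_add_iff_left, add_lt_add_iff_left, mul_le_mul_iff_right₀ hu,
        mul_lt_mul_iff_right₀ hu]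
    by_cases h : τ ∈ Ico (l : ℝ) l'
    · rw [indicator_of_mem h, indicator_of_mem (hmem.mpr h)]
      rw [mul_add, ee_add]
      have : s * (u * τ) = u * s * τ := by ring
      rw [this]
      ring
    · rw [indicator_of_notMem h, indicator_of_notMem (fun h' => h (hmem.mp h'))]
      simp
  rw [key, enorm_mul, enorm_mul]
  have e1 : ‖(u : ℂ)‖ₑ = ENNReal.ofReal u := by
    rw [← ofReal_norm, Complex.norm_real, Real.norm_eq_abs, abs_of_pos hu]
  have e2 : ‖ee (s * a)‖ₑ = 1 := by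
    rw [← ofReal_norm, ee_norm]
    simp
  rw [e1, e2, one_mul]

end K1_

open K1_

theorem pK1 (hD : tDR) : tK1 := by
  obtain ⟨C, hC⟩ := hD
  refine ⟨C, ?_⟩
  intro κ q lam a u H hu h1 h2 h3 hH
  set K : ℝ≥0∞ := C * ((κ + 1 : ℕ) : ℝ≥0∞) * ((lg q + lg (κ + 1) : ℕ) : ℝ≥0∞) with hK
  set lam' : ℕ → ℝ → ℕ := fun k s => lam k (s / u) with hlam'
  set H' : ℝ → ℂ := fun τ => H (a + u * τ) with hH'
  have h1' : ∀ k, Measurable (lam' k) := fun k => (h1 k).comp (measurable_id.div_const u)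
  have h3' : ∀ k s, lam' k s ≤ 2 ^ κ := fun k s => h3 k _
  have hB' : Bd1 H' := by
    obtain ⟨hm, ⟨B, hB⟩, R, hR⟩ := hH
    refine ⟨?_, ⟨B, fun τ => hB _⟩, (R + |a|) / u, fun τ hτ => ?_⟩
    · exact hm.comp (measurable_const.add (measurable_const.mul measurable_id))
    · have := hR _ hτ
      rw [le_div_iff₀ hu]
      have e : |τ| * u = |(a + u * τ) - a| := by
        rw [add_sub_cancel_left, abs_mul, abs_of_pos hu, mul_comm]
      rw [e]
      exact (abs_sub _ _).trans (by linarith)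
  have hcore := core h1' h3' hB' q K (fun g hg => hC κ q lam' g h1' (fun k s => h2 k _) h3' hg)
  have hn : n1 H = ENNReal.ofReal u * n1 H' := by
    unfold n1
    exact lint_aff hu a _
  have hFs : ∀ k s, ‖Ex1 ((Ico (a + u * lam k s) (a + u * lam (k + 1) s)).indicator H) s‖ₑ =
      ENNReal.ofReal u * ‖F lam' H' k (u * s)‖ₑ := by
    intro k s
    rw [scale hu]
    unfold F
    have : u * s / u = s := by field_simp
    simp only [hlam', this]
    rfl
  calc ∫⁻ s, ∑ k ∈ Finset.range q,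
      ‖Ex1 ((Ico (a + u * lam k s) (a + u * lam (k + 1) s)).indicator H) s‖ₑ ^ 2
      = ∫⁻ s, ENNReal.ofReal u ^ 2 * ∑ k ∈ Finset.range q, ‖F lam' H' k (u * s)‖ₑ ^ 2 := by
        congr 1
        ext s
        rw [Finset.mul_sum]
        refine Finset.sum_congr rfl fun k _ => ?_
        rw [hFs, mul_pow]
    _ = ENNReal.ofReal u ^ 2 * ∫⁻ s, ∑ k ∈ Finset.range q, ‖F lam' H' k (u * s)‖ₑ ^ 2 := by
        rw [lintegral_const_mul' _ _ (ENNReal.pow_ne_top ENNReal.ofReal_ne_top)]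
    _ = ENNReal.ofReal u * ∫⁻ s, ∑ k ∈ Finset.range q, ‖F lam' H' k s‖ₑ ^ 2 := by
        rw [lint_mul hu (fun s => ∑ k ∈ Finset.range q, ‖F lam' H' k s‖ₑ ^ 2)]
        ring
    _ ≤ ENNReal.ofReal u * (K * n1 H') := by gcongr
    _ = K * n1 H := by
        rw [hn]
        ring

end Pool.Agent.KSP
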