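import Pool.Agent.KSP.Targets
import Pool.Agent.KSP.Conv

set_option autoImplicit false

/-! The weighted estimate for an annulus. -/

namespace Pool.Agent.KSP

open MeasureTheory Set
open scoped ENNReal NNReal ComplexConjugate

namespace L_

open Conv_

lemma Bd_ind {h : ℝ × ℝ → ℂ} (hh : Bd h) {S : Set (ℝ × ℝ)} (hS : MeasurableSet S) :
    Bd (S.indicator h) := by
  obtain ⟨hm, ⟨B, hB⟩, R, hR⟩ := hh
  refine ⟨hm.indicator hS, ⟨B, fun ξ => ?_⟩, R, fun ξ hξ => ?_⟩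
  · exact (norm_indicator_le_norm_self _ _).trans (hB ξ)
  · refine hR ξ fun h0 => hξ ?_
    by_cases hx : ξ ∈ S
    · rw [indicator_of_mem hx, h0]
    · rw [indicator_of_notMem hx]

lemma meas_strip (k : ℕ) (p : ℤ) : MeasurableSet {ξ : ℝ × ℝ | ⌊(2 : ℝ) ^ k * ξ.2⌋ = p} := by
  have hm : Measurable fun ξ : ℝ × ℝ => ⌊(2 : ℝ) ^ k * ξ.2⌋ :=
    Int.measurable_floor.comp (measurable_snd.const_mul _)
  exact hm (measurableSet_singleton p)

lemma Bd_str {h : ℝ × ℝ → ℂ} (hh : Bd h) (k : ℕ) (p : ℤ) : Bd (str k p h) :=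
  Bd_ind hh (meas_strip k p)

lemma ker_int {h : ℝ × ℝ → ℂ} (hh : Bd h) (x : ℝ × ℝ) :
    Integrable fun ξ => h ξ * ee (dot x ξ) := by
  refine (Bd_int hh).mul_bdd (c := 1) (cont_ker x).aestronglyMeasurable ?_
  exact Filter.Eventually.of_forall fun p => (norm_ee _).le

lemma Ex_add {u v : ℝ × ℝ → ℂ} (hu : Bd u) (hv : Bd v) (x : ℝ × ℝ) :
    Ex (u + v) x = Ex u x + Ex v x := by
  unfold Ex
  rw [← integral_add (ker_int hu x) (ker_int hv x)]
  refine integral_congr_ae (Filter.Eventually.of_forall fun ξ => ?_)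
  simp only [Pi.add_apply]
  ring

lemma Ex_sum {ι : Type*} (S : Finset ι) {u : ι → ℝ × ℝ → ℂ} (hu : ∀ i, Bd (u i)) (x : ℝ × ℝ) :
    Ex (∑ i ∈ S, u i) x = ∑ i ∈ S, Ex (u i) x := by
  unfold Ex
  rw [← integral_finsetSum _ fun i _ => ker_int (hu i) x]
  refine integral_congr_ae (Filter.Eventually.of_forall fun ξ => ?_)
  simp only [Finset.sum_apply, Finset.sum_mul]

lemma n2_lt_top {u : ℝ × ℝ → ℂ} (hu : Bd u) : n2 u < ⊤ := by
  obtain ⟨hm, ⟨B, hB⟩, R, hR⟩ := hu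
  have hfin : volume (Icc (-R) R ×ˢ Icc (-R) R : Set (ℝ × ℝ)) < ⊤ := by
    have hc : IsCompact (Icc (-R) R ×ˢ Icc (-R) R : Set (ℝ × ℝ)) :=
      isCompact_Icc.prod isCompact_Icc
    exact hc.measure_lt_top
  have hS : MeasurableSet (Icc (-R) R ×ˢ Icc (-R) R : Set (ℝ × ℝ)) :=
    measurableSet_Icc.prod measurableSet_Icc
  have hle : n2 u ≤ ∫⁻ ξ, (Icc (-R) R ×ˢ Icc (-R) R : Set (ℝ × ℝ)).indicator
      (fun _ => ENNReal.ofReal B ^ 2) ξ := by
    refine lintegral_mono fun ξ => ?_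
    by_cases h0 : u ξ = 0
    · rw [h0]; simp
    · have := hR ξ h0
      rw [abs_le, abs_le] at this
      have hmem : ξ ∈ (Icc (-R) R ×ˢ Icc (-R) R : Set (ℝ × ℝ)) :=
        ⟨⟨this.1.1, this.1.2⟩, ⟨this.2.1, this.2.2⟩⟩
      rw [indicator_of_mem hmem]
      gcongr
      rw [← ofReal_norm]
      exact ENNReal.ofReal_le_ofReal (hB ξ)
  refine hle.trans_lt ?_
  rw [lintegral_indicator hS, setLIntegral_const]
  exact ENNReal.mul_lt_top (ENNReal.pow_lt_top ENNReal.ofReal_lt_top) hfin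

lemma Ex_memLp (hPl : tPl2) {u : ℝ × ℝ → ℂ} (hu : Bd u) : MemLp (Ex u) 2 volume := by
  obtain ⟨hc, hn⟩ := hPl u hu
  refine ⟨hc.aestronglyMeasurable, ?_⟩
  rw [eLpNorm_lt_top_iff_lintegral_rpow_enorm_lt_top (by norm_num) (by norm_num)]
  have : ∫⁻ x, ‖Ex u x‖ₑ ^ ((2 : ℝ≥0∞).toReal) = ∫⁻ x, ‖Ex u x‖ₑ ^ 2 := by
    refine lintegral_congr fun x => ?_
    norm_num
  rw [this, hn]
  exact n2_lt_top hu

lemma prod_int (hPl : tPl2) {u v : ℝ × ℝ → ℂ} (hu : Bd u) (hv : Bd v) (E : Set (ℝ × ℝ)) :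
    IntegrableOn (fun x => Ex u x * conj (Ex v x)) E := by
  refine Integrable.integrableOn ?_
  have h1 := Ex_memLp hPl hu
  have h2 : MemLp (fun x => conj (Ex v x)) 2 volume := by
    have := (Ex_memLp hPl hv).star
    exact this
  exact h1.integrable_mul h2

/-- the sesquilinear form -/
noncomputable def I (E : Set (ℝ × ℝ)) (u v : ℝ × ℝ → ℂ) : ℂ := ∫ x in E, Ex u x * conj (Ex v x)

lemma I_sum {ι κ : Type*} (hPl : tPl2) (E : Set (ℝ × ℝ)) (S : Finset ι) (T : Finset κ)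
    {u : ι → ℝ × ℝ → ℂ} {v : κ → ℝ × ℝ → ℂ} (hu : ∀ i, Bd (u i)) (hv : ∀ i, Bd (v i)) :
    I E (∑ i ∈ S, u i) (∑ j ∈ T, v j) = ∑ i ∈ S, ∑ j ∈ T, I E (u i) (v j) := by
  unfold I
  have : ∀ x, Ex (∑ i ∈ S, u i) x * conj (Ex (∑ j ∈ T, v j) x) =
      ∑ i ∈ S, ∑ j ∈ T, Ex (u i) x * conj (Ex (v j) x) := by
    intro x
    rw [Ex_sum S hu, Ex_sum T hv, map_sum, Finset.sum_mul_sum]
  simp_rw [this]
  rw [integral_finsetSum]
  · refine Finset.sum_congr rfl fun i _ => ?_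
    rw [integral_finsetSum]
    exact fun j _ => prod_int hPl (hu i) (hv j) E
  · exact fun i _ => integrable_finsetSum _ fun j _ => prod_int hPl (hu i) (hv j) E

/-- the diagonal values of the form -/
lemma I_self (hPl : tPl2) {u : ℝ × ℝ → ℂ} (hu : Bd u) (E : Set (ℝ × ℝ)) :
    ∫⁻ x in E, ‖Ex u x‖ₑ ^ 2 = ‖I E u u‖ₑ := by
  have h1 : ∀ x, Ex u x * conj (Ex u x) = ((‖Ex u x‖ ^ 2 : ℝ) : ℂ) := by
    intro x
    rw [Complex.mul_conj, Complex.normSq_eq_norm_sq]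
  have h2 : Integrable (fun x => ‖Ex u x‖ ^ 2) (volume.restrict E) :=
    (memLp_two_iff_integrable_sq_norm (Ex_memLp hPl hu).1).1 (Ex_memLp hPl hu) |>.integrableOn
  have h3 : I E u u = ((∫ x in E, ‖Ex u x‖ ^ 2 : ℝ) : ℂ) := by
    unfold I
    simp_rw [h1]
    exact integral_ofReal
  have h4 : 0 ≤ ∫ x in E, ‖Ex u x‖ ^ 2 := integral_nonneg fun x => by positivity
  rw [h3, ← ofReal_norm, Complex.norm_real, Real.norm_of_nonneg h4,
    ofReal_integral_eq_lintegral_ofReal h2 (Filter.Eventually.of_forall fun x => by positivity)]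
  refine lintegral_congr fun x => ?_
  rw [ENNReal.ofReal_pow (norm_nonneg _), ofReal_norm]

lemma I_le (hPl : tPl2) {u v : ℝ × ℝ → ℂ} (hu : Bd u) (hv : Bd v) (E : Set (ℝ × ℝ)) :
    ‖I E u v‖ₑ ≤ ‖I E u u‖ₑ + ‖I E v v‖ₑ := by
  rw [← I_self hPl hu, ← I_self hPl hv]
  have hmu : Measurable fun x => ‖Ex u x‖ₑ ^ 2 := (hPl u hu).1.measurable.enorm.pow_const 2
  rw [← lintegral_add_left hmu]
  unfold I
  refine (enorm_integral_le_lintegral_enorm _).trans (lintegral_mono fun x => ?_)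
  rw [enorm_mul]
  have h1 : ‖conj (Ex v x)‖ₑ = ‖Ex v x‖ₑ := by
    rw [← ofReal_norm, ← ofReal_norm, RCLike.norm_conj]
  rw [h1]
  rcases le_total ‖Ex u x‖ₑ ‖Ex v x‖ₑ with h | h
  · calc ‖Ex u x‖ₑ * ‖Ex v x‖ₑ ≤ ‖Ex v x‖ₑ * ‖Ex v x‖ₑ := by gcongr
      _ = ‖Ex v x‖ₑ ^ 2 := by ring
      _ ≤ _ := le_add_self
  · calc ‖Ex u x‖ₑ * ‖Ex v x‖ₑ ≤ ‖Ex u x‖ₑ * ‖Ex u x‖ₑ := by gcongr
      _ = ‖Ex u x‖ₑ ^ 2 := by ring
      _ ≤ _ := le_self_add

/-! ### Strips -/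

/-- the relevant strips at level `k` -/
noncomputable def P (k : ℕ) : Finset ℤ := Finset.Ico (-(2 ^ (k + 1))) (2 ^ (k + 1))

lemma mem_P (k : ℕ) (p : ℤ) : p ∈ P k ↔ -(2 ^ (k + 1)) ≤ p ∧ p < 2 ^ (k + 1) := by
  unfold P
  rw [Finset.mem_Ico]

lemma floor_half (k : ℕ) (y : ℝ) : ⌊(2 : ℝ) ^ k * y⌋ = ⌊(2 : ℝ) ^ (k + 1) * y⌋ / 2 := by
  have h := Int.floor_div_natCast ((2 : ℝ) ^ (k + 1) * y) 2
  have e : (2 : ℝ) ^ (k + 1) * y / ((2 : ℕ) : ℝ) = 2 ^ k * y := by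
    push_cast
    rw [pow_succ]
    ring
  rw [e] at h
  exact_mod_cast h

lemma str_split (k : ℕ) (p : ℤ) (h : ℝ × ℝ → ℂ) :
    str k p h = ∑ e ∈ Finset.range 2, str (k + 1) (2 * p + (e : ℤ)) h := by
  funext ξ
  rw [Finset.sum_range_succ, Finset.sum_range_one]
  simp only [Pi.add_apply, str, indicator_apply, mem_ofPred_eq, floor_half k ξ.2]
  push_cast
  obtain ⟨m, hm⟩ : ∃ m, m = ⌊(2 : ℝ) ^ (k + 1) * ξ.2⌋ := ⟨_, rfl⟩
  rw [← hm]
  by_cases h1 : m / 2 = p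
  · rw [if_pos h1]
    rcases Int.emod_two_eq_zero_or_one m with h2 | h2
    · rw [if_pos (by omega), if_neg (by omega), add_zero]
    · rw [if_neg (by omega), if_pos (by omega), zero_add]
  · rw [if_neg h1, if_neg (by omega), if_neg (by omega), add_zero]

lemma sum_P {M : Type*} [AddCommMonoid M] (k : ℕ) (G : ℤ → M) :
    ∑ q ∈ P (k + 1), G q = ∑ p ∈ P k, ∑ e ∈ Finset.range 2, G (2 * p + (e : ℤ)) := by
  rw [← Finset.sum_product' (P k) (Finset.range 2) fun p e => G (2 * p + (e : ℤ))]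
  refine Finset.sum_nbij' (fun q => (q / 2, (q % 2).toNat)) (fun pe => 2 * pe.1 + (pe.2 : ℤ))
    ?_ ?_ ?_ ?_ ?_
  · intro q hq
    rw [mem_P] at hq
    rw [Finset.mem_product, mem_P, Finset.mem_range]
    have e1 : (2 : ℤ) ^ (k + 1 + 1) = 2 * 2 ^ (k + 1) := by rw [pow_succ]; ring
    rw [e1] at hq
    simp only
    omega
  · rintro ⟨p, e⟩ hpe
    rw [Finset.mem_product, mem_P, Finset.mem_range] at hpe
    rw [mem_P]
    have e1 : (2 : ℤ) ^ (k + 1 + 1) = 2 * 2 ^ (k + 1) := by rw [pow_succ]; ring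
    rw [e1]
    simp only at hpe ⊢
    omega
  · intro q _
    simp only
    omega
  · rintro ⟨p, e⟩ hpe
    rw [Finset.mem_product, mem_P, Finset.mem_range] at hpe
    simp only at hpe ⊢
    rw [Prod.mk.injEq]
    omega
  · intro q _
    simp only
    congr 1
    omega

/-- near diagonal sum at level `k` -/
noncomputable def SS (E : Set (ℝ × ℝ)) (h : ℝ × ℝ → ℂ) (k : ℕ) : ℂ :=
  ∑ p ∈ P k, ∑ p' ∈ P k, if |p - p'| ≤ 1 then I E (str k p h) (str k p' h) else 0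

/-- pairs at distance 2 or 3 at level `k` -/
noncomputable def WW (E : Set (ℝ × ℝ)) (h : ℝ × ℝ → ℂ) (k : ℕ) : ℝ≥0∞ :=
  ∑ p ∈ P k, ∑ p' ∈ P k, if 2 ≤ |p - p'| ∧ |p - p'| ≤ 3 then
    ‖I E (str k p h) (str k p' h)‖ₑ else 0

lemma SS_eq (hPl : tPl2) (E : Set (ℝ × ℝ)) {h : ℝ × ℝ → ℂ} (hh : Bd h) (k : ℕ) :
    SS E h k = ∑ q ∈ P (k + 1), ∑ q' ∈ P (k + 1), if |q / 2 - q' / 2| ≤ 1 then
      I E (str (k + 1) q h) (str (k + 1) q' h) else 0 := by
  rw [sum_P]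
  unfold SS
  refine Finset.sum_congr rfl fun p _ => ?_
  simp_rw [sum_P]
  rw [Finset.sum_comm]
  refine Finset.sum_congr rfl fun p' _ => ?_
  by_cases h1 : |p - p'| ≤ 1
  · rw [if_pos h1, str_split k p h, str_split k p' h,
      I_sum hPl E (Finset.range 2) (Finset.range 2)
        (u := fun e : ℕ => str (k + 1) (2 * p + (e : ℤ)) h)
        (v := fun e : ℕ => str (k + 1) (2 * p' + (e : ℤ)) h)
        (fun e => Bd_str hh _ _) (fun e => Bd_str hh _ _)]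
    refine Finset.sum_congr rfl fun e he => ?_
    refine Finset.sum_congr rfl fun e' he' => ?_
    rw [Finset.mem_range] at he he'
    rw [show (2 * p + (e : ℤ)) / 2 = p by omega, show (2 * p' + (e' : ℤ)) / 2 = p' by omega,
      if_pos h1]
  · rw [if_neg h1]
    symm
    refine Finset.sum_eq_zero fun e he => ?_
    refine Finset.sum_eq_zero fun e' he' => ?_
    rw [Finset.mem_range] at he he'
    rw [show (2 * p + (e : ℤ)) / 2 = p by omega, show (2 * p' + (e' : ℤ)) / 2 = p' by omega,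
      if_neg h1]

lemma split_le (E : Set (ℝ × ℝ)) (h : ℝ × ℝ → ℂ) (k : ℕ) (R : ℤ → ℤ → Prop)
    [∀ q q', Decidable (R q q')] (h1 : ∀ q q', |q - q'| ≤ 1 → R q q')
    (h3 : ∀ q ∈ P k, ∀ q' ∈ P k, R q q' → |q - q'| ≤ 3) :
    ‖∑ q ∈ P k, ∑ q' ∈ P k, if R q q' then I E (str k q h) (str k q' h) else 0‖ₑ ≤
      ‖SS E h k‖ₑ + WW E h k := by
  have e1 : ∑ q ∈ P k, ∑ q' ∈ P k, (if R q q' then I E (str k q h) (str k q' h) else 0) =
      SS E h k + ∑ q ∈ P k, ∑ q' ∈ P k,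
        (if R q q' ∧ 2 ≤ |q - q'| then I E (str k q h) (str k q' h) else 0) := by
    unfold SS
    rw [← Finset.sum_add_distrib]
    refine Finset.sum_congr rfl fun q _ => ?_
    rw [← Finset.sum_add_distrib]
    refine Finset.sum_congr rfl fun q' _ => ?_
    by_cases a1 : |q - q'| ≤ 1
    · rw [if_pos (h1 q q' a1), if_pos a1, if_neg (fun a2 => by have := a2.2; omega), add_zero]
    · rw [if_neg a1, zero_add]
      by_cases a2 : R q q'
      · rw [if_pos a2, if_pos ⟨a2, by omega⟩]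
      · rw [if_neg a2, if_neg (fun a3 => a2 a3.1)]
  rw [e1]
  refine (enorm_add_le _ _).trans ?_
  gcongr
  refine (enorm_sum_le _ _).trans ?_
  unfold WW
  refine Finset.sum_le_sum fun q hq => ?_
  refine (enorm_sum_le _ _).trans ?_
  refine Finset.sum_le_sum fun q' hq' => ?_
  by_cases a1 : R q q' ∧ 2 ≤ |q - q'|
  · rw [if_pos a1, if_pos ⟨a1.2, h3 q hq q' hq' a1.1⟩]
  · rw [if_neg a1, enorm_zero]
    exact zero_le

lemma SS_step (hPl : tPl2) (E : Set (ℝ × ℝ)) {h : ℝ × ℝ → ℂ} (hh : Bd h) (k : ℕ) :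
    ‖SS E h k‖ₑ ≤ ‖SS E h (k + 1)‖ₑ + WW E h (k + 1) := by
  rw [SS_eq hPl E hh k]
  refine split_le E h (k + 1) (fun q q' => |q / 2 - q' / 2| ≤ 1) ?_ ?_
  · intro q q' h1
    rw [abs_le] at h1 ⊢
    omega
  · intro q _ q' _ h1
    rw [abs_le] at h1 ⊢
    omega

lemma SS_iter (hPl : tPl2) (E : Set (ℝ × ℝ)) {h : ℝ × ℝ → ℂ} (hh : Bd h) (K : ℕ) :
    ‖SS E h 0‖ₑ + WW E h 0 ≤ ‖SS E h K‖ₑ + ∑ k ∈ Finset.range (K + 1), WW E h k := by
  induction K with
  | zero => simp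
  | succ K ih =>
    refine ih.trans ?_
    rw [Finset.sum_range_succ (fun k => WW E h k) (K + 1)]
    calc ‖SS E h K‖ₑ + ∑ k ∈ Finset.range (K + 1), WW E h k ≤
        (‖SS E h (K + 1)‖ₑ + WW E h (K + 1)) + ∑ k ∈ Finset.range (K + 1), WW E h k := by
          gcongr
          exact SS_step hPl E hh K
      _ = _ := by ring

/-- the decomposition at level `0` -/
lemma top_eq {h : ℝ × ℝ → ℂ} (hs : ∀ ξ, h ξ ≠ 0 → |ξ.2| < 2) :
    h = ∑ p ∈ P 0, str 0 p h := by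
  funext ξ
  rw [Finset.sum_apply]
  simp only [str, indicator_apply, mem_ofPred_eq, pow_zero, one_mul]
  rw [Finset.sum_ite_eq]
  by_cases h0 : h ξ = 0
  · rw [h0]; simp
  · rw [if_pos]
    rw [mem_P]
    have h1 := hs ξ h0
    rw [abs_lt] at h1
    constructor
    · rw [Int.le_floor]
      push_cast
      linarith
    · rw [Int.floor_lt]
      push_cast
      linarith

lemma top_le (hPl : tPl2) (E : Set (ℝ × ℝ)) {h : ℝ × ℝ → ℂ} (hh : Bd h)
    (hs : ∀ ξ, h ξ ≠ 0 → |ξ.2| < 2) : ‖I E h h‖ₑ ≤ ‖SS E h 0‖ₑ + WW E h 0 := by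
  have e1 : I E h h = ∑ p ∈ P 0, ∑ p' ∈ P 0, if |p - p'| ≤ 3 then
      I E (str 0 p h) (str 0 p' h) else 0 := by
    conv_lhs => rw [top_eq hs]
    rw [I_sum hPl E (P 0) (P 0) (u := fun p => str 0 p h) (v := fun p => str 0 p h)
      (fun e => Bd_str hh _ _) (fun e => Bd_str hh _ _)]
    refine Finset.sum_congr rfl fun p hp => ?_
    refine Finset.sum_congr rfl fun p' hp' => ?_
    rw [mem_P] at hp hp'
    rw [if_pos]
    rw [abs_le]
    simp only [zero_add, pow_one] at hp hp'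
    omega
  rw [e1]
  refine split_le E h 0 (fun q q' => |q - q'| ≤ 3) ?_ ?_
  · intro q q' h1
    omega
  · intro q _ q' _ h1
    exact h1

/-- counting pairs -/
lemma count (S : Finset ℤ) (N : ℤ → ℝ≥0∞) :
    ∑ q ∈ S, ∑ q' ∈ S, (if |q - q'| ≤ 3 then N q + N q' else 0) ≤ 14 * ∑ q ∈ S, N q := by
  have h1 : ∀ q : ℤ, ∑ q' ∈ S, (if |q - q'| ≤ 3 then N q else 0) ≤ 7 * N q := by
    intro q
    rw [← Finset.sum_filter, Finset.sum_const, nsmul_eq_mul]
    gcongr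
    have h2 : S.filter (fun q' => |q - q'| ≤ 3) ⊆ Finset.Icc (q - 3) (q + 3) := by
      intro q' hq'
      rw [Finset.mem_filter, abs_le] at hq'
      rw [Finset.mem_Icc]
      omega
    have h3 := Finset.card_le_card h2
    rw [Int.card_Icc] at h3
    have h4 : (q + 3 + 1 - (q - 3)).toNat = 7 := by omega
    rw [h4] at h3
    exact_mod_cast h3
  have h2 : ∑ q ∈ S, ∑ q' ∈ S, (if |q - q'| ≤ 3 then N q + N q' else 0) =
      ∑ q ∈ S, ∑ q' ∈ S, (if |q - q'| ≤ 3 then N q else 0) +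
        ∑ q ∈ S, ∑ q' ∈ S, (if |q - q'| ≤ 3 then N q else 0) := by
    have h3 : ∑ q ∈ S, ∑ q' ∈ S, (if |q - q'| ≤ 3 then N q else 0) =
        ∑ q ∈ S, ∑ q' ∈ S, (if |q - q'| ≤ 3 then N q' else 0) := by
      rw [Finset.sum_comm]
      refine Finset.sum_congr rfl fun q _ => Finset.sum_congr rfl fun q' _ => ?_
      rw [abs_sub_comm]
    conv_rhs => rw [h3]
    conv_rhs => arg 1; rw [← h3]
    rw [← Finset.sum_add_distrib]
    refine Finset.sum_congr rfl fun q _ => ?_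
    rw [← Finset.sum_add_distrib]
    refine Finset.sum_congr rfl fun q' _ => ?_
    split_ifs <;> simp
  rw [h2]
  have h3 : ∑ q ∈ S, ∑ q' ∈ S, (if |q - q'| ≤ 3 then N q else 0) ≤ 7 * ∑ q ∈ S, N q := by
    rw [Finset.mul_sum]
    exact Finset.sum_le_sum fun q _ => h1 q
  calc _ ≤ 7 * ∑ q ∈ S, N q + 7 * ∑ q ∈ S, N q := add_le_add h3 h3
    _ = 14 * ∑ q ∈ S, N q := by ring

lemma sum_n2 {h : ℝ × ℝ → ℂ} (hh : Bd h) (k : ℕ) : ∑ p ∈ P k, n2 (str k p h) ≤ n2 h := by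
  unfold n2
  rw [← lintegral_finsetSum _ fun p _ => ((Bd_str hh k p).1.enorm.pow_const 2)]
  refine lintegral_mono fun ξ => ?_
  have : ∀ p, ‖str k p h ξ‖ₑ ^ 2 = if ⌊(2 : ℝ) ^ k * ξ.2⌋ = p then ‖h ξ‖ₑ ^ 2 else 0 := by
    intro p
    simp only [str, indicator_apply, mem_ofPred_eq]
    split_ifs <;> simp
  simp only [this]
  rw [Finset.sum_ite_eq]
  split_ifs
  · exact le_rfl
  · exact zero_le

/-- case of thin annuli -/
lemma main4 (hPl : tPl2) (C : ℝ≥0) (A : ℝ) (hA : 0 < A) (E : Set (ℝ × ℝ)) {h : ℝ × ℝ → ℂ}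
    (hh : Bd h) (K : ℕ) (hs : ∀ ξ, h ξ ≠ 0 → |ξ.2| < 2)
    (hJ : ∀ k ≤ K, ∀ p p' : ℤ, ((2 ≤ |p - p'| ∧ |p - p'| ≤ 3) ∨ (k = K ∧ p = p')) →
      ‖I E (str k p h) (str k p' h)‖ₑ ^ 2 ≤
        C * ENNReal.ofReal (1 / A) * (n2 (str k p h) * n2 (str k p' h))) :
    ∫⁻ x in E, ‖Ex h x‖ₑ ^ 2 ≤
      42 * ((C : ℝ≥0∞) + 1) * ((K + 1 : ℕ) : ℝ≥0∞) * ENNReal.ofReal (1 / √A) * n2 h := by
  obtain ⟨D, hD⟩ : ∃ D : ℝ≥0∞, D = ((C : ℝ≥0∞) + 1) * ENNReal.ofReal (1 / √A) := ⟨_, rfl⟩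
  have hAA : ENNReal.ofReal (1 / A) = ENNReal.ofReal (1 / √A) ^ 2 := by
    rw [← ENNReal.ofReal_pow (by positivity)]
    congr 1
    rw [div_pow, one_pow, Real.sq_sqrt hA.le]
  have hJ' : ∀ k ≤ K, ∀ p p' : ℤ, ((2 ≤ |p - p'| ∧ |p - p'| ≤ 3) ∨ (k = K ∧ p = p')) →
      ‖I E (str k p h) (str k p' h)‖ₑ ≤ D * (n2 (str k p h) + n2 (str k p' h)) := by
    intro k hk p p' hpp
    rw [← ENNReal.pow_le_pow_left_iff two_ne_zero]
    refine (hJ k hk p p' hpp).trans ?_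
    rw [hAA, hD]
    have e1 : (C : ℝ≥0∞) ≤ ((C : ℝ≥0∞) + 1) ^ 2 := by
      calc (C : ℝ≥0∞) ≤ (C : ℝ≥0∞) + ((C : ℝ≥0∞) ^ 2 + C + 1) := le_self_add
        _ = _ := by ring
    calc (C : ℝ≥0∞) * ENNReal.ofReal (1 / √A) ^ 2 * (n2 (str k p h) * n2 (str k p' h)) ≤
        ((C : ℝ≥0∞) + 1) ^ 2 * ENNReal.ofReal (1 / √A) ^ 2 *
          (n2 (str k p h) + n2 (str k p' h)) ^ 2 := by
          gcongr
          calc n2 (str k p h) * n2 (str k p' h) ≤ n2 (str k p h) * n2 (str k p' h) +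
              (n2 (str k p h) ^ 2 + n2 (str k p h) * n2 (str k p' h) + n2 (str k p' h) ^ 2) :=
                le_self_add
            _ = _ := by ring
      _ = _ := by ring
  have hW : ∀ k ≤ K, WW E h k ≤ 14 * D * n2 h := by
    intro k hk
    unfold WW
    calc _ ≤ ∑ p ∈ P k, ∑ p' ∈ P k, (if |p - p'| ≤ 3 then
          D * n2 (str k p h) + D * n2 (str k p' h) else 0) := by
          refine Finset.sum_le_sum fun p _ => Finset.sum_le_sum fun p' _ => ?_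
          by_cases h1 : 2 ≤ |p - p'| ∧ |p - p'| ≤ 3
          · rw [if_pos h1, if_pos h1.2, ← mul_add]
            exact hJ' k hk p p' (Or.inl h1)
          · rw [if_neg h1]
            exact zero_le
      _ ≤ 14 * ∑ q ∈ P k, D * n2 (str k q h) := count (P k) fun q => D * n2 (str k q h)
      _ = 14 * D * ∑ q ∈ P k, n2 (str k q h) := by rw [← Finset.mul_sum]; ring
      _ ≤ 14 * D * n2 h := by gcongr; exact sum_n2 hh k
  have hS : ‖SS E h K‖ₑ ≤ 28 * D * n2 h := by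
    unfold SS
    refine (enorm_sum_le _ _).trans ?_
    calc _ ≤ ∑ p ∈ P K, ∑ p' ∈ P K, (if |p - p'| ≤ 3 then
          2 * D * n2 (str K p h) + 2 * D * n2 (str K p' h) else 0) := by
          refine Finset.sum_le_sum fun p _ => (enorm_sum_le _ _).trans ?_
          refine Finset.sum_le_sum fun p' _ => ?_
          by_cases h1 : |p - p'| ≤ 1
          · rw [if_pos h1, if_pos (by omega)]
            refine (I_le hPl (Bd_str hh K p) (Bd_str hh K p') E).trans ?_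
            have a1 := hJ' K le_rfl p p (Or.inr ⟨rfl, rfl⟩)
            have a2 := hJ' K le_rfl p' p' (Or.inr ⟨rfl, rfl⟩)
            refine (add_le_add a1 a2).trans (le_of_eq ?_)
            ring
          · rw [if_neg h1, enorm_zero]
            exact zero_le
      _ ≤ 14 * ∑ q ∈ P K, 2 * D * n2 (str K q h) := count (P K) fun q => 2 * D * n2 (str K q h)
      _ = 28 * D * ∑ q ∈ P K, n2 (str K q h) := by rw [← Finset.mul_sum]; ring
      _ ≤ 28 * D * n2 h := by gcongr; exact sum_n2 hh K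
  rw [I_self hPl hh E]
  calc ‖I E h h‖ₑ ≤ ‖SS E h 0‖ₑ + WW E h 0 := top_le hPl E hh hs
    _ ≤ ‖SS E h K‖ₑ + ∑ k ∈ Finset.range (K + 1), WW E h k := SS_iter hPl E hh K
    _ ≤ 28 * D * n2 h + ∑ k ∈ Finset.range (K + 1), 14 * D * n2 h := by
        gcongr with k hk
        rw [Finset.mem_range] at hk
        exact hW k (by omega)
    _ = (28 + ((K + 1 : ℕ) : ℝ≥0∞) * 14) * (D * n2 h) := by
        rw [Finset.sum_const, Finset.card_range, nsmul_eq_mul]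
        ring
    _ ≤ (((K + 1 : ℕ) : ℝ≥0∞) * 28 + ((K + 1 : ℕ) : ℝ≥0∞) * 14) * (D * n2 h) := by
        gcongr
        have : (1 : ℝ≥0∞) ≤ ((K + 1 : ℕ) : ℝ≥0∞) := by exact_mod_cast Nat.le_add_left 1 K
        calc (28 : ℝ≥0∞) = 1 * 28 := by ring
          _ ≤ _ := by gcongr
    _ = _ := by rw [hD]; ring

lemma V0_snd {ξ : ℝ × ℝ} (h : ξ ∈ V0) : |ξ.2| < 2 := by
  obtain ⟨_, _, h3⟩ := h
  refine lt_of_le_of_lt ?_ h3
  unfold nr
  rw [← Real.sqrt_sq_eq_abs]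
  exact Real.sqrt_le_sqrt (by nlinarith [sq_nonneg ξ.1])

/-- the case `j ≥ 4` -/
lemma case4 (hPl : tPl2) (C : ℝ≥0)
    (hBL : ∀ (j k : ℕ) (ρ A : ℝ) (p p' : ℤ) (E : Set (ℝ × ℝ))
    (h : ℝ × ℝ → ℂ), 4 ≤ j → k ≤ j / 2 → 1 ≤ ρ → ρ ≤ 2 → 0 < A → MeasurableSet E →
  (∀ y, volume (E ∩ sq y (2 ^ (j / 2))) ≤ ENNReal.ofReal (4 ^ (j / 2) / A)) →
  Bd h → (∀ ξ, h ξ ≠ 0 → ξ ∈ V0 ∧ ξ ∈ ann ρ (ρ + 1 / 2 ^ j)) →
  ((2 ≤ |p - p'| ∧ |p - p'| ≤ 3) ∨ (k = j / 2 ∧ p = p')) →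
  ‖∫ x in E, Ex (str k p h) x * conj (Ex (str k p' h) x)‖ₑ ^ 2 ≤
    C * ENNReal.ofReal (1 / A) * (n2 (str k p h) * n2 (str k p' h)))
    (j : ℕ) (ρ A : ℝ) (E : Set (ℝ × ℝ)) (h : ℝ × ℝ → ℂ) (hj : 4 ≤ j)
    (h1 : 1 ≤ ρ) (h2 : ρ ≤ 2) (hA : 0 < A) (hE : MeasurableSet E)
    (hd : ∀ y, volume (E ∩ sq y (2 ^ (j / 2))) ≤ ENNReal.ofReal (4 ^ (j / 2) / A))
    (hh : Bd h) (hs : ∀ ξ, h ξ ≠ 0 → ξ ∈ V0 ∧ ξ ∈ ann ρ (ρ + 1 / 2 ^ j)) :
    ∫⁻ x in E, ‖Ex h x‖ₑ ^ 2 ≤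
      42 * ((C : ℝ≥0∞) + 1) * ((j + 1 : ℕ) : ℝ≥0∞) * ENNReal.ofReal (1 / √A) * n2 h := by
  refine (main4 hPl C A hA E hh (j / 2) (fun ξ hξ => V0_snd (hs ξ hξ).1) ?_).trans ?_
  · intro k hk p p' hpp
    exact hBL j k ρ A p p' E h hj hk h1 h2 hA hE hd hh hs hpp
  · gcongr
    exact Nat.div_le_self j 2

/-- density in larger squares -/
lemma dens (E : Set (ℝ × ℝ)) (s : ℝ) (n : ℕ) (hs : 0 < s) (hn : n * s = 4) (A : ℝ)
    (hE : ∀ y, volume (E ∩ sq y s) ≤ ENNReal.ofReal (s ^ 2 / A)) (y : ℝ × ℝ) :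
    volume (E ∩ sq y 4) ≤ ENNReal.ofReal (16 / A) := by
  have hsub : E ∩ sq y 4 ⊆ ⋃ a ∈ Finset.range n ×ˢ Finset.range n,
      E ∩ sq (y.1 + a.1 * s, y.2 + a.2 * s) s := by
    rintro x ⟨hxE, hx1, hx2⟩
    have key : ∀ u v : ℝ, v ∈ Ico u (u + 4) → ∃ a ∈ Finset.range n,
        v ∈ Ico (u + a * s) (u + a * s + s) := by
      intro u v hv
      have h0 : 0 ≤ (v - u) / s := div_nonneg (by linarith [hv.1]) hs.le
      refine ⟨⌊(v - u) / s⌋₊, ?_, ?_, ?_⟩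
      · rw [Finset.mem_range, Nat.floor_lt h0, div_lt_iff₀ hs, hn]
        linarith [hv.2]
      · have := Nat.floor_le h0
        rw [le_div_iff₀ hs] at this
        linarith
      · have := Nat.lt_floor_add_one ((v - u) / s)
        rw [div_lt_iff₀ hs] at this
        linarith
    obtain ⟨a, ha, ha'⟩ := key y.1 x.1 hx1
    obtain ⟨b, hb, hb'⟩ := key y.2 x.2 hx2
    simp only [mem_iUnion]
    exact ⟨(a, b), Finset.mk_mem_product ha hb, hxE, ha', hb'⟩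
  refine (measure_mono hsub).trans ((measure_biUnion_finset_le _ _).trans ?_)
  calc _ ≤ ∑ a ∈ Finset.range n ×ˢ Finset.range n, ENNReal.ofReal (s ^ 2 / A) :=
        Finset.sum_le_sum fun a _ => hE _
    _ = ENNReal.ofReal (16 / A) := by
        rw [Finset.sum_const, Finset.card_product, Finset.card_range, nsmul_eq_mul,
          ← ENNReal.ofReal_natCast, ← ENNReal.ofReal_mul (Nat.cast_nonneg _)]
        congr 1
        push_cast
        have : (n : ℝ) * n * (s ^ 2 / A) = (n * s) ^ 2 / A := by ring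
        rw [this, hn]
        norm_num

end L_

open L_ in
theorem pL (hBL : tBL) (hPl : tPl2) : tL := by
  classical
  obtain ⟨C, hC⟩ := hBL
  refine ⟨32 * 16 * 5 * 42 * (C + 1), fun j ρ A E h h1 h2 hA hE hd hh hs => ?_⟩
  by_cases hj : 4 ≤ j
  · refine (case4 hPl C hC j ρ A E h hj h1 h2 hA hE hd hh hs).trans ?_
    push_cast
    gcongr
    calc (42 : ℝ≥0∞) = 1 * 42 := by ring
      _ ≤ 32 * 16 * 5 * 42 := by gcongr; norm_num
  · -- split the annulus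
    have hd4 : ∀ y, volume (E ∩ sq y (2 ^ (4 / 2))) ≤ ENNReal.ofReal (4 ^ (4 / 2) / A) := by
      intro y
      have e1 : (2 : ℝ) ^ (4 / 2) = 4 := by norm_num
      have e2 : (4 : ℝ) ^ (4 / 2) = 16 := by norm_num
      rw [e1, e2]
      have h3 : j / 2 = 0 ∨ j / 2 = 1 := by omega
      rcases h3 with h3 | h3
      · rw [h3] at hd
        exact dens E 1 4 one_pos (by norm_num) A (by simpa using hd) y
      · rw [h3] at hd
        refine dens E 2 2 two_pos (by norm_num) A (fun y => ?_) y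
        have := hd y
        norm_num at this ⊢
        exact this
    obtain ⟨hi, hhi⟩ : ∃ hi : ℕ → ℝ × ℝ → ℂ, hi = fun i : ℕ =>
        (ann (ρ + i / 16) (ρ + i / 16 + 1 / 2 ^ 4)).indicator h := ⟨_, rfl⟩
    have hnr : Measurable nr := by
      unfold nr
      exact ((measurable_fst.pow_const 2).add (measurable_snd.pow_const 2)).sqrt
    have hmann : ∀ a b, MeasurableSet (ann a b) := fun a b =>
      (measurableSet_le measurable_const hnr).inter (measurableSet_lt hnr measurable_const)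
    have hBi : ∀ i, Bd (hi i) := fun i => by rw [hhi]; exact Bd_ind hh (hmann _ _)
    have hsum : h = ∑ i ∈ Finset.range 16, hi i := by
      funext ξ
      rw [Finset.sum_apply, hhi]
      simp only [indicator_apply]
      by_cases h0 : h ξ = 0
      · rw [h0]; simp
      · obtain ⟨_, h3, h4⟩ := hs ξ h0
        have h5 : nr ξ < ρ + 1 := by
          have : (1 : ℝ) / 2 ^ j ≤ 1 := by
            rw [div_le_one (by positivity)]
            exact one_le_pow₀ (by norm_num)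
          linarith
        have h6 : 0 ≤ (nr ξ - ρ) * 16 := by linarith
        have hmem : ∀ i : ℕ, ξ ∈ ann (ρ + i / 16) (ρ + i / 16 + 1 / 2 ^ 4) ↔
            ⌊(nr ξ - ρ) * 16⌋₊ = i := by
          intro i
          rw [Nat.floor_eq_iff h6]
          unfold ann
          simp only [mem_ofPred_eq]
          constructor
          · rintro ⟨a1, a2⟩
            constructor
            · linarith
            · norm_num at a2
              linarith
          · rintro ⟨a1, a2⟩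
            constructor
            · linarith
            · norm_num
              linarith
        simp only [hmem]
        rw [Finset.sum_ite_eq, if_pos]
        rw [Finset.mem_range, Nat.floor_lt h6]
        push_cast
        linarith
    have hI : ‖I E h h‖ₑ ≤ 32 * ∑ i ∈ Finset.range 16, ‖I E (hi i) (hi i)‖ₑ := by
      have e1 : I E h h = ∑ i ∈ Finset.range 16, ∑ i' ∈ Finset.range 16, I E (hi i) (hi i') := by
        conv_lhs => rw [hsum]
        exact I_sum hPl E _ _ hBi hBi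
      rw [e1]
      refine (enorm_sum_le _ _).trans ?_
      calc _ ≤ ∑ i ∈ Finset.range 16, ∑ i' ∈ Finset.range 16,
            (‖I E (hi i) (hi i)‖ₑ + ‖I E (hi i') (hi i')‖ₑ) := by
            refine Finset.sum_le_sum fun i _ => (enorm_sum_le _ _).trans ?_
            exact Finset.sum_le_sum fun i' _ => I_le hPl (hBi i) (hBi i') E
        _ = 32 * ∑ i ∈ Finset.range 16, ‖I E (hi i) (hi i)‖ₑ := by
            have e2 : ∀ i : ℕ, ∑ i' ∈ Finset.range 16,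
                (‖I E (hi i) (hi i)‖ₑ + ‖I E (hi i') (hi i')‖ₑ) =
                16 * ‖I E (hi i) (hi i)‖ₑ + ∑ i' ∈ Finset.range 16, ‖I E (hi i') (hi i')‖ₑ := by
              intro i
              rw [Finset.sum_add_distrib, Finset.sum_const, Finset.card_range, nsmul_eq_mul]
              norm_num
            rw [Finset.sum_congr rfl fun i _ => e2 i, Finset.sum_add_distrib, Finset.sum_const,
              Finset.card_range, nsmul_eq_mul, ← Finset.mul_sum]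
            push_cast
            ring
    have hone : ∀ i ∈ Finset.range 16, ‖I E (hi i) (hi i)‖ₑ ≤
        42 * ((C : ℝ≥0∞) + 1) * ((4 + 1 : ℕ) : ℝ≥0∞) * ENNReal.ofReal (1 / √A) * n2 h := by
      intro i hir
      rw [← I_self hPl (hBi i)]
      have hsi : ∀ ξ, hi i ξ ≠ 0 → ξ ∈ V0 ∧ ξ ∈ ann (ρ + i / 16) (ρ + i / 16 + 1 / 2 ^ 4) := by
        intro ξ hξ
        rw [hhi] at hξ
        simp only [indicator_apply] at hξ
        by_cases hm : ξ ∈ ann (ρ + i / 16) (ρ + i / 16 + 1 / 2 ^ 4)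
        · rw [if_pos hm] at hξ
          exact ⟨(hs ξ hξ).1, hm⟩
        · rw [if_neg hm] at hξ
          exact absurd rfl hξ
      by_cases hρ : ρ + i / 16 ≤ 2
      · have h3 : (1 : ℝ) ≤ ρ + i / 16 := by
          have : (0 : ℝ) ≤ i / 16 := by positivity
          linarith
        refine (case4 hPl C hC 4 (ρ + i / 16) A E (hi i) le_rfl h3 hρ hA hE hd4 (hBi i)
          hsi).trans ?_
        gcongr
        unfold n2
        refine lintegral_mono fun ξ => ?_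
        gcongr
        rw [hhi]
        exact enorm_indicator_le_enorm_self _ _
      · have h0 : hi i = 0 := by
          funext ξ
          by_contra hne
          have a1 := hsi ξ hne
          have a2 := a1.1.2.2
          have a3 := a1.2.1
          linarith
        rw [h0]
        have : ∀ x, Ex 0 x = 0 := by
          intro x
          unfold Ex
          simp
        simp [this]
    rw [I_self hPl hh]
    refine hI.trans ?_
    calc 32 * ∑ i ∈ Finset.range 16, ‖I E (hi i) (hi i)‖ₑ ≤ 32 * ∑ i ∈ Finset.range 16,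
          42 * ((C : ℝ≥0∞) + 1) * ((4 + 1 : ℕ) : ℝ≥0∞) * ENNReal.ofReal (1 / √A) * n2 h := by
          gcongr with i hi'
          exact hone i hi'
      _ = 32 * 16 * 5 * 42 * ((C : ℝ≥0∞) + 1) * 1 * ENNReal.ofReal (1 / √A) * n2 h := by
          rw [Finset.sum_const, Finset.card_range, nsmul_eq_mul]
          push_cast
          ring
      _ ≤ _ := by
          push_cast
          gcongr
          exact le_add_self

end Pool.Agent.KSP
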