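import Pool.Agent.KSP.Conv

set_option autoImplicit false

/-! Almost orthogonality with the weight `|Ex g|²`. -/

namespace Pool.Agent.KSP

open MeasureTheory Set
open scoped ENNReal NNReal ComplexConjugate

namespace OL_

open Conv_ (ee_add norm_ee cont_ee)

/-! ### the abstract inequality -/

lemma re_mul_conj_le (z w : ℂ) : (z * conj w).re ≤ (‖z‖ ^ 2 + ‖w‖ ^ 2) / 2 := by
  have h1 : (z * conj w).re ≤ ‖z * conj w‖ := Complex.re_le_norm _
  have h2 : ‖z * conj w‖ = ‖z‖ * ‖w‖ := by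
    rw [norm_mul, RCLike.norm_conj]
  rw [h2] at h1
  nlinarith [sq_nonneg (‖z‖ - ‖w‖)]

lemma mul_conj_self (z : ℂ) : z * conj z = ((‖z‖ ^ 2 : ℝ) : ℂ) := by
  rw [Complex.mul_conj, Complex.normSq_eq_norm_sq]

lemma normSq_sum {ι : Type*} (S : Finset ι) (a : ι → ℂ) :
    ‖∑ p ∈ S, a p‖ ^ 2 = ∑ p ∈ S, ∑ p' ∈ S, (a p * conj (a p')).re := by
  have h := mul_conj_self (∑ p ∈ S, a p)
  have h2 : ‖∑ p ∈ S, a p‖ ^ 2 = ((∑ p ∈ S, a p) * conj (∑ p ∈ S, a p)).re := by
    rw [h, Complex.ofReal_re]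
  rw [h2, map_sum, Finset.sum_mul_sum, Complex.re_sum]
  refine Finset.sum_congr rfl fun p _ => ?_
  rw [Complex.re_sum]

lemma card_near (S : Finset ℤ) (W : ℕ) (p : ℤ) :
    ((S.filter fun p' => |p - p'| ≤ W).card : ℝ) ≤ 2 * W + 1 := by
  have h1 : (S.filter fun p' => |p - p'| ≤ W) ⊆ Finset.Icc (p - W) (p + W) := by
    intro q hq
    rw [Finset.mem_filter] at hq
    rw [Finset.mem_Icc]
    have := abs_le.1 hq.2
    omega
  have h2 := Finset.card_le_card h1
  rw [Int.card_Icc] at h2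
  have h3 : (p + W + 1 - (p - W)).toNat = 2 * W + 1 := by omega
  rw [h3] at h2
  exact_mod_cast h2

lemma sum_near (S : Finset ℤ) (W : ℕ) (a : ℤ → ℝ) (ha : ∀ p, 0 ≤ a p) :
    ∑ p ∈ S, ∑ p' ∈ S, (if |p - p'| ≤ W then (a p + a p') / 2 else 0) ≤
      (2 * W + 1) * ∑ p ∈ S, a p := by
  have h1 : ∑ p ∈ S, ∑ p' ∈ S, (if |p - p'| ≤ W then a p else 0) ≤
      (2 * W + 1) * ∑ p ∈ S, a p := by
    rw [Finset.mul_sum]
    refine Finset.sum_le_sum fun p _ => ?_
    rw [← Finset.sum_filter, Finset.sum_const, nsmul_eq_mul]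
    exact mul_le_mul_of_nonneg_right (card_near S W p) (ha p)
  have h2 : ∑ p ∈ S, ∑ p' ∈ S, (if |p - p'| ≤ W then a p' else 0) ≤
      (2 * W + 1) * ∑ p ∈ S, a p := by
    rw [Finset.sum_comm]
    refine le_trans (le_of_eq ?_) h1
    refine Finset.sum_congr rfl fun p _ => Finset.sum_congr rfl fun p' _ => ?_
    rw [abs_sub_comm]
  have h3 : ∑ p ∈ S, ∑ p' ∈ S, (if |p - p'| ≤ W then (a p + a p') / 2 else 0) =
      (∑ p ∈ S, ∑ p' ∈ S, (if |p - p'| ≤ W then a p else 0) +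
        ∑ p ∈ S, ∑ p' ∈ S, (if |p - p'| ≤ W then a p' else 0)) / 2 := by
    rw [← Finset.sum_add_distrib, Finset.sum_div]
    refine Finset.sum_congr rfl fun p _ => ?_
    rw [← Finset.sum_add_distrib, Finset.sum_div]
    refine Finset.sum_congr rfl fun p' _ => ?_
    split_ifs
    · rfl
    · simp
  rw [h3]
  linarith

lemma lint_sq {X : Type*} [MeasurableSpace X] {μ : Measure X} {f : X → ℂ}
    (hf : Integrable (fun x => ‖f x‖ ^ 2) μ) :
    ∫⁻ x, ‖f x‖ₑ ^ 2 ∂μ = ENNReal.ofReal (∫ x, ‖f x‖ ^ 2 ∂μ) := by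
  rw [ofReal_integral_eq_lintegral_ofReal hf (Filter.Eventually.of_forall fun x => by positivity)]
  refine lintegral_congr fun x => ?_
  rw [ENNReal.ofReal_pow (norm_nonneg _), ofReal_norm]

theorem abs_ol {X : Type*} [MeasurableSpace X] {μ : Measure X} (S : Finset ℤ) (W : ℕ)
    (v : ℤ → X → ℂ) (hi : ∀ p p', Integrable (fun x => v p x * conj (v p' x)) μ)
    (h0 : ∀ p p', ¬ |p - p'| ≤ (W : ℤ) → ∫ x, v p x * conj (v p' x) ∂μ = 0) :
    ∫⁻ x, ‖∑ p ∈ S, v p x‖ₑ ^ 2 ∂μ ≤ (2 * W + 1) * ∑ p ∈ S, ∫⁻ x, ‖v p x‖ₑ ^ 2 ∂μ := by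
  have hsq : ∀ p, Integrable (fun x => ‖v p x‖ ^ 2) μ := by
    intro p
    have h1 := (hi p p).re
    refine h1.congr (Filter.Eventually.of_forall fun x => ?_)
    show (v p x * conj (v p x)).re = _
    rw [mul_conj_self, Complex.ofReal_re]
  have hsum : Integrable (fun x => ‖∑ p ∈ S, v p x‖ ^ 2) μ := by
    simp only [normSq_sum]
    refine integrable_finsetSum _ fun p _ => integrable_finsetSum _ fun p' _ => ?_
    exact (hi p p').re
  have hre : ∀ p p', Integrable (fun x => (v p x * conj (v p' x)).re) μ := fun p p' =>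
    (hi p p').re
  rw [lint_sq hsum]
  have e1 : ∀ p, ∫⁻ x, ‖v p x‖ₑ ^ 2 ∂μ = ENNReal.ofReal (∫ x, ‖v p x‖ ^ 2 ∂μ) := fun p =>
    lint_sq (hsq p)
  simp only [e1]
  have hnn : ∀ p, 0 ≤ ∫ x, ‖v p x‖ ^ 2 ∂μ := fun p => integral_nonneg fun x => by positivity
  have e2 : (2 * (W : ℝ≥0∞) + 1) * ∑ p ∈ S, ENNReal.ofReal (∫ x, ‖v p x‖ ^ 2 ∂μ) =
      ENNReal.ofReal ((2 * W + 1) * ∑ p ∈ S, ∫ x, ‖v p x‖ ^ 2 ∂μ) := by
    rw [ENNReal.ofReal_mul (by positivity), ENNReal.ofReal_sum_of_nonneg (fun p _ => hnn p)]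
    congr 1
    rw [ENNReal.ofReal_add (by positivity) (by norm_num), ENNReal.ofReal_mul (by norm_num),
      ENNReal.ofReal_one, ENNReal.ofReal_natCast]
    norm_num
  rw [e2]
  refine ENNReal.ofReal_le_ofReal ?_
  have e3 : ∫ x, ‖∑ p ∈ S, v p x‖ ^ 2 ∂μ =
      ∑ p ∈ S, ∑ p' ∈ S, ∫ x, (v p x * conj (v p' x)).re ∂μ := by
    simp only [normSq_sum]
    rw [integral_finsetSum _ (fun p _ => integrable_finsetSum _ fun p' _ => hre p p')]
    refine Finset.sum_congr rfl fun p _ => ?_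
    rw [integral_finsetSum _ (fun p' _ => hre p p')]
  rw [e3]
  refine le_trans (Finset.sum_le_sum fun p _ => Finset.sum_le_sum fun p' _ => ?_)
    (sum_near S W (fun p => ∫ x, ‖v p x‖ ^ 2 ∂μ) hnn)
  split_ifs with hpp
  · have e4 : (∫ x, ‖v p x‖ ^ 2 ∂μ + ∫ x, ‖v p' x‖ ^ 2 ∂μ) / 2 =
        ∫ x, (‖v p x‖ ^ 2 + ‖v p' x‖ ^ 2) / 2 ∂μ := by
      rw [integral_div, integral_add (hsq p) (hsq p')]
    rw [e4]
    exact integral_mono (hre p p') (((hsq p).add (hsq p')).div_const 2)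
      fun x => re_mul_conj_le _ _
  · have e5 := integral_re (hi p p')
    have e6 : ∫ x, (v p x * conj (v p' x)).re ∂μ = (∫ x, v p x * conj (v p' x) ∂μ).re := e5
    rw [e6, h0 p p' hpp, Complex.zero_re]

/-! ### convolution on the line -/

/-- convolution on the line -/
noncomputable def cv1 (g h : ℝ → ℂ) (ζ : ℝ) : ℂ := ∫ η, g η * h (ζ - η)

lemma Bd1_int {h : ℝ → ℂ} (hh : Bd1 h) : Integrable h := by
  obtain ⟨hm, ⟨B, hB⟩, R, hR⟩ := hh
  have hon : IntegrableOn h (Icc (-R) R) := by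
    refine Measure.integrableOn_of_bounded (isCompact_Icc.measure_lt_top).ne
      hm.aestronglyMeasurable (M := B) ?_
    exact Filter.Eventually.of_forall hB
  rw [← integrableOn_iff_integrable_of_support_subset (s := Icc (-R) R)]
  · exact hon
  · intro ξ hξ
    exact abs_le.1 (hR ξ hξ)

lemma cv1_supp (g h : ℝ → ℂ) (ζ : ℝ) (hζ : cv1 g h ζ ≠ 0) :
    ∃ η, g η ≠ 0 ∧ h (ζ - η) ≠ 0 := by
  by_contra hcon
  push Not at hcon
  apply hζ
  unfold cv1
  have e : (fun η => g η * h (ζ - η)) = fun _ => 0 := by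
    funext η
    by_cases hg : g η = 0
    · rw [hg, zero_mul]
    · rw [hcon η hg, mul_zero]
  rw [e, integral_zero]

lemma cv1_bd {g h : ℝ → ℂ} (hg : Bd1 g) (hh : Bd1 h) : Bd1 (cv1 g h) := by
  have hgi := Bd1_int hg
  obtain ⟨hgm, ⟨B, hB⟩, R, hR⟩ := hg
  obtain ⟨hhm, ⟨B', hB'⟩, R', hR'⟩ := hh
  refine ⟨?_, ⟨B' * ∫ η, ‖g η‖, ?_⟩, R + R', ?_⟩
  · have hm : Measurable fun p : ℝ × ℝ => g p.2 * h (p.1 - p.2) :=
      (hgm.comp measurable_snd).mul (hhm.comp (measurable_fst.sub measurable_snd))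
    have := hm.stronglyMeasurable.integral_prod_right' (ν := (volume : Measure ℝ))
    exact this.measurable
  · intro ζ
    unfold cv1
    calc ‖∫ η, g η * h (ζ - η)‖ ≤ ∫ η, ‖g η * h (ζ - η)‖ := norm_integral_le_integral_norm _
      _ ≤ ∫ η, B' * ‖g η‖ := by
          refine integral_mono_of_nonneg (Filter.Eventually.of_forall fun _ => norm_nonneg _)
            (hgi.norm.const_mul _) (Filter.Eventually.of_forall fun η => ?_)
          show ‖g η * h (ζ - η)‖ ≤ B' * ‖g η‖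
          rw [norm_mul, mul_comm]
          exact mul_le_mul_of_nonneg_right (hB' _) (norm_nonneg _)
      _ = B' * ∫ η, ‖g η‖ := integral_const_mul _ _
  · intro ζ hζ
    obtain ⟨η, h1, h2⟩ := cv1_supp g h ζ hζ
    have a1 := hR η h1
    have a2 := hR' _ h2
    have : ζ = η + (ζ - η) := by ring
    rw [this]
    exact (abs_add_le _ _).trans (add_le_add a1 a2)

lemma ex1_cv {g h : ℝ → ℂ} (hg : Bd1 g) (hh : Bd1 h) (x : ℝ) :
    Ex1 (cv1 g h) x = Ex1 g x * Ex1 h x := by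
  have hgi := Bd1_int hg
  have hhi := Bd1_int hh
  have hint : Integrable (fun p : ℝ × ℝ => g p.2 * h (p.1 - p.2))
      ((volume : Measure ℝ).prod volume) :=
    Integrable.convolution_integrand (ContinuousLinearMap.mul ℝ ℂ) hgi hhi
  have hker : Continuous fun ξ : ℝ => ee (x * ξ) := cont_ee.comp (continuous_const.mul continuous_id)
  have hint2 : Integrable (fun p : ℝ × ℝ =>
      g p.2 * h (p.1 - p.2) * ee (x * p.1)) ((volume : Measure ℝ).prod volume) := by
    refine hint.mul_bdd (c := 1) ?_ ?_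
    · exact (hker.comp continuous_fst).aestronglyMeasurable
    · exact Filter.Eventually.of_forall fun p => (norm_ee _).le
  have e1 : Ex1 (cv1 g h) x = ∫ ζ, ∫ η, g η * h (ζ - η) * ee (x * ζ) := by
    unfold Ex1 cv1
    refine integral_congr_ae (Filter.Eventually.of_forall fun ζ => ?_)
    exact (integral_mul_const _ _).symm
  rw [e1, integral_integral_swap hint2]
  have e2 : ∀ η : ℝ, ∫ ζ, g η * h (ζ - η) * ee (x * ζ) =
      g η * ee (x * η) * Ex1 h x := by
    intro η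
    have e3 := integral_sub_right_eq_self (μ := (volume : Measure ℝ))
      (fun ζ : ℝ => g η * h ζ * ee (x * (ζ + η))) η
    have e4 : (fun ζ : ℝ => g η * h (ζ - η) * ee (x * ζ)) =
        fun ζ => g η * h (ζ - η) * ee (x * (ζ - η + η)) := by
      funext ζ
      rw [sub_add_cancel]
    rw [e4, e3]
    have e5 : (fun ζ : ℝ => g η * h ζ * ee (x * (ζ + η))) =
        fun ζ => g η * ee (x * η) * (h ζ * ee (x * ζ)) := by
      funext ζ
      rw [mul_add, ee_add]
      ring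
    rw [e5, integral_const_mul]
    rfl
  simp_rw [e2]
  rw [integral_mul_const]
  rfl

end OL_

open OL_ in
theorem pOL1 (h : tPo1) (_h0 : tPl1) : tOL1 := by
  intro S W hp g hbd hg hsupp
  have key := abs_ol (μ := (volume : Measure ℝ)) S W (fun p => Ex1 (cv1 g (hp p)))
    (fun p p' => (h _ _ (cv1_bd hg (hbd p)) (cv1_bd hg (hbd p'))).1) (fun p p' hpp => by
      rw [(h _ _ (cv1_bd hg (hbd p)) (cv1_bd hg (hbd p'))).2]
      have e : (fun τ => cv1 g (hp p) τ * conj (cv1 g (hp p') τ)) = fun _ => 0 := by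
        funext τ
        by_contra hne
        have h1 : cv1 g (hp p) τ ≠ 0 := left_ne_zero_of_mul hne
        have h2 : cv1 g (hp p') τ ≠ 0 := by
          have := right_ne_zero_of_mul hne
          exact fun h0 => this (by rw [h0, map_zero])
        obtain ⟨η, h3, h4⟩ := cv1_supp _ _ _ h1
        obtain ⟨η', h5, h6⟩ := cv1_supp _ _ _ h2
        exact hpp (hsupp p p' (τ - η) η η' h4 h3 h5 (by rwa [sub_add_cancel]))
      rw [e, integral_zero])
  have e1 : ∀ p x, Ex1 (cv1 g (hp p)) x = Ex1 g x * Ex1 (hp p) x := fun p x =>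
    ex1_cv hg (hbd p) x
  simp only [e1, ← Finset.mul_sum, enorm_mul, mul_pow] at key
  exact key

open OL_ in
theorem pOL2 (h : tPo2) (_h0 : tPl2) : tOL2 := by
  intro S W hp g hbd hg hsupp
  have hcv := fun p => pCv g (hp p) hg (hbd p)
  have key := abs_ol (μ := (volume : Measure (ℝ × ℝ))) S W (fun p => Ex (cv g (hp p)))
    (fun p p' => (h _ _ (hcv p).1 (hcv p').1).1) (fun p p' hpp => by
      rw [(h _ _ (hcv p).1 (hcv p').1).2]
      have e : (fun τ => cv g (hp p) τ * conj (cv g (hp p') τ)) = fun _ => 0 := by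
        funext τ
        by_contra hne
        have h1 : cv g (hp p) τ ≠ 0 := left_ne_zero_of_mul hne
        have h2 : cv g (hp p') τ ≠ 0 := by
          have := right_ne_zero_of_mul hne
          exact fun h0 => this (by rw [h0, map_zero])
        obtain ⟨η, h3, h4⟩ := (hcv p).2.1 _ h1
        obtain ⟨η', h5, h6⟩ := (hcv p').2.1 _ h2
        exact hpp (hsupp p p' (τ - η) η η' h4 h3 h5 (by rwa [sub_add_cancel]))
      rw [e, integral_zero])
  have e1 : ∀ p x, Ex (cv g (hp p)) x = Ex g x * Ex (hp p) x := fun p x => (hcv p).2.2 x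
  simp only [e1, ← Finset.mul_sum, enorm_mul, mul_pow] at key
  exact key

end Pool.Agent.KSP
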