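import Pool.Agent.KSP.Targets

set_option autoImplicit false

/-! Parallelogram cutoffs -/

namespace Pool.Agent.KSP

open MeasureTheory Set
open scoped ENNReal NNReal ComplexConjugate

namespace Par_

theorem ee_eq (t : ℝ) : ee t = Complex.exp ((2 * Real.pi * t : ℝ) * Complex.I) := by
  unfold ee
  congr 1
  push_cast
  ring

theorem norm_ee (t : ℝ) : ‖ee t‖ = 1 := by
  rw [ee_eq]
  exact Complex.norm_exp_ofReal_mul_I _

theorem ee_add (s t : ℝ) : ee (s + t) = ee s * ee t := by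
  simp only [ee_eq]
  rw [← Complex.exp_add]
  congr 1
  push_cast
  ring

theorem continuous_ee : Continuous ee := by
  unfold ee
  fun_prop

theorem measurable_ee : Measurable ee := continuous_ee.measurable

/-- the one dimensional factor -/
noncomputable def cut (a u : ℝ) (s : ℝ) : ℂ := (Icc (-a) a).indicator (fun s => ee (u * s)) s

noncomputable def J (a u : ℝ) : ℂ := ∫ s, cut a u s

theorem J_eq {a : ℝ} (ha : 0 < a) (u : ℝ) : J a u = ∫ s in (-a)..a, ee (u * s) := by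
  unfold J cut
  rw [integral_indicator measurableSet_Icc, intervalIntegral.integral_of_le (by linarith),
    integral_Icc_eq_integral_Ioc]

theorem J_zero {a : ℝ} (ha : 0 < a) : J a 0 = 2 * a := by
  rw [J_eq ha]
  simp [ee]
  ring

theorem J_mul {a : ℝ} (ha : 0 < a) (u : ℝ) : (Real.pi * u : ℝ) * J a u =
    (Real.sin (2 * Real.pi * a * u) : ℝ) := by
  rcases eq_or_ne u 0 with rfl | hu
  · simp
  rw [J_eq ha]
  have h1 : ∀ s : ℝ, ee (u * s) = Complex.exp ((2 * Real.pi * u * Complex.I) * s) := by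
    intro s
    unfold ee
    congr 1
    push_cast
    ring
  have hc : (2 * Real.pi * u * Complex.I : ℂ) ≠ 0 := by
    simp [hu, Real.pi_ne_zero]
  simp only [h1]
  rw [integral_exp_mul_complex hc]
  have h2 : (2 * Real.pi * u * Complex.I : ℂ) * (a : ℝ) = ((2 * Real.pi * a * u : ℝ) : ℂ) *
      Complex.I := by
    push_cast; ring
  have h3 : (2 * Real.pi * u * Complex.I : ℂ) * ((-a : ℝ) : ℂ) =
      -((2 * Real.pi * a * u : ℝ) : ℂ) * Complex.I := by
    push_cast; ring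
  rw [h2, h3, Complex.ofReal_sin, Complex.sin]
  generalize Complex.exp (((2 * Real.pi * a * u : ℝ) : ℂ) * Complex.I) = E
  generalize Complex.exp (-((2 * Real.pi * a * u : ℝ) : ℂ) * Complex.I) = E'
  have hu' : (u : ℂ) ≠ 0 := by exact_mod_cast hu
  have hpi : (Real.pi : ℂ) ≠ 0 := by exact_mod_cast Real.pi_ne_zero
  have hI : Complex.I ^ 2 = -1 := Complex.I_sq
  have hI0 : Complex.I ≠ 0 := Complex.I_ne_zero
  push_cast
  rw [mul_div_assoc', div_eq_iff hc]
  have : (E' - E) * Complex.I / 2 * (2 * Real.pi * u * Complex.I) =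
      (E' - E) * Real.pi * u * Complex.I ^ 2 := by ring
  rw [this, hI]
  ring

theorem norm_J_le {a : ℝ} (ha : 0 < a) (u : ℝ) : ‖J a u‖ ≤ 2 * a := by
  rw [J_eq ha]
  have h := intervalIntegral.norm_integral_le_of_norm_le_const (a := -a) (b := a)
    (f := fun s => ee (u * s)) (C := 1) (fun s _ => (norm_ee _).le)
  rw [abs_of_nonneg (by linarith)] at h
  linarith

theorem norm_J_mul_le {a : ℝ} (ha : 0 < a) (u : ℝ) : |u| * ‖J a u‖ ≤ 1 := by
  have h := congrArg norm (J_mul ha u)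
  rw [norm_mul, Complex.norm_real, Complex.norm_real, Real.norm_eq_abs, Real.norm_eq_abs, abs_mul,
    abs_of_pos Real.pi_pos] at h
  have h2 := Real.abs_sin_le_one (2 * Real.pi * a * u)
  have h3 : (0 : ℝ) ≤ |u| * ‖J a u‖ := by positivity
  have h4 := Real.pi_gt_three
  nlinarith

theorem le_norm_J {a : ℝ} (ha : 0 < a) {u : ℝ} (h0 : 0 ≤ u) (h1 : 4 * a * u ≤ 1) :
    a ≤ ‖J a u‖ := by
  rcases eq_or_lt_of_le h0 with rfl | hu
  · rw [J_zero ha]
    rw [norm_mul, Complex.norm_real, Real.norm_eq_abs, abs_of_pos ha]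
    simp
    linarith
  have h := congrArg norm (J_mul ha u)
  rw [norm_mul, Complex.norm_real, Complex.norm_real, Real.norm_eq_abs, Real.norm_eq_abs, abs_mul,
    abs_of_pos Real.pi_pos, abs_of_pos hu] at h
  have hpi := Real.pi_pos
  have h2 : 2 / Real.pi * (2 * Real.pi * a * u) ≤ Real.sin (2 * Real.pi * a * u) := by
    apply Real.mul_le_sin
    · positivity
    · nlinarith
  have h3 : 2 / Real.pi * (2 * Real.pi * a * u) = 4 * a * u := by
    field_simp
    ring
  rw [h3] at h2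
  have h4 : 4 * a * u ≤ Real.pi * u * ‖J a u‖ := by
    rw [h]; exact h2.trans (le_abs_self _)
  have h5 : 4 * a ≤ Real.pi * ‖J a u‖ := by
    have : u * (4 * a) ≤ u * (Real.pi * ‖J a u‖) := by linarith
    exact le_of_mul_le_mul_left this hu
  have h6 := Real.pi_le_four
  have h7 : (0 : ℝ) ≤ ‖J a u‖ := norm_nonneg _
  nlinarith

/-- decay -/
theorem norm_J_le_div {a : ℝ} (ha : 0 < a) (y : ℝ) (z : ℤ) :
    ‖J a (y - z / (4 * a))‖ ≤ 8 * a / (1 + |(⌊4 * a * y⌋ - z : ℝ)|) := by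
  have h1 := norm_J_le ha (y - z / (4 * a))
  have h2 := norm_J_mul_le ha (y - z / (4 * a))
  have h3 : 4 * a * |y - z / (4 * a)| = |4 * a * y - z| := by
    rw [← abs_of_pos (show (0 : ℝ) < 4 * a by linarith), ← abs_mul, abs_of_pos (show (0 : ℝ) < 4 * a by linarith)]
    congr 1
    field_simp
  have h4 : |(⌊4 * a * y⌋ - z : ℝ)| ≤ |4 * a * y - z| + 1 := by
    have h5 : (⌊4 * a * y⌋ - z : ℝ) = (4 * a * y - z) + (⌊4 * a * y⌋ - 4 * a * y) := by ring
    rw [h5]
    refine (abs_add_le _ _).trans ?_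
    have h6 : |(⌊4 * a * y⌋ - 4 * a * y : ℝ)| ≤ 1 := by
      rw [abs_le]
      constructor
      · linarith [Int.lt_floor_add_one (4 * a * y)]
      · linarith [Int.floor_le (4 * a * y)]
    linarith
  rw [le_div_iff₀ (by positivity)]
  have h7 : (0 : ℝ) ≤ ‖J a (y - z / (4 * a))‖ := norm_nonneg _
  calc ‖J a (y - z / (4 * a))‖ * (1 + |(⌊4 * a * y⌋ - z : ℝ)|)
      ≤ ‖J a (y - z / (4 * a))‖ * (2 + 4 * a * |y - z / (4 * a)|) := by
        apply mul_le_mul_of_nonneg_left _ h7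
        rw [h3]; linarith
    _ = 2 * ‖J a (y - z / (4 * a))‖ + 4 * a * (|y - z / (4 * a)| * ‖J a (y - z / (4 * a))‖) := by
        ring
    _ ≤ 8 * a := by nlinarith

/-! ### the plane -/

theorem mset (a b t : ℝ) : MeasurableSet {η : ℝ × ℝ | |η.2| ≤ b ∧ |η.1 + t * η.2| ≤ a} := by
  have h1 : Measurable fun η : ℝ × ℝ => |η.2| := (by fun_prop : Continuous _).measurable
  have h2 : Measurable fun η : ℝ × ℝ => |η.1 + t * η.2| :=
    (by fun_prop : Continuous _).measurable
  exact (measurableSet_le h1 measurable_const).inter (measurableSet_le h2 measurable_const)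

theorem bd_par {a b : ℝ} (ha : 0 < a) (hb : 0 < b) (t : ℝ) (c : ℝ × ℝ) : Bd (par a b t c) := by
  classical
  refine ⟨?_, ⟨1, fun ξ => ?_⟩, ⟨a + |t| * b + b, fun ξ hξ => ?_⟩⟩
  · have h : Measurable fun η : ℝ × ℝ => ee (-(dot c η)) := by
      apply measurable_ee.comp
      unfold dot
      fun_prop
    have : par a b t c = {η : ℝ × ℝ | |η.2| ≤ b ∧ |η.1 + t * η.2| ≤ a}.indicator
        (fun η => ee (-(dot c η))) := by
      ext η
      simp [par, indicator]
    rw [this]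
    exact h.indicator (mset a b t)
  · unfold par
    split_ifs
    · exact (norm_ee _).le
    · simp
  · unfold par at hξ
    split_ifs at hξ with h
    · obtain ⟨h1, h2⟩ := h
      have h3 : |t * ξ.2| ≤ |t| * b := by
        rw [abs_mul]; exact mul_le_mul_of_nonneg_left h1 (abs_nonneg _)
      have h4 : |ξ.1| ≤ |ξ.1 + t * ξ.2| + |t * ξ.2| := by
        have := abs_add_le (ξ.1 + t * ξ.2) (-(t * ξ.2))
        rw [abs_neg] at this
        simpa using this
      have h5 : 0 ≤ |t| * b := by positivity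
      exact ⟨by linarith, by linarith⟩
    · exact absurd rfl hξ

theorem integrand_eq (a b t : ℝ) (c x η : ℝ × ℝ) : par a b t c η * ee (dot x η) =
    cut a (x.1 - c.1) (η.1 + t * η.2) * cut b ((x.2 - c.2) - t * (x.1 - c.1)) η.2 := by
  classical
  unfold par cut
  simp only [indicator, mem_Icc, ← abs_le]
  by_cases h1 : |η.2| ≤ b <;> by_cases h2 : |η.1 + t * η.2| ≤ a
  · simp only [h1, h2, and_self, if_true]
    rw [← ee_add, ← ee_add]
    congr 1
    unfold dot
    ring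
  · simp [h1, h2]
  · simp [h1, h2]
  · simp [h1, h2]

theorem bd_integrable {h : ℝ × ℝ → ℂ} (hh : Bd h) : Integrable h := by
  obtain ⟨hm, ⟨B, hB⟩, ⟨R, hR⟩⟩ := hh
  have hs : Function.support h ⊆ Icc (-R) R ×ˢ Icc (-R) R := by
    intro ξ hξ
    have := hR ξ hξ
    exact ⟨abs_le.1 this.1, abs_le.1 this.2⟩
  rw [← integrableOn_iff_integrable_of_support_subset hs]
  refine Measure.integrableOn_of_bounded (M := B) ?_ hm.aestronglyMeasurable ?_
  · rw [Measure.volume_eq_prod, Measure.prod_prod]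
    exact (ENNReal.mul_lt_top (by simp) (by simp)).ne
  · exact Filter.Eventually.of_forall hB

theorem Ex_par {a b : ℝ} (ha : 0 < a) (hb : 0 < b) (t : ℝ) (c x : ℝ × ℝ) :
    Ex (par a b t c) x = J a (x.1 - c.1) * J b ((x.2 - c.2) - t * (x.1 - c.1)) := by
  unfold Ex
  have hint : Integrable fun η : ℝ × ℝ => par a b t c η * ee (dot x η) := by
    refine (bd_integrable (bd_par ha hb t c)).mul_bdd (c := 1) ?_ ?_
    · have h : Measurable fun η : ℝ × ℝ => ee (dot x η) := by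
        apply measurable_ee.comp
        unfold dot
        fun_prop
      exact h.aestronglyMeasurable
    · exact Filter.Eventually.of_forall fun η => (norm_ee _).le
  rw [Measure.volume_eq_prod] at hint ⊢
  rw [integral_prod_symm _ hint]
  simp only [integrand_eq]
  have h1 : ∀ y : ℝ, ∫ s : ℝ, cut a (x.1 - c.1) (s + t * y) *
      cut b ((x.2 - c.2) - t * (x.1 - c.1)) y = J a (x.1 - c.1) *
        cut b ((x.2 - c.2) - t * (x.1 - c.1)) y := by
    intro y
    rw [integral_mul_const, integral_add_right_eq_self (cut a (x.1 - c.1)) (t * y)]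
    rfl
  simp only [h1]
  rw [integral_const_mul]
  rfl

theorem Ex_par_cen {a b : ℝ} (ha : 0 < a) (hb : 0 < b) (t : ℝ) (z : ℤ × ℤ) (x : ℝ × ℝ) :
    Ex (par a b t (cen a b t z)) x = J a (x.1 - z.1 / (4 * a)) *
      J b ((x.2 - t * x.1) - z.2 / (4 * b)) := by
  rw [Ex_par ha hb]
  unfold cen
  congr 2
  ring

theorem norm_Ex_le {a b : ℝ} (ha : 0 < a) (hb : 0 < b) (t : ℝ) (z : ℤ × ℤ) (x : ℝ × ℝ) :
    ‖Ex (par a b t (cen a b t z)) x‖ ≤ 64 * (a * b) / ((1 + |(⌊4 * a * x.1⌋ - z.1 : ℝ)|) *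
      (1 + |(⌊4 * b * (x.2 - t * x.1)⌋ - z.2 : ℝ)|)) := by
  rw [Ex_par_cen ha hb, norm_mul]
  have h1 := norm_J_le_div ha x.1 z.1
  have h2 := norm_J_le_div hb (x.2 - t * x.1) z.2
  refine (mul_le_mul h1 h2 (norm_nonneg _) (by positivity)).trans (le_of_eq ?_)
  rw [div_mul_div_comm]
  congr 1
  ring

/-- the constant -/
noncomputable def K : ℝ≥0∞ := ∑' n : ℤ, ENNReal.ofReal (1 / (1 + |(n : ℝ)|) ^ 2)

theorem K_ne_top : K ≠ ∞ := by
  have h : Summable fun n : ℤ => 1 / (1 + |(n : ℝ)|) ^ 2 := by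
    have h1 : Summable fun n : ℤ => |(n : ℝ)| ^ (-2 : ℝ) :=
      Real.summable_abs_int_rpow (by norm_num)
    have h2 : Summable fun n : ℤ => (if n = 0 then (1 : ℝ) else 0) + |(n : ℝ)| ^ (-2 : ℝ) := by
      apply Summable.add _ h1
      exact summable_of_ne_finset_zero (s := {0}) (fun b hb => by
        simp at hb; simp [hb])
    refine Summable.of_nonneg_of_le (fun n => by positivity) (fun n => ?_) h2
    by_cases hn : n = 0
    · subst hn
      simp
    · have h3 : (0 : ℝ) < |(n : ℝ)| := by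
        rw [abs_pos]; exact_mod_cast hn
      simp only [hn, if_false, zero_add]
      rw [Real.rpow_neg h3.le]
      rw [one_div]
      have : |(n : ℝ)| ^ (2 : ℝ) = |(n : ℝ)| ^ 2 := by norm_cast
      rw [this]
      gcongr
      linarith
  unfold K
  rw [← ENNReal.ofReal_tsum_of_nonneg (fun n => by positivity) h]
  exact ENNReal.ofReal_ne_top

theorem sum_eq (N : ℤ) : ∑' z : ℤ, ENNReal.ofReal (1 / (1 + |((N : ℝ) - z)|) ^ 2) = K := by
  unfold K
  rw [← (Equiv.subLeft N).tsum_eq (fun n : ℤ => ENNReal.ofReal (1 / (1 + |(n : ℝ)|) ^ 2))]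
  simp

theorem sum_le {a b : ℝ} (ha : 0 < a) (hb : 0 < b) (t : ℝ) (x : ℝ × ℝ) :
    ∑' z : ℤ × ℤ, ‖Ex (par a b t (cen a b t z)) x‖ₑ ^ 2 ≤
      (64 ^ 2 * K ^ 2) * ENNReal.ofReal ((a * b) ^ 2) := by
  have h1 : ∀ z : ℤ × ℤ, ‖Ex (par a b t (cen a b t z)) x‖ₑ ^ 2 ≤
      ENNReal.ofReal ((64 * (a * b)) ^ 2) *
        (ENNReal.ofReal (1 / (1 + |((⌊4 * a * x.1⌋ : ℤ) : ℝ) - z.1|) ^ 2) *
        ENNReal.ofReal (1 / (1 + |((⌊4 * b * (x.2 - t * x.1)⌋ : ℤ) : ℝ) - z.2|) ^ 2)) := by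
    intro z
    have h2 := norm_Ex_le ha hb t z x
    rw [← ofReal_norm, ← ENNReal.ofReal_pow (norm_nonneg _),
      ← ENNReal.ofReal_mul (by positivity), ← ENNReal.ofReal_mul (by positivity)]
    apply ENNReal.ofReal_le_ofReal
    refine (pow_le_pow_left₀ (norm_nonneg _) h2 2).trans (le_of_eq ?_)
    rw [div_pow]
    field_simp
  refine (ENNReal.tsum_le_tsum h1).trans (le_of_eq ?_)
  rw [ENNReal.tsum_mul_left, ENNReal.tsum_prod']
  simp only [ENNReal.tsum_mul_left, ENNReal.tsum_mul_right, sum_eq]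
  rw [mul_pow, ENNReal.ofReal_mul (by positivity)]
  have h3 : ENNReal.ofReal (64 ^ 2) = 64 ^ 2 := by
    rw [ENNReal.ofReal_pow (by norm_num)]; simp
  rw [h3]
  ring

end Par_

open Par_

/-- B6 -/
theorem pPar : tPar := by
  have hK : (64 ^ 2 * K ^ 2 : ℝ≥0∞) ≠ ∞ := by
    refine ENNReal.mul_ne_top (by simp) (ENNReal.pow_ne_top K_ne_top)
  refine ⟨64 + (64 ^ 2 * K ^ 2 : ℝ≥0∞).toNNReal, fun a b t ha hb => ⟨bd_par ha hb t, ?_, ?_, ?_⟩⟩
  · intro z x h1 h2
    rw [Ex_par_cen ha hb, norm_mul]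
    refine mul_le_mul (le_norm_J ha ?_ ?_) (le_norm_J hb ?_ ?_) hb.le (norm_nonneg _)
    · have h3 := Int.floor_le (4 * a * x.1)
      rw [h1] at h3
      rw [sub_nonneg, div_le_iff₀ (by positivity)]
      linarith
    · have h3 := Int.lt_floor_add_one (4 * a * x.1)
      rw [h1] at h3
      have : 4 * a * (x.1 - z.1 / (4 * a)) = 4 * a * x.1 - z.1 := by field_simp
      rw [this]; linarith
    · have h3 := Int.floor_le (4 * b * (x.2 - t * x.1))
      rw [h2] at h3
      rw [sub_nonneg, div_le_iff₀ (by positivity)]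
      linarith
    · have h3 := Int.lt_floor_add_one (4 * b * (x.2 - t * x.1))
      rw [h2] at h3
      have : 4 * b * (x.2 - t * x.1 - z.2 / (4 * b)) = 4 * b * (x.2 - t * x.1) - z.2 := by
        field_simp
      rw [this]; linarith
  · intro z x
    refine (norm_Ex_le ha hb t z x).trans ?_
    gcongr
    rw [NNReal.coe_add]
    have : (0 : ℝ) ≤ ((64 ^ 2 * K ^ 2 : ℝ≥0∞).toNNReal : ℝ) := NNReal.coe_nonneg _
    have h64 : ((64 : ℝ≥0) : ℝ) = 64 := by norm_num
    rw [h64]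
    linarith
  · intro x
    refine (sum_le ha hb t x).trans ?_
    gcongr
    push_cast
    rw [ENNReal.coe_toNNReal hK]
    exact le_add_self

end Pool.Agent.KSP
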