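import Pool.Agent.KSP.Targets

set_option autoImplicit false

/-! RM: Rademacher-Menshov for disjoint ranges -/

namespace Pool.Agent.KSP

namespace RM_

/-- dyadic decomposition of an interval -/
lemma dyadic (n : ℕ) : ∀ (a b : ℕ), a ≤ b → b ≤ 2 ^ n → ∃ I : Finset (ℕ × ℕ),
    I.card ≤ 2 * (n + 1) ∧
    (∀ x ∈ I, x.1 < n + 1 ∧ x.2 < 2 ^ n ∧ a ≤ x.2 * 2 ^ x.1 ∧ (x.2 + 1) * 2 ^ x.1 ≤ b) ∧
    ∀ P : ℕ → ℂ, P b - P a = ∑ x ∈ I, (P ((x.2 + 1) * 2 ^ x.1) - P (x.2 * 2 ^ x.1)) := by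
  induction n with
  | zero =>
    intro a b hab hb
    rcases Nat.eq_or_lt_of_le hab with h | h
    · exact ⟨∅, by simp, by simp, fun P => by simp [h]⟩
    · have ha : a = 0 := by omega
      have hb' : b = 1 := by omega
      subst ha hb'
      exact ⟨{(0, 0)}, by simp, by simp, fun P => by simp⟩
  | succ n ih =>
    intro a b hab hb
    rcases Nat.eq_or_lt_of_le hab with h | h
    · exact ⟨∅, by simp, by simp, fun P => by simp [h]⟩
    have hp : 2 ^ (n + 1) = 2 * 2 ^ n := by ring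
    obtain ⟨I', hc, hI, hP⟩ := ih ((a + 1) / 2) (b / 2) (by omega) (by omega)
    -- the shift
    let sh : ℕ × ℕ → ℕ × ℕ := fun x => (x.1 + 1, x.2)
    have hsh : Function.Injective sh := by
      rintro ⟨s, i⟩ ⟨s', i'⟩ hx
      simp only [sh, Prod.mk.injEq] at hx ⊢
      omega
    let A : Finset (ℕ × ℕ) := if a % 2 = 1 then {(0, a)} else ∅
    let B : Finset (ℕ × ℕ) := if b % 2 = 1 then {(0, b - 1)} else ∅
    have hA : ∀ x ∈ A, x = (0, a) ∧ a % 2 = 1 := by
      intro x hx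
      simp only [A] at hx
      split_ifs at hx with h1
      · exact ⟨Finset.mem_singleton.1 hx, h1⟩
      · simp at hx
    have hB : ∀ x ∈ B, x = (0, b - 1) ∧ b % 2 = 1 := by
      intro x hx
      simp only [B] at hx
      split_ifs at hx with h1
      · exact ⟨Finset.mem_singleton.1 hx, h1⟩
      · simp at hx
    have hS : ∀ x ∈ I'.image sh, ∃ y ∈ I', x = (y.1 + 1, y.2) := by
      intro x hx
      obtain ⟨y, hy, hyx⟩ := Finset.mem_image.1 hx
      exact ⟨y, hy, hyx.symm⟩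
    have hdAB : Disjoint A B := by
      rw [Finset.disjoint_left]
      intro x hx hx'
      obtain ⟨h1, h2⟩ := hA x hx
      obtain ⟨h3, h4⟩ := hB x hx'
      rw [h1] at h3
      simp only [Prod.mk.injEq, true_and] at h3
      omega
    have hdS : Disjoint (I'.image sh) (A ∪ B) := by
      rw [Finset.disjoint_left]
      intro x hx hx'
      obtain ⟨y, -, hy⟩ := hS x hx
      rcases Finset.mem_union.1 hx' with h1 | h1
      · rw [(hA x h1).1] at hy
        simp at hy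
      · rw [(hB x h1).1] at hy
        simp at hy
    refine ⟨I'.image sh ∪ (A ∪ B), ?_, ?_, ?_⟩
    · have c1 : (I'.image sh).card ≤ 2 * (n + 1) := Finset.card_image_le.trans hc
      have c2 : A.card ≤ 1 := by
        simp only [A]
        split_ifs <;> simp
      have c3 : B.card ≤ 1 := by
        simp only [B]
        split_ifs <;> simp
      have c4 := Finset.card_union_le (I'.image sh) (A ∪ B)
      have c5 := Finset.card_union_le A B
      omega
    · intro x hx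
      rcases Finset.mem_union.1 hx with h1 | h1
      · obtain ⟨y, hy, rfl⟩ := hS x h1
        obtain ⟨h2, h3, h4, h5⟩ := hI y hy
        have e1 : y.2 * 2 ^ (y.1 + 1) = 2 * (y.2 * 2 ^ y.1) := by ring
        have e2 : (y.2 + 1) * 2 ^ (y.1 + 1) = 2 * ((y.2 + 1) * 2 ^ y.1) := by ring
        refine ⟨by simp only; omega, by simp only; omega, ?_, ?_⟩
        · simp only
          rw [e1]
          omega
        · simp only
          rw [e2]
          omega
      rcases Finset.mem_union.1 h1 with h1 | h1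
      · obtain ⟨rfl, h2⟩ := hA x h1
        refine ⟨by simp, by simp only; omega, by simp, ?_⟩
        simp only [pow_zero, mul_one]
        omega
      · obtain ⟨rfl, h2⟩ := hB x h1
        refine ⟨by simp, by simp only; omega, ?_, ?_⟩
        · simp only [pow_zero, mul_one]
          omega
        · simp only [pow_zero, mul_one]
          omega
    · intro P
      rw [Finset.sum_union hdS, Finset.sum_union hdAB, Finset.sum_image (fun x _ y _ h => hsh h)]
      have h1 := hP (fun x => P (2 * x))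
      have h2 : ∑ x ∈ I', (P (((sh x).2 + 1) * 2 ^ (sh x).1) - P ((sh x).2 * 2 ^ (sh x).1)) =
          P (2 * (b / 2)) - P (2 * ((a + 1) / 2)) := by
        rw [h1]
        refine Finset.sum_congr rfl fun x _ => ?_
        simp only [sh]
        congr 2
        · ring
        · ring
      rw [h2]
      have h3 : ∑ x ∈ A, (P ((x.2 + 1) * 2 ^ x.1) - P (x.2 * 2 ^ x.1)) =
          P (2 * ((a + 1) / 2)) - P a := by
        simp only [A]
        split_ifs with h4
        · rw [Finset.sum_singleton]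
          simp only [pow_zero, mul_one]
          congr 2
          omega
        · have : 2 * ((a + 1) / 2) = a := by omega
          rw [this]
          simp
      have h5 : ∑ x ∈ B, (P ((x.2 + 1) * 2 ^ x.1) - P (x.2 * 2 ^ x.1)) =
          P b - P (2 * (b / 2)) := by
        simp only [B]
        split_ifs with h4
        · rw [Finset.sum_singleton]
          simp only [pow_zero, mul_one]
          congr 2
          · omega
          · omega
        · have : 2 * (b / 2) = b := by omega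
          rw [this]
          simp
      rw [h3, h5]
      ring

/-- the rank -/
def rk (Λ : Finset ℕ) (x : ℕ) : ℕ := (Λ.filter (· < x)).card

lemma rk_mono (Λ : Finset ℕ) {x y : ℕ} (h : x ≤ y) : rk Λ x ≤ rk Λ y := by
  refine Finset.card_le_card fun z hz => ?_
  rw [Finset.mem_filter] at hz ⊢
  exact ⟨hz.1, hz.2.trans_le h⟩

lemma rk_lt (Λ : Finset ℕ) {x y : ℕ} (hx : x ∈ Λ) (h : x < y) : rk Λ x < rk Λ y := by
  refine Finset.card_lt_card ⟨fun z hz => ?_, fun hsub => ?_⟩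
  · rw [Finset.mem_filter] at hz ⊢
    exact ⟨hz.1, hz.2.trans h⟩
  · have : x ∈ Λ.filter (· < x) := hsub (by rw [Finset.mem_filter]; exact ⟨hx, h⟩)
    rw [Finset.mem_filter] at this
    exact lt_irrefl _ this.2

lemma rk_le_card (Λ : Finset ℕ) (x : ℕ) : rk Λ x ≤ Λ.card :=
  Finset.card_le_card (Finset.filter_subset _ _)

/-- prefix sums -/
def pre (Λ : Finset ℕ) (F : ℕ → ℂ) (a : ℕ) : ℂ := ∑ J ∈ Λ with rk Λ J < a, F J

lemma pre_sub (Λ : Finset ℕ) (F : ℕ → ℂ) {a b : ℕ} (h : a ≤ b) :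
    pre Λ F b - pre Λ F a = ∑ J ∈ Λ with a ≤ rk Λ J ∧ rk Λ J < b, F J := by
  unfold pre
  rw [Finset.sum_filter, Finset.sum_filter, Finset.sum_filter, ← Finset.sum_sub_distrib]
  refine Finset.sum_congr rfl fun J _ => ?_
  by_cases h1 : rk Λ J < a
  · have h2 : rk Λ J < b := h1.trans_le h
    have h3 : ¬ (a ≤ rk Λ J ∧ rk Λ J < b) := fun h4 => absurd h4.1 (not_le.2 h1)
    rw [if_pos h1, if_pos h2, if_neg h3, sub_self]
  · by_cases h2 : rk Λ J < b
    · rw [if_neg h1, if_pos h2, if_pos ⟨not_lt.1 h1, h2⟩, sub_zero]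
    · rw [if_neg h1, if_neg h2, if_neg (fun h4 => h2 h4.2), sub_zero]

lemma range_eq (Λ : Finset ℕ) (F : ℕ → ℂ) {μ ν : ℕ} (h : μ ≤ ν) :
    ∑ J ∈ Λ with μ ≤ J ∧ J < ν, F J = pre Λ F (rk Λ ν) - pre Λ F (rk Λ μ) := by
  rw [pre_sub Λ F (rk_mono Λ h)]
  refine Finset.sum_congr (Finset.filter_congr fun J hJ => ?_) fun _ _ => rfl
  constructor
  · rintro ⟨h1, h2⟩
    exact ⟨rk_mono Λ h1, rk_lt Λ hJ h2⟩
  · rintro ⟨h1, h2⟩
    refine ⟨?_, ?_⟩
    · by_contra h3
      exact absurd (rk_lt Λ hJ (not_le.1 h3)) (not_lt.2 h1)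
    · by_contra h3
      exact absurd (rk_mono Λ (not_lt.1 h3)) (not_le.2 h2)

lemma DD_eq (Λ : Finset ℕ) (F : ℕ → ℂ) (s i : ℕ) :
    ∑ J ∈ DD Λ s i, F J = pre Λ F ((i + 1) * 2 ^ s) - pre Λ F (i * 2 ^ s) := by
  rw [pre_sub Λ F (Nat.mul_le_mul_right _ (Nat.le_succ i))]
  unfold DD
  refine Finset.sum_congr (Finset.filter_congr fun J hJ => ?_) fun _ _ => rfl
  have hp : 0 < 2 ^ s := by positivity
  change rk Λ J / 2 ^ s = i ↔ _
  rw [Nat.div_eq_iff hp]
  have : (i + 1) * 2 ^ s = i * 2 ^ s + 2 ^ s := by ring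
  rw [this]
  generalize i * 2 ^ s = z
  omega

end RM_

open RM_ in
/-- S1 -/
theorem pRM : tRM := by
  intro n q Λ F μ ν hcard hμν hνμ
  set S : ℕ × ℕ → ℝ := fun x => ‖∑ J ∈ DD Λ x.1 x.2, F J‖ ^ 2 with hS
  have hS0 : ∀ x, 0 ≤ S x := fun x => by positivity
  have hdy := fun k => dyadic n (rk Λ (μ k)) (rk Λ (ν k)) (rk_mono Λ (hμν k))
    ((rk_le_card Λ _).trans hcard)
  choose I hIc hI hIP using hdy
  -- one range
  have hone : ∀ k, ‖∑ J ∈ Λ with μ k ≤ J ∧ J < ν k, F J‖ ^ 2 ≤ 2 * (n + 1) * ∑ x ∈ I k, S x := by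
    intro k
    rw [range_eq Λ F (hμν k), hIP k (pre Λ F)]
    have h1 : ∑ x ∈ I k, (pre Λ F ((x.2 + 1) * 2 ^ x.1) - pre Λ F (x.2 * 2 ^ x.1)) =
        ∑ x ∈ I k, ∑ J ∈ DD Λ x.1 x.2, F J :=
      Finset.sum_congr rfl fun x _ => (DD_eq Λ F x.1 x.2).symm
    rw [h1]
    have h2 : ‖∑ x ∈ I k, ∑ J ∈ DD Λ x.1 x.2, F J‖ ≤ ∑ x ∈ I k, ‖∑ J ∈ DD Λ x.1 x.2, F J‖ :=
      norm_sum_le _ _
    have h3 : (∑ x ∈ I k, ‖∑ J ∈ DD Λ x.1 x.2, F J‖) ^ 2 ≤
        (I k).card * ∑ x ∈ I k, ‖∑ J ∈ DD Λ x.1 x.2, F J‖ ^ 2 := sq_sum_le_card_mul_sum_sq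
    have h4 : ((I k).card : ℝ) ≤ 2 * (n + 1) := by exact_mod_cast hIc k
    calc ‖∑ x ∈ I k, ∑ J ∈ DD Λ x.1 x.2, F J‖ ^ 2
        ≤ (∑ x ∈ I k, ‖∑ J ∈ DD Λ x.1 x.2, F J‖) ^ 2 :=
          pow_le_pow_left₀ (norm_nonneg _) h2 2
      _ ≤ (I k).card * ∑ x ∈ I k, S x := h3
      _ ≤ 2 * (n + 1) * ∑ x ∈ I k, S x :=
          mul_le_mul_of_nonneg_right h4 (Finset.sum_nonneg fun x _ => hS0 x)
  -- disjointness
  have hmono : ∀ k l, k < l → ν k ≤ μ l := by
    intro k l hkl
    induction l with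
    | zero => omega
    | succ l ih =>
      rcases Nat.lt_succ_iff_lt_or_eq.1 hkl with h | h
      · exact (ih h).trans ((hμν l).trans (hνμ l))
      · rw [h]
        exact hνμ l
  have hdisj : ∀ k l, k < l → Disjoint (I k) (I l) := by
    intro k l hkl
    rw [Finset.disjoint_left]
    intro x hx hx'
    obtain ⟨-, -, -, h1⟩ := hI k x hx
    obtain ⟨-, -, h2, -⟩ := hI l x hx'
    have h3 := rk_mono Λ (hmono k l hkl)
    have h4 : (x.2 + 1) * 2 ^ x.1 = x.2 * 2 ^ x.1 + 2 ^ x.1 := by ring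
    have h5 : 0 < 2 ^ x.1 := by positivity
    omega
  have hpd : (Finset.range q : Set ℕ).PairwiseDisjoint I := by
    intro k _ l _ hkl
    rcases lt_or_gt_of_ne hkl with h | h
    · exact hdisj k l h
    · exact (hdisj l k h).symm
  calc ∑ k ∈ Finset.range q, ‖∑ J ∈ Λ with μ k ≤ J ∧ J < ν k, F J‖ ^ 2
      ≤ ∑ k ∈ Finset.range q, 2 * (n + 1) * ∑ x ∈ I k, S x := Finset.sum_le_sum fun k _ => hone k
    _ = 2 * (n + 1) * ∑ x ∈ (Finset.range q).biUnion I, S x := by
        rw [Finset.sum_biUnion hpd, Finset.mul_sum]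
    _ ≤ 2 * (n + 1) * ∑ x ∈ Finset.range (n + 1) ×ˢ Finset.range (2 ^ n), S x := by
        refine mul_le_mul_of_nonneg_left ?_ (by positivity)
        refine Finset.sum_le_sum_of_subset_of_nonneg ?_ fun x _ _ => hS0 x
        intro x hx
        obtain ⟨k, -, hxk⟩ := Finset.mem_biUnion.1 hx
        obtain ⟨h1, h2, -, -⟩ := hI k x hxk
        rw [Finset.mem_product, Finset.mem_range, Finset.mem_range]
        exact ⟨h1, h2⟩
    _ = _ := by rw [Finset.sum_product]

end Pool.Agent.KSP
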