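import Pool.Agent.KSP.Targets

set_option autoImplicit false

namespace Pool.Agent.KSP

open MeasureTheory Set
open scoped ENNReal NNReal ComplexConjugate

namespace Sparse_

/-! ### Discrete kernels -/

/-- the kernel -/
noncomputable def w (x : ℝ) : ℝ := (1 + |x|)⁻¹

theorem w_pos (x : ℝ) : 0 < w x := by
  unfold w
  positivity

theorem w_symm (x y : ℝ) : w (x - y) = w (y - x) := by
  unfold w
  rw [abs_sub_comm]

/-- sum over the points on both sides of `v` -/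
theorem two_side (S : Finset ℤ) (v : ℤ) (D : ℕ) (f : ℕ → ℝ) (hf : ∀ d, 0 ≤ f d)
    (hS : ∀ t ∈ S, (t - v).natAbs < D) :
    ∑ t ∈ S, f (t - v).natAbs ≤ 2 * ∑ d ∈ Finset.range D, f d := by
  classical
  have h1 : ∀ S' : Finset ℤ, S' ⊆ S → Set.InjOn (fun t : ℤ => (t - v).natAbs) S' →
      ∑ t ∈ S', f (t - v).natAbs ≤ ∑ d ∈ Finset.range D, f d := by
    intro S' hS' hinj
    rw [← Finset.sum_image (f := f) (g := fun t : ℤ => (t - v).natAbs) hinj]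
    apply Finset.sum_le_sum_of_subset_of_nonneg
    · intro d hd
      obtain ⟨t, ht, rfl⟩ := Finset.mem_image.1 hd
      exact Finset.mem_range.2 (hS t (hS' ht))
    · intro d _ _
      exact hf d
  have h2 : ∑ t ∈ S, f (t - v).natAbs = ∑ t ∈ S with v ≤ t, f (t - v).natAbs +
      ∑ t ∈ S with ¬ v ≤ t, f (t - v).natAbs :=
    (Finset.sum_filter_add_sum_filter_not _ _ _).symm
  rw [h2, two_mul]
  refine add_le_add (h1 _ (Finset.filter_subset _ _) ?_) (h1 _ (Finset.filter_subset _ _) ?_)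
  · intro a ha b hb hab
    have ha' := (Finset.mem_filter.1 ha).2
    have hb' := (Finset.mem_filter.1 hb).2
    simp only at hab
    omega
  · intro a ha b hb hab
    have ha' := (Finset.mem_filter.1 ha).2
    have hb' := (Finset.mem_filter.1 hb).2
    simp only at hab
    omega

theorem w_int (t v : ℤ) : w ((t : ℝ) - v) = (fun d : ℕ => ((1 : ℝ) + d)⁻¹) (t - v).natAbs := by
  unfold w
  simp only
  rw [← Int.cast_sub, Nat.cast_natAbs, Int.cast_abs]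

theorem sum_sq_le (D : ℕ) : ∑ d ∈ Finset.range D, (((1 : ℝ) + d)⁻¹) ^ 2 ≤ 2 := by
  have h : ∑ d ∈ Finset.range D, (((1 : ℝ) + d)⁻¹) ^ 2 ≤ 2 - 2 / (D + 1) := by
    induction D with
    | zero => simp
    | succ D ih =>
      rw [Finset.sum_range_succ]
      have h1 : (((1 : ℝ) + D)⁻¹) ^ 2 ≤ 2 / (D + 1) - 2 / ((D + 1 : ℕ) + 1) := by
        push_cast
        have hD : (0 : ℝ) ≤ D := Nat.cast_nonneg D
        rw [div_sub_div _ _ (by positivity) (by positivity), inv_pow, inv_eq_one_div,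
          div_le_div_iff₀ (by positivity) (by positivity)]
        nlinarith [mul_nonneg hD hD]
      linarith
  have h2 : (0 : ℝ) ≤ 2 / (D + 1) := by positivity
  linarith

theorem sum_w_sq (S : Finset ℤ) (v : ℤ) : ∑ t ∈ S, w ((t : ℝ) - v) ^ 2 ≤ 4 := by
  classical
  obtain ⟨D, hD⟩ : ∃ D : ℕ, ∀ t ∈ S, (t - v).natAbs < D := by
    refine ⟨(S.image fun t => (t - v).natAbs).sup id + 1, fun t ht => ?_⟩
    exact Nat.lt_succ_of_le (Finset.le_sup (f := id)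
      (Finset.mem_image_of_mem (fun t : ℤ => (t - v).natAbs) ht))
  have h := two_side S v D (fun d : ℕ => (((1 : ℝ) + d)⁻¹) ^ 2) (fun d => by positivity) hD
  have h2 : ∑ t ∈ S, w ((t : ℝ) - v) ^ 2 =
      ∑ t ∈ S, (fun d : ℕ => (((1 : ℝ) + d)⁻¹) ^ 2) (t - v).natAbs := by
    refine Finset.sum_congr rfl fun t _ => ?_
    rw [w_int]
  rw [h2]
  refine h.trans ?_
  have := sum_sq_le D
  linarith

theorem sum_harm (n : ℕ) : ∑ d ∈ Finset.range (2 ^ n), ((1 : ℝ) + d)⁻¹ ≤ 1 + n := by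
  have h := harmonic_le_one_add_log (2 ^ n)
  have h1 : ((harmonic (2 ^ n) : ℚ) : ℝ) = ∑ d ∈ Finset.range (2 ^ n), ((1 : ℝ) + d)⁻¹ := by
    unfold harmonic
    push_cast
    refine Finset.sum_congr rfl fun d _ => ?_
    rw [add_comm]
  rw [h1] at h
  have h2 : Real.log ((2 ^ n : ℕ) : ℝ) ≤ n := by
    push_cast
    rw [Real.log_pow]
    have : Real.log 2 ≤ 1 := by
      have := Real.log_two_lt_d9
      linarith
    have hn : (0 : ℝ) ≤ n := Nat.cast_nonneg n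
    nlinarith
  linarith

theorem sum_w (j : ℕ) (S : Finset ℤ) (v : ℤ) (hS : ∀ t ∈ S, (t - v).natAbs < 2 ^ (j + 2)) :
    ∑ t ∈ S, w ((t : ℝ) - v) ≤ 2 * j + 6 := by
  have h := two_side S v (2 ^ (j + 2)) (fun d : ℕ => ((1 : ℝ) + d)⁻¹) (fun d => by positivity) hS
  have h2 : ∑ t ∈ S, w ((t : ℝ) - v) =
      ∑ t ∈ S, (fun d : ℕ => ((1 : ℝ) + d)⁻¹) (t - v).natAbs := by
    refine Finset.sum_congr rfl fun t _ => ?_
    rw [w_int]
  rw [h2]
  refine h.trans ?_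
  have := sum_harm (j + 2)
  push_cast at this
  linarith

/-- Schur's test -/
theorem schur {ι ι' : Type} (S : Finset ι) (T : Finset ι') (k : ι → ι' → ℝ) (x : ι' → ℝ) (W : ℝ)
    (hk : ∀ s ∈ S, ∀ t ∈ T, 0 ≤ k s t) (h1 : ∀ s ∈ S, ∑ t ∈ T, k s t ≤ W)
    (h2 : ∀ t ∈ T, ∑ s ∈ S, k s t ≤ W) (hW : 0 ≤ W) :
    ∑ s ∈ S, (∑ t ∈ T, k s t * x t) ^ 2 ≤ W ^ 2 * ∑ t ∈ T, x t ^ 2 := by
  have h3 : ∀ s ∈ S, (∑ t ∈ T, k s t * x t) ^ 2 ≤ W * ∑ t ∈ T, k s t * x t ^ 2 := by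
    intro s hs
    have h := Finset.sum_sq_le_sum_mul_sum_of_sq_le_mul T (r := fun t => k s t * x t)
      (f := fun t => k s t) (g := fun t => k s t * x t ^ 2) (fun t ht => hk s hs t ht)
      (fun t ht => mul_nonneg (hk s hs t ht) (sq_nonneg _)) (fun t _ => le_of_eq (by ring))
    refine h.trans ?_
    apply mul_le_mul_of_nonneg_right (h1 s hs)
    exact Finset.sum_nonneg fun t ht => mul_nonneg (hk s hs t ht) (sq_nonneg _)
  calc ∑ s ∈ S, (∑ t ∈ T, k s t * x t) ^ 2 ≤ ∑ s ∈ S, W * ∑ t ∈ T, k s t * x t ^ 2 :=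
        Finset.sum_le_sum h3
    _ = W * ∑ t ∈ T, (∑ s ∈ S, k s t) * x t ^ 2 := by
        rw [← Finset.mul_sum, Finset.sum_comm]
        simp only [Finset.sum_mul]
    _ ≤ W * ∑ t ∈ T, W * x t ^ 2 := by
        apply mul_le_mul_of_nonneg_left _ hW
        exact Finset.sum_le_sum fun t ht => mul_le_mul_of_nonneg_right (h2 t ht) (sq_nonneg _)
    _ = W ^ 2 * ∑ t ∈ T, x t ^ 2 := by
        rw [← Finset.mul_sum]
        ring

/-- the integers of the cells of `[-1/4, 3/4)` -/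
noncomputable def TT (j : ℕ) : Finset ℤ := Finset.Ico (-2 ^ j) (3 * 2 ^ j)

theorem sum_range_int (N : ℕ) (f : ℤ → ℝ) :
    ∑ t ∈ Finset.range N, f (t : ℤ) = ∑ t ∈ Finset.Ico (0 : ℤ) N, f t := by
  rw [Finset.sum_bij (fun (t : ℕ) _ => (t : ℤ))]
  · intro t ht
    have := Finset.mem_range.1 ht
    simp only [Finset.mem_Ico]
    omega
  · intro a _ b _ hab
    exact_mod_cast hab
  · intro b hb
    have := Finset.mem_Ico.1 hb
    refine ⟨b.toNat, Finset.mem_range.2 (by omega), by omega⟩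
  · intro t _
    rfl

theorem K1 (j : ℕ) (t : ℕ) (ht : t ∈ Finset.range (2 ^ (j + 1))) :
    ∑ t' ∈ TT j, w ((t' : ℝ) - t) ≤ 2 * j + 6 := by
  have h := sum_w j (TT j) (t : ℤ) (fun t' ht' => by
    have h1 := Finset.mem_range.1 ht
    have h2 := Finset.mem_Ico.1 ht'
    have e1 : (2 : ℕ) ^ (j + 1) = 2 * 2 ^ j := by ring
    have e2 : (2 : ℕ) ^ (j + 2) = 4 * 2 ^ j := by ring
    have e3 : (((2 : ℕ) ^ j : ℕ) : ℤ) = (2 : ℤ) ^ j := by push_cast; ring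
    rw [e1] at h1
    rw [e2]
    rw [← e3] at h2
    omega)
  simpa using h

theorem K2 (j : ℕ) (t' : ℤ) (ht' : t' ∈ TT j) :
    ∑ t ∈ Finset.range (2 ^ (j + 1)), w ((t' : ℝ) - t) ≤ 2 * j + 6 := by
  have h := sum_w j (Finset.Ico (0 : ℤ) ((2 ^ (j + 1) : ℕ) : ℤ)) t' (fun t ht => by
    have h1 := Finset.mem_Ico.1 ht
    have h2 := Finset.mem_Ico.1 ht'
    have e1 : (2 : ℕ) ^ (j + 1) = 2 * 2 ^ j := by ring
    have e2 : (2 : ℕ) ^ (j + 2) = 4 * 2 ^ j := by ring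
    have e3 : (((2 : ℕ) ^ j : ℕ) : ℤ) = (2 : ℤ) ^ j := by push_cast; ring
    rw [e1] at h1
    rw [e2]
    rw [← e3] at h2
    push_cast at h1
    omega)
  rw [← sum_range_int _ (fun t : ℤ => w ((t : ℝ) - t'))] at h
  refine le_trans (le_of_eq ?_) h
  refine Finset.sum_congr rfl fun t _ => ?_
  rw [w_symm]
  simp

/-! ### The blocks and the cells -/

theorem ee_cont : Continuous ee := by
  unfold ee
  fun_prop

theorem hJ_cont (j : ℕ) (g : ℝ → ℂ) (J : ℕ) : Continuous (hJ j g J) := by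
  unfold hJ
  refine continuous_finsetSum _ fun l _ => ?_
  refine continuous_const.mul (ee_cont.comp ?_)
  fun_prop

theorem enorm_sq (z : ℂ) : ‖z‖ₑ ^ 2 = ENNReal.ofReal (‖z‖ ^ 2) := by
  rw [ENNReal.ofReal_pow (norm_nonneg z), ofReal_norm]

/-- the `t`-th cell -/
def cell (j : ℕ) (t : ℤ) : Set ℝ := Ico ((t : ℝ) / 2 ^ (j + 2)) (((t : ℝ) + 1) / 2 ^ (j + 2))

theorem cell_floor (j : ℕ) (t : ℤ) (s : ℝ) (hs : s ∈ cell j t) : ⌊(2 : ℝ) ^ (j + 2) * s⌋ = t := by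
  obtain ⟨h1, h2⟩ := hs
  have hp : (0 : ℝ) < 2 ^ (j + 2) := by positivity
  rw [div_le_iff₀ hp] at h1
  rw [lt_div_iff₀ hp] at h2
  rw [Int.floor_eq_iff]
  constructor
  · linarith
  · linarith

theorem mem_cell (j : ℕ) (s : ℝ) : s ∈ cell j ⌊(2 : ℝ) ^ (j + 2) * s⌋ := by
  have hp : (0 : ℝ) < 2 ^ (j + 2) := by positivity
  constructor
  · rw [div_le_iff₀ hp]
    have := Int.floor_le ((2 : ℝ) ^ (j + 2) * s)
    linarith
  · rw [lt_div_iff₀ hp]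
    have := Int.lt_floor_add_one ((2 : ℝ) ^ (j + 2) * s)
    linarith

theorem vol_cell (j : ℕ) (t : ℤ) : volume (cell j t) = ENNReal.ofReal (1 / 2 ^ (j + 2)) := by
  unfold cell
  rw [Real.volume_Ico]
  congr 1
  ring

theorem lint_biUnion {ι : Type} (S : Finset ι) (A : ι → Set ℝ) (f : ℝ → ℝ≥0∞) :
    ∫⁻ s in ⋃ i ∈ S, A i, f s ≤ ∑ i ∈ S, ∫⁻ s in A i, f s := by
  classical
  induction S using Finset.induction_on with
  | empty => simp
  | insert a S ha ih =>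
    rw [Finset.set_biUnion_insert, Finset.sum_insert ha]
    refine (lintegral_union_le _ _ _).trans ?_
    gcongr

/-- integral over a period -/
theorem period_le (j : ℕ) (F : ℤ → ℝ) (hF : ∀ t, 0 ≤ F t) (G : ℝ → ℝ) (hG : Continuous G)
    (hG0 : ∀ s, 0 ≤ G s)
    (h : ∀ s, -(1 / 4) ≤ s → s < 3 / 4 → G s ≤ F ⌊(2 : ℝ) ^ (j + 2) * s⌋) :
    ∫ s in (-(1 / 4) : ℝ)..3 / 4, G s ≤ 1 / 2 ^ (j + 2) * ∑ t ∈ TT j, F t := by
  have h0 : 0 ≤ 1 / 2 ^ (j + 2) * ∑ t ∈ TT j, F t :=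
    mul_nonneg (by positivity) (Finset.sum_nonneg fun t _ => hF t)
  rw [← ENNReal.ofReal_le_ofReal_iff h0, intervalIntegral.integral_of_le (by norm_num)]
  rw [ofReal_integral_eq_lintegral_ofReal]
  · rw [← setLIntegral_congr (Ico_ae_eq_Ioc (μ := volume) (a := (-(1 / 4) : ℝ)) (b := 3 / 4))]
    have hsub : Ico (-(1 / 4) : ℝ) (3 / 4) ⊆ ⋃ t ∈ TT j, (cell j t ∩ Ico (-(1 / 4) : ℝ) (3 / 4)) := by
      intro s hs
      simp only [mem_iUnion]
      refine ⟨⌊(2 : ℝ) ^ (j + 2) * s⌋, ?_, mem_cell j s, hs⟩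
      have e2 : (2 : ℝ) ^ (j + 2) = 4 * 2 ^ j := by ring
      have hp : (0 : ℝ) < 2 ^ j := by positivity
      rw [TT, Finset.mem_Ico, Int.le_floor, Int.floor_lt]
      push_cast
      constructor
      · rw [e2]; nlinarith [hs.1]
      · rw [e2]; nlinarith [hs.2]
    refine (lintegral_mono_set hsub).trans ((lint_biUnion _ _ _).trans ?_)
    rw [Finset.mul_sum, ENNReal.ofReal_sum_of_nonneg
      (fun t _ => mul_nonneg (by positivity) (hF t))]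
    refine Finset.sum_le_sum fun t _ => ?_
    calc ∫⁻ s in cell j t ∩ Ico (-(1 / 4) : ℝ) (3 / 4), ENNReal.ofReal (G s)
        ≤ ∫⁻ s in cell j t ∩ Ico (-(1 / 4) : ℝ) (3 / 4), ENNReal.ofReal (F t) := by
          apply setLIntegral_mono' (measurableSet_Ico.inter measurableSet_Ico)
          intro s hs
          apply ENNReal.ofReal_le_ofReal
          have := h s hs.2.1 hs.2.2
          rwa [cell_floor j t s hs.1] at this
      _ ≤ ∫⁻ s in cell j t, ENNReal.ofReal (F t) := lintegral_mono_set inter_subset_left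
      _ = ENNReal.ofReal (1 / 2 ^ (j + 2) * F t) := by
          rw [setLIntegral_const, vol_cell, ENNReal.ofReal_mul (by positivity), mul_comm]
  · exact (hG.integrableOn_Icc (a := (-(1 / 4) : ℝ)) (b := 3 / 4)).mono_set Ioc_subset_Icc_self
  · exact Filter.Eventually.of_forall hG0

/-- a lower bound for the integral over a period -/
theorem cell_le (j : ℕ) (t : ℕ) (ht : t ∈ Finset.range (2 ^ (j + 1))) (F : ℝ → ℝ≥0∞) (G : ℝ → ℝ)
    (hG : Continuous G) (hG0 : ∀ s, 0 ≤ G s) (h : ∀ s ∈ cell j t, F s ≤ ENNReal.ofReal (G s)) :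
    ∫⁻ s in cell j t, F s ≤ ENNReal.ofReal (∫ s in (-(1 / 4) : ℝ)..3 / 4, G s) := by
  rw [intervalIntegral.integral_of_le (by norm_num), ofReal_integral_eq_lintegral_ofReal]
  · have hsub : cell j t ⊆ Ioc (-(1 / 4) : ℝ) (3 / 4) := by
      intro s hs
      have h1 := hs.1
      have h2 := hs.2
      have ht' := Finset.mem_range.1 ht
      have hp : (0 : ℝ) < 2 ^ (j + 2) := by positivity
      have ht2 : ((t : ℤ) : ℝ) + 1 ≤ 2 ^ (j + 1) := by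
        have : t + 1 ≤ 2 ^ (j + 1) := ht'
        push_cast
        exact_mod_cast this
      have ht0 : (0 : ℝ) ≤ ((t : ℤ) : ℝ) := by push_cast; exact Nat.cast_nonneg t
      have h3 : (((t : ℤ) : ℝ) + 1) / 2 ^ (j + 2) ≤ 1 / 2 := by
        rw [div_le_iff₀ hp]
        have : (2 : ℝ) ^ (j + 2) = 2 * 2 ^ (j + 1) := by ring
        rw [this]
        linarith
      have h4 : (0 : ℝ) ≤ ((t : ℤ) : ℝ) / 2 ^ (j + 2) := by positivity
      constructor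
      · linarith
      · linarith
    calc ∫⁻ s in cell j t, F s ≤ ∫⁻ s in cell j t, ENNReal.ofReal (G s) :=
          setLIntegral_mono' measurableSet_Ico h
      _ ≤ ∫⁻ s in Ioc (-(1 / 4) : ℝ) (3 / 4), ENNReal.ofReal (G s) := lintegral_mono_set hsub
  · exact (hG.integrableOn_Icc (a := (-(1 / 4) : ℝ)) (b := 3 / 4)).mono_set Ioc_subset_Icc_self
  · exact Filter.Eventually.of_forall hG0

/-- the weighted energy of a finite sum of blocks -/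
noncomputable def BB (j : ℕ) (φ : ℝ → ℝ) (g : ℕ → ℝ → ℂ) (D : Finset ℕ) : ℝ :=
  ∫ s in (-(1 / 4) : ℝ)..3 / 4, φ s * ‖∑ J ∈ D, hJ j (g J) J s‖ ^ 2

theorem DD_sum (Λ : Finset ℕ) (s N : ℕ) (A : ℕ → ℝ) (hA : ∀ J, 0 ≤ A J) :
    ∑ i ∈ Finset.range N, ∑ J ∈ DD Λ s i, A J ≤ ∑ J ∈ Λ, A J := by
  unfold DD
  rw [Finset.sum_fiberwise_eq_sum_filter]
  exact Finset.sum_le_sum_of_subset_of_nonneg (Finset.filter_subset _ _) fun J _ _ => hA J

/-- the contribution of `Λ` in one cell -/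
theorem one_set (j n : ℕ) (φ : ℝ → ℝ) (hφ : Continuous φ) (g : ℕ → ℝ → ℂ) (Λ : Finset ℕ)
    (hφ0 : ∀ s, 0 ≤ φ s)
    (hcell : ∀ D : Finset ℕ, BB j φ g D ≤ 3 * ∑ J ∈ D, BB j φ g {J}) :
    ∫ s in (-(1 / 4) : ℝ)..3 / 4, φ s * (2 * (n + 1) * ∑ s' ∈ Finset.range (n + 1),
      ∑ i ∈ Finset.range (2 ^ n), ‖∑ J ∈ DD Λ s' i, hJ j (g J) J s‖ ^ 2) ≤
    6 * (n + 1) ^ 2 * ∑ J ∈ Λ, BB j φ g {J} := by
  have hB0 : ∀ D : Finset ℕ, 0 ≤ BB j φ g D := by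
    intro D
    apply intervalIntegral.integral_nonneg (by norm_num)
    intro s _
    exact mul_nonneg (hφ0 s) (sq_nonneg _)
  have hc : ∀ D : Finset ℕ, Continuous fun s => φ s * ‖∑ J ∈ D, hJ j (g J) J s‖ ^ 2 := by
    intro D
    exact hφ.mul ((continuous_finsetSum _ fun J _ => hJ_cont j (g J) J).norm.pow 2)
  have h1 : ∫ s in (-(1 / 4) : ℝ)..3 / 4, φ s * (2 * (n + 1) * ∑ s' ∈ Finset.range (n + 1),
      ∑ i ∈ Finset.range (2 ^ n), ‖∑ J ∈ DD Λ s' i, hJ j (g J) J s‖ ^ 2) =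
      2 * (n + 1) * ∑ s' ∈ Finset.range (n + 1), ∑ i ∈ Finset.range (2 ^ n),
        BB j φ g (DD Λ s' i) := by
    have h2 : ∀ s, φ s * (2 * (n + 1) * ∑ s' ∈ Finset.range (n + 1),
        ∑ i ∈ Finset.range (2 ^ n), ‖∑ J ∈ DD Λ s' i, hJ j (g J) J s‖ ^ 2) =
        2 * (n + 1) * ∑ s' ∈ Finset.range (n + 1), ∑ i ∈ Finset.range (2 ^ n),
          φ s * ‖∑ J ∈ DD Λ s' i, hJ j (g J) J s‖ ^ 2 := by
      intro s
      simp only [Finset.mul_sum]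
      refine Finset.sum_congr rfl fun s' _ => Finset.sum_congr rfl fun i _ => ?_
      ring
    simp only [h2]
    rw [intervalIntegral.integral_const_mul, intervalIntegral.integral_finsetSum]
    · congr 1
      refine Finset.sum_congr rfl fun s' _ => ?_
      rw [intervalIntegral.integral_finsetSum]
      · rfl
      · intro i _
        exact (hc _).intervalIntegrable _ _
    · intro s' _
      exact (continuous_finsetSum _ fun i _ => hc _).intervalIntegrable _ _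
  rw [h1]
  have h3 : ∀ s' ∈ Finset.range (n + 1), ∑ i ∈ Finset.range (2 ^ n), BB j φ g (DD Λ s' i) ≤
      3 * ∑ J ∈ Λ, BB j φ g {J} := by
    intro s' _
    calc ∑ i ∈ Finset.range (2 ^ n), BB j φ g (DD Λ s' i) ≤
          ∑ i ∈ Finset.range (2 ^ n), 3 * ∑ J ∈ DD Λ s' i, BB j φ g {J} :=
          Finset.sum_le_sum fun i _ => hcell _
      _ = 3 * ∑ i ∈ Finset.range (2 ^ n), ∑ J ∈ DD Λ s' i, BB j φ g {J} := by
          rw [← Finset.mul_sum]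
      _ ≤ 3 * ∑ J ∈ Λ, BB j φ g {J} := by
          have := DD_sum Λ s' (2 ^ n) (fun J => BB j φ g {J}) (fun J => hB0 _)
          linarith
  have h4 : ∑ s' ∈ Finset.range (n + 1), ∑ i ∈ Finset.range (2 ^ n), BB j φ g (DD Λ s' i) ≤
      (n + 1) * (3 * ∑ J ∈ Λ, BB j φ g {J}) := by
    refine (Finset.sum_le_sum h3).trans ?_
    simp
  have hn : (0 : ℝ) ≤ 2 * (n + 1) := by positivity
  calc 2 * ((n : ℝ) + 1) * ∑ s' ∈ Finset.range (n + 1), ∑ i ∈ Finset.range (2 ^ n),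
        BB j φ g (DD Λ s' i) ≤ 2 * (n + 1) * ((n + 1) * (3 * ∑ J ∈ Λ, BB j φ g {J})) :=
        mul_le_mul_of_nonneg_left h4 hn
    _ = 6 * (n + 1) ^ 2 * ∑ J ∈ Λ, BB j φ g {J} := by ring

/-- one cell -/
theorem one_cell (hRM : tRM) (j κ q n t : ℕ) (ht : t ∈ Finset.range (2 ^ (j + 1))) (φ : ℝ → ℝ)
    (hφ : Continuous φ) (hφ0 : ∀ s, 0 ≤ φ s) (hφ1 : ∀ s ∈ cell j t, 1 ≤ φ s)
    (g : ℕ → ℝ → ℂ) (μ ν : ℕ → ℝ → ℕ) (h1 : ∀ k s, μ k s ≤ ν k s)
    (h2 : ∀ k s, ν k s ≤ μ (k + 1) s) (h3 : ∀ k s, ν k s ≤ 2 ^ κ) (Λ : Finset ℕ)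
    (hΛ : Λ.card ≤ 2 ^ n)
    (hcell : ∀ D : Finset ℕ, BB j φ g D ≤ 3 * ∑ J ∈ D, BB j φ g {J}) :
    ∫⁻ s in cell j t, ∑ k ∈ Finset.range q,
      ‖∑ J ∈ Finset.Ico (μ k s) (ν k s), hJ j (g J) J s‖ₑ ^ 2 ≤
    ENNReal.ofReal (12 * (n + 1) ^ 2 * ∑ J ∈ Λ, BB j φ g {J} +
      12 * (κ + 1) ^ 2 * ∑ J ∈ Finset.range (2 ^ κ) \ Λ, BB j φ g {J}) := by
  classical
  set Λc := Finset.range (2 ^ κ) \ Λ with hΛc
  have hΛcc : Λc.card ≤ 2 ^ κ := by
    refine (Finset.card_le_card Finset.sdiff_subset).trans ?_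
    simp
  let R : ℕ → Finset ℕ → ℝ → ℝ := fun n Λ s => 2 * (n + 1) * ∑ s' ∈ Finset.range (n + 1),
      ∑ i ∈ Finset.range (2 ^ n), ‖∑ J ∈ DD Λ s' i, hJ j (g J) J s‖ ^ 2
  have hR0 : ∀ n Λ s, 0 ≤ R n Λ s := by
    intro n Λ s
    refine mul_nonneg (by positivity) (Finset.sum_nonneg fun s' _ => Finset.sum_nonneg fun i _ => ?_)
    positivity
  have hRc : ∀ n Λ, Continuous fun s => φ s * R n Λ s := by
    intro n Λ
    refine hφ.mul (continuous_const.mul ?_)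
    refine continuous_finsetSum _ fun s' _ => continuous_finsetSum _ fun i _ => ?_
    exact ((continuous_finsetSum _ fun J _ => hJ_cont j (g J) J).norm.pow 2)
  let G : ℝ → ℝ := fun s => 2 * (φ s * R n Λ s) + 2 * (φ s * R κ Λc s)
  have hG : Continuous G := (continuous_const.mul (hRc _ _)).add (continuous_const.mul (hRc _ _))
  have hG0 : ∀ s, 0 ≤ G s := by
    intro s
    have := mul_nonneg (hφ0 s) (hR0 n Λ s)
    have := mul_nonneg (hφ0 s) (hR0 κ Λc s)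
    simp only [G]
    linarith
  refine (cell_le j t ht _ G hG hG0 ?_).trans ?_
  · intro s hs
    have e1 : ∑ k ∈ Finset.range q, ‖∑ J ∈ Finset.Ico (μ k s) (ν k s), hJ j (g J) J s‖ₑ ^ 2 =
        ENNReal.ofReal (∑ k ∈ Finset.range q,
          ‖∑ J ∈ Finset.Ico (μ k s) (ν k s), hJ j (g J) J s‖ ^ 2) := by
      rw [ENNReal.ofReal_sum_of_nonneg (fun k _ => sq_nonneg _)]
      exact Finset.sum_congr rfl fun k _ => enorm_sq _
    rw [e1]
    apply ENNReal.ofReal_le_ofReal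
    have hk : ∀ k ∈ Finset.range q, ‖∑ J ∈ Finset.Ico (μ k s) (ν k s), hJ j (g J) J s‖ ^ 2 ≤
        2 * ‖∑ J ∈ Λ with μ k s ≤ J ∧ J < ν k s, hJ j (g J) J s‖ ^ 2 +
        2 * ‖∑ J ∈ Λc with μ k s ≤ J ∧ J < ν k s, hJ j (g J) J s‖ ^ 2 := by
      intro k _
      have e2 : ∑ J ∈ Finset.Ico (μ k s) (ν k s), hJ j (g J) J s =
          (∑ J ∈ Λ with μ k s ≤ J ∧ J < ν k s, hJ j (g J) J s) +
          ∑ J ∈ Λc with μ k s ≤ J ∧ J < ν k s, hJ j (g J) J s := by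
        rw [← Finset.sum_union]
        · apply Finset.sum_congr _ fun _ _ => rfl
          ext J
          simp only [Finset.mem_Ico, Finset.mem_union, Finset.mem_filter, hΛc, Finset.mem_sdiff,
            Finset.mem_range]
          constructor
          · intro h
            by_cases hJ : J ∈ Λ
            · exact Or.inl ⟨hJ, h⟩
            · exact Or.inr ⟨⟨lt_of_lt_of_le h.2 (h3 k s), hJ⟩, h⟩
          · rintro (h | h)
            · exact h.2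
            · exact h.2
        · rw [Finset.disjoint_left]
          intro J hJ hJ'
          simp only [Finset.mem_filter, hΛc, Finset.mem_sdiff] at hJ hJ'
          exact hJ'.1.2 hJ.1
      rw [e2]
      set a := ∑ J ∈ Λ with μ k s ≤ J ∧ J < ν k s, hJ j (g J) J s
      set b := ∑ J ∈ Λc with μ k s ≤ J ∧ J < ν k s, hJ j (g J) J s
      have h5 := norm_add_le a b
      have h6 : ‖a + b‖ ^ 2 ≤ (‖a‖ + ‖b‖) ^ 2 := by gcongr
      nlinarith [sq_nonneg (‖a‖ - ‖b‖)]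
    refine (Finset.sum_le_sum hk).trans ?_
    rw [Finset.sum_add_distrib, ← Finset.mul_sum, ← Finset.mul_sum]
    have r1 := hRM n q Λ (fun J => hJ j (g J) J s) (fun k => μ k s) (fun k => ν k s) hΛ
      (fun k => h1 k s) (fun k => h2 k s)
    have r2 := hRM κ q Λc (fun J => hJ j (g J) J s) (fun k => μ k s) (fun k => ν k s) hΛcc
      (fun k => h1 k s) (fun k => h2 k s)
    have p1 : R n Λ s ≤ φ s * R n Λ s := le_mul_of_one_le_left (hR0 _ _ _) (hφ1 s hs)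
    have p2 : R κ Λc s ≤ φ s * R κ Λc s := le_mul_of_one_le_left (hR0 _ _ _) (hφ1 s hs)
    have r1' := r1.trans p1
    have r2' := r2.trans p2
    simp only [G]
    linarith
  · apply ENNReal.ofReal_le_ofReal
    have e3 : ∫ s in (-(1 / 4) : ℝ)..3 / 4, G s =
        2 * (∫ s in (-(1 / 4) : ℝ)..3 / 4, φ s * R n Λ s) +
        2 * (∫ s in (-(1 / 4) : ℝ)..3 / 4, φ s * R κ Λc s) := by
      simp only [G]
      rw [intervalIntegral.integral_add, intervalIntegral.integral_const_mul,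
        intervalIntegral.integral_const_mul]
      · exact (continuous_const.mul (hRc _ _)).intervalIntegrable _ _
      · exact (continuous_const.mul (hRc _ _)).intervalIntegrable _ _
    rw [e3]
    have s1 := one_set j n φ hφ g Λ hφ0 hcell
    have s2 := one_set j κ φ hφ g Λc hφ0 hcell
    linarith

/-! ### The coefficients -/

theorem bd_int (H : ℝ → ℂ) (h : Bd1 H) :
    Integrable (fun s => ‖H s‖) ∧ Integrable (fun s => ‖H s‖ ^ 2) := by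
  obtain ⟨hm, ⟨B, hB⟩, R, hR⟩ := h
  have hfin : volume (Icc (-R) R) ≠ ∞ := by simp
  have key : ∀ (F : ℝ → ℝ) (c : ℝ), Measurable F → (∀ s, |F s| ≤ c) → (∀ s, F s ≠ 0 → |s| ≤ R) →
      Integrable F := by
    intro F c hF hc hsup
    have h1 : Integrable ((Icc (-R) R).indicator F) := by
      rw [integrable_indicator_iff measurableSet_Icc]
      exact Measure.integrableOn_of_bounded hfin hF.aestronglyMeasurable (M := c)
        (Filter.Eventually.of_forall fun s => hc s)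
    have h2 : (Icc (-R) R).indicator F = F := by
      rw [Set.indicator_eq_self]
      intro s hs
      exact abs_le.1 (hsup s hs)
    rwa [h2] at h1
  constructor
  · refine key _ B hm.norm (fun s => ?_) (fun s hs => hR s ?_)
    · rw [abs_norm]
      exact hB s
    · intro h0
      exact hs (by rw [h0, norm_zero])
  · refine key _ (B ^ 2) (hm.norm.pow_const 2) (fun s => ?_) (fun s hs => hR s ?_)
    · rw [abs_pow, abs_norm]
      exact pow_le_pow_left₀ (norm_nonneg _) (hB s) 2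
    · intro h0
      exact hs (by rw [h0]; simp)

/-- Cauchy-Schwarz on an interval -/
theorem cs_int (a b : ℝ) (hab : a < b) (f : ℝ → ℝ) (h1 : IntervalIntegrable f volume a b)
    (h2 : IntervalIntegrable (fun s => f s ^ 2) volume a b) :
    (∫ s in a..b, f s) ^ 2 ≤ (b - a) * ∫ s in a..b, f s ^ 2 := by
  set I := ∫ s in a..b, f s with hI
  set c := I / (b - a) with hc
  have hba : 0 < b - a := by linarith
  have h0 : 0 ≤ ∫ s in a..b, (f s - c) ^ 2 :=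
    intervalIntegral.integral_nonneg hab.le fun s _ => sq_nonneg _
  have h3 : ∫ s in a..b, (f s - c) ^ 2 = (∫ s in a..b, f s ^ 2) - 2 * c * I + c ^ 2 * (b - a) := by
    have h4 : ∀ s, (f s - c) ^ 2 = f s ^ 2 - 2 * c * f s + c ^ 2 := fun s => by ring
    simp only [h4]
    rw [intervalIntegral.integral_add (h2.sub (h1.const_mul _)) (by simp),
      intervalIntegral.integral_sub h2 (h1.const_mul _), intervalIntegral.integral_const_mul,
      intervalIntegral.integral_const, smul_eq_mul]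
    ring
  rw [h3] at h0
  have h5 : 2 * c * I - c ^ 2 * (b - a) = I ^ 2 / (b - a) := by
    rw [hc]
    field_simp
    ring
  have h6 : I ^ 2 / (b - a) ≤ ∫ s in a..b, f s ^ 2 := by linarith
  rw [div_le_iff₀ hba] at h6
  linarith

/-- the average of `|g_J|` in a cell (with the factor of the kernel) -/
noncomputable def aa (j : ℕ) (g : ℕ → ℝ → ℂ) (J t : ℕ) : ℝ :=
  2 ^ j * ∫ s' in (t / 2 ^ (j + 2) : ℝ)..((t + 1) / 2 ^ (j + 2)), ‖g J s'‖

/-- the majorant of `h_J` -/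
noncomputable def mm (j : ℕ) (g : ℕ → ℝ → ℂ) (J : ℕ) (t' : ℤ) : ℝ :=
  ∑ t ∈ Finset.range (2 ^ (j + 1)), w ((t' : ℝ) - t) * aa j g J t

/-- the smeared majorant -/
noncomputable def cc (j : ℕ) (g : ℕ → ℝ → ℂ) (J t : ℕ) : ℝ :=
  ∑ t' ∈ TT j, w ((t' : ℝ) - t) * mm j g J t'

theorem aa_nonneg (j : ℕ) (g : ℕ → ℝ → ℂ) (J t : ℕ) : 0 ≤ aa j g J t := by
  unfold aa
  refine mul_nonneg (by positivity) (intervalIntegral.integral_nonneg ?_ fun s _ => norm_nonneg _)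
  gcongr
  linarith

theorem mm_nonneg (j : ℕ) (g : ℕ → ℝ → ℂ) (J : ℕ) (t' : ℤ) : 0 ≤ mm j g J t' :=
  Finset.sum_nonneg fun _ _ => mul_nonneg (w_pos _).le (aa_nonneg _ _ _ _)

theorem cc_nonneg (j : ℕ) (g : ℕ → ℝ → ℂ) (J t : ℕ) : 0 ≤ cc j g J t :=
  Finset.sum_nonneg fun _ _ => mul_nonneg (w_pos _).le (mm_nonneg _ _ _ _)

theorem F1 (j t : ℕ) (CΦ CK : ℝ) (hCΦ : 0 ≤ CΦ) (φ : ℝ → ℝ) (hφ : Continuous φ)
    (hφ0 : ∀ s, 0 ≤ φ s)
    (hφ2 : ∀ s, -(1 / 4) ≤ s → s < 3 / 4 → φ s ≤ CΦ * w ((⌊(2 : ℝ) ^ (j + 2) * s⌋ : ℝ) - t) ^ 2)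
    (g : ℕ → ℝ → ℂ) (J : ℕ)
    (hK : ∀ s, -(1 / 4) ≤ s → s < 3 / 4 → ‖hJ j (g J) J s‖ ≤
      CK * mm j g J ⌊(2 : ℝ) ^ (j + 2) * s⌋) :
    BB j φ g {J} ≤ 1 / 2 ^ (j + 2) * (CΦ * CK ^ 2 * cc j g J t ^ 2) := by
  have h1 := period_le j (fun t' => CΦ * CK ^ 2 * (w ((t' : ℝ) - t) * mm j g J t') ^ 2)
    (fun t' => by positivity) (fun s => φ s * ‖hJ j (g J) J s‖ ^ 2)
    (hφ.mul ((hJ_cont j (g J) J).norm.pow 2)) (fun s => mul_nonneg (hφ0 s) (sq_nonneg _))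
    (fun s hs1 hs2 => by
      have a1 := hφ2 s hs1 hs2
      have a2 := hK s hs1 hs2
      have a3 : ‖hJ j (g J) J s‖ ^ 2 ≤ (CK * mm j g J ⌊(2 : ℝ) ^ (j + 2) * s⌋) ^ 2 := by gcongr
      calc φ s * ‖hJ j (g J) J s‖ ^ 2 ≤ (CΦ * w ((⌊(2 : ℝ) ^ (j + 2) * s⌋ : ℝ) - t) ^ 2) *
            (CK * mm j g J ⌊(2 : ℝ) ^ (j + 2) * s⌋) ^ 2 :=
            mul_le_mul a1 a3 (sq_nonneg _) (by positivity)
        _ = _ := by ring)
  have h2 : BB j φ g {J} = ∫ s in (-(1 / 4) : ℝ)..3 / 4, φ s * ‖hJ j (g J) J s‖ ^ 2 := by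
    unfold BB
    simp only [Finset.sum_singleton]
  rw [h2]
  refine h1.trans ?_
  apply mul_le_mul_of_nonneg_left _ (by positivity)
  rw [← Finset.mul_sum]
  apply mul_le_mul_of_nonneg_left _ (by positivity)
  unfold cc
  exact Finset.sum_sq_le_sq_sum_of_nonneg fun t' _ => mul_nonneg (w_pos _).le (mm_nonneg _ _ _ _)

theorem F2 (j N : ℕ) (CΦ I : ℝ) (hCΦ : 0 ≤ CΦ) (Φ : ℕ → ℝ → ℝ)
    (hφ : ∀ t, Continuous (Φ t))
    (hφ2 : ∀ t ∈ Finset.range N, ∀ s, -(1 / 4) ≤ s → s < 3 / 4 →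
      Φ t s ≤ CΦ * w ((⌊(2 : ℝ) ^ (j + 2) * s⌋ : ℝ) - t) ^ 2)
    (g : ℕ → ℝ → ℂ) (J : ℕ)
    (hK : ∫ s in (-(1 / 4) : ℝ)..3 / 4, ‖hJ j (g J) J s‖ ^ 2 ≤ I) :
    ∑ t ∈ Finset.range N, BB j (Φ t) g {J} ≤ 4 * CΦ * I := by
  have hc : ∀ t, Continuous fun s => Φ t s * ‖hJ j (g J) J s‖ ^ 2 := fun t =>
    (hφ t).mul ((hJ_cont j (g J) J).norm.pow 2)
  have h1 : ∑ t ∈ Finset.range N, BB j (Φ t) g {J} =
      ∫ s in (-(1 / 4) : ℝ)..3 / 4, ∑ t ∈ Finset.range N, Φ t s * ‖hJ j (g J) J s‖ ^ 2 := by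
    rw [intervalIntegral.integral_finsetSum fun t _ => (hc t).intervalIntegrable _ _]
    refine Finset.sum_congr rfl fun t _ => ?_
    unfold BB
    simp only [Finset.sum_singleton]
  rw [h1]
  have h2 : ∫ s in (-(1 / 4) : ℝ)..3 / 4, ∑ t ∈ Finset.range N, Φ t s * ‖hJ j (g J) J s‖ ^ 2 ≤
      ∫ s in (-(1 / 4) : ℝ)..3 / 4, 4 * CΦ * ‖hJ j (g J) J s‖ ^ 2 := by
    apply intervalIntegral.integral_mono_on_of_le_Ioo (by norm_num)
    · exact (continuous_finsetSum _ fun t _ => hc t).intervalIntegrable _ _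
    · exact (continuous_const.mul ((hJ_cont j (g J) J).norm.pow 2)).intervalIntegrable _ _
    · intro s hs
      rw [← Finset.sum_mul]
      apply mul_le_mul_of_nonneg_right _ (sq_nonneg _)
      have h3 : ∑ t ∈ Finset.range N, Φ t s ≤ ∑ t ∈ Finset.range N,
          CΦ * w ((⌊(2 : ℝ) ^ (j + 2) * s⌋ : ℝ) - t) ^ 2 :=
        Finset.sum_le_sum fun t ht => hφ2 t ht s hs.1.le hs.2
      refine h3.trans ?_
      rw [← Finset.mul_sum]
      have h4 := sum_w_sq (Finset.Ico (0 : ℤ) N) ⌊(2 : ℝ) ^ (j + 2) * s⌋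
      rw [← sum_range_int N (fun t : ℤ => w ((t : ℝ) - ⌊(2 : ℝ) ^ (j + 2) * s⌋) ^ 2)] at h4
      have h5 : ∑ t ∈ Finset.range N, w ((⌊(2 : ℝ) ^ (j + 2) * s⌋ : ℝ) - t) ^ 2 ≤ 4 := by
        refine le_trans (le_of_eq ?_) h4
        refine Finset.sum_congr rfl fun t _ => ?_
        rw [w_symm]
        simp
      nlinarith
  refine h2.trans ?_
  rw [intervalIntegral.integral_const_mul]
  exact mul_le_mul_of_nonneg_left hK (by positivity)

/-- Schur twice -/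
theorem F3 (j : ℕ) (g : ℕ → ℝ → ℂ) (L : Finset ℕ) :
    ∑ t ∈ Finset.range (2 ^ (j + 1)), (∑ J ∈ L, cc j g J t) ^ 2 ≤
      (2 * j + 6) ^ 4 * ∑ t ∈ Finset.range (2 ^ (j + 1)), (∑ J ∈ L, aa j g J t) ^ 2 := by
  have hW : (0 : ℝ) ≤ 2 * j + 6 := by positivity
  have e1 : ∀ t, ∑ J ∈ L, cc j g J t =
      ∑ t' ∈ TT j, w ((t' : ℝ) - t) * ∑ J ∈ L, mm j g J t' := by
    intro t
    unfold cc
    rw [Finset.sum_comm]
    simp only [Finset.mul_sum]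
  have e2 : ∀ t' : ℤ, ∑ J ∈ L, mm j g J t' =
      ∑ t ∈ Finset.range (2 ^ (j + 1)), w ((t' : ℝ) - t) * ∑ J ∈ L, aa j g J t := by
    intro t
    unfold mm
    rw [Finset.sum_comm]
    simp only [Finset.mul_sum]
  have s1 := schur (Finset.range (2 ^ (j + 1))) (TT j) (fun t t' => w ((t' : ℝ) - t))
    (fun t' => ∑ J ∈ L, mm j g J t') (2 * j + 6) (fun _ _ _ _ => (w_pos _).le)
    (fun t ht => K1 j t ht) (fun t' ht' => K2 j t' ht') hW
  have s2 := schur (TT j) (Finset.range (2 ^ (j + 1))) (fun t' t => w ((t' : ℝ) - t))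
    (fun t => ∑ J ∈ L, aa j g J t) (2 * j + 6) (fun _ _ _ _ => (w_pos _).le)
    (fun t' ht' => K2 j t' ht') (fun t ht => K1 j t ht) hW
  simp only [e1]
  refine s1.trans ?_
  simp only [e2]
  calc ((2 : ℝ) * j + 6) ^ 2 * ∑ t' ∈ TT j, (∑ t ∈ Finset.range (2 ^ (j + 1)),
        w ((t' : ℝ) - t) * ∑ J ∈ L, aa j g J t) ^ 2
      ≤ (2 * j + 6) ^ 2 * ((2 * j + 6) ^ 2 * ∑ t ∈ Finset.range (2 ^ (j + 1)),
        (∑ J ∈ L, aa j g J t) ^ 2) := mul_le_mul_of_nonneg_left s2 (by positivity)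
    _ = _ := by ring

/-- the mass in the cells -/
theorem F4 (j q : ℕ) (g : ℕ → ℝ → ℂ) (L : Finset ℕ) (hg : ∀ J, Bd1 (g J))
    (hq : ∀ s, {J ∈ L | g J s ≠ 0}.card ≤ 2 * q) :
    1 / 2 ^ (j + 2) * ∑ t ∈ Finset.range (2 ^ (j + 1)), (∑ J ∈ L, aa j g J t) ^ 2 ≤
      q / 8 * ∑ J ∈ L, ∫ s, ‖g J s‖ ^ 2 := by
  classical
  have i1 : ∀ (J : ℕ) (a b : ℝ), IntervalIntegrable (fun s => ‖g J s‖) volume a b := fun J a b =>
    (bd_int (g J) (hg J)).1.intervalIntegrable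
  have i2 : ∀ (J : ℕ) (a b : ℝ), IntervalIntegrable (fun s => ‖g J s‖ ^ 2) volume a b :=
    fun J a b => (bd_int (g J) (hg J)).2.intervalIntegrable
  have hpt : ∀ s, (∑ J ∈ L, ‖g J s‖) ^ 2 ≤ 2 * q * ∑ J ∈ L, ‖g J s‖ ^ 2 := by
    intro s
    have e1 : ∑ J ∈ L, ‖g J s‖ = ∑ J ∈ L with g J s ≠ 0, ‖g J s‖ := by
      rw [Finset.sum_filter_of_ne]
      intro J _ h h0
      exact h (by rw [h0, norm_zero])
    have e2 : ∑ J ∈ L with g J s ≠ 0, ‖g J s‖ ^ 2 ≤ ∑ J ∈ L, ‖g J s‖ ^ 2 :=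
      Finset.sum_le_sum_of_subset_of_nonneg (Finset.filter_subset _ _) fun _ _ _ => sq_nonneg _
    rw [e1]
    refine sq_sum_le_card_mul_sum_sq.trans ?_
    have h3 : (({J ∈ L | g J s ≠ 0}.card : ℕ) : ℝ) ≤ 2 * q := by exact_mod_cast hq s
    apply mul_le_mul h3 e2 (Finset.sum_nonneg fun _ _ => sq_nonneg _) (by positivity)
  -- integrability of the square of the sum
  have i3 : ∀ a b : ℝ, IntervalIntegrable (fun s => (∑ J ∈ L, ‖g J s‖) ^ 2) volume a b := by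
    intro a b
    have hm : Measurable fun s => (∑ J ∈ L, ‖g J s‖) ^ 2 :=
      (Finset.measurable_sum _ fun J _ => (hg J).1.norm).pow_const 2
    have h0 : IntervalIntegrable (fun s => 2 * q * ∑ J ∈ L, ‖g J s‖ ^ 2) volume a b := by
      apply IntervalIntegrable.const_mul
      have := IntervalIntegrable.sum L (f := fun J s => ‖g J s‖ ^ 2) (fun J _ => i2 J a b)
      simpa [Finset.sum_fn] using this
    refine h0.mono_fun hm.aestronglyMeasurable (Filter.Eventually.of_forall fun s => ?_)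
    have h1 := hpt s
    simp only
    rw [Real.norm_of_nonneg (sq_nonneg _), Real.norm_of_nonneg]
    · exact h1
    · exact (sq_nonneg _).trans h1
  have i4 : ∀ a b : ℝ, IntervalIntegrable (fun s => ∑ J ∈ L, ‖g J s‖) volume a b := by
    intro a b
    have := IntervalIntegrable.sum L (f := fun J s => ‖g J s‖) (fun J _ => i1 J a b)
    simpa [Finset.sum_fn] using this
  have i5 : ∀ a b : ℝ, IntervalIntegrable (fun s => 2 * q * ∑ J ∈ L, ‖g J s‖ ^ 2) volume a b := by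
    intro a b
    apply IntervalIntegrable.const_mul
    have := IntervalIntegrable.sum L (f := fun J s => ‖g J s‖ ^ 2) (fun J _ => i2 J a b)
    simpa [Finset.sum_fn] using this
  have hp : (0 : ℝ) < 2 ^ (j + 2) := by positivity
  let u : ℕ → ℝ := fun t => (t : ℝ) / 2 ^ (j + 2)
  have hu : ∀ t : ℕ, u (t + 1) = ((t : ℝ) + 1) / 2 ^ (j + 2) := fun t => by
    simp only [u]
    push_cast
    rfl
  have hcellb : ∀ t : ℕ, 1 / 2 ^ (j + 2) * (∑ J ∈ L, aa j g J t) ^ 2 ≤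
      q / 8 * ∫ s in u t..u (t + 1), ∑ J ∈ L, ‖g J s‖ ^ 2 := by
    intro t
    have e1 : ∑ J ∈ L, aa j g J t = 2 ^ j * ∫ s in u t..u (t + 1), ∑ J ∈ L, ‖g J s‖ := by
      rw [intervalIntegral.integral_finsetSum fun J _ => i1 J _ _, Finset.mul_sum]
      refine Finset.sum_congr rfl fun J _ => ?_
      unfold aa
      rw [hu]
    have hlt : u t < u (t + 1) := by
      rw [hu]
      simp only [u]
      gcongr
      linarith
    have hd : u (t + 1) - u t = 1 / 2 ^ (j + 2) := by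
      rw [hu]
      simp only [u]
      ring
    have c1 := cs_int (u t) (u (t + 1)) hlt (fun s => ∑ J ∈ L, ‖g J s‖) (i4 _ _) (i3 _ _)
    have c2 : ∫ s in u t..u (t + 1), (∑ J ∈ L, ‖g J s‖) ^ 2 ≤
        ∫ s in u t..u (t + 1), 2 * q * ∑ J ∈ L, ‖g J s‖ ^ 2 :=
      intervalIntegral.integral_mono_on hlt.le (i3 _ _) (i5 _ _) fun s _ => hpt s
    rw [intervalIntegral.integral_const_mul] at c2
    rw [hd] at c1
    set X := ∫ s in u t..u (t + 1), ∑ J ∈ L, ‖g J s‖ ^ 2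
    have c3 : (∫ s in u t..u (t + 1), ∑ J ∈ L, ‖g J s‖) ^ 2 ≤ 1 / 2 ^ (j + 2) * (2 * q * X) :=
      c1.trans (mul_le_mul_of_nonneg_left c2 (by positivity))
    rw [e1, mul_pow]
    calc (1 : ℝ) / 2 ^ (j + 2) * ((2 ^ j) ^ 2 * (∫ s in u t..u (t + 1), ∑ J ∈ L, ‖g J s‖) ^ 2)
        ≤ 1 / 2 ^ (j + 2) * ((2 ^ j) ^ 2 * (1 / 2 ^ (j + 2) * (2 * q * X))) := by gcongr
      _ = q / 8 * X := by
        have : (2 : ℝ) ^ (j + 2) = 4 * 2 ^ j := by ring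
        rw [this]
        have h2 : (2 : ℝ) ^ j ≠ 0 := by positivity
        field_simp
        ring
  have hsum : ∑ t ∈ Finset.range (2 ^ (j + 1)), ∫ s in u t..u (t + 1), ∑ J ∈ L, ‖g J s‖ ^ 2 ≤
      ∑ J ∈ L, ∫ s, ‖g J s‖ ^ 2 := by
    have i6 : ∀ a b : ℝ, IntervalIntegrable (fun s => ∑ J ∈ L, ‖g J s‖ ^ 2) volume a b := by
      intro a b
      have := IntervalIntegrable.sum L (f := fun J s => ‖g J s‖ ^ 2) (fun J _ => i2 J a b)
      simpa [Finset.sum_fn] using this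
    rw [intervalIntegral.sum_integral_adjacent_intervals fun k _ => i6 _ _]
    rw [← integral_finsetSum L fun J _ => (bd_int (g J) (hg J)).2]
    have hle : u 0 ≤ u (2 ^ (j + 1)) := by
      simp only [u]
      gcongr
      exact Nat.zero_le _
    rw [intervalIntegral.integral_of_le hle]
    apply setIntegral_le_integral
    · exact integrable_finsetSum _ fun J _ => (bd_int (g J) (hg J)).2
    · exact Filter.Eventually.of_forall fun s => Finset.sum_nonneg fun _ _ => sq_nonneg _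
  rw [Finset.mul_sum]
  calc ∑ t ∈ Finset.range (2 ^ (j + 1)), 1 / 2 ^ (j + 2) * (∑ J ∈ L, aa j g J t) ^ 2
      ≤ ∑ t ∈ Finset.range (2 ^ (j + 1)), (q : ℝ) / 8 *
        ∫ s in u t..u (t + 1), ∑ J ∈ L, ‖g J s‖ ^ 2 := Finset.sum_le_sum fun t _ => hcellb t
    _ = q / 8 * ∑ t ∈ Finset.range (2 ^ (j + 1)), ∫ s in u t..u (t + 1), ∑ J ∈ L, ‖g J s‖ ^ 2 := by
        rw [Finset.mul_sum]
    _ ≤ _ := mul_le_mul_of_nonneg_left hsum (by positivity)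

/-! ### Assembly -/

theorem lg_pos (n : ℕ) : 1 ≤ lg n := by
  unfold lg
  omega

theorem lt_lg (n : ℕ) : n < 2 ^ lg n := by
  unfold lg
  exact Nat.lt_pow_succ_log_self (by norm_num) n

theorem lg_five (κ : ℕ) : lg (κ + 5) ≤ lg (κ + 1) + 3 := by
  unfold lg
  have h1 : Nat.log 2 (κ + 5) ≤ Nat.log 2 ((κ + 1) * 2 * 2 * 2) :=
    Nat.log_mono_right (by omega)
  rw [Nat.log_mul_base (by norm_num) (by omega), Nat.log_mul_base (by norm_num) (by omega),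
    Nat.log_mul_base (by norm_num) (by omega)] at h1
  omega

/-- the popular blocks of a cell -/
theorem popular (L : Finset ℕ) (c : ℕ → ℝ) (hc : ∀ J, 0 ≤ c J) (M : ℕ) :
    ∃ Λ ⊆ L, Λ.card ≤ M ∧ (M : ℝ) * ∑ J ∈ L \ Λ, c J ^ 2 ≤ (∑ J ∈ L, c J) ^ 2 := by
  classical
  set σ := ∑ J ∈ L, c J with hσ
  have hσ0 : 0 ≤ σ := Finset.sum_nonneg fun J _ => hc J
  refine ⟨{J ∈ L | σ < M * c J}, Finset.filter_subset _ _, ?_, ?_⟩
  · rcases Finset.eq_empty_or_nonempty {J ∈ L | σ < M * c J} with h | ⟨J, hJ⟩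
    · rw [h]
      simp
    · obtain ⟨hJL, hJ2⟩ := Finset.mem_filter.1 hJ
      have hcJ : c J ≤ σ := Finset.single_le_sum (fun J _ => hc J) hJL
      have hcpos : 0 < c J := by
        rcases (hc J).lt_or_eq with h | h
        · exact h
        · rw [← h, mul_zero] at hJ2
          linarith
      have hσpos : 0 < σ := by linarith
      have h1 : (({J ∈ L | σ < M * c J}.card : ℕ) : ℝ) * σ ≤ M * σ := by
        calc (({J ∈ L | σ < M * c J}.card : ℕ) : ℝ) * σ = ∑ J ∈ L with σ < M * c J, σ := by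
              rw [Finset.sum_const, nsmul_eq_mul]
          _ ≤ ∑ J ∈ L with σ < M * c J, M * c J :=
              Finset.sum_le_sum fun J hJ => (Finset.mem_filter.1 hJ).2.le
          _ ≤ ∑ J ∈ L, M * c J := Finset.sum_le_sum_of_subset_of_nonneg (Finset.filter_subset _ _)
              fun J _ _ => mul_nonneg (Nat.cast_nonneg _) (hc J)
          _ = M * σ := by rw [← Finset.mul_sum]
      have h2 := le_of_mul_le_mul_right h1 hσpos
      exact_mod_cast h2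
  · have h1 : ∀ J ∈ L \ {J ∈ L | σ < M * c J}, (M : ℝ) * c J ^ 2 ≤ σ * c J := by
      intro J hJ
      rw [Finset.mem_sdiff] at hJ
      have h2 : ¬ σ < M * c J := fun h => hJ.2 (Finset.mem_filter.2 ⟨hJ.1, h⟩)
      push Not at h2
      nlinarith [hc J]
    rw [Finset.mul_sum]
    refine (Finset.sum_le_sum h1).trans ?_
    rw [← Finset.mul_sum, pow_two]
    apply mul_le_mul_of_nonneg_left _ hσ0
    exact Finset.sum_le_sum_of_subset_of_nonneg Finset.sdiff_subset fun J _ _ => hc J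

theorem num_bound (j κ q : ℕ) (hj : j ≤ κ) (hq : 1 ≤ q) (X : ℝ) (hX : 0 ≤ X) :
    12 * ((κ : ℝ) + 1) ^ 2 * ((2 * j + 6) ^ 4 * (q / 8 * X)) ≤
      24 * ((q * (κ + 5) ^ 6 : ℕ) : ℝ) * X := by
  have hj' : (j : ℝ) ≤ κ := by exact_mod_cast hj
  have hj0 : (0 : ℝ) ≤ j := Nat.cast_nonneg j
  have hκ0 : (0 : ℝ) ≤ κ := Nat.cast_nonneg κ
  have hq0 : (0 : ℝ) ≤ q := Nat.cast_nonneg q
  have h1 : (2 * (j : ℝ) + 6) ^ 4 ≤ (2 * (κ + 5)) ^ 4 := by
    apply pow_le_pow_left₀ (by positivity)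
    linarith
  have h2 : ((κ : ℝ) + 1) ^ 2 ≤ (κ + 5) ^ 2 := by
    apply pow_le_pow_left₀ (by positivity)
    linarith
  have h3 : ((κ : ℝ) + 1) ^ 2 * (2 * j + 6) ^ 4 ≤ (κ + 5) ^ 2 * (2 * (κ + 5)) ^ 4 :=
    mul_le_mul h2 h1 (by positivity) (by positivity)
  have h4 : 0 ≤ 12 * ((q : ℝ) / 8 * X) := by positivity
  push_cast
  calc 12 * ((κ : ℝ) + 1) ^ 2 * ((2 * j + 6) ^ 4 * (q / 8 * X)) =
        (((κ : ℝ) + 1) ^ 2 * (2 * j + 6) ^ 4) * (12 * (q / 8 * X)) := by ring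
    _ ≤ ((κ + 5) ^ 2 * (2 * (κ + 5)) ^ 4) * (12 * (q / 8 * X)) :=
        mul_le_mul_of_nonneg_right h3 h4
    _ = _ := by ring

/-- the second part -/
theorem part2 (N : ℕ) (L : Finset ℕ) (A : ℕ → ℕ → ℝ) (c : ℕ → ℕ → ℝ) (Λ : ℕ → Finset ℕ)
    (M l C k W Y X : ℝ) (hM : 0 < M) (hl : 0 ≤ l) (hC : 0 ≤ C) (hk : 0 ≤ k)
    (hA1 : ∀ t ∈ Finset.range N, ∀ J, A t J ≤ l * (C * c J t ^ 2))
    (hΛ : ∀ t, M * ∑ J ∈ L \ Λ t, c J t ^ 2 ≤ (∑ J ∈ L, c J t) ^ 2)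
    (hS : l * ∑ t ∈ Finset.range N, (∑ J ∈ L, c J t) ^ 2 ≤ W * Y)
    (hnum : k * (W * Y) ≤ 24 * M * X) :
    ∑ t ∈ Finset.range N, k * ∑ J ∈ L \ Λ t, A t J ≤ 24 * C * X := by
  have h1 : ∀ t ∈ Finset.range N, M * ∑ J ∈ L \ Λ t, A t J ≤
      C * (l * (∑ J ∈ L, c J t) ^ 2) := by
    intro t ht
    have h2 : ∑ J ∈ L \ Λ t, A t J ≤ l * C * ∑ J ∈ L \ Λ t, c J t ^ 2 := by
      rw [Finset.mul_sum]
      refine Finset.sum_le_sum fun J _ => (hA1 t ht J).trans (le_of_eq ?_)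
      ring
    have h3 : 0 ≤ l * C := mul_nonneg hl hC
    calc M * ∑ J ∈ L \ Λ t, A t J ≤ M * (l * C * ∑ J ∈ L \ Λ t, c J t ^ 2) :=
          mul_le_mul_of_nonneg_left h2 hM.le
      _ = l * C * (M * ∑ J ∈ L \ Λ t, c J t ^ 2) := by ring
      _ ≤ l * C * (∑ J ∈ L, c J t) ^ 2 := mul_le_mul_of_nonneg_left (hΛ t) h3
      _ = _ := by ring
  have h4 : M * ∑ t ∈ Finset.range N, k * ∑ J ∈ L \ Λ t, A t J ≤ M * (24 * C * X) := by
    calc M * ∑ t ∈ Finset.range N, k * ∑ J ∈ L \ Λ t, A t J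
        = k * ∑ t ∈ Finset.range N, M * ∑ J ∈ L \ Λ t, A t J := by
          rw [← Finset.mul_sum, ← Finset.mul_sum]
          ring
      _ ≤ k * ∑ t ∈ Finset.range N, C * (l * (∑ J ∈ L, c J t) ^ 2) :=
          mul_le_mul_of_nonneg_left (Finset.sum_le_sum h1) hk
      _ = C * (k * (l * ∑ t ∈ Finset.range N, (∑ J ∈ L, c J t) ^ 2)) := by
          rw [← Finset.mul_sum, ← Finset.mul_sum]
          ring
      _ ≤ C * (k * (W * Y)) :=
          mul_le_mul_of_nonneg_left (mul_le_mul_of_nonneg_left hS hk) hC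
      _ ≤ C * (24 * M * X) := mul_le_mul_of_nonneg_left hnum hC
      _ = M * (24 * C * X) := by ring
  exact le_of_mul_le_mul_left h4 hM

theorem part1 (N : ℕ) (L : Finset ℕ) (A : ℕ → ℕ → ℝ) (Λ : ℕ → Finset ℕ) (I : ℕ → ℝ) (C : ℝ)
    (hA0 : ∀ t J, 0 ≤ A t J) (hA2 : ∀ J, ∑ t ∈ Finset.range N, A t J ≤ C * I J)
    (hΛL : ∀ t, Λ t ⊆ L) :
    ∑ t ∈ Finset.range N, ∑ J ∈ Λ t, A t J ≤ C * ∑ J ∈ L, I J := by
  calc ∑ t ∈ Finset.range N, ∑ J ∈ Λ t, A t J ≤ ∑ t ∈ Finset.range N, ∑ J ∈ L, A t J :=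
        Finset.sum_le_sum fun t _ =>
          Finset.sum_le_sum_of_subset_of_nonneg (hΛL t) fun J _ _ => hA0 t J
    _ = ∑ J ∈ L, ∑ t ∈ Finset.range N, A t J := Finset.sum_comm
    _ ≤ ∑ J ∈ L, C * I J := Finset.sum_le_sum fun J _ => hA2 J
    _ = C * ∑ J ∈ L, I J := by rw [← Finset.mul_sum]

theorem part3 (N : ℕ) (P Q : ℕ → ℝ) (n ll CΦ CK X : ℝ) (hn : 0 ≤ n) (hn2 : (n + 1) ^ 2 ≤ 625 * ll)
    (hll : 1 ≤ ll) (hX : 0 ≤ X) (hCΦ : 0 ≤ CΦ) (hP0 : 0 ≤ ∑ t ∈ Finset.range N, P t)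
    (hP : ∑ t ∈ Finset.range N, P t ≤ 4 * CΦ * X)
    (hQ : ∑ t ∈ Finset.range N, Q t ≤ 24 * (CΦ * CK ^ 2) * X) :
    ∑ t ∈ Finset.range N, (12 * (n + 1) ^ 2 * P t + Q t) ≤
      (30000 * CΦ + 24 * CΦ * CK ^ 2) * ll * X := by
  rw [Finset.sum_add_distrib, ← Finset.mul_sum]
  have h1 : 12 * (n + 1) ^ 2 * ∑ t ∈ Finset.range N, P t ≤ 12 * (625 * ll) * (4 * CΦ * X) := by
    apply mul_le_mul _ hP hP0 (by positivity)
    linarith
  have h2 : 24 * (CΦ * CK ^ 2) * X ≤ 24 * (CΦ * CK ^ 2) * X * ll := by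
    apply le_mul_of_one_le_right _ hll
    positivity
  calc _ ≤ 12 * (625 * ll) * (4 * CΦ * X) + 24 * (CΦ * CK ^ 2) * X * ll :=
        add_le_add h1 (hQ.trans h2)
    _ = _ := by ring

theorem cover (j : ℕ) : Ico (0 : ℝ) (1 / 2) ⊆
    ⋃ t ∈ Finset.range (2 ^ (j + 1)), cell j ((t : ℕ) : ℤ) := by
  intro s hs
  simp only [mem_iUnion]
  have hp : (0 : ℝ) < 2 ^ (j + 2) := by positivity
  have h0 : 0 ≤ ⌊(2 : ℝ) ^ (j + 2) * s⌋ := Int.floor_nonneg.2 (mul_nonneg hp.le hs.1)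
  refine ⟨⌊(2 : ℝ) ^ (j + 2) * s⌋.toNat, ?_, ?_⟩
  · rw [Finset.mem_range]
    have h1 : ⌊(2 : ℝ) ^ (j + 2) * s⌋ < ((2 ^ (j + 1) : ℕ) : ℤ) := by
      rw [Int.floor_lt]
      push_cast
      have : (2 : ℝ) ^ (j + 2) = 2 * 2 ^ (j + 1) := by ring
      rw [this]
      have hp1 : (0 : ℝ) < 2 ^ (j + 1) := by positivity
      nlinarith [hs.2]
    omega
  · rw [Int.toNat_of_nonneg h0]
    exact mem_cell j s

theorem nbound (κ q : ℕ) : q * (κ + 5) ^ 6 ≤ 2 ^ (lg q + 6 * lg (κ + 5)) := by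
  have h1 := (lt_lg q).le
  have h2 := (lt_lg (κ + 5)).le
  calc q * (κ + 5) ^ 6 ≤ 2 ^ lg q * (2 ^ lg (κ + 5)) ^ 6 :=
        Nat.mul_le_mul h1 (Nat.pow_le_pow_left h2 6)
    _ = 2 ^ (lg q + 6 * lg (κ + 5)) := by
        rw [pow_add, ← pow_mul]
        congr 2
        ring

theorem n1_eq (H : ℝ → ℂ) (h : Bd1 H) : n1 H = ENNReal.ofReal (∫ s, ‖H s‖ ^ 2) := by
  unfold n1
  rw [ofReal_integral_eq_lintegral_ofReal (bd_int H h).2
    (Filter.Eventually.of_forall fun s => sq_nonneg _)]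
  exact lintegral_congr fun s => enorm_sq _

end Sparse_

open Sparse_

theorem pSparse (hRM : tRM) (hCell : tCell) (hKer : tKer) (hBes : tBes) : tSparse := by
  obtain ⟨CΦ, Φ, hΦc, hΦ0, hΦ1, hΦ2, hΦ3⟩ := hCell
  obtain ⟨CK, hCK⟩ := hKer
  refine ⟨30000 * CΦ + 24 * CΦ * CK ^ 2, ?_⟩
  intro j κ q g μ ν hjκ hg hgs hgq _ _ hμν hνμ hνκ
  rcases Nat.eq_zero_or_pos q with hq | hq
  · subst hq
    simp
  have hI0 : ∀ J, 0 ≤ ∫ s, ‖g J s‖ ^ 2 := fun J => integral_nonneg fun s => sq_nonneg _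
  -- sizes
  obtain ⟨n, hn⟩ : ∃ n, n = lg q + 6 * lg (κ + 5) := ⟨_, rfl⟩
  have hMn : q * (κ + 5) ^ 6 ≤ 2 ^ n := by
    rw [hn]
    exact nbound κ q
  have hn25 : n + 1 ≤ 25 * (lg q + lg (κ + 1)) := by
    have h1 := lg_five κ
    have h2 := lg_pos (κ + 1)
    have h3 := lg_pos q
    omega
  clear hn
  -- the energies
  have hw2 : ∀ t ∈ Finset.range (2 ^ (j + 1)), ∀ s, -(1 / 4) ≤ s → s < 3 / 4 →
      Φ j (t : ℤ) s ≤ CΦ * w ((⌊(2 : ℝ) ^ (j + 2) * s⌋ : ℝ) - t) ^ 2 := by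
    intro t ht s hs1 hs2
    have ht' : t < 2 ^ (j + 1) := Finset.mem_range.1 ht
    have ht1 : (0 : ℤ) ≤ (t : ℤ) := Int.natCast_nonneg t
    have ht2 : (t : ℤ) < 2 ^ (j + 1) := by exact_mod_cast ht'
    have h := hΦ2 j (t : ℤ) s ht1 ht2 hs1 hs2
    refine h.trans (le_of_eq ?_)
    unfold w
    push_cast
    rw [inv_pow, div_eq_mul_inv]
  have hA1 : ∀ t ∈ Finset.range (2 ^ (j + 1)), ∀ J, BB j (Φ j t) g {J} ≤
      1 / 2 ^ (j + 2) * (CΦ * CK ^ 2 * cc j g J t ^ 2) := by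
    intro t ht J
    exact F1 j t CΦ CK CΦ.2 (Φ j t) (hΦc j t) (hΦ0 j t) (hw2 t ht) g J
      (hCK j J (g J) (hg J) (hgs J)).1
  have hA2 : ∀ J, ∑ t ∈ Finset.range (2 ^ (j + 1)), BB j (Φ j t) g {J} ≤
      4 * CΦ * ∫ s, ‖g J s‖ ^ 2 := by
    intro J
    refine F2 j (2 ^ (j + 1)) CΦ _ CΦ.2 (fun t => Φ j t) (fun t => hΦc j t) hw2 g J ?_
    rw [(hCK j J (g J) (hg J) (hgs J)).2]
    exact hBes _ (g J) (hg J) (hgs J)
  have hA0 : ∀ t J : ℕ, 0 ≤ BB j (Φ j t) g {J} := by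
    intro t J
    apply intervalIntegral.integral_nonneg (by norm_num)
    intro s _
    exact mul_nonneg (hΦ0 _ _ _) (sq_nonneg _)
  have hcell : ∀ (t : ℕ) (D : Finset ℕ), BB j (Φ j t) g D ≤ 3 * ∑ J ∈ D, BB j (Φ j t) g {J} := by
    intro t D
    have := hΦ3 j t D g hg
    unfold BB
    simp only [Finset.sum_singleton]
    exact this
  -- the popular blocks
  obtain ⟨M, hM⟩ : ∃ M, M = q * (κ + 5) ^ 6 := ⟨_, rfl⟩
  have hMpos : (0 : ℝ) < M := by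
    have : 0 < M := by
      rw [hM]
      exact Nat.mul_pos hq (by positivity)
    exact_mod_cast this
  have hnum := num_bound j κ q hjκ hq (∑ J ∈ Finset.range (2 ^ κ), ∫ s, ‖g J s‖ ^ 2)
    (Finset.sum_nonneg fun J _ => hI0 J)
  rw [← hM] at hMn hnum
  clear hM
  choose Λ hΛL hΛM hΛs using fun t => popular (Finset.range (2 ^ κ)) (fun J => cc j g J t)
    (fun J => cc_nonneg j g J t) M
  have hone : ∀ t ∈ Finset.range (2 ^ (j + 1)),
      ∫⁻ s in cell j t, ∑ k ∈ Finset.range q,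
        ‖∑ J ∈ Finset.Ico (μ k s) (ν k s), hJ j (g J) J s‖ₑ ^ 2 ≤
      ENNReal.ofReal (12 * (n + 1) ^ 2 * ∑ J ∈ Λ t, BB j (Φ j t) g {J} +
        12 * (κ + 1) ^ 2 * ∑ J ∈ Finset.range (2 ^ κ) \ Λ t, BB j (Φ j t) g {J}) := by
    intro t ht
    exact one_cell hRM j κ q n t ht (Φ j t) (hΦc j t) (hΦ0 j t)
      (fun s hs => hΦ1 j t s (cell_floor j t s hs)) g μ ν hμν hνμ hνκ (Λ t)
      ((hΛM t).trans hMn) (hcell t)
  clear hΛM hMn
  -- sum over the cells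
  have htotal : ∫⁻ s in Ico (0 : ℝ) (1 / 2), ∑ k ∈ Finset.range q,
      ‖∑ J ∈ Finset.Ico (μ k s) (ν k s), hJ j (g J) J s‖ₑ ^ 2 ≤
      ENNReal.ofReal (∑ t ∈ Finset.range (2 ^ (j + 1)), (12 * (n + 1) ^ 2 *
        ∑ J ∈ Λ t, BB j (Φ j t) g {J} +
        12 * (κ + 1) ^ 2 * ∑ J ∈ Finset.range (2 ^ κ) \ Λ t, BB j (Φ j t) g {J})) := by
    refine (lintegral_mono_set (cover j)).trans ((lint_biUnion _ _ _).trans ?_)
    rw [ENNReal.ofReal_sum_of_nonneg]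
    · exact Finset.sum_le_sum hone
    · intro t _
      have h1 : 0 ≤ ∑ J ∈ Λ t, BB j (Φ j t) g {J} := Finset.sum_nonneg fun J _ => hA0 t J
      have h2 : 0 ≤ ∑ J ∈ Finset.range (2 ^ κ) \ Λ t, BB j (Φ j t) g {J} :=
        Finset.sum_nonneg fun J _ => hA0 t J
      exact add_nonneg (mul_nonneg (by positivity) h1) (mul_nonneg (by positivity) h2)
  refine htotal.trans ?_
  clear htotal hone
  have hp1 := part1 (2 ^ (j + 1)) (Finset.range (2 ^ κ)) (fun t J => BB j (Φ j t) g {J}) Λ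
    (fun J => ∫ s, ‖g J s‖ ^ 2) (4 * CΦ) hA0 hA2 hΛL
  have hS : 1 / 2 ^ (j + 2) * ∑ t ∈ Finset.range (2 ^ (j + 1)),
      (∑ J ∈ Finset.range (2 ^ κ), cc j g J t) ^ 2 ≤
      (2 * j + 6) ^ 4 * (q / 8 * ∑ J ∈ Finset.range (2 ^ κ), ∫ s, ‖g J s‖ ^ 2) := by
    have h1 := F3 j g (Finset.range (2 ^ κ))
    have h2 := F4 j q g (Finset.range (2 ^ κ)) hg hgq
    have h3 : (0 : ℝ) ≤ 1 / 2 ^ (j + 2) := by positivity
    have h4 : (0 : ℝ) ≤ (2 * (j : ℝ) + 6) ^ 4 := by positivity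
    calc _ ≤ 1 / 2 ^ (j + 2) * ((2 * (j : ℝ) + 6) ^ 4 * ∑ t ∈ Finset.range (2 ^ (j + 1)),
          (∑ J ∈ Finset.range (2 ^ κ), aa j g J t) ^ 2) := mul_le_mul_of_nonneg_left h1 h3
      _ = (2 * (j : ℝ) + 6) ^ 4 * (1 / 2 ^ (j + 2) * ∑ t ∈ Finset.range (2 ^ (j + 1)),
          (∑ J ∈ Finset.range (2 ^ κ), aa j g J t) ^ 2) := mul_left_comm _ _ _
      _ ≤ _ := mul_le_mul_of_nonneg_left h2 h4
  have hp2 := part2 (2 ^ (j + 1)) (Finset.range (2 ^ κ)) (fun t J => BB j (Φ j t) g {J})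
    (fun J t => cc j g J t) Λ M (1 / 2 ^ (j + 2)) (CΦ * CK ^ 2) (12 * ((κ : ℝ) + 1) ^ 2)
    ((2 * j + 6) ^ 4) (q / 8 * ∑ J ∈ Finset.range (2 ^ κ), ∫ s, ‖g J s‖ ^ 2)
    (∑ J ∈ Finset.range (2 ^ κ), ∫ s, ‖g J s‖ ^ 2) hMpos (by positivity)
    (mul_nonneg CΦ.2 (sq_nonneg _)) (by positivity) hA1 hΛs hS hnum
  -- together
  obtain ⟨ll, hll⟩ : ∃ ll, ll = lg q + lg (κ + 1) := ⟨_, rfl⟩
  rw [← hll] at hn25 ⊢
  have hll1 : (1 : ℝ) ≤ (ll : ℝ) ^ 2 := by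
    have : 1 ≤ ll := by
      rw [hll]
      exact (lg_pos q).trans (Nat.le_add_right _ _)
    have h1 : (1 : ℝ) ≤ ll := by exact_mod_cast this
    exact one_le_pow₀ h1
  have hn2 : ((n : ℝ) + 1) ^ 2 ≤ 625 * (ll : ℝ) ^ 2 := by
    have h1 : (n : ℝ) + 1 ≤ 25 * ll := by exact_mod_cast hn25
    calc ((n : ℝ) + 1) ^ 2 ≤ (25 * ll) ^ 2 := pow_le_pow_left₀ (by positivity) h1 2
      _ = 625 * (ll : ℝ) ^ 2 := by ring
  have hreal := part3 (2 ^ (j + 1)) (fun t => ∑ J ∈ Λ t, BB j (Φ j t) g {J})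
    (fun t => 12 * (κ + 1) ^ 2 * ∑ J ∈ Finset.range (2 ^ κ) \ Λ t, BB j (Φ j t) g {J})
    n (ll ^ 2) CΦ CK (∑ J ∈ Finset.range (2 ^ κ), ∫ s, ‖g J s‖ ^ 2) (Nat.cast_nonneg n) hn2 hll1
    (Finset.sum_nonneg fun J _ => hI0 J) CΦ.2
    (Finset.sum_nonneg fun t _ => Finset.sum_nonneg fun J _ => hA0 t J) hp1 hp2
  refine (ENNReal.ofReal_le_ofReal hreal).trans (le_of_eq ?_)
  have e1 : ∑ J ∈ Finset.range (2 ^ κ), n1 (g J) =
      ENNReal.ofReal (∑ J ∈ Finset.range (2 ^ κ), ∫ s, ‖g J s‖ ^ 2) := by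
    rw [ENNReal.ofReal_sum_of_nonneg fun J _ => hI0 J]
    exact Finset.sum_congr rfl fun J _ => n1_eq _ (hg J)
  rw [e1, ENNReal.ofReal_mul (by positivity), ENNReal.ofReal_mul (by positivity),
    ENNReal.ofReal_pow (by positivity), ENNReal.ofReal_natCast]
  congr 2
  have : (30000 * (CΦ : ℝ) + 24 * CΦ * CK ^ 2) = ((30000 * CΦ + 24 * CΦ * CK ^ 2 : ℝ≥0) : ℝ) := by
    push_cast
    ring
  rw [this, ENNReal.ofReal_coe_nnreal]

end Pool.Agent.KSP
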