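import Pool.Agent.KSP.Targets

set_option autoImplicit false

/-! KSP-SUPP: geometry of arcs. -/

namespace Pool.Agent.KSP

open MeasureTheory Set
open scoped ENNReal NNReal ComplexConjugate

namespace Supp_

lemma ga_cont (ρ : ℝ) : Continuous (ga ρ) := by
  unfold ga
  fun_prop

lemma arc_closed (j k : ℕ) (ρ : ℝ) (p : ℤ) : IsClosed (arc j k ρ p) := by
  have h := ga_cont ρ
  unfold arc
  simp only [Set.ofPred_and]
  refine IsClosed.inter (isClosed_le (by fun_prop) (by fun_prop)) ?_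
  refine IsClosed.inter (isClosed_le (by fun_prop) (by fun_prop)) ?_
  refine IsClosed.inter (isClosed_le (by fun_prop) (by fun_prop)) ?_
  exact isClosed_le (by fun_prop) (by fun_prop)

lemma ga_bounds {ρ y : ℝ} (hρ : 0 < ρ) (hy : |y| ≤ 4 / 5 * ρ) :
    ga ρ y ^ 2 = ρ ^ 2 - y ^ 2 ∧ 3 / 5 * ρ ≤ ga ρ y ∧ ga ρ y ≤ ρ := by
  have h1 : y ^ 2 ≤ (4 / 5 * ρ) ^ 2 := by
    rw [← sq_abs]
    exact pow_le_pow_left₀ (abs_nonneg _) hy 2
  have h2 : 0 ≤ ρ ^ 2 - y ^ 2 := by nlinarith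
  refine ⟨Real.sq_sqrt h2, ?_, ?_⟩
  · exact Real.le_sqrt_of_sq_le (by nlinarith)
  · exact Real.sqrt_le_iff.2 ⟨hρ.le, by nlinarith [sq_nonneg y]⟩

lemma ga_diff {ρ x c : ℝ} (hρ : 0 < ρ) (hx : |x| ≤ 4 / 5 * ρ) (hc : |c| ≤ 4 / 5 * ρ) :
    |ga ρ c - ga ρ x| ≤ 4 / 3 * |x - c| := by
  obtain ⟨a1, a2, a3⟩ := ga_bounds hρ hx
  obtain ⟨b1, b2, b3⟩ := ga_bounds hρ hc
  have h1 : |ga ρ c - ga ρ x| * (ga ρ c + ga ρ x) = |x - c| * |x + c| := by
    have e1 : |ga ρ c + ga ρ x| = ga ρ c + ga ρ x := abs_of_nonneg (by linarith)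
    rw [← e1, ← abs_mul, ← abs_mul]
    congr 1
    linear_combination b1 - a1
  have h2 : |x + c| ≤ 8 / 5 * ρ := (abs_add_le _ _).trans (by linarith)
  have h3 : |ga ρ c - ga ρ x| * (6 / 5 * ρ) ≤ |x - c| * (8 / 5 * ρ) := by
    calc |ga ρ c - ga ρ x| * (6 / 5 * ρ) ≤ |ga ρ c - ga ρ x| * (ga ρ c + ga ρ x) :=
          mul_le_mul_of_nonneg_left (by linarith) (abs_nonneg _)
      _ = |x - c| * |x + c| := h1
      _ ≤ _ := mul_le_mul_of_nonneg_left h2 (abs_nonneg _)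
  have h4 : |ga ρ c - ga ρ x| * (6 / 5 * ρ) ≤ (4 / 3 * |x - c|) * (6 / 5 * ρ) := by
    refine h3.trans (le_of_eq ?_)
    ring
  exact le_of_mul_le_mul_right h4 (by positivity)

lemma cross {ρ x c : ℝ} (hρ : 0 < ρ) (hx : |x| ≤ 4 / 5 * ρ) (hc : |c| ≤ 4 / 5 * ρ) :
    |x * ga ρ c - c * ga ρ x| ≤ 31 / 15 * ρ * |x - c| := by
  obtain ⟨b1, b2, b3⟩ := ga_bounds hρ hc
  have h1 := ga_diff hρ hx hc
  have e : x * ga ρ c - c * ga ρ x = (x - c) * ga ρ c + c * (ga ρ c - ga ρ x) := by ring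
  rw [e]
  refine (abs_add_le _ _).trans ?_
  rw [abs_mul, abs_mul, abs_of_nonneg (a := ga ρ c) (by linarith)]
  have h2 : |x - c| * ga ρ c ≤ |x - c| * ρ := mul_le_mul_of_nonneg_left b3 (abs_nonneg _)
  have h3 : |c| * |ga ρ c - ga ρ x| ≤ (4 / 5 * ρ) * (4 / 3 * |x - c|) :=
    mul_le_mul hc h1 (abs_nonneg _) (by positivity)
  nlinarith

/-- the centre of the strip, clamped -/
noncomputable def cl (k : ℕ) (ρ : ℝ) (p : ℤ) : ℝ :=
  max (-(19 / 25 * ρ)) (min (19 / 25 * ρ) (p / 2 ^ k))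

lemma cl_abs {k : ℕ} {ρ : ℝ} (hρ : 0 < ρ) (p : ℤ) : |cl k ρ p| ≤ 19 / 25 * ρ := by
  unfold cl
  rw [abs_le]
  exact ⟨le_max_left _ _, max_le (by linarith) (min_le_left _ _)⟩

lemma cl_dist {k : ℕ} {ρ x : ℝ} {p : ℤ} {M : ℝ} (hx : |x| ≤ 19 / 25 * ρ)
    (h : |x - p / 2 ^ k| ≤ M) : |x - cl k ρ p| ≤ M := by
  have hx' := abs_le.1 hx
  have h' := abs_le.1 h
  unfold cl
  rw [abs_le]
  rcases le_total (19 / 25 * ρ) (p / 2 ^ k) with h1 | h1
  · rw [min_eq_left h1, max_eq_right (by linarith)]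
    constructor <;> linarith
  · rw [min_eq_right h1]
    rcases le_total (-(19 / 25 * ρ)) (p / 2 ^ k) with h2 | h2
    · rw [max_eq_right h2]
      exact h'
    · rw [max_eq_left h2]
      constructor <;> linarith

end Supp_

open Supp_

theorem pArc : tArc := by
  refine ⟨9, fun j k ρ p _ _ => ⟨(arc_closed j k ρ p).measurableSet, ?_⟩⟩
  have hm := (arc_closed j k ρ p).measurableSet
  rw [Measure.volume_eq_prod, Measure.prod_apply_symm hm]
  have hsec : ∀ y : ℝ, volume ((fun x => (x, y)) ⁻¹' arc j k ρ p) ≤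
      (Icc ((p - 1 / 4) / 2 ^ k : ℝ) ((p + 5 / 4) / 2 ^ k)).indicator
        (fun _ => ENNReal.ofReal (6 / 2 ^ j)) y := by
    intro y
    by_cases hy : y ∈ Icc ((p - 1 / 4) / 2 ^ k : ℝ) ((p + 5 / 4) / 2 ^ k)
    · rw [indicator_of_mem hy]
      have hsub : (fun x => (x, y)) ⁻¹' arc j k ρ p ⊆
          Icc (ga ρ y - 3 / 2 ^ j) (ga ρ y + 3 / 2 ^ j) := by
        intro x hx
        have := abs_le.1 hx.2.2.2
        simp only at this
        exact ⟨by linarith [this.1], by linarith [this.2]⟩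
      refine (measure_mono hsub).trans ?_
      rw [Real.volume_Icc]
      apply ENNReal.ofReal_le_ofReal
      ring_nf
      exact le_rfl
    · rw [indicator_of_notMem hy]
      have hemp : (fun x => (x, y)) ⁻¹' arc j k ρ p = ∅ := by
        rw [eq_empty_iff_forall_notMem]
        intro x hx
        exact hy ⟨hx.2.1, hx.2.2.1⟩
      rw [hemp, measure_empty]
  refine (lintegral_mono hsec).trans ?_
  rw [lintegral_indicator measurableSet_Icc, setLIntegral_const, Real.volume_Icc]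
  rw [← ENNReal.ofReal_mul (by positivity)]
  have e : (6 / 2 ^ j * ((p + 5 / 4) / 2 ^ k - (p - 1 / 4) / 2 ^ k) : ℝ) =
      9 * (1 / 2 ^ j / 2 ^ k) := by
    field_simp
    ring
  rw [e, ENNReal.ofReal_mul (by norm_num)]
  norm_num

theorem pSupp : tSupp := by
  refine ⟨fun k ρ p => cl k ρ p / ga ρ (cl k ρ p), fun j k ρ p hj hk hρ1 hρ2 => ?_⟩
  have hρ : 0 < ρ := by linarith
  set c := cl k ρ p with hc
  have hca : |c| ≤ 19 / 25 * ρ := cl_abs hρ p
  have hc4 : |c| ≤ 4 / 5 * ρ := by linarith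
  obtain ⟨c1, c2, c3⟩ := ga_bounds hρ hc4
  have hgc : 0 < ga ρ c := by linarith
  refine ⟨?_, ?_⟩
  · rw [abs_div, abs_of_pos hgc, div_le_iff₀ hgc]
    linarith
  intro p' ξ η hp hV hann hfl hη2 hη1
  -- notation
  set K : ℝ := 2 ^ k with hK
  set J : ℝ := 2 ^ j with hJ
  have hK1 : 1 ≤ K := one_le_pow₀ (by norm_num)
  have hJ16 : 16 ≤ J := by
    calc (16 : ℝ) = 2 ^ 4 := by norm_num
      _ ≤ 2 ^ j := pow_le_pow_right₀ (by norm_num) hj
  have hKJ : K ^ 2 ≤ J := by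
    rw [hK, hJ, ← pow_mul]
    exact pow_le_pow_right₀ (by norm_num) (by omega)
  have hK0 : 0 < K := by linarith
  have hJ0 : 0 < J := by linarith
  have hKJ' : K / J ≤ 1 / K := by
    rw [div_le_div_iff₀ hJ0 hK0]
    nlinarith
  have hKJ4 : K / J ≤ 1 / 4 := by
    have h1 : (K / J) ^ 2 ≤ (1 / 4) ^ 2 := by
      rw [div_pow, div_le_iff₀ (by positivity)]
      nlinarith
    exact le_of_sq_le_sq h1 (by norm_num)
  -- the point ξ
  set x := ξ.2 with hx
  obtain ⟨hV1, -, -⟩ := hV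
  have hξ1 : 0 ≤ ξ.1 := (abs_nonneg _).trans hV1
  obtain ⟨hn1, hn2⟩ := hann
  have hnsq : nr ξ ^ 2 = ξ.1 ^ 2 + x ^ 2 := Real.sq_sqrt (by positivity)
  have hn0 : 0 ≤ nr ξ := Real.sqrt_nonneg _
  have hδ : 1 / J ≤ 1 / 16 := one_div_le_one_div_of_le (by norm_num) hJ16
  have hδ0 : 0 < 1 / J := by positivity
  have hnlo : ρ ^ 2 ≤ nr ξ ^ 2 := pow_le_pow_left₀ hρ.le hn1 2
  have hnhi : nr ξ ^ 2 ≤ (ρ + 1 / J) ^ 2 := pow_le_pow_left₀ hn0 hn2.le 2
  have hnhi' : nr ξ ^ 2 ≤ (17 / 16 * ρ) ^ 2 :=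
    hnhi.trans (pow_le_pow_left₀ (by positivity) (by linarith) 2)
  have hx2 : x ^ 2 ≤ ξ.1 ^ 2 := by
    rw [← sq_abs]
    exact pow_le_pow_left₀ (abs_nonneg _) hV1 2
  have hρsq : 0 < ρ ^ 2 := by positivity
  have hxs : x ^ 2 ≤ 289 / 512 * ρ ^ 2 := by
    have e1 : (17 / 16 * ρ) ^ 2 = 289 / 256 * ρ ^ 2 := by ring
    rw [e1] at hnhi'
    linarith
  have hxa : |x| ≤ 19 / 25 * ρ := by
    apply abs_le_of_sq_le_sq _ (by positivity)
    have e1 : (19 / 25 * ρ) ^ 2 = 361 / 625 * ρ ^ 2 := by ring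
    rw [e1]
    linarith
  have hx4 : |x| ≤ 4 / 5 * ρ := by linarith
  have hξl : 7 / 10 * ρ ≤ ξ.1 := by
    apply le_of_sq_le_sq _ hξ1
    have e1 : (7 / 10 * ρ) ^ 2 = 49 / 100 * ρ ^ 2 := by ring
    rw [e1]
    linarith
  obtain ⟨x1, x2, x3⟩ := ga_bounds hρ hx4
  have hgx : 13 / 20 * ρ ≤ ga ρ x := by
    apply le_of_sq_le_sq _ (by linarith)
    have e1 : (13 / 20 * ρ) ^ 2 = 169 / 400 * ρ ^ 2 := by ring
    rw [e1]
    linarith
  -- the first part
  have hA1 : (ξ.1 - ga ρ x) * (ξ.1 + ga ρ x) = nr ξ ^ 2 - ρ ^ 2 := by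
    linear_combination -hnsq - x1
  have hA0 : 0 ≤ ξ.1 - ga ρ x := by
    have h1 : 0 ≤ (ξ.1 - ga ρ x) * (ξ.1 + ga ρ x) := by rw [hA1]; linarith
    have h2 : 0 < ξ.1 + ga ρ x := by linarith
    exact nonneg_of_mul_nonneg_left h1 h2
  have hA : ξ.1 - ga ρ x ≤ 8 / 5 * (1 / J) := by
    have h1 : (ξ.1 - ga ρ x) * (27 / 20 * ρ) ≤ (ξ.1 - ga ρ x) * (ξ.1 + ga ρ x) :=
      mul_le_mul_of_nonneg_left (by linarith) hA0
    rw [hA1] at h1
    have h2 : nr ξ ^ 2 - ρ ^ 2 ≤ 33 / 16 * (ρ * (1 / J)) := by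
      have e1 : (ρ + 1 / J) ^ 2 = ρ ^ 2 + 2 * (ρ * (1 / J)) + (1 / J) * (1 / J) := by ring
      have e2 : (1 / J) * (1 / J) ≤ (1 / 16 * ρ) * (1 / J) :=
        mul_le_mul_of_nonneg_right (by linarith) hδ0.le
      have e3 : (1 / 16 * ρ) * (1 / J) = 1 / 16 * (ρ * (1 / J)) := by ring
      rw [e1] at hnhi
      rw [e3] at e2
      linarith
    have h3 : (ξ.1 - ga ρ x) * (27 / 20 * ρ) ≤ (8 / 5 * (1 / J)) * (27 / 20 * ρ) := by
      refine (h1.trans h2).trans ?_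
      have e1 : (8 / 5 * (1 / J)) * (27 / 20 * ρ) = 54 / 25 * (ρ * (1 / J)) := by ring
      rw [e1]
      have := mul_pos hρ hδ0
      linarith
    exact le_of_mul_le_mul_right h3 (by positivity)
  -- the point ζ
  set y := x + η.2 with hy
  have hη64 : |η.2| ≤ 1 / K / 64 := hη2.trans (by linarith)
  have hη256 : |η.2| ≤ 1 / 256 := hη2.trans (by linarith)
  have hy4 : |y| ≤ 4 / 5 * ρ := by
    refine (abs_add_le _ _).trans ?_
    linarith
  obtain ⟨y1, y2, y3⟩ := ga_bounds hρ hy4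
  -- distance to the centre
  have hfl1 : (p' : ℝ) ≤ K * x := by
    rw [← hfl]
    exact Int.floor_le _
  have hfl2 : K * x < p' + 1 := by
    rw [← hfl]
    exact Int.lt_floor_add_one _
  have hxp1 : (p' : ℝ) / K ≤ x := by
    rw [div_le_iff₀ hK0]
    linarith
  have hxp2 : x ≤ (p' + 1 : ℝ) / K := by
    rw [le_div_iff₀ hK0]
    linarith
  have hpp : |(p' : ℝ) - p| ≤ 3 := by exact_mod_cast hp
  have hpp' := abs_le.1 hpp
  have hxc : |x - c| ≤ 4 / K := by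
    apply cl_dist hxa
    rw [abs_le]
    have e1 : (p' : ℝ) / K = p / K + (p' - p) / K := by field_simp; ring
    have e2 : (p' + 1 : ℝ) / K = p / K + (p' - p + 1) / K := by field_simp; ring
    have e3 : -(3 / K) ≤ ((p' : ℝ) - p) / K := by
      rw [← neg_div]
      exact div_le_div_of_nonneg_right hpp'.1 hK0.le
    have e4 : ((p' : ℝ) - p + 1) / K ≤ 4 / K :=
      div_le_div_of_nonneg_right (by linarith [hpp'.2]) hK0.le
    have e5 : 3 / K ≤ 4 / K := div_le_div_of_nonneg_right (by norm_num) hK0.le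
    constructor
    · linarith
    · linarith
  have hyc : |y - c| ≤ 4 / K + 1 / K / 64 := by
    have e : y - c = (x - c) + η.2 := by rw [hy]; ring
    rw [e]
    exact (abs_add_le _ _).trans (add_le_add hxc hη64)
  -- the slope
  set s := (x + y) / (ga ρ x + ga ρ y) with hs
  have hgg : 0 < ga ρ x + ga ρ y := by linarith
  have hgs : ga ρ x - ga ρ y = s * η.2 := by
    rw [hs, div_mul_eq_mul_div, eq_div_iff hgg.ne']
    have : η.2 = y - x := by rw [hy]; ring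
    rw [this]
    linear_combination x1 - y1
  have hst : |s - c / ga ρ c| ≤ 25 / K := by
    have e : s - c / ga ρ c =
        ((x * ga ρ c - c * ga ρ x) + (y * ga ρ c - c * ga ρ y)) /
          ((ga ρ x + ga ρ y) * ga ρ c) := by
      rw [hs]
      field_simp
      ring
    have hden : 18 / 25 * ρ ^ 2 ≤ (ga ρ x + ga ρ y) * ga ρ c := by
      calc 18 / 25 * ρ ^ 2 = (6 / 5 * ρ) * (3 / 5 * ρ) := by ring
        _ ≤ _ := mul_le_mul (by linarith) c2 (by positivity) hgg.le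
    have hnum : |(x * ga ρ c - c * ga ρ x) + (y * ga ρ c - c * ga ρ y)| ≤
        31 / 15 * ρ * (|x - c| + |y - c|) := by
      refine (abs_add_le _ _).trans ?_
      rw [mul_add]
      exact add_le_add (cross hρ hx4 hc4) (cross hρ hy4 hc4)
    rw [e, abs_div, abs_of_pos (a := (ga ρ x + ga ρ y) * ga ρ c) (by positivity),
      div_le_iff₀ (by positivity)]
    refine hnum.trans ?_
    have h1 : |x - c| + |y - c| ≤ 8.02 * (1 / K) := by
      have : (4 : ℝ) / K = 4 * (1 / K) := by ring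
      rw [this] at hxc hyc
      have h0 : 0 < 1 / K := by positivity
      linarith
    have h2 : (25 : ℝ) / K = 25 * (1 / K) := by ring
    rw [h2]
    have h0 : 0 < 1 / K := by positivity
    calc 31 / 15 * ρ * (|x - c| + |y - c|) ≤ 31 / 15 * ρ * (8.02 * (1 / K)) :=
          mul_le_mul_of_nonneg_left h1 (by positivity)
      _ = 31 / 15 * 8.02 * ((1 / K) * ρ) := by ring
      _ ≤ 18 * ((1 / K) * ρ) := by
          have := mul_pos h0 hρ
          linarith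
      _ ≤ 18 * ((1 / K) * ρ ^ 2) := by
          have : ρ ≤ ρ ^ 2 := by
            rw [pow_two]
            exact le_mul_of_one_le_left hρ.le hρ1
          exact mul_le_mul_of_nonneg_left (mul_le_mul_of_nonneg_left this h0.le) (by norm_num)
      _ = 25 * (1 / K) * (18 / 25 * ρ ^ 2) := by ring
      _ ≤ 25 * (1 / K) * ((ga ρ x + ga ρ y) * ga ρ c) :=
          mul_le_mul_of_nonneg_left hden (by positivity)
  have hlast : |(s - c / ga ρ c) * η.2| ≤ 25 / 64 * (1 / J) := by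
    rw [abs_mul]
    calc |s - c / ga ρ c| * |η.2| ≤ 25 / K * (K / J / 64) :=
          mul_le_mul hst hη2 (abs_nonneg _) (by positivity)
      _ = 25 / 64 * (1 / J) := by field_simp
  -- conclusion
  refine ⟨hy4, ?_, ?_, ?_⟩
  · show (p' - 1 / 4) / K ≤ y
    have h1 := (abs_le.1 hη64).1
    have e : (p' - 1 / 4 : ℝ) / K = p' / K - 1 / 4 * (1 / K) := by ring
    have h0 : 0 < 1 / K := by positivity
    rw [e, hy]
    linarith
  · show y ≤ (p' + 5 / 4) / K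
    have h1 := (abs_le.1 hη64).2
    have e : (p' + 5 / 4 : ℝ) / K = (p' + 1) / K + 1 / 4 * (1 / K) := by ring
    have h0 : 0 < 1 / K := by positivity
    rw [e, hy]
    linarith
  · show |ξ.1 + η.1 - ga ρ y| ≤ 3 / J
    have e : ξ.1 + η.1 - ga ρ y = (ξ.1 - ga ρ x) + (η.1 + c / ga ρ c * η.2) +
        (s - c / ga ρ c) * η.2 := by
      linear_combination hgs
    rw [e]
    have h1 : |ξ.1 - ga ρ x| ≤ 8 / 5 * (1 / J) := by rwa [abs_of_nonneg hA0]
    have h2 : |η.1 + c / ga ρ c * η.2| ≤ 1 / J / 64 := hη1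
    have h3 : (3 : ℝ) / J = 3 * (1 / J) := by ring
    rw [h3]
    refine (abs_add_le _ _).trans ?_
    have := abs_add_le (ξ.1 - ga ρ x) (η.1 + c / ga ρ c * η.2)
    linarith

end Pool.Agent.KSP
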