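import Pool.Agent.KSP.Targets

set_option autoImplicit false

/-! KSP-V1: one sector of slopes. -/

namespace Pool.Agent.KSP

open MeasureTheory Set
open scoped ENNReal NNReal ComplexConjugate

namespace V1_

lemma cont_ee : Continuous ee := by
  unfold ee
  fun_prop

lemma norm_ee (t : ℝ) : ‖ee t‖ = 1 := by
  unfold ee
  have : (2 * (Real.pi : ℂ) * Complex.I * (t : ℂ)) = ((2 * Real.pi * t : ℝ) : ℂ) * Complex.I := by
    push_cast
    ring
  rw [this, Complex.norm_exp_ofReal_mul_I]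

lemma ee_add (s t : ℝ) : ee (s + t) = ee s * ee t := by
  unfold ee
  rw [← Complex.exp_add]
  congr 1
  push_cast
  ring

lemma meas_nr : Measurable nr := by
  unfold nr
  fun_prop

lemma meas_ann (a b : ℝ) : MeasurableSet (ann a b) :=
  (measurableSet_le measurable_const meas_nr).inter (measurableSet_lt meas_nr measurable_const)

lemma bd_ind {h : ℝ × ℝ → ℂ} (hh : Bd h) {S : Set (ℝ × ℝ)} (hS : MeasurableSet S) :
    Bd (S.indicator h) := by
  obtain ⟨hm, ⟨B, hB⟩, R, hR⟩ := hh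
  refine ⟨hm.indicator hS, ⟨B, fun ξ => ?_⟩, R, fun ξ hξ => ?_⟩
  · exact (norm_indicator_le_norm_self h ξ).trans (hB ξ)
  · refine hR ξ fun h0 => hξ ?_
    by_cases hS' : ξ ∈ S
    · rw [Set.indicator_of_mem hS', h0]
    · rw [Set.indicator_of_notMem hS']

lemma int_bd {h : ℝ × ℝ → ℂ} (hh : Bd h) : Integrable h := by
  obtain ⟨hm, ⟨B, hB⟩, R, hR⟩ := hh
  have hs : Function.support h ⊆ Icc (-R) R ×ˢ Icc (-R) R := by
    intro ξ hξ
    obtain ⟨h1, h2⟩ := hR ξ hξ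
    exact ⟨abs_le.mp h1, abs_le.mp h2⟩
  rw [← integrableOn_iff_integrable_of_support_subset hs]
  refine Measure.integrableOn_of_bounded (M := B) ?_ hm.aestronglyMeasurable
    (Filter.Eventually.of_forall hB)
  exact (isCompact_Icc.prod isCompact_Icc).measure_lt_top.ne

lemma int_bd1 {h : ℝ → ℂ} (hh : Bd1 h) : Integrable h := by
  obtain ⟨hm, ⟨B, hB⟩, R, hR⟩ := hh
  have hs : Function.support h ⊆ Icc (-R) R := by
    intro ξ hξ
    exact abs_le.mp (hR ξ hξ)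
  rw [← integrableOn_iff_integrable_of_support_subset hs]
  refine Measure.integrableOn_of_bounded (M := B) ?_ hm.aestronglyMeasurable
    (Filter.Eventually.of_forall hB)
  exact isCompact_Icc.measure_lt_top.ne

lemma int_ex {h : ℝ × ℝ → ℂ} (hh : Bd h) (x : ℝ × ℝ) :
    Integrable (fun ξ => h ξ * ee (dot x ξ)) := by
  refine (int_bd hh).mul_bdd (c := 1) ?_ (Filter.Eventually.of_forall fun ξ => (norm_ee _).le)
  refine (cont_ee.comp ?_).aestronglyMeasurable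
  unfold dot
  fun_prop

lemma e2 (z : ℂ) : ‖z‖ₑ ^ 2 = ENNReal.ofReal (‖z‖ ^ 2) := by
  rw [ENNReal.ofReal_pow (norm_nonneg z), ofReal_norm]

lemma three (u v w : ℂ) : ‖u + v - w‖ₑ ^ 2 ≤ 3 * (‖u‖ₑ ^ 2 + ‖v‖ₑ ^ 2 + ‖w‖ₑ ^ 2) := by
  simp only [e2]
  rw [← ENNReal.ofReal_add (by positivity) (by positivity),
    ← ENNReal.ofReal_add (by positivity) (by positivity)]
  have h3 : (3 : ℝ≥0∞) = ENNReal.ofReal 3 := by norm_num
  rw [h3, ← ENNReal.ofReal_mul (by norm_num)]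
  refine ENNReal.ofReal_le_ofReal ?_
  have h1 : ‖u + v - w‖ ≤ ‖u‖ + ‖v‖ + ‖w‖ :=
    (norm_sub_le _ _).trans (add_le_add_left (norm_add_le _ _) _)
  have h2 : ‖u + v - w‖ ^ 2 ≤ (‖u‖ + ‖v‖ + ‖w‖) ^ 2 := by gcongr
  nlinarith [sq_nonneg (‖u‖ - ‖v‖), sq_nonneg (‖u‖ - ‖w‖), sq_nonneg (‖v‖ - ‖w‖)]

/-- splitting of an annulus -/
lemma split {h : ℝ × ℝ → ℂ} (hh : Bd h) {L : ℝ × ℝ → ℝ} (hL : Measurable L)
    (hle : ∀ ξ, h ξ ≠ 0 → L ξ ≤ nr ξ) {A B : ℝ} (hAB : A ≤ B) (x : ℝ × ℝ) :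
    Ex ((ann A B).indicator h) x = Ex ({ξ | A ≤ L ξ ∧ L ξ < B}.indicator h) x +
      Ex ({ξ | L ξ < A ∧ A ≤ nr ξ}.indicator h) x - Ex ({ξ | L ξ < B ∧ B ≤ nr ξ}.indicator h) x := by
  have m1 : MeasurableSet {ξ | A ≤ L ξ ∧ L ξ < B} :=
    (measurableSet_le measurable_const hL).inter (measurableSet_lt hL measurable_const)
  have m2 : ∀ A, MeasurableSet {ξ | L ξ < A ∧ A ≤ nr ξ} := fun A =>
    (measurableSet_lt hL measurable_const).inter (measurableSet_le measurable_const meas_nr)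
  have i1 := int_ex (bd_ind hh m1) x
  have i2 := int_ex (bd_ind hh (m2 A)) x
  have i3 := int_ex (bd_ind hh (m2 B)) x
  have j1 := integral_add i1 i2
  have i12 : Integrable (fun ξ => {ξ | A ≤ L ξ ∧ L ξ < B}.indicator h ξ * ee (dot x ξ) +
      {ξ | L ξ < A ∧ A ≤ nr ξ}.indicator h ξ * ee (dot x ξ)) := i1.add i2
  have j2 := integral_sub i12 i3
  unfold Ex
  rw [← j1, ← j2]
  congr 1
  funext ξ
  by_cases h0 : h ξ = 0
  · simp [Set.indicator_apply, h0]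
  have h1 := hle ξ h0
  simp only [Set.indicator_apply, ann, mem_ofPred_eq, ← not_le]
  by_cases a1 : A ≤ nr ξ <;> by_cases a2 : B ≤ nr ξ <;> by_cases a3 : A ≤ L ξ <;>
    by_cases a4 : B ≤ L ξ <;>
    first
    | (exfalso; push Not at *; linarith)
    | (simp only [a1, a2, a3, a4, not_true_eq_false, not_false_eq_true, and_true, and_false,
        if_true, if_false, zero_mul, add_zero, sub_zero, zero_add, sub_self])

/-- the error sets overlap at most five times -/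
lemma card_err (c M : ℕ) (a l r : ℝ) (hlr : r - l ≤ 4 / 2 ^ c) :
    ((Finset.range M).filter (fun v : ℕ => l < a + v / 2 ^ c ∧ a + v / 2 ^ c ≤ r)).card ≤ 5 := by
  set S := (Finset.range M).filter (fun v : ℕ => l < a + v / 2 ^ c ∧ a + v / 2 ^ c ≤ r) with hS
  rcases S.eq_empty_or_nonempty with h0 | h0
  · rw [h0]
    simp
  have h1 : S ⊆ Finset.Ico (S.min' h0) (S.min' h0 + 5) := by
    intro v hv
    rw [Finset.mem_Ico]
    refine ⟨Finset.min'_le _ _ hv, ?_⟩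
    have hmm : ∀ w ∈ S, w ∈ Finset.range M ∧ (l < a + (w : ℝ) / 2 ^ c ∧ a + (w : ℝ) / 2 ^ c ≤ r) :=
      fun w hw => Finset.mem_filter.mp hw
    have h2 := hmm _ (Finset.min'_mem S h0)
    replace hv := hmm _ hv
    by_contra hcon
    push Not at hcon
    have h3 : ((S.min' h0 + 5 : ℕ) : ℝ) ≤ v := by exact_mod_cast hcon
    push_cast at h3
    have h4 : (0 : ℝ) < 2 ^ c := by positivity
    have h5 := hv.2.2
    have h6 := h2.2.1
    have h7 : ((v : ℝ) - S.min' h0) / 2 ^ c < 4 / 2 ^ c := by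
      rw [sub_div]
      linarith
    rw [div_lt_div_iff_of_pos_right h4] at h7
    linarith
  calc S.card ≤ (Finset.Ico (S.min' h0) (S.min' h0 + 5)).card := Finset.card_le_card h1
    _ = 5 := by simp

lemma meas_ex {h : ℝ × ℝ → ℂ} (h2 : tPl2) (hh : Bd h) : Measurable (fun x => ‖Ex h x‖ₑ ^ 2) := by
  have := (h2 h hh).1
  exact (this.measurable.enorm).pow_const _

/-- the error terms -/
lemma err {h : ℝ × ℝ → ℂ} (h2 : tPl2) (hh : Bd h) {L : ℝ × ℝ → ℝ} (hL : Measurable L) (c M : ℕ)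
    (a : ℝ) (hle : ∀ ξ, h ξ ≠ 0 → nr ξ - L ξ ≤ 4 / 2 ^ c) :
    ∫⁻ x, ∑ v ∈ Finset.range M, ‖Ex ({ξ | L ξ < a + v / 2 ^ c ∧ a + v / 2 ^ c ≤ nr ξ}.indicator h) x‖ₑ ^ 2
      ≤ 5 * n2 h := by
  have m2 : ∀ A, MeasurableSet {ξ | L ξ < A ∧ A ≤ nr ξ} := fun A =>
    (measurableSet_lt hL measurable_const).inter (measurableSet_le measurable_const meas_nr)
  rw [lintegral_finsetSum _ (fun v _ => meas_ex h2 (bd_ind hh (m2 _)))]
  have h3 : ∀ v ∈ Finset.range M,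
      ∫⁻ x, ‖Ex ({ξ | L ξ < a + v / 2 ^ c ∧ a + v / 2 ^ c ≤ nr ξ}.indicator h) x‖ₑ ^ 2 =
      ∫⁻ ξ, ‖({ξ | L ξ < a + v / 2 ^ c ∧ a + v / 2 ^ c ≤ nr ξ}.indicator h) ξ‖ₑ ^ 2 := by
    intro v _
    exact (h2 _ (bd_ind hh (m2 _))).2
  rw [Finset.sum_congr rfl h3, ← lintegral_finsetSum]
  · unfold n2
    rw [← lintegral_const_mul' _ _ (by norm_num)]
    refine lintegral_mono fun ξ => ?_
    by_cases h0 : h ξ = 0
    · have : ∀ v ∈ Finset.range M,
          ‖({ξ | L ξ < a + v / 2 ^ c ∧ a + v / 2 ^ c ≤ nr ξ}.indicator h) ξ‖ₑ ^ 2 = 0 := by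
        intro v _
        simp [Set.indicator_apply, h0]
      rw [Finset.sum_congr rfl this]
      simp
    · have h4 : ∀ v ∈ Finset.range M,
          ‖({ξ | L ξ < a + v / 2 ^ c ∧ a + v / 2 ^ c ≤ nr ξ}.indicator h) ξ‖ₑ ^ 2 =
          if (L ξ < a + v / 2 ^ c ∧ a + v / 2 ^ c ≤ nr ξ) then ‖h ξ‖ₑ ^ 2 else 0 := by
        intro v _
        by_cases h5 : L ξ < a + v / 2 ^ c ∧ a + v / 2 ^ c ≤ nr ξ
        · rw [if_pos h5, Set.indicator_of_mem (by exact h5)]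
        · rw [if_neg h5, Set.indicator_of_notMem (by exact h5)]
          simp
      rw [Finset.sum_congr rfl h4, ← Finset.sum_filter, Finset.sum_const, nsmul_eq_mul]
      have h6 := card_err c M a (L ξ) (nr ξ) (hle ξ h0)
      gcongr
      exact_mod_cast h6
  · intro v _
    exact ((bd_ind hh (m2 _)).1.enorm).pow_const _

/-! shears -/

lemma mp2 (t : ℝ) : MeasurePreserving (fun z : ℝ × ℝ => (z.1, z.2 + t * z.1)) := by
  have h1 := (MeasurePreserving.id (volume : Measure ℝ)).skew_product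
    (g := fun s y : ℝ => y + t * s) (μc := (volume : Measure ℝ)) (μd := (volume : Measure ℝ))
    (by unfold Function.uncurry; fun_prop)
    (Filter.Eventually.of_forall fun s => map_add_right_eq_self volume (t * s))
  exact h1

lemma mp1 (t : ℝ) : MeasurePreserving (fun z : ℝ × ℝ => (z.1 - t * z.2, z.2)) := by
  have h1 : MeasurePreserving (Prod.swap : ℝ × ℝ → ℝ × ℝ) volume volume :=
    Measure.measurePreserving_swap
  have h2 := (h1.comp (mp2 (-t))).comp h1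
  have h3 : (Prod.swap ∘ (fun z : ℝ × ℝ => (z.1, z.2 + -t * z.1))) ∘ Prod.swap =
      fun z : ℝ × ℝ => (z.1 - t * z.2, z.2) := by
    funext z
    simp only [Function.comp_apply, Prod.swap, Prod.mk.injEq, and_true]
    ring
  rw [h3] at h2
  exact h2

/-- Fourier integral along the slanted lines -/
noncomputable def Hy (h : ℝ × ℝ → ℂ) (t y z : ℝ) : ℂ := Ex1 (fun w => h (z - t * w, w)) y

lemma meas_Hy {h : ℝ × ℝ → ℂ} (hh : Bd h) (t : ℝ) :
    Measurable (fun w : ℝ × ℝ => Hy h t w.1 w.2) := by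
  unfold Hy Ex1
  have h1 : Measurable (Function.uncurry (fun (w : ℝ × ℝ) (z : ℝ) =>
      h (w.2 - t * z, z) * ee (w.1 * z))) := by
    unfold Function.uncurry
    refine (hh.1.comp ?_).mul (cont_ee.measurable.comp ?_)
    · fun_prop
    · fun_prop
  exact (h1.stronglyMeasurable.integral_prod_right (ν := (volume : Measure ℝ))).measurable

lemma bd1_slice {h : ℝ × ℝ → ℂ} (hh : Bd h) (t z : ℝ) : Bd1 (fun w => h (z - t * w, w)) := by
  obtain ⟨hm, ⟨B, hB⟩, R, hR⟩ := hh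
  refine ⟨hm.comp (by fun_prop), ⟨B, fun w => hB _⟩, R, fun w hw => (hR _ hw).2⟩

lemma bd1_Hy {h : ℝ × ℝ → ℂ} (hh : Bd h) (t y : ℝ) : Bd1 (Hy h t y) := by
  have hm := meas_Hy hh t
  obtain ⟨B, hB⟩ := hh.2.1
  obtain ⟨R, hR⟩ := hh.2.2
  have hB0 : 0 ≤ B := (norm_nonneg _).trans (hB 0)
  refine ⟨hm.comp (measurable_prodMk_left (x := y)), ⟨B * (volume (Icc (-R) R)).toReal, fun z => ?_⟩,
    R + |t| * R, fun z hz => ?_⟩
  · unfold Hy Ex1
    have h1 : ∫ w, h (z - t * w, w) * ee (y * w) = ∫ w in Icc (-R) R, h (z - t * w, w) * ee (y * w) := by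
      symm
      refine setIntegral_eq_integral_of_forall_compl_eq_zero (fun w hw => ?_)
      have : h (z - t * w, w) = 0 := by
        by_contra hne
        exact hw (abs_le.mp (hR _ hne).2)
      rw [this, zero_mul]
    rw [h1]
    refine (norm_setIntegral_le_of_norm_le_const (C := B) isCompact_Icc.measure_lt_top
      (fun w _ => ?_)).trans le_rfl
    rw [norm_mul, norm_ee, mul_one]
    exact hB _
  · have h1 : ∃ w, h (z - t * w, w) ≠ 0 := by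
      by_contra hcon
      push Not at hcon
      apply hz
      unfold Hy Ex1
      simp [hcon]
    obtain ⟨w, hw⟩ := h1
    obtain ⟨h2, h3⟩ := hR _ hw
    simp only at h2 h3
    have h4 : |t * w| ≤ |t| * R := by
      rw [abs_mul]
      exact mul_le_mul_of_nonneg_left h3 (abs_nonneg t)
    calc |z| = |(z - t * w) + t * w| := by ring_nf
      _ ≤ |z - t * w| + |t * w| := abs_add_le _ _
      _ ≤ R + |t| * R := add_le_add h2 h4

lemma n1_Hy {h : ℝ × ℝ → ℂ} (h1 : tPl1) (hh : Bd h) (t : ℝ) :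
    ∫⁻ y, n1 (Hy h t y) = n2 h := by
  unfold n1 n2
  rw [lintegral_lintegral_swap]
  · have e1 : ∀ z, ∫⁻ y, ‖Hy h t y z‖ₑ ^ 2 = ∫⁻ w, ‖h (z - t * w, w)‖ₑ ^ 2 := fun z =>
      (h1 _ (bd1_slice hh t z)).2
    simp only [e1]
    have hm : Measurable (fun ξ : ℝ × ℝ => ‖h ξ‖ₑ ^ 2) := hh.1.enorm.pow_const _
    rw [← (mp1 t).lintegral_comp hm]
    have hm' : Measurable (fun z : ℝ × ℝ => ‖h (z.1 - t * z.2, z.2)‖ₑ ^ 2) :=
      hm.comp (mp1 t).measurable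
    exact (lintegral_prod _ hm'.aemeasurable).symm
  · exact ((meas_Hy hh t).enorm.pow_const _).aemeasurable

/-- slices of the flat part -/
lemma slice {h : ℝ × ℝ → ℂ} (hh : Bd h) (t A B s y : ℝ) :
    Ex ({ξ | A ≤ ξ.1 + t * ξ.2 ∧ ξ.1 + t * ξ.2 < B}.indicator h) (s, y + t * s) =
      Ex1 ((Ico A B).indicator (Hy h t y)) s := by
  have hS : MeasurableSet {ξ : ℝ × ℝ | A ≤ ξ.1 + t * ξ.2 ∧ ξ.1 + t * ξ.2 < B} := by
    have hL : Measurable (fun ξ : ℝ × ℝ => ξ.1 + t * ξ.2) := by fun_prop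
    exact (measurableSet_le measurable_const hL).inter (measurableSet_lt hL measurable_const)
  have hb := bd_ind hh hS
  have hi := int_ex hb (s, y + t * s)
  unfold Ex
  have hme : MeasurableEmbedding (fun z : ℝ × ℝ => (z.1 - t * z.2, z.2)) := by
    refine MeasurableEmbedding.of_measurable_inverse (g := fun z : ℝ × ℝ => (z.1 + t * z.2, z.2))
      (mp1 t).measurable ?_ (by fun_prop) ?_
    · have : range (fun z : ℝ × ℝ => (z.1 - t * z.2, z.2)) = univ := by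
        rw [Set.range_eq_univ]
        intro z
        exact ⟨(z.1 + t * z.2, z.2), by simp⟩
      rw [this]
      exact MeasurableSet.univ
    · intro z
      simp
  rw [← (mp1 t).integral_comp hme]
  have hi2 : Integrable (fun z : ℝ × ℝ => ({ξ : ℝ × ℝ | A ≤ ξ.1 + t * ξ.2 ∧ ξ.1 + t * ξ.2 < B}.indicator h)
      (z.1 - t * z.2, z.2) * ee (dot (s, y + t * s) (z.1 - t * z.2, z.2)))
      ((volume : Measure ℝ).prod volume) := ((mp1 t).integrable_comp_emb hme).mpr hi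
  have h1 := integral_prod _ hi2
  refine (show _ = _ from h1).trans ?_
  unfold Ex1
  congr 1
  funext z
  by_cases hz : z ∈ Ico A B
  · rw [Set.indicator_of_mem hz]
    unfold Hy Ex1
    rw [← integral_mul_const]
    congr 1
    funext w
    have hmem : ((z - t * w, w) : ℝ × ℝ) ∈ {ξ : ℝ × ℝ | A ≤ ξ.1 + t * ξ.2 ∧ ξ.1 + t * ξ.2 < B} := by
      simp only [mem_ofPred_eq, sub_add_cancel]
      exact hz
    rw [Set.indicator_of_mem hmem, mul_assoc, ← ee_add]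
    congr 2
    unfold dot
    simp only
    ring
  · rw [Set.indicator_of_notMem hz, zero_mul]
    have : ∀ w, ({ξ : ℝ × ℝ | A ≤ ξ.1 + t * ξ.2 ∧ ξ.1 + t * ξ.2 < B}.indicator h) (z - t * w, w) *
        ee (dot (s, y + t * s) (z - t * w, w)) = 0 := by
      intro w
      rw [Set.indicator_of_notMem, zero_mul]
      simp only [mem_ofPred_eq, sub_add_cancel]
      exact hz
    simp only [this, integral_zero]

lemma meas_sel {Φ : ℕ → ℕ → ℝ × ℝ → ℝ≥0∞} (hΦ : ∀ v w, Measurable (Φ v w)) {f g : ℝ × ℝ → ℕ}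
    (hf : Measurable f) (hg : Measurable g) : Measurable (fun x => Φ (f x) (g x) x) := by
  have h3 : Measurable (fun p : (ℕ × ℕ) × (ℝ × ℝ) => Φ p.1.1 p.1.2 p.2) :=
    measurable_from_prod_countable_right fun v => hΦ v.1 v.2
  have h5 : Measurable (fun x : ℝ × ℝ => (((f x, g x), x) : (ℕ × ℕ) × (ℝ × ℝ))) :=
    (hf.prodMk hg).prodMk measurable_id
  exact h3.comp h5

/-- the flat part -/
lemma flat {C : ℝ≥0} {h : ℝ × ℝ → ℂ} (h1 : tPl1) (h2 : tPl2) (hh : Bd h) (c κ q : ℕ) (a t N : ℝ)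
    (hN : 0 < N) (lam : ℕ → ℝ × ℝ → ℕ)
    (hK : ∀ (lam : ℕ → ℝ → ℕ) (a u : ℝ) (H : ℝ → ℂ), 0 < u →
      (∀ k, Measurable (lam k)) → (∀ k s, lam k s ≤ lam (k + 1) s) → (∀ k s, lam k s ≤ 2 ^ κ) →
      Bd1 H →
      ∫⁻ s, ∑ k ∈ Finset.range q,
          ‖Ex1 ((Ico (a + u * lam k s) (a + u * lam (k + 1) s)).indicator H) s‖ₑ ^ 2 ≤
        C * ((κ + 1 : ℕ) : ℝ≥0∞) * ((lg q + lg (κ + 1) : ℕ) : ℝ≥0∞) * n1 H)
    (hm : ∀ k, Measurable (lam k)) (hmo : ∀ k s, lam k s ≤ lam (k + 1) s)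
    (hk : ∀ k s, lam k s ≤ 2 ^ κ) :
    ∫⁻ x, ∑ k ∈ Finset.range q, ‖Ex ({ξ : ℝ × ℝ | a + lam k x / 2 ^ c ≤ (ξ.1 + t * ξ.2) / N ∧
        (ξ.1 + t * ξ.2) / N < a + lam (k + 1) x / 2 ^ c}.indicator h) x‖ₑ ^ 2 ≤
      C * ((κ + 1 : ℕ) : ℝ≥0∞) * ((lg q + lg (κ + 1) : ℕ) : ℝ≥0∞) * n2 h := by
  have hS : ∀ A B : ℝ, MeasurableSet {ξ : ℝ × ℝ | A ≤ (ξ.1 + t * ξ.2) / N ∧ (ξ.1 + t * ξ.2) / N < B} := by
    intro A B
    have hL : Measurable (fun ξ : ℝ × ℝ => (ξ.1 + t * ξ.2) / N) := by fun_prop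
    exact (measurableSet_le measurable_const hL).inter (measurableSet_lt hL measurable_const)
  have hF : Measurable (fun x => ∑ k ∈ Finset.range q,
      ‖Ex ({ξ : ℝ × ℝ | a + lam k x / 2 ^ c ≤ (ξ.1 + t * ξ.2) / N ∧
        (ξ.1 + t * ξ.2) / N < a + lam (k + 1) x / 2 ^ c}.indicator h) x‖ₑ ^ 2) := by
    refine Finset.measurable_fun_sum _ fun k _ => ?_
    exact meas_sel (Φ := fun v w x => ‖Ex ({ξ : ℝ × ℝ | a + v / 2 ^ c ≤ (ξ.1 + t * ξ.2) / N ∧
        (ξ.1 + t * ξ.2) / N < a + w / 2 ^ c}.indicator h) x‖ₑ ^ 2)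
      (fun v w => meas_ex h2 (bd_ind hh (hS (a + v / 2 ^ c) (a + w / 2 ^ c)))) (hm k) (hm (k + 1))
  rw [← (mp2 t).lintegral_comp hF]
  have hF2 := hF.comp (mp2 t).measurable
  refine (le_of_eq (lintegral_prod_symm' _ hF2)).trans ?_
  have h4 : ∀ y : ℝ, ∫⁻ s, ∑ k ∈ Finset.range q,
      ‖Ex ({ξ : ℝ × ℝ | a + lam k (s, y + t * s) / 2 ^ c ≤ (ξ.1 + t * ξ.2) / N ∧
        (ξ.1 + t * ξ.2) / N < a + lam (k + 1) (s, y + t * s) / 2 ^ c}.indicator h) (s, y + t * s)‖ₑ ^ 2 ≤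
      C * ((κ + 1 : ℕ) : ℝ≥0∞) * ((lg q + lg (κ + 1) : ℕ) : ℝ≥0∞) * n1 (Hy h t y) := by
    intro y
    have h5 := hK (fun k s => lam k (s, y + t * s)) (N * a) (N / 2 ^ c) (Hy h t y) (by positivity)
      (fun k => (hm k).comp (by fun_prop)) (fun k s => hmo k _) (fun k s => hk k _) (bd1_Hy hh t y)
    refine (le_of_eq ?_).trans h5
    refine lintegral_congr fun s => Finset.sum_congr rfl fun k _ => ?_
    rw [← slice hh]
    congr 4
    ext ξ
    simp only [mem_ofPred_eq]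
    rw [le_div_iff₀ hN, div_lt_iff₀ hN]
    have e1 : ∀ v : ℝ, (a + v / 2 ^ c) * N = N * a + N / 2 ^ c * v := by
      intro v
      ring
    rw [e1, e1]
  calc _ ≤ ∫⁻ y, C * ((κ + 1 : ℕ) : ℝ≥0∞) * ((lg q + lg (κ + 1) : ℕ) : ℝ≥0∞) * n1 (Hy h t y) :=
        lintegral_mono h4
    _ = _ := by
        rw [lintegral_const_mul', n1_Hy h1 hh t]
        exact ENNReal.mul_ne_top (ENNReal.mul_ne_top ENNReal.coe_ne_top (ENNReal.natCast_ne_top _))
          (ENNReal.natCast_ne_top _)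

/-- geometry of a sector -/
lemma geo {c : ℕ} {p : ℤ} {ξ : ℝ × ℝ} (hV : ξ ∈ V0) (hs : ξ ∈ sec c p) :
    (ξ.1 + (p / 2 ^ (c / 2) : ℝ) * ξ.2) / √(1 + (p / 2 ^ (c / 2) : ℝ) ^ 2) ≤ nr ξ ∧
    nr ξ - (ξ.1 + (p / 2 ^ (c / 2) : ℝ) * ξ.2) / √(1 + (p / 2 ^ (c / 2) : ℝ) ^ 2) ≤ 4 / 2 ^ c := by
  obtain ⟨hv1, hv2, hv3⟩ := hV
  obtain ⟨hs1, hs2⟩ := hs
  set D : ℝ := 2 ^ (c / 2) with hD
  have hD1 : 1 ≤ D := one_le_pow₀ (by norm_num)
  have hD0 : 0 < D := by linarith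
  set t : ℝ := p / D with ht
  set s : ℝ := ξ.2 / ξ.1 with hsdef
  rw [Int.floor_eq_iff] at hs2
  have hx2 : ξ.2 = s * ξ.1 := by
    rw [hsdef]
    field_simp
  have hs3 : |s| ≤ 1 := by
    rw [hsdef, abs_div, abs_of_pos hs1, div_le_one hs1]
    exact hv1
  rw [abs_le] at hs3
  have ht1 : t ≤ s := by
    rw [ht, div_le_iff₀ hD0]
    linarith [hs2.1]
  have ht2 : s - t < 1 / D := by
    rw [lt_div_iff₀ hD0, sub_mul, ht, div_mul_cancel₀ _ hD0.ne']
    linarith [hs2.2]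
  have hDi : 1 / D ≤ 1 := by
    rw [div_le_one hD0]
    exact hD1
  have hpos : 0 < 1 + t * s := by
    rcases le_total 0 s with h0 | h0
    · nlinarith [sq_nonneg (s - 1 / 2)]
    · nlinarith
  set N : ℝ := √(1 + t ^ 2) with hN
  have hN2 : N ^ 2 = 1 + t ^ 2 := Real.sq_sqrt (by positivity)
  have hN0 : 0 < N := Real.sqrt_pos.mpr (by positivity)
  set Lx : ℝ := (ξ.1 + t * ξ.2) / N with hLx
  have hL0 : 0 < Lx := by
    rw [hLx, hx2]
    refine div_pos ?_ hN0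
    nlinarith
  have hnr2 : nr ξ ^ 2 = ξ.1 ^ 2 + ξ.2 ^ 2 := Real.sq_sqrt (by positivity)
  have hnr0 : 0 < nr ξ := by linarith
  have hdiff : nr ξ ^ 2 - Lx ^ 2 = (ξ.2 - t * ξ.1) ^ 2 / N ^ 2 := by
    rw [hnr2, hLx, div_pow, hN2]
    field_simp
    ring
  have hsm : (ξ.2 - t * ξ.1) ^ 2 / N ^ 2 ≤ ξ.1 ^ 2 / D ^ 2 := by
    have h1 : (ξ.2 - t * ξ.1) ^ 2 ≤ ξ.1 ^ 2 / D ^ 2 := by
      have h2 : ξ.2 - t * ξ.1 = (s - t) * ξ.1 := by
        rw [hx2]
        ring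
      rw [h2, mul_pow]
      have h3 : (s - t) ^ 2 ≤ (1 / D) ^ 2 := by
        have : 0 ≤ s - t := by linarith
        gcongr
      calc (s - t) ^ 2 * ξ.1 ^ 2 ≤ (1 / D) ^ 2 * ξ.1 ^ 2 := by gcongr
        _ = ξ.1 ^ 2 / D ^ 2 := by ring
    refine (div_le_self (by positivity) ?_).trans h1
    rw [hN2]
    nlinarith [sq_nonneg t]
  have hle : Lx ≤ nr ξ := by
    have : 0 ≤ nr ξ ^ 2 - Lx ^ 2 := by
      rw [hdiff]
      positivity
    nlinarith
  refine ⟨hle, ?_⟩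
  have hx1 : ξ.1 ≤ nr ξ := by
    have : ξ.1 ^ 2 ≤ nr ξ ^ 2 := by
      rw [hnr2]
      nlinarith [sq_nonneg ξ.2]
    exact (sq_le_sq₀ hs1.le hnr0.le).mp this
  have h1 : (nr ξ - Lx) * (nr ξ + Lx) ≤ ξ.1 ^ 2 / D ^ 2 := by
    calc (nr ξ - Lx) * (nr ξ + Lx) = nr ξ ^ 2 - Lx ^ 2 := by ring
      _ ≤ _ := hdiff.le.trans hsm
  have h2 : (nr ξ - Lx) * nr ξ ≤ nr ξ ^ 2 / D ^ 2 := by
    calc (nr ξ - Lx) * nr ξ ≤ (nr ξ - Lx) * (nr ξ + Lx) := by
          refine mul_le_mul_of_nonneg_left ?_ (by linarith)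
          linarith
      _ ≤ ξ.1 ^ 2 / D ^ 2 := h1
      _ ≤ nr ξ ^ 2 / D ^ 2 := by gcongr
  have h3 : nr ξ - Lx ≤ nr ξ / D ^ 2 := by
    have : (nr ξ - Lx) * nr ξ ≤ (nr ξ / D ^ 2) * nr ξ := by
      calc _ ≤ _ := h2
        _ = _ := by ring
    exact le_of_mul_le_mul_right this hnr0
  have h4 : (2 : ℝ) ^ c ≤ 2 * D ^ 2 := by
    rw [hD, ← pow_mul, ← pow_succ']
    exact pow_le_pow_right₀ (by norm_num) (by omega)
  calc nr ξ - Lx ≤ nr ξ / D ^ 2 := h3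
    _ ≤ 2 / D ^ 2 := by gcongr
    _ = 4 / (2 * D ^ 2) := by ring
    _ ≤ 4 / 2 ^ c := by gcongr

end V1_

open V1_

/-- job KSP-V1 -/
theorem pV1 (hK : tK1) (h1 : tPl1) (h2 : tPl2) : tV1 := by
  obtain ⟨C, hC⟩ := hK
  refine ⟨3 * C + 30, ?_⟩
  intro c κ q p a lam h hh hsup hm hmo hk
  set t : ℝ := p / 2 ^ (c / 2) with ht
  set N : ℝ := √(1 + t ^ 2) with hN
  have hN0 : 0 < N := Real.sqrt_pos.mpr (by positivity)
  set L : ℝ × ℝ → ℝ := fun ξ => (ξ.1 + t * ξ.2) / N with hLdef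
  have hL : Measurable L := by
    rw [hLdef]
    fun_prop
  have g1 : ∀ ξ, h ξ ≠ 0 → L ξ ≤ nr ξ := fun ξ h0 => (geo (hsup ξ h0).1 (hsup ξ h0).2).1
  have g2 : ∀ ξ, h ξ ≠ 0 → nr ξ - L ξ ≤ 4 / 2 ^ c := fun ξ h0 => (geo (hsup ξ h0).1 (hsup ξ h0).2).2
  have hfl := flat h1 h2 hh c κ q a t N hN0 lam (fun lam a u H => hC κ q lam a u H) hm hmo hk
  have her := err h2 hh hL c (2 ^ κ + 1) a g2
  set Fl : ℕ → ℝ × ℝ → ℝ≥0∞ := fun k x => ‖Ex ({ξ : ℝ × ℝ | a + lam k x / 2 ^ c ≤ (ξ.1 + t * ξ.2) / N ∧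
        (ξ.1 + t * ξ.2) / N < a + lam (k + 1) x / 2 ^ c}.indicator h) x‖ₑ ^ 2 with hFl
  set Er : ℕ → ℝ × ℝ → ℝ≥0∞ := fun v x =>
    ‖Ex ({ξ | L ξ < a + v / 2 ^ c ∧ a + v / 2 ^ c ≤ nr ξ}.indicator h) x‖ₑ ^ 2 with hEr
  have hpt : ∀ x, ∑ k ∈ Finset.range q,
      ‖Ex ((ann (a + lam k x / 2 ^ c) (a + lam (k + 1) x / 2 ^ c)).indicator h) x‖ₑ ^ 2 ≤
      3 * ∑ k ∈ Finset.range q, Fl k x + 6 * ∑ v ∈ Finset.range (2 ^ κ + 1), Er v x := by
    intro x
    have hmono : Monotone (fun k => lam k x) := monotone_nat_of_le_succ fun k => hmo k x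
    set I := (Finset.range q).filter (fun k => lam k x < lam (k + 1) x) with hI
    have k1 : ∑ k ∈ Finset.range q,
        ‖Ex ((ann (a + lam k x / 2 ^ c) (a + lam (k + 1) x / 2 ^ c)).indicator h) x‖ₑ ^ 2 =
        ∑ k ∈ I, ‖Ex ((ann (a + lam k x / 2 ^ c) (a + lam (k + 1) x / 2 ^ c)).indicator h) x‖ₑ ^ 2 := by
      symm
      refine Finset.sum_subset (Finset.filter_subset _ _) fun k hk1 hk2 => ?_
      have hk3 : lam k x = lam (k + 1) x := by
        by_contra hne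
        exact hk2 (Finset.mem_filter.mpr ⟨hk1, lt_of_le_of_ne (hmo k x) hne⟩)
      have hk4 : ann (a + lam k x / 2 ^ c) (a + lam (k + 1) x / 2 ^ c) = ∅ := by
        rw [← hk3]
        ext ξ
        simp [ann]
      rw [hk4]
      simp [Ex]
    have k2 : ∀ k ∈ I, ‖Ex ((ann (a + lam k x / 2 ^ c) (a + lam (k + 1) x / 2 ^ c)).indicator h) x‖ₑ ^ 2 ≤
        3 * (Fl k x + Er (lam k x) x + Er (lam (k + 1) x) x) := by
      intro k _
      have hAB : a + (lam k x : ℝ) / 2 ^ c ≤ a + (lam (k + 1) x : ℝ) / 2 ^ c := by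
        have : (lam k x : ℝ) ≤ lam (k + 1) x := by exact_mod_cast hmo k x
        gcongr
      rw [split hh hL g1 hAB x]
      exact three _ _ _
    have k3 : ∑ k ∈ I, Er (lam k x) x ≤ ∑ v ∈ Finset.range (2 ^ κ + 1), Er v x := by
      have hinj : Set.InjOn (fun k => lam k x) (I : Set ℕ) := by
        intro k hk1 k' hk2 hkk
        have hk1' := (Finset.mem_filter.mp hk1).2
        have hk2' := (Finset.mem_filter.mp hk2).2
        have hkk' : lam k x = lam k' x := hkk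
        rcases lt_trichotomy k k' with h3 | h3 | h3
        · have h4 : lam (k + 1) x ≤ lam k' x := hmono h3
          omega
        · exact h3
        · have h4 : lam (k' + 1) x ≤ lam k x := hmono h3
          omega
      rw [← Finset.sum_image (f := fun v => Er v x) hinj]
      refine Finset.sum_le_sum_of_subset fun v hv => ?_
      obtain ⟨k, _, rfl⟩ := Finset.mem_image.mp hv
      rw [Finset.mem_range]
      have := hk k x
      omega
    have k4 : ∑ k ∈ I, Er (lam (k + 1) x) x ≤ ∑ v ∈ Finset.range (2 ^ κ + 1), Er v x := by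
      have hinj : Set.InjOn (fun k => lam (k + 1) x) (I : Set ℕ) := by
        intro k hk1 k' hk2 hkk
        have hk1' := (Finset.mem_filter.mp hk1).2
        have hk2' := (Finset.mem_filter.mp hk2).2
        have hkk' : lam (k + 1) x = lam (k' + 1) x := hkk
        rcases lt_trichotomy k k' with h3 | h3 | h3
        · have h4 : lam (k + 1) x ≤ lam k' x := hmono h3
          omega
        · exact h3
        · have h4 : lam (k' + 1) x ≤ lam k x := hmono h3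
          omega
      rw [← Finset.sum_image (f := fun v => Er v x) hinj]
      refine Finset.sum_le_sum_of_subset fun v hv => ?_
      obtain ⟨k, _, rfl⟩ := Finset.mem_image.mp hv
      rw [Finset.mem_range]
      have := hk (k + 1) x
      omega
    have k5 : ∑ k ∈ I, Fl k x ≤ ∑ k ∈ Finset.range q, Fl k x :=
      Finset.sum_le_sum_of_subset (Finset.filter_subset _ _)
    rw [k1]
    calc _ ≤ ∑ k ∈ I, 3 * (Fl k x + Er (lam k x) x + Er (lam (k + 1) x) x) := Finset.sum_le_sum k2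
      _ = 3 * (∑ k ∈ I, Fl k x + ∑ k ∈ I, Er (lam k x) x + ∑ k ∈ I, Er (lam (k + 1) x) x) := by
          rw [← Finset.mul_sum, Finset.sum_add_distrib, Finset.sum_add_distrib]
      _ ≤ 3 * (∑ k ∈ Finset.range q, Fl k x + ∑ v ∈ Finset.range (2 ^ κ + 1), Er v x +
            ∑ v ∈ Finset.range (2 ^ κ + 1), Er v x) := by gcongr
      _ = _ := by ring
  have hErm : Measurable (fun x => ∑ v ∈ Finset.range (2 ^ κ + 1), Er v x) := by
    refine Finset.measurable_fun_sum _ fun v _ => meas_ex h2 (bd_ind hh ?_)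
    exact (measurableSet_lt hL measurable_const).inter (measurableSet_le measurable_const meas_nr)
  have hlg : (1 : ℝ≥0∞) ≤ ((κ + 1 : ℕ) : ℝ≥0∞) * ((lg q + lg (κ + 1) : ℕ) : ℝ≥0∞) := by
    have : 1 ≤ (κ + 1) * (lg q + lg (κ + 1)) := by
      have : 1 ≤ lg q + lg (κ + 1) := by
        unfold lg
        omega
      nlinarith
    exact_mod_cast this
  calc _ ≤ ∫⁻ x, (3 * ∑ k ∈ Finset.range q, Fl k x + 6 * ∑ v ∈ Finset.range (2 ^ κ + 1), Er v x) :=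
        lintegral_mono hpt
    _ = 3 * (∫⁻ x, ∑ k ∈ Finset.range q, Fl k x) +
          6 * (∫⁻ x, ∑ v ∈ Finset.range (2 ^ κ + 1), Er v x) := by
        rw [lintegral_add_right _ (hErm.const_mul _), lintegral_const_mul' _ _ (by norm_num),
          lintegral_const_mul' _ _ (by norm_num)]
    _ ≤ 3 * (C * ((κ + 1 : ℕ) : ℝ≥0∞) * ((lg q + lg (κ + 1) : ℕ) : ℝ≥0∞) * n2 h) + 6 * (5 * n2 h) :=
        add_le_add (mul_le_mul' le_rfl hfl) (mul_le_mul' le_rfl her)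
    _ ≤ 3 * (C * ((κ + 1 : ℕ) : ℝ≥0∞) * ((lg q + lg (κ + 1) : ℕ) : ℝ≥0∞) * n2 h) +
          30 * (((κ + 1 : ℕ) : ℝ≥0∞) * ((lg q + lg (κ + 1) : ℕ) : ℝ≥0∞)) * n2 h := by
        refine add_le_add le_rfl ?_
        calc 6 * (5 * n2 h) = 30 * 1 * n2 h := by
              rw [← mul_assoc]
              norm_num
          _ ≤ _ := mul_le_mul' (mul_le_mul' le_rfl hlg) le_rfl
    _ = _ := by
        push_cast
        ring

end Pool.Agent.KSP
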