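import Pool.Agent.KSP.Base
import Pool.Agent.KSP.OL
import Pool.Agent.KSP.Conv
import Pool.Agent.KSP.Par
import Pool.Agent.KSP.HS
import Pool.Agent.KSP.CoV
import Pool.Agent.KSP.Supp
import Pool.Agent.KSP.Cover
import Pool.Agent.KSP.BL
import Pool.Agent.KSP.L
import Pool.Agent.KSP.RM
import Pool.Agent.KSP.Cell
import Pool.Agent.KSP.Ker
import Pool.Agent.KSP.Sparse
import Pool.Agent.KSP.DT
import Pool.Agent.KSP.DR
import Pool.Agent.KSP.K1
import Pool.Agent.KSP.V1
import Pool.Agent.KSP.V2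
import Pool.Agent.KSP.Block
import Pool.Agent.KSP.Bad
import Pool.Agent.KSP.BadE
import Pool.Agent.KSP.MV
import Pool.Agent.KSP.K

set_option autoImplicit false

/-! KSP bound for disc partial sums (MP_ee701d_an): assembly of the plane theorem `tK`. -/

namespace Pool.Agent.KSP

theorem fOL1 : tOL1 := pOL1 pPo1 pPl1

theorem fOL2 : tOL2 := pOL2 pPo2 pPl2

theorem fBL : tBL := pBL pPl2 pCv pPar pHS pCoV pArc pSupp pCover

theorem fL : tL := pL fBL pPl2

theorem fSparse : tSparse := pSparse pRM pCell pKer pBes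

theorem fDT : tDT := pDT fSparse pBes

theorem fDR : tDR := pDR fDT fOL1 pPl1

theorem fK1 : tK1 := pK1 fDR

theorem fV1 : tV1 := pV1 fK1 pPl1 pPl2

theorem fV2 : tV2 := pV2 fV1 fOL2 pPar

theorem fBlock : tBlock := pBlock fV2

theorem fBadE : tBadE := pBadE fL pBad

theorem fMV : tMV := pMV fBlock pBad fBadE

/-- the plane theorem -/
theorem fK : tK := pK fMV

end Pool.Agent.KSP
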