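import Pool.Agent.KSP.All2
import Pool.Agent.KSP.FB
import Pool.Agent.KSP.DS

set_option autoImplicit false

/-! KSP bound for disc partial sums (MP_ee701d_an): separated radii, Nash quotients. -/

namespace Pool.Agent.KSP

theorem fFB : tFB := pFB pPt fSS

theorem fDS : tDS := pDS fSS pPlE

end Pool.Agent.KSP
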