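import Mathlib

set_option autoImplicit false

/-! A Kolmogorov-Seliverstov-Plessner bound for disc partial sums (MP_ee701d_an): definitions. -/

namespace Pool.Agent.KSP

open MeasureTheory Set
open scoped ENNReal NNReal ComplexConjugate

/-- `e^{2 π i t}` -/
noncomputable def ee (t : ℝ) : ℂ := Complex.exp (2 * Real.pi * Complex.I * (t : ℂ))

/-- `x · ξ` in the plane -/
def dot (x ξ : ℝ × ℝ) : ℝ := x.1 * ξ.1 + x.2 * ξ.2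

/-- `|ξ|` -/
noncomputable def nr (ξ : ℝ × ℝ) : ℝ := √(ξ.1 ^ 2 + ξ.2 ^ 2)

/-- inverse Fourier integral in the plane -/
noncomputable def Ex (h : ℝ × ℝ → ℂ) (x : ℝ × ℝ) : ℂ := ∫ ξ, h ξ * ee (dot x ξ)

/-- inverse Fourier integral on the line -/
noncomputable def Ex1 (H : ℝ → ℂ) (s : ℝ) : ℂ := ∫ τ, H τ * ee (s * τ)

/-- bounded measurable functions of bounded support -/
def Bd (h : ℝ × ℝ → ℂ) : Prop :=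
  Measurable h ∧ (∃ B : ℝ, ∀ ξ, ‖h ξ‖ ≤ B) ∧ ∃ R : ℝ, ∀ ξ, h ξ ≠ 0 → |ξ.1| ≤ R ∧ |ξ.2| ≤ R

def Bd1 (H : ℝ → ℂ) : Prop :=
  Measurable H ∧ (∃ B : ℝ, ∀ τ, ‖H τ‖ ≤ B) ∧ ∃ R : ℝ, ∀ τ, H τ ≠ 0 → |τ| ≤ R

/-- squared `L²` norms -/
noncomputable def n2 (h : ℝ × ℝ → ℂ) : ℝ≥0∞ := ∫⁻ ξ, ‖h ξ‖ₑ ^ 2

noncomputable def n1 (H : ℝ → ℂ) : ℝ≥0∞ := ∫⁻ τ, ‖H τ‖ₑ ^ 2

/-- `1 + ⌊log₂ n⌋` -/
def lg (n : ℕ) : ℕ := Nat.log 2 n + 1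

/-- the annulus `a ≤ |ξ| < b` -/
def ann (a b : ℝ) : Set (ℝ × ℝ) := {ξ | a ≤ nr ξ ∧ nr ξ < b}

/-- the right sector `|ξ₂| ≤ ξ₁` of the annulus `1 ≤ |ξ| < 2` -/
def V0 : Set (ℝ × ℝ) := {ξ | |ξ.2| ≤ ξ.1 ∧ 1 ≤ nr ξ ∧ nr ξ < 2}

/-- the square `z + [0, r)²` -/
def sq (z : ℝ × ℝ) (r : ℝ) : Set (ℝ × ℝ) := Ico z.1 (z.1 + r) ×ˢ Ico z.2 (z.2 + r)

/-- index of the dyadic square of side `2^{⌊c/2⌋}` containing `x` -/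
noncomputable def Qi (c : ℕ) (x : ℝ × ℝ) : ℤ × ℤ := (⌊x.1 / 2 ^ (c / 2)⌋, ⌊x.2 / 2 ^ (c / 2)⌋)

/-- Fourier side of the cutoff adapted to the parallelogram
`|x₁ - c₁| ≤ 1/(4a)`, `|(x₂ - c₂) - t (x₁ - c₁)| ≤ 1/(4b)` -/
noncomputable def par (a b t : ℝ) (c : ℝ × ℝ) (η : ℝ × ℝ) : ℂ :=
  open Classical in if |η.2| ≤ b ∧ |η.1 + t * η.2| ≤ a then ee (-(dot c η)) else 0

/-- lattice of centres of these parallelograms -/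
noncomputable def cen (a b t : ℝ) (z : ℤ × ℤ) : ℝ × ℝ :=
  (z.1 / (4 * a), z.2 / (4 * b) + t * (z.1 / (4 * a)))

/-- convolution on the Fourier side -/
noncomputable def cv (g h : ℝ × ℝ → ℂ) (ζ : ℝ × ℝ) : ℂ := ∫ η, g η * h (ζ - η)

/-- the part of `h` in the strip `p 2^{-k} ≤ ξ₂ < (p+1) 2^{-k}` -/
noncomputable def str (k : ℕ) (p : ℤ) (h : ℝ × ℝ → ℂ) : ℝ × ℝ → ℂ :=
  {ξ : ℝ × ℝ | ⌊(2 : ℝ) ^ k * ξ.2⌋ = p}.indicator h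

/-- the circle of radius `ρ` as a graph -/
noncomputable def ga (ρ y : ℝ) : ℝ := √(ρ ^ 2 - y ^ 2)

/-- neighbourhood of the arc of the circle of radius `ρ` over the `p`-th strip, `δ = 2^{-j}`,
`α = 2^{-k}` -/
def arc (j k : ℕ) (ρ : ℝ) (p : ℤ) : Set (ℝ × ℝ) :=
  {ζ | |ζ.2| ≤ 4 / 5 * ρ ∧ (p - 1 / 4) / 2 ^ k ≤ ζ.2 ∧ ζ.2 ≤ (p + 5 / 4) / 2 ^ k ∧
    |ζ.1 - ga ρ ζ.2| ≤ 3 / 2 ^ j}

/-- `J`-th frequency block (length `2^j`) of `g` on the circle -/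
noncomputable def hJ (j : ℕ) (g : ℝ → ℂ) (J : ℕ) (s : ℝ) : ℂ :=
  ∑ l ∈ Finset.Ico (J * 2 ^ j) ((J + 1) * 2 ^ j), (∫ s', g s' * ee (-(l * s'))) * ee (l * s)

/-- consecutive blocks of `Λ`: the elements whose rank in `Λ` is in `[i 2^s, (i+1) 2^s)` -/
def DD (Λ : Finset ℕ) (s i : ℕ) : Finset ℕ :=
  Λ.filter (fun J => (Λ.filter (· < J)).card / 2 ^ s = i)

/-- slopes in `[p/D, (p+1)/D)`, `D = 2^{⌊c/2⌋}` -/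
def sec (c : ℕ) (p : ℤ) : Set (ℝ × ℝ) := {ξ | 0 < ξ.1 ∧ ⌊(2 : ℝ) ^ (c / 2) * (ξ.2 / ξ.1)⌋ = p}

/-- `x` is unpopular at level `j`: on the dyadic square of `x` the value `⌊k/2^{m-j}⌋` is taken
with density `< 1/A` -/
def unpop (m A j : ℕ) (k : ℝ × ℝ → ℕ) (x : ℝ × ℝ) : Prop :=
  (A : ℝ≥0∞) * volume {y : ℝ × ℝ | Qi j y = Qi j x ∧ k y / 2 ^ (m - j) = k x / 2 ^ (m - j)} <
    (4 : ℝ≥0∞) ^ (j / 2)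

/-- points that are unpopular at some level `j ≤ i` -/
def badS (m A i : ℕ) (k : ℝ × ℝ → ℕ) : Set (ℝ × ℝ) := {x | ∃ j ≤ i, unpop m A j k x}

end Pool.Agent.KSP
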