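import Pool.Agent.MBS.Targets
import Pool.Agent.KSP.Targets

set_option autoImplicit false

/-! KSP bound for disc partial sums (MP_ee701d_an): from the plane to `S^*`, exact targets.
Proofs: Blueprint2.lean.txt.  Final targets: `tDD`, `tFA1`, `tFA2`, `tFA3`, `tFB`. -/

namespace Pool.Agent.KSP

open MeasureTheory FourierTransform Set Filter Topology
open scoped ENNReal NNReal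
open Pool.Agent.MBS (E ex T S Sstar et ps mul pm Tstar Pstar MF)

/-- inverse Fourier integral on `ℝ²` -/
noncomputable def IE (h : E 2 → ℂ) (x : E 2) : ℂ := ∫ ξ, h ξ * ex x ξ

/-- bounded measurable functions of bounded support -/
def BdE (h : E 2 → ℂ) : Prop :=
  Measurable h ∧ (∃ B : ℝ, ∀ ξ, ‖h ξ‖ ≤ B) ∧ ∃ R : ℝ, ∀ ξ, h ξ ≠ 0 → ‖ξ‖ ≤ R

/-- `∑_{i < m} mul i R` -/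
noncomputable def muS (m : ℕ) (R : ℝ) (ξ : E 2) : ℝ :=
  et (2 ^ m * (1 - ‖ξ‖ ^ 2 / R ^ 2)) - et (1 - ‖ξ‖ ^ 2 / R ^ 2)

/-- the integral of `g` over a ball, `g` on the Fourier side -/
noncomputable def BI (g : E 2 → ℂ) (R : ℝ) (x : E 2) : ℂ :=
  ∫ ξ in Metric.closedBall (0 : E 2) R, g ξ * ex x ξ

/-- the weight `log(3 + |ξ|) (log(3 + log(3 + |ξ|)))⁵` -/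
noncomputable def lw (ξ : E 2) : ℝ :=
  Real.log (3 + ‖ξ‖) * Real.log (3 + Real.log (3 + ‖ξ‖)) ^ 5

/-- Q1 Plancherel, convolution -/
def tPlE : Prop := ∀ h : E 2 → ℂ, BdE h →
  Continuous (IE h) ∧ ∫⁻ x, ‖IE h x‖ₑ ^ 2 = ∫⁻ ξ, ‖h ξ‖ₑ ^ 2

/-- Q2 transfer of `tK` to `E 2`, all dilations -/
def tKE : Prop := ∃ C : ℝ≥0, ∀ (m : ℕ) (c : ℝ) (h : E 2 → ℂ), 1 ≤ m → 0 < c → BdE h →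
  ∫⁻ x, (⨆ k ∈ Finset.range (2 ^ m),
      ‖IE ({ξ : E 2 | c ≤ ‖ξ‖ ∧ ‖ξ‖ < c * (1 + k / 2 ^ m)}.indicator h) x‖ₑ) ^ 2 ≤
    C * m * ((lg m : ℕ) : ℝ≥0∞) ^ 5 * ∫⁻ ξ in {ξ : E 2 | c ≤ ‖ξ‖ ∧ ‖ξ‖ < 2 * c}, ‖h ξ‖ₑ ^ 2

/-- Q3 two one-dimensional inequalities -/
def tSobI : Prop := ∀ (a b l : ℝ) (F F1 : ℝ → ℂ), a < b → 0 < l → ContinuousOn F1 (Icc a b) →
  (∀ t ∈ Icc a b, HasDerivAt F (F1 t) t) → ∀ R ∈ Icc a b,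
  ‖F R‖ₑ ^ 2 ≤ ENNReal.ofReal ((b - a)⁻¹ + l) * (∫⁻ r in Icc a b, ‖F r‖ₑ ^ 2) +
      ENNReal.ofReal l⁻¹ * ∫⁻ r in Icc a b, ‖F1 r‖ₑ ^ 2 ∧
  ‖F R‖ₑ ^ 2 ≤ 2 * ‖F a‖ₑ ^ 2 + ENNReal.ofReal (2 * (b - a)) * ∫⁻ r in Icc a b, ‖F1 r‖ₑ ^ 2

/-- Q4 the multipliers `et(2^m u)` on one octave -/
def tEtm : Prop := ∃ C : ℝ≥0, ∀ (m : ℕ) (c : ℝ) (θ : E 2 → ℝ) (h : E 2 → ℂ), 1 ≤ m → 0 < c →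
  Continuous θ → (∀ ξ, 0 ≤ θ ξ ∧ θ ξ ≤ 1) → Continuous h →
  ∫⁻ x, (⨆ R ∈ Icc c (2 * c),
      ‖T (fun ξ => et (2 ^ m * (1 - ‖ξ‖ ^ 2 / R ^ 2)) * θ ξ) h x‖ₑ) ^ 2 ≤
    C * m * ((lg m : ℕ) : ℝ≥0∞) ^ 5 * ∫⁻ ξ in {ξ : E 2 | ‖ξ‖ ≤ 2 * c}, ‖θ ξ‖ₑ ^ 2 * ‖h ξ‖ₑ ^ 2

/-- Q5 the multipliers `et(u)` on one octave -/
def tEt0 : Prop := ∃ C : ℝ≥0, ∀ (c : ℝ) (θ : E 2 → ℝ) (h : E 2 → ℂ), 0 < c →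
  Continuous θ → (∀ ξ, 0 ≤ θ ξ ∧ θ ξ ≤ 1) → Continuous h →
  ∫⁻ x, (⨆ R ∈ Icc c (2 * c),
      ‖T (fun ξ => et (1 - ‖ξ‖ ^ 2 / R ^ 2) * θ ξ) h x‖ₑ) ^ 2 ≤
    C * ∫⁻ ξ in {ξ : E 2 | ‖ξ‖ ≤ 2 * c}, ‖θ ξ‖ₑ ^ 2 * ‖h ξ‖ₑ ^ 2

/-- Q6 one octave -/
def tSm : Prop := ∃ C : ℝ≥0, ∀ (m : ℕ) (c : ℝ) (h : E 2 → ℂ), 1 ≤ m → 0 < c → Continuous h →
  ∫⁻ x, (⨆ R ∈ Icc c (2 * c), ‖T (muS m R) h x‖ₑ) ^ 2 ≤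
    C * m * ((lg m : ℕ) : ℝ≥0∞) ^ 5 *
      ∫⁻ ξ in {ξ : E 2 | c / 2 ≤ ‖ξ‖ ∧ ‖ξ‖ ≤ 2 * c}, ‖h ξ‖ₑ ^ 2

/-- Q7 all octaves -/
def tSS : Prop := ∃ C : ℝ≥0, ∀ (m : ℕ) (f : E 2 → ℂ), 1 ≤ m → Integrable f → MemLp f 2 →
  ∫⁻ x, (⨆ (R : ℝ) (_ : 0 < R), ‖T (muS m R) (𝓕 f) x‖ₑ) ^ 2 ≤
    C * m * ((lg m : ℕ) : ℝ≥0∞) ^ 5 * ∫⁻ x, ‖f x‖ₑ ^ 2

/-- Q8 pointwise decomposition, measurability -/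
def tPt : Prop := ∀ (m : ℕ) (f : E 2 → ℂ), Integrable f →
  (∀ (R : ℝ) (x : E 2), 0 < R → ‖S f R x‖ₑ ≤
    ‖T (pm R) (𝓕 f) x‖ₑ + ‖T (muS m R) (𝓕 f) x‖ₑ + ∑' i, ‖T (mul (i + m) R) (𝓕 f) x‖ₑ) ∧
  Measurable (fun x => ⨆ (R : ℝ) (_ : 0 < R), ‖T (muS m R) (𝓕 f) x‖ₑ)

/-- Q9 radii `2^j (1 + k/2^m)`, `j ∈ ℤ`, `k < 2^m` -/
def tDD : Prop := ∃ C : ℝ≥0, ∀ (m : ℕ) (f : E 2 → ℂ), 1 ≤ m → Integrable f → MemLp f 2 →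
  ∫⁻ x, (⨆ (j : ℤ) (k ∈ Finset.range (2 ^ m)), ‖S f (2 ^ j * (1 + k / 2 ^ m)) x‖ₑ) ^ 2 ≤
    C * m * ((lg m : ℕ) : ℝ≥0∞) ^ 5 * ∫⁻ x, ‖f x‖ₑ ^ 2

/-- Q10 the Nash quotient -/
def tFB : Prop := ∀ s : ℝ, 0 < s → ∃ C : ℝ, ∀ (f : E 2 → ℂ) (Q : ℝ), Measurable f →
  Integrable f → MemLp f 2 → 1 ≤ Q →
  (∫⁻ x, ‖f x‖ₑ) ^ s * (∫⁻ ξ, ENNReal.ofReal (‖ξ‖ ^ (2 * s)) * ‖𝓕 f ξ‖ₑ ^ 2) ^ (1 / 2 : ℝ)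
    ≤ ENNReal.ofReal Q * ((∫⁻ x, ‖f x‖ₑ ^ 2) ^ (1 / 2 : ℝ)) ^ (1 + s) →
  ∫⁻ x, Sstar f x ^ 2 ≤
    ENNReal.ofReal (C * (1 + Real.log Q) * (1 + Real.log (1 + Real.log Q)) ^ 5) *
      ∫⁻ x, ‖f x‖ₑ ^ 2

/-! ### Local estimates, almost everywhere convergence -/

/-- Q11 local orthogonality -/
def tAH0 : Prop := ∃ C : ℝ≥0, ∀ (g : E 2 → ℂ) (x0 : E 2) (V : ℝ≥0∞), BdE g →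
  (∀ ξ, volume ({η | g η ≠ 0} ∩ Metric.closedBall ξ 1) ≤ V) →
  ∫⁻ x in Metric.closedBall x0 1, ‖IE g x‖ₑ ^ 2 ≤ C * V * ∫⁻ ξ, ‖g ξ‖ₑ ^ 2

/-- Q12 area of an annulus in a unit disc -/
def tArea : Prop := ∃ C : ℝ≥0, ∀ (a b : ℝ) (ξ : E 2), 0 ≤ a → a ≤ b →
  volume ({η : E 2 | a ≤ ‖η‖ ∧ ‖η‖ ≤ b} ∩ Metric.closedBall ξ 1) ≤ C * ENNReal.ofReal (b - a)

/-- Q13 fine annuli contribute little on a unit disc -/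
def tAH : Prop := ∃ C : ℝ≥0, ∀ (i : ℕ) (c : ℝ) (h : E 2 → ℂ) (x0 : E 2), 0 < c → Continuous h →
  ∫⁻ x in Metric.closedBall x0 1, (⨆ R ∈ Icc c (2 * c), ‖T (mul i R) h x‖ₑ) ^ 2 ≤
    C * ENNReal.ofReal (c / 2 ^ i) *
      ∫⁻ ξ in {ξ : E 2 | c / 2 ≤ ‖ξ‖ ∧ ‖ξ‖ ≤ 2 * c}, ‖h ξ‖ₑ ^ 2

/-- Q14 local maximal inequality with the weight `lw` -/
def tFA0 : Prop := ∃ C : ℝ≥0, ∀ (f : E 2 → ℂ) (x0 : E 2), Measurable f → Integrable f →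
  MemLp f 2 →
  ∫⁻ x in Metric.closedBall x0 1, Sstar f x ^ 2 ≤ C * ∫⁻ ξ, ‖𝓕 f ξ‖ₑ ^ 2 * ENNReal.ofReal (lw ξ)

/-- Q15 the same for all `g ∈ L²(lw)` on the Fourier side -/
def tFA1 : Prop := ∃ C : ℝ≥0, ∀ (g : E 2 → ℂ) (x0 : E 2), Measurable g →
  ∫⁻ x in Metric.closedBall x0 1, (⨆ (R : ℝ) (_ : 0 < R), ‖BI g R x‖ₑ) ^ 2 ≤
    C * ∫⁻ ξ, ‖g ξ‖ₑ ^ 2 * ENNReal.ofReal (lw ξ)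

/-- Q16 almost everywhere convergence -/
def tFA2 : Prop := ∀ g : E 2 → ℂ, Measurable g → ∫⁻ ξ, ‖g ξ‖ₑ ^ 2 * ENNReal.ofReal (lw ξ) ≠ ⊤ →
  ∀ᵐ x, ∃ l : ℂ, Tendsto (fun R : ℝ => BI g R x) atTop (𝓝 l)

/-- Q16 the limit is `f` -/
def tFA3 : Prop := ∀ f : E 2 → ℂ, Measurable f → Integrable f → MemLp f 2 →
  ∫⁻ ξ, ‖𝓕 f ξ‖ₑ ^ 2 * ENNReal.ofReal (lw ξ) ≠ ⊤ →
  ∀ᵐ x, Tendsto (fun R : ℝ => S f R x) atTop (𝓝 (f x))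

end Pool.Agent.KSP
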