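import Pool.Agent.KSP.Targets2

set_option autoImplicit false

/-! KSP bound for disc partial sums (MP_ee701d_an): the maximal operator over separated radii. -/

namespace Pool.Agent.KSP

open MeasureTheory FourierTransform Set Filter Topology
open scoped ENNReal NNReal
open Pool.Agent.MBS (E ex T S Sstar et ps mul pm Tstar Pstar MF)

/-- Q17 `δ`-separated radii -/
def tDS : Prop := ∃ C : ℝ≥0, ∀ (δ : ℝ) (A : Set ℝ) (f : E 2 → ℂ), 0 < δ → δ ≤ 1 / 2 →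
  (∀ R ∈ A, 0 < R) → (∀ R ∈ A, ∀ R' ∈ A, R < R' → R + δ * R' ≤ R') →
  Measurable f → Integrable f → MemLp f 2 →
  ∫⁻ x, (⨆ R ∈ A, ‖S f R x‖ₑ) ^ 2 ≤
    C * ENNReal.ofReal (Real.log δ⁻¹ * Real.log (3 + Real.log δ⁻¹) ^ 5) * ∫⁻ x, ‖f x‖ₑ ^ 2

end Pool.Agent.KSP
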