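import Pool.Agent.KSP.Targets

set_option autoImplicit false

/-! KSP bound for disc partial sums (MP_ee701d_an): P2, sectors are almost orthogonal on
squares. -/

namespace Pool.Agent.KSP

open MeasureTheory Set
open scoped ENNReal NNReal ComplexConjugate

namespace V2_

lemma nr_cont : Continuous nr := by
  unfold nr
  fun_prop

lemma ann_meas (a b : ℝ) : MeasurableSet (ann a b) := by
  have h1 : ann a b = nr ⁻¹' Ico a b := rfl
  rw [h1]
  exact nr_cont.measurable measurableSet_Ico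

lemma sec_meas (c : ℕ) (p : ℤ) : MeasurableSet (sec c p) := by
  have h1 : Measurable (fun ξ : ℝ × ℝ => ⌊(2 : ℝ) ^ (c / 2) * (ξ.2 / ξ.1)⌋) :=
    Int.measurable_floor.comp ((measurable_snd.div measurable_fst).const_mul _)
  have h2 : sec c p = {ξ : ℝ × ℝ | 0 < ξ.1} ∩
      (fun ξ : ℝ × ℝ => ⌊(2 : ℝ) ^ (c / 2) * (ξ.2 / ξ.1)⌋) ⁻¹' {p} := rfl
  rw [h2]
  exact (measurableSet_lt measurable_const measurable_fst).inter (h1 (measurableSet_singleton _))

lemma Bd_indicator {h : ℝ × ℝ → ℂ} (hh : Bd h) {S : Set (ℝ × ℝ)} (hS : MeasurableSet S) :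
    Bd (S.indicator h) := by
  obtain ⟨h1, ⟨B, hB⟩, ⟨R, hR⟩⟩ := hh
  refine ⟨h1.indicator hS, ⟨B, fun ξ => ?_⟩, ⟨R, fun ξ hξ => ?_⟩⟩
  · by_cases hx : ξ ∈ S
    · rw [indicator_of_mem hx]; exact hB ξ
    · rw [indicator_of_notMem hx, norm_zero]
      exact (norm_nonneg _).trans (hB ξ)
  · by_cases hx : ξ ∈ S
    · rw [indicator_of_mem hx] at hξ; exact hR ξ hξ
    · rw [indicator_of_notMem hx] at hξ; exact absurd rfl hξ

lemma ee_cont : Continuous ee := by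
  unfold ee
  fun_prop

lemma ee_norm (t : ℝ) : ‖ee t‖ = 1 := by
  unfold ee
  have h : 2 * (Real.pi : ℂ) * Complex.I * (t : ℂ) = ((2 * Real.pi * t : ℝ) : ℂ) * Complex.I := by
    push_cast
    ring
  rw [h, Complex.norm_exp_ofReal_mul_I]

lemma dot_cont : Continuous (fun p : (ℝ × ℝ) × (ℝ × ℝ) => dot p.1 p.2) := by
  unfold dot
  fun_prop

lemma Ex_meas {h : ℝ × ℝ → ℂ} (hh : Measurable h) : Measurable (Ex h) := by
  have h1 : StronglyMeasurable (fun p : (ℝ × ℝ) × (ℝ × ℝ) => h p.2 * ee (dot p.1 p.2)) :=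
    ((hh.comp measurable_snd).mul (ee_cont.measurable.comp dot_cont.measurable)).stronglyMeasurable
  exact (h1.integral_prod_right (ν := volume)).measurable

/-- Integrability of the integrand. -/
lemma Ex_integrable {h : ℝ × ℝ → ℂ} (hh : Bd h) (x : ℝ × ℝ) :
    Integrable (fun ξ => h ξ * ee (dot x ξ)) := by
  obtain ⟨h1, ⟨B, hB⟩, ⟨R, hR⟩⟩ := hh
  have hm : Measurable (fun ξ => h ξ * ee (dot x ξ)) := by
    refine h1.mul (ee_cont.measurable.comp ?_)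
    exact (dot_cont.comp (Continuous.prodMk_right x)).measurable
  have hsupp : (fun ξ => h ξ * ee (dot x ξ)) =
      (Icc (-R) R ×ˢ Icc (-R) R).indicator (fun ξ => h ξ * ee (dot x ξ)) := by
    funext ξ
    by_cases hξ : ξ ∈ Icc (-R) R ×ˢ Icc (-R) R
    · rw [indicator_of_mem hξ]
    · rw [indicator_of_notMem hξ]
      by_cases h0 : h ξ = 0
      · rw [h0, zero_mul]
      · exfalso
        obtain ⟨h2, h3⟩ := hR ξ h0
        exact hξ ⟨abs_le.mp h2, abs_le.mp h3⟩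
  rw [hsupp, integrable_indicator_iff (measurableSet_Icc.prod measurableSet_Icc)]
  refine Measure.integrableOn_of_bounded (M := B) ?_ hm.aestronglyMeasurable ?_
  · rw [Measure.volume_eq_prod, Measure.prod_prod]
    simp only [Real.volume_Icc]
    exact (ENNReal.mul_lt_top ENNReal.ofReal_lt_top ENNReal.ofReal_lt_top).ne
  · refine Filter.Eventually.of_forall fun ξ => ?_
    rw [norm_mul, ee_norm, mul_one]
    exact hB ξ

lemma Ex_sum {ι : Type} (S : Finset ι) (h : ι → ℝ × ℝ → ℂ) (hh : ∀ p ∈ S, Bd (h p)) (x : ℝ × ℝ) :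
    Ex (fun ξ => ∑ p ∈ S, h p ξ) x = ∑ p ∈ S, Ex (h p) x := by
  unfold Ex
  rw [← integral_finsetSum _ fun p hp => Ex_integrable (hh p hp) x]
  refine integral_congr_ae (Filter.Eventually.of_forall fun ξ => ?_)
  simp only
  rw [Finset.sum_mul]

lemma Qi_meas (c : ℕ) : Measurable (Qi c) := by
  unfold Qi
  exact (Int.measurable_floor.comp (measurable_fst.div_const _)).prodMk
    (Int.measurable_floor.comp (measurable_snd.div_const _))

/-- the weight -/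
noncomputable def w (v : ℤ × ℤ) : ℝ≥0∞ :=
  ENNReal.ofReal (1 / ((1 + |(v.1 : ℝ)|) * (1 + |(v.2 : ℝ)|)) ^ 2)

lemma summable_one : Summable (fun n : ℤ => 1 / (1 + |(n : ℝ)|) ^ 2) := by
  have h1 : Summable (fun n : ℕ => 1 / (1 + |((n : ℤ) : ℝ)|) ^ 2) := by
    have h2 : Summable (fun n : ℕ => 1 / (((n + 1 : ℕ) : ℝ)) ^ 2) :=
      (summable_nat_add_iff 1).mpr (Real.summable_one_div_nat_pow.mpr one_lt_two)
    refine h2.congr fun n => ?_
    push_cast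
    rw [abs_of_nonneg (by positivity : (0 : ℝ) ≤ (n : ℝ)), add_comm]
  refine Summable.of_nat_of_neg h1 ?_
  refine h1.congr fun n => ?_
  push_cast
  rw [abs_neg]

lemma w_fin : ∑' v : ℤ × ℤ, w v ≠ ∞ := by
  have h1 : Summable (fun v : ℤ × ℤ => (1 / (1 + |(v.1 : ℝ)|) ^ 2) * (1 / (1 + |(v.2 : ℝ)|) ^ 2)) :=
    summable_one.mul_of_nonneg summable_one (fun n => by positivity) (fun n => by positivity)
  have h2 : (fun v : ℤ × ℤ => w v) = fun v : ℤ × ℤ =>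
      ENNReal.ofReal ((1 / (1 + |(v.1 : ℝ)|) ^ 2) * (1 / (1 + |(v.2 : ℝ)|) ^ 2)) := by
    funext v
    unfold w
    congr 1
    rw [mul_pow]
    field_simp
  rw [h2]
  exact h1.tsum_ofReal_ne_top

/-- The sector of a frequency changes little. -/
lemma supp_aux (c : ℕ) (p p' : ℤ) (ξ η η' : ℝ × ℝ) (h1 : ξ ∈ V0) (h2 : ξ ∈ sec c p)
    (h3 : ξ + η - η' ∈ V0) (h4 : ξ + η - η' ∈ sec c p')
    (hη : |η.2| ≤ 1 / (4 * 2 ^ (c / 2)) ∧ |η.1| ≤ 1 / (4 * 2 ^ (c / 2)))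
    (hη' : |η'.2| ≤ 1 / (4 * 2 ^ (c / 2)) ∧ |η'.1| ≤ 1 / (4 * 2 ^ (c / 2))) :
    |p - p'| ≤ 2 := by
  set D : ℝ := 2 ^ (c / 2) with hD
  have hDpos : 0 < D := by positivity
  obtain ⟨ha, hb⟩ := h2
  obtain ⟨ha', hb'⟩ := h4
  rw [← hD] at hb hb'
  set ζ : ℝ × ℝ := ξ + η - η' with hζ
  have hζ1 : ζ.1 = ξ.1 + η.1 - η'.1 := rfl
  have hζ2 : ζ.2 = ξ.2 + η.2 - η'.2 := rfl
  have hsl : |ξ.2| ≤ ξ.1 := h1.1
  have hsl' : |ζ.2| ≤ ζ.1 := h3.1
  have hn : 1 ≤ ζ.1 ^ 2 + ζ.2 ^ 2 := by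
    have h5 : 1 ≤ nr ζ := h3.2.1
    unfold nr at h5
    have h6 : (1 : ℝ) ^ 2 ≤ (√(ζ.1 ^ 2 + ζ.2 ^ 2)) ^ 2 := pow_le_pow_left₀ zero_le_one h5 2
    rwa [Real.sq_sqrt (by positivity), one_pow] at h6
  have hz : (7 / 10 : ℝ) < ζ.1 := by
    by_contra hcon
    push Not at hcon
    have h7 : ζ.2 ^ 2 ≤ ζ.1 ^ 2 := by
      rw [← sq_abs ζ.2]
      exact pow_le_pow_left₀ (abs_nonneg _) hsl' 2
    nlinarith
  -- difference of the slopes
  have hd1 : |η.1 - η'.1| ≤ 1 / (2 * D) := by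
    have h8 : |η.1 - η'.1| ≤ |η.1| + |η'.1| := abs_sub _ _
    have h9 : 1 / (2 * D) = 1 / (4 * D) + 1 / (4 * D) := by field_simp; ring
    rw [h9]
    exact h8.trans (add_le_add hη.2 hη'.2)
  have hd2 : |η.2 - η'.2| ≤ 1 / (2 * D) := by
    have h8 : |η.2 - η'.2| ≤ |η.2| + |η'.2| := abs_sub _ _
    have h9 : 1 / (2 * D) = 1 / (4 * D) + 1 / (4 * D) := by field_simp; ring
    rw [h9]
    exact h8.trans (add_le_add hη.1 hη'.1)
  have hdiff : D * (ζ.2 / ζ.1) - D * (ξ.2 / ξ.1) =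
      D * (((η.2 - η'.2) * ξ.1 - (η.1 - η'.1) * ξ.2) / (ξ.1 * ζ.1)) := by
    have hz0 : ζ.1 ≠ 0 := ha'.ne'
    have hx0 : ξ.1 ≠ 0 := ha.ne'
    field_simp
    rw [hζ1, hζ2]
    ring
  have hnum : |(η.2 - η'.2) * ξ.1 - (η.1 - η'.1) * ξ.2| ≤ ξ.1 / D := by
    calc |(η.2 - η'.2) * ξ.1 - (η.1 - η'.1) * ξ.2|
        ≤ |(η.2 - η'.2) * ξ.1| + |(η.1 - η'.1) * ξ.2| := abs_sub _ _
      _ = |η.2 - η'.2| * ξ.1 + |η.1 - η'.1| * |ξ.2| := by
          rw [abs_mul, abs_mul, abs_of_pos ha]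
      _ ≤ 1 / (2 * D) * ξ.1 + 1 / (2 * D) * ξ.1 :=
          add_le_add (mul_le_mul_of_nonneg_right hd2 ha.le)
            (mul_le_mul hd1 hsl (abs_nonneg _) (by positivity))
      _ = ξ.1 / D := by field_simp; ring
  have hbound : |D * (ζ.2 / ζ.1) - D * (ξ.2 / ξ.1)| < 2 := by
    rw [hdiff, abs_mul, abs_div, abs_of_pos hDpos, abs_of_pos (mul_pos ha ha'), mul_div_assoc',
      div_lt_iff₀ (mul_pos ha ha')]
    calc D * |(η.2 - η'.2) * ξ.1 - (η.1 - η'.1) * ξ.2| ≤ D * (ξ.1 / D) :=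
          mul_le_mul_of_nonneg_left hnum hDpos.le
      _ = ξ.1 := by field_simp
      _ < 2 * (ξ.1 * ζ.1) := by nlinarith
  rw [abs_lt] at hbound
  have f1 := Int.floor_le (D * (ξ.2 / ξ.1))
  have f2 := Int.lt_floor_add_one (D * (ξ.2 / ξ.1))
  have f3 := Int.floor_le (D * (ζ.2 / ζ.1))
  have f4 := Int.lt_floor_add_one (D * (ζ.2 / ζ.1))
  rw [hb] at f1 f2
  rw [hb'] at f3 f4
  rw [abs_le]
  constructor
  · have : (-3 : ℝ) < p - p' := by linarith
    have h10 : (-3 : ℤ) < p - p' := by exact_mod_cast this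
    omega
  · have : (p : ℝ) - p' < 3 := by linarith
    have h10 : p - p' < 3 := by exact_mod_cast this
    omega

/-- decomposition into sectors -/
lemma decomp (c : ℕ) (h : ℝ × ℝ → ℂ) (hV : ∀ ξ, h ξ ≠ 0 → ξ ∈ V0) (ξ : ℝ × ℝ) :
    h ξ = ∑ p ∈ Finset.Icc (-(2 ^ (c / 2) : ℤ)) (2 ^ (c / 2)), (sec c p).indicator h ξ := by
  by_cases h0 : h ξ = 0
  · rw [h0, Finset.sum_eq_zero]
    intro p _
    by_cases hp : ξ ∈ sec c p
    · rw [indicator_of_mem hp, h0]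
    · rw [indicator_of_notMem hp]
  · have h1 := hV ξ h0
    have hsl : |ξ.2| ≤ ξ.1 := h1.1
    have hpos : 0 < ξ.1 := by
      rcases (abs_nonneg ξ.2).trans hsl |>.eq_or_lt with h2 | h2
      · exfalso
        have h3 : ξ.2 = 0 := by
          rw [← h2] at hsl
          exact abs_nonpos_iff.mp hsl
        have h4 : 1 ≤ nr ξ := h1.2.1
        unfold nr at h4
        rw [← h2, h3] at h4
        simp at h4
        linarith
      · exact h2
    set D : ℝ := 2 ^ (c / 2) with hD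
    have hDpos : 0 < D := by positivity
    have h5 : |ξ.2 / ξ.1| ≤ 1 := by
      rw [abs_div, abs_of_pos hpos, div_le_one hpos]
      exact hsl
    rw [abs_le] at h5
    set p₀ : ℤ := ⌊(2 : ℝ) ^ (c / 2) * (ξ.2 / ξ.1)⌋ with hp₀
    have hmem : p₀ ∈ Finset.Icc (-(2 ^ (c / 2) : ℤ)) (2 ^ (c / 2)) := by
      rw [Finset.mem_Icc]
      constructor
      · rw [hp₀, Int.le_floor]
        push_cast
        nlinarith
      · have h6 : ((p₀ : ℤ) : ℝ) ≤ ((2 ^ (c / 2) : ℤ) : ℝ) := by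
          refine (Int.floor_le _).trans ?_
          push_cast
          nlinarith
        exact_mod_cast h6
    rw [Finset.sum_eq_single_of_mem p₀ hmem]
    · rw [indicator_of_mem]
      exact ⟨hpos, rfl⟩
    · intro p _ hp
      rw [indicator_of_notMem]
      rintro ⟨_, h7⟩
      exact hp h7.symm

lemma n2_sum (c : ℕ) (h : ℝ × ℝ → ℂ) (hm : Measurable h) (S : Finset ℤ) :
    ∑ p ∈ S, n2 ((sec c p).indicator h) ≤ n2 h := by
  unfold n2
  rw [← lintegral_finsetSum]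
  · refine lintegral_mono fun ξ => ?_
    by_cases hex : ∃ p ∈ S, ξ ∈ sec c p
    · obtain ⟨p₀, hp₀, hmem⟩ := hex
      rw [Finset.sum_eq_single_of_mem p₀ hp₀]
      · rw [indicator_of_mem hmem]
      · intro p _ hp
        rw [indicator_of_notMem, enorm_zero]
        · simp
        · intro h7
          exact hp (h7.2.symm.trans hmem.2)
    · rw [Finset.sum_eq_zero]
      · exact zero_le
      · intro p hp
        rw [indicator_of_notMem, enorm_zero]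
        · simp
        · intro h7
          exact hex ⟨p, hp, h7⟩
  · intro p _
    exact ((hm.indicator (sec_meas c p)).enorm).pow_const 2

lemma FQ_meas (c : ℕ) (F : ℤ × ℤ → ℝ × ℝ → ℝ≥0∞) (hF : ∀ z, Measurable (F z)) (v : ℤ × ℤ) :
    Measurable fun x => F (Qi c x - v) x := by
  have h2 : Measurable (fun y : (ℤ × ℤ) × (ℝ × ℝ) => F y.1 y.2) :=
    measurable_from_prod_countable_right fun z => hF z
  exact h2.comp ((((measurable_of_countable (fun z : ℤ × ℤ => z - v)).comp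
    (Qi_meas c))).prodMk measurable_id)

/-- reindexing of the squares -/
lemma reindex (c : ℕ) (F : ℤ × ℤ → ℝ × ℝ → ℝ≥0∞) (hF : ∀ z, Measurable (F z)) (M : ℝ≥0∞)
    (hM : ∀ v, ∫⁻ x, F (Qi c x - v) x ≤ M) :
    ∑' z : ℤ × ℤ, ∫⁻ x, w (Qi c x - z) * F z x ≤ (∑' v : ℤ × ℤ, w v) * M := by
  have hwm : ∀ z, Measurable fun x => w (Qi c x - z) := fun z =>
    (measurable_of_countable (fun v : ℤ × ℤ => w (v - z))).comp (Qi_meas c)
  have hwF : ∀ z, Measurable fun x => w (Qi c x - z) * F z x := fun z => (hwm z).mul (hF z)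
  have hvF : ∀ v, Measurable fun x => w v * F (Qi c x - v) x := fun v =>
    (FQ_meas c F hF v).const_mul _
  calc ∑' z : ℤ × ℤ, ∫⁻ x, w (Qi c x - z) * F z x
      = ∫⁻ x, ∑' z : ℤ × ℤ, w (Qi c x - z) * F z x :=
        (lintegral_tsum fun z => (hwF z).aemeasurable).symm
    _ = ∫⁻ x, ∑' v : ℤ × ℤ, w v * F (Qi c x - v) x := by
        refine lintegral_congr fun x => ?_
        rw [← (Equiv.subLeft (Qi c x)).tsum_eq (fun z => w (Qi c x - z) * F z x)]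
        refine tsum_congr fun v => ?_
        rw [Equiv.subLeft_apply, sub_sub_cancel]
    _ = ∑' v : ℤ × ℤ, ∫⁻ x, w v * F (Qi c x - v) x :=
        lintegral_tsum fun v => (hvF v).aemeasurable
    _ = ∑' v : ℤ × ℤ, w v * ∫⁻ x, F (Qi c x - v) x := by
        refine tsum_congr fun v => ?_
        rw [lintegral_const_mul _ (FQ_meas c F hF v)]
    _ ≤ ∑' v : ℤ × ℤ, w v * M := ENNReal.tsum_le_tsum fun v => mul_le_mul_right (hM v) _
    _ = (∑' v : ℤ × ℤ, w v) * M := ENNReal.tsum_mul_right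

/-- localisation to the squares -/
lemma localise (c q : ℕ) (K : ℝ≥0∞) (g : ℤ × ℤ → ℝ × ℝ → ℝ≥0∞) (E : ℕ → ℤ × ℤ → ℝ × ℝ → ℝ≥0∞)
    (hg : ∀ z, Measurable (g z)) (hE : ∀ k z, Measurable (E k z))
    (hlow : ∀ x, 1 ≤ K * g (Qi c x) x) :
    ∫⁻ x, ∑ k ∈ Finset.range q, E k (Qi c x) x ≤
      ∑' z : ℤ × ℤ, ∑ k ∈ Finset.range q, K * ∫⁻ x, g z x * E k z x := by
  have h1 : ∀ k z, Measurable fun x => g z x * E k z x := fun k z => (hg z).mul (hE k z)
  have h2 : ∀ k z, Measurable fun x => K * (g z x * E k z x) := fun k z => (h1 k z).const_mul K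
  have h3 : ∀ z, Measurable fun x => ∑ k ∈ Finset.range q, K * (g z x * E k z x) := fun z =>
    Finset.measurable_fun_sum _ fun k _ => h2 k z
  calc ∫⁻ x, ∑ k ∈ Finset.range q, E k (Qi c x) x
      ≤ ∫⁻ x, ∑' z : ℤ × ℤ, ∑ k ∈ Finset.range q, K * (g z x * E k z x) := by
        refine lintegral_mono fun x => ?_
        refine le_trans ?_ (ENNReal.le_tsum (Qi c x))
        refine Finset.sum_le_sum fun k _ => ?_
        rw [← mul_assoc]
        exact le_mul_of_one_le_left zero_le (hlow x)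
    _ = ∑' z : ℤ × ℤ, ∫⁻ x, ∑ k ∈ Finset.range q, K * (g z x * E k z x) :=
        lintegral_tsum fun z => (h3 z).aemeasurable
    _ = _ := by
        refine tsum_congr fun z => ?_
        rw [lintegral_finsetSum _ fun k _ => h2 k z]
        refine Finset.sum_congr rfl fun k _ => ?_
        rw [lintegral_const_mul _ (h1 k z)]

/-- passage from the cutoff to the weight -/
lemma weight (q : ℕ) (S : Finset ℤ) (K C : ℝ≥0∞) (g u : ℝ × ℝ → ℝ≥0∞)
    (E : ℕ → ℝ × ℝ → ℝ≥0∞) (F : ℕ → ℤ → ℝ × ℝ → ℝ≥0∞) (hg : Measurable g) (hu : Measurable u)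
    (hF : ∀ k p, Measurable (F k p)) (hup : ∀ x, K * g x ≤ C * u x)
    (hort : ∀ k, ∫⁻ x, g x * E k x ≤ 5 * ∑ p ∈ S, ∫⁻ x, g x * F k p x) :
    ∑ k ∈ Finset.range q, K * ∫⁻ x, g x * E k x ≤
      5 * C * ∫⁻ x, u x * ∑ p ∈ S, ∑ k ∈ Finset.range q, F k p x := by
  have h1 : ∀ k p, Measurable fun x => g x * F k p x := fun k p => hg.mul (hF k p)
  have h2 : ∀ k p, Measurable fun x => u x * F k p x := fun k p => hu.mul (hF k p)
  have h3 : ∀ p, Measurable fun x => ∑ k ∈ Finset.range q, u x * F k p x := fun p =>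
    Finset.measurable_fun_sum _ fun k _ => h2 k p
  have e1 : ∀ k p, K * ∫⁻ x, g x * F k p x ≤ C * ∫⁻ x, u x * F k p x := by
    intro k p
    rw [← lintegral_const_mul _ (h1 k p), ← lintegral_const_mul _ (h2 k p)]
    refine lintegral_mono fun x => ?_
    simp only
    rw [← mul_assoc, ← mul_assoc]
    exact mul_le_mul_left (hup x) _
  have e2 : ∫⁻ x, u x * ∑ p ∈ S, ∑ k ∈ Finset.range q, F k p x =
      ∑ p ∈ S, ∑ k ∈ Finset.range q, ∫⁻ x, u x * F k p x := by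
    have e3 : ∀ x, u x * ∑ p ∈ S, ∑ k ∈ Finset.range q, F k p x =
        ∑ p ∈ S, ∑ k ∈ Finset.range q, u x * F k p x := by
      intro x
      rw [Finset.mul_sum]
      refine Finset.sum_congr rfl fun p _ => ?_
      rw [Finset.mul_sum]
    rw [lintegral_congr e3, lintegral_finsetSum _ fun p _ => h3 p]
    refine Finset.sum_congr rfl fun p _ => ?_
    rw [lintegral_finsetSum _ fun k _ => h2 k p]
  calc ∑ k ∈ Finset.range q, K * ∫⁻ x, g x * E k x
      ≤ ∑ k ∈ Finset.range q, K * (5 * ∑ p ∈ S, ∫⁻ x, g x * F k p x) :=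
        Finset.sum_le_sum fun k _ => mul_le_mul_right (hort k) K
    _ = ∑ k ∈ Finset.range q, 5 * ∑ p ∈ S, K * ∫⁻ x, g x * F k p x := by
        refine Finset.sum_congr rfl fun k _ => ?_
        rw [mul_left_comm, Finset.mul_sum]
    _ ≤ ∑ k ∈ Finset.range q, 5 * ∑ p ∈ S, C * ∫⁻ x, u x * F k p x :=
        Finset.sum_le_sum fun k _ => mul_le_mul_right (Finset.sum_le_sum fun p _ => e1 k p) 5
    _ = 5 * C * ∑ p ∈ S, ∑ k ∈ Finset.range q, ∫⁻ x, u x * F k p x := by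
        have e4 : ∑ k ∈ Finset.range q, ∑ p ∈ S, C * ∫⁻ x, u x * F k p x =
            C * ∑ p ∈ S, ∑ k ∈ Finset.range q, ∫⁻ x, u x * F k p x := by
          rw [Finset.sum_comm, Finset.mul_sum]
          refine Finset.sum_congr rfl fun p _ => ?_
          rw [Finset.mul_sum]
        rw [← Finset.mul_sum, e4, mul_assoc]
    _ = _ := by rw [e2]

end V2_

open V2_ in
/-- P2 -/
theorem pV2 (h1 : tV1) (hO : tOL2) (hP : tPar) : tV2 := by
  obtain ⟨C₁, hC₁⟩ := h1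
  obtain ⟨CP, hCP⟩ := hP
  refine ⟨5 * CP ^ 2 * C₁ * (∑' v : ℤ × ℤ, w v).toNNReal, ?_⟩
  intro c κ q a lam h hh hV hmono hle
  set D : ℝ := 2 ^ (c / 2) with hD
  have hDpos : 0 < D := by positivity
  set a₀ : ℝ := 1 / (4 * D) with ha₀
  have ha₀pos : 0 < a₀ := by positivity
  obtain ⟨hPB, hPlow, hPup, -⟩ := hCP a₀ a₀ 0 ha₀pos ha₀pos
  set G : ℤ × ℤ → ℝ × ℝ → ℂ := fun z => par a₀ a₀ 0 (cen a₀ a₀ 0 z) with hG
  set S : Finset ℤ := Finset.Icc (-(2 ^ (c / 2) : ℤ)) (2 ^ (c / 2)) with hS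
  set B : ℕ → ℤ × ℤ → Set (ℝ × ℝ) := fun k z =>
    ann (a + lam k z / 2 ^ c) (a + lam (k + 1) z / 2 ^ c) with hB
  have hBm : ∀ k z, MeasurableSet (B k z) := fun k z => ann_meas _ _
  set hp : ℤ → ℝ × ℝ → ℂ := fun p => (sec c p).indicator h with hhp
  have hpB : ∀ p, Bd (hp p) := fun p => Bd_indicator hh (sec_meas c p)
  have hpBB : ∀ k z p, Bd ((B k z).indicator (hp p)) := fun k z p => Bd_indicator (hpB p) (hBm k z)
  -- the functions
  set F : ℕ → ℤ → ℤ × ℤ → ℝ × ℝ → ℝ≥0∞ := fun k p z x =>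
    ‖Ex ((B k z).indicator (hp p)) x‖ₑ ^ 2 with hF
  have hFm : ∀ k p z, Measurable (F k p z) := fun k p z =>
    ((Ex_meas (hpBB k z p).1).enorm).pow_const 2
  have hsumEx : ∀ k z x, Ex ((B k z).indicator h) x =
      ∑ p ∈ S, Ex ((B k z).indicator (hp p)) x := by
    intro k z x
    rw [← Ex_sum S (fun p => (B k z).indicator (hp p)) (fun p _ => hpBB k z p) x]
    congr 1
    funext ξ
    by_cases hξ : ξ ∈ B k z
    · rw [indicator_of_mem hξ, decomp c h hV ξ]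
      refine Finset.sum_congr rfl fun p _ => ?_
      rw [indicator_of_mem hξ]
    · rw [indicator_of_notMem hξ, Finset.sum_eq_zero]
      intro p _
      rw [indicator_of_notMem hξ]
  -- the constant
  set K : ℝ≥0∞ := ENNReal.ofReal (256 * D ^ 4) with hK
  have haa : a₀ * a₀ = 1 / (16 * D ^ 2) := by
    rw [ha₀]
    field_simp
    ring
  have hfl1 : ∀ x : ℝ × ℝ, ⌊4 * a₀ * x.1⌋ = (Qi c x).1 := by
    intro x
    unfold Qi
    simp only
    congr 1
    rw [ha₀, hD]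
    field_simp
  have hfl2 : ∀ x : ℝ × ℝ, ⌊4 * a₀ * (x.2 - 0 * x.1)⌋ = (Qi c x).2 := by
    intro x
    unfold Qi
    simp only
    congr 1
    rw [ha₀, hD, zero_mul, sub_zero]
    field_simp
  have hlow : ∀ x : ℝ × ℝ, 1 ≤ K * ‖Ex (G (Qi c x)) x‖ₑ ^ 2 := by
    intro x
    have h2 := hPlow (Qi c x) x (hfl1 x) (hfl2 x)
    rw [haa] at h2
    rw [← ofReal_norm, ← ENNReal.ofReal_pow (norm_nonneg _), hK,
      ← ENNReal.ofReal_mul (by positivity), ← ENNReal.ofReal_one]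
    refine ENNReal.ofReal_le_ofReal ?_
    have h3 : (1 / (16 * D ^ 2)) ^ 2 ≤ ‖Ex (G (Qi c x)) x‖ ^ 2 :=
      pow_le_pow_left₀ (by positivity) h2 2
    calc (1 : ℝ) = 256 * D ^ 4 * (1 / (16 * D ^ 2)) ^ 2 := by field_simp; ring
      _ ≤ 256 * D ^ 4 * ‖Ex (G (Qi c x)) x‖ ^ 2 := mul_le_mul_of_nonneg_left h3 (by positivity)
  have hup : ∀ (z : ℤ × ℤ) (x : ℝ × ℝ), K * ‖Ex (G z) x‖ₑ ^ 2 ≤ (CP : ℝ≥0∞) ^ 2 * w (Qi c x - z) := by
    intro z x
    have h2 := hPup z x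
    rw [hfl1, hfl2, haa] at h2
    have h4 : ‖Ex (G z) x‖ ^ 2 ≤ (CP * (1 / (16 * D ^ 2)) / ((1 + |(((Qi c x).1 : ℝ) - z.1)|) *
      (1 + |(((Qi c x).2 : ℝ) - z.2)|))) ^ 2 := pow_le_pow_left₀ (norm_nonneg _) h2 2
    rw [← ofReal_norm, ← ENNReal.ofReal_pow (norm_nonneg _), hK,
      ← ENNReal.ofReal_mul (by positivity)]
    unfold w
    rw [← ENNReal.ofReal_coe_nnreal (p := CP), ← ENNReal.ofReal_pow (NNReal.coe_nonneg _),
      ← ENNReal.ofReal_mul (by positivity)]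
    refine ENNReal.ofReal_le_ofReal ?_
    have h5 : 256 * D ^ 4 * (CP * (1 / (16 * D ^ 2)) / ((1 + |(((Qi c x).1 : ℝ) - z.1)|) *
        (1 + |(((Qi c x).2 : ℝ) - z.2)|))) ^ 2 =
        (CP : ℝ) ^ 2 * (1 / ((1 + |(((Qi c x).1 : ℝ) - z.1)|) *
        (1 + |(((Qi c x).2 : ℝ) - z.2)|)) ^ 2) := by
      have h6 : 0 < 1 + |(((Qi c x).1 : ℝ) - z.1)| := by positivity
      have h7 : 0 < 1 + |(((Qi c x).2 : ℝ) - z.2)| := by positivity
      field_simp
      ring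
    have h8 : (((Qi c x - z).1 : ℤ) : ℝ) = ((Qi c x).1 : ℝ) - z.1 := by
      rw [Prod.fst_sub]; push_cast; ring
    have h9 : (((Qi c x - z).2 : ℤ) : ℝ) = ((Qi c x).2 : ℝ) - z.2 := by
      rw [Prod.snd_sub]; push_cast; ring
    rw [h8, h9, ← h5]
    exact mul_le_mul_of_nonneg_left h4 (by positivity)
  -- orthogonality on one square
  have hort : ∀ (k : ℕ) (z : ℤ × ℤ),
      ∫⁻ x, ‖Ex (G z) x‖ₑ ^ 2 * ‖Ex ((B k z).indicator h) x‖ₑ ^ 2 ≤
      5 * ∑ p ∈ S, ∫⁻ x, ‖Ex (G z) x‖ₑ ^ 2 * F k p z x := by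
    intro k z
    have h2 := hO S 2 (fun p => (B k z).indicator (hp p)) (G z) (fun p => hpBB k z p) (hPB _)
      (by
        intro p p' ξ η η' hξ hη hη' hξ'
        have hpar : ∀ η : ℝ × ℝ, G z η ≠ 0 →
            |η.2| ≤ 1 / (4 * 2 ^ (c / 2)) ∧ |η.1| ≤ 1 / (4 * 2 ^ (c / 2)) := by
          intro η hη
          simp only [hG, par] at hη
          split_ifs at hη with h3
          · rw [zero_mul, add_zero] at h3
            exact h3
          · exact absurd rfl hη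
        have hmem : ∀ (p : ℤ) (ξ : ℝ × ℝ), (B k z).indicator (hp p) ξ ≠ 0 →
            ξ ∈ V0 ∧ ξ ∈ sec c p := by
          intro p ξ hξ
          have h3 : ξ ∈ B k z := by
            by_contra hcon
            rw [indicator_of_notMem hcon] at hξ
            exact hξ rfl
          rw [indicator_of_mem h3] at hξ
          have h4 : ξ ∈ sec c p := by
            by_contra hcon
            simp only [hhp] at hξ
            rw [indicator_of_notMem hcon] at hξ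
            exact hξ rfl
          simp only [hhp] at hξ
          rw [indicator_of_mem h4] at hξ
          exact ⟨hV ξ hξ, h4⟩
        obtain ⟨m1, m2⟩ := hmem p ξ hξ
        obtain ⟨m3, m4⟩ := hmem p' _ hξ'
        have := supp_aux c p p' ξ η η' m1 m2 m3 m4 (hpar η hη) (hpar η' hη')
        exact_mod_cast this)
    have h3 : ((2 : ℕ) : ℝ≥0∞) * ((2 : ℕ) : ℝ≥0∞) + 1 = 5 := by norm_num
    have h4 : (2 * ((2 : ℕ) : ℝ≥0∞) + 1) = 5 := by norm_num
    rw [h4] at h2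
    refine le_trans (lintegral_mono fun x => ?_) h2
    rw [hsumEx]
  -- main chain
  have hGm : ∀ z, Measurable fun x => ‖Ex (G z) x‖ₑ ^ 2 := fun z =>
    ((Ex_meas (hPB _).1).enorm).pow_const 2
  have hEm : ∀ k z, Measurable fun x => ‖Ex ((B k z).indicator h) x‖ₑ ^ 2 := fun k z =>
    ((Ex_meas (Bd_indicator hh (hBm k z)).1).enorm).pow_const 2
  have stepA := localise c q K (fun z x => ‖Ex (G z) x‖ₑ ^ 2)
    (fun k z x => ‖Ex ((B k z).indicator h) x‖ₑ ^ 2) hGm hEm hlow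
  have stepB : ∀ z : ℤ × ℤ, ∑ k ∈ Finset.range q,
      K * ∫⁻ x, ‖Ex (G z) x‖ₑ ^ 2 * ‖Ex ((B k z).indicator h) x‖ₑ ^ 2 ≤
      5 * (CP : ℝ≥0∞) ^ 2 *
        ∫⁻ x, w (Qi c x - z) * ∑ p ∈ S, ∑ k ∈ Finset.range q, F k p z x := by
    intro z
    exact weight q S K ((CP : ℝ≥0∞) ^ 2) (fun x => ‖Ex (G z) x‖ₑ ^ 2) (fun x => w (Qi c x - z))
      (fun k x => ‖Ex ((B k z).indicator h) x‖ₑ ^ 2) (fun k p x => F k p z x) (hGm z)
      ((measurable_of_countable (fun v : ℤ × ℤ => w (v - z))).comp (Qi_meas c))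
      (fun k p => hFm k p z) (fun x => hup z x) (fun k => hort k z)
  -- the estimate for one sector
  have hV1 : ∀ (v : ℤ × ℤ) (p : ℤ),
      ∫⁻ x, ∑ k ∈ Finset.range q, F k p (Qi c x - v) x ≤
        C₁ * ((κ + 1 : ℕ) : ℝ≥0∞) * ((lg q + lg (κ + 1) : ℕ) : ℝ≥0∞) * n2 (hp p) := by
    intro v p
    refine hC₁ c κ q p a (fun k x => lam k (Qi c x - v)) (hp p) (hpB p) ?_ ?_ ?_ ?_
    · intro ξ hξ
      have h4 : ξ ∈ sec c p := by
        by_contra hcon
        simp only [hhp] at hξ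
        rw [indicator_of_notMem hcon] at hξ
        exact hξ rfl
      simp only [hhp] at hξ
      rw [indicator_of_mem h4] at hξ
      exact ⟨hV ξ hξ, h4⟩
    · intro k
      exact (measurable_of_countable (fun z : ℤ × ℤ => lam k (z - v))).comp (Qi_meas c)
    · intro k x
      exact hmono k _
    · intro k x
      exact hle k _
  have hFsum : ∀ z p, Measurable fun x => ∑ k ∈ Finset.range q, F k p z x := fun z p =>
    Finset.measurable_fun_sum _ fun k _ => hFm k p z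
  have hFF : ∀ z, Measurable fun x => ∑ p ∈ S, ∑ k ∈ Finset.range q, F k p z x := fun z =>
    Finset.measurable_fun_sum _ fun p _ => hFsum z p
  have hM : ∀ v, ∫⁻ x, ∑ p ∈ S, ∑ k ∈ Finset.range q, F k p (Qi c x - v) x ≤
      C₁ * ((κ + 1 : ℕ) : ℝ≥0∞) * ((lg q + lg (κ + 1) : ℕ) : ℝ≥0∞) * n2 h := by
    intro v
    have h2 : ∀ p, Measurable fun x => ∑ k ∈ Finset.range q, F k p (Qi c x - v) x := fun p =>
      FQ_meas c (fun z x => ∑ k ∈ Finset.range q, F k p z x) (fun z => hFsum z p) v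
    rw [lintegral_finsetSum _ fun p _ => h2 p]
    refine (Finset.sum_le_sum fun p _ => hV1 v p).trans ?_
    rw [← Finset.mul_sum]
    exact mul_le_mul_right (n2_sum c h hh.1 S) _
  have stepC := reindex c (fun z x => ∑ p ∈ S, ∑ k ∈ Finset.range q, F k p z x) hFF _ hM
  calc ∫⁻ x, ∑ k ∈ Finset.range q, ‖Ex ((ann (a + lam k (Qi c x) / 2 ^ c)
      (a + lam (k + 1) (Qi c x) / 2 ^ c)).indicator h) x‖ₑ ^ 2
      ≤ ∑' z : ℤ × ℤ, 5 * (CP : ℝ≥0∞) ^ 2 *
        ∫⁻ x, w (Qi c x - z) * ∑ p ∈ S, ∑ k ∈ Finset.range q, F k p z x :=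
        stepA.trans (ENNReal.tsum_le_tsum stepB)
    _ = 5 * (CP : ℝ≥0∞) ^ 2 * ∑' z : ℤ × ℤ,
        ∫⁻ x, w (Qi c x - z) * ∑ p ∈ S, ∑ k ∈ Finset.range q, F k p z x :=
        ENNReal.tsum_mul_left
    _ ≤ 5 * (CP : ℝ≥0∞) ^ 2 * ((∑' v : ℤ × ℤ, w v) *
        (C₁ * ((κ + 1 : ℕ) : ℝ≥0∞) * ((lg q + lg (κ + 1) : ℕ) : ℝ≥0∞) * n2 h)) :=
        mul_le_mul_right stepC _
    _ = _ := by
        rw [ENNReal.coe_mul, ENNReal.coe_toNNReal w_fin, ENNReal.coe_mul, ENNReal.coe_mul,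
          ENNReal.coe_pow]
        push_cast
        ring

end Pool.Agent.KSP
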